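import Pool.Agent.CUSP.Targets2

/-!
# CUSP: a small coefficient implies that the inverse branch is close to the identity
-/

set_option autoImplicit false

open Complex Filter Topology Set MeasureTheory
open Pool.Agent.Limb (F)
open Pool.Agent.PLim (Rho)
open Pool.Agent.MEY (Pt)
open Pool.Agent.PSat (Comp Sat)
open Pool.Agent.AEN (vm Hp Exn)

namespace Pool.Agent.CUSP

namespace NID_

/-- The statement of `T_KDI` for a fixed constant. -/
def Kd (C0 : ℝ) : Prop := ∀ (a : ℂ) (R : ℝ) (g : ℂ → ℂ), 0 < R →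
  DifferentiableOn ℂ g (Metric.ball a R) → InjOn g (Metric.ball a R) →
  deriv g a ≠ 0 ∧ Metric.ball (g a) (R * ‖deriv g a‖ / C0) ⊆ g '' Metric.ball a R ∧
  ∀ z : ℂ, ‖z - a‖ ≤ R / 2 → ‖deriv g z‖ ≤ C0 * ‖deriv g a‖ ∧ ‖deriv g a‖ ≤ C0 * ‖deriv g z‖ ∧
    ‖g z - g a‖ ≤ C0 * ‖deriv g a‖ * ‖z - a‖ ∧ ‖deriv g a‖ * ‖z - a‖ ≤ C0 * ‖g z - g a‖

/-- The growth of a normalized univalent function along a radius. -/
theorem grow {C0 : ℝ} (hC0 : 1 ≤ C0) (kd : Kd C0) (g : ℂ → ℂ)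
    (hg : DifferentiableOn ℂ g (Metric.ball 0 1)) (hi : InjOn g (Metric.ball 0 1))
    (g0 : g 0 = 0) (g1 : deriv g 0 = 1) (x : ℂ) (hx : ‖x‖ ≤ 15 / 16) :
    ∀ i : ℕ, i ≤ 30 → ‖deriv g (((i / 30 : ℝ) : ℂ) * x)‖ ≤ C0 ^ i ∧
      ‖g (((i / 30 : ℝ) : ℂ) * x)‖ ≤ i * C0 ^ i := by
  intro i
  induction i with
  | zero =>
    intro _
    simp [g0, g1]
  | succ i ih =>
    intro h30
    obtain ⟨h1, h2⟩ := ih (by omega)
    have hi30 : (i : ℝ) ≤ 30 := by exact_mod_cast (by omega : i ≤ 30)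
    have hn : ‖((i / 30 : ℝ) : ℂ) * x‖ ≤ 15 / 16 := by
      rw [norm_mul, Complex.norm_real, Real.norm_of_nonneg (by positivity)]
      have h3 : (i : ℝ) / 30 ≤ 1 := by linarith
      calc (i : ℝ) / 30 * ‖x‖ ≤ 1 * ‖x‖ := by gcongr
        _ ≤ 15 / 16 := by linarith
    have hsub : Metric.ball (((i / 30 : ℝ) : ℂ) * x) (1 / 16) ⊆ Metric.ball (0 : ℂ) 1 := by
      intro z hz
      rw [mem_ball_zero_iff]
      rw [Metric.mem_ball, dist_eq_norm] at hz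
      calc ‖z‖ = ‖(z - ((i / 30 : ℝ) : ℂ) * x) + ((i / 30 : ℝ) : ℂ) * x‖ := by
            rw [sub_add_cancel]
        _ ≤ ‖z - ((i / 30 : ℝ) : ℂ) * x‖ + ‖((i / 30 : ℝ) : ℂ) * x‖ := norm_add_le _ _
        _ < 1 := by linarith
    obtain ⟨-, -, h4⟩ := kd (((i / 30 : ℝ) : ℂ) * x) (1 / 16) g (by norm_num)
      (hg.mono hsub) (hi.mono hsub)
    have hst : (((i + 1 : ℕ) / 30 : ℝ) : ℂ) * x - ((i / 30 : ℝ) : ℂ) * x =
        ((1 / 30 : ℝ) : ℂ) * x := by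
      push_cast
      ring
    have hd : ‖(((i + 1 : ℕ) / 30 : ℝ) : ℂ) * x - ((i / 30 : ℝ) : ℂ) * x‖ ≤ 1 / 16 / 2 := by
      rw [hst, norm_mul, Complex.norm_real, Real.norm_of_nonneg (by norm_num)]
      linarith
    obtain ⟨h5, -, h6, -⟩ := h4 _ hd
    have hC0' : 0 ≤ C0 := by linarith
    have hpow : 0 ≤ C0 ^ i := pow_nonneg hC0' i
    have hd1 : C0 * ‖deriv g (((i / 30 : ℝ) : ℂ) * x)‖ ≤ C0 ^ (i + 1) := by
      calc C0 * ‖deriv g (((i / 30 : ℝ) : ℂ) * x)‖ ≤ C0 * C0 ^ i := by gcongr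
        _ = C0 ^ (i + 1) := by ring
    refine ⟨h5.trans hd1, ?_⟩
    have h7 : ‖g ((((i + 1 : ℕ) / 30 : ℝ) : ℂ) * x)‖ ≤
        ‖g ((((i + 1 : ℕ) / 30 : ℝ) : ℂ) * x) - g (((i / 30 : ℝ) : ℂ) * x)‖ +
          ‖g (((i / 30 : ℝ) : ℂ) * x)‖ := by
      have := norm_add_le (g ((((i + 1 : ℕ) / 30 : ℝ) : ℂ) * x) - g (((i / 30 : ℝ) : ℂ) * x))
        (g (((i / 30 : ℝ) : ℂ) * x))
      rwa [sub_add_cancel] at this
    have h8 : C0 * ‖deriv g (((i / 30 : ℝ) : ℂ) * x)‖ *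
        ‖(((i + 1 : ℕ) / 30 : ℝ) : ℂ) * x - ((i / 30 : ℝ) : ℂ) * x‖ ≤ C0 ^ (i + 1) * 1 := by
      refine mul_le_mul hd1 (by linarith) (norm_nonneg _) (pow_nonneg hC0' _)
    have h9 : C0 ^ i ≤ C0 ^ (i + 1) := pow_le_pow_right₀ hC0 (Nat.le_succ i)
    have h10 : (i : ℝ) * C0 ^ i ≤ i * C0 ^ (i + 1) := by gcongr
    push_cast at *
    linarith

/-- The distance to the identity is bounded. -/
theorem bnd {C0 : ℝ} (hC0 : 1 ≤ C0) (kd : Kd C0) (g : ℂ → ℂ)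
    (hg : DifferentiableOn ℂ g (Metric.ball 0 1)) (hi : InjOn g (Metric.ball 0 1))
    (g0 : g 0 = 0) (g1 : deriv g 0 = 1) (x : ℂ) (hx : ‖x‖ ≤ 15 / 16) :
    ‖g x - x‖ ≤ 30 * C0 ^ 30 + 1 := by
  obtain ⟨-, h⟩ := grow hC0 kd g hg hi g0 g1 x hx 30 le_rfl
  have h1 : ((((30 : ℕ) : ℝ) / 30 : ℝ) : ℂ) * x = x := by
    push_cast
    rw [div_self (by norm_num), one_mul]
  rw [h1] at h
  push_cast at h
  have := norm_sub_le (g x) x
  linarith

/-- The chain of discs. -/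
theorem chain (tcr : Pool.Agent.AEN.T_TCR) {K η : ℝ} (hK : 0 < K) (hη : 0 < η)
    (hη1 : η ≤ 1 / 16) (M : ℕ) (hM : 6 / η ≤ M) :
    ∀ n : ℕ, ∀ e : ℝ, 0 < e → ∃ s : ℝ, 0 < s ∧ ∀ (g : ℂ → ℂ) (x : ℂ),
      DifferentiableOn ℂ g (Metric.ball 0 1) → (∀ z : ℂ, ‖z‖ ≤ 15 / 16 → ‖g z - z‖ ≤ K) →
      ‖x‖ ≤ 7 / 8 → (∀ z ∈ Metric.ball (0 : ℂ) (η / 6), ‖g z - z‖ ≤ s) → n ≤ M →
      ∀ z ∈ Metric.ball ((((n : ℝ) / M : ℝ) : ℂ) * x) (η / 6), ‖g z - z‖ ≤ e := by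
  have hM0 : (0 : ℝ) < M := lt_of_lt_of_le (by positivity) hM
  intro n
  induction n with
  | zero =>
    intro e he
    refine ⟨e, he, fun g x _ _ _ hs _ z hz => hs z ?_⟩
    simpa using hz
  | succ n ih =>
    intro e he
    obtain ⟨s, hs, H⟩ := ih (e ^ 2 / (36 * K)) (by positivity)
    refine ⟨s, hs, fun g x hg hb hx h0 hn z hz => ?_⟩
    have h1 := H g x hg hb hx h0 (by omega)
    set p : ℂ := (((n : ℝ) / M : ℝ) : ℂ) * x with hp
    have hpn : ‖p‖ ≤ 7 / 8 := by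
      rw [hp, norm_mul, Complex.norm_real, Real.norm_of_nonneg (by positivity)]
      have h3 : (n : ℝ) / M ≤ 1 := by
        rw [div_le_one hM0]
        exact_mod_cast (by omega : n ≤ M)
      calc (n : ℝ) / M * ‖x‖ ≤ 1 * ‖x‖ := by gcongr
        _ ≤ 7 / 8 := by linarith
    have hsub : ∀ w ∈ Metric.ball p η, ‖w‖ ≤ 15 / 16 := by
      intro w hw
      rw [Metric.mem_ball, dist_eq_norm] at hw
      calc ‖w‖ = ‖(w - p) + p‖ := by rw [sub_add_cancel]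
        _ ≤ ‖w - p‖ + ‖p‖ := norm_add_le _ _
        _ ≤ 15 / 16 := by linarith
    have hd : DifferentiableOn ℂ (fun w => g w - w) (Metric.ball p η) := by
      refine DifferentiableOn.sub (hg.mono ?_) differentiableOn_id
      intro w hw
      rw [mem_ball_zero_iff]
      linarith [hsub w hw]
    have h2 := tcr p η K (e ^ 2 / (36 * K)) (fun w => g w - w) hη hK.le (by positivity) hd
      (fun w hw => hb w (hsub w hw)) h1 z ?_
    · have h3 : e ^ 2 / (36 * K) * K = (e / 6) ^ 2 := by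
        field_simp
        norm_num
      rw [h3, Real.sqrt_sq (by positivity)] at h2
      have h4 : 6 * (e / 6) = e := by ring
      rw [h4] at h2
      exact h2
    · rw [Metric.mem_ball, dist_eq_norm] at hz
      have hst : (((((n + 1 : ℕ) : ℝ) / M : ℝ) : ℂ) * x) - p = ((1 / M : ℝ) : ℂ) * x := by
        rw [hp]
        push_cast
        ring
      have hq : ‖(((((n + 1 : ℕ) : ℝ) / M : ℝ) : ℂ) * x) - p‖ ≤ η / 6 := by
        rw [hst, norm_mul, Complex.norm_real, Real.norm_of_nonneg (by positivity)]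
        have h5 : 1 / (M : ℝ) ≤ η / 6 := by
          rw [div_le_div_iff₀ hM0 (by norm_num)]
          rw [div_le_iff₀ hη] at hM
          linarith
        calc 1 / (M : ℝ) * ‖x‖ ≤ η / 6 * 1 := by
              refine mul_le_mul h5 (by linarith) (norm_nonneg _) (by positivity)
          _ = η / 6 := by ring
      calc ‖z - p‖ = ‖(z - (((((n + 1 : ℕ) : ℝ) / M : ℝ) : ℂ) * x)) +
            ((((((n + 1 : ℕ) : ℝ) / M : ℝ) : ℂ) * x) - p)‖ := by rw [sub_add_sub_cancel]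
        _ ≤ ‖z - (((((n + 1 : ℕ) : ℝ) / M : ℝ) : ℂ) * x)‖ +
            ‖(((((n + 1 : ℕ) : ℝ) / M : ℝ) : ℂ) * x) - p‖ := norm_add_le _ _
        _ ≤ η / 3 := by linarith

/-- The part near the centre. -/
theorem near (hrk : T_HRK) {C η s : ℝ} (hC : 2 ≤ C) (hη : 0 < η) (hη1 : η ≤ 1 / 16)
    (hs : 0 < s) (g : ℂ → ℂ) (β : ℂ) (hg : DifferentiableOn ℂ g (Metric.ball 0 1))
    (g0 : g 0 = 0) (hb : ∀ x : ℂ, ‖x‖ ≤ 1 / 2 → ‖g x - x‖ ≤ C * ‖x‖ ^ 2)
    (hf : ∀ x : ℂ, ‖x‖ ≤ η → g x = x → x = 0) (h2 : deriv (deriv g) 0 = -2 * β)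
    (hβ : β ≠ 0) (hβC : ‖β‖ ≤ C) (hβs : C ^ 2 * ‖β‖ ≤ s ^ 3) :
    deriv g 0 = 1 ∧ ∀ z ∈ Metric.ball (0 : ℂ) (η / 6), ‖g z - z‖ ≤ s := by
  have hO : IsOpen (Metric.ball (0 : ℂ) 1) := Metric.isOpen_ball
  have hn0 : Metric.ball (0 : ℂ) 1 ∈ 𝓝 (0 : ℂ) := Metric.ball_mem_nhds _ one_pos
  have m0 : (0 : ℂ) ∈ Metric.ball (0 : ℂ) 1 := Metric.mem_ball_self one_pos
  set h : ℂ → ℂ := fun x => g x - x with hh
  have hd : DifferentiableOn ℂ h (Metric.ball 0 1) := hg.sub differentiableOn_id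
  have h0 : h 0 = 0 := by simp [hh, g0]
  have hdg : ∀ x ∈ Metric.ball (0 : ℂ) 1, deriv h x = deriv g x - 1 := by
    intro x hx
    have h3 : HasDerivAt (fun x => g x - x) (deriv g x - 1) x :=
      (hg.differentiableAt (hO.mem_nhds hx)).hasDerivAt.sub (hasDerivAt_id' x)
    exact h3.deriv
  have hO2 : h =O[𝓝 (0 : ℂ)] fun x => ‖x - 0‖ ^ 2 := by
    refine Asymptotics.IsBigO.of_bound C ?_
    have : Metric.ball (0 : ℂ) (1 / 2) ∈ 𝓝 (0 : ℂ) := Metric.ball_mem_nhds _ (by norm_num)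
    filter_upwards [this] with x hx
    rw [mem_ball_zero_iff] at hx
    rw [sub_zero, Real.norm_of_nonneg (by positivity)]
    exact hb x hx.le
  have hd0 : deriv h 0 = 0 := by
    have h3 : HasFDerivAt h (0 : ℂ →L[ℂ] ℂ) 0 := hO2.hasFDerivAt (by norm_num)
    have h4 := h3.hasDerivAt.deriv
    simpa using h4
  have g1 : deriv g 0 = 1 := by
    have := hdg 0 m0
    rw [hd0] at this
    linear_combination -this
  refine ⟨g1, ?_⟩
  set h1 : ℂ → ℂ := dslope h 0 with hh1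
  set y : ℂ → ℂ := dslope h1 0 with hy
  have hd1 : DifferentiableOn ℂ h1 (Metric.ball 0 1) :=
    (Complex.differentiableOn_dslope hn0).mpr hd
  have hdy : DifferentiableOn ℂ y (Metric.ball 0 1) :=
    (Complex.differentiableOn_dslope hn0).mpr hd1
  have h10 : h1 0 = 0 := by rw [hh1, dslope_same, hd0]
  have hxy : ∀ x, h x = x ^ 2 * y x := by
    intro x
    have e1 := sub_smul_dslope h 0 x
    have e2 := sub_smul_dslope h1 0 x
    rw [← hh1, h0, smul_eq_mul, sub_zero, sub_zero] at e1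
    rw [← hy, h10, smul_eq_mul, sub_zero, sub_zero] at e2
    rw [← e1, ← e2]
    ring
  have hyd : ∀ x ∈ Metric.ball (0 : ℂ) 1, HasDerivAt y (deriv y x) x := fun x hx =>
    (hdy.differentiableAt (hO.mem_nhds hx)).hasDerivAt
  have e1 : deriv h =ᶠ[𝓝 0] fun x => 2 * x * y x + x ^ 2 * deriv y x := by
    filter_upwards [hn0] with x hx
    have h3 : HasDerivAt (fun x => x ^ 2 * y x) (2 * x * y x + x ^ 2 * deriv y x) x := by
      have := (hasDerivAt_pow 2 x).mul (hyd x hx)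
      refine this.congr_deriv ?_
      simp
    have h4 : h = fun x => x ^ 2 * y x := funext hxy
    rw [h4]
    exact h3.deriv
  have e2 : HasDerivAt (fun x => 2 * x * y x + x ^ 2 * deriv y x) (2 * y 0) 0 := by
    have h3 : HasDerivAt (deriv y) (deriv (deriv y) 0) 0 :=
      ((hdy.deriv hO).differentiableAt hn0).hasDerivAt
    have h4 : HasDerivAt (fun x : ℂ => 2 * x) (2 * 1) 0 := (hasDerivAt_id (0 : ℂ)).const_mul 2
    have h5 := (h4.mul (hyd 0 m0)).add ((hasDerivAt_pow 2 (0 : ℂ)).mul h3)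
    refine h5.congr_deriv ?_
    simp
  have e3 : deriv h =ᶠ[𝓝 0] fun x => deriv g x - 1 := by
    filter_upwards [hn0] with x hx
    exact hdg x hx
  have e4 : 2 * y 0 = -2 * β := by
    have h3 : deriv (deriv h) 0 = 2 * y 0 := by rw [e1.deriv_eq, e2.deriv]
    have h4 : deriv (deriv h) 0 = deriv (deriv g) 0 := by rw [e3.deriv_eq, deriv_sub_const]
    rw [← h3, h4, h2]
  have y0 : y 0 = -β := by linear_combination e4 / 2
  have hlt : ∀ x ∈ Metric.ball (0 : ℂ) η, ‖x‖ ≤ 1 / 2 := by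
    intro x hx
    rw [mem_ball_zero_iff] at hx
    linarith
  have hyy : ∀ x ∈ Metric.ball (0 : ℂ) η, y x ≠ 0 ∧ ‖y x‖ ≤ C := by
    intro x hx
    by_cases hx0 : x = 0
    · subst hx0
      rw [y0]
      exact ⟨neg_ne_zero.mpr hβ, by rw [norm_neg]; exact hβC⟩
    · constructor
      · intro hc
        have h3 : h x = 0 := by rw [hxy, hc, mul_zero]
        have h4 : g x = x := sub_eq_zero.mp h3
        exact hx0 (hf x (mem_ball_zero_iff.mp hx).le h4)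
      · have h3 : ‖x‖ ^ 2 * ‖y x‖ ≤ C * ‖x‖ ^ 2 := by
          rw [← norm_pow, ← norm_mul, ← hxy, norm_pow]
          exact hb x (hlt x hx)
        have h4 : 0 < ‖x‖ ^ 2 := by
          have := norm_pos_iff.mpr hx0
          positivity
        rw [mul_comm] at h3
        exact le_of_mul_le_mul_right h3 h4
  have hdη : DifferentiableOn ℂ y (Metric.ball 0 η) :=
    hdy.mono (Metric.ball_subset_ball (by linarith))
  intro z hz
  rw [mem_ball_zero_iff] at hz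
  have hz2 : ‖z - 0‖ ≤ η / 2 := by
    rw [sub_zero]
    linarith
  have h3 := (hrk 0 η C y hη (by linarith) hdη hyy z hz2).1
  rw [y0, norm_neg] at h3
  have h4 : ‖y z‖ ≤ s :=
    (pow_le_pow_iff_left₀ (norm_nonneg _) hs.le (by norm_num)).mp (h3.trans hβs)
  have h5 : ‖g z - z‖ = ‖z‖ ^ 2 * ‖y z‖ := by
    rw [← norm_pow, ← norm_mul, ← hxy]
  have h6 : ‖z‖ ^ 2 ≤ 1 := by
    have h7 : ‖z‖ ≤ 1 := by linarith
    exact pow_le_one₀ (norm_nonneg _) h7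
  rw [h5]
  calc ‖z‖ ^ 2 * ‖y z‖ ≤ 1 * s := mul_le_mul h6 h4 (norm_nonneg _) zero_le_one
    _ = s := one_mul s

/-- The normalized statement. -/
theorem norml (kdi : T_KDI) (hrk : T_HRK) (tcr : Pool.Agent.AEN.T_TCR) {C η e : ℝ}
    (hC : 2 ≤ C) (hη : 0 < η) (hη1 : η ≤ 1 / 16) (he : 0 < e) : ∃ ε : ℝ, 0 < ε ∧
    ∀ (g : ℂ → ℂ) (β : ℂ), DifferentiableOn ℂ g (Metric.ball 0 1) →
      InjOn g (Metric.ball 0 1) → g 0 = 0 → (∀ x : ℂ, ‖x‖ ≤ 1 / 2 → ‖g x - x‖ ≤ C * ‖x‖ ^ 2) →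
      (∀ x : ℂ, ‖x‖ ≤ η → g x = x → x = 0) → deriv (deriv g) 0 = -2 * β → β ≠ 0 →
      ‖β‖ ≤ C → ‖β‖ ≤ ε → ∀ x : ℂ, ‖x‖ ≤ 7 / 8 → ‖g x - x‖ ≤ e := by
  obtain ⟨C0, hC0, kd⟩ := kdi
  set M : ℕ := ⌈6 / η⌉₊ with hMd
  have hM : 6 / η ≤ M := Nat.le_ceil _
  have hM0 : (0 : ℝ) < M := lt_of_lt_of_le (by positivity) hM
  obtain ⟨s, hs, H⟩ := chain tcr (K := 30 * C0 ^ 30 + 1) (by positivity) hη hη1 M hM M e he
  refine ⟨s ^ 3 / C ^ 2, by positivity, ?_⟩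
  intro g β hg hi g0 hb hf h2 hβ hβC hβε x hx
  have hC2 : 0 < C ^ 2 := by positivity
  have hβs : C ^ 2 * ‖β‖ ≤ s ^ 3 := by
    rw [le_div_iff₀ hC2] at hβε
    linarith
  obtain ⟨g1, hn⟩ := near hrk hC hη hη1 hs g β hg g0 hb hf h2 hβ hβC hβs
  have h3 := H g x hg (fun z hz => bnd hC0 kd g hg hi g0 g1 z hz) hx hn le_rfl x ?_
  · exact h3
  · rw [div_self hM0.ne', Complex.ofReal_one, one_mul]
    exact Metric.mem_ball_self (by positivity)

end NID_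

theorem p_NID (h₁ : T_KDI) (h₂ : T_HRK) (h₃ : Pool.Agent.AEN.T_TCR) : T_NID := by
  intro C η e hη hη1 he
  by_cases hC : 2 ≤ C
  swap
  · refine ⟨1, one_pos, ?_⟩
    intro k c ζ α R G hG
    exact absurd hG.hC hC
  obtain ⟨ε, hε, H⟩ := NID_.norml h₁ h₂ h₃ hC hη hη1 he
  refine ⟨ε, hε, ?_⟩
  intro k c ζ α R G hG hf hα hαε x hx
  have hR := hG.hR
  have hRc : (R : ℂ) ≠ 0 := Complex.ofReal_ne_zero.mpr hR.ne'
  have nR : ‖(R : ℂ)‖ = R := by rw [Complex.norm_real, Real.norm_of_nonneg hR.le]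
  set g : ℂ → ℂ := fun w => (G (ζ + R * w) - ζ) / R with hg
  have key : ∀ w : ℂ, g w - w = (G (ζ + R * w) - (ζ + R * w)) / R := by
    intro w
    rw [hg]
    field_simp
    ring
  have hmaps : MapsTo (fun w : ℂ => ζ + R * w) (Metric.ball 0 1) (Metric.ball ζ R) := by
    intro w hw
    rw [mem_ball_zero_iff] at hw
    rw [Metric.mem_ball, dist_eq_norm, add_sub_cancel_left, norm_mul, nR]
    nlinarith
  have hgd : DifferentiableOn ℂ g (Metric.ball 0 1) := by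
    have h1 : DifferentiableOn ℂ (fun w : ℂ => G (ζ + R * w)) (Metric.ball 0 1) :=
      hG.dif.comp (by fun_prop) hmaps
    exact (h1.sub_const ζ).div_const _
  have hgi : InjOn g (Metric.ball 0 1) := by
    intro w hw w' hw' h
    have h1 : G (ζ + R * w) = G (ζ + R * w') := by
      have h2 : (G (ζ + R * w) - ζ) / R = (G (ζ + R * w') - ζ) / R := h
      rw [div_left_inj' hRc] at h2
      linear_combination h2
    have h3 := hG.inj (hmaps hw) (hmaps hw') h1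
    have h4 : (R : ℂ) * w = R * w' := by linear_combination h3
    exact mul_left_cancel₀ hRc h4
  have g0 : g 0 = 0 := by
    rw [hg]
    simp [hG.fix]
  have hb : ∀ w : ℂ, ‖w‖ ≤ 1 / 2 → ‖g w - w‖ ≤ C * ‖w‖ ^ 2 := by
    intro w hw
    have h1 : ‖(ζ + R * w) - ζ‖ = R * ‖w‖ := by
      rw [add_sub_cancel_left, norm_mul, nR]
    have h2 := hG.bd (ζ + R * w) (by rw [h1]; nlinarith)
    rw [h1] at h2
    rw [key, norm_div, nR, div_le_iff₀ hR]
    calc ‖G (ζ + R * w) - (ζ + R * w)‖ ≤ C * (R * ‖w‖) ^ 2 / R := h2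
      _ = C * ‖w‖ ^ 2 * R := by field_simp
  have hfx : ∀ w : ℂ, ‖w‖ ≤ η → g w = w → w = 0 := by
    intro w hw hgw
    have h1 : G (ζ + R * w) = ζ + R * w := by
      have h2 := key w
      rw [hgw, sub_self, eq_comm, div_eq_zero_iff] at h2
      rcases h2 with h2 | h2
      · exact sub_eq_zero.mp h2
      · exact absurd h2 hRc
    have hlt : ‖w‖ < 1 := by linarith
    have hm : ζ + R * w ∈ Metric.ball ζ R := hmaps (mem_ball_zero_iff.mpr hlt)
    have h3 := hG.inv _ hm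
    rw [h1] at h3
    have h4 : ‖(ζ + R * w) - ζ‖ ≤ η * R := by
      rw [add_sub_cancel_left, norm_mul, nR]
      nlinarith
    have h5 := hf _ h4 h3
    have h6 : (R : ℂ) * w = 0 := by linear_combination h5
    exact (mul_eq_zero.mp h6).resolve_left hRc
  have hdg : deriv g = fun w : ℂ => deriv G (ζ + R * w) := by
    funext w
    have h1 : deriv g w = deriv (fun w : ℂ => G (ζ + R * w)) w / R := by
      rw [hg]
      simp
    have h2 : deriv (fun w : ℂ => G (ζ + R * w)) w = R * deriv G (ζ + R * w) := by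
      have h3 := deriv_comp_mul_left (R : ℂ) (fun u : ℂ => G (ζ + u)) w
      rw [h3, deriv_comp_const_add, smul_eq_mul]
    rw [h1, h2]
    field_simp
  have h2 : deriv (deriv g) 0 = -2 * (α * R) := by
    rw [hdg]
    have h3 := deriv_comp_mul_left (R : ℂ) (fun u : ℂ => deriv G (ζ + u)) 0
    rw [h3, deriv_comp_const_add, smul_eq_mul, mul_zero, add_zero, hG.sec]
    ring
  have hβ : ‖α * (R : ℂ)‖ = ‖α‖ * R := by rw [norm_mul, nR]
  have h4 := H g (α * R) hgd hgi g0 hb hfx h2 (mul_ne_zero hα hRc) (by rw [hβ]; exact hG.abd)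
    (by rw [hβ]; exact hαε) ((x - ζ) / R) ?_
  · rw [key] at h4
    have h5 : ζ + R * ((x - ζ) / R) = x := by
      field_simp
      ring
    rw [h5, norm_div, nR, div_le_iff₀ hR] at h4
    exact h4
  · rw [norm_div, nR, div_le_iff₀ hR]
    exact hx

end Pool.Agent.CUSP
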