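import Pool.Agent.CUSP.Targets2

/-!
# CUSP: p_RNG, the iterate is close to the identity on a circle without tips
-/

set_option autoImplicit false

open Complex Filter Topology Set MeasureTheory
open Pool.Agent.Limb (F)
open Pool.Agent.PLim (Rho)
open Pool.Agent.MEY (Pt)
open Pool.Agent.PSat (Comp Sat)
open Pool.Agent.AEN (vm Hp Exn)

namespace Pool.Agent.CUSP

namespace RNG_

/-- The sequence of errors, from the end to the beginning. -/
noncomputable def sq (e C : ℝ) : ℕ → ℝ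
  | 0 => e
  | n + 1 => (sq e C n / C) ^ 2

lemma sq_pos {e C : ℝ} (he : 0 < e) (hC : 1 ≤ C) (n : ℕ) : 0 < sq e C n := by
  induction n with
  | zero => exact he
  | succ n ih =>
    have : 0 < sq e C n / C := div_pos ih (by linarith)
    simp only [sq]
    positivity

lemma sq_le {e C : ℝ} (he : 0 < e) (he1 : e ≤ 1) (hC : 1 ≤ C) (n : ℕ) : sq e C n ≤ e := by
  induction n with
  | zero => exact le_refl _
  | succ n ih =>
    have h0 := sq_pos he hC n
    have h1 : sq e C n / C ≤ sq e C n := div_le_self h0.le hC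
    have h2 : 0 < sq e C n / C := div_pos h0 (by linarith)
    simp only [sq]
    nlinarith

lemma sq_step {e C : ℝ} (he : 0 < e) (hC : 1 ≤ C) (n : ℕ) : C * √(sq e C (n + 1)) = sq e C n := by
  have h0 := sq_pos he hC n
  have h2 : 0 < sq e C n / C := div_pos h0 (by linarith)
  simp only [sq]
  rw [Real.sqrt_sq h2.le]
  field_simp

lemma exp_sub (a b : ℝ) : ‖cexp (I * a) - cexp (I * b)‖ ≤ |a - b| := by
  have h1 : cexp (I * a) - cexp (I * b) = cexp (I * b) * (cexp (I * ((a - b : ℝ) : ℂ)) - 1) := by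
    rw [mul_sub, ← Complex.exp_add]
    push_cast
    ring_nf
  rw [h1, norm_mul]
  have h2 : ‖cexp (I * b)‖ = 1 := by
    rw [mul_comm]
    exact Complex.norm_exp_ofReal_mul_I b
  rw [h2, one_mul]
  exact Real.norm_exp_I_mul_ofReal_sub_one_le

/-- The points on the circle. -/
noncomputable def yy (τ v : ℂ) (N : ℕ) (i : ℕ) : ℂ :=
  τ + cexp (I * ((2 * Real.pi * i / N : ℝ) : ℂ)) * v

lemma yy_norm (τ v : ℂ) (N i : ℕ) : ‖yy τ v N i - τ‖ = ‖v‖ := by
  unfold yy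
  rw [add_sub_cancel_left, norm_mul, mul_comm I, Complex.norm_exp_ofReal_mul_I, one_mul]

lemma yy_zero (τ v : ℂ) (N : ℕ) : yy τ v N 0 = τ + v := by
  simp [yy]

lemma yy_step (τ v : ℂ) (N i : ℕ) (hN : 1 ≤ N) :
    ‖yy τ v N (i + 1) - yy τ v N i‖ ≤ 2 * Real.pi / N * ‖v‖ := by
  have hN' : (0 : ℝ) < N := by exact_mod_cast hN
  unfold yy
  rw [add_sub_add_left_eq_sub, ← sub_mul, norm_mul]
  refine mul_le_mul_of_nonneg_right ?_ (norm_nonneg v)
  refine (exp_sub _ _).trans (le_of_eq ?_)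
  have h1 : 2 * Real.pi * ((i + 1 : ℕ) : ℝ) / N - 2 * Real.pi * (i : ℝ) / N =
      2 * Real.pi / N := by
    push_cast
    ring
  rw [h1, abs_of_pos (by positivity)]

lemma yy_near (τ v x : ℂ) (N : ℕ) (hN : 1 ≤ N) (hv : v ≠ 0) (hx : ‖x - τ‖ = ‖v‖) :
    ∃ i ≤ N, ‖x - yy τ v N i‖ ≤ 2 * Real.pi / N * ‖v‖ := by
  have hN' : (0 : ℝ) < N := by exact_mod_cast hN
  have hπ := Real.pi_pos
  set w : ℂ := (x - τ) / v with hw
  have hw1 : ‖w‖ = 1 := by
    rw [hw, norm_div, hx, div_self (norm_ne_zero_iff.2 hv)]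
  set θ : ℝ := Real.pi + arg (-w) with hθ
  have hθ0 : 0 < θ := by
    have := Complex.neg_pi_lt_arg (-w)
    rw [hθ]
    linarith
  have hθ1 : θ ≤ 2 * Real.pi := by
    have := Complex.arg_le_pi (-w)
    rw [hθ]
    linarith
  have hwe : w = cexp (I * θ) := by
    have h1 : ‖-w‖ * cexp (arg (-w) * I) = -w := Complex.norm_mul_exp_arg_mul_I (-w)
    rw [norm_neg, hw1, Complex.ofReal_one, one_mul] at h1
    rw [hθ, Complex.ofReal_add, mul_add, Complex.exp_add, mul_comm I (Real.pi : ℂ),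
      Complex.exp_pi_mul_I, mul_comm I, h1]
    ring
  have hxw : x = τ + w * v := by
    rw [hw, div_mul_cancel₀ _ hv]
    ring
  refine ⟨⌊θ * N / (2 * Real.pi)⌋₊, ?_, ?_⟩
  · refine Nat.floor_le_of_le ?_
    rw [div_le_iff₀ (by positivity)]
    nlinarith
  · have h1 : (⌊θ * N / (2 * Real.pi)⌋₊ : ℝ) ≤ θ * N / (2 * Real.pi) :=
      Nat.floor_le (by positivity)
    have h2 : θ * N / (2 * Real.pi) < ⌊θ * N / (2 * Real.pi)⌋₊ + 1 := Nat.lt_floor_add_one _
    set i : ℕ := ⌊θ * N / (2 * Real.pi)⌋₊ with hi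
    rw [hxw]
    unfold yy
    rw [add_sub_add_left_eq_sub, ← sub_mul, norm_mul]
    refine mul_le_mul_of_nonneg_right ?_ (norm_nonneg v)
    rw [hwe]
    refine (exp_sub _ _).trans ?_
    rw [le_div_iff₀ (by positivity)] at h1
    rw [div_lt_iff₀ (by positivity)] at h2
    have h3 : 2 * Real.pi * (i : ℝ) / N ≤ θ := by
      rw [div_le_iff₀ hN']
      nlinarith
    have h4 : θ - 2 * Real.pi * (i : ℝ) / N ≤ 2 * Real.pi / N := by
      rw [sub_le_iff_le_add, ← add_div, le_div_iff₀ hN']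
      nlinarith
    rw [abs_of_nonneg (by linarith)]
    exact h4

/-- The chain of branches. -/
lemma chain {CC : ℝ} (hCC : 1 ≤ CC)
    (hcon : ∀ (k : ℕ) (c y y' : ℂ) (ρ e : ℝ) (g : ℂ → ℂ), 0 < ρ →
      0 ≤ e → e ≤ 1 / 100 → ‖y' - y‖ ≤ ρ / 12 →
      (∀ x ∈ Metric.ball y' ρ, ∀ j < k, x ≠ (F 2 c)^[j] c) →
      DifferentiableOn ℂ g (Metric.ball y ρ) → (∀ x ∈ Metric.ball y ρ, (F 2 c)^[k] (g x) = x) →
      (∀ x : ℂ, ‖x - y‖ ≤ ρ / 6 → ‖g x - x‖ ≤ e * ρ) →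
      ∃ g' : ℂ → ℂ, DifferentiableOn ℂ g' (Metric.ball y' ρ) ∧
        (∀ x ∈ Metric.ball y' ρ, (F 2 c)^[k] (g' x) = x) ∧
        ∀ x : ℂ, ‖x - y'‖ ≤ ρ / 6 → ‖g' x - x‖ ≤ CC * √e * ρ)
    (k : ℕ) (c : ℂ) (y : ℕ → ℂ) (ρ e : ℝ) (N : ℕ) (g0 : ℂ → ℂ) (hρ : 0 < ρ) (he : 0 < e)
    (he1 : e ≤ 1 / 100) (hy : ∀ i, ‖y (i + 1) - y i‖ ≤ ρ / 12)
    (hf : ∀ i, ∀ x ∈ Metric.ball (y i) ρ, ∀ j < k, x ≠ (F 2 c)^[j] c)
    (hg : DifferentiableOn ℂ g0 (Metric.ball (y 0) ρ))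
    (hg1 : ∀ x ∈ Metric.ball (y 0) ρ, (F 2 c)^[k] (g0 x) = x)
    (hg2 : ∀ x : ℂ, ‖x - y 0‖ ≤ ρ / 6 → ‖g0 x - x‖ ≤ sq e CC N * ρ) (i : ℕ) (hi : i ≤ N) :
    ∃ g : ℂ → ℂ, DifferentiableOn ℂ g (Metric.ball (y i) ρ) ∧
      (∀ x ∈ Metric.ball (y i) ρ, (F 2 c)^[k] (g x) = x) ∧
      ∀ x : ℂ, ‖x - y i‖ ≤ ρ / 6 → ‖g x - x‖ ≤ sq e CC (N - i) * ρ := by
  induction i with
  | zero => exact ⟨g0, hg, hg1, hg2⟩
  | succ i ih =>
    obtain ⟨g, h1, h2, h3⟩ := ih (by omega)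
    obtain ⟨g', h4, h5, h6⟩ := hcon k c (y i) (y (i + 1)) ρ (sq e CC (N - i)) g hρ
      (sq_pos he hCC _).le ((sq_le he (by linarith) hCC _).trans he1) (hy i) (hf (i + 1)) h1 h2 h3
    refine ⟨g', h4, h5, fun x hx => ?_⟩
    have h7 := h6 x hx
    have h8 : N - i = (N - (i + 1)) + 1 := by omega
    rw [h8, sq_step he hCC] at h7
    exact h7

/-- Solution of the equation `g w = x`. -/
lemma solve (Fk g : ℂ → ℂ) (y x : ℂ) (ρ e : ℝ) (hρ : 0 < ρ) (he : 0 < e) (he1 : e ≤ 1 / 100)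
    (hg : DifferentiableOn ℂ g (Metric.ball y ρ)) (hg1 : ∀ w ∈ Metric.ball y ρ, Fk (g w) = w)
    (hg2 : ∀ w : ℂ, ‖w - y‖ ≤ ρ / 6 → ‖g w - w‖ ≤ e * ρ) (hx : ‖x - y‖ ≤ ρ / 12) :
    ‖Fk x - x‖ ≤ 6 * e * ρ := by
  have hs : 0 < 6 * e * ρ := by positivity
  have hs1 : 6 * e * ρ ≤ ρ / 12 := by nlinarith
  have hin : ∀ w ∈ Metric.closedBall x (6 * e * ρ), ‖w - y‖ ≤ ρ / 6 := by
    intro w hw
    rw [mem_closedBall_iff_norm] at hw
    have : w - y = (w - x) + (x - y) := by ring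
    rw [this]
    exact (norm_add_le _ _).trans (by linarith)
  have hsub : Metric.closedBall x (6 * e * ρ) ⊆ Metric.ball y ρ := by
    intro w hw
    rw [mem_ball_iff_norm]
    exact (hin w hw).trans_lt (by linarith)
  have hxx : x ∈ Metric.closedBall x (6 * e * ρ) := Metric.mem_closedBall_self hs.le
  have hdc : DiffContOnCl ℂ g (Metric.ball x (6 * e * ρ)) :=
    DifferentiableOn.diffContOnCl_ball (hg.mono hsub) (Subset.refl _)
  have hlow : ∀ w ∈ Metric.sphere x (6 * e * ρ), 4 * e * ρ ≤ ‖g w - g x‖ := by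
    intro w hw
    have hw' : ‖w - x‖ = 6 * e * ρ := by rwa [mem_sphere_iff_norm] at hw
    have h1 := hg2 w (hin w (Metric.sphere_subset_closedBall hw))
    have h2 := hg2 x (hin x hxx)
    have h3 : w - x = (g w - g x) - (g w - w) + (g x - x) := by ring
    have h4 : ‖w - x‖ ≤ ‖g w - g x‖ + ‖g w - w‖ + ‖g x - x‖ := by
      rw [h3]
      exact (norm_add_le _ _).trans (by gcongr; exact norm_sub_le _ _)
    linarith
  have hfr : ∃ᶠ w in 𝓝 x, g w ≠ g x := by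
    have h1 : ∀ᶠ w in 𝓝[≠] x, g w ≠ g x := by
      have h2 : ∀ᶠ w in 𝓝[≠] x, w ∈ Metric.ball y ρ :=
        nhdsWithin_le_nhds (Metric.isOpen_ball.mem_nhds (hsub hxx))
      have h3 : ∀ᶠ w in 𝓝[≠] x, w ≠ x := eventually_nhdsWithin_of_forall fun _ h => h
      filter_upwards [h2, h3] with w hw hw'
      intro h
      apply hw'
      rw [← hg1 w hw, h, hg1 x (hsub hxx)]
    exact h1.frequently.filter_mono nhdsWithin_le_nhds
  have himg := hdc.ball_subset_image_closedBall hs hlow hfr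
  have hxm : x ∈ Metric.ball (g x) (4 * e * ρ / 2) := by
    rw [mem_ball_iff_norm, norm_sub_rev]
    refine (hg2 x (hin x hxx)).trans_lt ?_
    nlinarith [mul_pos he hρ]
  obtain ⟨w, hw, hwx⟩ := himg hxm
  have h1 : Fk x = w := by
    rw [← hwx]
    exact hg1 w (hsub hw)
  rw [h1]
  rwa [mem_closedBall_iff_norm] at hw

end RNG_

open RNG_ in
theorem p_RNG (h₁ : T_CON) (h₂ : T_XPR) : T_RNG := by
  obtain ⟨CC, hCC, hcon⟩ := h₁
  intro C δ e1 hδ hδ1 he1
  set es : ℝ := min (1 / 200) (e1 / 2) with hes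
  have hes0 : 0 < es := lt_min (by norm_num) (by linarith)
  have hes1 : es ≤ 1 / 200 := min_le_left _ _
  have hes2 : es ≤ e1 / 2 := min_le_right _ _
  obtain ⟨N, hN⟩ := exists_nat_ge (100 / δ)
  have hN0 : (0 : ℝ) < N := lt_of_lt_of_le (by positivity) hN
  have hN1 : 1 ≤ N := by exact_mod_cast hN0
  have hNδ : 100 ≤ δ * N := by
    rw [div_le_iff₀ hδ] at hN
    linarith
  refine ⟨sq es CC N * δ, mul_pos (sq_pos hes0 hCC N) hδ, ?_⟩
  intro k c z a L l j G r hD hl hj hG hτ hGn hr1 hr2 htip x hx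
  have hX := h₂ k c z a L hD
  set R : ℝ := Rl k z L l with hR
  have hR0 : 0 < R := hG.hR
  set τ : ℂ := L j 0 with hτd
  have hr0 : 0 < r := by linarith
  set v : ℂ := ((r / R : ℝ) : ℂ) * (z l - τ) with hv
  have hvn : ‖v‖ = r := by
    rw [hv, norm_mul, Complex.norm_real, Real.norm_eq_abs, abs_of_pos (by positivity), hτ]
    field_simp
  have hv0 : v ≠ 0 := by
    rw [← norm_pos_iff, hvn]
    exact hr0
  have hπ := Real.pi_pos
  have hπ4 := Real.pi_le_four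
  have hstep : 2 * Real.pi / N * ‖v‖ ≤ δ * R / 12 := by
    rw [hvn, div_mul_eq_mul_div, div_le_iff₀ hN0]
    have h1 : 2 * Real.pi * r ≤ 8 * (R / 2) := by nlinarith
    have h2 : 100 * R ≤ δ * N * R := by nlinarith
    nlinarith
  have hρ : 0 < δ * R := by positivity
  have hy0 : yy τ v N 0 - z l = -(((1 - r / R : ℝ) : ℂ) * (z l - τ)) := by
    rw [yy_zero, hv]
    push_cast
    ring
  have hy0n : ‖yy τ v N 0 - z l‖ = R - r := by
    have h1 : 0 ≤ 1 - r / R := by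
      rw [sub_nonneg, div_le_one hR0]
      linarith
    rw [hy0, norm_neg, norm_mul, Complex.norm_real, Real.norm_eq_abs, abs_of_nonneg h1, hτ]
    field_simp
  have hball : ∀ w ∈ Metric.ball (yy τ v N 0) (δ * R), ‖w - z l‖ ≤ 7 / 8 * R := by
    intro w hw
    rw [mem_ball_iff_norm] at hw
    have h1 : w - z l = (w - yy τ v N 0) + (yy τ v N 0 - z l) := by ring
    rw [h1]
    refine (norm_add_le _ _).trans ?_
    rw [hy0n]
    nlinarith
  have hsub : Metric.ball (yy τ v N 0) (δ * R) ⊆ Metric.ball (z l) R := by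
    intro w hw
    rw [mem_ball_iff_norm]
    exact (hball w hw).trans_lt (by linarith)
  have hfree : ∀ i, ∀ w ∈ Metric.ball (yy τ v N i) (δ * R), ∀ m < k, w ≠ (F 2 c)^[m] c := by
    intro i w hw m hm hwm
    have h0 : (0 : ℂ) ∈ OM := Or.inr (by simp)
    have h1 : (F 2 c)^[m] c = L m 0 := by
      have := hX.ite 0 m 0 h0
      rwa [hD.ftc.tip, zero_add] at this
    rw [h1] at hwm
    rw [mem_ball_iff_norm] at hw
    have h2 := htip m hm
    rw [← hwm] at h2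
    have h3 : |‖w - τ‖ - r| ≤ ‖w - yy τ v N i‖ := by
      have h4 := abs_norm_sub_norm_le (w - τ) (yy τ v N i - τ)
      rw [yy_norm, hvn] at h4
      refine h4.trans (le_of_eq ?_)
      congr 1
      ring
    linarith
  obtain ⟨i, hi, hxi⟩ := yy_near τ v x N hN1 hv0 (by rw [hx, hvn])
  obtain ⟨g, hg1, hg2, hg3⟩ := chain hCC hcon k c (yy τ v N) (δ * R) es N G hρ hes0
    (by linarith) (fun i => (yy_step τ v N i hN1).trans hstep) hfree (hG.dif.mono hsub)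
    (fun w hw => hG.inv w (hsub hw))
    (fun w hw => by
      have hw' : w ∈ Metric.ball (yy τ v N 0) (δ * R) := by
        rw [mem_ball_iff_norm]
        exact hw.trans_lt (by linarith)
      have := hGn w (hball w hw')
      rwa [mul_assoc] at this) i hi
  have hfin := solve ((F 2 c)^[k]) g (yy τ v N i) x (δ * R) es hρ hes0 (by linarith) hg1 hg2
    (fun w hw => (hg3 w hw).trans (by
      have := sq_le hes0 (by linarith) hCC (N - i)
      gcongr)) (hxi.trans hstep)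
  refine hfin.trans ?_
  have h1 : δ * R ≤ r / 4 := by nlinarith
  have h2 : 6 * es * (δ * R) ≤ 6 * es * (r / 4) := by gcongr
  nlinarith

end Pool.Agent.CUSP
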