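import Pool.Agent.CUSP.Targets
import Pool.Agent.MEY.KDI

/-!
# CUSP, KDI: Koebe distortion with an absolute constant
-/

set_option autoImplicit false

open Complex Filter Topology Set MeasureTheory

namespace Pool.Agent.CUSP

namespace KDI_

open Pool.Agent.MEY.KDI_

/-- The constant. -/
noncomputable def A : ℝ := 3 * 64 ^ 6

theorem one_le_A : 1 ≤ A := by
  unfold A
  norm_num

/-- The lower bound for the derivative, closed ball. -/
theorem lowerD {a : ℂ} {R : ℝ} {g : ℂ → ℂ} (hR : 0 < R)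
    (hd : DifferentiableOn ℂ g (Metric.ball a R)) (hi : InjOn g (Metric.ball a R)) {x : ℂ}
    (hx : ‖x - a‖ ≤ R / 2) : ‖deriv g a‖ ≤ A ^ 3 * ‖deriv g x‖ := by
  set p : ℂ := x + (a - x) / 3 with hp
  set q : ℂ := a + (x - a) / 3 with hq
  have n1 : ‖p - x‖ = ‖x - a‖ / 3 := by
    rw [show p - x = -((x - a) / 3) by rw [hp]; ring, norm_neg, norm_div]
    norm_num
  have n2 : ‖q - p‖ = ‖x - a‖ / 3 := by
    rw [show q - p = -((x - a) / 3) by rw [hp, hq]; ring, norm_neg, norm_div]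
    norm_num
  have n3 : ‖a - q‖ = ‖x - a‖ / 3 := by
    rw [show a - q = -((x - a) / 3) by rw [hq]; ring, norm_neg, norm_div]
    norm_num
  have n4 : ‖p - a‖ = 2 * ‖x - a‖ / 3 := by
    rw [show p - a = (2 : ℂ) * (x - a) / 3 by rw [hp]; ring, norm_div, norm_mul]
    norm_num
  have hn := norm_nonneg (x - a)
  have s1 : Metric.ball x (R - ‖x - a‖) ⊆ Metric.ball a R := by
    refine Metric.ball_subset_ball' ?_
    rw [dist_eq_norm]
    linarith
  have s2 : Metric.ball p (R - ‖p - a‖) ⊆ Metric.ball a R := by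
    refine Metric.ball_subset_ball' ?_
    rw [dist_eq_norm]
    linarith
  have s3 : Metric.ball q (R - ‖a - q‖) ⊆ Metric.ball a R := by
    refine Metric.ball_subset_ball' ?_
    rw [dist_eq_norm, norm_sub_rev]
    linarith
  have h1 := upperD (a := x) (R := R - ‖x - a‖) (x := p) (by linarith) (hd.mono s1)
    (hi.mono s1) (by rw [n1]; linarith)
  have h2 := upperD (a := p) (R := R - ‖p - a‖) (x := q) (by rw [n4]; linarith) (hd.mono s2)
    (hi.mono s2) (by rw [n2, n4]; linarith)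
  have h3 := upperD (a := q) (R := R - ‖a - q‖) (x := a) (by rw [n3]; linarith) (hd.mono s3)
    (hi.mono s3) (by rw [n3]; linarith)
  have hA : (0 : ℝ) ≤ A := zero_le_one.trans one_le_A
  calc ‖deriv g a‖ ≤ A * ‖deriv g q‖ := h3
    _ ≤ A * (A * ‖deriv g p‖) := mul_le_mul_of_nonneg_left h2 hA
    _ ≤ A * (A * (A * ‖deriv g x‖)) :=
      mul_le_mul_of_nonneg_left (mul_le_mul_of_nonneg_left h1 hA) hA
    _ = A ^ 3 * ‖deriv g x‖ := by ring

/-- The upper bound for the derivative, closed ball. -/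
theorem upperD' {a : ℂ} {R : ℝ} {g : ℂ → ℂ} (hR : 0 < R)
    (hd : DifferentiableOn ℂ g (Metric.ball a R)) (hi : InjOn g (Metric.ball a R)) {x : ℂ}
    (hx : ‖x - a‖ ≤ R / 2) : ‖deriv g x‖ ≤ A ^ 2 * ‖deriv g a‖ := by
  set m : ℂ := (x + a) / 2 with hm
  have n1 : ‖x - m‖ = ‖x - a‖ / 2 := by
    rw [show x - m = (x - a) / 2 by rw [hm]; ring, norm_div]
    norm_num
  have n2 : ‖m - a‖ = ‖x - a‖ / 2 := by
    rw [show m - a = (x - a) / 2 by rw [hm]; ring, norm_div]
    norm_num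
  have hn := norm_nonneg (x - a)
  have s2 : Metric.ball m (R - ‖m - a‖) ⊆ Metric.ball a R := by
    refine Metric.ball_subset_ball' ?_
    rw [dist_eq_norm]
    linarith
  have h1 := upperD (a := a) (R := R) (x := m) hR hd hi (by rw [n2]; linarith)
  have h2 := upperD (a := m) (R := R - ‖m - a‖) (x := x) (by rw [n2]; linarith) (hd.mono s2)
    (hi.mono s2) (by rw [n1, n2]; linarith)
  have hA : (0 : ℝ) ≤ A := zero_le_one.trans one_le_A
  calc ‖deriv g x‖ ≤ A * ‖deriv g m‖ := h2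
    _ ≤ A * (A * ‖deriv g a‖) := mul_le_mul_of_nonneg_left h1 hA
    _ = A ^ 2 * ‖deriv g a‖ := by ring

end KDI_

open KDI_ in
/-- KDI. -/
theorem p_KDI : T_KDI := by
  have hA1 : 1 ≤ A := one_le_A
  have hA64 : (64 : ℝ) ^ 6 ≤ A := by
    unfold A
    norm_num
  have e1 : A ≤ A ^ 3 := le_self_pow₀ hA1 (by norm_num)
  have e2 : A ^ 2 ≤ A ^ 3 := pow_le_pow_right₀ hA1 (by norm_num)
  have e64 : (64 : ℝ) ≤ A ^ 3 := by linarith [show (64 : ℝ) ≤ 64 ^ 6 by norm_num]
  refine ⟨A ^ 3, hA1.trans e1, fun a R g hR hd hi => ⟨?_, ?_, fun z hz => ⟨?_, ?_, ?_, ?_⟩⟩⟩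
  · have ho : IsOpen (Metric.ball a R) := Metric.isOpen_ball
    have ha : a ∈ Metric.ball a R := Metric.mem_ball_self hR
    exact Pool.Agent.PLim.PHIp_.deriv_ne_zero_of_injOn (hd.analyticAt (ho.mem_nhds ha))
      (ho.mem_nhds ha) hi
  · intro y hy
    by_contra hn
    have h1 := Pool.Agent.PLim.p_KOEB a R (fun z => g z - y) hR (hd.sub_const _)
      (fun z hz w hw hzw => hi hz hw (by simpa using hzw))
      (fun z hz h0 => hn ⟨z, hz, sub_eq_zero.1 h0⟩)
    rw [deriv_sub_const] at h1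
    rw [Metric.mem_ball, dist_eq_norm, norm_sub_rev, lt_div_iff₀ (by linarith)] at hy
    have h2 := norm_nonneg (g a - y)
    nlinarith
  · refine (upperD' hR hd hi hz).trans ?_
    exact mul_le_mul_of_nonneg_right e2 (norm_nonneg _)
  · exact lowerD hR hd hi hz
  · refine (Pool.Agent.MEY.KDI_.upper hR hd hi (x := z) (by linarith)).trans ?_
    have h1 : (64 : ℝ) ^ 6 ≤ A ^ 3 := hA64.trans e1
    gcongr
  · have hzR : z ∈ Metric.ball a R := by
      rw [Metric.mem_ball, dist_eq_norm]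
      linarith
    refine (Pool.Agent.MEY.KDI_.lower hd hi hzR).trans ?_
    exact mul_le_mul_of_nonneg_right e64 (norm_nonneg _)

end Pool.Agent.CUSP
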