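import Pool.Agent.CUSP.Targets2

/-!
# CUSP: target NET (nested nets)
-/

set_option autoImplicit false

open Complex Filter Topology Set MeasureTheory
open Pool.Agent.Limb (F)
open Pool.Agent.PLim (Rho)
open Pool.Agent.MEY (Pt)
open Pool.Agent.PSat (Comp Sat)
open Pool.Agent.AEN (vm Hp Exn)

namespace Pool.Agent.CUSP

namespace NET_

/-- `N` is `s`-separated. -/
def Sp (N : Finset ℂ) (s : ℝ) : Prop := ∀ y ∈ N, ∀ y' ∈ N, y ≠ y' → s ≤ ‖y - y'‖

/-- Extension of a separated set to a net. -/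
theorem ext (T : Finset ℂ) (s : ℝ) (hs : 0 < s) (N0 : Finset ℂ) (h0 : N0 ⊆ T)
    (hS : Sp N0 s) : ∃ N : Finset ℂ, N0 ⊆ N ∧ N ⊆ T ∧ Sp N s ∧
      ∀ x ∈ T, ∃ y ∈ N, ‖x - y‖ < s := by
  classical
  obtain ⟨N, hN, hmax⟩ := Finset.exists_max_image
    (T.powerset.filter (fun N => N0 ⊆ N ∧ Sp N s)) Finset.card
    ⟨N0, by simp only [Finset.mem_filter, Finset.mem_powerset]; exact ⟨h0, subset_rfl, hS⟩⟩
  simp only [Finset.mem_filter, Finset.mem_powerset] at hN hmax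
  obtain ⟨hNT, hN0, hNS⟩ := hN
  refine ⟨N, hN0, hNT, hNS, ?_⟩
  intro x hx
  by_contra hno
  have hno' : ∀ y ∈ N, s ≤ ‖x - y‖ := by
    intro y hy
    by_contra hlt
    exact hno ⟨y, hy, not_le.1 hlt⟩
  have hxN : x ∉ N := by
    intro hxN
    have h1 := hno' x hxN
    rw [sub_self, norm_zero] at h1
    exact absurd hs (not_lt.2 h1)
  have h2 := hmax (insert x N) ⟨Finset.insert_subset hx hNT,
    hN0.trans (Finset.subset_insert x N), by
      intro y hy y' hy' hne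
      rw [Finset.mem_insert] at hy hy'
      rcases hy with rfl | hy
      · rcases hy' with rfl | hy'
        · exact absurd rfl hne
        · exact hno' y' hy'
      · rcases hy' with rfl | hy'
        · rw [norm_sub_rev]
          exact hno' y hy
        · exact hNS y hy y' hy' hne⟩
  rw [Finset.card_insert_of_notMem hxN] at h2
  omega

end NET_

/-- NET. -/
theorem p_NET : T_NET := by
  classical
  intro T s0 hs0
  have hpos : ∀ n : ℕ, 0 < s0 / 2 ^ n := fun n => by positivity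
  -- a step which extends a separated set
  have hstep : ∀ (n : ℕ) (N0 : {N : Finset ℂ // N ⊆ T ∧ NET_.Sp N (s0 / 2 ^ n)}),
      ∃ N : {N : Finset ℂ // N ⊆ T ∧ NET_.Sp N (s0 / 2 ^ (n + 1))}, N0.1 ⊆ N.1 ∧
        ∀ x ∈ T, ∃ y ∈ N.1, ‖x - y‖ < s0 / 2 ^ (n + 1) := by
    intro n N0
    have hle : s0 / 2 ^ (n + 1) ≤ s0 / 2 ^ n := by
      rw [pow_succ]
      have h1 := hpos n
      rw [← div_div]
      linarith
    obtain ⟨N, h1, h2, h3, h4⟩ := NET_.ext T (s0 / 2 ^ (n + 1)) (hpos (n + 1)) N0.1 N0.2.1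
      (fun y hy y' hy' hne => hle.trans (N0.2.2 y hy y' hy' hne))
    exact ⟨⟨N, h2, h3⟩, h1, h4⟩
  choose st hst1 hst2 using hstep
  obtain ⟨N0, -, h2, h3, h4⟩ := NET_.ext T (s0 / 2 ^ 0) (hpos 0) ∅ (Finset.empty_subset T)
    (fun y hy => absurd hy (Finset.notMem_empty y))
  let N : (n : ℕ) → {N : Finset ℂ // N ⊆ T ∧ NET_.Sp N (s0 / 2 ^ n)} :=
    fun n => Nat.rec ⟨N0, h2, h3⟩ (fun n N => st n N) n
  have hNs : ∀ n, N (n + 1) = st n (N n) := fun n => rfl
  refine ⟨fun n => (N n).1, ?_⟩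
  intro n
  refine ⟨?_, (N n).2.1, (N n).2.2, ?_⟩
  · change (N n).1 ⊆ (N (n + 1)).1
    rw [hNs]
    exact hst1 n (N n)
  · cases n with
    | zero => exact h4
    | succ n =>
      intro x hx
      change ∃ y ∈ (N (n + 1)).1, ‖x - y‖ < s0 / 2 ^ (n + 1)
      rw [hNs]
      exact hst2 n (N n) x hx

end Pool.Agent.CUSP
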