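import Pool.Agent.CUSP.Targets2

/-!
# CUSP, PAK: packing
-/

set_option autoImplicit false

open MeasureTheory

namespace Pool.Agent.CUSP

theorem p_PAK : T_PAK := by
  intro x r s S hs hr h1 h2
  have hdisj : (S : Set ℂ).PairwiseDisjoint (fun y => Metric.ball y (s / 2)) := by
    intro y hy y' hy' hne
    refine Metric.ball_disjoint_ball ?_
    rw [dist_eq_norm]
    have := h2 y hy y' hy' hne
    linarith
  have hsub : (⋃ y ∈ S, Metric.ball y (s / 2)) ⊆ Metric.ball x (r + s / 2) := by
    intro w hw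
    simp only [Set.mem_iUnion] at hw
    obtain ⟨y, hy, hw⟩ := hw
    rw [Metric.mem_ball, dist_eq_norm] at hw ⊢
    have := h1 y hy
    have h3 : ‖w - x‖ ≤ ‖w - y‖ + ‖y - x‖ := norm_sub_le_norm_sub_add_norm_sub w y x
    linarith
  have h3 := measure_mono (μ := volume) hsub
  rw [measure_biUnion_finset hdisj (fun y _ => measurableSet_ball)] at h3
  simp only [Complex.volume_ball] at h3
  rw [Finset.sum_const, nsmul_eq_mul] at h3
  have h4 := ENNReal.toReal_mono (by
    refine ENNReal.mul_ne_top ?_ ENNReal.coe_ne_top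
    exact ENNReal.pow_ne_top ENNReal.ofReal_ne_top) h3
  rw [ENNReal.toReal_mul, ENNReal.toReal_mul, ENNReal.toReal_mul, ENNReal.toReal_pow,
    ENNReal.toReal_pow, ENNReal.toReal_ofReal (by positivity),
    ENNReal.toReal_ofReal (by positivity), ENNReal.toReal_natCast, ENNReal.coe_toReal,
    NNReal.coe_real_pi] at h4
  have h5 : (S.card : ℝ) * (s / 2) ^ 2 ≤ (r + s / 2) ^ 2 := by
    have hpi := Real.pi_pos
    have : ((S.card : ℝ) * (s / 2) ^ 2) * Real.pi ≤ (r + s / 2) ^ 2 * Real.pi := by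
      linarith
    exact le_of_mul_le_mul_right this hpi
  have h6 : (1 + 2 * r / s) ^ 2 = (r + s / 2) ^ 2 / (s / 2) ^ 2 := by
    field_simp
    ring
  rw [h6, le_div_iff₀ (by positivity)]
  exact h5

end Pool.Agent.CUSP
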