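import Pool.Agent.CUSP.Targets4

set_option autoImplicit false

open Complex Filter Topology Set MeasureTheory
open Pool.Agent.Limb (F)
open Pool.Agent.PLim (Rho)
open Pool.Agent.MEY (Pt)
open Pool.Agent.PSat (Comp Sat)
open Pool.Agent.AEN (vm Hp Exn)
open Pool.Agent.MEZ (T_NCZ T_SECZ)

namespace Pool.Agent.CUSP

namespace CTG_

/-- smooth functions of two complex variables -/
def Sm (G : ℂ × ℂ → ℂ) : Prop := ContDiff ℂ ((⊤ : ℕ∞) : WithTop ℕ∞) G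

theorem Sm.diff {G : ℂ × ℂ → ℂ} (h : Sm G) : Differentiable ℂ G :=
  h.differentiable (by simp)

theorem Sm.fd {G : ℂ × ℂ → ℂ} (h : Sm G) (v : ℂ × ℂ) : Sm (fun x => fderiv ℂ G x v) := by
  have h1 : ContDiff ℂ ((⊤ : ℕ∞) : WithTop ℕ∞) (fderiv ℂ G) := h.fderiv_right (by simp)
  exact h1.clm_apply contDiff_const

theorem Sm.d2 {G : ℂ × ℂ → ℂ} (h : Sm G) (c z : ℂ) :
    deriv (fun z' => G (c, z')) z = fderiv ℂ G (c, z) (0, 1) := by
  have h1 : HasDerivAt (fun z' : ℂ => ((c, z') : ℂ × ℂ)) ((0, 1) : ℂ × ℂ) z :=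
    (hasDerivAt_const z c).prodMk (hasDerivAt_id z)
  exact ((h.diff (c, z)).hasFDerivAt.comp_hasDerivAt z h1).deriv

theorem Sm.d1 {G : ℂ × ℂ → ℂ} (h : Sm G) (c z : ℂ) :
    deriv (fun c' => G (c', z)) c = fderiv ℂ G (c, z) (1, 0) := by
  have h1 : HasDerivAt (fun c' : ℂ => ((c', z) : ℂ × ℂ)) ((1, 0) : ℂ × ℂ) c :=
    (hasDerivAt_id c).prodMk (hasDerivAt_const c z)
  exact ((h.diff (c, z)).hasFDerivAt.comp_hasDerivAt c h1).deriv

theorem Sm.chain {G : ℂ × ℂ → ℂ} (h : Sm G) {Q Z : ℂ → ℂ} {m : ℂ}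
    (hQ : DifferentiableAt ℂ Q m) (hZ : DifferentiableAt ℂ Z m) :
    HasDerivAt (fun m => G (Q m, Z m))
      (fderiv ℂ G (Q m, Z m) (1, 0) * deriv Q m + fderiv ℂ G (Q m, Z m) (0, 1) * deriv Z m)
      m := by
  have h1 : HasDerivAt (fun m' : ℂ => ((Q m', Z m') : ℂ × ℂ)) (deriv Q m, deriv Z m) m :=
    hQ.hasDerivAt.prodMk hZ.hasDerivAt
  have h2 := (h.diff (Q m, Z m)).hasFDerivAt.comp_hasDerivAt m h1
  have h3 : ((deriv Q m, deriv Z m) : ℂ × ℂ) =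
      deriv Q m • ((1, 0) : ℂ × ℂ) + deriv Z m • ((0, 1) : ℂ × ℂ) := by
    simp
  rw [h3, map_add, map_smul, map_smul, smul_eq_mul, smul_eq_mul] at h2
  rw [mul_comm (fderiv ℂ G (Q m, Z m) (1, 0)), mul_comm (fderiv ℂ G (Q m, Z m) (0, 1))]
  exact h2

theorem sm_iter (k : ℕ) : Sm (fun x : ℂ × ℂ => (F 2 x.1)^[k] x.2) := by
  induction k with
  | zero =>
    unfold Sm
    simp only [Function.iterate_zero, id_eq]
    exact contDiff_snd
  | succ k ih =>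
    have h : (fun x : ℂ × ℂ => (F 2 x.1)^[k + 1] x.2) =
        fun x : ℂ × ℂ => ((F 2 x.1)^[k] x.2) ^ 2 + x.1 := by
      funext x
      rw [Function.iterate_succ_apply']
      rfl
    rw [h]
    exact (ContDiff.pow ih 2).add contDiff_fst

end CTG_

open CTG_ in
theorem p_CTG : T_CTG := by
  intro k
  have hG := sm_iter k
  have eR : ∀ c z : ℂ, Rho 2 k c z =
      fderiv ℂ (fun x : ℂ × ℂ => (F 2 x.1)^[k] x.2) (c, z) (0, 1) := fun c z => hG.d2 c z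
  have hR : Sm (fun x : ℂ × ℂ => Rho 2 k x.1 x.2) := by
    have h : (fun x : ℂ × ℂ => Rho 2 k x.1 x.2) =
        fun x => fderiv ℂ (fun x : ℂ × ℂ => (F 2 x.1)^[k] x.2) x (0, 1) := by
      funext x
      exact eR x.1 x.2
    rw [h]
    exact hG.fd (0, 1)
  have eC : ∀ c z : ℂ, Gc k c z =
      fderiv ℂ (fun x : ℂ × ℂ => (F 2 x.1)^[k] x.2) (c, z) (1, 0) := fun c z => hG.d1 c z
  have eZZ : ∀ c z : ℂ, Gzz k c z =
      fderiv ℂ (fun x : ℂ × ℂ => Rho 2 k x.1 x.2) (c, z) (0, 1) := fun c z => hR.d2 c z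
  have eZC : ∀ c z : ℂ, Gzc k c z =
      fderiv ℂ (fun x : ℂ × ℂ => Rho 2 k x.1 x.2) (c, z) (1, 0) := fun c z => hR.d1 c z
  refine ⟨hG.continuous, hR.continuous, ?_, ?_, ?_, ?_⟩
  · simp only [eC]
    exact (hG.fd (1, 0)).continuous
  · simp only [eZZ]
    exact (hR.fd (0, 1)).continuous
  · simp only [eZC]
    exact (hR.fd (1, 0)).continuous
  · intro Q Z m hQ hZ
    refine ⟨?_, ?_⟩
    · rw [eC, eR]
      exact hG.chain hQ hZ
    · rw [eZC, eZZ]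
      exact hR.chain hQ hZ

end Pool.Agent.CUSP
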