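import Pool.Agent.CUSP.Targets4
import Pool.Agent.PLim.CNT
import Pool.Agent.PLim.RCV

/-!
# CUSP, job DIK: satellite or primitive
-/

set_option autoImplicit false

open Complex Filter Topology Set MeasureTheory
open Pool.Agent.Limb (F)
open Pool.Agent.PLim (Rho)
open Pool.Agent.MEY (Pt)
open Pool.Agent.PSat (Comp Sat)
open Pool.Agent.AEN (vm Hp Exn)
open Pool.Agent.MEZ (T_NCZ T_SECZ)

namespace Pool.Agent.CUSP

namespace DIK_

lemma natHp (n : ℕ) : ((n : ℂ) + 1) ∈ Hp := by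
  change 0 < ((n : ℂ) + 1).re
  simp
  positivity

lemma natNorm (n : ℕ) : ‖(n : ℂ) + 1‖ = (n : ℝ) + 1 := by
  have h : ((n : ℂ) + 1) = (((n : ℝ) + 1 : ℝ) : ℂ) := by push_cast; ring
  rw [h, Complex.norm_real, Real.norm_of_nonneg (by positivity)]

/-- The multiplier along the sequence. -/
lemma vmLim : Tendsto (fun n : ℕ => vm ((n : ℂ) + 1)) atTop (𝓝 1) := by
  have e : ∀ n : ℕ, vm ((n : ℂ) + 1) = 1 - 2 / (2 * ((n : ℂ) + 1) + 1) := by
    intro n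
    have hne : (2 * ((n : ℂ) + 1) + 1) ≠ 0 := by
      have : (2 * ((n : ℂ) + 1) + 1) = ((2 * (n + 1) + 1 : ℕ) : ℂ) := by push_cast; ring
      rw [this]
      exact Nat.cast_ne_zero.2 (by omega)
    unfold vm
    field_simp
    ring
  have h2 : Tendsto (fun n : ℕ => (2 : ℂ) / (2 * ((n : ℂ) + 1) + 1)) atTop (𝓝 0) := by
    rw [tendsto_zero_iff_norm_tendsto_zero]
    have hb : ∀ n : ℕ, ‖(2 : ℂ) / (2 * ((n : ℂ) + 1) + 1)‖ ≤ 1 / ((n : ℝ) + 1) := by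
      intro n
      have h3 : (2 * ((n : ℂ) + 1) + 1) = ((2 * ((n : ℝ) + 1) + 1 : ℝ) : ℂ) := by
        push_cast; ring
      have hp : (0 : ℝ) ≤ n := Nat.cast_nonneg n
      rw [norm_div, h3, Complex.norm_real, Real.norm_of_nonneg (by positivity), Complex.norm_two,
        div_le_div_iff₀ (by positivity) (by positivity)]
      nlinarith
    exact squeeze_zero (fun n => norm_nonneg _) hb tendsto_one_div_add_atTop_nhds_zero_nat
  have h3 : Tendsto (fun n : ℕ => (1 : ℂ) - 2 / (2 * ((n : ℂ) + 1) + 1)) atTop (𝓝 (1 - 0)) :=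
    tendsto_const_nhds.sub h2
  rw [sub_zero] at h3
  exact h3.congr fun n => (e n).symm

lemma seqLim {K : ℕ} {Q Z : ℂ → ℂ} {r0 z0 : ℂ} (hR : Rt K Q Z r0 z0) :
    Tendsto (fun n : ℕ => Q ((n : ℂ) + 1)) atTop (𝓝 r0) ∧
    Tendsto (fun n : ℕ => Z ((n : ℂ) + 1)) atTop (𝓝 z0) := by
  constructor
  · rw [Metric.tendsto_atTop]
    intro ε hε
    obtain ⟨M, hM⟩ := hR.lim (ε / 2) (by positivity)
    obtain ⟨N, hN⟩ := exists_nat_gt M
    refine ⟨N, fun n hn => ?_⟩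
    have h1 : M ≤ ‖(n : ℂ) + 1‖ := by
      rw [natNorm]
      have : (N : ℝ) ≤ n := by exact_mod_cast hn
      linarith
    have h2 := (hM _ (natHp n) h1).1
    rw [dist_eq_norm]
    linarith
  · rw [Metric.tendsto_atTop]
    intro ε hε
    obtain ⟨M, hM⟩ := hR.lim (ε / 2) (by positivity)
    obtain ⟨N, hN⟩ := exists_nat_gt M
    refine ⟨N, fun n hn => ?_⟩
    have h1 : M ≤ ‖(n : ℂ) + 1‖ := by
      rw [natNorm]
      have : (N : ℝ) ≤ n := by exact_mod_cast hn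
      linarith
    have h2 := (hM _ (natHp n) h1).2
    rw [dist_eq_norm]
    linarith

/-- The limit of the parametrization at `1`. -/
lemma limP (h₂ : Pool.Agent.AEN.T_MOB) {κ : ℝ} {K : ℕ} {P Q Z : ℂ → ℂ} {r0 z0 : ℂ}
    (hE : Exn κ P Q) (hR : Rt K Q Z r0 z0) :
    Tendsto P (𝓝[Metric.ball 0 1] 1) (𝓝 r0) := by
  obtain ⟨-, -, h3, -⟩ := h₂
  rw [Metric.tendsto_nhdsWithin_nhds]
  intro ε hε
  obtain ⟨M, hM⟩ := hR.lim (ε / 2) (by positivity)
  refine ⟨1 / (|M| + 1), by positivity, ?_⟩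
  intro v hv hd
  have hv1 : ‖v‖ < 1 := mem_ball_zero_iff.1 hv
  obtain ⟨m, hm, hvm, he⟩ := h3 v hv1
  have hne : (1 : ℂ) - v ≠ 0 := by
    intro h0
    have : v = 1 := by linear_combination -h0
    rw [this] at hv1
    simp at hv1
  have hpos : 0 < ‖(1 : ℂ) - v‖ := norm_pos_iff.2 hne
  have hd' : ‖(1 : ℂ) - v‖ < 1 / (|M| + 1) := by
    rw [dist_eq_norm] at hd
    rw [norm_sub_rev]
    exact hd
  have h4 : |M| + 1 ≤ 1 / ‖(1 : ℂ) - v‖ := by
    rw [le_div_iff₀ hpos]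
    have hM1 : 0 < |M| + 1 := by positivity
    rw [lt_div_iff₀ hM1] at hd'
    linarith
  have h5 : 2 / ‖(1 : ℂ) - v‖ ≤ 2 * ‖m‖ + 1 := by
    have h6 : ‖2 * m + 1‖ = 2 / ‖(1 : ℂ) - v‖ := by
      rw [he, norm_div, Complex.norm_two]
    rw [← h6]
    calc ‖2 * m + 1‖ ≤ ‖2 * m‖ + ‖(1 : ℂ)‖ := norm_add_le _ _
      _ = 2 * ‖m‖ + 1 := by rw [norm_mul, Complex.norm_two, norm_one]
  have h7 : M ≤ ‖m‖ := by
    have h8 : 2 / ‖(1 : ℂ) - v‖ = 2 * (1 / ‖(1 : ℂ) - v‖) := by ring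
    have h9 := le_abs_self M
    rw [h8] at h5
    linarith
  have h10 := (hM m hm h7).1
  rw [hE.eq m hm, hvm] at h10
  rw [dist_eq_norm]
  linarith

end DIK_

theorem p_DIK (h₁ : T_NPC) (h₂ : Pool.Agent.AEN.T_MOB) : T_DIK := by
  intro κ K P Q Z r0 z0 hκ hP hE hR
  have hlimP := DIK_.limP h₂ hE hR
  refine ⟨hlimP, ?_⟩
  obtain ⟨hQl, hZl⟩ := DIK_.seqLim hR
  have hpair : Tendsto (fun n : ℕ => (Q ((n : ℂ) + 1), Z ((n : ℂ) + 1))) atTop (𝓝 (r0, z0)) :=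
    hQl.prodMk_nhds hZl
  have hfix : (F 2 r0)^[K] z0 = z0 := by
    have h1 : Tendsto (fun n : ℕ => (F 2 (Q ((n : ℂ) + 1)))^[K] (Z ((n : ℂ) + 1))) atTop
        (𝓝 ((F 2 r0)^[K] z0)) :=
      ((Pool.Agent.PLim.CNT_contI 2 K).tendsto (r0, z0)).comp hpair
    have h2 : (fun n : ℕ => (F 2 (Q ((n : ℂ) + 1)))^[K] (Z ((n : ℂ) + 1))) =
        fun n : ℕ => Z ((n : ℂ) + 1) := by
      funext n
      exact (hR.pt _ (DIK_.natHp n)).fix
    rw [h2] at h1
    exact tendsto_nhds_unique h1 hZl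
  have hrho : Rho 2 K r0 z0 = 1 := by
    have h1 : Tendsto (fun n : ℕ => Rho 2 K (Q ((n : ℂ) + 1)) (Z ((n : ℂ) + 1))) atTop
        (𝓝 (Rho 2 K r0 z0)) :=
      ((Pool.Agent.PLim.CNT_contR 2 K).tendsto (r0, z0)).comp hpair
    have h2 : (fun n : ℕ => Rho 2 K (Q ((n : ℂ) + 1)) (Z ((n : ℂ) + 1))) =
        fun n : ℕ => vm ((n : ℂ) + 1) := by
      funext n
      exact (hR.pt _ (DIK_.natHp n)).mul
    rw [h2] at h1
    exact tendsto_nhds_unique h1 DIK_.vmLim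
  have hK := hP.hK
  have hper : Function.IsPeriodicPt (F 2 r0) K z0 := hfix
  obtain ⟨k, hk⟩ : ∃ k, k = Function.minimalPeriod (F 2 r0) z0 := ⟨_, rfl⟩
  have hk0 : 0 < k := by
    rw [hk]
    exact hper.minimalPeriod_pos hK
  obtain ⟨q', hq'⟩ : k ∣ K := by
    rw [hk]
    exact hper.minimalPeriod_dvd
  have hkfix : (F 2 r0)^[k] z0 = z0 := by
    rw [hk]
    exact Function.iterate_minimalPeriod
  have hexa : Pool.Agent.MEX.Exa 2 k r0 z0 := by
    intro j hj0 hjk hj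
    exact Function.not_isPeriodicPt_of_pos_of_lt_minimalPeriod hj0.ne' (hk ▸ hjk) hj
  have hq'0 : 0 < q' := by
    rcases Nat.eq_zero_or_pos q' with h | h
    · rw [h, mul_zero] at hq'
      omega
    · exact h
  have hpow : Rho 2 k r0 z0 ^ q' = 1 := by
    rw [← Pool.Agent.PLim.RCV_.Rho_mul 2 k q' r0 z0 hkfix, ← hq']
    exact hrho
  obtain ⟨q, hq⟩ : ∃ q, q = orderOf (Rho 2 k r0 z0) := ⟨_, rfl⟩
  obtain ⟨M, hM⟩ : q ∣ q' := by
    rw [hq]
    exact orderOf_dvd_of_pow_eq_one hpow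
  have hq0 : 0 < q := by
    rcases Nat.eq_zero_or_pos q with h | h
    · rw [h, zero_mul] at hM
      omega
    · exact h
  have hM0 : 0 < M := by
    rcases Nat.eq_zero_or_pos M with h | h
    · rw [h, mul_zero] at hM
      omega
    · exact h
  have hprim : IsPrimitiveRoot (Rho 2 k r0 z0) q := by
    rw [hq]
    exact IsPrimitiveRoot.orderOf _
  have hM1 : M = 1 := by
    by_contra hne
    have hM2 : 2 ≤ M := by omega
    have hr1 : Rho 2 (k * q) r0 z0 = 1 :=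
      (Pool.Agent.PLim.RCV_.Rho_mul 2 k q r0 z0 hkfix).trans hprim.pow_eq_one
    have hkq : 1 ≤ k * q := Nat.mul_pos hk0 hq0
    have hKe : K = k * q * M := by rw [hq', hM, mul_assoc]
    have h3 := h₁ (k * q) M r0 z0 (fun n => Q ((n : ℂ) + 1)) (fun n => Z ((n : ℂ) + 1)) hkq hM0
      (Pool.Agent.PLim.RCV_.fix_mul 2 k q r0 z0 hkfix)
      hr1 hQl hZl
      (fun n => by rw [← hKe]; exact (hR.pt _ (DIK_.natHp n)).fix)
    obtain ⟨n, hn⟩ := h3.exists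
    refine (hR.pt _ (DIK_.natHp n)).exa (k * q) hkq ?_ hn
    rw [hKe]
    nlinarith
  have hKq : K = k * q := by rw [hq', hM, hM1, mul_one]
  have hPt : Pt 2 k r0 z0 (Rho 2 k r0 z0) := ⟨hkfix, hexa, rfl⟩
  by_cases hq1 : q = 1
  · right
    have h4 : Rho 2 k r0 z0 = 1 := by
      have := hprim.pow_eq_one
      rwa [hq1, pow_one] at this
    rw [h4] at hPt
    rw [hKq, hq1, mul_one]
    exact hPt
  · left
    obtain ⟨p, hp, hcop, hexp⟩ := (Complex.isPrimitiveRoot_iff _ q hq0.ne').1 hprim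
    refine ⟨k, p, q, r0, z0, hKq, ?_, hp, hcop, hlimP, ?_⟩
    · rcases Nat.eq_zero_or_pos p with h | h
      · rw [h] at hcop
        simp at hcop
        exact absurd hcop hq1
      · exact h
    · rw [mul_div_assoc, hexp]
      exact hPt

end Pool.Agent.CUSP
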