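import Pool.Agent.CUSP.Targets3
import Pool.Agent.AEN.P_FIN2

/-!
# CUSP: FINC, the final statement
-/

set_option autoImplicit false

open Complex Filter Topology Set MeasureTheory
open Pool.Agent.Limb (F)
open Pool.Agent.PLim (Rho)
open Pool.Agent.MEY (Pt)
open Pool.Agent.PSat (Comp Sat)
open Pool.Agent.AEN (vm Hp Exn)
open Pool.Agent.MEZ (T_NCZ T_SECZ)

namespace Pool.Agent.CUSP

open Pool.Agent.AEN.FIN2_ in
theorem p_FINC (h₁ : T_FNP) (h₂ : T_PRT) (h₃ : Pool.Agent.AEN.T_CNT)
    (h₄ : Pool.Agent.AEN.T_LGI) : T_FINC := by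
  intro hN hS
  obtain ⟨Cs, hCs, hs⟩ := h₁ hN hS
  obtain ⟨Cp, hCp, hp⟩ := h₂ hN
  have hC1 : 1 ≤ max Cs 1 := le_max_right _ _
  have hsC : Cs ≤ max Cs 1 := le_max_left _ _
  set C1 := max Cs 1 with hC1d
  obtain ⟨C', hC', hLG⟩ := h₄ C1 hC1
  have a1000 : ∀ (K : ℕ) (P : ℂ → ℂ), Comp K P →
      (volume (P '' Metric.ball 0 1)).toReal ≤ 1000 := by
    intro K P hc
    have := h₃ {P '' Metric.ball 0 1} (by
      intro U hU
      rw [Finset.mem_singleton] at hU
      exact ⟨K, P, hc, hU⟩)
    rwa [Finset.sum_singleton] at this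
  have b1 : ∀ U : Set ℂ, IsHC U → Metric.diam U ≤
      C1 * √(volume U).toReal * (1 + |Real.log (volume U).toReal|) := by
    rintro U ⟨K, P, hc, rfl⟩
    have h5 := diam_bd (U := P '' Metric.ball 0 1) (S := P '' Metric.ball 0 1) (C := Cs)
      (L := 0) hCs le_rfl (fin_vol hc) (by
        rintro b hb hv _ ⟨v, hv1, rfl⟩ _ ⟨v', hv2, rfl⟩
        rw [add_zero]
        exact hs K P b hc hb hv v hv1 v' hv2)
    rw [add_zero] at h5
    refine h5.trans ?_
    have := abs_nonneg (Real.log (volume (P '' Metric.ball 0 1)).toReal)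
    gcongr
  have hCC : C1 ≤ max (max C1 (1000 * C')) Cp := (le_max_left _ _).trans (le_max_left _ _)
  have hCC' : 1000 * C' ≤ max (max C1 (1000 * C')) Cp :=
    (le_max_right _ _).trans (le_max_left _ _)
  have hCCp : Cp ≤ max (max C1 (1000 * C')) Cp := le_max_right _ _
  have hC0 : 0 < max (max C1 (1000 * C')) Cp := lt_of_lt_of_le (by linarith) hCC
  refine ⟨max (max C1 (1000 * C')) Cp, hC0, ?_, ?_, ?_, ?_⟩
  · intro U hU
    refine (b1 U hU).trans ?_
    have := abs_nonneg (Real.log (volume U).toReal)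
    gcongr
  · intro s hsat
    have h5 : ∑ U ∈ s, (Metric.diam U / (1 + |Real.log (Metric.diam U)|)) ^ 2 ≤
        ∑ U ∈ s, C' * (volume U).toReal := by
      refine Finset.sum_le_sum fun U hU => ?_
      have h6 := b1 U (hsat U hU)
      have h9 : 0 ≤ (volume U).toReal := ENNReal.toReal_nonneg
      rcases (Metric.diam_nonneg (s := U)).eq_or_lt with h0 | h0
      · rw [← h0, zero_div]
        have : 0 ≤ C' * (volume U).toReal := by positivity
        simpa using this
      · have h7 : (volume U).toReal ≤ 1000 := by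
          obtain ⟨K, P, hc, rfl⟩ := hsat U hU
          exact a1000 K P hc
        have h8 := hLG (Metric.diam U) (volume U).toReal h0 (pos_a h0 h6) h7 h6
        have h10 : 0 < 1 + |Real.log (Metric.diam U)| := by
          have := abs_nonneg (Real.log (Metric.diam U))
          linarith
        rw [div_pow, div_le_iff₀ (pow_pos h10 2)]
        exact h8
    refine h5.trans ?_
    rw [← Finset.mul_sum]
    have h6 := h₃ s fun U hU => hsat U hU
    have h7 := mul_le_mul_of_nonneg_left h6 (by linarith : 0 ≤ C')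
    linarith
  · intro ε hε
    have hX : 0 ≤ 1 + |Real.log ε| := by
      have := abs_nonneg (Real.log ε)
      linarith
    obtain ⟨h5, h6⟩ := count (Fa := {U : Set ℂ | IsHC U ∧ ε ≤ Metric.diam U}) (η := ε ^ 2)
      (K := C' * (1 + |Real.log ε|) ^ 2) (by positivity) (by positivity) (by
        intro s hs'
        exact h₃ s fun U hU => (hs' U hU).1) (by
        rintro U ⟨hU, hεU⟩
        have h7 := hεU.trans (b1 U hU)
        have h8 : (volume U).toReal ≤ 1000 := by
          obtain ⟨K, P, hc, rfl⟩ := hU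
          exact a1000 K P hc
        have h9 := hLG ε (volume U).toReal hε (pos_a hε h7) h8 h7
        linarith)
    refine ⟨h5, h6.trans ?_⟩
    have h7 : 1000 * (C' * (1 + |Real.log ε|) ^ 2) / ε ^ 2 =
        (1000 * C') * (1 + |Real.log ε|) ^ 2 / ε ^ 2 := by ring
    rw [h7]
    gcongr
  · intro K P hc hsat
    obtain ⟨r, hr, hv⟩ := hp K P hc hsat
    refine ⟨r, hr, fun v hv1 => (hv v hv1).trans ?_⟩
    gcongr

end Pool.Agent.CUSP
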