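import Pool.Agent.CUSP.Targets4

/-!
# CUSP, target FNP: all components (helper21)
-/

set_option autoImplicit false

open Complex Filter Topology Set MeasureTheory
open Pool.Agent.Limb (F)
open Pool.Agent.PLim (Rho)
open Pool.Agent.MEY (Pt)
open Pool.Agent.PSat (Comp Sat)
open Pool.Agent.AEN (vm Hp Exn)
open Pool.Agent.MEZ (T_NCZ T_SECZ NCZk)

namespace Pool.Agent.CUSP

namespace FNP_

lemma ncz_mono {κ κ' : ℝ} (h : κ' ≤ κ) (hN : NCZk κ) : NCZk κ' := by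
  intro n k c0 z0 μ δ ε r zf hn hk hL hE hR hδ hF hμ
  have h1 : κ' * δ ^ 2 ≤ κ * δ ^ 2 := mul_le_mul_of_nonneg_right h (sq_nonneg δ)
  exact hN n k c0 z0 μ δ ε r zf hn hk hL hE hR hδ hF (lt_of_lt_of_le hμ h1)

end FNP_

/-- The target `T_FNP`. -/
theorem p_FNP (h₁ : T_RTE) (h₂ : T_DIK) (h₃ : T_PTK) (h₄ : Pool.Agent.AEN.T_MOB)
    (h₅ : Pool.Agent.AEN.T_EXS) (h₆ : Pool.Agent.AEN.T_UVP) (h₇ : Pool.Agent.AEN.T_CHN2)
    (h₈ : Pool.Agent.AEN.T_FNS2) : T_FNP := by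
  intro hNCZ hSECZ
  obtain ⟨C1, hC1, hS⟩ := h₈ hNCZ hSECZ
  obtain ⟨C2, hC2, hP2⟩ := h₃
  obtain ⟨κ0, hκ0, hN0⟩ := hNCZ
  obtain ⟨κ, hκ, hκ1, hN⟩ : ∃ κ : ℝ, 0 < κ ∧ κ ≤ 1 ∧ NCZk κ :=
    ⟨min κ0 1, lt_min hκ0 one_pos, min_le_right _ _, FNP_.ncz_mono (min_le_left _ _) hN0⟩
  obtain ⟨κ1, hκ1d⟩ : ∃ κ1 : ℝ, κ1 = κ / 5000 := ⟨_, rfl⟩
  have hκ1p : 0 < κ1 := by rw [hκ1d]; positivity
  have hκ1l : κ1 ≤ 1 := by rw [hκ1d]; linarith
  obtain ⟨C4, hC4⟩ : ∃ C4 : ℝ, C4 = 11 / κ1 + 1 + C2 := ⟨_, rfl⟩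
  have hq : 0 < 11 / κ1 := by positivity
  have hC4p : 0 < C4 := by rw [hC4]; linarith
  refine ⟨C1 + 32 + 2 * C4, by linarith, ?_⟩
  intro K P b hP hb hvol v hv v' hv'
  have hb2 : 0 < b ^ 2 := by positivity
  have hlb : 1 ≤ 1 + |Real.log b| := by
    have := abs_nonneg (Real.log b)
    linarith
  have hbl0 : 0 ≤ b ^ 2 * (1 + |Real.log b|) := mul_nonneg hb2.le (by linarith)
  have hsplit : (C1 + 32 + 2 * C4) * b ^ 2 * (1 + |Real.log b|) =
      C1 * (b ^ 2 * (1 + |Real.log b|)) + 32 * (b ^ 2 * (1 + |Real.log b|)) +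
        2 * C4 * (b ^ 2 * (1 + |Real.log b|)) := by ring
  have hp1 : 0 ≤ C1 * (b ^ 2 * (1 + |Real.log b|)) := mul_nonneg hC1.le hbl0
  have hp2 : 0 ≤ 2 * C4 * (b ^ 2 * (1 + |Real.log b|)) := mul_nonneg (by linarith) hbl0
  rw [hsplit]
  obtain ⟨Q, hQ⟩ := h₅ κ hκ hκ1 hN K P hP
  rw [← hκ1d] at hQ
  have hv1 : ‖v‖ < 1 := mem_ball_zero_iff.1 hv
  have hv1' : ‖v'‖ < 1 := mem_ball_zero_iff.1 hv'
  obtain ⟨m, hm, hmv, -⟩ := h₄.2.2.1 v hv1
  obtain ⟨m', hm', hmv', -⟩ := h₄.2.2.1 v' hv1'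
  have hPv : P v = Q m := by
    rw [← hmv]
    exact (hQ.eq m hm).symm
  have hPv' : P v' = Q m' := by
    rw [← hmv']
    exact (hQ.eq m' hm').symm
  by_cases hb1 : 1 < b
  · rw [hPv, hPv']
    have h6 : ‖Q m‖ ≤ 16 := hQ.bd m (by
      change -κ1 < m.re
      linarith)
    have h7 : ‖Q m'‖ ≤ 16 := hQ.bd m' (by
      change -κ1 < m'.re
      linarith)
    have h8 : ‖Q m - Q m'‖ ≤ 32 := (norm_sub_le _ _).trans (by linarith)
    have h9 : 1 ≤ b ^ 2 := one_le_pow₀ hb1.le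
    have h10 : 1 * 1 ≤ b ^ 2 * (1 + |Real.log b|) :=
      mul_le_mul h9 hlb zero_le_one (by linarith)
    linarith
  · have hb1' : b ≤ 1 := le_of_not_gt hb1
    by_cases hsat : Sat K P
    · have h6 := hS K P b hP hsat hb hvol v hv v' hv'
      have h7 : C1 * b ^ 2 * (1 + |Real.log b|) = C1 * (b ^ 2 * (1 + |Real.log b|)) := by ring
      linarith
    · obtain ⟨Z, r0, z0, hRt⟩ := h₁ κ1 K P Q hκ1p hP hQ
      have hPt : Pt 2 K r0 z0 1 :=
        (h₂ κ1 K P Q Z r0 z0 hκ1p hP hQ hRt).2.resolve_left hsat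
      have hT := hP2 κ1 K P Q Z r0 z0 hκ1p hP hQ hRt hPt
      have hU : Pool.Agent.AEN.Uv κ1 b Q := h₆ κ1 b K P Q hκ1p hκ1l hb hP hQ hvol
      rw [hPv, hPv']
      obtain ⟨lam, hlam⟩ : ∃ lam : ℝ, lam = Real.log (1 / b) := ⟨_, rfl⟩
      have hlam' : |Real.log b| = lam := by
        rw [hlam, one_div, Real.log_inv, abs_of_nonpos (Real.log_nonpos hb.le hb1')]
      have hlamp : 0 ≤ lam := by
        rw [← hlam']
        exact abs_nonneg _
      rw [hlam'] at hbl0 hp1 hp2 ⊢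
      obtain ⟨M, hM⟩ : ∃ M : ℝ, M = 1 / b := ⟨_, rfl⟩
      have hM1 : 1 ≤ M := by
        rw [hM, le_div_iff₀ hb]
        linarith
      have hMp : 0 < M := by linarith
      have hlog : Real.log M = lam := by rw [hM, hlam]
      have hMb : ∀ x : ℝ, M ≤ x → C2 / x ^ 2 ≤ C2 * b ^ 2 := by
        intro x hx
        have h6 : M ^ 2 ≤ x ^ 2 := pow_le_pow_left₀ hMp.le hx 2
        have h7 : C2 / x ^ 2 ≤ C2 / M ^ 2 :=
          div_le_div_of_nonneg_left (by linarith) (by positivity) h6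
        have h8 : C2 / M ^ 2 = C2 * b ^ 2 := by
          rw [hM]
          field_simp
        linarith
      have hbl : b ^ 2 ≤ b ^ 2 * (1 + lam) := by
        have h6 : b ^ 2 * 1 ≤ b ^ 2 * (1 + lam) :=
          mul_le_mul_of_nonneg_left (by linarith) hb2.le
        linarith
      have key : ∀ y : ℂ, 0 < y.re → ‖Q y - r0‖ ≤ C4 * (b ^ 2 * (1 + lam)) := by
        intro y hy
        have h12 : C2 * b ^ 2 ≤ C2 * (b ^ 2 * (1 + lam)) :=
          mul_le_mul_of_nonneg_left hbl (by linarith)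
        have h11 : C4 * (b ^ 2 * (1 + lam)) = 11 / κ1 * (b ^ 2 * (1 + lam)) +
          b ^ 2 * (1 + lam) + C2 * (b ^ 2 * (1 + lam)) := by
          rw [hC4]
          ring
        have h14 : 0 ≤ 11 / κ1 * (b ^ 2 * (1 + lam)) := mul_nonneg hq.le hbl0
        by_cases hyM : M ≤ y.re
        · have h6 := hT y hy
          have h7 := hMb y.re hyM
          linarith
        · have hyM' : y.re < M := lt_of_not_ge hyM
          have hre : ((M : ℂ) + y.im * I).re = M := by simp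
          have h6 := hT ((M : ℂ) + y.im * I) (by
            change 0 < ((M : ℂ) + y.im * I).re
            rw [hre]
            exact hMp)
          rw [hre] at h6
          have h6' := hMb M le_rfl
          have h7 := h₇ κ1 b Q hU hb1' y.im y.re M hy hyM'.le hM1
          rw [Complex.re_add_im, hlog, ← hlam] at h7
          have h8 : ‖Q y - r0‖ ≤ ‖Q y - Q (M + y.im * I)‖ + ‖Q (M + y.im * I) - r0‖ :=
            norm_sub_le_norm_sub_add_norm_sub _ _ _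
          have h9 : b ^ 2 * lam ≤ b ^ 2 * (1 + lam) := by
            have : b ^ 2 * (1 + lam) = b ^ 2 * lam + b ^ 2 := by ring
            linarith
          have h10 : 11 * b ^ 2 * (1 + lam) / κ1 = 11 / κ1 * (b ^ 2 * (1 + lam)) := by ring
          linarith
      have h6 := key m hm
      have h7 := key m' hm'
      rw [norm_sub_rev] at h7
      have h8 : ‖Q m - Q m'‖ ≤ ‖Q m - r0‖ + ‖r0 - Q m'‖ :=
        norm_sub_le_norm_sub_add_norm_sub _ _ _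
      linarith

end Pool.Agent.CUSP
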