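import Pool.Agent.CUSP.Targets4

/-!
# CUSP, target LT3: the derivative near the root (helper21)
-/

set_option autoImplicit false

open Complex Filter Topology Set MeasureTheory
open Pool.Agent.Limb (F)
open Pool.Agent.PLim (Rho)
open Pool.Agent.MEY (Pt)
open Pool.Agent.PSat (Comp Sat)
open Pool.Agent.AEN (vm Hp Exn)
open Pool.Agent.MEZ (T_NCZ T_SECZ)

namespace Pool.Agent.CUSP

namespace LT3_

theorem isOpen_Hp : IsOpen Hp := isOpen_lt continuous_const Complex.continuous_re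

theorem two_ne {m : ℂ} (hm : m ∈ Hp) : 2 * m + 1 ≠ 0 := by
  intro h
  have h1 := congrArg Complex.re h
  have h2 : 0 < m.re := hm
  simp at h1
  linarith

theorem one_sub_vm {m : ℂ} (hm : m ∈ Hp) : 1 - vm m = 2 * (2 * m + 1)⁻¹ := by
  have h := two_ne hm
  unfold vm
  field_simp
  ring

theorem vm_der {m : ℂ} (hm : m ∈ Hp) : HasDerivAt vm (4 * ((2 * m + 1)⁻¹) ^ 2) m := by
  have h := two_ne hm
  have h1 : HasDerivAt (fun m : ℂ => 2 * m - 1) 2 m := by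
    simpa using ((hasDerivAt_id m).const_mul (2 : ℂ)).sub_const (1 : ℂ)
  have h2 : HasDerivAt (fun m : ℂ => 2 * m + 1) 2 m := by
    simpa using ((hasDerivAt_id m).const_mul (2 : ℂ)).add_const (1 : ℂ)
  have h3 := h1.div h2 h
  refine h3.congr_deriv ?_
  field_simp
  ring

/-- The exact formula for the derivative. -/
theorem key (h₁ : T_CTG) {K : ℕ} {Q Z : ℂ → ℂ} {r0 z0 : ℂ} (hQ : DifferentiableOn ℂ Q Hp)
    (hR : Rt K Q Z r0 z0) {m : ℂ} (hm : m ∈ Hp) :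
    deriv Q m * (2 * (2 * m + 1)⁻¹ * Gzc K (Q m) (Z m) +
      Gzz K (Q m) (Z m) * Gc K (Q m) (Z m)) = 8 * ((2 * m + 1)⁻¹) ^ 3 := by
  have hn : Hp ∈ 𝓝 m := isOpen_Hp.mem_nhds hm
  obtain ⟨e1, e2⟩ := (h₁ K).2.2.2.2.2 Q Z m (hQ.differentiableAt hn)
    (hR.dZ.differentiableAt hn)
  have hZ := (hR.dZ.differentiableAt hn).hasDerivAt
  have f1 : (fun m => (F 2 (Q m))^[K] (Z m)) =ᶠ[𝓝 m] Z := by
    filter_upwards [hn] with y hy
    exact (hR.pt y hy).fix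
  have f2 : (fun m => Rho 2 K (Q m) (Z m)) =ᶠ[𝓝 m] vm := by
    filter_upwards [hn] with y hy
    exact (hR.pt y hy).mul
  have g1 := e1.unique (hZ.congr_of_eventuallyEq f1)
  have g2 := e2.unique ((vm_der hm).congr_of_eventuallyEq f2)
  rw [(hR.pt m hm).mul] at g1
  have g3 := one_sub_vm hm
  set w := (2 * m + 1)⁻¹ with hw
  have g4 : vm m = 1 - 2 * w := by linear_combination -g3
  rw [g4] at g1
  linear_combination 2 * w * g2 + Gzz K (Q m) (Z m) * g1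

theorem inv_tendsto (Y : ℝ) :
    Tendsto (fun T : ℝ => (2 * ((T : ℂ) + Y * I) + 1)⁻¹) atTop (𝓝 0) := by
  have h1 : Tendsto (fun T : ℝ => 1 / T) atTop (𝓝 0) := by
    simpa using tendsto_inv_atTop_zero (𝕜 := ℝ)
  refine squeeze_zero_norm' ?_ h1
  filter_upwards [eventually_gt_atTop (0 : ℝ)] with T hT
  rw [norm_inv, ← one_div]
  refine one_div_le_one_div_of_le hT ?_
  have h2 := Complex.re_le_norm (2 * ((T : ℂ) + Y * I) + 1)
  have h3 : (2 * ((T : ℂ) + Y * I) + 1).re = 2 * T + 1 := by simp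
  rw [h3] at h2
  linarith

theorem mem_Hp (Y : ℝ) {T : ℝ} (hT : 0 < T) : ((T : ℂ) + Y * I) ∈ Hp := by
  show 0 < ((T : ℂ) + Y * I).re
  simpa using hT

theorem lim {K : ℕ} {Q Z : ℂ → ℂ} {r0 z0 : ℂ} (hR : Rt K Q Z r0 z0) (Y : ℝ) :
    Tendsto (fun T : ℝ => Q (T + Y * I)) atTop (𝓝 r0) ∧
      Tendsto (fun T : ℝ => Z (T + Y * I)) atTop (𝓝 z0) := by
  have h : ∀ ε : ℝ, 0 < ε → ∀ᶠ T : ℝ in atTop,
      ‖Q (T + Y * I) - r0‖ ≤ ε ∧ ‖Z (T + Y * I) - z0‖ ≤ ε := by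
    intro ε hε
    obtain ⟨M, hM⟩ := hR.lim ε hε
    filter_upwards [eventually_gt_atTop (0 : ℝ), eventually_ge_atTop M] with T hT hT2
    refine hM _ (mem_Hp Y hT) ?_
    have h2 := Complex.re_le_norm ((T : ℂ) + Y * I)
    have h3 : ((T : ℂ) + Y * I).re = T := by simp
    rw [h3] at h2
    linarith
  constructor
  · rw [Metric.tendsto_nhds]
    intro ε hε
    filter_upwards [h (ε / 2) (by positivity)] with T hT
    rw [dist_eq_norm]
    linarith [hT.1]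
  · rw [Metric.tendsto_nhds]
    intro ε hε
    filter_upwards [h (ε / 2) (by positivity)] with T hT
    rw [dist_eq_norm]
    linarith [hT.2]

end LT3_

open LT3_ in
/-- The target `T_LT3`. -/
theorem p_LT3 (h₁ : T_CTG) : T_LT3 := by
  intro K Q Z r0 z0 _ hQ hR hne Y
  obtain ⟨-, -, c1, c2, c3, -⟩ := h₁ K
  obtain ⟨l1, l2⟩ := lim hR Y
  have l3 := inv_tendsto Y
  have l4 : Tendsto (fun T : ℝ => ((Q (T + Y * I), Z (T + Y * I)) : ℂ × ℂ)) atTop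
      (𝓝 (r0, z0)) := l1.prodMk_nhds l2
  have m1 : Tendsto (fun T : ℝ => Gc K (Q (T + Y * I)) (Z (T + Y * I))) atTop
      (𝓝 (Gc K r0 z0)) := (c1.tendsto (r0, z0)).comp l4
  have m2 : Tendsto (fun T : ℝ => Gzz K (Q (T + Y * I)) (Z (T + Y * I))) atTop
      (𝓝 (Gzz K r0 z0)) := (c2.tendsto (r0, z0)).comp l4
  have m3 : Tendsto (fun T : ℝ => Gzc K (Q (T + Y * I)) (Z (T + Y * I))) atTop
      (𝓝 (Gzc K r0 z0)) := (c3.tendsto (r0, z0)).comp l4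
  have hD : Tendsto (fun T : ℝ => 2 * (2 * ((T : ℂ) + Y * I) + 1)⁻¹ *
      Gzc K (Q (T + Y * I)) (Z (T + Y * I)) +
      Gzz K (Q (T + Y * I)) (Z (T + Y * I)) * Gc K (Q (T + Y * I)) (Z (T + Y * I))) atTop
      (𝓝 (Gzz K r0 z0 * Gc K r0 z0)) := by
    have h := ((l3.const_mul (2 : ℂ)).mul m3).add (m2.mul m1)
    simpa using h
  have hN : Tendsto (fun T : ℝ => ‖(1 - (2 * (Y * I) + 1) *
      (2 * ((T : ℂ) + Y * I) + 1)⁻¹) ^ 3‖) atTop (𝓝 1) := by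
    have h := (((l3.const_mul (2 * ((Y : ℂ) * I) + 1)).const_sub (1 : ℂ)).pow 3).norm
    simpa using h
  have hD0 := hD.norm
  have hne' : ‖Gzz K r0 z0 * Gc K r0 z0‖ ≠ 0 := norm_ne_zero_iff.2 hne
  refine (hN.div hD0 hne').congr' ?_
  filter_upwards [eventually_gt_atTop (0 : ℝ), hD0.eventually_ne hne'] with T hT hT2
  have hm := mem_Hp Y hT
  have hk := key h₁ hQ hR hm
  have h2 := two_ne hm
  set m : ℂ := (T : ℂ) + Y * I with hmdef
  set D : ℂ := 2 * (2 * m + 1)⁻¹ * Gzc K (Q m) (Z m) + Gzz K (Q m) (Z m) * Gc K (Q m) (Z m)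
    with hDdef
  show ‖(1 - (2 * (Y * I) + 1) * (2 * m + 1)⁻¹) ^ 3‖ / ‖D‖ = T ^ 3 * ‖deriv Q m‖
  rw [div_eq_iff hT2, mul_assoc, ← norm_mul, hk]
  have h3 : (1 : ℂ) - (2 * (Y * I) + 1) * (2 * m + 1)⁻¹ = 2 * T * (2 * m + 1)⁻¹ := by
    have h4 : (2 * m + 1) * (2 * m + 1)⁻¹ = 1 := mul_inv_cancel₀ h2
    have h5 : (2 * (T : ℂ)) = (2 * m + 1) - (2 * (Y * I) + 1) := by
      rw [hmdef]
      ring
    rw [h5]
    linear_combination -h4
  rw [h3]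
  have h6 : (T : ℝ) ^ 3 = ‖(T : ℂ) ^ 3‖ := by
    rw [norm_pow, Complex.norm_real, Real.norm_of_nonneg hT.le]
  rw [h6, ← norm_mul]
  congr 1
  ring

end Pool.Agent.CUSP
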