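import Pool.Agent.CUSP.Targets4

/-!
# CUSP2-NCY: a map close to the identity has no short cycles
-/

set_option autoImplicit false

open Complex Filter Topology Set MeasureTheory
open Pool.Agent.Limb (F)
open Pool.Agent.PLim (Rho)
open Pool.Agent.MEY (Pt)
open Pool.Agent.PSat (Comp Sat)
open Pool.Agent.AEN (vm Hp Exn)
open Pool.Agent.MEZ (T_NCZ T_SECZ)

namespace Pool.Agent.CUSP

namespace NCY_

/-- A periodic sequence the steps of which change slowly is constant. -/
theorem seq (M : ℕ) (y : ℕ → ℂ) (hM : 1 ≤ M) (hper : ∀ i, y (i + M) = y i)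
    (hl : ∀ i j, ‖(y (i + 1) - y i) - (y (j + 1) - y j)‖ ≤ 1 / (2 * M) * ‖y i - y j‖) :
    y 1 = y 0 := by
  have hM0 : (0 : ℝ) < M := by exact_mod_cast hM
  set u : ℕ → ℂ := fun i => y (i + 1) - y i with hu
  have hup : ∀ i, u (i + M) = u i := by
    intro i
    have h1 : y (i + M + 1) = y (i + 1) := by
      have h2 := hper (i + 1)
      rwa [show i + 1 + M = i + M + 1 by ring] at h2
    show y (i + M + 1) - y (i + M) = y (i + 1) - y i
    rw [h1, hper]
  have humod : ∀ i, u i = u (i % M) := by
    intro i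
    have h1 : ∀ q r : ℕ, u (r + q * M) = u r := by
      intro q
      induction q with
      | zero => intro r; simp
      | succ q ih =>
        intro r
        rw [show r + (q + 1) * M = (r + q * M) + M by ring, hup, ih]
    conv_lhs => rw [← Nat.mod_add_div' i M]
    exact h1 _ _
  obtain ⟨j, hj, hmax⟩ := Finset.exists_max_image (Finset.range M) (fun i => ‖u i‖)
    ⟨0, Finset.mem_range.mpr hM⟩
  have hall : ∀ i, ‖u i‖ ≤ ‖u j‖ := by
    intro i
    rw [humod i]
    exact hmax _ (Finset.mem_range.mpr (Nat.mod_lt _ hM))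
  set H : ℝ := ‖u j‖ with hH
  have hH0 : 0 ≤ H := norm_nonneg _
  have htel : ∀ i, ∑ t ∈ Finset.range i, u (j + t) = y (j + i) - y j := by
    intro i
    exact Finset.sum_range_sub (fun t => y (j + t)) i
  have hdist : ∀ i ∈ Finset.range M, ‖y (j + i) - y j‖ ≤ M * H := by
    intro i hi
    rw [← htel i]
    refine (norm_sum_le _ _).trans ?_
    refine (Finset.sum_le_sum fun t _ => hall (j + t)).trans ?_
    rw [Finset.sum_const, Finset.card_range, nsmul_eq_mul]
    have h1 : (i : ℝ) ≤ M := by exact_mod_cast (Finset.mem_range.mp hi).le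
    exact mul_le_mul_of_nonneg_right h1 hH0
  have hzero : ∑ t ∈ Finset.range M, u (j + t) = 0 := by
    rw [htel M, hper, sub_self]
  have hsum : (M : ℂ) * u j = ∑ t ∈ Finset.range M, (u j - u (j + t)) := by
    rw [Finset.sum_sub_distrib, hzero, sub_zero, Finset.sum_const, Finset.card_range,
      nsmul_eq_mul]
  have hle : (M : ℝ) * H ≤ M * (1 / (2 * M) * (M * H)) := by
    have h1 : ‖(M : ℂ) * u j‖ = (M : ℝ) * H := by
      rw [norm_mul, Complex.norm_natCast]
    refine h1.symm.le.trans ?_
    rw [hsum]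
    refine (norm_sum_le _ _).trans ?_
    have h2 : ∀ t ∈ Finset.range M, ‖u j - u (j + t)‖ ≤ 1 / (2 * M) * (M * H) := by
      intro t ht
      have h3 := hl j (j + t)
      have h4 := hdist t ht
      rw [← norm_sub_rev (y j)] at h4
      refine h3.trans (mul_le_mul_of_nonneg_left h4 (by positivity))
    refine (Finset.sum_le_sum h2).trans (le_of_eq ?_)
    rw [Finset.sum_const, Finset.card_range, nsmul_eq_mul]
  have heq : (M : ℝ) * (1 / (2 * M) * (M * H)) = M * H / 2 := by
    field_simp
  rw [heq] at hle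
  have hMH : (M : ℝ) * H ≤ 0 := by linarith
  have hH1 : H ≤ 0 := by
    by_contra hc
    have := mul_pos hM0 (not_le.mp hc)
    linarith
  have h0 : ‖u 0‖ ≤ 0 := (hall 0).trans hH1
  have h1 : u 0 = 0 := norm_le_zero_iff.mp h0
  have h2 : y (0 + 1) - y 0 = 0 := h1
  rw [zero_add] at h2
  exact sub_eq_zero.mp h2

end NCY_

open NCY_

theorem p_NCY : T_NCY := by
  intro M g S x hM hS hg hit hper
  have h := seq M (fun i => g^[i] x) hM (fun i => by
    show g^[i + M] x = g^[i] x
    rw [Function.iterate_add_apply, hper]) (fun i j => by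
    show ‖(g^[i + 1] x - g^[i] x) - (g^[j + 1] x - g^[j] x)‖ ≤
      1 / (2 * M) * ‖g^[i] x - g^[j] x‖
    rw [Function.iterate_succ_apply', Function.iterate_succ_apply']
    exact hS.norm_image_sub_le_of_norm_hasDerivWithin_le (f := fun y => g y - y)
      (f' := fun y => deriv g y - 1)
      (fun y hy => ((hg y hy).1.hasDerivAt.sub (hasDerivAt_id y)).hasDerivWithinAt)
      (fun y hy => (hg y hy).2) (hit j) (hit i))
  exact h

end Pool.Agent.CUSP
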