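import Pool.Agent.CUSP.Targets4
import Pool.Agent.PLim.CNT

/-!
# CUSP: NPC, no cycles near a fixed point of multiplier one
-/

set_option autoImplicit false

open Complex Filter Topology Set MeasureTheory
open Pool.Agent.Limb (F)
open Pool.Agent.PLim (Rho)
open Pool.Agent.MEY (Pt)
open Pool.Agent.PSat (Comp Sat)
open Pool.Agent.AEN (vm Hp Exn)
open Pool.Agent.MEZ (T_NCZ T_SECZ)

namespace Pool.Agent.CUSP

theorem p_NPC (h₁ : T_NCY) : T_NPC := by
  intro k M c0 z0 cn xn hk hM hfix hrho hcn hxn hper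
  have hpair : Tendsto (fun n => (cn n, xn n)) atTop (𝓝 (c0, z0)) := hcn.prodMk_nhds hxn
  have hfixi : ∀ i : ℕ, (F 2 c0)^[k * i] z0 = z0 := by
    intro i
    rw [Function.iterate_mul]
    exact Function.iterate_fixed hfix i
  have hM' : (0 : ℝ) < M := by exact_mod_cast hM
  have hM0 : (0 : ℝ) < 1 / (2 * M) := by positivity
  have hcR : Tendsto (fun q : ℂ × ℂ => Rho 2 k q.1 q.2) (𝓝 (c0, z0)) (𝓝 1) := by
    have h := (Pool.Agent.PLim.CNT_contR 2 k).tendsto (c0, z0)
    rwa [hrho] at h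
  have hev : ∀ᶠ q : ℂ × ℂ in 𝓝 (c0, z0), ‖Rho 2 k q.1 q.2 - 1‖ ≤ 1 / (2 * M) := by
    filter_upwards [hcR.eventually (Metric.ball_mem_nhds 1 hM0)] with q hq
    rw [dist_eq_norm] at hq
    exact hq.le
  obtain ⟨δ, hδ, hδ'⟩ := Metric.eventually_nhds_iff.1 hev
  have hcn' : ∀ᶠ n in atTop, dist (cn n) c0 < δ := hcn.eventually (Metric.ball_mem_nhds c0 hδ)
  have hit : ∀ᶠ n in atTop, ∀ i ∈ Finset.range M,
      (F 2 (cn n))^[k * i] (xn n) ∈ Metric.ball z0 δ := by
    rw [Finset.eventually_all]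
    intro i _
    have h := ((Pool.Agent.PLim.CNT_contI 2 (k * i)).tendsto (c0, z0)).comp hpair
    simp only [hfixi] at h
    exact h.eventually (Metric.ball_mem_nhds z0 hδ)
  filter_upwards [hcn', hit] with n h1 h2
  have hp : ((F 2 (cn n))^[k])^[M] (xn n) = xn n := by
    rw [← Function.iterate_mul]
    exact hper n
  refine h₁ M ((F 2 (cn n))^[k]) (Metric.ball z0 δ) (xn n) hM (convex_ball _ _) ?_ ?_ hp
  · intro y hy
    refine ⟨(Pool.Agent.PLim.CNT_der 2 (cn n) y k).differentiableAt, ?_⟩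
    exact @hδ' (cn n, y) (by rw [Prod.dist_eq]; exact max_lt h1 hy)
  · intro i
    rw [← Function.IsPeriodicPt.iterate_mod_apply (show Function.IsPeriodicPt _ M _ from hp),
      ← Function.iterate_mul]
    exact h2 _ (Finset.mem_range.2 (Nat.mod_lt _ hM))

end Pool.Agent.CUSP
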