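import Pool.Agent.CUSP.Targets4

/-!
# CUSP, target PRT: the estimate at the primitive roots
-/

set_option autoImplicit false

open Complex Filter Topology Set MeasureTheory
open Pool.Agent.Limb (F)
open Pool.Agent.PLim (Rho)
open Pool.Agent.MEX (Exa)
open Pool.Agent.MEY (Pt)
open Pool.Agent.PSat (Comp Sat)
open Pool.Agent.AEN (vm Hp Exn)
open Pool.Agent.MEZ (T_NCZ T_SECZ NCZk Fz)

namespace Pool.Agent.CUSP

namespace PRT_

lemma ncz_mono {κ κ' : ℝ} (h : κ' ≤ κ) (hN : NCZk κ) : NCZk κ' := by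
  intro n k c0 z0 μ δ ε r zf hn hk hL hE hR hδ hF hμ
  have h1 : κ' * δ ^ 2 ≤ κ * δ ^ 2 := mul_le_mul_of_nonneg_right h (sq_nonneg δ)
  exact hN n k c0 z0 μ δ ε r zf hn hk hL hE hR hδ hF (lt_of_lt_of_le hμ h1)

/-- The real part of the coordinate. -/
lemma re_coord {m v : ℂ} (hv : 1 - v ≠ 0) (h : 2 * m + 1 = 2 / (1 - v)) :
    2 * m.re * ‖1 - v‖ ^ 2 = 1 - ‖v‖ ^ 2 := by
  have h1 : (2 * m + 1) * (1 - v) = 2 := by
    rw [h]
    field_simp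
  have hre := congrArg Complex.re h1
  have him := congrArg Complex.im h1
  simp only [Complex.mul_re, Complex.mul_im, Complex.add_re, Complex.add_im, Complex.sub_re,
    Complex.sub_im, Complex.one_re, Complex.one_im, Complex.re_ofNat, Complex.im_ofNat] at hre him
  rw [← Complex.normSq_eq_norm_sq, ← Complex.normSq_eq_norm_sq, Complex.normSq_apply,
    Complex.normSq_apply, Complex.sub_re, Complex.sub_im, Complex.one_re, Complex.one_im]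
  linear_combination (1 - v.re) * hre - v.im * him

end PRT_

/-- The target `T_PRT`. -/
theorem p_PRT (h₁ : T_RTE) (h₂ : T_DIK) (h₃ : T_PTK) (h₄ : Pool.Agent.AEN.T_MOB)
    (h₅ : Pool.Agent.AEN.T_EXS) : T_PRT := by
  rintro ⟨κ0, hκ0, hN0⟩
  obtain ⟨κ, hκ, hκ1, hN⟩ : ∃ κ : ℝ, 0 < κ ∧ κ ≤ 1 ∧ NCZk κ :=
    ⟨min κ0 1, lt_min hκ0 one_pos, min_le_right _ _, PRT_.ncz_mono (min_le_left _ _) hN0⟩
  obtain ⟨C, hC, hPTK⟩ := h₃
  refine ⟨4 * C, by linarith, ?_⟩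
  intro K P hP hsat
  obtain ⟨Q, hQ⟩ := h₅ κ hκ hκ1 hN K P hP
  have hκ' : 0 < κ / 5000 := by positivity
  obtain ⟨Z, r0, z0, hR⟩ := h₁ (κ / 5000) K P Q hκ' hP hQ
  obtain ⟨hlim, hor⟩ := h₂ (κ / 5000) K P Q Z r0 z0 hκ' hP hQ hR
  have hpt : Pt 2 K r0 z0 1 := hor.resolve_left hsat
  refine ⟨r0, hlim, fun v hv => ?_⟩
  rw [mem_ball_zero_iff] at hv
  obtain ⟨m, hm, hmv, hm2⟩ := h₄.2.2.1 v hv
  have hPv : P v = Q m := by
    rw [← hmv]
    exact (hQ.eq m hm).symm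
  have hv1 : 1 - v ≠ 0 := by
    intro h
    have h2 : v = 1 := (sub_eq_zero.1 h).symm
    rw [h2, norm_one] at hv
    exact lt_irrefl _ hv
  have hb := hPTK (κ / 5000) K P Q Z r0 z0 hκ' hP hQ hR hpt m hm
  have hre := PRT_.re_coord hv1 hm2
  rw [hPv, ← hre]
  rw [le_div_iff₀ (by positivity)] at hb
  have e : ‖Q m - r0‖ * (2 * m.re * ‖1 - v‖ ^ 2) ^ 2 =
      (‖Q m - r0‖ * m.re ^ 2) * (4 * ‖1 - v‖ ^ 4) := by ring
  rw [e]
  calc (‖Q m - r0‖ * m.re ^ 2) * (4 * ‖1 - v‖ ^ 4) ≤ C * (4 * ‖1 - v‖ ^ 4) :=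
        mul_le_mul_of_nonneg_right hb (by positivity)
    _ = 4 * C * ‖1 - v‖ ^ 4 := by ring

end Pool.Agent.CUSP
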