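import Pool.Agent.CUSP.Targets4
import Pool.Agent.AEN.Targets

/-!
# CUSP: PTK, the tail at a primitive root
-/

set_option autoImplicit false

open Complex Filter Topology Set MeasureTheory
open Pool.Agent.Limb (F)
open Pool.Agent.PLim (Rho)
open Pool.Agent.MEY (Pt)
open Pool.Agent.PSat (Comp Sat)
open Pool.Agent.AEN (vm Hp Exn)
open Pool.Agent.MEZ (T_NCZ T_SECZ)

namespace Pool.Agent.CUSP

namespace PTK_

theorem isOpen_Hp : IsOpen Hp := isOpen_lt continuous_const continuous_re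

theorem Hp_sub {κ : ℝ} (hκ : 0 < κ) : Hp ⊆ Pool.Agent.AEN.Hk κ := by
  intro m hm
  have h1 : 0 < m.re := hm
  show -κ < m.re
  linarith

theorem inj (h₄ : Pool.Agent.AEN.T_INP) (h₅ : Pool.Agent.AEN.T_MOB) {κ : ℝ} {K : ℕ}
    {P Q : ℂ → ℂ} (hC : Comp K P) (hE : Exn κ P Q) : InjOn Q Hp := by
  intro m hm m' hm' h
  have h1 : 0 < m.re := hm
  have h2 : 0 < m'.re := hm'
  rw [hE.eq m hm, hE.eq m' hm'] at h
  have hb : ∀ x : ℂ, 0 < x.re → vm x ∈ Metric.ball (0 : ℂ) 1 := by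
    intro x hx
    rw [Metric.mem_ball, dist_zero_right]
    exact ((h₅.1 x (by linarith)).2.2.2.1).mpr hx
  have h3 := h₄ K P hC (hb m h1) (hb m' h2) h
  exact h₅.2.1 m m' (by linarith) (by linarith) h3

theorem line (t Y : ℝ) : ((t : ℂ) + Y * I).re = t := by simp

theorem line_mem {t Y : ℝ} (ht : 0 < t) : ((t : ℂ) + Y * I) ∈ Hp := by
  show 0 < ((t : ℂ) + Y * I).re
  rw [line]
  exact ht

/-- Integration of the bound of the derivative. -/
theorem integ {Q : ℂ → ℂ} (hQ : DifferentiableOn ℂ Q Hp) {A Y : ℝ}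
    (hb : ∀ t : ℝ, 0 < t → ‖deriv Q (t + Y * I)‖ ≤ 2 * A / t ^ 3) {x T : ℝ} (hx : 0 < x)
    (hT : x ≤ T) : ‖Q (T + Y * I) - Q (x + Y * I)‖ ≤ A * (1 / x ^ 2 - 1 / T ^ 2) := by
  have hd : ∀ t : ℝ, 0 < t →
      HasDerivAt (fun t : ℝ => Q ((t : ℂ) + Y * I) - Q (x + Y * I)) (deriv Q (t + Y * I)) t := by
    intro t ht
    have h1 : HasDerivAt Q (deriv Q (t + Y * I)) ((t : ℂ) + Y * I) :=
      (hQ.differentiableAt (isOpen_Hp.mem_nhds (line_mem ht))).hasDerivAt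
    have h2 : HasDerivAt (fun s : ℂ => s + Y * I) 1 (t : ℂ) := (hasDerivAt_id _).add_const _
    have h3 : HasDerivAt (fun s : ℂ => Q (s + Y * I)) (deriv Q (t + Y * I) * 1) (t : ℂ) :=
      HasDerivAt.comp (t : ℂ) h1 h2
    rw [mul_one] at h3
    exact (h3.comp_ofReal).sub_const _
  have hB : ∀ t : ℝ, 0 < t →
      HasDerivAt (fun t : ℝ => A * (1 / x ^ 2 - 1 / t ^ 2)) (2 * A / t ^ 3) t := by
    intro t ht
    have h1 : HasDerivAt (fun t : ℝ => (t ^ 2)⁻¹) (-(2 * t) / (t ^ 2) ^ 2) t := by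
      have h2 : HasDerivAt (fun t : ℝ => t ^ 2) (2 * t) t := by
        simpa using hasDerivAt_pow 2 t
      exact h2.inv (by positivity)
    have h3 := (h1.const_sub (1 / x ^ 2)).const_mul A
    have h4 : (fun t : ℝ => A * (1 / x ^ 2 - 1 / t ^ 2)) =
        fun t : ℝ => A * (1 / x ^ 2 - (t ^ 2)⁻¹) := by
      funext t
      rw [one_div (t ^ 2)]
    rw [h4]
    have h5 : A * -(-(2 * t) / (t ^ 2) ^ 2) = 2 * A / t ^ 3 := by
      have ht' : t ≠ 0 := ht.ne'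
      field_simp
    rw [← h5]
    exact h3
  have key := image_norm_le_of_norm_deriv_right_le_deriv_boundary'
    (f := fun t : ℝ => Q ((t : ℂ) + Y * I) - Q (x + Y * I)) (a := x) (b := T)
    (f' := fun t : ℝ => deriv Q ((t : ℂ) + Y * I))
    (fun t ht => (hd t (lt_of_lt_of_le hx ht.1)).continuousAt.continuousWithinAt)
    (fun t ht => (hd t (lt_of_lt_of_le hx ht.1)).hasDerivWithinAt)
    (B := fun t : ℝ => A * (1 / x ^ 2 - 1 / t ^ 2)) (B' := fun t : ℝ => 2 * A / t ^ 3)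
    (by simp)
    (fun t ht => (hB t (lt_of_lt_of_le hx ht.1)).continuousAt.continuousWithinAt)
    (fun t ht => (hB t (lt_of_lt_of_le hx ht.1)).hasDerivWithinAt)
    (fun t ht => hb t (lt_of_lt_of_le hx ht.1))
  exact key ⟨hT, le_rfl⟩

end PTK_

open PTK_ in
theorem p_PTK (h₁ : T_P0X) (h₂ : T_HPM) (h₃ : T_LT3) (h₄ : Pool.Agent.AEN.T_INP)
    (h₅ : Pool.Agent.AEN.T_MOB) : T_PTK := by
  obtain ⟨κ₀, hκ₀, hP⟩ := h₁
  refine ⟨1 + 1 / (4 * κ₀), by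
    have : 0 < 1 / (4 * κ₀) := by positivity
    linarith, ?_⟩
  intro κ K P Q Z r0 z0 hκ hC hE hR hPt m hm
  have hm0 : 0 < m.re := hm
  have hQd : DifferentiableOn ℂ Q Hp := hE.dQ.mono (Hp_sub hκ)
  have hQi : InjOn Q Hp := inj h₄ h₅ hC hE
  have hG : 2 * κ₀ ≤ ‖Gzz K r0 z0 * Gc K r0 z0‖ := by
    have h := hP K r0 z0 hC.hK hPt
    have h' : κ₀ ≤ ‖Gzz K r0 z0 / 2‖ * ‖Gc K r0 z0‖ := h
    rw [norm_div] at h'
    rw [norm_mul]
    have h2 : ‖(2 : ℂ)‖ = 2 := by simp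
    rw [h2] at h'
    linarith
  have hG0 : 0 < ‖Gzz K r0 z0 * Gc K r0 z0‖ := by linarith
  have hne : Gzz K r0 z0 * Gc K r0 z0 ≠ 0 := norm_pos_iff.mp hG0
  have hlim := h₃ K Q Z r0 z0 hC.hK hQd hR hne
  have hb : ∀ Y t : ℝ, 0 < t → ‖deriv Q (t + Y * I)‖ ≤ 2 * (1 / (4 * κ₀)) / t ^ 3 := by
    intro Y t ht
    have h1 : t ^ 3 * ‖deriv Q (t + Y * I)‖ ≤ 1 / ‖Gzz K r0 z0 * Gc K r0 z0‖ := by
      refine ge_of_tendsto (hlim Y) ?_
      filter_upwards [eventually_ge_atTop t] with t' ht'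
      exact h₂ Q hQd hQi Y t t' ht ht'
    have h2 : 1 / ‖Gzz K r0 z0 * Gc K r0 z0‖ ≤ 1 / (2 * κ₀) :=
      one_div_le_one_div_of_le (by positivity) hG
    have h3 : 2 * (1 / (4 * κ₀)) = 1 / (2 * κ₀) := by
      field_simp
      norm_num
    rw [h3, le_div_iff₀ (by positivity)]
    linarith
  have hmm : ((m.re : ℝ) : ℂ) + (m.im : ℝ) * I = m := Complex.re_add_im m
  have hA : 0 < 1 / (4 * κ₀) := by positivity
  have hfin : ‖Q m - r0‖ ≤ 1 / (4 * κ₀) * (1 / m.re ^ 2) := by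
    refine le_of_forall_pos_le_add ?_
    intro ε hε
    obtain ⟨M, hM⟩ := hR.lim ε hε
    have hT1 : m.re ≤ max m.re M := le_max_left _ _
    have hT2 : M ≤ max m.re M := le_max_right _ _
    have hT0 : 0 < max m.re M := lt_of_lt_of_le hm0 hT1
    have h1 := integ hQd (hb m.im) hm0 hT1
    rw [hmm] at h1
    have h2 := (hM (((max m.re M : ℝ) : ℂ) + (m.im : ℝ) * I) (line_mem hT0) (by
      have h3 := Complex.abs_re_le_norm (((max m.re M : ℝ) : ℂ) + (m.im : ℝ) * I)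
      rw [line, abs_of_pos hT0] at h3
      linarith)).1
    have h4 : ‖Q m - r0‖ ≤ ‖Q (((max m.re M : ℝ) : ℂ) + (m.im : ℝ) * I) - Q m‖ +
        ‖Q (((max m.re M : ℝ) : ℂ) + (m.im : ℝ) * I) - r0‖ := by
      have h5 : Q m - r0 = -(Q (((max m.re M : ℝ) : ℂ) + (m.im : ℝ) * I) - Q m) +
          (Q (((max m.re M : ℝ) : ℂ) + (m.im : ℝ) * I) - r0) := by ring
      rw [h5]
      refine (norm_add_le _ _).trans ?_
      rw [norm_neg]
    have h6 : 1 / (4 * κ₀) * (1 / m.re ^ 2 - 1 / (max m.re M) ^ 2) ≤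
        1 / (4 * κ₀) * (1 / m.re ^ 2) := by
      apply mul_le_mul_of_nonneg_left _ hA.le
      have : 0 ≤ 1 / (max m.re M) ^ 2 := by positivity
      linarith
    linarith
  calc ‖Q m - r0‖ ≤ 1 / (4 * κ₀) * (1 / m.re ^ 2) := hfin
    _ ≤ (1 + 1 / (4 * κ₀)) * (1 / m.re ^ 2) := by
      apply mul_le_mul_of_nonneg_right _ (by positivity)
      linarith
    _ = (1 + 1 / (4 * κ₀)) / m.re ^ 2 := by ring

end Pool.Agent.CUSP
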