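import Pool.Agent.CUSP.Targets4
import Pool.Agent.PLim.CNT

/-!
# CUSP, RTE: the limit at the root
-/

set_option autoImplicit false

open Complex Filter Topology Set MeasureTheory
open Pool.Agent.Limb (F)
open Pool.Agent.PLim (Rho)
open Pool.Agent.MEY (Pt)
open Pool.Agent.PSat (Comp Sat)
open Pool.Agent.AEN (vm Hp Exn)
open Pool.Agent.MEZ (T_NCZ T_SECZ)

namespace Pool.Agent.CUSP

namespace RTE_

/-- the fixed points of the iterate over `‖c‖ ≤ 16` -/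
def EE (k : ℕ) : Set (ℂ × ℂ) := {x | (F 2 x.1)^[k] x.2 = x.2 ∧ ‖x.1‖ ≤ 16}

theorem EE_compact {k : ℕ} (hk : 1 ≤ k) : IsCompact (EE k) := by
  have hcl : IsClosed (EE k) := by
    have h1 : IsClosed {x : ℂ × ℂ | (F 2 x.1)^[k] x.2 = x.2} :=
      isClosed_eq (Pool.Agent.PLim.CNT_contI 2 k) continuous_snd
    have h2 : IsClosed {x : ℂ × ℂ | ‖x.1‖ ≤ 16} :=
      isClosed_le (continuous_norm.comp continuous_fst) continuous_const
    exact h1.inter h2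
  have hK : IsCompact (Metric.closedBall (0 : ℂ) 16 ×ˢ Metric.closedBall (0 : ℂ) 18) :=
    (isCompact_closedBall _ _).prod (isCompact_closedBall _ _)
  refine hK.of_isClosed_subset hcl ?_
  rintro ⟨c, z⟩ ⟨h1, h2⟩
  have h3 := Pool.Agent.PLim.CNT_root (le_refl 2) hk h1
  have h2' : ‖c‖ ≤ 16 := h2
  have h3' : ‖z‖ ≤ 2 + ‖c‖ := h3
  refine ⟨?_, ?_⟩
  · rw [mem_closedBall_zero_iff]; exact h2'
  · rw [mem_closedBall_zero_iff]
    show ‖z‖ ≤ 18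
    linarith

theorem neb : (𝓝[Metric.ball (0 : ℂ) 1] (1 : ℂ)).NeBot := by
  rw [← mem_closure_iff_nhdsWithin_neBot, closure_ball (0 : ℂ) one_ne_zero]
  simp

/-- the possible limits -/
def SS (K : ℕ) : Set (ℂ × ℂ) := {x | (F 2 x.1)^[K] x.2 = x.2 ∧ Rho 2 K x.1 x.2 = 1}

theorem SS_finite (h : Pool.Agent.PLim.T_FINF) {K : ℕ} (hK : 1 ≤ K) : (SS K).Finite := by
  have h1 := h 2 K (le_refl 2) hK
  have h2 : (⋃ c ∈ {c : ℂ | ∃ z : ℂ, (F 2 c)^[K] z = z ∧ Rho 2 K c z = 1},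
      ({c} : Set ℂ) ×ˢ {z : ℂ | (F 2 c)^[K] z = z}).Finite := by
    refine h1.biUnion fun c _ => (finite_singleton c).prod ?_
    refine ((Pool.Agent.PLim.FPol 2 c K - Polynomial.X).roots.toFinset.finite_toSet).subset ?_
    intro z hz
    rw [Finset.mem_coe, Multiset.mem_toFinset, Pool.Agent.PLim.CNT_mem (le_refl 2) hK c z]
    exact hz
  refine h2.subset ?_
  rintro ⟨c, z⟩ ⟨hz1, hz2⟩
  rw [mem_iUnion₂]
  exact ⟨c, ⟨z, hz1, hz2⟩, rfl, hz1⟩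

/-- cluster values at `1` are parameters and points with multiplier one -/
theorem clus {K : ℕ} {P Z : ℂ → ℂ} (h2 : Pool.Agent.PLim.T_BIG) (hK : 1 ≤ K)
    (hpt : ∀ v ∈ Metric.ball (0 : ℂ) 1, Pt 2 K (P v) (Z v) v) (U : Set (ℂ × ℂ))
    (hU : IsClosed U) (hf : ∃ᶠ v in 𝓝[Metric.ball (0 : ℂ) 1] (1 : ℂ), (P v, Z v) ∈ U) :
    ∃ x ∈ U, x ∈ SS K ∧
      MapClusterPt x (𝓝[Metric.ball (0 : ℂ) 1] (1 : ℂ)) (fun v => (P v, Z v)) := by
  set l := 𝓝[Metric.ball (0 : ℂ) 1] (1 : ℂ) with hl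
  have hball : ∀ᶠ v in l, v ∈ Metric.ball (0 : ℂ) 1 := eventually_mem_nhdsWithin
  have hE : IsCompact (EE K ∩ U) := (EE_compact hK).inter_right hU
  have hfr : ∃ᶠ v in l, (P v, Z v) ∈ EE K ∩ U := by
    refine (hf.and_eventually hball).mono ?_
    rintro v ⟨hv1, hv2⟩
    have hp := hpt v hv2
    refine ⟨⟨hp.fix, ?_⟩, hv1⟩
    by_contra hc
    have hc' : 16 ≤ ‖P v‖ := le_of_not_ge hc
    have h5 := h2 2 K (P v) (Z v) (le_refl 2) hK hc' hp.fix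
    rw [hp.mul] at h5
    have h6 : ‖v‖ < 1 := by simpa using hv2
    have h7 : (1 : ℝ) < Real.exp 1 := Real.one_lt_exp_iff.mpr one_pos
    linarith
  obtain ⟨⟨c, z⟩, ⟨hcz1, hcz2⟩, hcl⟩ := hE.exists_mapClusterPt_of_frequently hfr
  refine ⟨(c, z), hcz2, ⟨hcz1.1, ?_⟩, hcl⟩
  have h8 := hcl.continuousAt_comp (Pool.Agent.PLim.CNT_contR 2 K).continuousAt
  have h9 : Tendsto ((fun q : ℂ × ℂ => Rho 2 K q.1 q.2) ∘ fun v => (P v, Z v)) l (𝓝 1) := by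
    have h10 : Tendsto (fun v : ℂ => v) l (𝓝 1) := tendsto_nhdsWithin_of_tendsto_nhds tendsto_id
    refine h10.congr' ?_
    filter_upwards [hball] with v hv
    exact (hpt v hv).mul.symm
  have h11 : ClusterPt (Rho 2 K c z) (𝓝 (1 : ℂ)) := ClusterPt.mono h8 h9
  exact eq_of_nhds_neBot h11

theorem limit {K : ℕ} {P Z : ℂ → ℂ} (h1 : Pool.Agent.PLim.T_FINF) (h2 : Pool.Agent.PLim.T_BIG)
    (hK : 1 ≤ K) (hdP : DifferentiableOn ℂ P (Metric.ball 0 1))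
    (hdZ : DifferentiableOn ℂ Z (Metric.ball 0 1))
    (hpt : ∀ v ∈ Metric.ball (0 : ℂ) 1, Pt 2 K (P v) (Z v) v) :
    ∃ x : ℂ × ℂ, Tendsto (fun v => (P v, Z v)) (𝓝[Metric.ball (0 : ℂ) 1] (1 : ℂ)) (𝓝 x) := by
  set l := 𝓝[Metric.ball (0 : ℂ) 1] (1 : ℂ) with hl
  have hSf : (SS K).Finite := SS_finite h1 hK
  obtain ⟨r0, -, hr0S, hr0c⟩ := clus h2 hK hpt univ isClosed_univ
    (by simpa using RTE_.neb)
  refine ⟨r0, ?_⟩
  rw [Metric.tendsto_nhds]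
  intro ε hε
  have hT : (SS K \ {r0}).Finite := hSf.subset sdiff_subset
  have hsep : SeparatedNhds ({r0} : Set (ℂ × ℂ)) (SS K \ {r0}) := by
    refine SeparatedNhds.of_isCompact_isCompact isCompact_singleton hT.isCompact ?_
    rw [Set.disjoint_left]
    rintro x hx ⟨-, hx2⟩
    exact hx2 hx
  obtain ⟨U0, V, hU0, hV, hrU0, hTV, hUV⟩ := hsep
  set U : Set (ℂ × ℂ) := U0 ∩ Metric.ball r0 ε with hU
  have hUo : IsOpen U := hU0.inter Metric.isOpen_ball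
  have hUVd : Disjoint U V := hUV.mono_left inter_subset_left
  have hr0U : r0 ∈ U := ⟨hrU0 rfl, Metric.mem_ball_self hε⟩
  have hev : ∀ᶠ v in l, (P v, Z v) ∈ U ∪ V := by
    by_contra hne
    have hfr : ∃ᶠ v in l, (P v, Z v) ∈ (U ∪ V)ᶜ := by
      rw [Filter.not_eventually] at hne
      exact hne
    obtain ⟨c, hc, hcS, -⟩ := clus h2 hK hpt _ (hUo.union hV).isClosed_compl hfr
    by_cases hcr : c = r0
    · exact hc (Or.inl (hcr ▸ hr0U))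
    · exact hc (Or.inr (hTV ⟨hcS, hcr⟩))
  obtain ⟨ρ, hρ, hsub⟩ := Metric.mem_nhdsWithin_iff.mp hev
  set B : Set ℂ := Metric.ball (1 : ℂ) ρ ∩ Metric.ball (0 : ℂ) 1 with hB
  have hBl : B ∈ l := Metric.mem_nhdsWithin_iff.mpr ⟨ρ, hρ, subset_rfl⟩
  have hBc : IsPreconnected ((fun v => (P v, Z v)) '' B) := by
    refine IsPreconnected.image ?_ _ ((hdP.continuousOn.prodMk hdZ.continuousOn).mono
      inter_subset_right)
    exact ((convex_ball (1 : ℂ) ρ).inter (convex_ball (0 : ℂ) 1)).isPreconnected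
  have hBU : (fun v => (P v, Z v)) '' B ⊆ U ∪ V := by
    rintro _ ⟨v, hv, rfl⟩
    exact hsub hv
  have hne : ((fun v => (P v, Z v)) '' B ∩ U).Nonempty := by
    have h5 : ∃ᶠ v in l, (P v, Z v) ∈ U := hr0c.frequently (hUo.mem_nhds hr0U)
    obtain ⟨v, hv1, hv2⟩ := (h5.and_eventually hBl).exists
    exact ⟨(P v, Z v), ⟨v, hv2, rfl⟩, hv1⟩
  have hfin : (fun v => (P v, Z v)) '' B ⊆ U :=
    hBc.subset_left_of_subset_union hUo hV hUVd hBU hne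
  filter_upwards [hBl] with v hv
  exact (hfin ⟨v, hv, rfl⟩).2

theorem vm_sub {m : ℂ} (hm : 2 * m + 1 ≠ 0) : ‖vm m - 1‖ = 2 / ‖2 * m + 1‖ := by
  have h1 : vm m - 1 = -2 / (2 * m + 1) := by
    unfold vm
    field_simp
    ring
  rw [h1, norm_div, norm_neg, Complex.norm_ofNat]

end RTE_

open RTE_ in
theorem p_RTE (h₁ : Pool.Agent.AEN.T_MOB) (h₂ : Pool.Agent.PSat.T_CST)
    (h₃ : Pool.Agent.PSat.T_CMG) (h₄ : Pool.Agent.MEY.T_DDO) (h₅ : Pool.Agent.PLim.T_FINF)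
    (h₆ : Pool.Agent.PLim.T_BIG) : T_RTE := by
  intro κ K P Q _ hP hE
  obtain ⟨C, hC1, hC⟩ := h₂
  obtain ⟨Ψ, Z', hG, hPΨ⟩ := h₃ C K P hC1 hC.nc hP
  have hK0 : (0 : ℝ) < K := by exact_mod_cast hP.hK
  have hκ' : (0 : ℝ) < 1 / (C * K) := by positivity
  obtain ⟨-, -, hball, -⟩ := h₄ 2 1 (1 / (C * K)) (le_refl 2) hκ'
  have hdZ : DifferentiableOn ℂ Z' (Metric.ball 0 1) := hG.dX.mono hball
  have hpt : ∀ v ∈ Metric.ball (0 : ℂ) 1, Pt 2 K (P v) (Z' v) v := by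
    intro v hv
    have := hG.pt v (hball hv)
    rw [← hPΨ v hv] at this
    simpa using this
  obtain ⟨⟨r0, z0⟩, hlim⟩ := limit h₅ h₆ hP.hK hP.dP hdZ hpt
  have hmem : ∀ m ∈ Hp, vm m ∈ Metric.ball (0 : ℂ) 1 := by
    intro m hm
    have hm' : 0 < m.re := hm
    rw [mem_ball_zero_iff]
    exact ((h₁.1 m (by linarith)).2.2.2.1).2 hm'
  refine ⟨fun m => Z' (vm m), r0, z0, ?_, ?_, ?_⟩
  · refine hdZ.comp ?_ hmem
    intro m hm
    have hm' : 0 < m.re := hm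
    exact (h₁.1 m (by linarith)).2.2.1.differentiableWithinAt
  · intro m hm
    rw [hE.eq m hm]
    exact hpt _ (hmem m hm)
  · intro ε hε
    rw [Metric.tendsto_nhdsWithin_nhds] at hlim
    obtain ⟨ρ, hρ, h⟩ := hlim ε hε
    refine ⟨1 / ρ + 1, fun m hm hM => ?_⟩
    have hm' : 0 < m.re := hm
    have hne := (h₁.1 m (by linarith)).1
    have h7 : 2 / ρ < ‖2 * m + 1‖ := by
      have h8 : ‖(2 : ℂ) * m‖ - ‖(1 : ℂ)‖ ≤ ‖2 * m + 1‖ := by
        have := norm_sub_norm_le ((2 : ℂ) * m) (-1)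
        rwa [norm_neg, sub_neg_eq_add] at this
      rw [norm_mul, Complex.norm_ofNat, norm_one] at h8
      have h9 : 2 / ρ = 2 * (1 / ρ) := by ring
      rw [h9]
      linarith
    have h10 : dist (vm m) 1 < ρ := by
      rw [dist_eq_norm, vm_sub hne]
      have h11 : 0 < ‖2 * m + 1‖ := norm_pos_iff.2 hne
      rw [div_lt_iff₀ h11]
      rw [div_lt_iff₀ hρ] at h7
      linarith
    have h12 := h (hmem m hm) h10
    rw [Prod.dist_eq, max_lt_iff] at h12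
    rw [hE.eq m hm, ← dist_eq_norm, ← dist_eq_norm]
    exact ⟨h12.1.le, h12.2.le⟩

end Pool.Agent.CUSP
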