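import Pool.Agent.AEN.All3
import Pool.Agent.MEZ.AllZ
import Pool.Agent.CUSP.P_NCY
import Pool.Agent.CUSP.P_NPC
import Pool.Agent.CUSP.P_CTG
import Pool.Agent.CUSP.P_RTE
import Pool.Agent.CUSP.P_DIK
import Pool.Agent.CUSP.P_LT3
import Pool.Agent.CUSP.P_PTK
import Pool.Agent.CUSP.P_FNP
import Pool.Agent.CUSP.P_PRT
import Pool.Agent.CUSP.P_FINC

/-!
# CUSP: the parameter plane (part II), from the two statements `T_P0X` and `T_HPM` of part I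
-/

set_option autoImplicit false

namespace Pool.Agent.CUSP

theorem b_NCY : T_NCY := p_NCY
theorem b_NPC : T_NPC := p_NPC b_NCY
theorem b_CTG : T_CTG := p_CTG
theorem b_RTE : T_RTE := p_RTE Pool.Agent.AEN.a_MOB Pool.Agent.PSat.a_CST
  Pool.Agent.PSat.a_CMG Pool.Agent.MEY.a_DDO Pool.Agent.PLim.a_FINF Pool.Agent.PLim.a_BIG
theorem b_DIK : T_DIK := p_DIK b_NPC Pool.Agent.AEN.a_MOB
theorem b_LT3 : T_LT3 := p_LT3 b_CTG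
theorem b_PTK (h₁ : T_P0X) (h₂ : T_HPM) : T_PTK :=
  p_PTK h₁ h₂ b_LT3 Pool.Agent.AEN.a_INP Pool.Agent.AEN.a_MOB
theorem b_FNP (h₁ : T_P0X) (h₂ : T_HPM) : T_FNP :=
  p_FNP b_RTE b_DIK (b_PTK h₁ h₂) Pool.Agent.AEN.a_MOB Pool.Agent.AEN.a_EXS
    Pool.Agent.AEN.a_UVP Pool.Agent.AEN.a_CHN2 Pool.Agent.AEN.a_FNS2
theorem b_PRT (h₁ : T_P0X) (h₂ : T_HPM) : T_PRT :=
  p_PRT b_RTE b_DIK (b_PTK h₁ h₂) Pool.Agent.AEN.a_MOB Pool.Agent.AEN.a_EXS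
theorem b_FINC (h₁ : T_P0X) (h₂ : T_HPM) : T_FINC :=
  p_FINC (b_FNP h₁ h₂) (b_PRT h₁ h₂) Pool.Agent.AEN.a_CNT Pool.Agent.AEN.a_LGI

end Pool.Agent.CUSP
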