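import Pool.Agent.CUSP.AllA
import Pool.Agent.CUSP.AllB

/-!
# CUSP: the final statement, without hypotheses
-/

set_option autoImplicit false

namespace Pool.Agent.CUSP

theorem a_PTK : T_PTK := b_PTK a_P0X a_HPM
theorem a_FNP : T_FNP := b_FNP a_P0X a_HPM
theorem a_PRT : T_PRT := b_PRT a_P0X a_HPM
theorem a_FINC : T_FINC := b_FINC a_P0X a_HPM

end Pool.Agent.CUSP
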