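import Pool.Agent.CUSP.Targets5
import Pool.Agent.AEN.P_CHN2

/-!
# CUSP: CHN3, integration along a horizontal line (helper67)
-/

set_option autoImplicit false

open Complex Filter Topology Set MeasureTheory
open Pool.Agent.AEN (vm Hp Exn Uv)

namespace Pool.Agent.CUSP

/-- Estimate near the boundary. -/
theorem CHN3_.linest {κ b : ℝ} {Q : ℂ → ℂ} (h : Uv κ b Q) (B : ℝ) (hB : 0 ≤ B)
    (hb : ∀ m : ℂ, 0 ≤ m.re → ‖deriv Q m‖ ≤ B) (Y s c : ℝ) (hs : 0 < s) (hsc : s ≤ c) :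
    ‖Q (s + Y * I) - Q (c + Y * I)‖ ≤ B * c := by
  have key := norm_image_sub_le_of_norm_deriv_le_segment'
    (f := fun u : ℝ => Q ((u : ℂ) + Y * I))
    (f' := fun u : ℝ => (1 : ℂ) • deriv Q ((u : ℂ) + Y * I))
    (C := B) (a := s) (b := c) ?_ ?_ c (right_mem_Icc.2 hsc)
  · rw [norm_sub_rev]
    refine key.trans ?_
    nlinarith
  · intro u hu
    have hu0 : 0 < u := lt_of_lt_of_le hs hu.1
    have h1 : HasDerivAt (fun u : ℝ => (u : ℂ) + Y * I) (1 : ℂ) u := by
      simpa using ((hasDerivAt_id u).ofReal_comp).add_const ((Y : ℂ) * I)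
    have h2 := Pool.Agent.AEN.CHN2_.diff h u Y hu0
    exact (HasDerivAt.scomp u h2 h1).hasDerivWithinAt
  · intro u hu
    have hu0 : 0 < u := lt_of_lt_of_le hs hu.1
    rw [one_smul]
    refine hb _ ?_
    rw [Pool.Agent.AEN.CHN2_.re_eq]
    exact hu0.le

/-- The part to the right of `1 / (1 + lam)`. -/
theorem CHN3_.far (h₁ : T_DYA) {κ b : ℝ} {Q : ℂ → ℂ} (hU : Uv κ b Q) (lam : ℝ)
    (hl : 0 ≤ lam) (Y s M : ℝ) (hs : 1 / (1 + lam) ≤ s) (hsM : s ≤ M) (hM1 : 1 ≤ M) :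
    ‖Q (s + Y * I) - Q (M + Y * I)‖ ≤ 5 * b ^ 2 * √(1 + lam + Real.log M) := by
  have h1l : 0 < 1 + lam := by linarith
  have hs0 : 0 < s := lt_of_lt_of_le (by positivity) hs
  have hM : 0 < M := by linarith
  have hlM : 0 ≤ Real.log M := Real.log_nonneg hM1
  have hlog2 : (2 : ℝ) / 3 < Real.log 2 := by
    have := Real.log_two_gt_d9
    linarith
  have hl2 : 0 < Real.log 2 := by linarith
  set N : ℕ := ⌈Real.log (M / s) / Real.log 2⌉₊ with hN
  have hMs : 1 ≤ M / s := by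
    rw [le_div_iff₀ hs0]
    linarith
  have hx0 : 0 ≤ Real.log (M / s) / Real.log 2 := div_nonneg (Real.log_nonneg hMs) hl2.le
  have hpow : M ≤ 2 ^ N * s := by
    have h2 : Real.log (M / s) ≤ N * Real.log 2 := by
      have h3 := Nat.le_ceil (Real.log (M / s) / Real.log 2)
      rwa [div_le_iff₀ hl2] at h3
    have h4 : M / s ≤ 2 ^ N := by
      rw [← Real.log_pow] at h2
      exact (Real.log_le_log_iff (by positivity) (by positivity)).1 h2
    rwa [div_le_iff₀ hs0] at h4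
  have h5 : Real.log (M / s) ≤ Real.log M + lam := by
    rw [Real.log_div hM.ne' hs0.ne']
    have h6 : Real.log (1 / (1 + lam)) ≤ Real.log s := Real.log_le_log (by positivity) hs
    rw [one_div, Real.log_inv] at h6
    have h7 : Real.log (1 + lam) ≤ lam := by
      have := Real.log_le_sub_one_of_pos h1l
      linarith
    linarith
  have hN2 : (N : ℝ) ≤ 3 / 2 * (1 + lam + Real.log M) := by
    have h8 := (Nat.ceil_lt_add_one hx0).le
    have h9 : Real.log (M / s) / Real.log 2 ≤ 3 / 2 * (Real.log M + lam) := by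
      rw [div_le_iff₀ hl2]
      have h10 : 0 ≤ Real.log M + lam := by linarith
      nlinarith
    rw [← hN] at h8
    linarith
  have h11 := h₁ κ b Q hU N Y s M hs0 hsM hpow
  refine h11.trans ?_
  have h12 : √(N : ℝ) ≤ 5 / 4 * √(1 + lam + Real.log M) := by
    rw [show (5 : ℝ) / 4 = √((5 / 4) ^ 2) by rw [Real.sqrt_sq (by norm_num)],
      ← Real.sqrt_mul (by positivity)]
    refine Real.sqrt_le_sqrt ?_
    have h13 : 0 ≤ 1 + lam + Real.log M := by linarith
    nlinarith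
  calc 4 * b ^ 2 * √(N : ℝ) ≤ 4 * b ^ 2 * (5 / 4 * √(1 + lam + Real.log M)) :=
        mul_le_mul_of_nonneg_left h12 (by positivity)
    _ = _ := by ring

/-- CHN3. -/
theorem p_CHN3 (h₁ : T_DYA) (h₂ : Pool.Agent.AEN.T_NBD2) : T_CHN3 := by
  intro κ b Q hU hb1 Y s M hs hsM hM1
  have hκ := hU.hκ
  have hb0 := hU.hb
  have hκ1 : κ ≤ 1 := hU.hκ1
  obtain ⟨-, hB⟩ := h₂ κ b Q hU
  have hB' := hB hb1
  have hM : 0 < M := lt_of_lt_of_le hs hsM
  have hlM : 0 ≤ Real.log M := Real.log_nonneg hM1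
  set lam : ℝ := Real.log (1 / b) with hlam
  have hl : 0 ≤ lam := Real.log_nonneg (by rw [le_div_iff₀ hb0]; linarith)
  have h1l : 0 < 1 + lam := by linarith
  have hBn : 0 ≤ 11 * b ^ 2 * (1 + lam) / κ := by positivity
  have hX : 1 ≤ √(1 + lam + Real.log M) := by
    rw [Real.one_le_sqrt]
    linarith
  have hX0 : 0 ≤ √(1 + lam + Real.log M) := by linarith
  have hbb : 0 ≤ b ^ 2 := by positivity
  have h5 : 5 * b ^ 2 * √(1 + lam + Real.log M) ≤ 5 * b ^ 2 * √(1 + lam + Real.log M) / κ := by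
    rw [le_div_iff₀ hκ]
    have : 0 ≤ 5 * b ^ 2 * √(1 + lam + Real.log M) := by positivity
    nlinarith
  rcases le_total (1 / (1 + lam)) s with h | h
  · refine (CHN3_.far h₁ hU lam hl Y s M h hsM hM1).trans (h5.trans ?_)
    refine div_le_div_of_nonneg_right ?_ hκ.le
    nlinarith [mul_nonneg hbb hX0]
  · have h0M : 1 / (1 + lam) ≤ M := by
      refine le_trans ?_ hM1
      rw [div_le_one h1l]
      linarith
    have h6 := CHN3_.linest hU _ hBn hB' Y s (1 / (1 + lam)) hs h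
    have h7 := CHN3_.far h₁ hU lam hl Y (1 / (1 + lam)) M le_rfl h0M hM1
    have h8 : 11 * b ^ 2 * (1 + lam) / κ * (1 / (1 + lam)) = 11 * b ^ 2 / κ := by
      field_simp
    rw [h8] at h6
    have h9 : ‖Q (s + Y * I) - Q (M + Y * I)‖ ≤
        ‖Q (s + Y * I) - Q (((1 / (1 + lam) : ℝ) : ℂ) + Y * I)‖ +
        ‖Q (((1 / (1 + lam) : ℝ) : ℂ) + Y * I) - Q (M + Y * I)‖ :=
      norm_sub_le_norm_sub_add_norm_sub _ _ _
    have h10 : 11 * b ^ 2 / κ ≤ 11 * b ^ 2 * √(1 + lam + Real.log M) / κ := by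
      refine div_le_div_of_nonneg_right ?_ hκ.le
      nlinarith [mul_le_mul_of_nonneg_left hX hbb]
    have h11 : 11 * b ^ 2 * √(1 + lam + Real.log M) / κ +
        5 * b ^ 2 * √(1 + lam + Real.log M) / κ ≤
        20 * b ^ 2 * √(1 + lam + Real.log M) / κ := by
      rw [← add_div]
      refine div_le_div_of_nonneg_right ?_ hκ.le
      nlinarith [mul_nonneg hbb hX0]
    linarith

end Pool.Agent.CUSP
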