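import Pool.Agent.CUSP.Targets5
import Pool.Agent.CUSP.P_LT3
import Pool.Agent.CUSP.P_PRT

/-!
# CUSP: CSZ, the exact size of the cusp (helper67)
-/

set_option autoImplicit false

open Complex Filter Topology Set MeasureTheory
open Pool.Agent.Limb (F)
open Pool.Agent.PLim (Rho)
open Pool.Agent.MEY (Pt)
open Pool.Agent.PSat (Comp Sat)
open Pool.Agent.AEN (vm Hp Exn Uv)
open Pool.Agent.MEZ (T_NCZ T_SECZ NCZk)

namespace Pool.Agent.CUSP

namespace CSZ_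

/-- the inverse of the coordinate -/
noncomputable def Mv (v : ℂ) : ℂ := (1 - v)⁻¹ - 1 / 2

theorem ne_one {v : ℂ} (hv : ‖v‖ < 1) : 1 - v ≠ 0 := by
  intro h
  have h2 : v = 1 := (sub_eq_zero.1 h).symm
  rw [h2, norm_one] at hv
  exact lt_irrefl _ hv

theorem Mv_der {v : ℂ} (hv : 1 - v ≠ 0) : HasDerivAt Mv (((1 - v) ^ 2)⁻¹) v := by
  have h1 : HasDerivAt (fun v : ℂ => 1 - v) (-1) v := by
    simpa using (hasDerivAt_id v).const_sub (1 : ℂ)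
  have h2 := (h1.inv hv).sub_const (1 / 2 : ℂ)
  refine h2.congr_deriv ?_
  field_simp

theorem Mv_two {v : ℂ} : 2 * Mv v + 1 = 2 * (1 - v)⁻¹ := by
  unfold Mv
  ring

theorem Mv_mem (h : Pool.Agent.AEN.T_MOB) {v : ℂ} (hv : ‖v‖ < 1) :
    Mv v ∈ Hp ∧ vm (Mv v) = v := by
  obtain ⟨m, hm, hmv, hm2⟩ := h.2.2.1 v hv
  have h1 : m = Mv v := by
    have h2 := Mv_two (v := v)
    have h3 : 2 / (1 - v) = 2 * (1 - v)⁻¹ := div_eq_mul_inv _ _
    rw [h3, ← h2] at hm2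
    have h4 : 2 * (m - Mv v) = 0 := by linear_combination hm2
    have h5 := (mul_eq_zero.1 h4).resolve_left two_ne_zero
    exact sub_eq_zero.1 h5
  rw [← h1]
  exact ⟨hm, hmv⟩

theorem Mv_large (B : ℝ) : ∀ᶠ v : ℂ in 𝓝[Metric.ball 0 1] 1, B ≤ ‖Mv v‖ := by
  have h1 : Tendsto (fun v : ℂ => 1 - v) (𝓝[Metric.ball 0 1] 1) (𝓝[≠] 0) := by
    refine tendsto_nhdsWithin_iff.2 ⟨?_, ?_⟩
    · have h2 : Tendsto (fun v : ℂ => 1 - v) (𝓝 1) (𝓝 (1 - 1)) :=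
        (continuous_const.sub continuous_id).tendsto _
      rw [sub_self] at h2
      exact h2.mono_left nhdsWithin_le_nhds
    · filter_upwards [self_mem_nhdsWithin] with v hv
      exact ne_one (mem_ball_zero_iff.1 hv)
  have h3 : Tendsto (fun v : ℂ => ‖(1 - v)⁻¹‖) (𝓝[Metric.ball 0 1] 1) atTop :=
    (tendsto_norm_inv_nhdsNE_zero_atTop (α := ℂ)).comp h1
  filter_upwards [h3.eventually_ge_atTop (B + 1 / 2)] with v hv
  have h4 : ‖(1 - v)⁻¹‖ - ‖(1 / 2 : ℂ)‖ ≤ ‖Mv v‖ := norm_sub_norm_le _ _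
  have h5 : ‖(1 / 2 : ℂ)‖ = 1 / 2 := by norm_num
  rw [h5] at h4
  linarith

theorem eq_P (h : Pool.Agent.AEN.T_MOB) {κ : ℝ} {P Q : ℂ → ℂ} (hQ : Exn κ P Q) {v : ℂ}
    (hv : ‖v‖ < 1) : P v = Q (Mv v) := by
  obtain ⟨h1, h2⟩ := Mv_mem h hv
  rw [hQ.eq _ h1, h2]

theorem deriv_eq (h : Pool.Agent.AEN.T_MOB) {κ : ℝ} {P Q : ℂ → ℂ}
    (hdQ : DifferentiableOn ℂ Q Hp) (hQ : Exn κ P Q) {v : ℂ} (hv : ‖v‖ < 1) :
    deriv P v = deriv Q (Mv v) * ((1 - v) ^ 2)⁻¹ := by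
  obtain ⟨h1, h2⟩ := Mv_mem h hv
  have h3 : P =ᶠ[𝓝 v] fun v => Q (Mv v) := by
    have h4 : Metric.ball (0 : ℂ) 1 ∈ 𝓝 v := Metric.isOpen_ball.mem_nhds (by simpa using hv)
    filter_upwards [h4] with y hy
    exact eq_P h hQ (mem_ball_zero_iff.1 hy)
  have h5 : HasDerivAt Q (deriv Q (Mv v)) (Mv v) :=
    (hdQ.differentiableAt (LT3_.isOpen_Hp.mem_nhds h1)).hasDerivAt
  have h6 := h5.comp v (Mv_der (ne_one hv))
  exact (h6.congr_of_eventuallyEq h3).deriv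

theorem mul_eq (h : Pool.Agent.AEN.T_MOB) (hC : T_CTG) {κ : ℝ} {K : ℕ} {P Q Z : ℂ → ℂ}
    {r0 z0 : ℂ} (hdQ : DifferentiableOn ℂ Q Hp) (hQ : Exn κ P Q) (hR : Rt K Q Z r0 z0) {v : ℂ}
    (hv : ‖v‖ < 1) : deriv P v * ((1 - v) * Gzc K (Q (Mv v)) (Z (Mv v)) +
      Gzz K (Q (Mv v)) (Z (Mv v)) * Gc K (Q (Mv v)) (Z (Mv v))) = 1 - v := by
  obtain ⟨h1, h2⟩ := Mv_mem h hv
  have hv1 := ne_one hv
  have hk := LT3_.key hC hdQ hR h1
  have h3 : (2 * Mv v + 1)⁻¹ = (1 - v) / 2 := by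
    rw [Mv_two, mul_inv, inv_inv]
    ring
  rw [h3] at hk
  rw [deriv_eq h hdQ hQ hv]
  set D : ℂ := Gzz K (Q (Mv v)) (Z (Mv v)) * Gc K (Q (Mv v)) (Z (Mv v)) with hD
  have h4 : deriv Q (Mv v) * ((1 - v) * Gzc K (Q (Mv v)) (Z (Mv v)) + D) = (1 - v) ^ 3 := by
    linear_combination hk
  field_simp
  linear_combination h4

theorem div_eq (h : Pool.Agent.AEN.T_MOB) (hC : T_CTG) {κ : ℝ} {K : ℕ} {P Q Z : ℂ → ℂ}
    {r0 z0 : ℂ} (hdQ : DifferentiableOn ℂ Q Hp) (hQ : Exn κ P Q) (hR : Rt K Q Z r0 z0) {v : ℂ}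
    (hv : ‖v‖ < 1) : deriv P v / (1 - v) = 1 / ((1 - v) * Gzc K (Q (Mv v)) (Z (Mv v)) +
      Gzz K (Q (Mv v)) (Z (Mv v)) * Gc K (Q (Mv v)) (Z (Mv v))) := by
  have h1 := mul_eq h hC hdQ hQ hR hv
  have hv1 := ne_one hv
  set D : ℂ := (1 - v) * Gzc K (Q (Mv v)) (Z (Mv v)) +
      Gzz K (Q (Mv v)) (Z (Mv v)) * Gc K (Q (Mv v)) (Z (Mv v)) with hD
  have hD0 : D ≠ 0 := by
    intro h2
    rw [h2, mul_zero] at h1
    exact hv1 h1.symm
  rw [div_eq_div_iff hv1 hD0, h1]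
  ring

/-- integration of the asymptotics of the derivative -/
theorem second {P : ℂ → ℂ} {r A : ℂ} (hdP : DifferentiableOn ℂ P (Metric.ball 0 1))
    (hlim : Tendsto P (𝓝[Metric.ball 0 1] 1) (𝓝 r))
    (hd : Tendsto (fun v => deriv P v / (1 - v)) (𝓝[Metric.ball 0 1] 1) (𝓝 A)) :
    Tendsto (fun v => (P v - r) / (1 - v) ^ 2) (𝓝[Metric.ball 0 1] 1) (𝓝 (-A / 2)) := by
  rw [Metric.tendsto_nhds]
  intro ε hε
  have h1 := (Metric.tendsto_nhds.1 hd) (ε / 2) (by positivity)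
  rw [Filter.eventually_iff, mem_nhdsWithin_iff_exists_mem_nhds_inter] at h1
  obtain ⟨U, hU, hUs⟩ := h1
  obtain ⟨δ, hδ, hδU⟩ := Metric.mem_nhds_iff.1 hU
  have h2 : ∀ᶠ v : ℂ in 𝓝[Metric.ball 0 1] 1, ‖1 - v‖ < δ := by
    have h3 : Metric.ball (1 : ℂ) δ ∈ 𝓝[Metric.ball 0 1] (1 : ℂ) :=
      mem_nhdsWithin_of_mem_nhds (Metric.ball_mem_nhds _ hδ)
    filter_upwards [h3] with v hv
    rw [Metric.mem_ball, dist_comm, dist_eq_norm] at hv
    exact hv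
  filter_upwards [h2, self_mem_nhdsWithin] with v hvδ hvb
  have hv : ‖v‖ < 1 := mem_ball_zero_iff.1 hvb
  have hv1 := ne_one hv
  -- the segment
  set u : ℝ → ℂ := fun t => v + t * (1 - v) with hu
  have hu1 : ∀ t : ℝ, 1 - u t = ((1 - t : ℝ) : ℂ) * (1 - v) := by
    intro t
    simp only [hu]
    push_cast
    ring
  have hub : ∀ t : ℝ, 0 ≤ t → t < 1 → ‖u t‖ < 1 := by
    intro t ht0 ht1
    have e : u t = ((1 - t : ℝ) : ℂ) * v + (t : ℂ) := by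
      simp only [hu]
      push_cast
      ring
    rw [e]
    calc ‖((1 - t : ℝ) : ℂ) * v + (t : ℂ)‖ ≤ ‖((1 - t : ℝ) : ℂ) * v‖ + ‖(t : ℂ)‖ :=
          norm_add_le _ _
      _ = (1 - t) * ‖v‖ + t := by
          rw [norm_mul, Complex.norm_real, Complex.norm_real, Real.norm_of_nonneg (by linarith),
            Real.norm_of_nonneg ht0]
      _ < (1 - t) * 1 + t := by
          have : 0 < 1 - t := by linarith
          nlinarith
      _ = 1 := by ring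
  set g : ℝ → ℂ := fun t => P (u t) - r + A / 2 * (1 - u t) ^ 2 with hg
  have hder : ∀ t : ℝ, 0 ≤ t → t < 1 →
      HasDerivAt g ((deriv P (u t) - A * (1 - u t)) * (1 - v)) t := by
    intro t ht0 ht1
    have h3 : HasDerivAt u (1 - v) t := by
      have h4 : HasDerivAt (fun t : ℝ => (t : ℂ) * (1 - v)) (1 - v) t := by
        simpa using (Complex.ofRealCLM.hasDerivAt (x := t)).mul_const (1 - v)
      exact h4.const_add v
    have h5 : HasDerivAt P (deriv P (u t)) (u t) :=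
      (hdP.differentiableAt (Metric.isOpen_ball.mem_nhds (by
        simpa using hub t ht0 ht1))).hasDerivAt
    have h6 : HasDerivAt (fun t : ℝ => P (u t)) (deriv P (u t) * (1 - v)) t := by
      have h61 := HasDerivAt.scomp t h5 h3
      simpa [Function.comp_def, smul_eq_mul, mul_comm] using h61
    have h7 : HasDerivAt (fun t : ℝ => (1 - u t) ^ 2) (2 * (1 - u t) * (-(1 - v))) t := by
      have h8 : HasDerivAt (fun t : ℝ => 1 - u t) (-(1 - v)) t := h3.const_sub (1 : ℂ)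
      have h9 : HasDerivAt (fun t : ℝ => (1 - u t) * (1 - u t))
          (-(1 - v) * (1 - u t) + (1 - u t) * (-(1 - v))) t := h8.mul h8
      have e9 : (fun t : ℝ => (1 - u t) ^ 2) = fun t : ℝ => (1 - u t) * (1 - u t) := by
        funext t
        ring
      rw [e9]
      refine h9.congr_deriv ?_
      ring
    refine ((h6.sub_const r).add (h7.const_mul (A / 2))).congr_deriv ?_
    ring
  have hbound : ∀ t : ℝ, 0 ≤ t → t < 1 →
      ‖(deriv P (u t) - A * (1 - u t)) * (1 - v)‖ ≤ ε / 2 * ‖1 - v‖ ^ 2 := by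
    intro t ht0 ht1
    have hne : 1 - u t ≠ 0 := ne_one (hub t ht0 ht1)
    have h3 : ‖1 - u t‖ ≤ ‖1 - v‖ := by
      rw [hu1, norm_mul, Complex.norm_real, Real.norm_of_nonneg (by linarith)]
      have := norm_nonneg (1 - v)
      nlinarith
    have h4 : u t ∈ U := hδU (by
      rw [Metric.mem_ball, dist_comm, dist_eq_norm]
      linarith)
    have h5 : dist (deriv P (u t) / (1 - u t)) A < ε / 2 :=
      hUs ⟨h4, by simpa using hub t ht0 ht1⟩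
    rw [dist_eq_norm] at h5
    have e : deriv P (u t) - A * (1 - u t) = (deriv P (u t) / (1 - u t) - A) * (1 - u t) := by
      field_simp
    rw [e, norm_mul, norm_mul]
    calc ‖deriv P (u t) / (1 - u t) - A‖ * ‖1 - u t‖ * ‖1 - v‖
        ≤ ε / 2 * ‖1 - v‖ * ‖1 - v‖ := by
          gcongr
      _ = _ := by ring
  have hseg : ∀ T : ℝ, 0 ≤ T → T < 1 → ‖g T - g 0‖ ≤ ε / 2 * ‖1 - v‖ ^ 2 := by
    intro T hT0 hT1
    have h3 := norm_image_sub_le_of_norm_deriv_le_segment' (f := g)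
      (f' := fun t => (deriv P (u t) - A * (1 - u t)) * (1 - v)) (a := 0) (b := T)
      (C := ε / 2 * ‖1 - v‖ ^ 2)
      (fun t ht => (hder t ht.1 (lt_of_le_of_lt ht.2 hT1)).hasDerivWithinAt)
      (fun t ht => hbound t ht.1 (lt_trans ht.2 hT1)) T ⟨hT0, le_rfl⟩
    refine h3.trans ?_
    have : 0 ≤ ε / 2 * ‖1 - v‖ ^ 2 := by positivity
    nlinarith
  have hu_lim : Tendsto u (𝓝[<] 1) (𝓝[Metric.ball 0 1] 1) := by
    refine tendsto_nhdsWithin_iff.2 ⟨?_, ?_⟩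
    · have h3 : Continuous u := by
        simp only [hu]
        fun_prop
      have h4 : Tendsto u (𝓝 1) (𝓝 (u 1)) := h3.tendsto 1
      have h5 : u 1 = 1 := by
        simp [hu]
      rw [h5] at h4
      exact h4.mono_left nhdsWithin_le_nhds
    · filter_upwards [Ioo_mem_nhdsLT (zero_lt_one' ℝ)] with t ht
      simpa using hub t ht.1.le ht.2
  have hg_lim : Tendsto g (𝓝[<] 1) (𝓝 0) := by
    have h3 := hlim.comp hu_lim
    have h4 : Tendsto (fun t => (1 - u t) ^ 2) (𝓝[<] 1) (𝓝 0) := by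
      have h5 : Tendsto u (𝓝[<] 1) (𝓝 1) := hu_lim.mono_right nhdsWithin_le_nhds
      have h6 := (h5.const_sub (1 : ℂ)).pow 2
      simpa using h6
    have h7 := (h3.sub_const r).add (h4.const_mul (A / 2))
    simpa using h7
  have h8 : ‖(0 : ℂ) - g 0‖ ≤ ε / 2 * ‖1 - v‖ ^ 2 := by
    refine le_of_tendsto (hg_lim.sub_const (g 0)).norm ?_
    filter_upwards [Ioo_mem_nhdsLT (zero_lt_one' ℝ)] with t ht
    exact hseg t ht.1.le ht.2
  have h9 : g 0 = P v - r + A / 2 * (1 - v) ^ 2 := by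
    simp [hg, hu]
  rw [zero_sub, norm_neg, h9] at h8
  rw [dist_eq_norm]
  have e : (P v - r) / (1 - v) ^ 2 - -A / 2 =
      (P v - r + A / 2 * (1 - v) ^ 2) / (1 - v) ^ 2 := by
    field_simp
    ring
  have hpos : 0 < ‖1 - v‖ ^ 2 := by
    have := norm_pos_iff.2 hv1
    positivity
  rw [e, norm_div, norm_pow, div_lt_iff₀ hpos]
  refine lt_of_le_of_lt h8 ?_
  nlinarith

end CSZ_

open CSZ_ in
/-- CSZ. -/
theorem p_CSZ (h₁ : T_RTE) (h₂ : T_DIK) (h₃ : T_CTG) (h₄ : T_P0X)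
    (h₅ : Pool.Agent.AEN.T_MOB) (h₆ : Pool.Agent.AEN.T_EXS) : T_CSZ := by
  rintro ⟨κ0, hκ0, hN0⟩ K P hP hsat
  obtain ⟨κ, hκ, hκ1, hN⟩ : ∃ κ : ℝ, 0 < κ ∧ κ ≤ 1 ∧ NCZk κ :=
    ⟨min κ0 1, lt_min hκ0 one_pos, min_le_right _ _, PRT_.ncz_mono (min_le_left _ _) hN0⟩
  obtain ⟨Q, hQ⟩ := h₆ κ hκ hκ1 hN K P hP
  have hκ' : 0 < κ / 5000 := by positivity
  obtain ⟨Z, r0, z0, hR⟩ := h₁ (κ / 5000) K P Q hκ' hP hQ
  obtain ⟨hlim, hor⟩ := h₂ (κ / 5000) K P Q Z r0 z0 hκ' hP hQ hR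
  have hpt : Pt 2 K r0 z0 1 := hor.resolve_left hsat
  have hne : Gzz K r0 z0 * Gc K r0 z0 ≠ 0 := by
    obtain ⟨k1, hk1, hk⟩ := h₄
    have h := hk K r0 z0 hP.hK hpt
    intro h0
    have h2 : ‖deriv (deriv ((F 2 r0)^[K])) z0 / 2‖ *
        ‖deriv (fun c' => (F 2 c')^[K] z0) r0‖ = ‖Gzz K r0 z0 * Gc K r0 z0‖ / 2 := by
      unfold Gzz Gc
      rw [norm_div, norm_mul]
      norm_num
      ring
    rw [h2, h0, norm_zero, zero_div] at h
    linarith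
  have hdQ : DifferentiableOn ℂ Q Hp := by
    refine hQ.dQ.mono fun m hm => ?_
    have : 0 < m.re := hm
    show -(κ / 5000) < m.re
    linarith
  obtain ⟨-, -, c1, c2, c3, -⟩ := h₃ K
  have hin : ∀ᶠ v : ℂ in 𝓝[Metric.ball 0 1] 1, ‖v‖ < 1 := by
    filter_upwards [self_mem_nhdsWithin] with v hv
    exact mem_ball_zero_iff.1 hv
  have hlimQ : Tendsto (fun v => Q (Mv v)) (𝓝[Metric.ball 0 1] 1) (𝓝 r0) := by
    refine hlim.congr' ?_
    filter_upwards [hin] with v hv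
    exact eq_P h₅ hQ hv
  have hlimZ : Tendsto (fun v => Z (Mv v)) (𝓝[Metric.ball 0 1] 1) (𝓝 z0) := by
    rw [Metric.tendsto_nhds]
    intro ε hε
    obtain ⟨B, hB⟩ := hR.lim (ε / 2) (by positivity)
    filter_upwards [hin, Mv_large B] with v hv hvB
    rw [dist_eq_norm]
    have h := (hB _ (Mv_mem h₅ hv).1 hvB).2
    linarith
  have l4 : Tendsto (fun v => ((Q (Mv v), Z (Mv v)) : ℂ × ℂ)) (𝓝[Metric.ball 0 1] 1)
      (𝓝 (r0, z0)) := hlimQ.prodMk_nhds hlimZ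
  have m1 : Tendsto (fun v => Gc K (Q (Mv v)) (Z (Mv v))) (𝓝[Metric.ball 0 1] 1)
      (𝓝 (Gc K r0 z0)) := (c1.tendsto (r0, z0)).comp l4
  have m2 : Tendsto (fun v => Gzz K (Q (Mv v)) (Z (Mv v))) (𝓝[Metric.ball 0 1] 1)
      (𝓝 (Gzz K r0 z0)) := (c2.tendsto (r0, z0)).comp l4
  have m3 : Tendsto (fun v => Gzc K (Q (Mv v)) (Z (Mv v))) (𝓝[Metric.ball 0 1] 1)
      (𝓝 (Gzc K r0 z0)) := (c3.tendsto (r0, z0)).comp l4
  have m4 : Tendsto (fun v : ℂ => 1 - v) (𝓝[Metric.ball 0 1] 1) (𝓝 0) := by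
    have h2 : Tendsto (fun v : ℂ => 1 - v) (𝓝 1) (𝓝 (1 - 1)) :=
      (continuous_const.sub continuous_id).tendsto _
    rw [sub_self] at h2
    exact h2.mono_left nhdsWithin_le_nhds
  have hD : Tendsto (fun v => (1 - v) * Gzc K (Q (Mv v)) (Z (Mv v)) +
      Gzz K (Q (Mv v)) (Z (Mv v)) * Gc K (Q (Mv v)) (Z (Mv v))) (𝓝[Metric.ball 0 1] 1)
      (𝓝 (Gzz K r0 z0 * Gc K r0 z0)) := by
    have h := (m4.mul m3).add (m2.mul m1)
    simpa using h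
  have hfirst : Tendsto (fun v => deriv P v / (1 - v)) (𝓝[Metric.ball 0 1] 1)
      (𝓝 (1 / (Gzz K r0 z0 * Gc K r0 z0))) := by
    have h := (tendsto_const_nhds (x := (1 : ℂ))).div hD hne
    refine h.congr' ?_
    filter_upwards [hin] with v hv
    exact (div_eq h₅ h₃ hdQ hQ hR hv).symm
  refine ⟨r0, z0, hlim, hpt, hne, hfirst, ?_⟩
  have h := second hP.dP hlim hfirst
  have e : -(1 / (Gzz K r0 z0 * Gc K r0 z0)) / 2 = -1 / (2 * (Gzz K r0 z0 * Gc K r0 z0)) := by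
    field_simp
  rw [e] at h
  exact h

end Pool.Agent.CUSP
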