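import Pool.Agent.CUSP.Targets5
import Pool.Agent.AEN.P_CHN2

/-!
# CUSP: DST, one dyadic step
-/

set_option autoImplicit false

open Complex Filter Topology Set MeasureTheory
open Pool.Agent.AEN (vm Hp Hk Exn Uv)

namespace Pool.Agent.CUSP

namespace DST_

theorem ball_sub {s u Y : ℝ} (h1 : s ≤ u) (h2 : u ≤ 2 * s) :
    Metric.ball ((u : ℂ) + Y * I) (u / 2) ⊆ Sj s := by
  intro z hz
  rw [mem_ball_iff_norm] at hz
  have h3 := abs_lt.mp (lt_of_le_of_lt (abs_re_le_norm (z - (u + Y * I))) hz)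
  rw [sub_re, AEN.CHN2_.re_eq] at h3
  constructor
  · linarith [h3.1]
  · linarith [h3.2]

theorem Sj_Hp {s : ℝ} (hs : 0 < s) : Sj s ⊆ Hp := by
  intro z hz
  have := hz.1
  show 0 < z.re
  linarith

theorem der_le (h₁ : AEN.T_MVA) {κ b : ℝ} {Q : ℂ → ℂ} (h : Uv κ b Q) {Y s u : ℝ} (hs : 0 < s)
    (h1 : s ≤ u) (h2 : u ≤ 2 * s) :
    ‖deriv Q (u + Y * I)‖ ≤ 2 * √(volume (Q '' Sj s)).toReal / s := by
  have hsub := ball_sub (Y := Y) h1 h2
  have hfin : volume (Q '' Sj s) ≠ ⊤ :=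
    ne_top_of_le_ne_top ENNReal.ofReal_ne_top ((measure_mono (image_mono (Sj_Hp hs))).trans h.ar)
  have hV : 0 ≤ (volume (Q '' Sj s)).toReal := ENNReal.toReal_nonneg
  have hu : 0 < u / 2 := by linarith
  have e4 : (√√(volume (Q '' Sj s)).toReal) ^ 4 = (volume (Q '' Sj s)).toReal := by
    have : (√√(volume (Q '' Sj s)).toReal) ^ 4 = ((√√(volume (Q '' Sj s)).toReal) ^ 2) ^ 2 := by
      ring
    rw [this, Real.sq_sqrt (Real.sqrt_nonneg _), Real.sq_sqrt hV]
  have h3 := h₁ (u + Y * I) (u / 2) (√√(volume (Q '' Sj s)).toReal) Q hu (Real.sqrt_nonneg _)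
    (h.dQ.mono fun z hz => by
      have h4 : 0 < z.re := Sj_Hp hs (hsub hz)
      have h5 := h.hκ
      show -κ < z.re
      linarith)
    (h.inj.mono (hsub.trans (Sj_Hp hs)))
    (by
      rw [e4, ENNReal.ofReal_toReal hfin]
      exact measure_mono (image_mono hsub))
  rw [Real.sq_sqrt (Real.sqrt_nonneg _)] at h3
  refine h3.trans ?_
  have h4 := Real.sqrt_nonneg (volume (Q '' Sj s)).toReal
  rw [div_le_div_iff₀ hu hs]
  nlinarith

end DST_

/-- DST. -/
theorem p_DST (h₁ : AEN.T_MVA) : T_DST := by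
  intro κ b Q h Y s t t' hs hst htt ht2
  have key := norm_image_sub_le_of_norm_deriv_le_segment'
    (f := fun u : ℝ => Q ((u : ℂ) + Y * I))
    (f' := fun u : ℝ => (1 : ℂ) • deriv Q ((u : ℂ) + Y * I))
    (C := 2 * √(volume (Q '' Sj s)).toReal / s) (a := t) (b := t') ?_ ?_ t' (right_mem_Icc.2 htt)
  · rw [norm_sub_rev]
    refine key.trans ?_
    have h1 := Real.sqrt_nonneg (volume (Q '' Sj s)).toReal
    rw [div_mul_eq_mul_div, div_le_iff₀ hs]
    exact mul_le_mul_of_nonneg_left (by linarith) (by positivity)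
  · intro u hu
    have hu0 : 0 < u := lt_of_lt_of_le hs (hst.trans hu.1)
    have h1 : HasDerivAt (fun u : ℝ => (u : ℂ) + Y * I) (1 : ℂ) u := by
      simpa using ((hasDerivAt_id u).ofReal_comp).add_const ((Y : ℂ) * I)
    have h2 := AEN.CHN2_.diff h u Y hu0
    exact (HasDerivAt.scomp u h2 h1).hasDerivWithinAt
  · intro u hu
    rw [one_smul]
    exact DST_.der_le h₁ h hs (hst.trans hu.1) (hu.2.le.trans ht2)

end Pool.Agent.CUSP
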