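import Pool.Agent.CUSP.Targets5

/-!
# CUSP, block DSV: the areas of the images of the dyadic strips
-/

set_option autoImplicit false

open Complex Filter Topology Set MeasureTheory
open Pool.Agent.AEN (Hp Uv Hk)

namespace Pool.Agent.CUSP

namespace DSV_

theorem Sj_sub {s : ℝ} (hs : 0 < s) : Sj s ⊆ Hp := fun m hm => by
  have h := hm.1
  change 0 < m.re
  linarith

theorem Sj_meas (s : ℝ) : MeasurableSet (Sj s) :=
  (measurableSet_lt measurable_const measurable_re).inter
    (measurableSet_lt measurable_re measurable_const)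

theorem Hp_sub {κ : ℝ} (hκ : 0 < κ) : Hp ⊆ Hk κ := fun m hm => by
  have h : 0 < m.re := hm
  change -κ < m.re
  linarith

theorem meas {κ b : ℝ} {Q : ℂ → ℂ} (h : Uv κ b Q) {s : ℝ} (hs : 0 < s) :
    MeasurableSet (Q '' Sj s) := by
  refine (Sj_meas s).image_of_continuousOn_injOn ?_ ?_
  · exact h.dQ.continuousOn.mono ((Sj_sub hs).trans (Hp_sub h.hκ))
  · exact h.inj.mono (Sj_sub hs)

theorem disj {κ b : ℝ} {Q : ℂ → ℂ} (h : Uv κ b Q) {s t : ℝ} (hs : 0 < s) (hst : 8 * s ≤ t) :
    Disjoint (Q '' Sj s) (Q '' Sj t) := by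
  rw [Set.disjoint_left]
  rintro _ ⟨m, hm, rfl⟩ ⟨m', hm', he⟩
  have h1 := h.inj (Sj_sub (by linarith) hm') (Sj_sub hs hm) he
  subst h1
  have h2 := hm.2
  have h3 := hm'.1
  linarith

theorem scale (s : ℝ) (hs : 0 < s) (r : ℕ) {i j : ℕ} (hij : i < j) :
    8 * (2 ^ (3 * i + r) * s) ≤ 2 ^ (3 * j + r) * s := by
  have h1 : (2 : ℝ) ^ (3 * i + r + 3) ≤ 2 ^ (3 * j + r) :=
    pow_le_pow_right₀ (by norm_num) (by omega)
  rw [pow_add _ _ 3] at h1
  nlinarith

theorem part {κ b : ℝ} {Q : ℂ → ℂ} (h : Uv κ b Q) {s : ℝ} (hs : 0 < s) (N r : ℕ) :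
    ∑ i ∈ Finset.range N, (volume (Q '' Sj (2 ^ (3 * i + r) * s))).toReal ≤ b ^ 4 := by
  have hfin : ∀ i, volume (Q '' Sj (2 ^ (3 * i + r) * s)) ≠ ⊤ := fun i =>
    ne_top_of_le_ne_top ENNReal.ofReal_ne_top
      ((measure_mono (image_mono (Sj_sub (by positivity)))).trans h.ar)
  rw [← ENNReal.toReal_sum fun i _ => hfin i]
  have h1 : ∑ i ∈ Finset.range N, volume (Q '' Sj (2 ^ (3 * i + r) * s)) =
      volume (⋃ i ∈ Finset.range N, Q '' Sj (2 ^ (3 * i + r) * s)) := by
    rw [measure_biUnion_finset]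
    · intro i _ j _ hij
      rcases lt_or_gt_of_ne hij with h2 | h2
      · exact disj h (by positivity) (scale s hs r h2)
      · exact (disj h (by positivity) (scale s hs r h2)).symm
    · intro i _
      exact meas h (by positivity)
  rw [h1]
  refine ENNReal.toReal_le_of_le_ofReal (by positivity) ((measure_mono ?_).trans h.ar)
  refine iUnion₂_subset fun i _ => image_mono (Sj_sub (by positivity))

theorem split (f : ℕ → ℝ) (N : ℕ) : ∑ j ∈ Finset.range (3 * N), f j =
    ∑ i ∈ Finset.range N, f (3 * i + 0) + ∑ i ∈ Finset.range N, f (3 * i + 1) +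
      ∑ i ∈ Finset.range N, f (3 * i + 2) := by
  induction N with
  | zero => simp
  | succ N ih =>
    rw [show 3 * (N + 1) = 3 * N + 1 + 1 + 1 by ring, Finset.sum_range_succ,
      Finset.sum_range_succ, Finset.sum_range_succ, ih, Finset.sum_range_succ,
      Finset.sum_range_succ, Finset.sum_range_succ]
    ring_nf

end DSV_

open DSV_ in
theorem p_DSV : T_DSV := by
  intro κ b Q h s N hs
  have h1 : ∑ j ∈ Finset.range N, (volume (Q '' Sj (2 ^ j * s))).toReal ≤
      ∑ j ∈ Finset.range (3 * N), (volume (Q '' Sj (2 ^ j * s))).toReal :=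
    Finset.sum_le_sum_of_subset_of_nonneg
      (Finset.range_mono (by omega)) fun _ _ _ => ENNReal.toReal_nonneg
  rw [split (fun j => (volume (Q '' Sj (2 ^ j * s))).toReal)] at h1
  have h2 := part h hs N 0
  have h3 := part h hs N 1
  have h4 := part h hs N 2
  linarith

end Pool.Agent.CUSP
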