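import Pool.Agent.CUSP.Targets5

/-!
# CUSP: DYA, the dyadic chain
-/

set_option autoImplicit false

open Complex Filter Topology Set MeasureTheory
open Pool.Agent.AEN (vm Hp Hk Exn Uv)

namespace Pool.Agent.CUSP

namespace DYA_

theorem step (h₂ : T_DST) {κ b : ℝ} {Q : ℂ → ℂ} (h : Uv κ b Q) {Y s M : ℝ} (hs : 0 < s)
    (j : ℕ) :
    ‖Q ((min (2 ^ j * s) M : ℝ) + Y * I) - Q ((min (2 ^ (j + 1) * s) M : ℝ) + Y * I)‖ ≤
      2 * √(volume (Q '' Sj (2 ^ j * s))).toReal := by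
  have hp : (0 : ℝ) < 2 ^ j * s := by positivity
  have hpp : (2 : ℝ) ^ (j + 1) * s = 2 * (2 ^ j * s) := by ring
  rcases le_total (2 ^ j * s) M with h1 | h1
  · rw [min_eq_left h1]
    refine h₂ κ b Q h Y (2 ^ j * s) (2 ^ j * s) _ hp le_rfl (le_min ?_ h1) ?_
    · rw [hpp]
      linarith
    · rw [hpp]
      exact min_le_left _ _
  · rw [min_eq_right h1, min_eq_right (by rw [hpp]; linarith), sub_self, norm_zero]
    positivity

end DYA_

/-- DYA. -/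
theorem p_DYA (h₁ : T_DSV) (h₂ : T_DST) : T_DYA := by
  intro κ b Q h N Y s M hs hsM hM
  have e0 : (min (2 ^ 0 * s) M : ℝ) = s := by
    rw [pow_zero, one_mul, min_eq_left hsM]
  have eN : (min (2 ^ N * s) M : ℝ) = M := min_eq_right hM
  have h3 := dist_le_range_sum_dist
    (fun j : ℕ => Q ((min (2 ^ j * s) M : ℝ) + Y * I)) N
  simp only [e0, eN, dist_eq_norm] at h3
  refine h3.trans ?_
  have h4 : ∑ j ∈ Finset.range N,
      ‖Q ((min (2 ^ j * s) M : ℝ) + Y * I) - Q ((min (2 ^ (j + 1) * s) M : ℝ) + Y * I)‖ ≤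
      ∑ j ∈ Finset.range N, 2 * √(volume (Q '' Sj (2 ^ j * s))).toReal :=
    Finset.sum_le_sum fun j _ => DYA_.step h₂ h hs j
  refine h4.trans ?_
  rw [← Finset.mul_sum]
  have h5 := h₁ κ b Q h s N hs
  have h6 := sq_sum_le_card_mul_sum_sq (s := Finset.range N)
    (f := fun j => √(volume (Q '' Sj (2 ^ j * s))).toReal)
  have h7 : ∑ j ∈ Finset.range N, (√(volume (Q '' Sj (2 ^ j * s))).toReal) ^ 2 =
      ∑ j ∈ Finset.range N, (volume (Q '' Sj (2 ^ j * s))).toReal :=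
    Finset.sum_congr rfl fun j _ => Real.sq_sqrt ENNReal.toReal_nonneg
  rw [h7, Finset.card_range] at h6
  have h8 : (N : ℝ) * ∑ j ∈ Finset.range N, (volume (Q '' Sj (2 ^ j * s))).toReal ≤
      N * (3 * b ^ 4) := mul_le_mul_of_nonneg_left h5 (Nat.cast_nonneg _)
  have h9 : (√(N : ℝ)) ^ 2 = N := Real.sq_sqrt (Nat.cast_nonneg _)
  have h10 : 2 * ∑ j ∈ Finset.range N, √(volume (Q '' Sj (2 ^ j * s))).toReal ≤
      4 * b ^ 2 * √N := by
    apply le_of_sq_le_sq _ (by positivity)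
    have e1 : (4 * b ^ 2 * √(N : ℝ)) ^ 2 = 16 * b ^ 4 * (√(N : ℝ)) ^ 2 := by ring
    rw [e1, h9, mul_pow]
    have : 0 ≤ (N : ℝ) * b ^ 4 := by positivity
    nlinarith
  exact h10

end Pool.Agent.CUSP
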