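import Pool.Agent.CUSP.Targets3

set_option autoImplicit false

open Complex Filter Topology Set MeasureTheory
open Pool.Agent.Limb (F)
open Pool.Agent.PLim (Rho)
open Pool.Agent.MEY (Pt)
open Pool.Agent.PSat (Comp Sat)
open Pool.Agent.AEN (vm Hp Exn)
open Pool.Agent.MEZ (T_NCZ T_SECZ)

namespace Pool.Agent.CUSP

namespace FRM_

theorem summ {c : ℂ} {z : ℕ → ℂ} {A : ℂ → ℂ} {C : ℝ}
    (h : ∀ s : Finset ℂ, (∀ y ∈ s, y ∈ GO c z) → ∑ y ∈ s, (‖A y‖ ^ 2)⁻¹ ≤ C) :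
    Summable (fun y : GO c z => (‖A y‖ ^ 2)⁻¹) ∧ ‖S0 c z A‖ ≤ C := by
  have h1 : ∀ u : Finset (GO c z), ∑ y ∈ u, (‖A y‖ ^ 2)⁻¹ ≤ C := by
    intro u
    have h2 := h (u.map (Function.Embedding.subtype _)) (by
      intro y hy
      obtain ⟨x, -, rfl⟩ := Finset.mem_map.mp hy
      exact x.2)
    rwa [Finset.sum_map] at h2
  have hs : Summable (fun y : GO c z => (‖A y‖ ^ 2)⁻¹) :=
    summable_of_sum_le (fun y => by positivity) h1
  refine ⟨hs, ?_⟩
  unfold S0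
  have h3 : ∀ y : GO c z, ‖((A y) ^ 2)⁻¹‖ = (‖A y‖ ^ 2)⁻¹ := fun y => by
    rw [norm_inv, norm_pow]
  calc ‖∑' y : GO c z, ((A y) ^ 2)⁻¹‖ ≤ ∑' y : GO c z, ‖((A y) ^ 2)⁻¹‖ :=
        norm_tsum_le_tsum_norm (by simpa only [h3] using hs)
    _ = ∑' y : GO c z, (‖A y‖ ^ 2)⁻¹ := tsum_congr h3
    _ ≤ C := hs.tsum_le_of_sum_le h1

theorem diffF (c : ℂ) (m : ℕ) : Differentiable ℂ ((F 2 c)^[m]) := by
  have h : Differentiable ℂ (F 2 c) := by
    unfold F
    fun_prop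
  exact h.iterate m

theorem contBB (c : ℂ) (k : ℕ) : Continuous (BB c k) := by
  induction k with
  | zero => exact continuous_const
  | succ k ih =>
    have h : BB c (k + 1) = fun x => 2 * (F 2 c)^[k] x * BB c k x + 1 := by
      funext x
      rfl
    rw [h]
    exact ((continuous_const.mul (diffF c k).continuous).mul ih).add continuous_const

theorem isOpen_OM : IsOpen OM := by
  have h : OM = {t : ℂ | t.im ≠ 0} ∪ {t : ℂ | -1 < t.re} := rfl
  rw [h]
  exact (isOpen_ne_fun continuous_im continuous_const).union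
    (isOpen_lt continuous_const continuous_re)

theorem nat_mem (n : ℕ) : (n : ℂ) ∈ OM := by
  refine Or.inr ?_
  rw [natCast_re]
  have : (0 : ℝ) ≤ n := Nat.cast_nonneg n
  linarith

theorem der_step {k : ℕ} {c : ℂ} {L : ℕ → ℂ → ℂ} (hd : DifferentiableOn ℂ (L 0) OM)
    (hit : ∀ t ∈ OM, (F 2 c)^[k] (L 0 t) = L 0 (t + 1)) (t : ℂ) (ht : t ∈ OM)
    (ht1 : t + 1 ∈ OM) :
    deriv ((F 2 c)^[k]) (L 0 t) * deriv (L 0) t = deriv (L 0) (t + 1) := by
  have h1 : HasDerivAt (L 0) (deriv (L 0) t) t :=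
    ((hd t ht).differentiableAt (isOpen_OM.mem_nhds ht)).hasDerivAt
  have h2 : HasDerivAt (L 0) (deriv (L 0) (t + 1)) (t + 1) :=
    ((hd _ ht1).differentiableAt (isOpen_OM.mem_nhds ht1)).hasDerivAt
  have h3 : HasDerivAt (fun s => L 0 (s + 1)) (deriv (L 0) (t + 1)) t := h2.comp_add_const t 1
  have h4 : HasDerivAt (fun s => (F 2 c)^[k] (L 0 s))
      (deriv ((F 2 c)^[k]) (L 0 t) * deriv (L 0) t) t :=
    ((diffF c k) (L 0 t)).hasDerivAt.comp t h1
  have h5 : (fun s => L 0 (s + 1)) =ᶠ[𝓝 t] fun s => (F 2 c)^[k] (L 0 s) := by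
    filter_upwards [isOpen_OM.mem_nhds ht] with s hs
    exact (hit s hs).symm
  exact h4.unique (h3.congr_of_eventuallyEq h5.symm)

/-- limits along the natural numbers from the asymptotics -/
theorem lims {k : ℕ} {c : ℂ} {z a : ℕ → ℂ} {L : ℕ → ℂ → ℂ} (h : Ftc k c z a L) :
    Tendsto (fun n : ℕ => (n : ℂ) * (L 0 n - z 0)) atTop (𝓝 (-(1 / a 0))) ∧
    Tendsto (fun n : ℕ => (n : ℂ) ^ 2 * deriv (L 0) n) atTop (𝓝 (1 / a 0)) := by
  refine ⟨Metric.tendsto_atTop.mpr ?_, Metric.tendsto_atTop.mpr ?_⟩ <;>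
  · intro ε hε
    obtain ⟨T, hT, h1⟩ := h.asy 0 (ε / 2) (by linarith)
    refine ⟨⌈T⌉₊, fun n hn => ?_⟩
    have h2 : T ≤ n := (Nat.le_ceil T).trans (by exact_mod_cast hn)
    obtain ⟨h3, h4⟩ := h1 (n : ℂ) (by rw [natCast_re]; exact h2) (by
      rw [natCast_im, natCast_re, abs_zero, mul_zero]
      exact Nat.cast_nonneg n)
    rw [dist_eq_norm]
    first
      | (rw [sub_neg_eq_add]; linarith)
      | linarith

end FRM_

open FRM_ in
theorem p_FRM (h₁ : T_RIT) (h₂ : T_RAS) (h₃ : T_CES) (h₄ : T_XPR) : T_FRM := by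
  intro C k c z a L A hD hA hC
  obtain ⟨hs, hS0⟩ := summ hC
  have X := h₄ k c z a L hD
  have hR := h₁ k c z a L A hD hA hs
  have hw := h₂ k c z a L A hD hA hs
  obtain ⟨hu, hv⟩ := lims hD.ftc
  have ha : a 0 ≠ 0 := hD.prb.ane 0
  have hit : ∀ t ∈ OM, (F 2 c)^[k] (L 0 t) = L 0 (t + 1) := by
    intro t ht
    have h := X.itn 0 1 t ht
    rwa [mul_one, Nat.cast_one] at h
  have hlam : ∀ n : ℕ, deriv (L 0) n ≠ 0 := fun n => X.der 0 n (nat_mem n)
  have hxz : ∀ n : ℕ, L 0 n - z 0 ≠ 0 := fun n => sub_ne_zero.mpr (X.nez 0 0 n (nat_mem n))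
  have hst : ∀ n : ℕ, deriv ((F 2 c)^[k]) (L 0 n) * deriv (L 0) n =
      deriv (L 0) ((n : ℂ) + 1) := by
    intro n
    refine der_step (hD.ftc.dif 0) hit n (nat_mem n) ?_
    have := nat_mem (n + 1)
    rwa [Nat.cast_add, Nat.cast_one] at this
  have hRn : ∀ n : ℕ, RR c z A (L 0 ((n : ℂ) + 1)) =
      deriv ((F 2 c)^[k]) (L 0 n) * RR c z A (L 0 n) - 2 * S0 c z A * BB c k (L 0 n) := by
    intro n
    have h := hR n (Nat.cast_nonneg n)
    rwa [ofReal_natCast] at h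
  have hx : Tendsto (fun n : ℕ => L 0 n) atTop (𝓝 (z 0)) := by
    have h := (X.lim 0).comp tendsto_natCast_atTop_atTop
    refine h.congr fun n => ?_
    simp
  set σ : ℕ → ℂ := fun n => RR c z A (L 0 n) / deriv (L 0) n with hσ
  set β : ℕ → ℂ := fun n => 2 * S0 c z A * BB c k (L 0 n) / deriv (L 0) ((n : ℂ) + 1) with hβ
  have hlam1 : ∀ n : ℕ, deriv (L 0) ((n : ℂ) + 1) ≠ 0 := by
    intro n
    have := hlam (n + 1)
    rwa [Nat.cast_add, Nat.cast_one] at this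
  have hrec : ∀ n, σ (n + 1) = σ n - β n := by
    intro n
    have hF : deriv ((F 2 c)^[k]) (L 0 n) ≠ 0 := by
      intro h0
      have := hst n
      rw [h0, zero_mul] at this
      exact hlam1 n this.symm
    simp only [hσ, hβ, Nat.cast_add, Nat.cast_one]
    rw [hRn n, ← hst n]
    have h0 := hlam n
    field_simp
  have h3 := h₃ σ β (2 * S0 c z A * BB c k (z 0) * a 0) (-1) hrec ?_ ?_
  · have h4 : (3 : ℂ) = 2 * (S0 c z A * (a 0 * BB c k (z 0))) := by
      linear_combination -h3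
    have h5 : (3 : ℝ) = 2 * (‖S0 c z A‖ * ‖a 0 * BB c k (z 0)‖) := by
      have h6 := congrArg norm h4
      rw [norm_mul, norm_mul] at h6
      simpa using h6
    rw [h5]
    have h7 := mul_le_mul_of_nonneg_right hS0 (norm_nonneg (a 0 * BB c k (z 0)))
    linarith
  · have hq : Tendsto (fun n : ℕ => ((n : ℂ) + 1) / n) atTop (𝓝 1) := by
      have h1 : Tendsto (fun n : ℕ => 1 + ((n : ℂ))⁻¹) atTop (𝓝 (1 + 0)) :=
        tendsto_const_nhds.add (tendsto_inv_atTop_nhds_zero_nat (𝕜 := ℂ))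
      rw [add_zero] at h1
      refine h1.congr' ?_
      filter_upwards [eventually_ge_atTop 1] with n hn
      have hn0 : (n : ℂ) ≠ 0 := by exact_mod_cast (by omega : n ≠ 0)
      field_simp
    have hv1 : Tendsto (fun n : ℕ => ((n : ℂ) + 1) ^ 2 * deriv (L 0) ((n : ℂ) + 1)) atTop
        (𝓝 (1 / a 0)) := by
      have h1 := hv.comp (tendsto_add_atTop_nat 1)
      refine h1.congr fun n => ?_
      simp
    have hB : Tendsto (fun n : ℕ => BB c k (L 0 n)) atTop (𝓝 (BB c k (z 0))) :=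
      ((contBB c k).tendsto (z 0)).comp hx
    have h1 := ((tendsto_const_nhds (x := 2 * S0 c z A)).mul hB).mul
      ((hq.pow 2).div hv1 (one_div_ne_zero ha))
    have e1 : 2 * S0 c z A * BB c k (z 0) * (1 ^ 2 / (1 / a 0)) =
        2 * S0 c z A * BB c k (z 0) * a 0 := by
      field_simp
    rw [e1] at h1
    refine h1.congr' ?_
    filter_upwards [eventually_ge_atTop 1] with n hn
    have hn0 : (n : ℂ) ≠ 0 := by exact_mod_cast (by omega : n ≠ 0)
    have hn1 : (n : ℂ) + 1 ≠ 0 := by exact_mod_cast (by omega : n + 1 ≠ 0)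
    have h0 := hlam1 n
    simp only [hβ, Pi.div_apply]
    field_simp
  · have h1 := hw.div (hu.mul hv) (mul_ne_zero (neg_ne_zero.mpr (one_div_ne_zero ha))
      (one_div_ne_zero ha))
    have e1 : ((a 0) ^ 2)⁻¹ / (-(1 / a 0) * (1 / a 0)) = -1 := by
      field_simp
    rw [e1] at h1
    refine h1.congr' ?_
    filter_upwards [eventually_ge_atTop 1] with n hn
    have hn0 : (n : ℂ) ≠ 0 := by exact_mod_cast (by omega : n ≠ 0)
    have h0 := hlam n
    have h2 := hxz n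
    simp only [hσ, Pi.div_apply]
    field_simp

end Pool.Agent.CUSP
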