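import Pool.Agent.CUSP.Targets5
import Pool.Agent.CUSP.P_FRM

set_option autoImplicit false

open Complex Filter Topology Set MeasureTheory
open Pool.Agent.Limb (F)
open Pool.Agent.PLim (Rho)
open Pool.Agent.MEY (Pt)
open Pool.Agent.PSat (Comp Sat)
open Pool.Agent.AEN (vm Hp Exn)
open Pool.Agent.MEZ (T_NCZ T_SECZ)

namespace Pool.Agent.CUSP

open FRM_ in
theorem p_EXF (h₁ : T_RIT) (h₂ : T_RAS) (h₃ : T_CES) (h₄ : T_XPR) : T_EXF := by
  intro C k c z a L A hD hA hC
  obtain ⟨hs, -⟩ := summ hC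
  have X := h₄ k c z a L hD
  have hR := h₁ k c z a L A hD hA hs
  have hw := h₂ k c z a L A hD hA hs
  obtain ⟨hu, hv⟩ := lims hD.ftc
  have ha : a 0 ≠ 0 := hD.prb.ane 0
  have hit : ∀ t ∈ OM, (F 2 c)^[k] (L 0 t) = L 0 (t + 1) := by
    intro t ht
    have h := X.itn 0 1 t ht
    rwa [mul_one, Nat.cast_one] at h
  have hlam : ∀ n : ℕ, deriv (L 0) n ≠ 0 := fun n => X.der 0 n (nat_mem n)
  have hxz : ∀ n : ℕ, L 0 n - z 0 ≠ 0 := fun n => sub_ne_zero.mpr (X.nez 0 0 n (nat_mem n))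
  have hst : ∀ n : ℕ, deriv ((F 2 c)^[k]) (L 0 n) * deriv (L 0) n =
      deriv (L 0) ((n : ℂ) + 1) := by
    intro n
    refine der_step (hD.ftc.dif 0) hit n (nat_mem n) ?_
    have := nat_mem (n + 1)
    rwa [Nat.cast_add, Nat.cast_one] at this
  have hRn : ∀ n : ℕ, RR c z A (L 0 ((n : ℂ) + 1)) =
      deriv ((F 2 c)^[k]) (L 0 n) * RR c z A (L 0 n) - 2 * S0 c z A * BB c k (L 0 n) := by
    intro n
    have h := hR n (Nat.cast_nonneg n)
    rwa [ofReal_natCast] at h
  have hx : Tendsto (fun n : ℕ => L 0 n) atTop (𝓝 (z 0)) := by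
    have h := (X.lim 0).comp tendsto_natCast_atTop_atTop
    refine h.congr fun n => ?_
    simp
  set σ : ℕ → ℂ := fun n => RR c z A (L 0 n) / deriv (L 0) n with hσ
  set β : ℕ → ℂ := fun n => 2 * S0 c z A * BB c k (L 0 n) / deriv (L 0) ((n : ℂ) + 1) with hβ
  have hlam1 : ∀ n : ℕ, deriv (L 0) ((n : ℂ) + 1) ≠ 0 := by
    intro n
    have := hlam (n + 1)
    rwa [Nat.cast_add, Nat.cast_one] at this
  have hrec : ∀ n, σ (n + 1) = σ n - β n := by
    intro n
    have hF : deriv ((F 2 c)^[k]) (L 0 n) ≠ 0 := by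
      intro h0
      have := hst n
      rw [h0, zero_mul] at this
      exact hlam1 n this.symm
    simp only [hσ, hβ, Nat.cast_add, Nat.cast_one]
    rw [hRn n, ← hst n]
    have h0 := hlam n
    field_simp
  have h3 := h₃ σ β (2 * S0 c z A * BB c k (z 0) * a 0) (-1) hrec ?_ ?_
  · have h4 : (3 : ℂ) = 2 * (S0 c z A * (a 0 * BB c k (z 0))) := by
      linear_combination -h3
    have h5 : a 0 * BB c k (z 0) ≠ 0 := by
      intro h0
      rw [h0, mul_zero, mul_zero] at h4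
      exact three_ne_zero h4
    refine ⟨h5, ?_⟩
    have h6 : S0 c z A = 3 / (2 * (a 0 * BB c k (z 0))) := by
      rw [eq_div_iff (mul_ne_zero two_ne_zero h5), h4]
      ring
    have h7 : Summable (fun y : GO c z => ((A y) ^ 2)⁻¹) := by
      refine Summable.of_norm (hs.congr fun y => ?_)
      rw [norm_inv, norm_pow]
    rw [← h6]
    exact h7.hasSum
  · have hq : Tendsto (fun n : ℕ => ((n : ℂ) + 1) / n) atTop (𝓝 1) := by
      have h1 : Tendsto (fun n : ℕ => 1 + ((n : ℂ))⁻¹) atTop (𝓝 (1 + 0)) :=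
        tendsto_const_nhds.add (tendsto_inv_atTop_nhds_zero_nat (𝕜 := ℂ))
      rw [add_zero] at h1
      refine h1.congr' ?_
      filter_upwards [eventually_ge_atTop 1] with n hn
      have hn0 : (n : ℂ) ≠ 0 := by exact_mod_cast (by omega : n ≠ 0)
      field_simp
    have hv1 : Tendsto (fun n : ℕ => ((n : ℂ) + 1) ^ 2 * deriv (L 0) ((n : ℂ) + 1)) atTop
        (𝓝 (1 / a 0)) := by
      have h1 := hv.comp (tendsto_add_atTop_nat 1)
      refine h1.congr fun n => ?_
      simp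
    have hB : Tendsto (fun n : ℕ => BB c k (L 0 n)) atTop (𝓝 (BB c k (z 0))) :=
      ((contBB c k).tendsto (z 0)).comp hx
    have h1 := ((tendsto_const_nhds (x := 2 * S0 c z A)).mul hB).mul
      ((hq.pow 2).div hv1 (one_div_ne_zero ha))
    have e1 : 2 * S0 c z A * BB c k (z 0) * (1 ^ 2 / (1 / a 0)) =
        2 * S0 c z A * BB c k (z 0) * a 0 := by
      field_simp
    rw [e1] at h1
    refine h1.congr' ?_
    filter_upwards [eventually_ge_atTop 1] with n hn
    have hn0 : (n : ℂ) ≠ 0 := by exact_mod_cast (by omega : n ≠ 0)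
    have hn1 : (n : ℂ) + 1 ≠ 0 := by exact_mod_cast (by omega : n + 1 ≠ 0)
    have h0 := hlam1 n
    simp only [hβ, Pi.div_apply]
    field_simp
  · have h1 := hw.div (hu.mul hv) (mul_ne_zero (neg_ne_zero.mpr (one_div_ne_zero ha))
      (one_div_ne_zero ha))
    have e1 : ((a 0) ^ 2)⁻¹ / (-(1 / a 0) * (1 / a 0)) = -1 := by
      field_simp
    rw [e1] at h1
    refine h1.congr' ?_
    filter_upwards [eventually_ge_atTop 1] with n hn
    have hn0 : (n : ℂ) ≠ 0 := by exact_mod_cast (by omega : n ≠ 0)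
    have h0 := hlam n
    have h2 := hxz n
    simp only [hσ, Pi.div_apply]
    field_simp

end Pool.Agent.CUSP
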