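import Pool.Agent.CUSP.Targets3

/-!
# CUSP: the cusp estimate at the points of a cycle of multiplier one (T_P0X)
-/

set_option autoImplicit false

open Complex Filter Topology Set MeasureTheory
open Pool.Agent.Limb (F)
open Pool.Agent.PLim (Rho)
open Pool.Agent.MEY (Pt)
open Pool.Agent.PSat (Comp Sat)
open Pool.Agent.AEN (vm Hp Exn)
open Pool.Agent.MEZ (T_NCZ T_SECZ)

namespace Pool.Agent.CUSP

namespace P0X_

/-- The derivative of the iterate with respect to the parameter. -/
lemma hasBB (c x : ℂ) (j : ℕ) : HasDerivAt (fun c' => (F 2 c')^[j] x) (BB c j x) c := by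
  induction j with
  | zero =>
    simp only [Function.iterate_zero, id_eq, BB]
    exact hasDerivAt_const c x
  | succ j ih =>
    have h1 : (fun c' : ℂ => (F 2 c')^[j + 1] x) = fun c' => ((F 2 c')^[j] x) ^ 2 + c' := by
      funext c'
      rw [Function.iterate_succ_apply']
      rfl
    rw [h1]
    have h2 := (ih.pow 2).add (hasDerivAt_id c)
    have h3 : BB c (j + 1) x = (2 : ℕ) * ((F 2 c)^[j] x) ^ (2 - 1) * BB c j x + 1 := by
      simp only [BB]
      push_cast
      ring
    rw [h3]
    exact h2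

/-- The orbit of `z` is periodic. -/
lemma per {k : ℕ} {c z : ℂ} (h : (F 2 c)^[k] z = z) (l : ℕ) :
    (F 2 c)^[l + k] z = (F 2 c)^[l] z := by
  rw [Function.iterate_add_apply, h]

lemma perMul {k : ℕ} {c z : ℂ} (h : (F 2 c)^[k] z = z) (l m : ℕ) :
    (F 2 c)^[l + m * k] z = (F 2 c)^[l] z := by
  induction m with
  | zero => simp
  | succ m ih =>
    rw [Nat.succ_mul, ← Nat.add_assoc, per h, ih]

lemma dstLt {k : ℕ} {c z : ℂ} (h : (F 2 c)^[k] z = z)
    (hx : ∀ j : ℕ, 0 < j → j < k → (F 2 c)^[j] z ≠ z) {l m : ℕ} (hlm : l < m) (hm : m < k)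
    (he : (F 2 c)^[l] z = (F 2 c)^[m] z) : False := by
  have h1 : (F 2 c)^[(k - m) + l] z = z := by
    rw [Function.iterate_add_apply, he, ← Function.iterate_add_apply]
    have h2 : k - m + m = k := by omega
    rw [h2, h]
  exact hx (k - m + l) (by omega) (by omega) h1

lemma dst {k : ℕ} {c z : ℂ} (h : (F 2 c)^[k] z = z)
    (hx : ∀ j : ℕ, 0 < j → j < k → (F 2 c)^[j] z ≠ z) (l m : ℕ) (hl : l < k) (hm : m < k)
    (he : (F 2 c)^[l] z = (F 2 c)^[m] z) : l = m := by
  rcases lt_trichotomy l m with h1 | h1 | h1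
  · exact (dstLt h hx h1 hm he).elim
  · exact h1
  · exact (dstLt h hx h1 hl he.symm).elim

lemma dstShift {k : ℕ} {c z : ℂ} (hk : 1 ≤ k) (h : (F 2 c)^[k] z = z)
    (hx : ∀ j : ℕ, 0 < j → j < k → (F 2 c)^[j] z ≠ z) (s l m : ℕ) (hl : l < k) (hm : m < k)
    (he : (F 2 c)^[l + s] z = (F 2 c)^[m + s] z) : l = m := by
  refine dst h hx l m hl hm ?_
  have h1 : ∀ i : ℕ, (F 2 c)^[i] z = (F 2 c)^[s * (k - 1)] ((F 2 c)^[i + s] z) := by
    intro i
    rw [← Function.iterate_add_apply]
    have h2 : s * (k - 1) + (i + s) = i + s * k := by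
      obtain ⟨k', rfl⟩ := Nat.exists_eq_add_of_le hk
      simp only [Nat.add_sub_cancel_left]
      ring
    rw [h2, perMul h]
  rw [h1 l, h1 m, he]

/-- The multiplier along the cycle. -/
lemma mulAll (hC : T_CRV) {k : ℕ} {c z : ℂ} (hk : 1 ≤ k) (h : (F 2 c)^[k] z = z)
    (h1 : Rho 2 k c z = 1) (l : ℕ) : Rho 2 k c ((F 2 c)^[l] z) = 1 := by
  have hR : ∀ x, Rho 2 k c x = ∏ i ∈ Finset.range k, (2 * (F 2 c)^[i] x) :=
    fun x => (hC c k x).1
  induction l with
  | zero => simpa using h1
  | succ l ih =>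
    set g : ℕ → ℂ := fun i => 2 * (F 2 c)^[i] ((F 2 c)^[l] z) with hg
    have e0 : Rho 2 k c ((F 2 c)^[l] z) = ∏ i ∈ Finset.range k, g i := hR _
    have e1 : Rho 2 k c ((F 2 c)^[l + 1] z) = ∏ i ∈ Finset.range k, g (i + 1) := by
      rw [hR]
      refine Finset.prod_congr rfl fun i _ => ?_
      simp only [hg]
      rw [← Function.iterate_add_apply, ← Function.iterate_add_apply]
      have h2 : i + (l + 1) = i + 1 + l := by ring
      rw [h2]
    have e2 : g k = g 0 := by
      simp only [hg]
      rw [← Function.iterate_add_apply, Nat.add_comm k l, per h]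
      simp
    have e3 : (∏ i ∈ Finset.range k, g (i + 1)) * g 0 = (∏ i ∈ Finset.range k, g i) * g k := by
      rw [← Finset.prod_range_succ', ← Finset.prod_range_succ]
    have hg0 : g 0 ≠ 0 := by
      intro h0
      have h3 : ∏ i ∈ Finset.range k, g i = 0 :=
        Finset.prod_eq_zero (Finset.mem_range.2 (by omega : 0 < k)) h0
      rw [e0, h3] at ih
      exact zero_ne_one ih
    rw [e2] at e3
    rw [e1, mul_right_cancel₀ hg0 e3, ← e0]
    exact ih

end P0X_

open P0X_ in
theorem p_P0X (h₁ : T_P0) (h₂ : T_ANZ) (h₃ : T_CRV) : T_P0X := by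
  obtain ⟨κ, hκ, hP⟩ := h₁
  refine ⟨κ, hκ, ?_⟩
  intro k c z hk hPt
  have hfix := hPt.fix
  have hexa := hPt.exa
  have hmul := hPt.mul
  have hprb : Prb k c (fun l => (F 2 c)^[l] z)
      (fun l => deriv (deriv ((F 2 c)^[k])) ((F 2 c)^[l] z) / 2) := by
    refine ⟨hk, ?_, ?_, ?_, ?_, ?_, ?_⟩
    · intro l
      exact (Function.iterate_succ_apply' (F 2 c) l z).symm
    · intro l
      exact per hfix l
    · intro l m hl hm he
      exact dst hfix hexa l m hl hm he
    · intro l
      exact mulAll h₃ hk hfix hmul l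
    · intro l
      ring
    · intro l
      have h4 := h₂ k c (fun i => (F 2 c)^[i + l] z) hk
        (by
          intro i
          rw [← Function.iterate_succ_apply' (F 2 c)]
          congr 2
          omega)
        (by
          intro i
          have h5 : i + k + l = (i + l) + k := by ring
          rw [h5, per hfix])
        (by
          intro i j hi hj he
          exact dstShift hk hfix hexa l i j hi hj he)
        (by
          simp only [zero_add]
          exact mulAll h₃ hk hfix hmul l)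
      simp only [zero_add] at h4
      exact div_ne_zero h4 two_ne_zero
  have h6 := hP k c _ _ hprb
  simp only [Function.iterate_zero, id_eq] at h6
  rw [norm_mul] at h6
  rw [(hasBB c z k).deriv]
  exact h6

end Pool.Agent.CUSP
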