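import Pool.Agent.CUSP.Targets5
import Pool.Agent.CUSP.P_P0X

/-!
# CUSP: one constant bounds the index of all cycles of multiplier one (T_IDX)
-/

set_option autoImplicit false

open Complex Filter Topology Set MeasureTheory
open Pool.Agent.Limb (F)
open Pool.Agent.PLim (Rho)
open Pool.Agent.MEY (Pt)
open Pool.Agent.PSat (Comp Sat)
open Pool.Agent.AEN (vm Hp Exn)
open Pool.Agent.MEZ (T_NCZ T_SECZ)

namespace Pool.Agent.CUSP

namespace IDX_

open P0X_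

/-- The structure of a cycle of multiplier one. -/
lemma prb (hA : T_ANZ) (hC : T_CRV) {k : ℕ} {c z : ℂ} (hk : 1 ≤ k) (hPt : Pt 2 k c z 1) :
    Prb k c (fun l => (F 2 c)^[l] z)
      (fun l => deriv (deriv ((F 2 c)^[k])) ((F 2 c)^[l] z) / 2) := by
  have hfix := hPt.fix
  have hexa := hPt.exa
  have hmul := hPt.mul
  refine ⟨hk, ?_, ?_, ?_, ?_, ?_, ?_⟩
  · intro l
    exact (Function.iterate_succ_apply' (F 2 c) l z).symm
  · intro l
    exact per hfix l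
  · intro l m hl hm he
    exact dst hfix hexa l m hl hm he
  · intro l
    exact mulAll hC hk hfix hmul l
  · intro l
    ring
  · intro l
    have h4 := hA k c (fun i => (F 2 c)^[i + l] z) hk
      (by
        intro i
        rw [← Function.iterate_succ_apply' (F 2 c)]
        congr 2
        omega)
      (by
        intro i
        have h5 : i + k + l = (i + l) + k := by ring
        rw [h5, per hfix])
      (by
        intro i j hi hj he
        exact dstShift hk hfix hexa l i j hi hj he)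
      (by
        simp only [zero_add]
        exact mulAll hC hk hfix hmul l)
    simp only [zero_add] at h4
    exact div_ne_zero h4 two_ne_zero

/-- One step back along the cycle. -/
lemma back (hI : T_IDC) (hS : T_AST) {C : ℝ} {k : ℕ} {c : ℂ} {z a : ℕ → ℂ}
    (hP : Prb k c z a) (j : ℕ) (h : ‖G3 k c (z (j + 1))‖ ≤ C * ‖a (j + 1)‖ ^ 2) :
    ‖G3 k c (z j)‖ ≤ C * ‖a j‖ ^ 2 := by
  have h1 := hI k c z a hP j
  have h2 := (hS k c z a hP j).1
  rw [h1, h2, norm_mul, norm_mul, norm_pow]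
  calc ‖2 * z j‖ ^ 2 * ‖G3 k c (z (j + 1))‖
      ≤ ‖2 * z j‖ ^ 2 * (C * ‖a (j + 1)‖ ^ 2) := by gcongr
    _ = C * (‖a (j + 1)‖ * ‖2 * z j‖) ^ 2 := by ring

/-- All the way back along the cycle. -/
lemma backAll (hI : T_IDC) (hS : T_AST) {C : ℝ} {k : ℕ} {c : ℂ} {z a : ℕ → ℂ}
    (hP : Prb k c z a) (j : ℕ) (h : ‖G3 k c (z j)‖ ≤ C * ‖a j‖ ^ 2) :
    ‖G3 k c (z 0)‖ ≤ C * ‖a 0‖ ^ 2 := by
  induction j with
  | zero => exact h
  | succ j ih => exact ih (back hI hS hP j h)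

end IDX_

open IDX_ in
theorem p_IDX (h₁ : T_IDL) (h₂ : T_IDC) (h₃ : T_LMB) (h₄ : T_GBR) (h₅ : T_OBS) (h₆ : T_OMX)
    (h₇ : T_AST) (h₈ : T_ANZ) (h₉ : T_CRV) : T_IDX := by
  obtain ⟨κ, hκ, hL⟩ := h₃
  obtain ⟨C, hC, hG⟩ := h₄
  obtain ⟨C', hC', hI⟩ := h₁ C κ hκ
  refine ⟨C', hC', ?_⟩
  intro k c z0 hk hPt
  have hP := prb h₈ h₉ hk hPt
  set z : ℕ → ℂ := fun l => (F 2 c)^[l] z0 with hz
  set a : ℕ → ℂ := fun l => deriv (deriv ((F 2 c)^[k])) ((F 2 c)^[l] z0) / 2 with ha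
  obtain ⟨m, p, lam, ts, hp, hSy, hts, hl⟩ := h₅ k c z a hP
  have hP' : Prb k c (fun i => z (i + m)) (fun i => a (i + m)) :=
    (h₇ k c z a hP 0).2.2.2.2.2.2 m
  have hSy' : Sy k c ((fun i => z (i + m)) 0) ((fun i => a (i + m)) 0) p lam := by
    simpa using hSy
  obtain ⟨L, hF⟩ := h₆ k c _ _ p lam ts hP' hp hSy' hts hl
  have hD : Dat k c (fun i => z (i + m)) (fun i => a (i + m)) L := ⟨hP', hF⟩
  obtain ⟨l, -, hl1⟩ := hL k c _ _ L hD
  obtain ⟨G, hGb⟩ := hG k c _ _ L hD l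
  have h10 : ‖G3 k c (z (l + m))‖ ≤ C' * ‖a (l + m)‖ ^ 2 :=
    hI k c (z (l + m)) (a (l + m)) _ G hGb (h₇ k c z a hP (l + m)).2.2.2.1
      (hP.mul (l + m)) (hP.sec (l + m)) hl1
  have h11 : ‖G3 k c (z 0)‖ ≤ C' * ‖a 0‖ ^ 2 := backAll h₂ h₇ hP (l + m) h10
  have h12 : ‖G3 k c z0‖ ≤ C' * ‖Gzz k c z0 / 2‖ ^ 2 := h11
  refine h12.trans ?_
  have h13 : ‖Gzz k c z0 / 2‖ ≤ ‖Gzz k c z0‖ := by
    rw [norm_div, Complex.norm_ofNat]
    exact half_le_self (norm_nonneg _)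
  gcongr

end Pool.Agent.CUSP
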