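import Pool.Agent.CUSP.Targets5
import Pool.Agent.CUSP.P_IDX

/-!
# CUSP: the exact formula for the points of multiplier one (T_EXP)
-/

set_option autoImplicit false

open Complex Filter Topology Set MeasureTheory
open Pool.Agent.Limb (F)
open Pool.Agent.PLim (Rho)
open Pool.Agent.MEY (Pt)
open Pool.Agent.PSat (Comp Sat)
open Pool.Agent.AEN (vm Hp Exn)
open Pool.Agent.MEZ (T_NCZ T_SECZ)

namespace Pool.Agent.CUSP

theorem p_EXP (h₁ : T_EXF) (h₂ : T_GOZ) (h₃ : T_OBS) (h₄ : T_OMX) (h₅ : T_ACF) (h₆ : T_SUM)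
    (h₇ : T_ABI) (h₈ : T_AST) (h₉ : T_ANZ) (h₁₀ : T_CRV) : T_EXP := by
  intro k c z0 hk hPt
  have hP := IDX_.prb h₉ h₁₀ hk hPt
  set z : ℕ → ℂ := fun l => (F 2 c)^[l] z0 with hz
  set a : ℕ → ℂ := fun l => deriv (deriv ((F 2 c)^[k])) ((F 2 c)^[l] z0) / 2 with ha
  obtain ⟨m, p, lam, ts, hp, hSy, hts, hl⟩ := h₃ k c z a hP
  have hP' : Prb k c (fun i => z (i + m)) (fun i => a (i + m)) :=
    (h₈ k c z a hP 0).2.2.2.2.2.2 m
  have hSy' : Sy k c ((fun i => z (i + m)) 0) ((fun i => a (i + m)) 0) p lam := by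
    simpa using hSy
  obtain ⟨L, hF⟩ := h₄ k c _ _ p lam ts hP' hp hSy' hts hl
  have hD : Dat k c (fun i => z (i + m)) (fun i => a (i + m)) L := ⟨hP', hF⟩
  obtain ⟨A, hA⟩ := h₅ k c _ _ hP'
  obtain ⟨C, -, hS⟩ := h₆
  obtain ⟨hne, hsum⟩ := h₁ C k c _ _ L A hD hA (fun s hs => hS k c _ _ L A hD hA s hs)
  have e : (fun i => a (i + m)) 0 * BB c k ((fun i => z (i + m)) 0)
      = a 0 * BB c k (z 0) := by
    simpa using h₇ k c z a hP m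
  rw [e] at hne hsum
  obtain ⟨hset, hval⟩ := h₂ k m c z a A hP hA
  have hz0 : z 0 = z0 := rfl
  have ha0 : a 0 = Gzz k c z0 / 2 := rfl
  have hB : BB c k (z 0) = Gc k c z0 := (P0X_.hasBB c z0 k).deriv.symm
  rw [hset] at hsum
  have h10 := hsum.mul_left ((a 0) ^ 2)
  have hane : a 0 ≠ 0 := hP.ane 0
  have hBne : Gc k c z0 ≠ 0 := by
    rw [hB] at hne
    exact right_ne_zero_of_mul hne
  have e1 : (a 0) ^ 2 * (3 / (2 * (a 0 * BB c k (z 0)))) = 3 / 4 * Gzz k c z0 / Gc k c z0 := by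
    rw [hB]
    have h3 : Gzz k c z0 = 2 * a 0 := by
      rw [ha0]
      ring
    rw [h3]
    field_simp
    ring
  rw [e1] at h10
  have e2 : (fun y : {y : ℂ | ∃ n : ℕ, (F 2 c)^[n] y = z 0} => (a 0) ^ 2 * ((A y) ^ 2)⁻¹) =
      fun y : {y : ℂ | ∃ n : ℕ, (F 2 c)^[n] y = z 0} =>
        ((deriv ((F 2 c)^[sInf {n : ℕ | (F 2 c)^[n] y = z 0}]) y) ^ 2)⁻¹ := by
    funext y
    have hn : (F 2 c)^[sInf {n : ℕ | (F 2 c)^[n] (y : ℂ) = z 0}] (y : ℂ) = z 0 :=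
      Nat.sInf_mem (s := {n : ℕ | (F 2 c)^[n] (y : ℂ) = z 0}) y.2
    rw [hval (y : ℂ) _ hn, mul_pow, mul_inv, mul_inv_cancel_left₀ (pow_ne_zero 2 hane)]
  rw [e2] at h10
  exact h10

end Pool.Agent.CUSP
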