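import Pool.Agent.CUSP.Targets5
import Pool.Agent.AEN.P_FIN2

/-!
# CUSP: FINC3, the final statement about all components
-/

set_option autoImplicit false

open Complex Filter Topology Set MeasureTheory
open Pool.Agent.Limb (F)
open Pool.Agent.PLim (Rho)
open Pool.Agent.MEY (Pt)
open Pool.Agent.PSat (Comp Sat)
open Pool.Agent.AEN (vm Hp Exn)
open Pool.Agent.MEZ (T_NCZ T_SECZ)

namespace Pool.Agent.CUSP

namespace FINC3_

lemma sqrt_le {x : ℝ} (hx : 1 ≤ x) : √x ≤ x := by
  rw [Real.sqrt_le_left (by linarith)]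
  nlinarith

lemma diam_bd {U S : Set ℂ} {C : ℝ} (hC : 0 < C) (hU : volume U ≠ ⊤)
    (h : ∀ b : ℝ, 0 < b → volume U ≤ ENNReal.ofReal (b ^ 4) → ∀ x ∈ S, ∀ y ∈ S,
      ‖x - y‖ ≤ C * b ^ 2 * √(1 + |Real.log b|)) :
    Metric.diam S ≤ C * √(volume U).toReal * √(1 + |Real.log (volume U).toReal|) := by
  have ha : 0 ≤ (volume U).toReal := ENNReal.toReal_nonneg
  have hnn : 0 ≤ C * √(volume U).toReal * √(1 + |Real.log (volume U).toReal|) := by
    positivity
  refine Metric.diam_le_of_forall_dist_le hnn fun x hx y hy => ?_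
  rw [dist_eq_norm]
  rcases ha.eq_or_lt with h0 | h0
  · refine le_trans ?_ hnn
    have hv : volume U = 0 := by
      rcases (ENNReal.toReal_eq_zero_iff _).1 h0.symm with h1 | h1
      · exact h1
      · exact absurd h1 hU
    by_contra hcon
    rw [not_le] at hcon
    have hb0 : 0 < min 1 (‖x - y‖ / (4 * C)) := lt_min one_pos (by positivity)
    have hb1 : min 1 (‖x - y‖ / (4 * C)) ≤ 1 := min_le_left _ _
    have hb2 : min 1 (‖x - y‖ / (4 * C)) ≤ ‖x - y‖ / (4 * C) := min_le_right _ _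
    set b := min 1 (‖x - y‖ / (4 * C)) with hb
    have h1 := h b hb0 (by rw [hv]; exact bot_le) x hx y hy
    have h2 := Pool.Agent.AEN.FIN2_.mul_log hb0 hb1
    have h0' := abs_nonneg (Real.log b)
    have h3 : b ^ 2 * √(1 + |Real.log b|) ≤ b * 2 := by
      have h4 : b ^ 2 * √(1 + |Real.log b|) ≤ b ^ 2 * (1 + |Real.log b|) :=
        mul_le_mul_of_nonneg_left (sqrt_le (by linarith)) (by positivity)
      refine h4.trans ?_
      have h5 : b ^ 2 * (1 + |Real.log b|) = b * (b + b * |Real.log b|) := by ring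
      rw [h5]
      refine mul_le_mul_of_nonneg_left ?_ hb0.le
      linarith
    have h5 : ‖x - y‖ ≤ C * 2 * b := by
      calc ‖x - y‖ ≤ C * b ^ 2 * √(1 + |Real.log b|) := h1
        _ = C * (b ^ 2 * √(1 + |Real.log b|)) := by ring
        _ ≤ C * (b * 2) := mul_le_mul_of_nonneg_left h3 hC.le
        _ = _ := by ring
    have h6 : C * 2 * b ≤ C * 2 * (‖x - y‖ / (4 * C)) :=
      mul_le_mul_of_nonneg_left hb2 (by positivity)
    have h7 : C * 2 * (‖x - y‖ / (4 * C)) = ‖x - y‖ / 2 := by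
      field_simp
      norm_num
    linarith
  · set a := (volume U).toReal with haa
    have hs0 : 0 < √a := Real.sqrt_pos.2 h0
    have hb0 : 0 < √(√a) := Real.sqrt_pos.2 hs0
    have hb2 : √(√a) ^ 2 = √a := Real.sq_sqrt hs0.le
    have hb4 : √(√a) ^ 4 = a := by
      have : √(√a) ^ 4 = (√(√a) ^ 2) ^ 2 := by ring
      rw [this, hb2, Real.sq_sqrt h0.le]
    have h1 := h √(√a) hb0 (by
      rw [hb4, haa, ENNReal.ofReal_toReal hU]) x hx y hy
    rw [hb2] at h1
    refine h1.trans (mul_le_mul_of_nonneg_left ?_ (by positivity))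
    have h2 : Real.log √(√a) = Real.log a / 4 := by
      rw [Real.log_sqrt hs0.le, Real.log_sqrt h0.le]
      ring
    rw [h2, abs_div, abs_of_pos (by norm_num : (0 : ℝ) < 4)]
    have := abs_nonneg (Real.log a)
    exact Real.sqrt_le_sqrt (by linarith)

lemma pos_a {D C a X : ℝ} (hD : 0 < D) (ha : 0 ≤ a) (h : D ^ 2 ≤ C * a * X) : 0 < a := by
  rcases ha.eq_or_lt with h0 | h0
  · rw [← h0, mul_zero, zero_mul] at h
    have := pow_pos hD 2
    linarith
  · exact h0

end FINC3_

open FINC3_ in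
theorem p_FINC3 (h₁ : T_FNP3) (h₂ : T_PRA) (h₃ : Pool.Agent.AEN.T_CNT)
    (h₄ : T_LGI3) : T_FINC3 := by
  intro hN hS
  obtain ⟨Cs, hCs, hs⟩ := h₁ hN hS
  obtain ⟨Cp, hCp, hp⟩ := h₂ hN hS
  have hC1 : 1 ≤ max (Cs ^ 2) 1 := le_max_right _ _
  have hsC : Cs ^ 2 ≤ max (Cs ^ 2) 1 := le_max_left _ _
  set C1 := max (Cs ^ 2) 1 with hC1d
  obtain ⟨C', hC', hLG⟩ := h₄ C1 hC1
  have a1000 : ∀ (K : ℕ) (P : ℂ → ℂ), Comp K P →
      (volume (P '' Metric.ball 0 1)).toReal ≤ 1000 := by
    intro K P hc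
    have := h₃ {P '' Metric.ball 0 1} (by
      intro U hU
      rw [Finset.mem_singleton] at hU
      exact ⟨K, P, hc, hU⟩)
    rwa [Finset.sum_singleton] at this
  have b1 : ∀ U : Set ℂ, IsHC U → Metric.diam U ^ 2 ≤
      C1 * (volume U).toReal * (1 + |Real.log (volume U).toReal|) := by
    rintro U ⟨K, P, hc, rfl⟩
    have h5 := diam_bd (U := P '' Metric.ball 0 1) (S := P '' Metric.ball 0 1) (C := Cs)
      hCs (Pool.Agent.AEN.FIN2_.fin_vol hc) (by
        rintro b hb hv _ ⟨v, hv1, rfl⟩ _ ⟨v', hv2, rfl⟩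
        exact hs K P b hc hb hv v hv1 v' hv2)
    have h0 : 0 ≤ (volume (P '' Metric.ball 0 1)).toReal := ENNReal.toReal_nonneg
    have h0' := abs_nonneg (Real.log (volume (P '' Metric.ball 0 1)).toReal)
    have h6 := pow_le_pow_left₀ Metric.diam_nonneg h5 2
    rw [mul_pow, mul_pow, Real.sq_sqrt h0, Real.sq_sqrt (by linarith)] at h6
    refine h6.trans ?_
    gcongr
  have hCC : C1 ≤ max (max C1 (1000 * C')) Cp := (le_max_left _ _).trans (le_max_left _ _)
  have hCC' : 1000 * C' ≤ max (max C1 (1000 * C')) Cp :=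
    (le_max_right _ _).trans (le_max_left _ _)
  have hCCp : Cp ≤ max (max C1 (1000 * C')) Cp := le_max_right _ _
  have hC0 : 0 < max (max C1 (1000 * C')) Cp := lt_of_lt_of_le (by linarith) hCC
  refine ⟨max (max C1 (1000 * C')) Cp, hC0, ?_, ?_, ?_, ?_⟩
  · intro U hU
    refine (b1 U hU).trans ?_
    have := abs_nonneg (Real.log (volume U).toReal)
    gcongr
  · intro s hsat
    have h5 : ∑ U ∈ s, Metric.diam U ^ 2 / (1 + |Real.log (Metric.diam U)|) ≤
        ∑ U ∈ s, C' * (volume U).toReal := by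
      refine Finset.sum_le_sum fun U hU => ?_
      have h6 := b1 U (hsat U hU)
      have h9 : 0 ≤ (volume U).toReal := ENNReal.toReal_nonneg
      rcases (Metric.diam_nonneg (s := U)).eq_or_lt with h0 | h0
      · rw [← h0]
        have : 0 ≤ C' * (volume U).toReal := by positivity
        simpa using this
      · have h7 : (volume U).toReal ≤ 1000 := by
          obtain ⟨K, P, hc, rfl⟩ := hsat U hU
          exact a1000 K P hc
        have h8 := hLG (Metric.diam U) (volume U).toReal h0 (pos_a h0 h9 h6) h7 h6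
        have h10 : 0 < 1 + |Real.log (Metric.diam U)| := by
          have := abs_nonneg (Real.log (Metric.diam U))
          linarith
        rw [div_le_iff₀ h10]
        exact h8
    refine h5.trans ?_
    rw [← Finset.mul_sum]
    have h6 := h₃ s fun U hU => hsat U hU
    have h7 := mul_le_mul_of_nonneg_left h6 (by linarith : 0 ≤ C')
    linarith
  · intro ε hε
    have hX : 0 ≤ 1 + |Real.log ε| := by
      have := abs_nonneg (Real.log ε)
      linarith
    obtain ⟨h5, h6⟩ := Pool.Agent.AEN.FIN2_.count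
      (Fa := {U : Set ℂ | IsHC U ∧ ε ≤ Metric.diam U}) (η := ε ^ 2)
      (K := C' * (1 + |Real.log ε|)) (by positivity) (by positivity) (by
        intro s hs'
        exact h₃ s fun U hU => (hs' U hU).1) (by
        rintro U ⟨hU, hεU⟩
        have h7 := (pow_le_pow_left₀ hε.le hεU 2).trans (b1 U hU)
        have h8 : (volume U).toReal ≤ 1000 := by
          obtain ⟨K, P, hc, rfl⟩ := hU
          exact a1000 K P hc
        have h9 := hLG ε (volume U).toReal hε (pos_a hε ENNReal.toReal_nonneg h7) h8 h7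
        linarith)
    refine ⟨h5, h6.trans ?_⟩
    have h7 : 1000 * (C' * (1 + |Real.log ε|)) / ε ^ 2 =
        (1000 * C') * (1 + |Real.log ε|) / ε ^ 2 := by ring
    rw [h7]
    gcongr
  · intro K P hc
    obtain ⟨r, hr, hv, hw⟩ := hp K P hc
    refine ⟨r, hr, fun v hv1 => (hv v hv1).trans ?_, fun hns v hv1 => (hw hns v hv1).trans ?_⟩
    · gcongr
    · gcongr

end Pool.Agent.CUSP
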