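import Pool.Agent.CUSP.Targets5
import Pool.Agent.AEN.Targets2

/-!
# CUSP: satellite components, third version (FNS3)
-/

set_option autoImplicit false

open Complex Filter Topology Set MeasureTheory
open Pool.Agent.Multibrot (MM)
open Pool.Agent.Limb (F)
open Pool.Agent.PLim (Rho LocFix)
open Pool.Agent.MEX (Exa)
open Pool.Agent.MEY (Pt)
open Pool.Agent.PSat (Comp Sat)
open Pool.Agent.MEZ (T_AEL T_NCZ T_SECZ NCZk SECZk Fz)
open Pool.Agent.AEN (Hp Uv T_MOB T_EXS T_UVP T_KCB T_TAL)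

namespace Pool.Agent.CUSP

namespace FNS3_

lemma ncz_mono {κ κ' : ℝ} (h : κ' ≤ κ) (hN : NCZk κ) : NCZk κ' := by
  intro n k c0 z0 μ δ ε r zf hn hk hL hE hR hδ hF hμ
  have h1 : κ' * δ ^ 2 ≤ κ * δ ^ 2 := mul_le_mul_of_nonneg_right h (sq_nonneg δ)
  exact hN n k c0 z0 μ δ ε r zf hn hk hL hE hR hδ hF (lt_of_lt_of_le hμ h1)

end FNS3_

/-- Satellite components. -/
theorem p_FNS3 (h₁ : T_MOB) (h₂ : T_EXS) (h₃ : T_UVP) (h₄ : T_CHN3) (h₅ : T_KCB)
    (h₆ : T_TAL) : T_FNS3 := by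
  rintro ⟨κ0, hκ0, hN0⟩ ⟨C2, hC2, hS⟩
  obtain ⟨κ, hκ, hκ1, hN⟩ : ∃ κ : ℝ, 0 < κ ∧ κ ≤ 1 ∧ NCZk κ :=
    ⟨min κ0 1, lt_min hκ0 one_pos, min_le_right _ _, FNS3_.ncz_mono (min_le_left _ _) hN0⟩
  obtain ⟨κ1, hκ1d⟩ : ∃ κ1 : ℝ, κ1 = κ / 5000 := ⟨_, rfl⟩
  have hκ1p : 0 < κ1 := by rw [hκ1d]; positivity
  have hκ1l : κ1 ≤ 1 := by rw [hκ1d]; linarith
  obtain ⟨C3, hC3⟩ : ∃ C3 : ℝ, C3 = 33 * C2 := ⟨_, rfl⟩
  have hC3p : 33 ≤ C3 := by rw [hC3]; linarith
  obtain ⟨C4, hC4⟩ : ∃ C4 : ℝ, C4 = 40 / κ1 + C3 := ⟨_, rfl⟩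
  have hq : 0 < 40 / κ1 := by positivity
  have hC4p : 0 < C4 := by rw [hC4]; linarith
  refine ⟨max (32 * C3) (2 * C4), lt_max_of_lt_right (by linarith), ?_⟩
  intro K P b hP hsat hb hvol v hv v' hv'
  obtain ⟨Q, hQ⟩ := h₂ κ hκ hκ1 hN K P hP
  rw [← hκ1d] at hQ
  have hU : Uv κ1 b Q := h₃ κ1 b K P Q hκ1p hκ1l hb hP hQ hvol
  rw [mem_ball_zero_iff] at hv hv'
  obtain ⟨m, hm, hmv, -⟩ := h₁.2.2.1 v hv
  obtain ⟨m', hm', hmv', -⟩ := h₁.2.2.1 v' hv'
  have hPv : P v = Q m := by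
    rw [← hmv]
    exact (hQ.eq m hm).symm
  have hPv' : P v' = Q m' := by
    rw [← hmv']
    exact (hQ.eq m' hm').symm
  rw [hPv, hPv']
  have hlb : 1 ≤ √(1 + |Real.log b|) := by
    rw [Real.one_le_sqrt]
    have := abs_nonneg (Real.log b)
    linarith
  have hb2 : 0 < b ^ 2 := by positivity
  by_cases hb1 : 1 ≤ C3 * b ^ 2
  · have h6 : ‖Q m‖ ≤ 16 := hQ.bd m (by
      change -κ1 < m.re
      linarith)
    have h7 : ‖Q m'‖ ≤ 16 := hQ.bd m' (by
      change -κ1 < m'.re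
      linarith)
    have h8 : ‖Q m - Q m'‖ ≤ 32 := (norm_sub_le _ _).trans (by linarith)
    have h9 : (32 * C3) * b ^ 2 ≤ max (32 * C3) (2 * C4) * b ^ 2 :=
      mul_le_mul_of_nonneg_right (le_max_left _ _) hb2.le
    have h10 : max (32 * C3) (2 * C4) * b ^ 2 * 1 ≤
        max (32 * C3) (2 * C4) * b ^ 2 * √(1 + |Real.log b|) :=
      mul_le_mul_of_nonneg_left hlb (by nlinarith)
    linarith
  · have hb1' : C3 * b ^ 2 < 1 := lt_of_not_ge hb1
    have hblt : b < 1 := by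
      by_contra h
      have h6 : 1 ≤ b := le_of_not_gt h
      have h7 : 1 ≤ b ^ 2 := one_le_pow₀ h6
      have h8 : C3 * 1 ≤ C3 * b ^ 2 := mul_le_mul_of_nonneg_left h7 (by linarith)
      linarith
    obtain ⟨lam, hlam⟩ : ∃ lam : ℝ, lam = Real.log (1 / b) := ⟨_, rfl⟩
    have hlam' : |Real.log b| = lam := by
      rw [hlam, one_div, Real.log_inv, abs_of_nonpos (Real.log_nonpos hb.le hblt.le)]
    have hlamp : 0 ≤ lam := by
      rw [← hlam']
      exact abs_nonneg _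
    rw [hlam'] at hlb ⊢
    obtain ⟨S, hS'⟩ : ∃ S : ℝ, S = √(1 + lam) := ⟨_, rfl⟩
    rw [← hS'] at hlb ⊢
    obtain ⟨M, hM⟩ : ∃ M : ℝ, M = 1 / b ^ 2 := ⟨_, rfl⟩
    have hMC : C3 < M := by
      rw [hM, lt_div_iff₀ hb2]
      exact hb1'
    have hM1 : 1 ≤ M := by linarith
    have hMp : 0 < M := by linarith
    have hMC2 : C2 < M := by linarith
    have hlog : Real.log M = 2 * lam := by
      rw [hM, hlam, one_div, one_div, Real.log_inv, Real.log_inv, Real.log_pow]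
      push_cast
      ring
    have hCM : C3 / M = C3 * b ^ 2 := by
      rw [hM, div_div_eq_mul_div, div_one]
    obtain ⟨k, p, q, r0, z0, hK, hp, hpq, hcop, hlim, hPt⟩ := hsat
    obtain ⟨Z, x, hPar⟩ := h₅ κ1 K k p q P Q r0 z0 hP hκ1p hQ hK hp hpq hcop hlim hPt
    have hk : 1 ≤ k := by
      have h6 : 1 ≤ K := hP.hK
      rcases Nat.eq_zero_or_pos k with h7 | h7
      · rw [h7, zero_mul] at hK
        omega
      · exact h7
    have hdQ : DifferentiableOn ℂ Q Hp := by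
      refine hQ.dQ.mono ?_
      intro y hy
      have hy' : 0 < y.re := hy
      change -κ1 < y.re
      linarith
    have hT := h₆ C2 hC2 hS k p q r0 z0 Q Z x hp hpq hcop hPt hk hdQ hPar
    rw [← hC3] at hT
    have hbl : b ^ 2 ≤ b ^ 2 * S := by
      have h6 : b ^ 2 * 1 ≤ b ^ 2 * S :=
        mul_le_mul_of_nonneg_left (by linarith) hb2.le
      linarith
    have hsq : √(1 + lam + 2 * lam) ≤ 2 * S := by
      rw [hS', show 2 * √(1 + lam) = √(4 * (1 + lam)) by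
        rw [Real.sqrt_mul (by norm_num), show (4 : ℝ) = 2 ^ 2 by norm_num,
          Real.sqrt_sq (by norm_num)]]
      exact Real.sqrt_le_sqrt (by linarith)
    have key : ∀ y : ℂ, 0 < y.re → ‖Q y - r0‖ ≤ C4 * (b ^ 2 * S) := by
      intro y hy
      have h12 : C3 * b ^ 2 ≤ C3 * (b ^ 2 * S) :=
        mul_le_mul_of_nonneg_left hbl (by linarith)
      have h14 : 0 ≤ b ^ 2 * S := by linarith
      by_cases hyM : M ≤ y.re
      · have h6 := hT y (by linarith)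
        have h7 : C3 / y.re ≤ C3 / M := div_le_div_of_nonneg_left (by linarith) hMp hyM
        have h8 : C3 * (b ^ 2 * S) ≤ C4 * (b ^ 2 * S) :=
          mul_le_mul_of_nonneg_right (by rw [hC4]; linarith) h14
        linarith
      · have hyM' : y.re < M := lt_of_not_ge hyM
        have hre : ((M : ℂ) + y.im * I).re = M := by simp
        have h6 := hT ((M : ℂ) + y.im * I) (by rw [hre]; exact hMC2)
        rw [hre, hCM] at h6
        have h7 := h₄ κ1 b Q hU hblt.le y.im y.re M hy hyM'.le hM1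
        rw [Complex.re_add_im, hlog, ← hlam] at h7
        have h8 : ‖Q y - r0‖ ≤ ‖Q y - Q (M + y.im * I)‖ + ‖Q (M + y.im * I) - r0‖ :=
          norm_sub_le_norm_sub_add_norm_sub _ _ _
        have h9 : 20 * b ^ 2 * √(1 + lam + 2 * lam) / κ1 ≤ 40 / κ1 * (b ^ 2 * S) := by
          have h10 : 20 * b ^ 2 * √(1 + lam + 2 * lam) / κ1 ≤ 20 * b ^ 2 * (2 * S) / κ1 := by
            gcongr
          refine h10.trans (le_of_eq ?_)
          ring
        have h11 : C4 * (b ^ 2 * S) = 40 / κ1 * (b ^ 2 * S) + C3 * (b ^ 2 * S) := by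
          rw [hC4]
          ring
        linarith
    have h6 := key m hm
    have h7 := key m' hm'
    rw [norm_sub_rev] at h7
    have h8 : ‖Q m - Q m'‖ ≤ ‖Q m - r0‖ + ‖r0 - Q m'‖ :=
      norm_sub_le_norm_sub_add_norm_sub _ _ _
    have h9 : 2 * C4 * (b ^ 2 * S) ≤
        max (32 * C3) (2 * C4) * (b ^ 2 * S) :=
      mul_le_mul_of_nonneg_right (le_max_right _ _) (by linarith)
    have h10 : max (32 * C3) (2 * C4) * b ^ 2 * S =
      max (32 * C3) (2 * C4) * (b ^ 2 * S) := by ring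
    linarith

end Pool.Agent.CUSP
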