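import Pool.Agent.CUSP.Targets5

set_option autoImplicit false

open Complex Filter Topology Set
open Pool.Agent.Limb (F)
open Pool.Agent.PLim (Rho)

namespace Pool.Agent.CUSP

/-- GOZ: the grand orbit of a shifted cycle, and its coefficients. -/
theorem p_GOZ (hA : T_AST) : T_GOZ := by
  intro k m c z a A hP hAcf
  have hk : 1 ≤ k := hP.hk
  have ast := hA k c z a hP
  have per : ∀ n : ℕ, z (n * k) = z 0 := by
    intro n
    induction n with
    | zero => simp
    | succ n ih => rw [Nat.succ_mul, hP.per, ih]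
  have pera : ∀ n : ℕ, a (n * k) = a 0 := by
    intro n
    induction n with
    | zero => simp
    | succ n ih => rw [Nat.succ_mul, (ast (n * k)).2.1, ih]
  have key : ∀ n : ℕ, n * (k - 1) + n = n * k := by
    intro n
    obtain ⟨j, rfl⟩ : ∃ j, k = j + 1 := ⟨k - 1, by omega⟩
    simp only [Nat.add_sub_cancel]
    ring
  refine ⟨?_, ?_⟩
  · ext y
    constructor
    · rintro ⟨n, l, h⟩
      refine ⟨(l + m) * (k - 1) + n, ?_⟩
      have h' : (F 2 c)^[n] y = z (l + m) := h
      rw [Function.iterate_add_apply, h', (ast (l + m)).2.2.2.2.1, add_comm (l + m), key, per]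
    · rintro ⟨n, h⟩
      refine ⟨n, m * (k - 1), ?_⟩
      show (F 2 c)^[n] y = z (m * (k - 1) + m)
      rw [key, per, h]
  · intro y n h
    have h1 := hAcf y n (m * (k - 1)) (by
      show (F 2 c)^[n] y = z (m * (k - 1) + m)
      rw [key, per, h])
    have h2 : A y = a (m * (k - 1) + m) * deriv ((F 2 c)^[n]) y := h1
    rw [h2, key, pera]

end Pool.Agent.CUSP
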