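import Pool.Agent.CUSP.Targets

/-!
# CUSP, target AST: first properties of a cycle with multiplier one
-/

set_option autoImplicit false

open Complex Filter Topology Set MeasureTheory
open Pool.Agent.Limb (F)
open Pool.Agent.PLim (Rho)
open Pool.Agent.MEY (Pt)
open Pool.Agent.PSat (Comp Sat)
open Pool.Agent.AEN (vm Hp Exn)

namespace Pool.Agent.CUSP

namespace AST_

theorem hasDerivF (c x : ℂ) : HasDerivAt (F 2 c) (2 * x) x := by
  have h2 : HasDerivAt (fun z : ℂ => z ^ 2 + c) (2 * x) x := by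
    have h3 := (hasDerivAt_pow 2 x).add_const c
    simpa using h3
  exact h2

theorem diffIter (c : ℂ) (k : ℕ) : Differentiable ℂ ((F 2 c)^[k]) := by
  induction k with
  | zero => exact differentiable_id
  | succ k ih =>
    rw [Function.iterate_succ']
    have h1 : Differentiable ℂ (F 2 c) := fun x => (hasDerivF c x).differentiableAt
    exact h1.comp ih

theorem diffDeriv (c : ℂ) (k : ℕ) (x : ℂ) :
    HasDerivAt (deriv ((F 2 c)^[k])) (deriv (deriv ((F 2 c)^[k])) x) x := by
  have h := ((diffIter c k).differentiableOn (s := univ)).deriv isOpen_univ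
  exact ((h x (mem_univ x)).differentiableAt univ_mem).hasDerivAt

theorem comm (c : ℂ) (k : ℕ) (x : ℂ) : (F 2 c)^[k] (F 2 c x) = F 2 c ((F 2 c)^[k] x) := by
  rw [← Function.iterate_succ_apply, Function.iterate_succ_apply']

theorem firstEq (c : ℂ) (k : ℕ) (x : ℂ) :
    deriv ((F 2 c)^[k]) (F 2 c x) * (2 * x) =
      2 * ((F 2 c)^[k] x) * deriv ((F 2 c)^[k]) x := by
  have h1 : HasDerivAt (fun y => (F 2 c)^[k] (F 2 c y))
      (deriv ((F 2 c)^[k]) (F 2 c x) * (2 * x)) x :=
    ((diffIter c k (F 2 c x)).hasDerivAt).comp x (hasDerivF c x)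
  have h2 : HasDerivAt (fun y => F 2 c ((F 2 c)^[k] y))
      (2 * ((F 2 c)^[k] x) * deriv ((F 2 c)^[k]) x) x :=
    (hasDerivF c ((F 2 c)^[k] x)).comp x (diffIter c k x).hasDerivAt
  have h3 : (fun y => (F 2 c)^[k] (F 2 c y)) = fun y => F 2 c ((F 2 c)^[k] y) :=
    funext (comm c k)
  rw [h3] at h1
  exact h1.unique h2

theorem secondEq (c : ℂ) (k : ℕ) (x : ℂ) :
    deriv (deriv ((F 2 c)^[k])) (F 2 c x) * (2 * x) * (2 * x) +
      deriv ((F 2 c)^[k]) (F 2 c x) * 2 =
    2 * deriv ((F 2 c)^[k]) x * deriv ((F 2 c)^[k]) x +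
      2 * ((F 2 c)^[k] x) * deriv (deriv ((F 2 c)^[k])) x := by
  have h0 : HasDerivAt (fun y : ℂ => 2 * y) 2 x := by
    simpa using (hasDerivAt_id x).const_mul (2 : ℂ)
  have h1 : HasDerivAt (fun y => deriv ((F 2 c)^[k]) (F 2 c y) * (2 * y))
      (deriv (deriv ((F 2 c)^[k])) (F 2 c x) * (2 * x) * (2 * x) +
        deriv ((F 2 c)^[k]) (F 2 c x) * 2) x :=
    ((diffDeriv c k (F 2 c x)).comp x (hasDerivF c x)).mul h0
  have h2 : HasDerivAt (fun y => 2 * ((F 2 c)^[k] y) * deriv ((F 2 c)^[k]) y)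
      (2 * deriv ((F 2 c)^[k]) x * deriv ((F 2 c)^[k]) x +
        2 * ((F 2 c)^[k] x) * deriv (deriv ((F 2 c)^[k])) x) x :=
    (((diffIter c k x).hasDerivAt).const_mul 2).mul (diffDeriv c k x)
  have h3 : (fun y => deriv ((F 2 c)^[k]) (F 2 c y) * (2 * y)) =
      fun y => 2 * ((F 2 c)^[k] y) * deriv ((F 2 c)^[k]) y := funext (firstEq c k)
  rw [h3] at h1
  exact h1.unique h2

variable {k : ℕ} {c : ℂ} {z a : ℕ → ℂ}

theorem iter (h : Prb k c z a) (l j : ℕ) : (F 2 c)^[j] (z l) = z (l + j) := by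
  induction j with
  | zero => rfl
  | succ j ih => rw [Function.iterate_succ_apply', ih, h.stp, Nat.add_assoc]

theorem derivOne (h : Prb k c z a) (l : ℕ) : deriv ((F 2 c)^[k]) (z l) = 1 := h.mul l

theorem perA (h : Prb k c z a) (l : ℕ) : a (l + k) = a l := by
  have h1 := h.sec (l + k)
  rw [h.per l, h.sec l] at h1
  exact (mul_left_cancel₀ two_ne_zero h1).symm

theorem modZ (h : Prb k c z a) (r q : ℕ) : z (r + k * q) = z r ∧ a (r + k * q) = a r := by
  induction q with
  | zero => exact ⟨rfl, rfl⟩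
  | succ q ih =>
    have h1 : r + k * (q + 1) = r + k * q + k := by ring
    rw [h1, h.per, perA h]
    exact ih

theorem modEq (h : Prb k c z a) (l : ℕ) : z l = z (l % k) ∧ a l = a (l % k) := by
  have h1 := modZ h (l % k) (l / k)
  rw [Nat.mod_add_div] at h1
  exact h1

theorem neZero (h1 : T_CRV) (h : Prb k c z a) (l : ℕ) : z l ≠ 0 := by
  intro h0
  have h2 := (h1 c k (z l)).1
  rw [derivOne h l] at h2
  have hk := h.hk
  have h3 : (∏ i ∈ Finset.range k, (2 * (F 2 c)^[i] (z l))) = 0 := by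
    refine Finset.prod_eq_zero (i := 0) (Finset.mem_range.mpr (by omega)) ?_
    simp [h0]
  rw [h3] at h2
  exact one_ne_zero h2

theorem step (h1 : T_CRV) (h : Prb k c z a) (l : ℕ) : a l = a (l + 1) * (2 * z l) := by
  have h2 := secondEq c k (z l)
  rw [h.stp l, derivOne h l, derivOne h (l + 1), h.sec l, h.sec (l + 1), iter h l k,
    h.per l] at h2
  have h3 := neZero h1 h l
  have h4 : 4 * z l * (a l) = 4 * z l * (a (l + 1) * (2 * z l)) := by linear_combination -h2
  exact mul_left_cancel₀ (mul_ne_zero (by norm_num) h3) h4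

theorem shift (h : Prb k c z a) (s : ℕ) :
    Prb k c (fun i => z (i + s)) (fun i => a (i + s)) where
  hk := h.hk
  stp := fun l => by
    have h1 : l + 1 + s = l + s + 1 := by omega
    show F 2 c (z (l + s)) = z (l + 1 + s)
    rw [h1, h.stp]
  per := fun l => by
    have h1 : l + k + s = l + s + k := by omega
    show z (l + k + s) = z (l + s)
    rw [h1, h.per]
  dst := fun l m hl hm he => by
    have he' : z (l + s) = z (m + s) := he
    rw [(modEq h (l + s)).1, (modEq h (m + s)).1] at he'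
    have hk := h.hk
    have h2 := h.dst _ _ (Nat.mod_lt _ (by omega)) (Nat.mod_lt _ (by omega)) he'
    have h3 : l ≡ m [MOD k] := Nat.ModEq.add_right_cancel' s h2
    have h4 : l % k = m % k := h3
    rwa [Nat.mod_eq_of_lt hl, Nat.mod_eq_of_lt hm] at h4
  mul := fun l => h.mul (l + s)
  sec := fun l => h.sec (l + s)
  ane := fun l => h.ane (l + s)

end AST_

open AST_ in
theorem p_AST (h₁ : T_CRV) : T_AST := by
  intro k c z a h l
  have hk := h.hk
  refine ⟨step h₁ h l, perA h l, neZero h₁ h l, ?_, iter h l, ?_, shift h⟩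
  · rw [iter h l k, h.per l]
  · exact ⟨l % k, Nat.mod_lt _ (by omega), (modEq h l).1, (modEq h l).2⟩

end Pool.Agent.CUSP
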