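import Pool.Agent.CUSP.Targets5
import Pool.Agent.CUSP.P_AST

/-!
# CUSP, target IDC: the third derivative along the cycle
-/

set_option autoImplicit false

open Complex Filter Topology Set MeasureTheory
open Pool.Agent.Limb (F)
open Pool.Agent.PLim (Rho)
open Pool.Agent.MEY (Pt)
open Pool.Agent.PSat (Comp Sat)
open Pool.Agent.AEN (vm Hp Exn Uv)

namespace Pool.Agent.CUSP

namespace IDC_

open AST_

theorem diffDeriv2 (c : ℂ) (k : ℕ) (x : ℂ) :
    HasDerivAt (deriv (deriv ((F 2 c)^[k]))) (deriv (deriv (deriv ((F 2 c)^[k]))) x) x := by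
  have h := (((diffIter c k).differentiableOn (s := univ)).deriv isOpen_univ).deriv isOpen_univ
  exact ((h x (mem_univ x)).differentiableAt univ_mem).hasDerivAt

theorem thirdEq (c : ℂ) (k : ℕ) (x : ℂ) :
    8 * x ^ 3 * deriv (deriv (deriv ((F 2 c)^[k]))) (F 2 c x) +
      12 * x * deriv (deriv ((F 2 c)^[k])) (F 2 c x) =
    6 * deriv ((F 2 c)^[k]) x * deriv (deriv ((F 2 c)^[k])) x +
      2 * ((F 2 c)^[k] x) * deriv (deriv (deriv ((F 2 c)^[k]))) x := by
  have h0 : HasDerivAt (fun y : ℂ => 2 * y) 2 x := by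
    simpa using (hasDerivAt_id x).const_mul (2 : ℂ)
  have h1 : HasDerivAt (fun y => deriv (deriv ((F 2 c)^[k])) (F 2 c y) * (2 * y) * (2 * y) +
      deriv ((F 2 c)^[k]) (F 2 c y) * 2)
      (((deriv (deriv (deriv ((F 2 c)^[k]))) (F 2 c x) * (2 * x)) * (2 * x) +
        deriv (deriv ((F 2 c)^[k])) (F 2 c x) * 2) * (2 * x) +
        deriv (deriv ((F 2 c)^[k])) (F 2 c x) * (2 * x) * 2 +
        deriv (deriv ((F 2 c)^[k])) (F 2 c x) * (2 * x) * 2) x := by
    have e1 : HasDerivAt (fun y => deriv (deriv ((F 2 c)^[k])) (F 2 c y))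
        (deriv (deriv (deriv ((F 2 c)^[k]))) (F 2 c x) * (2 * x)) x :=
      (diffDeriv2 c k (F 2 c x)).comp x (hasDerivF c x)
    have e2 : HasDerivAt (fun y => deriv ((F 2 c)^[k]) (F 2 c y))
        (deriv (deriv ((F 2 c)^[k])) (F 2 c x) * (2 * x)) x :=
      (diffDeriv c k (F 2 c x)).comp x (hasDerivF c x)
    exact ((e1.mul h0).mul h0).add (e2.mul_const 2)
  have h2 : HasDerivAt (fun y => 2 * deriv ((F 2 c)^[k]) y * deriv ((F 2 c)^[k]) y +
      2 * ((F 2 c)^[k] y) * deriv (deriv ((F 2 c)^[k])) y)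
      (2 * deriv (deriv ((F 2 c)^[k])) x * deriv ((F 2 c)^[k]) x +
        2 * deriv ((F 2 c)^[k]) x * deriv (deriv ((F 2 c)^[k])) x +
        (2 * deriv ((F 2 c)^[k]) x * deriv (deriv ((F 2 c)^[k])) x +
        2 * ((F 2 c)^[k] x) * deriv (deriv (deriv ((F 2 c)^[k]))) x)) x := by
    have e1 : HasDerivAt (fun y => 2 * deriv ((F 2 c)^[k]) y)
        (2 * deriv (deriv ((F 2 c)^[k])) x) x := (diffDeriv c k x).const_mul 2
    have e2 : HasDerivAt (fun y => 2 * ((F 2 c)^[k] y))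
        (2 * deriv ((F 2 c)^[k]) x) x := ((diffIter c k x).hasDerivAt).const_mul 2
    exact (e1.mul (diffDeriv c k x)).add (e2.mul (diffDeriv2 c k x))
  have h3 : (fun y => deriv (deriv ((F 2 c)^[k])) (F 2 c y) * (2 * y) * (2 * y) +
      deriv ((F 2 c)^[k]) (F 2 c y) * 2) = fun y => 2 * deriv ((F 2 c)^[k]) y *
      deriv ((F 2 c)^[k]) y + 2 * ((F 2 c)^[k] y) * deriv (deriv ((F 2 c)^[k])) y :=
    funext (secondEq c k)
  rw [h3] at h1
  have h4 := h1.unique h2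
  linear_combination h4

end IDC_

open IDC_ in
theorem p_IDC (h₁ : T_AST) : T_IDC := by
  intro k c z a hP l
  obtain ⟨h2, -, h4, h5, -⟩ := h₁ k c z a hP l
  have h6 := thirdEq c k (z l)
  have h7 : deriv ((F 2 c)^[k]) (z l) = 1 := hP.mul l
  rw [h7, h5, hP.stp l, hP.sec l, hP.sec (l + 1)] at h6
  show deriv (deriv (deriv ((F 2 c)^[k]))) (z l) =
    (2 * z l) ^ 2 * deriv (deriv (deriv ((F 2 c)^[k]))) (z (l + 1))
  have h8 : 2 * z l * deriv (deriv (deriv ((F 2 c)^[k]))) (z l) =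
      2 * z l * ((2 * z l) ^ 2 * deriv (deriv (deriv ((F 2 c)^[k]))) (z (l + 1))) := by
    linear_combination -h6 - 12 * h2
  exact mul_left_cancel₀ (mul_ne_zero (by norm_num) h4) h8

end Pool.Agent.CUSP
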