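import Pool.Agent.CUSP.Targets5
import Pool.Agent.AEN.P_LGI

/-!
# CUSP: LGI3, inversion of the inequality
-/

set_option autoImplicit false

namespace Pool.Agent.CUSP

/-- LGI3. -/
theorem p_LGI3 : T_LGI3 := by
  intro C hC
  have hC0 : 0 < C := by linarith
  have hl : 0 ≤ Real.log (180 * C) := Real.log_nonneg (by linarith)
  obtain ⟨C1, hC1⟩ : ∃ C1 : ℝ, C1 = 21 + 4 * Real.log (180 * C) := ⟨_, rfl⟩
  have hC1' : 21 ≤ C1 := by rw [hC1]; linarith
  refine ⟨C * C1, by nlinarith, ?_⟩
  intro ε a hε ha ha1 h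
  obtain ⟨x, hx⟩ : ∃ x : ℝ, x = √(√a) := ⟨_, rfl⟩
  have hsa : 0 < √a := Real.sqrt_pos.2 ha
  have hx0 : 0 < x := by rw [hx]; exact Real.sqrt_pos.2 hsa
  have hx2 : x ^ 2 = √a := by rw [hx]; exact Real.sq_sqrt hsa.le
  have hx4 : x ^ 4 = a := by
    have : x ^ 4 = (x ^ 2) ^ 2 := by ring
    rw [this, hx2, Real.sq_sqrt ha.le]
  have hx6 : x ≤ 6 := by
    by_contra hc
    push Not at hc
    have h1 : (6 : ℝ) ^ 4 < x ^ 4 := pow_lt_pow_left₀ hc (by norm_num) (by norm_num)
    rw [hx4] at h1
    norm_num at h1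
    linarith
  have hlog : Real.log a = 4 * Real.log x := by
    rw [← hx4, Real.log_pow]
    norm_num
  have habs : |Real.log a| = 4 * |Real.log x| := by
    rw [hlog, abs_mul]
    norm_num
  have hb := AEN.LGI_.log_bound x hx0 hx6
  have h2 : |Real.log a| ≤ 20 + 4 * Real.log (180 * C) + 8 * |Real.log ε| := by
    rw [habs]
    rcases le_total x 1 with h3 | h3
    · have h0 : C * x ^ 3 ≤ C * x := by
        have : x ^ 3 ≤ x := by
          calc x ^ 3 ≤ x ^ 1 := pow_le_pow_of_le_one hx0.le h3 (by norm_num)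
            _ = x := pow_one x
        gcongr
      have h1 : ε ^ 2 ≤ 180 * C * x := by
        calc ε ^ 2 ≤ C * a * (1 + |Real.log a|) := h
          _ = C * x ^ 3 * ((1 + 4 * |Real.log x|) * x) := by rw [habs, ← hx4]; ring
          _ ≤ C * x ^ 3 * 180 := by gcongr
          _ ≤ C * x * 180 := by gcongr
          _ = 180 * C * x := by ring
      have h4 : 2 * Real.log ε ≤ Real.log (180 * C) + Real.log x := by
        rw [← Real.log_mul (by positivity) hx0.ne']
        have h5 := Real.log_le_log (by positivity) h1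
        rw [Real.log_pow] at h5
        norm_num at h5
        exact h5
      rw [abs_of_nonpos (Real.log_nonpos hx0.le h3)]
      have h5 := neg_abs_le (Real.log ε)
      linarith
    · rw [abs_of_nonneg (Real.log_nonneg h3)]
      have h4 : Real.log x ≤ x - 1 := Real.log_le_sub_one_of_pos hx0
      have h5 := abs_nonneg (Real.log ε)
      linarith
  have he := abs_nonneg (Real.log ε)
  have h3 : 1 + |Real.log a| ≤ C1 * (1 + |Real.log ε|) := by
    calc 1 + |Real.log a| ≤ 21 + 4 * Real.log (180 * C) + 8 * |Real.log ε| := by linarith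
      _ ≤ C1 * (1 + |Real.log ε|) := by
        rw [hC1]
        nlinarith
  calc ε ^ 2 ≤ C * a * (1 + |Real.log a|) := h
    _ ≤ C * a * (C1 * (1 + |Real.log ε|)) := by gcongr
    _ = C * C1 * a * (1 + |Real.log ε|) := by ring

end Pool.Agent.CUSP
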