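import Pool.Agent.CUSP.Targets5
import Pool.Agent.CUSP.P_PRT

/-!
# CUSP, target PRA: the estimate at the root, for all components
-/

set_option autoImplicit false

open Complex Filter Topology Set MeasureTheory
open Pool.Agent.Limb (F)
open Pool.Agent.PLim (Rho)
open Pool.Agent.MEX (Exa)
open Pool.Agent.MEY (Pt)
open Pool.Agent.PSat (Comp Sat)
open Pool.Agent.AEN (vm Hp Exn)
open Pool.Agent.MEZ (T_NCZ T_SECZ NCZk SECZk Fz)

namespace Pool.Agent.CUSP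

namespace PRA_

/-- Points of the disc in the coordinate of the half plane. -/
lemma coord (hM : Pool.Agent.AEN.T_MOB) {κ : ℝ} {P Q : ℂ → ℂ} (hQ : Exn κ P Q) {v : ℂ}
    (hv : v ∈ Metric.ball (0 : ℂ) 1) :
    ∃ m ∈ Hp, P v = Q m ∧ 2 * m.re * ‖1 - v‖ ^ 2 = 1 - ‖v‖ ^ 2 := by
  rw [mem_ball_zero_iff] at hv
  obtain ⟨m, hm, hmv, hm2⟩ := hM.2.2.1 v hv
  have hv1 : 1 - v ≠ 0 := by
    intro h
    have h2 : v = 1 := (sub_eq_zero.1 h).symm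
    rw [h2, norm_one] at hv
    exact lt_irrefl _ hv
  refine ⟨m, hm, ?_, PRT_.re_coord hv1 hm2⟩
  rw [← hmv]
  exact (hQ.eq m hm).symm

lemma bdQ {κ : ℝ} {P Q : ℂ → ℂ} (hκ : 0 < κ) (hQ : Exn κ P Q) {m : ℂ} (hm : m ∈ Hp) :
    ‖Q m‖ ≤ 16 := by
  refine hQ.bd m ?_
  have hm' : 0 < m.re := hm
  change -κ < m.re
  linarith

lemma root_le (hM : Pool.Agent.AEN.T_MOB) {κ : ℝ} {P Q : ℂ → ℂ} (hκ : 0 < κ) (hQ : Exn κ P Q)
    {r : ℂ} (hlim : Tendsto P (𝓝[Metric.ball 0 1] 1) (𝓝 r)) : ‖r‖ ≤ 16 := by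
  have hne : (𝓝[Metric.ball (0 : ℂ) 1] (1 : ℂ)).NeBot := by
    rw [← mem_closure_iff_nhdsWithin_neBot, closure_ball (0 : ℂ) one_ne_zero,
      mem_closedBall_zero_iff, norm_one]
  refine le_of_tendsto hlim.norm (eventually_nhdsWithin_of_forall fun v hv => ?_)
  obtain ⟨m, hm, hPv, -⟩ := coord hM hQ hv
  rw [hPv]
  exact bdQ hκ hQ hm

lemma second (hM : Pool.Agent.AEN.T_MOB) {κ B : ℝ} {P Q : ℂ → ℂ} (hQ : Exn κ P Q) {r : ℂ}
    (hB : ∀ m ∈ Hp, ‖Q m - r‖ * m.re ≤ B) {v : ℂ} (hv : v ∈ Metric.ball (0 : ℂ) 1) :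
    ‖P v - r‖ * (1 - ‖v‖ ^ 2) ≤ 2 * B * ‖1 - v‖ ^ 2 := by
  obtain ⟨m, hm, hPv, hre⟩ := coord hM hQ hv
  rw [hPv, ← hre]
  calc ‖Q m - r‖ * (2 * m.re * ‖1 - v‖ ^ 2) = (‖Q m - r‖ * m.re) * (2 * ‖1 - v‖ ^ 2) := by ring
    _ ≤ B * (2 * ‖1 - v‖ ^ 2) := mul_le_mul_of_nonneg_right (hB m hm) (by positivity)
    _ = 2 * B * ‖1 - v‖ ^ 2 := by ring

end PRA_

/-- The target `T_PRA`. -/
theorem p_PRA (h₁ : T_RTE) (h₂ : T_DIK) (h₃ : T_PTK) (h₄ : Pool.Agent.AEN.T_MOB)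
    (h₅ : Pool.Agent.AEN.T_EXS) (h₆ : Pool.Agent.AEN.T_KCB) (h₇ : Pool.Agent.AEN.T_TAL) :
    T_PRA := by
  rintro ⟨κ0, hκ0, hN0⟩ ⟨C2, hC2, hS⟩
  obtain ⟨κ, hκ, hκ1, hN⟩ : ∃ κ : ℝ, 0 < κ ∧ κ ≤ 1 ∧ NCZk κ :=
    ⟨min κ0 1, lt_min hκ0 one_pos, min_le_right _ _, PRT_.ncz_mono (min_le_left _ _) hN0⟩
  obtain ⟨C1, hC1, hPTK⟩ := h₃
  refine ⟨2 * (33 * C2 + C1 + 32) + 4 * C1, by linarith, ?_⟩
  intro K P hP
  obtain ⟨Q, hQ⟩ := h₅ κ hκ hκ1 hN K P hP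
  have hκ' : 0 < κ / 5000 := by positivity
  have hlast : ∀ v : ℂ, 2 * (33 * C2 + C1 + 32) * ‖1 - v‖ ^ 2 ≤
      (2 * (33 * C2 + C1 + 32) + 4 * C1) * ‖1 - v‖ ^ 2 := fun v =>
    mul_le_mul_of_nonneg_right (by linarith) (sq_nonneg _)
  by_cases hsat : Sat K P
  · obtain ⟨k, p, q, r0, z0, hK, hp, hpq, hcop, hlim, hPt⟩ := id hsat
    obtain ⟨Z, x, hPar⟩ := h₆ (κ / 5000) K k p q P Q r0 z0 hP hκ' hQ hK hp hpq hcop hlim hPt
    have hk : 1 ≤ k := by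
      have h6 : 1 ≤ K := hP.hK
      rcases Nat.eq_zero_or_pos k with h7 | h7
      · rw [h7, zero_mul] at hK
        omega
      · exact h7
    have hdQ : DifferentiableOn ℂ Q Hp := by
      refine hQ.dQ.mono ?_
      intro y hy
      have hy' : 0 < y.re := hy
      change -(κ / 5000) < y.re
      linarith
    have hT := h₇ C2 hC2 hS k p q r0 z0 Q Z x hp hpq hcop hPt hk hdQ hPar
    have hr := PRA_.root_le h₄ hκ' hQ hlim
    refine ⟨r0, hlim, fun v hv => ?_, fun h => absurd hsat h⟩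
    refine (PRA_.second h₄ (B := 33 * C2 + C1 + 32) hQ (fun m hm => ?_) hv).trans (hlast v)
    have hm' : 0 < m.re := hm
    by_cases h8 : C2 < m.re
    · have h9 := hT m h8
      rw [le_div_iff₀ hm'] at h9
      linarith
    · have h9 : ‖Q m - r0‖ ≤ 32 := (norm_sub_le _ _).trans (by linarith [PRA_.bdQ hκ' hQ hm])
      have h10 : ‖Q m - r0‖ * m.re ≤ 32 * C2 :=
        mul_le_mul h9 (not_lt.1 h8) hm'.le (by norm_num)
      linarith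
  · obtain ⟨Z, r0, z0, hR⟩ := h₁ (κ / 5000) K P Q hκ' hP hQ
    obtain ⟨hlim, hor⟩ := h₂ (κ / 5000) K P Q Z r0 z0 hκ' hP hQ hR
    have hpt : Pt 2 K r0 z0 1 := hor.resolve_left hsat
    have hb := hPTK (κ / 5000) K P Q Z r0 z0 hκ' hP hQ hR hpt
    have hr := PRA_.root_le h₄ hκ' hQ hlim
    refine ⟨r0, hlim, fun v hv => ?_, fun _ v hv => ?_⟩
    · refine (PRA_.second h₄ (B := 33 * C2 + C1 + 32) hQ (fun m hm => ?_) hv).trans (hlast v)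
      have hm' : 0 < m.re := hm
      by_cases h8 : 1 ≤ m.re
      · have h9 := hb m hm
        rw [le_div_iff₀ (by positivity)] at h9
        have h10 : ‖Q m - r0‖ * m.re * 1 ≤ ‖Q m - r0‖ * m.re * m.re :=
          mul_le_mul_of_nonneg_left h8 (mul_nonneg (norm_nonneg _) hm'.le)
        have h11 : ‖Q m - r0‖ * m.re ^ 2 = ‖Q m - r0‖ * m.re * m.re := by ring
        linarith
      · have h9 : ‖Q m - r0‖ ≤ 32 := (norm_sub_le _ _).trans (by linarith [PRA_.bdQ hκ' hQ hm])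
        have h10 : ‖Q m - r0‖ * m.re ≤ 32 * 1 :=
          mul_le_mul h9 (not_le.1 h8).le hm'.le (by norm_num)
        linarith
    · obtain ⟨m, hm, hPv, hre⟩ := PRA_.coord h₄ hQ hv
      have hm' : 0 < m.re := hm
      have h9 := hb m hm
      rw [le_div_iff₀ (by positivity)] at h9
      rw [hPv, ← hre]
      have e : ‖Q m - r0‖ * (2 * m.re * ‖1 - v‖ ^ 2) ^ 2 =
          (‖Q m - r0‖ * m.re ^ 2) * (4 * ‖1 - v‖ ^ 4) := by ring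
      rw [e]
      calc (‖Q m - r0‖ * m.re ^ 2) * (4 * ‖1 - v‖ ^ 4) ≤ C1 * (4 * ‖1 - v‖ ^ 4) :=
            mul_le_mul_of_nonneg_right h9 (by positivity)
        _ = 4 * C1 * ‖1 - v‖ ^ 4 := by ring
        _ ≤ (2 * (33 * C2 + C1 + 32) + 4 * C1) * ‖1 - v‖ ^ 4 :=
            mul_le_mul_of_nonneg_right (by linarith) (by positivity)

end Pool.Agent.CUSP
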