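import Pool.Agent.CUSP.All
import Pool.Agent.CUSP.P_DSV
import Pool.Agent.CUSP.P_DST
import Pool.Agent.CUSP.P_DYA
import Pool.Agent.CUSP.P_CHN3
import Pool.Agent.CUSP.P_FNS3
import Pool.Agent.CUSP.P_FNP3
import Pool.Agent.CUSP.P_LGI3
import Pool.Agent.CUSP.P_PRA
import Pool.Agent.CUSP.P_FINC3
import Pool.Agent.CUSP.P_CSZ
import Pool.Agent.CUSP.P_EXF
import Pool.Agent.CUSP.P_GOZ
import Pool.Agent.CUSP.P_EXP
import Pool.Agent.CUSP.P_IDL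
import Pool.Agent.CUSP.P_IDC
import Pool.Agent.CUSP.P_IDX

/-!
# CUSP: the final form of the statements, without hypotheses
-/

set_option autoImplicit false

namespace Pool.Agent.CUSP

theorem a_DSV : T_DSV := p_DSV
theorem a_DST : T_DST := p_DST Pool.Agent.AEN.a_MVA
theorem a_DYA : T_DYA := p_DYA a_DSV a_DST
theorem a_CHN3 : T_CHN3 := p_CHN3 a_DYA Pool.Agent.AEN.a_NBD2
theorem a_FNS3 : T_FNS3 := p_FNS3 Pool.Agent.AEN.a_MOB Pool.Agent.AEN.a_EXS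
  Pool.Agent.AEN.a_UVP a_CHN3 Pool.Agent.AEN.a_KCB Pool.Agent.AEN.a_TAL
theorem a_FNP3 : T_FNP3 := p_FNP3 b_RTE b_DIK a_PTK Pool.Agent.AEN.a_MOB
  Pool.Agent.AEN.a_EXS Pool.Agent.AEN.a_UVP a_CHN3 a_FNS3
theorem a_LGI3 : T_LGI3 := p_LGI3
theorem a_PRA : T_PRA := p_PRA b_RTE b_DIK a_PTK Pool.Agent.AEN.a_MOB
  Pool.Agent.AEN.a_EXS Pool.Agent.AEN.a_KCB Pool.Agent.AEN.a_TAL
theorem a_FINC3 : T_FINC3 := p_FINC3 a_FNP3 a_PRA Pool.Agent.AEN.a_CNT a_LGI3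
theorem a_CSZ : T_CSZ := p_CSZ b_RTE b_DIK b_CTG a_P0X Pool.Agent.AEN.a_MOB
  Pool.Agent.AEN.a_EXS
theorem a_EXF : T_EXF := p_EXF a_RIT a_RAS a_CES a_XPR
theorem a_GOZ : T_GOZ := p_GOZ a_AST
theorem a_EXP : T_EXP := p_EXP a_EXF a_GOZ a_OBS a_OMX a_ACF a_SUM a_ABI a_AST a_ANZ a_CRV
theorem a_IDL : T_IDL := p_IDL
theorem a_IDC : T_IDC := p_IDC a_AST
theorem a_IDX : T_IDX := p_IDX a_IDL a_IDC a_LMB a_GBR a_OBS a_OMX a_AST a_ANZ a_CRV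

end Pool.Agent.CUSP
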