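import Pool.Agent.CUSP.Targets6
import Pool.Agent.CUSP.P_CSZ

/-!
# CUSP: CS3, the second order term of the cusp (helper61)
-/

set_option autoImplicit false

open Complex Filter Topology Set MeasureTheory
open Pool.Agent.Limb (F)
open Pool.Agent.PLim (Rho)
open Pool.Agent.MEY (Pt)
open Pool.Agent.PSat (Comp Sat)
open Pool.Agent.AEN (vm Hp Exn Uv)
open Pool.Agent.MEZ (T_NCZ T_SECZ NCZk)

namespace Pool.Agent.CUSP

open CSZ_ in
/-- CS3. -/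
theorem p_CS3 (g₁ : T_CT2) (g₂ : T_CT3) (g₃ : T_IN3) (h₁ : T_RTE) (h₂ : T_DIK) (h₃ : T_CTG)
    (h₄ : T_P0X) (h₅ : Pool.Agent.AEN.T_MOB) (h₆ : Pool.Agent.AEN.T_EXS) : T_CS3 := by
  rintro ⟨κ0, hκ0, hN0⟩ K P hP hsat
  obtain ⟨κ, hκ, hκ1, hN⟩ : ∃ κ : ℝ, 0 < κ ∧ κ ≤ 1 ∧ NCZk κ :=
    ⟨min κ0 1, lt_min hκ0 one_pos, min_le_right _ _, PRT_.ncz_mono (min_le_left _ _) hN0⟩
  obtain ⟨Q, hQ⟩ := h₆ κ hκ hκ1 hN K P hP
  have hκ' : 0 < κ / 5000 := by positivity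
  obtain ⟨Z, r0, z0, hR⟩ := h₁ (κ / 5000) K P Q hκ' hP hQ
  obtain ⟨hlim, hor⟩ := h₂ (κ / 5000) K P Q Z r0 z0 hκ' hP hQ hR
  have hpt : Pt 2 K r0 z0 1 := hor.resolve_left hsat
  have hne : Gzz K r0 z0 * Gc K r0 z0 ≠ 0 := by
    obtain ⟨k1, hk1, hk⟩ := h₄
    have h := hk K r0 z0 hP.hK hpt
    intro h0
    have h2 : ‖deriv (deriv ((F 2 r0)^[K])) z0 / 2‖ *
        ‖deriv (fun c' => (F 2 c')^[K] z0) r0‖ = ‖Gzz K r0 z0 * Gc K r0 z0‖ / 2 := by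
      unfold Gzz Gc
      rw [norm_div, norm_mul]
      norm_num
      ring
    rw [h2, h0, norm_zero, zero_div] at h
    linarith
  have hdQ : DifferentiableOn ℂ Q Hp := by
    refine hQ.dQ.mono fun m hm => ?_
    have : 0 < m.re := hm
    show -(κ / 5000) < m.re
    linarith
  obtain ⟨-, -, c1, c2, c3, -⟩ := h₃ K
  have hin : ∀ᶠ v : ℂ in 𝓝[Metric.ball 0 1] 1, ‖v‖ < 1 := by
    filter_upwards [self_mem_nhdsWithin] with v hv
    exact mem_ball_zero_iff.1 hv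
  have hlimQ : Tendsto (fun v => Q (Mv v)) (𝓝[Metric.ball 0 1] 1) (𝓝 r0) := by
    refine hlim.congr' ?_
    filter_upwards [hin] with v hv
    exact eq_P h₅ hQ hv
  have hlimZ : Tendsto (fun v => Z (Mv v)) (𝓝[Metric.ball 0 1] 1) (𝓝 z0) := by
    rw [Metric.tendsto_nhds]
    intro ε hε
    obtain ⟨B, hB⟩ := hR.lim (ε / 2) (by positivity)
    filter_upwards [hin, Mv_large B] with v hv hvB
    rw [dist_eq_norm]
    have h := (hB _ (Mv_mem h₅ hv).1 hvB).2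
    linarith
  have l4 : Tendsto (fun v => ((Q (Mv v), Z (Mv v)) : ℂ × ℂ)) (𝓝[Metric.ball 0 1] 1)
      (𝓝 (r0, z0)) := hlimQ.prodMk_nhds hlimZ
  have m1 : Tendsto (fun v => Gc K (Q (Mv v)) (Z (Mv v))) (𝓝[Metric.ball 0 1] 1)
      (𝓝 (Gc K r0 z0)) := (c1.tendsto (r0, z0)).comp l4
  have m2 : Tendsto (fun v => Gzz K (Q (Mv v)) (Z (Mv v))) (𝓝[Metric.ball 0 1] 1)
      (𝓝 (Gzz K r0 z0)) := (c2.tendsto (r0, z0)).comp l4
  have m3 : Tendsto (fun v => Gzc K (Q (Mv v)) (Z (Mv v))) (𝓝[Metric.ball 0 1] 1)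
      (𝓝 (Gzc K r0 z0)) := (c3.tendsto (r0, z0)).comp l4
  have m4 : Tendsto (fun v : ℂ => 1 - v) (𝓝[Metric.ball 0 1] 1) (𝓝 0) := by
    have h2 : Tendsto (fun v : ℂ => 1 - v) (𝓝 1) (𝓝 (1 - 1)) :=
      (continuous_const.sub continuous_id).tendsto _
    rw [sub_self] at h2
    exact h2.mono_left nhdsWithin_le_nhds
  have hD : Tendsto (fun v => (1 - v) * Gzc K (Q (Mv v)) (Z (Mv v)) +
      Gzz K (Q (Mv v)) (Z (Mv v)) * Gc K (Q (Mv v)) (Z (Mv v))) (𝓝[Metric.ball 0 1] 1)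
      (𝓝 (Gzz K r0 z0 * Gc K r0 z0)) := by
    have h := (m4.mul m3).add (m2.mul m1)
    simpa using h
  have hfirst : Tendsto (fun v => deriv P v / (1 - v)) (𝓝[Metric.ball 0 1] 1)
      (𝓝 (1 / (Gzz K r0 z0 * Gc K r0 z0))) := by
    have h := (tendsto_const_nhds (x := (1 : ℂ))).div hD hne
    refine h.congr' ?_
    filter_upwards [hin] with v hv
    exact (div_eq h₅ h₃ hdQ hQ hR hv).symm
  have hz : Gzz K r0 z0 ≠ 0 := left_ne_zero_of_mul hne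
  have hc : Gc K r0 z0 ≠ 0 := right_ne_zero_of_mul hne
  have hv1 : ∀ᶠ v : ℂ in 𝓝[Metric.ball 0 1] 1, v ≠ 1 := by
    filter_upwards [hin] with v hv h
    exact ne_one hv (by rw [h, sub_self])
  have hC0 : Tendsto (fun v => (Q (Mv v) - r0) / (v - 1)) (𝓝[Metric.ball 0 1] 1) (𝓝 0) := by
    have h := (second hP.dP hlim hfirst).mul m4.neg
    rw [neg_zero, mul_zero] at h
    refine h.congr' ?_
    filter_upwards [hin] with v hv
    have hv1 := ne_one hv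
    have hv2 : v - 1 ≠ 0 := by
      intro h
      exact hv1 (by linear_combination -h)
    rw [← eq_P h₅ hQ hv]
    field_simp
    ring
  have hRho : Rho 2 K r0 z0 = 1 := hpt.mul
  have hRv : ∀ᶠ v : ℂ in 𝓝[Metric.ball 0 1] 1, Rho 2 K (Q (Mv v)) (Z (Mv v)) = v := by
    filter_upwards [hin] with v hv
    obtain ⟨k1, k2⟩ := Mv_mem h₅ hv
    have h := (hR.pt _ k1).mul
    rw [k2] at h
    exact h
  have hb := g₂ K r0 z0 _ _ _ hlimQ hlimZ hv1 hC0 hRho hRv hz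
  obtain ⟨hzz, hcc⟩ := g₁ K r0 z0 _ _ _ _ hlimQ hlimZ hv1 hC0 hb
  have hDd : Tendsto (fun v => ((1 - v) * Gzc K (Q (Mv v)) (Z (Mv v)) +
      Gzz K (Q (Mv v)) (Z (Mv v)) * Gc K (Q (Mv v)) (Z (Mv v)) -
      Gzz K r0 z0 * Gc K r0 z0) / (v - 1)) (𝓝[Metric.ball 0 1] 1)
      (𝓝 (1 / Gzz K r0 z0 * G3 K r0 z0 * Gc K r0 z0)) := by
    have h := (m3.neg.add (hzz.mul m1)).add (hcc.const_mul (Gzz K r0 z0))
    have e : -Gzc K r0 z0 + 1 / Gzz K r0 z0 * G3 K r0 z0 * Gc K r0 z0 +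
        Gzz K r0 z0 * (1 / Gzz K r0 z0 * Gzc K r0 z0) =
        1 / Gzz K r0 z0 * G3 K r0 z0 * Gc K r0 z0 := by
      field_simp
      ring
    rw [e] at h
    refine h.congr' ?_
    filter_upwards [hv1] with v hv
    have hv2 : v - 1 ≠ 0 := sub_ne_zero.2 hv
    field_simp
    ring
  have hsec : Tendsto (fun v => (deriv P v / (1 - v) - 1 / (Gzz K r0 z0 * Gc K r0 z0)) / (1 - v))
      (𝓝[Metric.ball 0 1] 1) (𝓝 (G3 K r0 z0 / (Gzz K r0 z0 ^ 3 * Gc K r0 z0))) := by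
    have h := hDd.div (hD.mul_const (Gzz K r0 z0 * Gc K r0 z0)) (mul_ne_zero hne hne)
    have e : 1 / Gzz K r0 z0 * G3 K r0 z0 * Gc K r0 z0 /
        (Gzz K r0 z0 * Gc K r0 z0 * (Gzz K r0 z0 * Gc K r0 z0)) =
        G3 K r0 z0 / (Gzz K r0 z0 ^ 3 * Gc K r0 z0) := by
      field_simp
    rw [e] at h
    refine h.congr' ?_
    filter_upwards [hin, hD.eventually_ne hne] with v hv hDv
    have hv1 := ne_one hv
    have hv2 : v - 1 ≠ 0 := by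
      intro h
      exact hv1 (by linear_combination -h)
    simp only [Pi.div_apply]
    rw [div_eq h₅ h₃ hdQ hQ hR hv]
    set D : ℂ := (1 - v) * Gzc K (Q (Mv v)) (Z (Mv v)) +
      Gzz K (Q (Mv v)) (Z (Mv v)) * Gc K (Q (Mv v)) (Z (Mv v)) with hDdef
    set E : ℂ := Gzz K r0 z0 * Gc K r0 z0 with hE
    have e1 : v - 1 = -(1 - v) := by ring
    rw [e1]
    field_simp
    ring
  refine ⟨r0, z0, hlim, hpt, hne, ?_⟩
  have h := g₃ P r0 _ _ hP.dP hlim hsec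
  have e1 : 1 / (Gzz K r0 z0 * Gc K r0 z0) / 2 = 1 / (2 * (Gzz K r0 z0 * Gc K r0 z0)) := by
    field_simp
  have e2 : -(G3 K r0 z0 / (Gzz K r0 z0 ^ 3 * Gc K r0 z0)) / 3 =
      -(G3 K r0 z0 / (3 * (Gzz K r0 z0 ^ 3 * Gc K r0 z0))) := by
    field_simp
  rw [e1, e2] at h
  exact h

end Pool.Agent.CUSP
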