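import Pool.Agent.CUSP.Targets6
import Pool.Agent.CUSP.P_CTG

set_option autoImplicit false

open Complex Filter Topology Set MeasureTheory
open Pool.Agent.Limb (F)
open Pool.Agent.PLim (Rho)
open Pool.Agent.MEY (Pt)
open Pool.Agent.PSat (Comp Sat)
open Pool.Agent.AEN (vm Hp Exn Uv)
open Pool.Agent.MEZ (T_NCZ T_SECZ)

namespace Pool.Agent.CUSP

namespace CT2_

open CTG_

/-- Difference quotients along curves. -/
theorem quot {G : ℂ × ℂ → ℂ} (h : Sm G) {c0 z0 b : ℂ} {l : Filter ℂ} {C ζ : ℂ → ℂ}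
    (hC : Tendsto C l (𝓝 c0)) (hζ : Tendsto ζ l (𝓝 z0)) (hv : ∀ᶠ v in l, v ≠ 1)
    (hC1 : Tendsto (fun v => (C v - c0) / (v - 1)) l (𝓝 0))
    (hζ1 : Tendsto (fun v => (ζ v - z0) / (v - 1)) l (𝓝 b)) :
    Tendsto (fun v => (G (C v, ζ v) - G (c0, z0)) / (v - 1)) l
      (𝓝 (b * fderiv ℂ G (c0, z0) (0, 1))) := by
  have hd : HasFDerivAt G (fderiv ℂ G (c0, z0)) (c0, z0) := (h.diff (c0, z0)).hasFDerivAt
  have hx : Tendsto (fun v => ((C v, ζ v) : ℂ × ℂ)) l (𝓝 (c0, z0)) := hC.prodMk_nhds hζ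
  have hq : Tendsto (fun v => (((C v - c0) / (v - 1), (ζ v - z0) / (v - 1)) : ℂ × ℂ)) l
      (𝓝 (0, b)) := hC1.prodMk_nhds hζ1
  have hO : (fun v => ((C v, ζ v) : ℂ × ℂ) - (c0, z0)) =O[l] (fun v => v - 1) := by
    have h1 := hq.isBigO_one ℂ
    have h2 : (fun v : ℂ => (v - 1) • (((C v - c0) / (v - 1), (ζ v - z0) / (v - 1)) : ℂ × ℂ))
        =O[l] (fun v => (v - 1) • (1 : ℂ)) := (Asymptotics.isBigO_refl _ _).smul h1
    refine (h2.congr' ?_ ?_)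
    · filter_upwards [hv] with v hv
      have h3 : v - 1 ≠ 0 := sub_ne_zero.mpr hv
      ext
      · simp [mul_div_cancel₀ _ h3]
      · simp [mul_div_cancel₀ _ h3]
    · exact Eventually.of_forall fun v => by simp
  have ho := (hd.isLittleO.comp_tendsto hx).trans_isBigO hO
  have h4 := ho.tendsto_div_nhds_zero
  have h5 : Tendsto (fun v => fderiv ℂ G (c0, z0) ((C v - c0) / (v - 1), (ζ v - z0) / (v - 1))) l
      (𝓝 (fderiv ℂ G (c0, z0) (0, b))) :=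
    ((fderiv ℂ G (c0, z0)).continuous.tendsto _).comp hq
  have h6 : fderiv ℂ G (c0, z0) (0, b) = b * fderiv ℂ G (c0, z0) (0, 1) := by
    have : ((0, b) : ℂ × ℂ) = b • ((0, 1) : ℂ × ℂ) := by simp
    rw [this, map_smul, smul_eq_mul]
  rw [← h6, ← zero_add (fderiv ℂ G (c0, z0) (0, b))]
  refine (h4.add h5).congr' ?_
  filter_upwards [hv] with v hv
  have h3 : v - 1 ≠ 0 := sub_ne_zero.mpr hv
  have h7 : fderiv ℂ G (c0, z0) ((C v - c0) / (v - 1), (ζ v - z0) / (v - 1)) =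
      fderiv ℂ G (c0, z0) ((C v, ζ v) - (c0, z0)) / (v - 1) := by
    have : (((C v - c0) / (v - 1), (ζ v - z0) / (v - 1)) : ℂ × ℂ) =
        (v - 1)⁻¹ • (((C v, ζ v) : ℂ × ℂ) - (c0, z0)) := by
      ext
      · simp [div_eq_inv_mul]
      · simp [div_eq_inv_mul]
    rw [this, map_smul, smul_eq_mul, div_eq_inv_mul]
  rw [h7]
  simp only [Function.comp_apply]
  rw [← add_div]
  congr 1
  ring

theorem symm {G : ℂ × ℂ → ℂ} (h : Sm G) (x u v : ℂ × ℂ) :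
    fderiv ℂ (fun y => fderiv ℂ G y u) x v = fderiv ℂ (fun y => fderiv ℂ G y v) x u := by
  have h1 : ContDiff ℂ ((⊤ : ℕ∞) : WithTop ℕ∞) (fderiv ℂ G) := h.fderiv_right (by simp)
  have h2 : Differentiable ℂ (fderiv ℂ G) := h1.differentiable (by simp)
  have h3 : ∀ w : ℂ × ℂ, HasFDerivAt (fun y => fderiv ℂ G y w)
      ((fderiv ℂ (fderiv ℂ G) x).flip w) x := by
    intro w
    have := (h2 x).hasFDerivAt.clm_apply (hasFDerivAt_const w x)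
    simpa using this
  have h4 : IsSymmSndFDerivAt ℂ G x :=
    ContDiffAt.isSymmSndFDerivAt (h.contDiffAt) (by
      simp only [minSmoothness_of_isRCLikeNormedField]
      exact (WithTop.coe_le_coe.mpr le_top :
        ((2 : ℕ∞) : WithTop ℕ∞) ≤ ((⊤ : ℕ∞) : WithTop ℕ∞)))
  rw [(h3 u).fderiv, (h3 v).fderiv]
  exact h4 v u

end CT2_

open CTG_ in
theorem p_CT2 : T_CT2 := by
  intro k c0 z0 b l C ζ hC hζ hv hC1 hζ1
  have hG := sm_iter k
  have eR : ∀ c z : ℂ, Rho 2 k c z =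
      fderiv ℂ (fun x : ℂ × ℂ => (F 2 x.1)^[k] x.2) (c, z) (0, 1) := fun c z => hG.d2 c z
  have hR : Sm (fun x : ℂ × ℂ => Rho 2 k x.1 x.2) := by
    have h : (fun x : ℂ × ℂ => Rho 2 k x.1 x.2) =
        fun x => fderiv ℂ (fun x : ℂ × ℂ => (F 2 x.1)^[k] x.2) x (0, 1) := by
      funext x
      exact eR x.1 x.2
    rw [h]
    exact hG.fd (0, 1)
  have eC : ∀ c z : ℂ, Gc k c z =
      fderiv ℂ (fun x : ℂ × ℂ => (F 2 x.1)^[k] x.2) (c, z) (1, 0) := fun c z => hG.d1 c z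
  have hCs : Sm (fun x : ℂ × ℂ => Gc k x.1 x.2) := by
    have h : (fun x : ℂ × ℂ => Gc k x.1 x.2) =
        fun x => fderiv ℂ (fun x : ℂ × ℂ => (F 2 x.1)^[k] x.2) x (1, 0) := by
      funext x
      exact eC x.1 x.2
    rw [h]
    exact hG.fd (1, 0)
  have eZZ : ∀ c z : ℂ, Gzz k c z =
      fderiv ℂ (fun x : ℂ × ℂ => Rho 2 k x.1 x.2) (c, z) (0, 1) := fun c z => hR.d2 c z
  have hZZ : Sm (fun x : ℂ × ℂ => Gzz k x.1 x.2) := by
    have h : (fun x : ℂ × ℂ => Gzz k x.1 x.2) =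
        fun x => fderiv ℂ (fun x : ℂ × ℂ => Rho 2 k x.1 x.2) x (0, 1) := by
      funext x
      exact eZZ x.1 x.2
    rw [h]
    exact hR.fd (0, 1)
  have e3 : G3 k c0 z0 = fderiv ℂ (fun x : ℂ × ℂ => Gzz k x.1 x.2) (c0, z0) (0, 1) :=
    hZZ.d2 c0 z0
  have eZC : Gzc k c0 z0 = fderiv ℂ (fun x : ℂ × ℂ => Gc k x.1 x.2) (c0, z0) (0, 1) := by
    have h1 : Gzc k c0 z0 =
        fderiv ℂ (fun x : ℂ × ℂ => Rho 2 k x.1 x.2) (c0, z0) (1, 0) := hR.d1 c0 z0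
    have h2 : (fun x : ℂ × ℂ => Rho 2 k x.1 x.2) =
        fun x => fderiv ℂ (fun x : ℂ × ℂ => (F 2 x.1)^[k] x.2) x (0, 1) := by
      funext x
      exact eR x.1 x.2
    have h3 : (fun x : ℂ × ℂ => Gc k x.1 x.2) =
        fun x => fderiv ℂ (fun x : ℂ × ℂ => (F 2 x.1)^[k] x.2) x (1, 0) := by
      funext x
      exact eC x.1 x.2
    rw [h1, h2, h3]
    exact CT2_.symm hG (c0, z0) (0, 1) (1, 0)
  rw [e3, eZC]
  exact ⟨CT2_.quot hZZ hC hζ hv hC1 hζ1, CT2_.quot hCs hC hζ hv hC1 hζ1⟩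

end Pool.Agent.CUSP
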