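import Pool.Agent.CUSP.Targets6
import Pool.Agent.CUSP.P_CTG

set_option autoImplicit false

open Complex Filter Topology Set MeasureTheory
open Pool.Agent.Limb (F)
open Pool.Agent.PLim (Rho)
open Pool.Agent.MEY (Pt)
open Pool.Agent.PSat (Comp Sat)
open Pool.Agent.AEN (vm Hp Exn Uv)
open Pool.Agent.MEZ (T_NCZ T_SECZ)

namespace Pool.Agent.CUSP

namespace CT3_

/-- the limit of the second quotient -/
theorem lim (l : Filter ℂ) (p q : ℂ → ℂ) (α β : ℂ) (hβ : β ≠ 0) (hp : Tendsto p l (𝓝 0))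
    (h : ∀ ε : ℝ, 0 < ε → ∀ᶠ v in l, ‖1 - α * p v - β * q v‖ ≤ ε * (‖p v‖ + ‖q v‖)) :
    Tendsto q l (𝓝 (1 / β)) := by
  have hb : 0 < ‖β‖ := norm_pos_iff.mpr hβ
  have hp1 : ∀ᶠ v in l, ‖p v‖ < 1 := by
    have := hp.norm
    rw [norm_zero] at this
    exact this.eventually (gt_mem_nhds one_pos)
  set M : ℝ := 2 * (1 + ‖α‖ + ‖β‖ / 2) / ‖β‖ with hM
  have hM0 : 0 ≤ M := by positivity
  have hq : ∀ᶠ v in l, ‖q v‖ ≤ M := by
    filter_upwards [hp1, h (‖β‖ / 2) (by positivity)] with v h1 h2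
    have e1 : β * q v = 1 - α * p v - (1 - α * p v - β * q v) := by ring
    have e2 : ‖β‖ * ‖q v‖ ≤ 1 + ‖α‖ * ‖p v‖ + ‖1 - α * p v - β * q v‖ := by
      rw [← norm_mul, e1]
      refine (norm_sub_le _ _).trans ?_
      have e3 : ‖1 - α * p v‖ ≤ 1 + ‖α‖ * ‖p v‖ := by
        refine (norm_sub_le _ _).trans ?_
        rw [norm_one, norm_mul]
      have e4 : 1 - α * p v - (1 - α * p v - (1 - α * p v - β * q v)) =
          1 - α * p v - β * q v := by ring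
      rw [e4]
      linarith
    have e5 : ‖α‖ * ‖p v‖ ≤ ‖α‖ := mul_le_of_le_one_right (norm_nonneg _) h1.le
    have e6 : ‖β‖ / 2 * ‖p v‖ ≤ ‖β‖ / 2 := mul_le_of_le_one_right (by positivity) h1.le
    rw [hM, le_div_iff₀ hb]
    nlinarith
  have he : Tendsto (fun v => 1 - α * p v - β * q v) l (𝓝 0) := by
    rw [Metric.tendsto_nhds]
    intro ε hε
    filter_upwards [hp1, hq, h (ε / (2 * (1 + M))) (by positivity)] with v h1 h2 h3
    rw [dist_zero_right]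
    have h4 : ε / (2 * (1 + M)) * (‖p v‖ + ‖q v‖) ≤ ε / (2 * (1 + M)) * (1 + M) :=
      mul_le_mul_of_nonneg_left (add_le_add h1.le h2) (by positivity)
    have h5 : ε / (2 * (1 + M)) * (1 + M) = ε / 2 := by
      field_simp
    linarith
  have ht := ((tendsto_const_nhds (x := (1 : ℂ)) (f := l)).sub (hp.const_mul α)).sub he
  have ht2 := ht.div_const β
  simp only [mul_zero, sub_zero] at ht2
  refine ht2.congr fun v => ?_
  field_simp
  ring

end CT3_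

open CTG_ in
theorem p_CT3 : T_CT3 := by
  intro k c0 z0 l C ζ hC hζ hv hp hR0 hRv hne
  have hG := sm_iter k
  have eR : ∀ c z : ℂ, Rho 2 k c z =
      fderiv ℂ (fun x : ℂ × ℂ => (F 2 x.1)^[k] x.2) (c, z) (0, 1) := fun c z => hG.d2 c z
  have hR : Sm (fun x : ℂ × ℂ => Rho 2 k x.1 x.2) := by
    have h : (fun x : ℂ × ℂ => Rho 2 k x.1 x.2) =
        fun x => fderiv ℂ (fun x : ℂ × ℂ => (F 2 x.1)^[k] x.2) x (0, 1) := by
      funext x
      exact eR x.1 x.2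
    rw [h]
    exact hG.fd (0, 1)
  have eZZ : Gzz k c0 z0 =
      fderiv ℂ (fun x : ℂ × ℂ => Rho 2 k x.1 x.2) (c0, z0) (0, 1) := hR.d2 c0 z0
  have hd := (hR.diff (c0, z0)).hasFDerivAt
  have hx : Tendsto (fun v => (C v, ζ v)) l (𝓝 (c0, z0)) := hC.prodMk_nhds hζ
  refine CT3_.lim l _ _ (fderiv ℂ (fun x : ℂ × ℂ => Rho 2 k x.1 x.2) (c0, z0) (1, 0)) _ hne hp ?_
  intro ε hε
  have ho := (hd.isLittleO.comp_tendsto hx).def hε
  filter_upwards [ho, hv, hRv] with v h1 h2 h3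
  have h2' : v - 1 ≠ 0 := sub_ne_zero.mpr h2
  have h2n : 0 < ‖v - 1‖ := norm_pos_iff.mpr h2'
  simp only [Function.comp_apply] at h1
  rw [h3, hR0] at h1
  have e1 : ((C v, ζ v) : ℂ × ℂ) - (c0, z0) =
      (C v - c0) • ((1, 0) : ℂ × ℂ) + (ζ v - z0) • ((0, 1) : ℂ × ℂ) := by
    simp
  have e2 : ‖((C v, ζ v) : ℂ × ℂ) - (c0, z0)‖ ≤ ‖C v - c0‖ + ‖ζ v - z0‖ := by
    rw [Prod.norm_def]
    exact max_le (le_add_of_nonneg_right (norm_nonneg _)) (le_add_of_nonneg_left (norm_nonneg _))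
  have h4 := h1.trans (mul_le_mul_of_nonneg_left e2 hε.le)
  rw [e1, map_add, map_smul, map_smul, smul_eq_mul, smul_eq_mul, ← eZZ] at h4
  have e3 : 1 - fderiv ℂ (fun x : ℂ × ℂ => Rho 2 k x.1 x.2) (c0, z0) (1, 0) *
      ((C v - c0) / (v - 1)) - Gzz k c0 z0 * ((ζ v - z0) / (v - 1)) =
      (v - 1 - ((C v - c0) * fderiv ℂ (fun x : ℂ × ℂ => Rho 2 k x.1 x.2) (c0, z0) (1, 0) +
        (ζ v - z0) * Gzz k c0 z0)) / (v - 1) := by
    field_simp
    ring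
  rw [e3, norm_div, norm_div, norm_div, ← add_div, ← mul_div_assoc]
  exact div_le_div_of_nonneg_right h4 h2n.le

end Pool.Agent.CUSP
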