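import Pool.Agent.CUSP.Targets6
import Pool.Agent.CUSP.P_CSZ

/-!
# CUSP: IN3, integration with one more term
-/

set_option autoImplicit false

open Complex Filter Topology Set MeasureTheory

namespace Pool.Agent.CUSP

namespace IN3_

open CSZ_ (ne_one)

/-- integration of the asymptotics of the derivative -/
theorem third {P : ℂ → ℂ} {r A B : ℂ} (hdP : DifferentiableOn ℂ P (Metric.ball 0 1))
    (hlim : Tendsto P (𝓝[Metric.ball 0 1] 1) (𝓝 r))
    (hd : Tendsto (fun v => (deriv P v / (1 - v) - A) / (1 - v)) (𝓝[Metric.ball 0 1] 1)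
      (𝓝 B)) :
    Tendsto (fun v => ((P v - r) / (1 - v) ^ 2 + A / 2) / (1 - v)) (𝓝[Metric.ball 0 1] 1)
      (𝓝 (-B / 3)) := by
  rw [Metric.tendsto_nhds]
  intro ε hε
  have h1 := (Metric.tendsto_nhds.1 hd) (ε / 2) (by positivity)
  rw [Filter.eventually_iff, mem_nhdsWithin_iff_exists_mem_nhds_inter] at h1
  obtain ⟨U, hU, hUs⟩ := h1
  obtain ⟨δ, hδ, hδU⟩ := Metric.mem_nhds_iff.1 hU
  have h2 : ∀ᶠ v : ℂ in 𝓝[Metric.ball 0 1] 1, ‖1 - v‖ < δ := by
    have h3 : Metric.ball (1 : ℂ) δ ∈ 𝓝[Metric.ball 0 1] (1 : ℂ) :=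
      mem_nhdsWithin_of_mem_nhds (Metric.ball_mem_nhds _ hδ)
    filter_upwards [h3] with v hv
    rw [Metric.mem_ball, dist_comm, dist_eq_norm] at hv
    exact hv
  filter_upwards [h2, self_mem_nhdsWithin] with v hvδ hvb
  have hv : ‖v‖ < 1 := mem_ball_zero_iff.1 hvb
  have hv1 := ne_one hv
  -- the segment
  set u : ℝ → ℂ := fun t => v + t * (1 - v) with hu
  have hu1 : ∀ t : ℝ, 1 - u t = ((1 - t : ℝ) : ℂ) * (1 - v) := by
    intro t
    simp only [hu]
    push_cast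
    ring
  have hub : ∀ t : ℝ, 0 ≤ t → t < 1 → ‖u t‖ < 1 := by
    intro t ht0 ht1
    have e : u t = ((1 - t : ℝ) : ℂ) * v + (t : ℂ) := by
      simp only [hu]
      push_cast
      ring
    rw [e]
    calc ‖((1 - t : ℝ) : ℂ) * v + (t : ℂ)‖ ≤ ‖((1 - t : ℝ) : ℂ) * v‖ + ‖(t : ℂ)‖ :=
          norm_add_le _ _
      _ = (1 - t) * ‖v‖ + t := by
          rw [norm_mul, Complex.norm_real, Complex.norm_real, Real.norm_of_nonneg (by linarith),
            Real.norm_of_nonneg ht0]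
      _ < (1 - t) * 1 + t := by
          have : 0 < 1 - t := by linarith
          nlinarith
      _ = 1 := by ring
  set g : ℝ → ℂ := fun t => P (u t) - r + A / 2 * (1 - u t) ^ 2 + B / 3 * (1 - u t) ^ 3 with hg
  have hder : ∀ t : ℝ, 0 ≤ t → t < 1 →
      HasDerivAt g ((deriv P (u t) - A * (1 - u t) - B * (1 - u t) ^ 2) * (1 - v)) t := by
    intro t ht0 ht1
    have h3 : HasDerivAt u (1 - v) t := by
      have h4 : HasDerivAt (fun t : ℝ => (t : ℂ) * (1 - v)) (1 - v) t := by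
        simpa using (Complex.ofRealCLM.hasDerivAt (x := t)).mul_const (1 - v)
      exact h4.const_add v
    have h5 : HasDerivAt P (deriv P (u t)) (u t) :=
      (hdP.differentiableAt (Metric.isOpen_ball.mem_nhds (by
        simpa using hub t ht0 ht1))).hasDerivAt
    have h6 : HasDerivAt (fun t : ℝ => P (u t)) (deriv P (u t) * (1 - v)) t := by
      have h61 := HasDerivAt.scomp t h5 h3
      simpa [Function.comp_def, smul_eq_mul, mul_comm] using h61
    have h8 : HasDerivAt (fun t : ℝ => 1 - u t) (-(1 - v)) t := h3.const_sub (1 : ℂ)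
    have h7 : HasDerivAt (fun t : ℝ => (1 - u t) ^ 2) (2 * (1 - u t) * (-(1 - v))) t := by
      have h9 : HasDerivAt (fun t : ℝ => (1 - u t) * (1 - u t))
          (-(1 - v) * (1 - u t) + (1 - u t) * (-(1 - v))) t := h8.mul h8
      have e9 : (fun t : ℝ => (1 - u t) ^ 2) = fun t : ℝ => (1 - u t) * (1 - u t) := by
        funext t
        ring
      rw [e9]
      refine h9.congr_deriv ?_
      ring
    have h10 : HasDerivAt (fun t : ℝ => (1 - u t) ^ 3) (3 * (1 - u t) ^ 2 * (-(1 - v))) t := by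
      have e9 : (fun t : ℝ => (1 - u t) ^ 3) = fun t : ℝ => (1 - u t) ^ 2 * (1 - u t) := by
        funext t
        ring
      rw [e9]
      refine (h7.mul h8).congr_deriv ?_
      ring
    refine (((h6.sub_const r).add (h7.const_mul (A / 2))).add
      (h10.const_mul (B / 3))).congr_deriv ?_
    ring
  have hbound : ∀ t : ℝ, 0 ≤ t → t < 1 →
      ‖(deriv P (u t) - A * (1 - u t) - B * (1 - u t) ^ 2) * (1 - v)‖ ≤
        ε / 2 * ‖1 - v‖ ^ 3 := by
    intro t ht0 ht1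
    have hne : 1 - u t ≠ 0 := ne_one (hub t ht0 ht1)
    have h3 : ‖1 - u t‖ ≤ ‖1 - v‖ := by
      rw [hu1, norm_mul, Complex.norm_real, Real.norm_of_nonneg (by linarith)]
      have := norm_nonneg (1 - v)
      nlinarith
    have h4 : u t ∈ U := hδU (by
      rw [Metric.mem_ball, dist_comm, dist_eq_norm]
      linarith)
    have h5 : dist ((deriv P (u t) / (1 - u t) - A) / (1 - u t)) B < ε / 2 :=
      hUs ⟨h4, by simpa using hub t ht0 ht1⟩
    rw [dist_eq_norm] at h5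
    have e : deriv P (u t) - A * (1 - u t) - B * (1 - u t) ^ 2 =
        ((deriv P (u t) / (1 - u t) - A) / (1 - u t) - B) * (1 - u t) ^ 2 := by
      field_simp
      try ring
    rw [e, norm_mul, norm_mul, norm_pow]
    calc ‖(deriv P (u t) / (1 - u t) - A) / (1 - u t) - B‖ * ‖1 - u t‖ ^ 2 * ‖1 - v‖
        ≤ ε / 2 * ‖1 - v‖ ^ 2 * ‖1 - v‖ := by
          gcongr
      _ = _ := by ring
  have hseg : ∀ T : ℝ, 0 ≤ T → T < 1 → ‖g T - g 0‖ ≤ ε / 2 * ‖1 - v‖ ^ 3 := by
    intro T hT0 hT1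
    have h3 := norm_image_sub_le_of_norm_deriv_le_segment' (f := g)
      (f' := fun t => (deriv P (u t) - A * (1 - u t) - B * (1 - u t) ^ 2) * (1 - v))
      (a := 0) (b := T) (C := ε / 2 * ‖1 - v‖ ^ 3)
      (fun t ht => (hder t ht.1 (lt_of_le_of_lt ht.2 hT1)).hasDerivWithinAt)
      (fun t ht => hbound t ht.1 (lt_trans ht.2 hT1)) T ⟨hT0, le_rfl⟩
    refine h3.trans ?_
    have : 0 ≤ ε / 2 * ‖1 - v‖ ^ 3 := by positivity
    nlinarith
  have hu_lim : Tendsto u (𝓝[<] 1) (𝓝[Metric.ball 0 1] 1) := by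
    refine tendsto_nhdsWithin_iff.2 ⟨?_, ?_⟩
    · have h3 : Continuous u := by
        simp only [hu]
        fun_prop
      have h4 : Tendsto u (𝓝 1) (𝓝 (u 1)) := h3.tendsto 1
      have h5 : u 1 = 1 := by
        simp [hu]
      rw [h5] at h4
      exact h4.mono_left nhdsWithin_le_nhds
    · filter_upwards [Ioo_mem_nhdsLT (zero_lt_one' ℝ)] with t ht
      simpa using hub t ht.1.le ht.2
  have hg_lim : Tendsto g (𝓝[<] 1) (𝓝 0) := by
    have h3 := hlim.comp hu_lim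
    have h4 : Tendsto (fun t => (1 - u t) ^ 2) (𝓝[<] 1) (𝓝 0) := by
      have h5 : Tendsto u (𝓝[<] 1) (𝓝 1) := hu_lim.mono_right nhdsWithin_le_nhds
      have h6 := (h5.const_sub (1 : ℂ)).pow 2
      simpa using h6
    have h41 : Tendsto (fun t => (1 - u t) ^ 3) (𝓝[<] 1) (𝓝 0) := by
      have h5 : Tendsto u (𝓝[<] 1) (𝓝 1) := hu_lim.mono_right nhdsWithin_le_nhds
      have h6 := (h5.const_sub (1 : ℂ)).pow 3
      simpa using h6
    have h7 := ((h3.sub_const r).add (h4.const_mul (A / 2))).add (h41.const_mul (B / 3))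
    simpa using h7
  have h8 : ‖(0 : ℂ) - g 0‖ ≤ ε / 2 * ‖1 - v‖ ^ 3 := by
    refine le_of_tendsto (hg_lim.sub_const (g 0)).norm ?_
    filter_upwards [Ioo_mem_nhdsLT (zero_lt_one' ℝ)] with t ht
    exact hseg t ht.1.le ht.2
  have h9 : g 0 = P v - r + A / 2 * (1 - v) ^ 2 + B / 3 * (1 - v) ^ 3 := by
    simp [hg, hu]
  rw [zero_sub, norm_neg, h9] at h8
  rw [dist_eq_norm]
  have e : ((P v - r) / (1 - v) ^ 2 + A / 2) / (1 - v) - -B / 3 =
      (P v - r + A / 2 * (1 - v) ^ 2 + B / 3 * (1 - v) ^ 3) / (1 - v) ^ 3 := by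
    field_simp
    try ring
  have hpos : 0 < ‖1 - v‖ ^ 3 := by
    have := norm_pos_iff.2 hv1
    positivity
  rw [e, norm_div, norm_pow, div_lt_iff₀ hpos]
  refine lt_of_le_of_lt h8 ?_
  nlinarith

end IN3_

/-- IN3. -/
theorem p_IN3 : T_IN3 := fun _ _ _ _ hdP hlim hd => IN3_.third hdP hlim hd

end Pool.Agent.CUSP
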