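import Pool.Agent.CUSP.All5
import Pool.Agent.CUSP.P_CT2
import Pool.Agent.CUSP.P_CT3
import Pool.Agent.CUSP.P_IN3
import Pool.Agent.CUSP.P_CS3

/-!
# CUSP: the second order term of the cusp, without hypotheses
-/

set_option autoImplicit false

namespace Pool.Agent.CUSP

theorem a_CT2 : T_CT2 := p_CT2
theorem a_CT3 : T_CT3 := p_CT3
theorem a_IN3 : T_IN3 := p_IN3
theorem a_CS3 : T_CS3 := p_CS3 a_CT2 a_CT3 a_IN3 b_RTE b_DIK b_CTG a_P0X
  Pool.Agent.AEN.a_MOB Pool.Agent.AEN.a_EXS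

end Pool.Agent.CUSP
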