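import Pool.Agent.CUSP.Targets3

/-!
# CUSP: proof of the target ABI (the product does not depend on the point of the cycle)
-/

set_option autoImplicit false

open Complex Filter Topology Set MeasureTheory
open Pool.Agent.Limb (F)
open Pool.Agent.PLim (Rho)
open Pool.Agent.MEY (Pt)
open Pool.Agent.PSat (Comp Sat)
open Pool.Agent.AEN (vm Hp Exn)
open Pool.Agent.MEZ (T_NCZ T_SECZ)

namespace Pool.Agent.CUSP

namespace ABI_

lemma hasDeriv (c w : ℂ) : HasDerivAt (F 2 c) (2 * w) w := by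
  have h1 : HasDerivAt (fun z : ℂ => z ^ 2 + c) ((2 : ℕ) * w ^ (2 - 1) * 1) w :=
    ((hasDerivAt_id w).pow 2).add_const c
  have h2 : ((2 : ℕ) : ℂ) * w ^ (2 - 1) * 1 = 2 * w := by
    norm_num
  rw [h2] at h1
  exact h1

lemma iterDiff (c : ℂ) (j : ℕ) : Differentiable ℂ ((F 2 c)^[j]) := by
  induction j with
  | zero => exact differentiable_id
  | succ j ih =>
    rw [Function.iterate_succ']
    have h1 : Differentiable ℂ (F 2 c) := fun w => (hasDeriv c w).differentiableAt
    exact h1.comp ih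

lemma deriv_succ (c : ℂ) (j : ℕ) (y : ℂ) :
    deriv ((F 2 c)^[j + 1]) y = 2 * (F 2 c)^[j] y * deriv ((F 2 c)^[j]) y := by
  rw [Function.iterate_succ']
  exact ((hasDeriv c ((F 2 c)^[j] y)).comp y (iterDiff c j y).hasDerivAt).deriv

lemma shift (c : ℂ) (j : ℕ) (x : ℂ) :
    BB c (j + 1) x = BB c j (F 2 c x) + deriv ((F 2 c)^[j]) (F 2 c x) := by
  induction j with
  | zero =>
    simp [BB]
  | succ j ih =>
    have h1 : BB c (j + 1 + 1) x = 2 * (F 2 c)^[j + 1] x * BB c (j + 1) x + 1 := rfl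
    have h2 : BB c (j + 1) (F 2 c x) = 2 * (F 2 c)^[j] (F 2 c x) * BB c j (F 2 c x) + 1 := rfl
    rw [h1, h2, ih, deriv_succ, Function.iterate_succ_apply]
    ring

end ABI_

open ABI_ in
theorem p_ABI (h₁ : T_AST) : T_ABI := by
  intro k c z a hP l
  have key : ∀ l : ℕ, a (l + 1) * BB c k (z (l + 1)) = a l * BB c k (z l) := by
    intro l
    obtain ⟨ha, -, -, hf, -⟩ := h₁ k c z a hP l
    have h1 : BB c (k + 1) (z l) = 2 * (F 2 c)^[k] (z l) * BB c k (z l) + 1 := rfl
    have h2 := shift c k (z l)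
    rw [hP.stp l] at h2
    have h3 : deriv ((F 2 c)^[k]) (z (l + 1)) = 1 := hP.mul (l + 1)
    rw [h1, hf, h3] at h2
    have h4 : BB c k (z (l + 1)) = 2 * z l * BB c k (z l) := by
      linear_combination -h2
    rw [h4, ha]
    ring
  induction l with
  | zero => rfl
  | succ l ih => rw [key l, ih]

end Pool.Agent.CUSP
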