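import Pool.Agent.CUSP.Targets2

/-!
# CUSP: ACA and ACB (access to a disc)
-/

set_option autoImplicit false

open Complex Filter Topology Set MeasureTheory Metric
open Pool.Agent.Limb (F)

namespace Pool.Agent.CUSP

/-- The segment stays in the disc. -/
lemma aca_seg {e ρ : ℝ} {p q : ℂ} {G : ℂ → ℂ} (hρ : 0 < ρ) (he : e ≤ 1 / 4)
    (hd : DifferentiableOn ℂ G (ball p (4 * ρ)))
    (hn : ∀ x : ℂ, ‖x - p‖ < 4 * ρ → ‖G x - x‖ ≤ e * ρ) (hq : q ∈ ball p ρ)
    (hGq : G q ∈ ball p ρ) : ∀ x ∈ segment ℝ q p, G x ∈ ball p ρ := by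
  have hdd : DifferentiableOn ℂ (fun w => G w - w) (ball p (4 * ρ)) := hd.sub differentiableOn_id
  have he0 : 0 ≤ e := by
    have := hn p (by rw [sub_self, norm_zero]; positivity)
    have h2 := (norm_nonneg _).trans this
    exact nonneg_of_mul_nonneg_left h2 hρ
  have hsub : ball p ρ ⊆ ball p (4 * ρ) := ball_subset_ball (by linarith)
  have key : ∀ w ∈ ball p ρ, ‖deriv (fun w => G w - w) w‖ ≤ e / 2 := by
    intro w hw
    have hw' : ‖w - p‖ < ρ := by rwa [mem_ball, dist_eq_norm] at hw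
    have hcl : ∀ v ∈ closedBall w (2 * ρ), ‖v - p‖ < 4 * ρ := by
      intro v hv
      rw [mem_closedBall, dist_eq_norm] at hv
      have := norm_add_le (v - w) (w - p)
      rw [show v - w + (w - p) = v - p by ring] at this
      linarith
    have h1 : ‖deriv (fun w => G w - w) w‖ ≤ (e * ρ) / (2 * ρ) := by
      refine Complex.norm_deriv_le_of_forall_mem_sphere_norm_le (by positivity) ?_ ?_
      · refine hdd.diffContOnCl_ball ?_
        intro v hv
        rw [mem_ball, dist_eq_norm]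
        exact hcl v hv
      · intro v hv
        exact hn v (hcl v (sphere_subset_closedBall hv))
    refine h1.trans (le_of_eq ?_)
    field_simp
  have hlip : ∀ x ∈ ball p ρ, ∀ y ∈ ball p ρ,
      ‖(G x - x) - (G y - y)‖ ≤ e / 2 * ‖x - y‖ := by
    intro x hx y hy
    exact (convex_ball p ρ).norm_image_sub_le_of_norm_deriv_le (f := fun w => G w - w)
      (fun w hw => (hdd.differentiableAt (isOpen_ball.mem_nhds (hsub hw)))) key hy hx
  rintro x ⟨s, r, hs, hr, hsr, rfl⟩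
  have hp : p ∈ ball p ρ := mem_ball_self hρ
  have hx : s • q + r • p ∈ ball p ρ := (convex_ball p ρ) hq hp hs hr hsr
  have hsr' : s = 1 - r := by linarith
  have h1 := hlip _ hx q hq
  have h2 := hlip _ hx p hp
  have hqn : ‖q - p‖ < ρ := by rwa [mem_ball, dist_eq_norm] at hq
  have hGqn : ‖G q - p‖ < ρ := by rwa [mem_ball, dist_eq_norm] at hGq
  have hGp : ‖G p - p‖ ≤ e * ρ := hn p (by rw [sub_self, norm_zero]; positivity)
  have e1 : s • q + r • p - q = (r : ℂ) * (p - q) := by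
    rw [hsr']
    simp only [Complex.real_smul]
    push_cast
    ring
  have e2 : s • q + r • p - p = (s : ℂ) * (q - p) := by
    have : r = 1 - s := by linarith
    rw [this]
    simp only [Complex.real_smul]
    push_cast
    ring
  rw [e1, norm_mul, Complex.norm_real, Real.norm_of_nonneg hr, norm_sub_rev p q] at h1
  rw [e2, norm_mul, Complex.norm_real, Real.norm_of_nonneg hs] at h2
  set X := s • q + r • p with hX
  have hXe : X = (s : ℂ) * q + (r : ℂ) * p := by
    rw [hX]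
    simp only [Complex.real_smul]
  have hs1 : (s : ℂ) + (r : ℂ) = 1 := by exact_mod_cast hsr
  have e3 : G X - p = (s : ℂ) * (G q - p) + (r : ℂ) * (G p - p) +
      ((s : ℂ) * ((G X - X) - (G q - q)) + (r : ℂ) * ((G X - X) - (G p - p))) := by
    have h3 : G X - X = (s + r : ℂ) * (G X - X) := by rw [hs1, one_mul]
    have h4 : p = (s + r : ℂ) * p := by rw [hs1, one_mul]
    calc G X - p = (G X - X) + X - p := by ring
      _ = (s + r : ℂ) * (G X - X) + X - (s + r : ℂ) * p := by rw [← h3, ← h4]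
      _ = _ := by
        rw [hXe]
        ring
  have hsn : ‖(s : ℂ)‖ = s := by rw [Complex.norm_real, Real.norm_of_nonneg hs]
  have hrn : ‖(r : ℂ)‖ = r := by rw [Complex.norm_real, Real.norm_of_nonneg hr]
  have h5 : ‖G X - p‖ ≤ s * ‖G q - p‖ + r * ‖G p - p‖ +
      (s * ‖(G X - X) - (G q - q)‖ + r * ‖(G X - X) - (G p - p)‖) := by
    rw [e3]
    refine (norm_add_le _ _).trans (add_le_add ((norm_add_le _ _).trans (le_of_eq ?_))
      ((norm_add_le _ _).trans (le_of_eq ?_)))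
    · rw [norm_mul, norm_mul, hsn, hrn]
    · rw [norm_mul, norm_mul, hsn, hrn]
  rw [mem_ball, dist_eq_norm]
  have h6 : s * ‖(G X - X) - (G q - q)‖ ≤ r * (e / 2 * ρ) := by
    calc s * ‖(G X - X) - (G q - q)‖ ≤ 1 * (e / 2 * (r * ‖q - p‖)) := by
          refine mul_le_mul (by linarith) h1 (norm_nonneg _) zero_le_one
      _ ≤ 1 * (e / 2 * (r * ρ)) := by gcongr
      _ = r * (e / 2 * ρ) := by ring
  have h7 : r * ‖(G X - X) - (G p - p)‖ ≤ r * (e / 2 * ρ) := by
    refine mul_le_mul_of_nonneg_left (h2.trans ?_) hr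
    calc e / 2 * (s * ‖q - p‖) ≤ e / 2 * (1 * ρ) := by
          gcongr
          linarith
      _ = e / 2 * ρ := by ring
  have h8 : r * ‖G p - p‖ ≤ r * (e * ρ) := mul_le_mul_of_nonneg_left hGp hr
  rcases hr.lt_or_eq with hr0 | hr0
  · have h9 : s * ‖G q - p‖ ≤ s * ρ := mul_le_mul_of_nonneg_left hGqn.le hs
    have h10 : r * (2 * e * ρ) < r * ρ := by
      refine mul_lt_mul_of_pos_left ?_ hr0
      nlinarith
    have h11 : ‖G X - p‖ ≤ s * ρ + r * (2 * e * ρ) := by
      have : r * (2 * e * ρ) = r * (e * ρ) + (r * (e / 2 * ρ) + r * (e / 2 * ρ)) := by ring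
      rw [this]
      linarith
    have h12 : s * ρ + r * ρ = ρ := by rw [← add_mul, hsr, one_mul]
    linarith
  · rw [← hr0] at h5 h6 h7 h8 hsr'
    have hs2 : s = 1 := by linarith
    rw [hs2] at h5 h6
    linarith

/-- Points close to the point `E` of the circle in the direction of the centre. -/
lemma aca_in {ρ : ℝ} {p E x : ℂ} (hE : ‖E - p‖ = ρ)
    (h : ‖x - E‖ ^ 2 < 2 * (starRingEnd ℂ (p - E) * (x - E)).re) : x ∈ ball p ρ := by
  have hρ0 : 0 ≤ ρ := hE ▸ norm_nonneg _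
  have h1 : ‖x - p‖ ^ 2 = ‖x - E‖ ^ 2 - 2 * (starRingEnd ℂ (p - E) * (x - E)).re + ρ ^ 2 := by
    rw [← hE]
    simp only [← Complex.normSq_eq_norm_sq, Complex.normSq_apply]
    simp only [Complex.mul_re, Complex.sub_re, Complex.sub_im, Complex.conj_re, Complex.conj_im]
    ring
  rw [mem_ball, dist_eq_norm]
  have h2 : ‖x - p‖ ^ 2 < ρ ^ 2 := by linarith
  exact lt_of_pow_lt_pow_left₀ 2 hρ0 h2

theorem p_ACB (hASY : T_ASY) (hXPR : T_XPR) : T_ACB := by
  intro C hC
  have hC0 : 0 < C := by linarith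
  refine ⟨1 / 4, 1 / C, by norm_num, by positivity, ?_⟩
  intro k c z a L l G p ρ hDat hl hG hD j hj hjp
  have X := hXPR k c z a L hDat
  have hR : 0 < Rl k z L l := X.pos l
  have hρ := hD.hρ
  have haj : a j ≠ 0 := hDat.prb.ane j
  obtain ⟨v, hv⟩ : ∃ v : ℂ, v = -1 / a j := ⟨_, rfl⟩
  have hv0 : v ≠ 0 := by
    rw [hv]
    exact div_ne_zero (by norm_num) haj
  obtain ⟨ν, hν⟩ : ∃ ν : ℂ, ν = p - z j := ⟨_, rfl⟩
  have hνn : ‖ν‖ = ρ := by rw [hν, norm_sub_rev, hjp]
  have hν0 : ν ≠ 0 := by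
    intro h
    rw [h, norm_zero] at hνn
    linarith
  -- the direction
  obtain ⟨ω, β, hω, hωβ, hβ1, hβ2⟩ : ∃ ω β : ℂ, ω.im ≠ 0 ∧ v = ω * (ν * β) ∧ 1 / 2 ≤ β.re ∧
      ‖β‖ ≤ 1 := by
    by_cases h : (v / ν).im = 0
    · refine ⟨v / ν * (1 + I), (1 - I) / 2, ?_, ?_, ?_, ?_⟩
      · rw [Complex.mul_im, h]
        simp only [Complex.add_im, Complex.one_im, Complex.I_im, Complex.add_re, Complex.one_re,
          Complex.I_re]
        intro h2
        have h3 : (v / ν).re = 0 := by linarith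
        exact div_ne_zero hv0 hν0 (Complex.ext h3 h)
      · have h1 : (1 + I) * ((1 - I) / 2) = 1 := by
          have := Complex.I_mul_I
          linear_combination (-1 / 2 : ℂ) * this
        calc v = v / ν * ν := by rw [div_mul_cancel₀ _ hν0]
          _ = v / ν * ν * ((1 + I) * ((1 - I) / 2)) := by rw [h1, mul_one]
          _ = _ := by ring
      · simp
      · have h1 : ‖(1 - I) / 2‖ ^ 2 ≤ 1 ^ 2 := by
          rw [← Complex.normSq_eq_norm_sq, Complex.normSq_apply]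
          simp
          norm_num
        exact (sq_le_sq₀ (norm_nonneg _) zero_le_one).1 h1
    · exact ⟨v / ν, 1, h, by rw [mul_one, div_mul_cancel₀ _ hν0], by norm_num, by simp⟩
  have hω0 : ω ≠ 0 := by
    rintro rfl
    exact hω rfl
  have hωn : 0 < ‖ω‖ := norm_pos_iff.2 hω0
  obtain ⟨M, hM, hMM⟩ := hASY k c z a L hDat.prb hDat.ftc j ω (ρ * ‖ω‖ / 8) hω (by positivity)
  obtain ⟨x, hxM, hx4⟩ : ∃ x : ℝ, M ≤ x ∧ 4 ≤ x := ⟨max M 4, le_max_left _ _, le_max_right _ _⟩
  have hx0 : 0 < x := by linarith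
  have hxc : (x : ℂ) ≠ 0 := by exact_mod_cast hx0.ne'
  -- the points are in the disc
  have hin : ∀ s ∈ Icc (0 : ℝ) 1, L j (x * ω - s) ∈ ball p ρ := by
    intro s hs
    refine aca_in hjp ?_
    rw [← hν]
    obtain ⟨er, her⟩ : ∃ er : ℂ, er = (x * ω) * (L j (x * ω - s) - z j) + 1 / a j := ⟨_, rfl⟩
    have hern : ‖er‖ ≤ ρ * ‖ω‖ / 8 := by
      rw [her]
      exact hMM x hxM s hs
    obtain ⟨δ, hδ⟩ : ∃ δ : ℂ, δ = L j (x * ω - s) - z j := ⟨_, rfl⟩
    rw [← hδ] at her ⊢
    have hδe : δ = ν * β / x + er / (x * ω) := by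
      have h1 : x * ω * δ = v + er := by
        rw [her, hv]
        ring
      have h2 : x * ω * (ν * β / x + er / (x * ω)) = v + er := by
        rw [hωβ]
        field_simp
      exact mul_left_cancel₀ (mul_ne_zero hxc hω0) (h1.trans h2.symm)
    have hn1 : ‖er / (x * ω)‖ ≤ ρ / (8 * x) := by
      rw [norm_div, norm_mul, Complex.norm_real, Real.norm_of_nonneg hx0.le,
        div_le_div_iff₀ (by positivity) (by positivity)]
      calc ‖er‖ * (8 * x) ≤ (ρ * ‖ω‖ / 8) * (8 * x) := by gcongr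
        _ = ρ * (x * ‖ω‖) := by ring
    have hn2 : ‖ν * β / x‖ ≤ ρ / x := by
      rw [norm_div, norm_mul, hνn, Complex.norm_real, Real.norm_of_nonneg hx0.le]
      gcongr
      nlinarith [norm_nonneg β]
    have hn3 : ‖δ‖ ≤ 9 * ρ / (8 * x) := by
      rw [hδe]
      refine (norm_add_le _ _).trans ((add_le_add hn2 hn1).trans (le_of_eq ?_))
      field_simp
      ring
    have hre : 3 * ρ ^ 2 / (8 * x) ≤ (starRingEnd ℂ ν * δ).re := by
      have h1 : starRingEnd ℂ ν * δ = ((ρ ^ 2 / x : ℝ) : ℂ) * β +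
          starRingEnd ℂ ν * (er / (x * ω)) := by
        rw [hδe, mul_add]
        congr 1
        have h2 : starRingEnd ℂ ν * ν = ((ρ ^ 2 : ℝ) : ℂ) := by
          rw [mul_comm, Complex.mul_conj, Complex.normSq_eq_norm_sq, hνn]
        calc starRingEnd ℂ ν * (ν * β / x) = (starRingEnd ℂ ν * ν) * β / x := by ring
          _ = _ := by
            rw [h2]
            push_cast
            ring
      rw [h1, Complex.add_re, Complex.re_ofReal_mul]
      have h3 : |(starRingEnd ℂ ν * (er / (x * ω))).re| ≤ ρ * (ρ / (8 * x)) := by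
        refine (Complex.abs_re_le_norm _).trans ?_
        rw [norm_mul, RCLike.norm_conj, hνn]
        gcongr
      have h4 := (abs_le.1 h3).1
      have h5 : ρ ^ 2 / x * (1 / 2) ≤ ρ ^ 2 / x * β.re := by gcongr
      have h6 : 3 * ρ ^ 2 / (8 * x) = ρ ^ 2 / x * (1 / 2) - ρ * (ρ / (8 * x)) := by
        field_simp
        ring
      rw [h6]
      linarith
    calc ‖δ‖ ^ 2 ≤ (9 * ρ / (8 * x)) ^ 2 := by gcongr
      _ < 2 * (3 * ρ ^ 2 / (8 * x)) := by
        have h1 : 2 * (3 * ρ ^ 2 / (8 * x)) - (9 * ρ / (8 * x)) ^ 2 =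
            ρ ^ 2 / (64 * x ^ 2) * (48 * x - 81) := by
          field_simp
          ring
        have h2 : 0 < ρ ^ 2 / (64 * x ^ 2) * (48 * x - 81) := by
          have : 0 < 48 * x - 81 := by linarith
          positivity
        linarith
      _ ≤ 2 * (starRingEnd ℂ ν * δ).re := by gcongr
  have hτim : ((x : ℂ) * ω).im ≠ 0 := by
    rw [Complex.im_ofReal_mul]
    exact mul_ne_zero hx0.ne' hω
  have h0 : L j (x * ω) ∈ ball p ρ := by
    have := hin 0 ⟨le_rfl, zero_le_one⟩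
    rwa [Complex.ofReal_zero, sub_zero] at this
  have h1 : L j (x * ω - 1) ∈ ball p ρ := by
    have := hin 1 ⟨zero_le_one, le_rfl⟩
    rwa [Complex.ofReal_one] at this
  have hsh : G (L j (x * ω)) = L j (x * ω - 1) := by
    have hx1 : ‖L j (x * ω - 1) - z l‖ ≤ Rl k z L l / C := by
      rw [mem_ball, dist_eq_norm] at h1
      have h2 := norm_add_le (L j (x * ω - 1) - p) (p - z l)
      rw [show L j (x * ω - 1) - p + (p - z l) = L j (x * ω - 1) - z l by ring] at h2
      have h3 := hD.hs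
      have h4 : 1 / C * Rl k z L l = Rl k z L l / C := by ring
      linarith
    have h2 := (hG.lft _ hx1).2.1
    have h3 : (F 2 c)^[k] (L j (x * ω - 1)) = L j (x * ω) := by
      have hom : (x * ω - 1 : ℂ) ∈ OM := by
        left
        rw [Complex.sub_im, Complex.one_im, sub_zero]
        exact hτim
      have := X.itn j 1 (x * ω - 1) hom
      rw [mul_one, Nat.cast_one, sub_add_cancel] at this
      exact this
    rwa [h3] at h2
  have hCR : 1 / C * Rl k z L l ≤ Rl k z L l := by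
    have : 1 / C ≤ 1 := by
      rw [div_le_one hC0]
      linarith
    nlinarith
  refine ⟨x * ω, ⟨hτim, hin, ?_, hsh⟩⟩
  refine aca_seg hρ le_rfl (hG.dif.mono ?_) hD.near h0 (by rw [hsh]; exact h1)
  intro w hw
  rw [mem_ball, dist_eq_norm] at hw ⊢
  have h2 := norm_add_le (w - p) (p - z l)
  rw [show w - p + (p - z l) = w - z l by ring] at h2
  have h3 := hD.hs
  linarith

/-- The linear approximation of the arc. -/
lemma aca_lin {C : ℝ} {t : ℝ} {L : ℂ → ℂ} (hC : 1 ≤ C) (ht : 48 * (C + 2) ≤ t)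
    (hd : DifferentiableOn ℂ L OM) (hb : ∀ s : ℂ, ‖s - t‖ ≤ (t + 1) / 2 →
      ‖deriv L s‖ ≤ C * ‖deriv L t‖) (hn : 0 < ‖deriv L t‖) {w : ℂ} (hw : ‖w - t‖ ≤ 2) :
    ‖L w - L t - deriv L t * (w - t)‖ ≤ ‖deriv L t‖ / 4 := by
  have ht0 : 0 < t := by linarith
  set u := deriv L t with hu
  have hOMo : IsOpen OM := by
    have h1 : IsOpen {t : ℂ | t.im ≠ 0} := isOpen_ne.preimage Complex.continuous_im
    have h2 : IsOpen {t : ℂ | -1 < t.re} := isOpen_lt continuous_const Complex.continuous_re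
    exact h1.union h2
  have hsub : ball (t : ℂ) ((t + 1) / 2) ⊆ OM := by
    intro s hs
    right
    rw [mem_ball, dist_eq_norm] at hs
    have h1 := (Complex.abs_re_le_norm (s - t)).trans hs.le
    rw [Complex.sub_re, Complex.ofReal_re] at h1
    have := (abs_le.1 h1).1
    linarith
  have hdd : DifferentiableOn ℂ (deriv L) (ball (t : ℂ) ((t + 1) / 2)) :=
    (hd.deriv hOMo).mono hsub
  have hsch : ∀ s ∈ ball (t : ℂ) 3, ‖deriv L s - u‖ ≤ ‖u‖ / 8 := by
    intro s hs
    have hs' : s ∈ ball (t : ℂ) ((t + 1) / 2) := ball_subset_ball (by linarith) hs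
    have h1 := Complex.dist_le_div_mul_dist_of_mapsTo_ball (R₂ := (C + 2) * ‖u‖) hdd (by
      intro v hv
      rw [mem_ball, dist_eq_norm] at hv
      rw [mem_closedBall, dist_eq_norm]
      have h2 := hb v hv.le
      have h3 := norm_sub_le (deriv L v) (deriv L t)
      rw [← hu] at h3 ⊢
      nlinarith) hs'
    rw [dist_eq_norm, dist_eq_norm] at h1
    rw [mem_ball, dist_eq_norm] at hs
    refine h1.trans ?_
    calc (C + 2) * ‖u‖ / ((t + 1) / 2) * ‖s - t‖ ≤ (C + 2) * ‖u‖ / ((t + 1) / 2) * 3 := by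
          gcongr
      _ ≤ ‖u‖ / 8 := by
        rw [div_mul_eq_mul_div, div_le_div_iff₀ (by linarith) (by norm_num)]
        nlinarith
  have hf : DifferentiableOn ℂ (fun s => L s - u * s) (ball (t : ℂ) 3) :=
    ((hd.mono ((ball_subset_ball (by linarith)).trans hsub))).sub
      (differentiableOn_id.const_mul u)
  have hkey : ∀ s ∈ ball (t : ℂ) 3, ‖deriv (fun s => L s - u * s) s‖ ≤ ‖u‖ / 8 := by
    intro s hs
    have hLs : DifferentiableAt ℂ L s := hd.differentiableAt (hOMo.mem_nhds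
      (hsub (ball_subset_ball (by linarith) hs)))
    have : deriv (fun s => L s - u * s) s = deriv L s - u := by
      have h1 : HasDerivAt (fun s => L s - u * s) (deriv L s - u * 1) s :=
        hLs.hasDerivAt.sub ((hasDerivAt_id s).const_mul u)
      rw [h1.deriv, mul_one]
    rw [this]
    exact hsch s hs
  have := (convex_ball (t : ℂ) 3).norm_image_sub_le_of_norm_deriv_le
    (f := fun s => L s - u * s)
    (fun s hs => hf.differentiableAt (isOpen_ball.mem_nhds hs)) hkey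
    (mem_ball_self (by norm_num : (0 : ℝ) < 3)) (y := w) (by
      rw [mem_ball, dist_eq_norm]
      linarith)
  calc ‖L w - L t - u * (w - t)‖ = ‖L w - u * w - (L t - u * t)‖ := by
        congr 1
        ring
    _ ≤ ‖u‖ / 8 * ‖w - t‖ := this
    _ ≤ ‖u‖ / 8 * 2 := by gcongr
    _ = ‖u‖ / 4 := by ring

theorem p_ACA (hSML : T_SML) (hSHF : T_SHF) (hTLE : T_TLE) (hXPR : T_XPR) : T_ACA := by
  intro C hC
  have hC0 : 0 < C := by linarith
  obtain ⟨C1, hC1, hT1⟩ := hTLE
  have hC10 : 0 < C1 := by linarith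
  obtain ⟨η3, hη3, hS⟩ := hSML C (48 * (C1 + 2)) hC
  obtain ⟨η4, hη4, hH⟩ := hSHF C hC
  obtain ⟨e, he, he1, he2⟩ : ∃ e : ℝ, 0 < e ∧ e ≤ 1 / 4 ∧ 9 * C1 ^ 2 * e ≤ 1 := by
    refine ⟨min (1 / 4) (1 / (9 * C1 ^ 2)), by positivity, min_le_left _ _, ?_⟩
    have : min (1 / 4) (1 / (9 * C1 ^ 2)) ≤ 1 / (9 * C1 ^ 2) := min_le_right _ _
    rw [le_div_iff₀ (by positivity)] at this
    linarith
  obtain ⟨η, hη, ha, hb, hc⟩ : ∃ η : ℝ, 0 < η ∧ η ≤ η3 ∧ η ≤ η4 ∧ η ≤ 1 / C :=
    ⟨min (min η3 η4) (1 / C), by positivity, (min_le_left _ _).trans (min_le_left _ _),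
      (min_le_left _ _).trans (min_le_right _ _), min_le_right _ _⟩
  refine ⟨e, η, he, hη, ?_⟩
  intro k c z a L l G p ρ hDat hl hG hD j t hj ht hjp
  have X := hXPR k c z a L hDat
  have hR : 0 < Rl k z L l := X.pos l
  have hρ := hD.hρ
  obtain ⟨E, hE⟩ : ∃ E : ℂ, E = L j t := ⟨_, rfl⟩
  have hEp : ‖E - p‖ = ρ := by rw [hE]; exact hjp
  have hEz : ‖E - z l‖ ≤ η * Rl k z L l := by
    have h2 := norm_add_le (E - p) (p - z l)
    rw [show E - p + (p - z l) = E - z l by ring] at h2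
    have h3 := hD.hs
    linarith
  have htT : 48 * (C1 + 2) ≤ t := by
    refine hS k c z a L l G hDat hl hG j t hj ht ?_
    rw [← hE]
    exact hEz.trans (mul_le_mul_of_nonneg_right ha hR.le)
  have ht1 : 0 ≤ t - 1 := by linarith
  have hcast : (((t - 1 : ℝ) : ℂ) + 1) = (t : ℂ) := by push_cast; ring
  have hGe : G E = L j ((t - 1 : ℝ) : ℂ) := by
    have := (hH k c z a L l G hDat hl hG j (t - 1) hj ht1 ?_).2
    · rw [hcast, ← hE] at this
      exact this
    · rw [hcast, ← hE]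
      exact hEz.trans (mul_le_mul_of_nonneg_right hb hR.le)
  have hTa := hT1 k c z a L hDat j (t - 1) hj ht1
  have hTb := hT1 k c z a L hDat j t hj ht
  rw [hcast] at hTa
  obtain ⟨-, hTa2, -, -, hTa5, -, -⟩ := hTa
  obtain ⟨hTb1, -, -, -, -, -, hTb7⟩ := hTb
  rw [← hE] at hTa2
  obtain ⟨u, hu⟩ : ∃ u : ℂ, u = deriv (L j) t := ⟨_, rfl⟩
  rw [← hu] at hTb1 hTa5
  have hdisp : ‖E - L j ((t - 1 : ℝ) : ℂ)‖ ≤ e * ρ := by
    rw [← hGe, norm_sub_rev]
    exact hD.near E (by linarith)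
  have hus : ‖u‖ ≤ C1 ^ 2 * (e * ρ) := by
    calc ‖u‖ ≤ C1 * ‖deriv (L j) ((t - 1 : ℝ) : ℂ)‖ := hTa5
      _ ≤ C1 * (C1 * (e * ρ)) := by
        refine mul_le_mul_of_nonneg_left (hTa2.trans ?_) hC10.le
        exact mul_le_mul_of_nonneg_left hdisp hC10.le
      _ = _ := by ring
  have hlin : ∀ w : ℂ, ‖w - t‖ ≤ 2 → ‖L j w - E - u * (w - t)‖ ≤ ‖u‖ / 4 := by
    intro w hw
    rw [hE, hu]
    exact aca_lin hC1 htT (hDat.ftc.dif j) (fun s hs => (hTb7 s hs).1) (by rw [← hu]; exact hTb1) hw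
  -- tangency
  obtain ⟨ν, hν⟩ : ∃ ν : ℂ, ν = p - E := ⟨_, rfl⟩
  have hνn : ‖ν‖ = ρ := by rw [hν, norm_sub_rev, hEp]
  have hOMo : IsOpen OM := by
    have h1 : IsOpen {t : ℂ | t.im ≠ 0} := isOpen_ne.preimage Complex.continuous_im
    have h2 : IsOpen {t : ℂ | -1 < t.re} := isOpen_lt continuous_const Complex.continuous_re
    exact h1.union h2
  have htOM : (t : ℂ) ∈ OM := by
    right
    rw [Complex.ofReal_re]
    linarith
  have htan : (starRingEnd ℂ ν * u).re = 0 := by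
    have h1 : HasDerivAt (fun s : ℝ => L j s - p) u t := by
      have h2 : HasDerivAt (L j) u (t : ℂ) := by
        rw [hu]
        exact ((hDat.ftc.dif j).differentiableAt (hOMo.mem_nhds htOM)).hasDerivAt
      exact (h2.comp_ofReal).sub_const p
    have h3 := h1.norm_sq
    have h4 : IsLocalMin (fun s : ℝ => ‖L j s - p‖ ^ 2) t := by
      have h5 : ∀ᶠ s : ℝ in 𝓝 t, 0 < s := lt_mem_nhds (by linarith)
      filter_upwards [h5] with s hs
      have h6 : L j s ∈ XX k z L := ⟨j, hj, Or.inr ⟨s, hs.le, rfl⟩⟩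
      have h7 : ρ ≤ ‖L j s - p‖ := by
        by_contra hcon
        push Not at hcon
        exact hD.free _ (by rw [mem_ball, dist_eq_norm]; exact hcon) h6
      have h8 : ‖L j t - p‖ = ρ := hjp
      show ‖L j t - p‖ ^ 2 ≤ ‖L j s - p‖ ^ 2
      rw [h8]
      gcongr
    have h9 := h4.hasDerivAt_eq_zero h3
    have h10 : inner ℝ (L j t - p) u = 0 := by linarith
    rw [Complex.inner] at h10
    have h11 : starRingEnd ℂ ν * u = -(starRingEnd ℂ (L j t - p) * u) := by
      rw [hν, hE, ← neg_mul, ← map_neg, neg_sub]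
    rw [h11, Complex.neg_re, neg_eq_zero]
    rw [mul_comm] at h10
    exact h10
  have hnorm : |(starRingEnd ℂ ν * u).im| = ρ * ‖u‖ := by
    have h1 : ‖starRingEnd ℂ ν * u‖ = ρ * ‖u‖ := by
      rw [norm_mul, RCLike.norm_conj, hνn]
    have h2 := Complex.normSq_apply (starRingEnd ℂ ν * u)
    rw [htan, Complex.normSq_eq_norm_sq, mul_zero, zero_add, ← pow_two] at h2
    rw [← h1, ← abs_of_nonneg (norm_nonneg (starRingEnd ℂ ν * u))]
    exact (sq_eq_sq_iff_abs_eq_abs _ _).1 h2.symm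
  -- the sign
  obtain ⟨h, hh0, hh1, hh⟩ : ∃ h : ℝ, h ≠ 0 ∧ |h| = 1 ∧
      -(starRingEnd ℂ ν * u).im * h = ρ * ‖u‖ := by
    rcases le_total 0 (starRingEnd ℂ ν * u).im with h0 | h0
    · refine ⟨-1, by norm_num, by norm_num, ?_⟩
      rw [← hnorm, abs_of_nonneg h0]
      ring
    · refine ⟨1, by norm_num, by norm_num, ?_⟩
      rw [← hnorm, abs_of_nonpos h0]
      ring
  obtain ⟨τ, hτ⟩ : ∃ τ : ℂ, τ = t + h * I := ⟨_, rfl⟩
  have hτim : τ.im ≠ 0 := by
    rw [hτ]
    simpa using hh0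
  have hin : ∀ s ∈ Icc (0 : ℝ) 1, L j (τ - s) ∈ ball p ρ := by
    intro s hs
    have hws : τ - s - t = h * I - s := by rw [hτ]; ring
    have hwn : ‖τ - s - t‖ ≤ 2 := by
      rw [hws]
      refine (norm_sub_le _ _).trans ?_
      rw [norm_mul, Complex.norm_I, Complex.norm_real, Complex.norm_real, Real.norm_eq_abs, hh1,
        Real.norm_of_nonneg hs.1]
      linarith [hs.2]
    have h1 := hlin (τ - s) hwn
    obtain ⟨er, her⟩ : ∃ er : ℂ, er = L j (τ - s) - E - u * (τ - s - t) := ⟨_, rfl⟩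
    rw [← her] at h1
    refine aca_in hEp ?_
    rw [← hν]
    have h2 : L j (τ - s) - E = u * (h * I - s) + er := by
      rw [her, hws]
      ring
    rw [h2]
    have h3 : ‖u * (h * I - s) + er‖ ≤ 9 / 4 * ‖u‖ := by
      refine (norm_add_le _ _).trans ?_
      rw [norm_mul]
      rw [hws] at hwn
      nlinarith [norm_nonneg u]
    have h4 : 3 / 4 * (ρ * ‖u‖) ≤ (starRingEnd ℂ ν * (u * (h * I - s) + er)).re := by
      have h5 : starRingEnd ℂ ν * (u * (h * I - s) + er) =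
          (starRingEnd ℂ ν * u) * (h * I - s) + starRingEnd ℂ ν * er := by ring
      rw [h5, Complex.add_re, Complex.mul_re, htan]
      have h6 : (h * I - s : ℂ).im = h := by simp
      rw [h6]
      have h7 : |(starRingEnd ℂ ν * er).re| ≤ ρ * (‖u‖ / 4) := by
        refine (Complex.abs_re_le_norm _).trans ?_
        rw [norm_mul, RCLike.norm_conj, hνn]
        gcongr
      have h8 := (abs_le.1 h7).1
      linarith
    have h9 : ‖u‖ ^ 2 * 9 ≤ ρ * ‖u‖ := by
      have : 9 * ‖u‖ ≤ ρ := by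
        calc 9 * ‖u‖ ≤ 9 * (C1 ^ 2 * (e * ρ)) := by gcongr
          _ = (9 * C1 ^ 2 * e) * ρ := by ring
          _ ≤ 1 * ρ := by gcongr
          _ = ρ := one_mul _
      nlinarith [norm_nonneg u]
    have hpos : 0 < ρ * ‖u‖ := by positivity
    calc ‖u * (h * I - s) + er‖ ^ 2 ≤ (9 / 4 * ‖u‖) ^ 2 := by gcongr
      _ < 2 * (3 / 4 * (ρ * ‖u‖)) := by nlinarith
      _ ≤ _ := by gcongr
  have h0 : L j τ ∈ ball p ρ := by
    have := hin 0 ⟨le_rfl, zero_le_one⟩
    rwa [Complex.ofReal_zero, sub_zero] at this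
  have h1 : L j (τ - 1) ∈ ball p ρ := by
    have := hin 1 ⟨zero_le_one, le_rfl⟩
    rwa [Complex.ofReal_one] at this
  have hsh : G (L j τ) = L j (τ - 1) := by
    have hx1 : ‖L j (τ - 1) - z l‖ ≤ Rl k z L l / C := by
      rw [mem_ball, dist_eq_norm] at h1
      have h2 := norm_add_le (L j (τ - 1) - p) (p - z l)
      rw [show L j (τ - 1) - p + (p - z l) = L j (τ - 1) - z l by ring] at h2
      have h3 := hD.hs
      have h4 : 1 / C * Rl k z L l = Rl k z L l / C := by ring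
      have h5 : η * Rl k z L l ≤ 1 / C * Rl k z L l := mul_le_mul_of_nonneg_right hc hR.le
      linarith
    have h2 := (hG.lft _ hx1).2.1
    have h3 : (F 2 c)^[k] (L j (τ - 1)) = L j τ := by
      have hom : (τ - 1 : ℂ) ∈ OM := by
        left
        rw [Complex.sub_im, Complex.one_im, sub_zero]
        exact hτim
      have := X.itn j 1 (τ - 1) hom
      rw [mul_one, Nat.cast_one, sub_add_cancel] at this
      exact this
    rwa [h3] at h2
  have hCR : η * Rl k z L l ≤ Rl k z L l := by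
    have : 1 / C ≤ 1 := by
      rw [div_le_one hC0]
      linarith
    nlinarith
  refine ⟨τ, ⟨hτim, hin, ?_, hsh⟩⟩
  refine aca_seg hρ he1 (hG.dif.mono ?_) hD.near h0 (by rw [hsh]; exact h1)
  intro w hw
  rw [mem_ball, dist_eq_norm] at hw ⊢
  have h2 := norm_add_le (w - p) (p - z l)
  rw [show w - p + (p - z l) = w - z l by ring] at h2
  have h3 := hD.hs
  linarith

end Pool.Agent.CUSP
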