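import Pool.Agent.CUSP.Targets3

/-!
# CUSP-ACF: the coefficients on the grand orbit exist
-/

set_option autoImplicit false

open Complex Filter Topology Set MeasureTheory
open Pool.Agent.Limb (F)
open Pool.Agent.PLim (Rho)
open Pool.Agent.MEY (Pt)
open Pool.Agent.PSat (Comp Sat)
open Pool.Agent.AEN (vm Hp Exn)
open Pool.Agent.MEZ (T_NCZ T_SECZ)

namespace Pool.Agent.CUSP

namespace ACF_

/-- The chain rule for the iterates. -/
theorem chain (h₁ : T_CRV) (c : ℂ) (n i : ℕ) (y : ℂ) :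
    deriv ((F 2 c)^[n + i]) y = deriv ((F 2 c)^[n]) y * deriv ((F 2 c)^[i]) ((F 2 c)^[n] y) := by
  rw [(h₁ c (n + i) y).1, (h₁ c n y).1, (h₁ c i _).1, Finset.prod_range_add]
  congr 1
  refine Finset.prod_congr rfl fun j _ => ?_
  rw [Nat.add_comm n j, Function.iterate_add_apply]

/-- Iteration of the relation between the coefficients. -/
theorem iter (h₁ : T_CRV) (h₂ : T_AST) {k : ℕ} {c : ℂ} {z a : ℕ → ℂ} (hP : Prb k c z a)
    (l i : ℕ) : a l = a (l + i) * deriv ((F 2 c)^[i]) (z l) := by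
  have hz : ∀ j : ℕ, (F 2 c)^[j] (z l) = z (l + j) := (h₂ k c z a hP l).2.2.2.2.1
  rw [(h₁ c i (z l)).1]
  have h : ∀ i : ℕ, a l = a (l + i) * ∏ j ∈ Finset.range i, (2 * z (l + j)) := by
    intro i
    induction i with
    | zero => simp
    | succ i ih =>
      rw [Finset.prod_range_succ, ← Nat.add_assoc]
      have h3 := (h₂ k c z a hP (l + i)).1
      rw [ih, h3]
      ring
  rw [h i]
  congr 1
  exact Finset.prod_congr rfl fun j _ => by rw [hz j]

/-- Equal points have equal coefficients. -/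
theorem same {k : ℕ} {c : ℂ} {z a : ℕ → ℂ} (hP : Prb k c z a) {l m : ℕ} (h : z l = z m) :
    a l = a m := by
  have h1 := hP.sec l
  have h2 := hP.sec m
  rw [h, h2] at h1
  exact (mul_left_cancel₀ two_ne_zero h1).symm

/-- The coefficient is well defined, ordered case. -/
theorem wd (h₁ : T_CRV) (h₂ : T_AST) {k : ℕ} {c : ℂ} {z a : ℕ → ℂ} (hP : Prb k c z a)
    {y : ℂ} {n m l l' : ℕ} (hn : (F 2 c)^[n] y = z l) (hm : (F 2 c)^[m] y = z l')
    (hnm : n ≤ m) : a l * deriv ((F 2 c)^[n]) y = a l' * deriv ((F 2 c)^[m]) y := by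
  obtain ⟨i, rfl⟩ := Nat.exists_eq_add_of_le hnm
  have hz : (F 2 c)^[i] (z l) = z (l + i) := (h₂ k c z a hP l).2.2.2.2.1 i
  have h3 : z l' = z (l + i) := by
    rw [← hm, Nat.add_comm n i, Function.iterate_add_apply, hn, hz]
  rw [same hP h3, chain h₁, hn, iter h₁ h₂ hP l i]
  ring

end ACF_

open ACF_ in
open scoped Classical in
/-- The coefficients exist. -/
theorem p_ACF (h₁ : T_CRV) (h₂ : T_AST) : T_ACF := by
  intro k c z a hP
  refine ⟨fun y => if h : ∃ p : ℕ × ℕ, (F 2 c)^[p.1] y = z p.2 then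
    a h.choose.2 * deriv ((F 2 c)^[h.choose.1]) y else 0, ?_⟩
  intro y n l hn
  have h : ∃ p : ℕ × ℕ, (F 2 c)^[p.1] y = z p.2 := ⟨(n, l), hn⟩
  beta_reduce
  rw [dif_pos h]
  rcases le_total h.choose.1 n with hle | hle
  · exact wd h₁ h₂ hP h.choose_spec hn hle
  · exact (wd h₁ h₂ hP hn h.choose_spec hle).symm

end Pool.Agent.CUSP
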