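import Pool.Agent.CUSP.Targets3

/-!
# CUSP: the second derivative at a parabolic point does not vanish
-/

set_option autoImplicit false

open Complex Filter Topology Set MeasureTheory
open Pool.Agent.Limb (F)
open Pool.Agent.PLim (Rho)
open Pool.Agent.MEY (Pt)
open Pool.Agent.PSat (Comp Sat)
open Pool.Agent.AEN (vm Hp Exn)
open Pool.Agent.MEZ (T_NCZ T_SECZ)

namespace Pool.Agent.CUSP

namespace ANZ_

theorem itd (c : ℂ) (j : ℕ) : Differentiable ℂ ((F 2 c)^[j]) := by
  induction j with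
  | zero => exact differentiable_id
  | succ j ih =>
    rw [Function.iterate_succ']
    have h : Differentiable ℂ (F 2 c) := by
      intro x
      show DifferentiableAt ℂ (fun z => z ^ 2 + c) x
      fun_prop
    exact h.comp ih

theorem d1 (c : ℂ) (j : ℕ) (x : ℂ) :
    deriv ((F 2 c)^[j + 1]) x = 2 * (F 2 c)^[j] x * deriv ((F 2 c)^[j]) x := by
  have h0 : (F 2 c)^[j + 1] = fun x => (F 2 c)^[j] x ^ 2 + c := by
    funext x
    rw [Function.iterate_succ_apply']
    rfl
  rw [h0]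
  have h1 : HasDerivAt ((F 2 c)^[j]) (deriv ((F 2 c)^[j]) x) x := ((itd c j) x).hasDerivAt
  have h2 : HasDerivAt (fun x => (F 2 c)^[j] x ^ 2 + c)
      (2 * (F 2 c)^[j] x * deriv ((F 2 c)^[j]) x) x := by
    have h3 := (h1.pow 2).add_const c
    refine h3.congr_deriv ?_
    simp
  exact h2.deriv

theorem dd (c : ℂ) (j : ℕ) (x : ℂ) : DifferentiableAt ℂ (deriv ((F 2 c)^[j])) x := by
  have h := ((itd c j).differentiableOn (s := univ)).deriv isOpen_univ
  exact h.differentiableAt univ_mem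

theorem d2 (c : ℂ) (j : ℕ) (x : ℂ) :
    deriv (deriv ((F 2 c)^[j + 1])) x = 2 * deriv ((F 2 c)^[j]) x ^ 2 +
      2 * (F 2 c)^[j] x * deriv (deriv ((F 2 c)^[j])) x := by
  have h0 : deriv ((F 2 c)^[j + 1]) = fun x => 2 * (F 2 c)^[j] x * deriv ((F 2 c)^[j]) x :=
    funext (d1 c j)
  rw [h0]
  have h1 : HasDerivAt ((F 2 c)^[j]) (deriv ((F 2 c)^[j]) x) x := ((itd c j) x).hasDerivAt
  have h2 := (dd c j x).hasDerivAt
  have h3 := (h1.const_mul 2).mul h2
  have h4 : HasDerivAt (fun x => 2 * (F 2 c)^[j] x * deriv ((F 2 c)^[j]) x)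
      (2 * deriv ((F 2 c)^[j]) x ^ 2 + 2 * (F 2 c)^[j] x * deriv (deriv ((F 2 c)^[j])) x) x := by
    refine h3.congr_deriv ?_
    ring
  exact h4.deriv

end ANZ_

theorem p_ANZ (h₁ : T_TRX) (h₂ : Pool.Agent.PLim.T_TRL) : T_ANZ := by
  intro k c z hk stp per dst hrho h0
  have hit : ∀ j, (F 2 c)^[j] (z 0) = z j := by
    intro j
    induction j with
    | zero => rfl
    | succ j ih => rw [Function.iterate_succ_apply', ih, stp]
  set D : ℕ → ℂ := fun j => deriv ((F 2 c)^[j]) (z 0) with hD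
  set E : ℕ → ℂ := fun j => deriv (deriv ((F 2 c)^[j])) (z 0) with hE
  have D0 : D 0 = 1 := by
    show deriv (id : ℂ → ℂ) (z 0) = 1
    exact deriv_id _
  have E0 : E 0 = 0 := by
    show deriv (deriv (id : ℂ → ℂ)) (z 0) = 0
    have h : deriv (id : ℂ → ℂ) = fun _ => 1 := deriv_id'
    rw [h, deriv_const]
  have Ds : ∀ j, D (j + 1) = 2 * z j * D j := by
    intro j
    rw [← hit j]
    exact ANZ_.d1 c j (z 0)
  have Es : ∀ j, E (j + 1) = 2 * D j ^ 2 + 2 * z j * E j := by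
    intro j
    rw [← hit j]
    exact ANZ_.d2 c j (z 0)
  have Dk : D k = 1 := hrho
  have Ek : E k = 0 := h0
  have hprod : ∀ j, D j = ∏ i ∈ Finset.range j, (2 * z i) := by
    intro j
    induction j with
    | zero => simpa using D0
    | succ j ih => rw [Ds, ih, Finset.prod_range_succ, mul_comm]
  have hper : Function.Periodic z k := per
  have hz : ∀ j, z j ≠ 0 := by
    intro j hj
    have h3 : z (j % k) = 0 := by rw [hper.map_mod_nat, hj]
    have h4 : j % k ∈ Finset.range k := Finset.mem_range.mpr (Nat.mod_lt _ hk)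
    have h5 : ∏ i ∈ Finset.range k, (2 * z i) = 0 :=
      Finset.prod_eq_zero h4 (by rw [h3, mul_zero])
    rw [← hprod, Dk] at h5
    exact one_ne_zero h5
  have hDne : ∀ j, D j ≠ 0 := by
    intro j
    induction j with
    | zero => rw [D0]; exact one_ne_zero
    | succ j ih =>
      rw [Ds]
      exact mul_ne_zero (mul_ne_zero two_ne_zero (hz j)) ih
  have hDper : ∀ j, D (j + k) = D j := by
    intro j
    induction j with
    | zero => rw [zero_add, Dk, D0]
    | succ j ih =>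
      have h3 : j + 1 + k = (j + k) + 1 := by ring
      rw [h3, Ds, ih, per, Ds]
  have hcyc : Pool.Agent.PLim.Cyc 2 k c z := by
    refine ⟨hk, ?_, per, dst, hz⟩
    intro j
    exact (stp j).symm
  set β : ℕ → ℂ := fun j => (D j)⁻¹ with hβ
  have hβs : ∀ j, β (j + 1) * (2 * z j) = β j := by
    intro j
    have h3 := hDne j
    have h4 := hz j
    show (D (j + 1))⁻¹ * (2 * z j) = (D j)⁻¹
    rw [Ds]
    field_simp
  have hβper : ∀ j, β (j + k) = β j := by
    intro j
    show (D (j + k))⁻¹ = (D j)⁻¹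
    rw [hDper]
  have hβ0 : β 0 ≠ 0 := inv_ne_zero (hDne 0)
  have hsum := h₁ k c z β hcyc hβs hβper hβ0
  set r0 : ℂ := (∑ j ∈ Finset.range k, E j / D j ^ 2) / ∑ j ∈ Finset.range k, β j with hr0
  set r : ℕ → ℂ := fun j => r0 * β j - E j / D j ^ 2 with hr
  have hrs : ∀ j, r (j + 1) = r j / Pool.Agent.PLim.fp 2 (z j) -
      Pool.Agent.PLim.fpp 2 (z j) / Pool.Agent.PLim.fp 2 (z j) ^ 2 := by
    intro j
    have h3 := hDne j
    have h4 := hz j
    have h5 : Pool.Agent.PLim.fp 2 (z j) = 2 * z j := by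
      simp [Pool.Agent.PLim.fp]
    have h6 : Pool.Agent.PLim.fpp 2 (z j) = 2 := by
      simp only [Pool.Agent.PLim.fpp, Nat.sub_self, pow_zero]
      norm_num
    rw [h5, h6]
    show r0 * (D (j + 1))⁻¹ - E (j + 1) / D (j + 1) ^ 2 =
      (r0 * (D j)⁻¹ - E j / D j ^ 2) / (2 * z j) - 2 / (2 * z j) ^ 2
    rw [Ds, Es]
    field_simp
    ring
  have hrper : ∀ j, r (j + k) = r j := by
    intro j
    induction j with
    | zero =>
      show r0 * (D (0 + k))⁻¹ - E (0 + k) / D (0 + k) ^ 2 = r0 * (D 0)⁻¹ - E 0 / D 0 ^ 2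
      rw [zero_add, Dk, Ek, D0, E0]
    | succ j ih =>
      have h3 : j + 1 + k = (j + k) + 1 := by ring
      rw [h3, hrs, ih, per, ← hrs]
  have hrsum : ∑ j ∈ Finset.range k, r j = 0 := by
    have h3 : ∑ j ∈ Finset.range k, r j = r0 * ∑ j ∈ Finset.range k, β j -
        ∑ j ∈ Finset.range k, E j / D j ^ 2 := by
      rw [Finset.mul_sum, ← Finset.sum_sub_distrib]
    rw [h3, hr0, div_mul_cancel₀ _ hsum, sub_self]
  refine h₂ 2 k c z r le_rfl hcyc ⟨hrper, hrs⟩ hrsum ?_
  have h7 : ∏ j ∈ Finset.range k, Pool.Agent.PLim.fp 2 (z j) = 1 := by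
    rw [← Dk, hprod]
    refine Finset.prod_congr rfl fun j _ => ?_
    simp [Pool.Agent.PLim.fp]
  rw [h7, norm_one]

end Pool.Agent.CUSP
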