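import Pool.Agent.CUSP.Targets
import Pool.Agent.PLim.CHV
import Pool.Agent.PLim.DEG1

/-!
# CUSP, target ARE: the area theorem
-/

set_option autoImplicit false

open Complex Filter Topology Set MeasureTheory
open Pool.Agent.Limb (F)
open Pool.Agent.PLim (Rho)
open Pool.Agent.MEY (Pt)
open Pool.Agent.PSat (Comp Sat)
open Pool.Agent.AEN (vm Hp Exn)
open Pool.Agent.Multibrot (annul annul_meas lintegral_annul)

namespace Pool.Agent.CUSP

namespace ARE_

/-! ### The circle estimate -/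

/-- pointwise bound -/
theorem pt {D z b : ℂ} {ρ : ℝ} (hz : ‖z‖ = ρ) (h0 : 0 < ρ) :
    (2 * D * (starRingEnd ℂ b - z ^ 2 / (ρ : ℂ) ^ 4)).re - ‖b‖ ^ 2 + (ρ ^ 4)⁻¹ ≤
      ‖D - (z ^ 2)⁻¹‖ ^ 2 := by
  have hz0 : z ≠ 0 := by
    rintro rfl
    rw [norm_zero] at hz
    linarith
  have e1 : starRingEnd ℂ ((z ^ 2)⁻¹) = z ^ 2 / (ρ : ℂ) ^ 4 := by
    have h1 : z * starRingEnd ℂ z = (ρ : ℂ) ^ 2 := by
      rw [Complex.mul_conj, Complex.normSq_eq_norm_sq, hz]
      push_cast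
      ring
    have hc : starRingEnd ℂ z ≠ 0 := (map_ne_zero _).2 hz0
    have hρ : (ρ : ℂ) ≠ 0 := by exact_mod_cast h0.ne'
    rw [map_inv₀, map_pow]
    rw [eq_div_iff (pow_ne_zero _ hρ), inv_mul_eq_iff_eq_mul₀ (pow_ne_zero _ hc)]
    have h2 : (ρ : ℂ) ^ 4 = (z * starRingEnd ℂ z) ^ 2 := by rw [h1]; ring
    rw [h2]
    ring
  have e2 : ‖D - (z ^ 2)⁻¹‖ ^ 2 = ‖D‖ ^ 2 + (ρ ^ 4)⁻¹ - 2 * (D * (z ^ 2 / (ρ : ℂ) ^ 4)).re := by
    rw [← Complex.normSq_eq_norm_sq, Complex.normSq_sub, Complex.normSq_eq_norm_sq,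
      Complex.normSq_eq_norm_sq, e1, norm_inv, norm_pow, hz]
    rw [inv_pow, ← pow_mul]
  have e3 : 2 * (D * starRingEnd ℂ b).re - ‖b‖ ^ 2 ≤ ‖D‖ ^ 2 := by
    have h1 : 0 ≤ Complex.normSq (D - b) := Complex.normSq_nonneg _
    rw [Complex.normSq_sub, Complex.normSq_eq_norm_sq, Complex.normSq_eq_norm_sq] at h1
    linarith
  have e4 : (2 * D * (starRingEnd ℂ b - z ^ 2 / (ρ : ℂ) ^ 4)).re =
      2 * (D * starRingEnd ℂ b).re - 2 * (D * (z ^ 2 / (ρ : ℂ) ^ 4)).re := by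
    have h1 : 2 * D * (starRingEnd ℂ b - z ^ 2 / (ρ : ℂ) ^ 4) =
        2 * (D * starRingEnd ℂ b) - 2 * (D * (z ^ 2 / (ρ : ℂ) ^ 4)) := by ring
    rw [h1, Complex.sub_re]
    simp
  rw [e4, e2]
  linarith

/-- the mean of a holomorphic function over the interval `(-π, π)` -/
theorem mean {g : ℂ → ℂ} {ρ : ℝ} (h0 : 0 < ρ) (h1 : ρ < 1)
    (hg : DifferentiableOn ℂ g (Metric.ball 0 1)) :
    ∫ θ in Ioo (-Real.pi) Real.pi, g (circleMap 0 ρ θ) = (2 * Real.pi : ℝ) • g 0 := by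
  have hd : DiffContOnCl ℂ g (Metric.ball 0 |ρ|) := by
    rw [abs_of_pos h0]
    apply DifferentiableOn.diffContOnCl
    refine hg.mono ?_
    rw [closure_ball _ h0.ne']
    exact Metric.closedBall_subset_ball h1
  have h2 := hd.circleAverage
  rw [Real.circleAverage] at h2
  have hper : Function.Periodic (fun θ => g (circleMap 0 ρ θ)) (2 * Real.pi) := by
    intro θ
    simp only
    rw [periodic_circleMap 0 ρ θ]
  have h3 := hper.intervalIntegral_add_eq (-Real.pi) 0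
  rw [zero_add, show -Real.pi + 2 * Real.pi = Real.pi by ring] at h3
  rw [← h3, intervalIntegral.integral_of_le (by linarith [Real.pi_pos]),
    integral_Ioc_eq_integral_Ioo] at h2
  rw [← h2, smul_smul, mul_inv_cancel₀ (by positivity), one_smul]

/-- the circle estimate -/
theorem circ {φ : ℂ → ℂ} (hφ : DifferentiableOn ℂ φ (Metric.ball 0 1)) {ρ : ℝ} (h0 : 0 < ρ)
    (h1 : ρ < 1) :
    ENNReal.ofReal (2 * Real.pi * (‖deriv φ 0‖ ^ 2 + (ρ ^ 4)⁻¹)) ≤
      ∫⁻ θ in Ioo (-Real.pi) Real.pi,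
        ‖deriv φ (circleMap 0 ρ θ) - ((circleMap 0 ρ θ) ^ 2)⁻¹‖ₑ ^ 2 := by
  have hD : DifferentiableOn ℂ (deriv φ) (Metric.ball 0 1) := hφ.deriv Metric.isOpen_ball
  have hmem : ∀ θ : ℝ, circleMap 0 ρ θ ∈ Metric.ball (0 : ℂ) 1 := by
    intro θ
    rw [mem_ball_zero_iff, norm_circleMap_zero, abs_of_pos h0]
    exact h1
  have hDc : Continuous fun θ : ℝ => deriv φ (circleMap 0 ρ θ) :=
    hD.continuousOn.comp_continuous (continuous_circleMap 0 ρ) hmem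
  have hne : ∀ θ : ℝ, circleMap 0 ρ θ ^ 2 ≠ 0 := by
    intro θ
    exact pow_ne_zero _ (circleMap_ne_center h0.ne')
  have hc1 : Continuous fun θ : ℝ => deriv φ (circleMap 0 ρ θ) - ((circleMap 0 ρ θ) ^ 2)⁻¹ :=
    hDc.sub (((continuous_circleMap 0 ρ).pow 2).inv₀ hne)
  have hf : IntegrableOn (fun θ : ℝ =>
      ‖deriv φ (circleMap 0 ρ θ) - ((circleMap 0 ρ θ) ^ 2)⁻¹‖ ^ 2)
        (Ioo (-Real.pi) Real.pi) := by
    exact ((hc1.norm.pow 2).integrableOn_Icc (a := -Real.pi) (b := Real.pi)).mono_set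
      Ioo_subset_Icc_self
  obtain ⟨ψ, hψ⟩ : ∃ ψ : ℂ → ℂ, ψ = fun z => 2 * deriv φ z *
      (starRingEnd ℂ (deriv φ 0) - z ^ 2 / (ρ : ℂ) ^ 4) := ⟨_, rfl⟩
  have hψd : DifferentiableOn ℂ ψ (Metric.ball 0 1) := by
    rw [hψ]
    exact ((differentiableOn_const _).mul hD).mul ((differentiableOn_const _).sub
      (((differentiableOn_id).pow 2).div_const _))
  have hψc : Continuous fun θ : ℝ => ψ (circleMap 0 ρ θ) :=
    hψd.continuousOn.comp_continuous (continuous_circleMap 0 ρ) hmem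
  have hψi : IntegrableOn (fun θ : ℝ => ψ (circleMap 0 ρ θ)) (Ioo (-Real.pi) Real.pi) :=
    (hψc.integrableOn_Icc (a := -Real.pi) (b := Real.pi)).mono_set Ioo_subset_Icc_self
  have hi2 : IntegrableOn (fun θ : ℝ => (ψ (circleMap 0 ρ θ)).re) (Ioo (-Real.pi) Real.pi) :=
    hψi.re
  have hvol : (volume : Measure ℝ).real (Ioo (-Real.pi) Real.pi) = 2 * Real.pi := by
    rw [measureReal_def, Real.volume_Ioo, ENNReal.toReal_ofReal (by linarith [Real.pi_pos])]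
    ring
  have key : 2 * Real.pi * (‖deriv φ 0‖ ^ 2 + (ρ ^ 4)⁻¹) ≤
      ∫ θ in Ioo (-Real.pi) Real.pi,
        ‖deriv φ (circleMap 0 ρ θ) - ((circleMap 0 ρ θ) ^ 2)⁻¹‖ ^ 2 := by
    have hle : ∫ θ in Ioo (-Real.pi) Real.pi, ((ψ (circleMap 0 ρ θ)).re +
        (-‖deriv φ 0‖ ^ 2 + (ρ ^ 4)⁻¹)) ≤ ∫ θ in Ioo (-Real.pi) Real.pi,
          ‖deriv φ (circleMap 0 ρ θ) - ((circleMap 0 ρ θ) ^ 2)⁻¹‖ ^ 2 := by
      refine setIntegral_mono (hi2.add (integrableOn_const (by simp))) hf fun θ => ?_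
      have h2 := pt (D := deriv φ (circleMap 0 ρ θ)) (z := circleMap 0 ρ θ)
        (b := deriv φ 0) (ρ := ρ) (by rw [norm_circleMap_zero, abs_of_pos h0]) h0
      rw [hψ]
      simp only
      linarith
    refine le_trans (le_of_eq ?_) hle
    rw [integral_add hi2 (integrableOn_const (by simp))]
    have h3 : ∫ θ in Ioo (-Real.pi) Real.pi, (ψ (circleMap 0 ρ θ)).re =
        2 * Real.pi * (2 * ‖deriv φ 0‖ ^ 2) := by
      have h4 : ∫ θ in Ioo (-Real.pi) Real.pi, (ψ (circleMap 0 ρ θ)).re =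
          (∫ θ in Ioo (-Real.pi) Real.pi, ψ (circleMap 0 ρ θ)).re := by
        exact integral_re hψi
      rw [h4, mean h0 h1 hψd, Complex.smul_re, hψ]
      simp only
      have h5 : (2 * deriv φ 0 * (starRingEnd ℂ (deriv φ 0) - 0 ^ 2 / (ρ : ℂ) ^ 4)).re =
          2 * ‖deriv φ 0‖ ^ 2 := by
        have h6 : 2 * deriv φ 0 * (starRingEnd ℂ (deriv φ 0) - 0 ^ 2 / (ρ : ℂ) ^ 4) =
            ((2 * Complex.normSq (deriv φ 0) : ℝ) : ℂ) := by
          push_cast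
          rw [← Complex.mul_conj]
          ring
        rw [h6, Complex.ofReal_re, Complex.normSq_eq_norm_sq]
      rw [h5, smul_eq_mul]
    rw [h3, setIntegral_const, hvol, smul_eq_mul]
    ring
  have e : ∀ θ : ℝ, ‖deriv φ (circleMap 0 ρ θ) - ((circleMap 0 ρ θ) ^ 2)⁻¹‖ₑ ^ 2 =
      ENNReal.ofReal (‖deriv φ (circleMap 0 ρ θ) - ((circleMap 0 ρ θ) ^ 2)⁻¹‖ ^ 2) := by
    intro θ
    rw [ENNReal.ofReal_pow (norm_nonneg _), ofReal_norm]
  simp only [e]
  rw [← ofReal_integral_eq_lintegral_ofReal hf (Eventually.of_forall fun θ => by positivity)]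
  exact ENNReal.ofReal_le_ofReal key

/-! ### The lower bound of the area -/

/-- the radial integral -/
theorem radial {r B : ℝ} (h0 : 0 < r) (h1 : r < 1) (hB : 0 ≤ B) :
    ENNReal.ofReal (Real.pi * ((r ^ 2)⁻¹ - 1) + Real.pi * B * (1 - r ^ 2)) ≤
      ∫⁻ ρ in Ioo r 1, ENNReal.ofReal (ρ * (2 * Real.pi * (B + (ρ ^ 4)⁻¹))) := by
  have hpos : ∀ ρ ∈ Icc r 1, (0 : ℝ) < ρ := fun ρ hρ => lt_of_lt_of_le h0 hρ.1
  have hcont : ContinuousOn (fun ρ : ℝ => ρ * (2 * Real.pi * (B + (ρ ^ 4)⁻¹))) (Icc r 1) := by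
    refine continuousOn_id.mul (continuousOn_const.mul (continuousOn_const.add
      ((continuousOn_id.pow 4).inv₀ fun ρ hρ => ?_)))
    exact pow_ne_zero _ (hpos ρ hρ).ne'
  have hint : IntegrableOn (fun ρ : ℝ => ρ * (2 * Real.pi * (B + (ρ ^ 4)⁻¹))) (Ioo r 1) :=
    (hcont.integrableOn_Icc).mono_set Ioo_subset_Icc_self
  rw [← ofReal_integral_eq_lintegral_ofReal hint]
  · apply ENNReal.ofReal_le_ofReal
    rw [← integral_Ioc_eq_integral_Ioo, ← intervalIntegral.integral_of_le h1.le]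
    have hd : ∀ ρ ∈ uIcc r 1, HasDerivAt (fun ρ : ℝ => Real.pi * (B * ρ ^ 2 - (ρ ^ 2)⁻¹))
        (ρ * (2 * Real.pi * (B + (ρ ^ 4)⁻¹))) ρ := by
      intro ρ hρ
      rw [uIcc_of_le h1.le] at hρ
      have hρ0 : ρ ≠ 0 := (hpos ρ hρ).ne'
      have h2 : HasDerivAt (fun ρ : ℝ => ρ ^ 2) (2 * ρ) ρ := by
        simpa using hasDerivAt_pow 2 ρ
      have h3 : HasDerivAt (fun ρ : ℝ => (ρ ^ 2)⁻¹) (-(2 * ρ) / (ρ ^ 2) ^ 2) ρ :=
        h2.fun_inv (pow_ne_zero _ hρ0)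
      have h4 := ((h2.const_mul B).sub h3).const_mul Real.pi
      refine h4.congr_deriv ?_
      field_simp
      ring
    rw [intervalIntegral.integral_eq_sub_of_hasDerivAt hd]
    · apply le_of_eq
      ring
    · apply ContinuousOn.intervalIntegrable
      rw [uIcc_of_le h1.le]
      exact hcont
  · refine (ae_restrict_iff' measurableSet_Ioo).2 (Eventually.of_forall fun ρ hρ => ?_)
    have hρ0 : 0 < ρ := hpos ρ (Ioo_subset_Icc_self hρ)
    have := Real.pi_pos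
    show 0 ≤ ρ * (2 * Real.pi * (B + (ρ ^ 4)⁻¹))
    positivity

theorem lower {φ : ℂ → ℂ} (hφ : DifferentiableOn ℂ φ (Metric.ball 0 1)) {r : ℝ} (h0 : 0 < r)
    (h1 : r < 1) :
    ENNReal.ofReal (Real.pi * ((r ^ 2)⁻¹ - 1) + Real.pi * ‖deriv φ 0‖ ^ 2 * (1 - r ^ 2)) ≤
      ∫⁻ z in annul r 1, ‖deriv (fun z => 1 / z + φ z) z‖ₑ ^ 2 := by
  have hcongr : ∫⁻ z in annul r 1, ‖deriv (fun z => 1 / z + φ z) z‖ₑ ^ 2 =
      ∫⁻ z in annul r 1, ‖deriv φ z - (z ^ 2)⁻¹‖ₑ ^ 2 := by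
    refine setLIntegral_congr_fun (annul_meas r 1) fun z hz => ?_
    have hz' : r < ‖z‖ ∧ ‖z‖ < 1 := hz
    have hz0 : z ≠ 0 := by
      rintro rfl
      rw [norm_zero] at hz'
      linarith [hz'.1]
    have hd : HasDerivAt φ (deriv φ z) z :=
      (hφ.differentiableAt (Metric.isOpen_ball.mem_nhds
        (mem_ball_zero_iff.2 hz'.2))).hasDerivAt
    have h2 : HasDerivAt (fun z : ℂ => 1 / z + φ z) (-(z ^ 2)⁻¹ + deriv φ z) z := by
      have h3 : HasDerivAt (fun z : ℂ => 1 / z) (-(z ^ 2)⁻¹) z := by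
        simpa using hasDerivAt_inv hz0
      exact h3.add hd
    rw [h2.deriv, neg_add_eq_sub]
  rw [hcongr]
  have hm : Measurable fun z : ℂ => ‖deriv φ z - (z ^ 2)⁻¹‖ₑ ^ 2 :=
    (((measurable_deriv φ).sub ((measurable_id.pow_const 2).inv)).enorm).pow_const 2
  rw [lintegral_annul h0.le hm]
  refine (radial h0 h1 (by positivity : (0 : ℝ) ≤ ‖deriv φ 0‖ ^ 2)).trans ?_
  refine setLIntegral_mono' measurableSet_Ioo fun ρ hρ => ?_
  have hρ0 : 0 < ρ := lt_trans h0 hρ.1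
  have hm2 : Measurable fun θ : ℝ =>
      ‖deriv φ (circleMap 0 ρ θ) - ((circleMap 0 ρ θ) ^ 2)⁻¹‖ₑ ^ 2 :=
    hm.comp (continuous_circleMap 0 ρ).measurable
  rw [lintegral_const_mul _ hm2, ENNReal.ofReal_mul hρ0.le]
  exact mul_le_mul' le_rfl (circ hφ hρ0 hρ.2)

/-! ### The ellipse -/

/-- the real linear map `w ↦ w + c conj w` -/
noncomputable def TT (c : ℂ) : ℂ →ₗ[ℝ] ℂ where
  toFun w := w + c * starRingEnd ℂ w
  map_add' a b := by
    rw [map_add]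
    ring
  map_smul' t a := by
    simp only [Complex.real_smul, map_mul, Complex.conj_ofReal, RingHom.id_apply]
    ring

theorem TT_apply (c w : ℂ) : TT c w = w + c * starRingEnd ℂ w := rfl

theorem TT_det (c : ℂ) : LinearMap.det (TT c) = 1 - ‖c‖ ^ 2 := by
  rw [← LinearMap.det_toMatrix Complex.basisOneI, Matrix.det_fin_two]
  simp only [LinearMap.toMatrix_apply, TT_apply, Complex.coe_basisOneI,
    Complex.coe_basisOneI_repr]
  rw [← Complex.normSq_eq_norm_sq, Complex.normSq_apply]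
  simp
  ring

/-- the inverse -/
noncomputable def TI (c w : ℂ) : ℂ := (w - c * starRingEnd ℂ w) / ((1 - ‖c‖ ^ 2 : ℝ) : ℂ)

theorem sub_pos' {c : ℂ} (hc : ‖c‖ ≤ 1 / 2) : (0 : ℝ) < 1 - ‖c‖ ^ 2 := by
  nlinarith [norm_nonneg c]

theorem TT_TI {c : ℂ} (hc : ‖c‖ ≤ 1 / 2) (w : ℂ) : TT c (TI c w) = w := by
  have h1 : ((1 - ‖c‖ ^ 2 : ℝ) : ℂ) ≠ 0 := by exact_mod_cast (sub_pos' hc).ne'
  have h2 : starRingEnd ℂ c * c = ((‖c‖ ^ 2 : ℝ) : ℂ) := by
    rw [mul_comm, Complex.mul_conj, Complex.normSq_eq_norm_sq]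
  rw [TT_apply, TI, map_div₀, Complex.conj_ofReal, map_sub, map_mul, Complex.conj_conj]
  rw [mul_div_assoc', ← add_div, div_eq_iff h1]
  push_cast
  push_cast at h2
  linear_combination (-w) * h2

theorem TI_TT {c : ℂ} (hc : ‖c‖ ≤ 1 / 2) (w : ℂ) : TI c (TT c w) = w := by
  have h1 : ((1 - ‖c‖ ^ 2 : ℝ) : ℂ) ≠ 0 := by exact_mod_cast (sub_pos' hc).ne'
  have h2 : starRingEnd ℂ c * c = ((‖c‖ ^ 2 : ℝ) : ℂ) := by
    rw [mul_comm, Complex.mul_conj, Complex.normSq_eq_norm_sq]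
  rw [TI, TT_apply, map_add, map_mul, Complex.conj_conj, div_eq_iff h1]
  push_cast
  push_cast at h2
  linear_combination (-w) * h2

theorem TI_add (c w w' : ℂ) : TI c (w + w') = TI c w + TI c w' := by
  unfold TI
  rw [map_add, ← add_div]
  congr 1
  ring

theorem TI_norm {c : ℂ} (hc : ‖c‖ ≤ 1 / 2) (w : ℂ) : ‖TI c w‖ ≤ 2 * ‖w‖ := by
  unfold TI
  rw [norm_div, Complex.norm_real, Real.norm_eq_abs, abs_of_pos (sub_pos' hc),
    div_le_iff₀ (sub_pos' hc)]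
  have h1 : ‖w - c * starRingEnd ℂ w‖ ≤ ‖w‖ + ‖c‖ * ‖w‖ := by
    refine (norm_sub_le _ _).trans ?_
    rw [norm_mul, RCLike.norm_conj]
  nlinarith [norm_nonneg c, norm_nonneg w, mul_nonneg (norm_nonneg w)
    (mul_nonneg (sub_nonneg.2 hc) (norm_nonneg c))]

theorem TT_norm {c : ℂ} (hc : ‖c‖ ≤ 1 / 2) (w : ℂ) : ‖TT c w‖ ≤ 2 * ‖w‖ := by
  rw [TT_apply]
  refine (norm_add_le _ _).trans ?_
  rw [norm_mul, RCLike.norm_conj]
  nlinarith [norm_nonneg c, norm_nonneg w]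

theorem TT_cont (c : ℂ) : Continuous (TT c) := by
  have h : (TT c : ℂ → ℂ) = fun w => w + c * starRingEnd ℂ w := rfl
  rw [h]
  exact continuous_id.add (continuous_const.mul Complex.continuous_conj)

/-- the area of the ellipse -/
theorem vol_ell {c b : ℂ} {ρ : ℝ} (hρ : 0 ≤ ρ) (hc : ‖c‖ ≤ 1 / 2) :
    volume ((fun w => b + TT c w) '' Metric.closedBall 0 ρ) ≤
      ENNReal.ofReal (Real.pi * ρ ^ 2) := by
  have h1 : (fun w => b + TT c w) '' Metric.closedBall 0 ρ =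
      (fun x => b + x) '' (TT c '' Metric.closedBall 0 ρ) := by
    rw [image_image]
  rw [h1, image_add_left, measure_preimage_add, Measure.addHaar_image_linearMap, TT_det,
    Complex.volume_closedBall]
  have h2 : ENNReal.ofReal |1 - ‖c‖ ^ 2| ≤ 1 := by
    rw [← ENNReal.ofReal_one]
    apply ENNReal.ofReal_le_ofReal
    rw [abs_of_pos (sub_pos' hc)]
    nlinarith [norm_nonneg c]
  refine (mul_le_mul' h2 le_rfl).trans ?_
  rw [one_mul, ← ENNReal.ofReal_pow hρ, mul_comm, ENNReal.ofReal_mul Real.pi_pos.le]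
  apply le_of_eq
  congr 1
  rw [ENNReal.ofReal, ENNReal.coe_inj]
  exact (NNReal.coe_injective (by rw [Real.coe_toNNReal _ Real.pi_pos.le]; rfl))

/-- the outside of the ellipse is connected -/
theorem conn_out {c b : ℂ} {ρ : ℝ} (hρ : 0 < ρ) :
    IsPreconnected ((fun w => b + TT c w) '' {w : ℂ | ρ < ‖w‖}) := by
  have h1 : {w : ℂ | ρ < ‖w‖} = (fun w : ℂ => (ρ : ℂ) * w) '' {w : ℂ | 1 < ‖w‖} := by
    ext w
    constructor
    · intro hw
      have hw' : ρ < ‖w‖ := hw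
      refine ⟨w / ρ, ?_, ?_⟩
      · show 1 < ‖w / ρ‖
        rw [norm_div, Complex.norm_real, Real.norm_eq_abs, abs_of_pos hρ, lt_div_iff₀ hρ]
        linarith
      · show (ρ : ℂ) * (w / ρ) = w
        have : (ρ : ℂ) ≠ 0 := by exact_mod_cast hρ.ne'
        field_simp
    · rintro ⟨v, hv, rfl⟩
      have hv' : 1 < ‖v‖ := hv
      show ρ < ‖(ρ : ℂ) * v‖
      rw [norm_mul, Complex.norm_real, Real.norm_eq_abs, abs_of_pos hρ]
      nlinarith
  rw [h1]
  refine IsPreconnected.image (IsPreconnected.image Pool.Agent.PLim.DEG1_.conn _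
    (by fun_prop)) _ ?_
  exact (continuous_const.add (TT_cont c)).continuousOn

/-! ### The image of the outer annulus -/

theorem k_diff {φ : ℂ → ℂ} (hφ : DifferentiableOn ℂ φ (Metric.ball 0 1)) {z : ℂ} (h0 : z ≠ 0)
    (h1 : ‖z‖ < 1) : DifferentiableAt ℂ (fun z => 1 / z + φ z) z := by
  have hd : DifferentiableAt ℂ φ z :=
    hφ.differentiableAt (Metric.isOpen_ball.mem_nhds (mem_ball_zero_iff.2 h1))
  exact ((differentiableAt_const _).div differentiableAt_id h0).add hd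

theorem annul_open (a b : ℝ) : IsOpen (annul a b) :=
  (isOpen_lt continuous_const continuous_norm).inter (isOpen_lt continuous_norm continuous_const)

theorem mem_ann {a b : ℝ} {z : ℂ} : z ∈ annul a b ↔ a < ‖z‖ ∧ ‖z‖ < b := Iff.rfl

theorem open_im {φ : ℂ → ℂ} (hφ : DifferentiableOn ℂ φ (Metric.ball 0 1))
    (hi : InjOn (fun z => 1 / z + φ z) (Metric.ball 0 1 \ {0})) {r : ℝ} (h1 : r ≤ 1) :
    IsOpen ((fun z => 1 / z + φ z) '' annul 0 r) := by
  rw [isOpen_iff_mem_nhds]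
  rintro _ ⟨z, hz, rfl⟩
  obtain ⟨δ, hδ, hb⟩ := Metric.isOpen_iff.1 (annul_open 0 r) z hz
  have hsub : ∀ x ∈ Metric.ball z δ, x ≠ 0 ∧ ‖x‖ < 1 := by
    intro x hx
    have h2 := mem_ann.1 (hb hx)
    exact ⟨norm_pos_iff.1 h2.1, lt_of_lt_of_le h2.2 h1⟩
  have han : AnalyticOnNhd ℂ (fun z => 1 / z + φ z) (Metric.ball z δ) := by
    apply DifferentiableOn.analyticOnNhd _ Metric.isOpen_ball
    intro x hx
    exact (k_diff hφ (hsub x hx).1 (hsub x hx).2).differentiableWithinAt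
  have hzb : z ∈ Metric.ball z δ := Metric.mem_ball_self hδ
  rcases han.is_constant_or_isOpen (convex_ball _ _).isPreconnected with ⟨w, hw⟩ | ho
  · exfalso
    have hz2 : z + ((δ / 2 : ℝ) : ℂ) ∈ Metric.ball z δ := by
      rw [Metric.mem_ball, dist_eq_norm, add_sub_cancel_left, Complex.norm_real,
        Real.norm_eq_abs, abs_of_pos (by linarith)]
      linarith
    have hin : ∀ x ∈ Metric.ball z δ, x ∈ Metric.ball (0 : ℂ) 1 \ {0} := by
      intro x hx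
      exact ⟨mem_ball_zero_iff.2 (hsub x hx).2, (hsub x hx).1⟩
    have h3 := hi (hin _ hzb) (hin _ hz2) ((hw _ hzb).trans (hw _ hz2).symm)
    have h4 : ((δ / 2 : ℝ) : ℂ) = 0 := by
      have := congrArg (fun x => x - z) h3
      simpa using this.symm
    have h5 : δ / 2 = 0 := by exact_mod_cast h4
    linarith
  · exact mem_of_superset ((ho _ subset_rfl Metric.isOpen_ball).mem_nhds
      (mem_image_of_mem _ hzb)) (image_mono hb)

theorem claim {φ : ℂ → ℂ} (hφ : DifferentiableOn ℂ φ (Metric.ball 0 1))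
    (hi : InjOn (fun z => 1 / z + φ z) (Metric.ball 0 1 \ {0})) {r B ρ : ℝ} {c b : ℂ}
    (h0 : 0 < r) (h1 : r ≤ 1 / 2) (hB : ∀ z : ℂ, ‖z‖ ≤ 1 / 2 → ‖φ z‖ ≤ B) (hB0 : 0 ≤ B)
    (hc : ‖c‖ ≤ 1 / 2) (hρ : 0 < ρ)
    (hcirc : ∀ z : ℂ, ‖z‖ = r → ‖TI c (1 / z + φ z - b)‖ ≤ ρ) :
    (fun z => 1 / z + φ z) '' annul r 1 ⊆
      (fun w => b + TT c w) '' Metric.closedBall 0 ρ := by
  obtain ⟨k, hk⟩ : ∃ k : ℂ → ℂ, k = fun z => 1 / z + φ z := ⟨_, rfl⟩
  rw [← hk] at hi ⊢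
  have hkz : ∀ z, k z = 1 / z + φ z := fun z => by rw [hk]
  have hlow : ∀ z : ℂ, z ≠ 0 → ‖z‖ ≤ 1 / 2 → 1 / ‖z‖ - B ≤ ‖k z‖ := by
    intro z hz hz2
    have h2 : ‖(1 : ℂ) / z‖ = 1 / ‖z‖ := by rw [norm_div, norm_one]
    have h3 : ‖(1 : ℂ) / z‖ ≤ ‖k z‖ + ‖φ z‖ := by
      have h4 : (1 : ℂ) / z = k z - φ z := by rw [hkz]; ring
      rw [h4]
      exact norm_sub_le _ _
    have h5 := hB z hz2
    linarith
  obtain ⟨V, hV⟩ : ∃ V : Set ℂ, V = (fun w => b + TT c w) '' {w : ℂ | ρ < ‖w‖} := ⟨_, rfl⟩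
  have hVmem : ∀ x : ℂ, x ∈ V ↔ ρ < ‖TI c (x - b)‖ := by
    intro x
    rw [hV]
    constructor
    · rintro ⟨w, hw, rfl⟩
      simp only [add_sub_cancel_left]
      rw [TI_TT hc]
      exact hw
    · intro hx
      refine ⟨TI c (x - b), hx, ?_⟩
      simp only
      rw [TT_TI hc]
      ring
  have hu : IsOpen (k '' annul 0 r) := by
    rw [hk]
    rw [hk] at hi
    exact open_im hφ hi (by linarith)
  have hVu : V ⊆ k '' annul 0 r := by
    have hVc : IsPreconnected V := by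
      rw [hV]
      exact conn_out hρ
    refine hVc.subset_of_closure_inter_subset hu ?_ ?_
    · -- a point of both
      obtain ⟨t, ht⟩ : ∃ t : ℝ, t = min (r / 2) (1 / (2 * ρ + B + ‖b‖ + 1)) := ⟨_, rfl⟩
      have hden : 0 < 2 * ρ + B + ‖b‖ + 1 := by positivity
      have ht0 : 0 < t := by
        rw [ht]
        exact lt_min (by linarith) (by positivity)
      have htr : t ≤ r / 2 := by rw [ht]; exact min_le_left _ _
      have ht2 : t ≤ 1 / (2 * ρ + B + ‖b‖ + 1) := by rw [ht]; exact min_le_right _ _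
      have hn : ‖(t : ℂ)‖ = t := by
        rw [Complex.norm_real, Real.norm_eq_abs, abs_of_pos ht0]
      have htne : (t : ℂ) ≠ 0 := by exact_mod_cast ht0.ne'
      refine ⟨k t, (hVmem _).2 ?_, t, ⟨by rw [hn]; exact ht0, by rw [hn]; linarith⟩, rfl⟩
      have h3 : 2 * ρ + B + ‖b‖ + 1 ≤ 1 / t := by
        rw [le_div_iff₀ ht0]
        rw [le_div_iff₀ hden] at ht2
        linarith
      have h4 := hlow t htne (by rw [hn]; linarith)
      rw [hn] at h4
      have h5 : ‖k t‖ ≤ ‖k t - b‖ + ‖b‖ := by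
        have := norm_add_le (k t - b) b
        rwa [sub_add_cancel] at this
      have h6 : ‖k t - b‖ ≤ 2 * ‖TI c (k t - b)‖ := by
        have := TT_norm hc (TI c (k t - b))
        rwa [TT_TI hc] at this
      linarith
    · rintro w ⟨hw1, hw2⟩
      obtain ⟨δ, hδ⟩ : ∃ δ : ℝ, δ = 1 / (‖w‖ + B + 2) := ⟨_, rfl⟩
      have hden : 0 < ‖w‖ + B + 2 := by positivity
      have hδ0 : 0 < δ := by rw [hδ]; positivity
      obtain ⟨K, hK⟩ : ∃ K : Set ℂ, K = {z : ℂ | δ ≤ ‖z‖ ∧ ‖z‖ ≤ r} := ⟨_, rfl⟩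
      have hKc : IsCompact K := by
        have h2 : K = Metric.closedBall 0 r ∩ {z : ℂ | δ ≤ ‖z‖} := by
          ext z
          rw [hK]
          simp only [mem_ofPred_eq, mem_inter_iff, mem_closedBall_zero_iff]
          exact and_comm
        rw [h2]
        exact (isCompact_closedBall _ _).inter_right (isClosed_le continuous_const continuous_norm)
      have hCc : IsCompact (k '' K) := by
        refine hKc.image_of_continuousOn fun z hz => ?_
        rw [hK] at hz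
        have hz' : δ ≤ ‖z‖ ∧ ‖z‖ ≤ r := hz
        have hz0 : z ≠ 0 := norm_pos_iff.1 (lt_of_lt_of_le hδ0 hz'.1)
        rw [hk]
        exact (k_diff hφ hz0 (by linarith [hz'.2])).continuousAt.continuousWithinAt
      have hwC : w ∈ k '' K := by
        by_contra hcon
        have hnh : (k '' K)ᶜ ∩ Metric.ball w 1 ∈ 𝓝 w :=
          inter_mem (hCc.isClosed.isOpen_compl.mem_nhds hcon) (Metric.ball_mem_nhds _ one_pos)
        obtain ⟨y, ⟨hy1, hy2⟩, z, hz, rfl⟩ := mem_closure_iff_nhds.1 hw1 _ hnh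
        have hz' := mem_ann.1 hz
        have hz0 : z ≠ 0 := norm_pos_iff.1 hz'.1
        have h3 : ‖k z‖ < ‖w‖ + 1 := by
          rw [Metric.mem_ball, dist_eq_norm] at hy2
          have := norm_add_le (k z - w) w
          rw [sub_add_cancel] at this
          linarith
        have h4 := hlow z hz0 (by linarith [hz'.2])
        have h5 : δ ≤ ‖z‖ := by
          by_contra h6
          have h7 : ‖z‖ < 1 / (‖w‖ + B + 2) := by
            rw [← hδ]
            exact not_le.1 h6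
          have h8 : ‖w‖ + B + 2 < 1 / ‖z‖ := by
            rw [lt_div_iff₀ hz'.1]
            rw [lt_div_iff₀ hden] at h7
            linarith
          linarith
        apply hy1
        refine ⟨z, ?_, rfl⟩
        rw [hK]
        exact ⟨h5, hz'.2.le⟩
      obtain ⟨z, hz, rfl⟩ := hwC
      rw [hK] at hz
      have hz' : δ ≤ ‖z‖ ∧ ‖z‖ ≤ r := hz
      refine ⟨z, ⟨lt_of_lt_of_le hδ0 hz'.1, ?_⟩, rfl⟩
      rcases lt_or_eq_of_le hz'.2 with h | h
      · exact h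
      · exfalso
        have h2 := hcirc z h
        rw [← hkz] at h2
        have h3 := (hVmem _).1 hw2
        linarith
  rintro _ ⟨z, hz, rfl⟩
  by_cases hcase : ‖TI c (k z - b)‖ ≤ ρ
  · refine ⟨TI c (k z - b), mem_closedBall_zero_iff.2 hcase, ?_⟩
    simp only
    rw [TT_TI hc]
    ring
  · exfalso
    obtain ⟨z', hz', hzz⟩ := hVu ((hVmem _).2 (not_le.1 hcase))
    have m1 := mem_ann.1 hz
    have m2 := mem_ann.1 hz'
    have n1 : z ∈ Metric.ball (0 : ℂ) 1 \ {0} :=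
      ⟨mem_ball_zero_iff.2 m1.2, norm_pos_iff.1 (lt_trans h0 m1.1)⟩
    have n2 : z' ∈ Metric.ball (0 : ℂ) 1 \ {0} :=
      ⟨mem_ball_zero_iff.2 (by linarith [m2.2]), norm_pos_iff.1 m2.1⟩
    have h3 := hi n2 n1 hzz
    rw [h3] at m2
    linarith [m1.1, m2.2]

/-- Taylor expansion of order two -/
theorem taylor {φ : ℂ → ℂ} (hφ : DifferentiableOn ℂ φ (Metric.ball 0 1)) :
    ∃ A : ℝ, 0 ≤ A ∧ ∀ z : ℂ, ‖z‖ ≤ 1 / 2 → ‖φ z - φ 0 - deriv φ 0 * z‖ ≤ A * ‖z‖ ^ 2 := by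
  have hn : Metric.ball (0 : ℂ) 1 ∈ 𝓝 (0 : ℂ) := Metric.ball_mem_nhds _ one_pos
  have h1 : DifferentiableOn ℂ (dslope φ 0) (Metric.ball 0 1) :=
    (Complex.differentiableOn_dslope hn).2 hφ
  have h2 : DifferentiableOn ℂ (dslope (dslope φ 0) 0) (Metric.ball 0 1) :=
    (Complex.differentiableOn_dslope hn).2 h1
  have hsub : Metric.closedBall (0 : ℂ) (1 / 2) ⊆ Metric.ball 0 1 :=
    Metric.closedBall_subset_ball (by norm_num)
  obtain ⟨A, hA⟩ := (isCompact_closedBall (0 : ℂ) (1 / 2)).exists_bound_of_continuousOn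
    (h2.continuousOn.mono hsub)
  refine ⟨max A 0, le_max_right _ _, fun z hz => ?_⟩
  have h3 : z * dslope φ 0 z = φ z - φ 0 := by
    have := sub_smul_dslope φ 0 z
    rwa [sub_zero, smul_eq_mul] at this
  have h4 : z * dslope (dslope φ 0) 0 z = dslope φ 0 z - deriv φ 0 := by
    have := sub_smul_dslope (dslope φ 0) 0 z
    rwa [sub_zero, smul_eq_mul, dslope_same] at this
  have h5 : φ z - φ 0 - deriv φ 0 * z = z ^ 2 * dslope (dslope φ 0) 0 z := by
    rw [← h3]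
    linear_combination (-z) * h4
  rw [h5, norm_mul, norm_pow, mul_comm]
  exact mul_le_mul_of_nonneg_right ((hA z (mem_closedBall_zero_iff.2 hz)).trans
    (le_max_left _ _)) (by positivity)

end ARE_

open ARE_ in
/-- ARE: the area theorem. -/
theorem p_ARE : T_ARE := by
  intro φ hφ hi
  obtain ⟨A, hA0, hA⟩ := taylor hφ
  obtain ⟨B, hB⟩ := (isCompact_closedBall (0 : ℂ) (1 / 2)).exists_bound_of_continuousOn
    (hφ.continuousOn.mono (Metric.closedBall_subset_ball (by norm_num)))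
  have hB' : ∀ z : ℂ, ‖z‖ ≤ 1 / 2 → ‖φ z‖ ≤ max B 0 := fun z hz =>
    (hB z (mem_closedBall_zero_iff.2 hz)).trans (le_max_left _ _)
  obtain ⟨b, hb⟩ : ∃ b, b = deriv φ 0 := ⟨_, rfl⟩
  have key : ∀ r : ℝ, 0 < r → r ≤ 1 / 2 → ‖b‖ * r ^ 2 ≤ 1 / 2 →
      ‖b‖ ^ 2 * (1 - r ^ 2) ≤ 1 + 4 * A * r + 4 * A ^ 2 * r ^ 4 := by
    intro r h0 h1 h2
    have hc : ‖b * ((r ^ 2 : ℝ) : ℂ)‖ ≤ 1 / 2 := by
      rw [norm_mul, Complex.norm_real, Real.norm_eq_abs, abs_of_nonneg (by positivity)]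
      exact h2
    have hρ : 0 < 1 / r + 2 * (A * r ^ 2) := by positivity
    have hcirc : ∀ z : ℂ, ‖z‖ = r →
        ‖TI (b * ((r ^ 2 : ℝ) : ℂ)) (1 / z + φ z - φ 0)‖ ≤ 1 / r + 2 * (A * r ^ 2) := by
      intro z hz
      have hz0 : z ≠ 0 := by
        rintro rfl
        rw [norm_zero] at hz
        linarith
      have e1 : TT (b * ((r ^ 2 : ℝ) : ℂ)) (1 / z) = 1 / z + b * z := by
        rw [TT_apply, map_div₀, map_one]
        congr 1
        have h3 : z * starRingEnd ℂ z = ((r ^ 2 : ℝ) : ℂ) := by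
          rw [Complex.mul_conj, Complex.normSq_eq_norm_sq, hz]
        rw [← h3]
        have hcz : starRingEnd ℂ z ≠ 0 := (map_ne_zero _).2 hz0
        field_simp
      have e2 : 1 / z + φ z - φ 0 = TT (b * ((r ^ 2 : ℝ) : ℂ)) (1 / z) +
          (φ z - φ 0 - deriv φ 0 * z) := by
        rw [e1, hb]
        ring
      rw [e2, TI_add, TI_TT hc]
      refine (norm_add_le _ _).trans ?_
      have h3 : ‖(1 : ℂ) / z‖ = 1 / r := by rw [norm_div, norm_one, hz]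
      have h4 := TI_norm hc (φ z - φ 0 - deriv φ 0 * z)
      have h5 := hA z (by rw [hz]; exact h1)
      rw [hz] at h5
      rw [h3]
      linarith
    have hcl := claim hφ hi h0 h1 hB' (le_max_right _ _) hc hρ hcirc
    have hD : DifferentiableOn ℂ (fun z => 1 / z + φ z) (annul r 1) := by
      intro z hz
      have hz' := mem_ann.1 hz
      exact (k_diff hφ (norm_pos_iff.1 (lt_trans h0 hz'.1)) hz'.2).differentiableWithinAt
    have hI : InjOn (fun z => 1 / z + φ z) (annul r 1) := by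
      refine hi.mono fun z hz => ?_
      have hz' := mem_ann.1 hz
      exact ⟨mem_ball_zero_iff.2 hz'.2, norm_pos_iff.1 (lt_trans h0 hz'.1)⟩
    have hchv := Pool.Agent.PLim.p_CHV (annul r 1) (fun z => 1 / z + φ z) (fun _ => 1)
      (annul_open r 1) hD hI
    simp only [mul_one, lintegral_const, Measure.restrict_apply MeasurableSet.univ, univ_inter,
      one_mul] at hchv
    have hlow := lower hφ h0 (by linarith : r < 1)
    rw [← hchv] at hlow
    have hup := (measure_mono hcl).trans (vol_ell (b := φ 0) hρ.le hc)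
    have hfin := (hlow.trans hup)
    rw [ENNReal.ofReal_le_ofReal_iff (by positivity), ← hb] at hfin
    have hpi := Real.pi_pos
    have e3 : Real.pi * ((r ^ 2)⁻¹ - 1) + Real.pi * ‖b‖ ^ 2 * (1 - r ^ 2) =
        Real.pi * ((r ^ 2)⁻¹ - 1 + ‖b‖ ^ 2 * (1 - r ^ 2)) := by ring
    rw [e3] at hfin
    have h6 := le_of_mul_le_mul_left hfin hpi
    have e4 : (1 / r + 2 * (A * r ^ 2)) ^ 2 = (r ^ 2)⁻¹ + 4 * A * r + 4 * A ^ 2 * r ^ 4 := by
      field_simp
      ring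
    rw [e4] at h6
    linarith
  have hlim1 : Tendsto (fun r : ℝ => ‖b‖ ^ 2 * (1 - r ^ 2)) (𝓝[>] 0) (𝓝 (‖b‖ ^ 2)) := by
    have h1 : Continuous fun r : ℝ => ‖b‖ ^ 2 * (1 - r ^ 2) := by fun_prop
    have h2 := (h1.tendsto 0).mono_left (nhdsWithin_le_nhds (s := Ioi (0 : ℝ)))
    simpa using h2
  have hlim2 : Tendsto (fun r : ℝ => 1 + 4 * A * r + 4 * A ^ 2 * r ^ 4) (𝓝[>] 0) (𝓝 1) := by
    have h1 : Continuous fun r : ℝ => 1 + 4 * A * r + 4 * A ^ 2 * r ^ 4 := by fun_prop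
    have h2 := (h1.tendsto 0).mono_left (nhdsWithin_le_nhds (s := Ioi (0 : ℝ)))
    simpa using h2
  have hsq : ‖b‖ ^ 2 ≤ 1 := by
    refine le_of_tendsto_of_tendsto hlim1 hlim2 ?_
    have hev1 : ∀ᶠ r : ℝ in 𝓝[>] 0, r ≤ 1 / 2 := by
      filter_upwards [nhdsWithin_le_nhds (Iic_mem_nhds (by norm_num : (0 : ℝ) < 1 / 2))] with r hr
      exact hr
    have hev2 : ∀ᶠ r : ℝ in 𝓝[>] 0, ‖b‖ * r ^ 2 ≤ 1 / 2 := by
      have h1 : Continuous fun r : ℝ => ‖b‖ * r ^ 2 := by fun_prop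
      have h2 : Tendsto (fun r : ℝ => ‖b‖ * r ^ 2) (𝓝[>] 0) (𝓝 0) := by
        have h3 := (h1.tendsto 0).mono_left (nhdsWithin_le_nhds (s := Ioi (0 : ℝ)))
        simpa using h3
      filter_upwards [h2 (Iic_mem_nhds (by norm_num : (0 : ℝ) < 1 / 2))] with r hr
      exact hr
    filter_upwards [hev1, hev2, self_mem_nhdsWithin] with r h1 h2 h3
    exact key r h3 h1 h2
  rw [← hb]
  nlinarith [norm_nonneg b]

end Pool.Agent.CUSP
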