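import Pool.Agent.CUSP.Targets

/-!
# CUSP: asymptotics of the inverse Fatou coordinate in the directions which are not real
-/

set_option autoImplicit false

open Complex Filter Topology Set MeasureTheory
open Pool.Agent.Limb (F)
open Pool.Agent.PLim (Rho)
open Pool.Agent.MEY (Pt)
open Pool.Agent.PSat (Comp Sat)
open Pool.Agent.AEN (vm Hp Exn)

namespace Pool.Agent.CUSP

namespace ASY_

/-- From the asymptotics at `t` to the size of `o 0 - t`. -/
theorem near {A t o : ℂ} {η ε : ℝ} (hA : A ≠ 0) (ho : o ≠ 0) (hη : η ≤ 1 / 2)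
    (hε : ε * ‖A‖ ≤ η) (h : ‖t * (-(1 / (A * o))) + 1 / A‖ ≤ ε) :
    ‖o - t‖ ≤ 2 * η * ‖t‖ := by
  have h1 : o - t = A * o * (t * (-(1 / (A * o))) + 1 / A) := by
    field_simp
    ring
  have hA' : 0 < ‖A‖ := norm_pos_iff.2 hA
  have ho' : 0 < ‖o‖ := norm_pos_iff.2 ho
  have h2 : ‖o - t‖ ≤ η * ‖o‖ := by
    rw [h1, norm_mul, norm_mul]
    calc ‖A‖ * ‖o‖ * ‖t * (-(1 / (A * o))) + 1 / A‖ ≤ ‖A‖ * ‖o‖ * ε :=
          mul_le_mul_of_nonneg_left h (by positivity)
      _ = (ε * ‖A‖) * ‖o‖ := by ring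
      _ ≤ η * ‖o‖ := mul_le_mul_of_nonneg_right hε ho'.le
  have h3 : ‖o‖ ≤ ‖t‖ + ‖o - t‖ := by
    have := norm_add_le t (o - t)
    rwa [add_sub_cancel] at this
  have h4 : ‖o‖ ≤ 2 * ‖t‖ := by
    have h5 : η * ‖o‖ ≤ 1 / 2 * ‖o‖ := mul_le_mul_of_nonneg_right hη ho'.le
    linarith
  have h0 : 0 ≤ η := by
    by_contra hneg
    push Not at hneg
    have h6 : η * ‖o‖ < 0 := mul_neg_of_neg_of_pos hneg ho'
    have h7 := norm_nonneg (o - t)
    linarith
  calc ‖o - t‖ ≤ η * ‖o‖ := h2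
    _ ≤ η * (2 * ‖t‖) := mul_le_mul_of_nonneg_left h4 h0
    _ = 2 * η * ‖t‖ := by ring

/-- The final estimate. -/
theorem fin {A o w : ℂ} {δ ε b x : ℝ} (hA : A ≠ 0) (ho : o ≠ 0) (hx : 0 < x) (hb : 0 < b)
    (hw : x * b ≤ ‖w‖) (h : ‖o - w‖ ≤ δ * x) (h1 : δ ≤ b / 2) (h2 : δ ≤ ε * ‖A‖ * b / 2)
    (hε : 0 < ε) : ‖w * (-(1 / (A * o))) + 1 / A‖ ≤ ε := by
  have hA' : 0 < ‖A‖ := norm_pos_iff.2 hA
  have ho' : 0 < ‖o‖ := norm_pos_iff.2 ho
  have h3 : w * (-(1 / (A * o))) + 1 / A = (o - w) / (A * o) := by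
    field_simp
    ring
  rw [h3, norm_div, norm_mul, div_le_iff₀ (by positivity)]
  have h4 : x * b / 2 ≤ ‖o‖ := by
    have h5 : ‖w‖ ≤ ‖o‖ + ‖o - w‖ := by
      have h6 := norm_sub_le o (o - w)
      rwa [sub_sub_cancel] at h6
    have h7 : δ * x ≤ b / 2 * x := mul_le_mul_of_nonneg_right h1 hx.le
    linarith
  calc ‖o - w‖ ≤ δ * x := h
    _ ≤ (ε * ‖A‖ * b / 2) * x := mul_le_mul_of_nonneg_right h2 hx.le
    _ = ε * (‖A‖ * (x * b / 2)) := by ring
    _ ≤ ε * (‖A‖ * ‖o‖) := by gcongr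

end ASY_

open ASY_ in
/-- ASY. -/
theorem p_ASY (h₁ : T_BKL) : T_ASY := by
  intro k c z a L hP hF l ω ε hω hε
  have hA : a l ≠ 0 := hP.ane l
  have hA' : 0 < ‖a l‖ := norm_pos_iff.2 hA
  have hb : 0 < |ω.im| := abs_pos.2 hω
  set b : ℝ := |ω.im| with hbdef
  set r : ℝ := |ω.re| with hrdef
  have hr : 0 ≤ r := abs_nonneg _
  have hθ : 0 < b / (5 * b + 2 * r + 2) := by positivity
  obtain ⟨M0, C, hM0, hC, hB⟩ := h₁ k c z a L hP hF l (b / (5 * b + 2 * r + 2)) hθ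
  -- constants
  set C2 : ℝ := (5 * b + r + 2) / b with hC2
  have hC2p : 0 ≤ C2 := by positivity
  set C3 : ℝ := C * (1 + C2) with hC3
  have hC3p : 0 ≤ C3 := by positivity
  set C4 : ℝ := 6 * b + 2 * r + 2 with hC4
  have hC4p : 0 < C4 := by positivity
  set δ : ℝ := min (b / 2) (ε * ‖a l‖ * b / 2) with hδ
  have hδp : 0 < δ := lt_min (by positivity) (by positivity)
  set η : ℝ := min (1 / 2) (δ / (4 * C4)) with hη
  have hηp : 0 < η := lt_min (by norm_num) (by positivity)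
  have hη1 : η ≤ 1 / 2 := min_le_left _ _
  have hη2 : η * (4 * C4) ≤ δ := by
    have h := min_le_right (1 / 2) (δ / (4 * C4))
    rw [← hη, le_div_iff₀ (by positivity)] at h
    exact h
  obtain ⟨T, hTp, hT⟩ := hF.asy l (η / ‖a l‖) (by positivity)
  refine ⟨1 + M0 / b + T / b + 2 * (C3 + 1) / δ, by positivity, ?_⟩
  intro x hx s hs
  have e1 : 0 ≤ M0 / b := by positivity
  have e2 : 0 ≤ T / b := by positivity
  have e3 : 0 ≤ 2 * (C3 + 1) / δ := by positivity
  have hx1 : 1 ≤ x := by linarith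
  have hx0 : 0 < x := by linarith
  have hxM : M0 ≤ x * b := by
    have h : M0 / b ≤ x := by linarith
    rwa [div_le_iff₀ hb] at h
  have hxT : T ≤ x * b := by
    have h : T / b ≤ x := by linarith
    rwa [div_le_iff₀ hb] at h
  have hxd : 2 * (C3 + 1) ≤ x * δ := by
    have h : 2 * (C3 + 1) / δ ≤ x := by linarith
    rwa [div_le_iff₀ hδp] at h
  have hxb : 0 < x * b := by positivity
  have hxr : 0 ≤ x * r := by positivity
  -- the number of steps
  set N : ℕ := ⌈x * (5 * b + r)⌉₊ + 1 with hN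
  have hNl : x * (5 * b + r) + 1 ≤ (N : ℝ) := by
    rw [hN]
    push_cast
    linarith [Nat.le_ceil (x * (5 * b + r))]
  have hNu : (N : ℝ) ≤ x * (5 * b + r) + 2 := by
    rw [hN]
    push_cast
    have h := Nat.ceil_lt_add_one (a := x * (5 * b + r)) (by positivity)
    linarith
  set t : ℂ := x * ω - s + N with ht
  have htim : t.im = x * ω.im := by
    rw [ht]
    simp
  have htre : t.re = x * ω.re - s + N := by
    rw [ht]
    simp
  have habs : |t.im| = x * b := by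
    rw [htim, abs_mul, abs_of_pos hx0]
  have hre1 : -(x * r) ≤ x * ω.re := by
    have h : -r ≤ ω.re := neg_abs_le _
    have := mul_le_mul_of_nonneg_left h hx0.le
    linarith
  have hre2 : x * ω.re ≤ x * r := mul_le_mul_of_nonneg_left (le_abs_self _) hx0.le
  have hcone : 5 * |t.im| ≤ t.re := by
    rw [habs, htre]
    have := hs.2
    nlinarith
  have htop : t.re ≤ x * (5 * b + 2 * r + 2) := by
    rw [htre]
    have := hs.1
    nlinarith
  have hang : b / (5 * b + 2 * r + 2) * t.re ≤ |t.im| := by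
    rw [habs, div_mul_eq_mul_div, div_le_iff₀ (by positivity)]
    have h := mul_le_mul_of_nonneg_left htop hb.le
    linarith
  have hnt : x * b ≤ ‖t‖ := by
    rw [← habs]
    exact Complex.abs_im_le_norm t
  have hnt0 : 0 < ‖t‖ := hxb.trans_le hnt
  have htre0 : 0 ≤ t.re := by
    have := abs_nonneg t.im
    linarith
  have hnt2 : ‖t‖ ≤ x * C4 := by
    have h := Complex.norm_le_abs_re_add_abs_im t
    rw [habs, abs_of_nonneg htre0] at h
    rw [hC4]
    linarith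
  obtain ⟨o, ho⟩ := hB t (hxM.trans hnt) hcone hang
  -- the start of the orbit
  have h0 := ho 0
  have ho0 : o 0 ≠ 0 := h0.1
  have hL0 : L l t - z l = -(1 / (a l * o 0)) := by
    have h := h0.2.1
    rw [Nat.cast_zero, sub_zero] at h
    rw [h]
    ring
  have hTt := (hT t (by
    have := abs_nonneg t.im
    rw [habs] at hcone
    nlinarith) hcone).1
  rw [hL0] at hTt
  have hd0 : ‖o 0 - t‖ ≤ 2 * η * ‖t‖ :=
    near hA ho0 hη1 (by rw [div_mul_cancel₀ _ hA'.ne']) hTt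
  -- the end of the orbit
  obtain ⟨hoN, hLN, -, hdN⟩ := ho N
  have hlog : Real.log (1 + N / ‖t‖) ≤ C2 := by
    have h1 : (N : ℝ) / ‖t‖ ≤ C2 := by
      rw [hC2, div_le_div_iff₀ hnt0 hb]
      have h3 : (5 * b + r + 2) * (x * b) ≤ (5 * b + r + 2) * ‖t‖ :=
        mul_le_mul_of_nonneg_left hnt (by positivity)
      have h4 : (N : ℝ) * b ≤ (x * (5 * b + r) + 2) * b :=
        mul_le_mul_of_nonneg_right hNu hb.le
      have h5 : 2 * b ≤ 2 * (x * b) := by nlinarith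
      nlinarith
    have h2 : 0 ≤ (N : ℝ) / ‖t‖ := by positivity
    have h6 := Real.log_le_sub_one_of_pos (show 0 < 1 + (N : ℝ) / ‖t‖ by linarith)
    linarith
  have hdN2 : ‖o N - (o 0 - N)‖ ≤ C3 := by
    refine hdN.trans ?_
    rw [hC3]
    exact mul_le_mul_of_nonneg_left (by linarith) (by linarith)
  have hw : ‖o N - x * ω‖ ≤ δ * x := by
    have h1 : o N - x * ω = (o N - (o 0 - N)) + (o 0 - t) + (-(s : ℂ)) := by
      rw [ht]
      ring
    have h2 : ‖-(s : ℂ)‖ ≤ 1 := by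
      rw [norm_neg, Complex.norm_real, Real.norm_eq_abs, abs_of_nonneg hs.1]
      exact hs.2
    have h3 : ‖o N - x * ω‖ ≤ C3 + 2 * η * ‖t‖ + 1 := by
      rw [h1]
      refine (norm_add_le _ _).trans (add_le_add ((norm_add_le _ _).trans ?_) h2)
      exact add_le_add hdN2 hd0
    have h4 : 2 * η * ‖t‖ ≤ 2 * η * (x * C4) := mul_le_mul_of_nonneg_left hnt2 (by positivity)
    have h5 : η * (4 * C4) * x ≤ δ * x := mul_le_mul_of_nonneg_right hη2 hx0.le
    nlinarith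
  have hwn : x * b ≤ ‖(x : ℂ) * ω‖ := by
    rw [norm_mul, Complex.norm_real, Real.norm_eq_abs, abs_of_pos hx0]
    exact mul_le_mul_of_nonneg_left (Complex.abs_im_le_norm ω) hx0.le
  have hLx : L l (x * ω - s) - z l = -(1 / (a l * o N)) := by
    have h1 : t - N = x * ω - s := by
      rw [ht]
      ring
    rw [h1] at hLN
    rw [hLN]
    ring
  rw [hLx]
  exact fin hA hoN hx0 hb hwn hw (min_le_left _ _) (min_le_right _ _) hε

end Pool.Agent.CUSP
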