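import Pool.Agent.CUSP.Targets
import Pool.Agent.AEN.P_LGH
import Pool.Agent.PLim.PHIp

/-!
# CUSP, BIE: the second coefficient of a univalent function
-/

set_option autoImplicit false

open Complex Filter Topology Set MeasureTheory
open Pool.Agent.Limb (F)
open Pool.Agent.PLim (Rho)
open Pool.Agent.MEY (Pt)
open Pool.Agent.PSat (Comp Sat)
open Pool.Agent.AEN (vm Hp Exn)

namespace Pool.Agent.CUSP

namespace BIE_

/-- The second derivative in terms of the divided difference. -/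
theorem deriv_dslope (g : ℂ → ℂ) (hg : DifferentiableOn ℂ g (Metric.ball 0 1)) :
    deriv (deriv g) 0 = 2 * deriv (dslope g 0) 0 := by
  have hb : Metric.ball (0 : ℂ) 1 ∈ 𝓝 (0 : ℂ) := Metric.ball_mem_nhds _ one_pos
  have hD : DifferentiableOn ℂ (dslope g 0) (Metric.ball 0 1) :=
    (Complex.differentiableOn_dslope hb).2 hg
  have hD' : DifferentiableOn ℂ (deriv (dslope g 0)) (Metric.ball 0 1) :=
    hD.deriv Metric.isOpen_ball
  have h1 : ∀ z ∈ Metric.ball (0 : ℂ) 1,
      deriv g z = dslope g 0 z + z * deriv (dslope g 0) z := by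
    intro z hz
    have hg2 : g = fun w => g 0 + w * dslope g 0 w := by
      funext w
      have := sub_smul_dslope g 0 w
      simp only [sub_zero, smul_eq_mul] at this
      rw [this]
      ring
    have hd : HasDerivAt (dslope g 0) (deriv (dslope g 0) z) z :=
      (hD.differentiableAt (Metric.isOpen_ball.mem_nhds hz)).hasDerivAt
    have h2 : HasDerivAt (fun w => g 0 + w * dslope g 0 w)
        (1 * dslope g 0 z + z * deriv (dslope g 0) z) z :=
      ((hasDerivAt_id z).mul hd).const_add (g 0)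
    rw [← hg2] at h2
    rw [h2.deriv, one_mul]
  have h3 : deriv g =ᶠ[𝓝 0] fun z => dslope g 0 z + z * deriv (dslope g 0) z :=
    Filter.eventuallyEq_of_mem hb h1
  rw [h3.deriv_eq]
  have h0 : (0 : ℂ) ∈ Metric.ball (0 : ℂ) 1 := Metric.mem_ball_self one_pos
  have hd : HasDerivAt (dslope g 0) (deriv (dslope g 0) 0) 0 :=
    (hD.differentiableAt (Metric.isOpen_ball.mem_nhds h0)).hasDerivAt
  have hd' : HasDerivAt (deriv (dslope g 0)) (deriv (deriv (dslope g 0)) 0) 0 :=
    (hD'.differentiableAt (Metric.isOpen_ball.mem_nhds h0)).hasDerivAt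
  have h4 := hd.add ((hasDerivAt_id (0 : ℂ)).mul hd')
  have h5 : HasDerivAt (fun z => dslope g 0 z + z * deriv (dslope g 0) z)
      (deriv (dslope g 0) 0 + (1 * deriv (dslope g 0) 0 +
        (0 : ℂ) * deriv (deriv (dslope g 0)) 0)) 0 := h4
  rw [h5.deriv]
  ring

theorem sq_mem {z : ℂ} (hz : z ∈ Metric.ball (0 : ℂ) 1) : z ^ 2 ∈ Metric.ball (0 : ℂ) 1 := by
  rw [mem_ball_zero_iff] at hz ⊢
  rw [norm_pow]
  exact pow_lt_one₀ (norm_nonneg z) hz two_ne_zero

end BIE_

/-- BIE (from ARE): the second coefficient of a univalent function. -/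
theorem p_BIE (h_ARE : T_ARE) : T_BIE := by
  intro g hg hinj
  have hb : Metric.ball (0 : ℂ) 1 ∈ 𝓝 (0 : ℂ) := Metric.ball_mem_nhds _ one_pos
  have h0 : (0 : ℂ) ∈ Metric.ball (0 : ℂ) 1 := Metric.mem_ball_self one_pos
  have hd0 : deriv g 0 ≠ 0 :=
    Pool.Agent.PLim.PHIp_.deriv_ne_zero_of_injOn (hg.analyticAt hb) hb hinj
  set d := deriv g 0 with hd
  have hD : DifferentiableOn ℂ (dslope g 0) (Metric.ball 0 1) :=
    (Complex.differentiableOn_dslope hb).2 hg
  have hDn : ∀ v ∈ Metric.ball (0 : ℂ) 1, v * dslope g 0 v = g v - g 0 := by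
    intro v _
    have := sub_smul_dslope g 0 v
    simpa only [sub_zero, smul_eq_mul] using this
  have hD0 : dslope g 0 0 = d := by rw [dslope_same]
  have hDne : ∀ v ∈ Metric.ball (0 : ℂ) 1, dslope g 0 v ≠ 0 := by
    intro v hv h
    by_cases hv0 : v = 0
    · rw [hv0, hD0] at h
      exact hd0 h
    · have h1 := hDn v hv
      rw [h, mul_zero] at h1
      exact hv0 (hinj hv h0 (sub_eq_zero.mp h1.symm))
  -- the logarithm of the quotient
  obtain ⟨L, hL, hL0, hLe⟩ := Pool.Agent.AEN.LGH_.ball_log (h := fun v => dslope g 0 v / d)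
    (v0 := 0) (l0 := 0) (hD.div_const d) (fun v hv => div_ne_zero (hDne v hv) hd0) h0
    (by rw [exp_zero, hD0, div_self hd0])
  set E : ℂ → ℂ := fun v => exp (-(L v / 2)) with hE
  have hEd : DifferentiableOn ℂ E (Metric.ball 0 1) := ((hL.div_const 2).neg).cexp
  have hE0 : E 0 = 1 := by simp [hE, hL0]
  have hEn : ∀ v, E v ≠ 0 := fun v => exp_ne_zero _
  have hEsq : ∀ v ∈ Metric.ball (0 : ℂ) 1, E v ^ 2 * (dslope g 0 v / d) = 1 := by
    intro v hv
    have h1 : exp (L v) = dslope g 0 v / d := hLe v hv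
    rw [← h1, hE]
    simp only
    rw [sq, ← exp_add, ← exp_add]
    have : -(L v / 2) + -(L v / 2) + L v = 0 := by ring
    rw [this, exp_zero]
  have hDE : DifferentiableOn ℂ (dslope E 0) (Metric.ball 0 1) :=
    (Complex.differentiableOn_dslope hb).2 hEd
  set φ : ℂ → ℂ := fun z => z * dslope E 0 (z ^ 2) with hφ
  have hφd : DifferentiableOn ℂ φ (Metric.ball 0 1) := by
    refine differentiableOn_id.mul (hDE.comp (differentiable_pow 2).differentiableOn ?_)
    intro z hz
    exact BIE_.sq_mem hz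
  have hk : ∀ z : ℂ, z ≠ 0 → 1 / z + φ z = E (z ^ 2) / z := by
    intro z hz
    have h1 := sub_smul_dslope E 0 (z ^ 2)
    simp only [sub_zero, smul_eq_mul] at h1
    have h2 : φ z = (E (z ^ 2) - E 0) / z := by
      rw [← h1, hφ]
      simp only
      field_simp
    rw [h2, hE0]
    field_simp
    ring
  have hkinj : InjOn (fun z => 1 / z + φ z) (Metric.ball 0 1 \ {0}) := by
    rintro x ⟨hx, hx0⟩ y ⟨hy, hy0⟩ hxy
    have hx0' : x ≠ 0 := hx0
    have hy0' : y ≠ 0 := hy0
    simp only [hk x hx0', hk y hy0'] at hxy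
    have hx2 := BIE_.sq_mem hx
    have hy2 := BIE_.sq_mem hy
    have e1 := hEsq _ hx2
    have e2 := hEsq _ hy2
    have e3 := hDn _ hx2
    have e4 := hDn _ hy2
    have hxy' : E (x ^ 2) * y = E (y ^ 2) * x := by
      field_simp at hxy
      linear_combination hxy
    -- squares
    have e5 : E (x ^ 2) ^ 2 * y ^ 2 = E (y ^ 2) ^ 2 * x ^ 2 := by
      rw [← mul_pow, ← mul_pow, hxy']
    have e6 : E (x ^ 2) ^ 2 * (g (x ^ 2) - g 0) = d * x ^ 2 := by
      rw [← e3]
      have : E (x ^ 2) ^ 2 * dslope g 0 (x ^ 2) = d := by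
        field_simp at e1
        exact e1
      linear_combination x ^ 2 * this
    have e7 : E (y ^ 2) ^ 2 * (g (y ^ 2) - g 0) = d * y ^ 2 := by
      rw [← e4]
      have : E (y ^ 2) ^ 2 * dslope g 0 (y ^ 2) = d := by
        field_simp at e2
        exact e2
      linear_combination y ^ 2 * this
    have e8 : g (x ^ 2) = g (y ^ 2) := by
      have hE1 : E (x ^ 2) ^ 2 ≠ 0 := pow_ne_zero _ (hEn _)
      have hE2 : E (y ^ 2) ^ 2 ≠ 0 := pow_ne_zero _ (hEn _)
      have hx3 : x ^ 2 ≠ 0 := pow_ne_zero _ hx0'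
      have h9 : E (x ^ 2) ^ 2 * E (y ^ 2) ^ 2 * x ^ 2 * (g (x ^ 2) - g (y ^ 2)) = 0 := by
        linear_combination (E (y ^ 2) ^ 2 * x ^ 2) * e6 - (E (x ^ 2) ^ 2 * x ^ 2) * e7 -
          d * x ^ 2 * e5
      have h10 : E (x ^ 2) ^ 2 * E (y ^ 2) ^ 2 * x ^ 2 ≠ 0 :=
        mul_ne_zero (mul_ne_zero hE1 hE2) hx3
      exact sub_eq_zero.mp ((mul_eq_zero.mp h9).resolve_left h10)
    have e9 : x ^ 2 = y ^ 2 := hinj hx2 hy2 e8
    rcases sq_eq_sq_iff_eq_or_eq_neg.mp e9 with h | h
    · exact h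
    · exfalso
      rw [e9] at hxy'
      have h11 : E (y ^ 2) * (y - x) = 0 := by linear_combination hxy'
      have h12 : y - x = 0 := (mul_eq_zero.mp h11).resolve_left (hEn _)
      apply hy0'
      rw [h] at h12
      linear_combination h12 / 2
  have hA := h_ARE φ hφd hkinj
  -- the derivatives at zero
  have hφ' : deriv φ 0 = deriv E 0 := by
    have h1 : HasDerivAt (fun z : ℂ => z ^ 2) (2 * 0) (0 : ℂ) := by
      simpa using hasDerivAt_pow 2 (0 : ℂ)
    have h00 : (0 : ℂ) ^ 2 = 0 := by norm_num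
    have h2 : HasDerivAt (dslope E 0) (deriv (dslope E 0) 0) ((fun z : ℂ => z ^ 2) 0) := by
      simp only [h00]
      exact (hDE.differentiableAt hb).hasDerivAt
    have h3 : HasDerivAt (fun z : ℂ => dslope E 0 (z ^ 2)) (deriv (dslope E 0) 0 * (2 * 0)) 0 :=
      h2.comp (0 : ℂ) h1
    have h4 : HasDerivAt φ (1 * dslope E 0 (0 ^ 2) + 0 * (deriv (dslope E 0) 0 * (2 * 0))) 0 :=
      (hasDerivAt_id (0 : ℂ)).mul h3
    rw [h4.deriv, h00, dslope_same]
    ring
  have hLd : HasDerivAt L (deriv L 0) 0 := (hL.differentiableAt hb).hasDerivAt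
  have hE' : deriv E 0 = -(deriv L 0 / 2) := by
    have h1 : HasDerivAt E (exp (-(L 0 / 2)) * (-(deriv L 0 / 2))) 0 :=
      ((hLd.div_const 2).neg).cexp
    rw [h1.deriv, hL0]
    simp
  have hL' : deriv L 0 = deriv (dslope g 0) 0 / d := by
    have h1 : HasDerivAt (fun v => exp (L v)) (exp (L 0) * deriv L 0) 0 := hLd.cexp
    have h2 : HasDerivAt (fun v => dslope g 0 v / d) (deriv (dslope g 0) 0 / d) 0 :=
      ((hD.differentiableAt hb).hasDerivAt).div_const d
    have h3 : (fun v => exp (L v)) =ᶠ[𝓝 0] fun v => dslope g 0 v / d :=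
      Filter.eventuallyEq_of_mem hb hLe
    have h4 := h3.deriv_eq
    rw [h1.deriv, h2.deriv, hL0, exp_zero, one_mul] at h4
    exact h4
  rw [hφ', hE', hL', norm_neg, norm_div, norm_div] at hA
  rw [BIE_.deriv_dslope g hg, norm_mul]
  have hdn : 0 < ‖d‖ := norm_pos_iff.mpr hd0
  have h2n : ‖(2 : ℂ)‖ = 2 := by norm_num
  rw [h2n] at hA ⊢
  rw [div_div, div_le_one (by positivity)] at hA
  linarith

end Pool.Agent.CUSP
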