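import Pool.Agent.CUSP.Targets

/-!
# CUSP, target BKL: the backward orbits of the inverse Fatou coordinate
-/

set_option autoImplicit false

open Complex Filter Topology Set MeasureTheory
open Pool.Agent.Limb (F)
open Pool.Agent.PLim (Rho)
open Pool.Agent.MEY (Pt)
open Pool.Agent.PSat (Comp Sat)
open Pool.Agent.AEN (vm Hp Exn)

namespace Pool.Agent.CUSP

namespace BKL_

theorem F_diff (c : ℂ) (m : ℕ) : Differentiable ℂ ((F 2 c)^[m]) := by
  have h : Differentiable ℂ (F 2 c) := by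
    unfold F
    fun_prop
  exact h.iterate m

/-- The local inverse of an entire function with a fixed point of multiplier one. -/
theorem linv (g : ℂ → ℂ) (α : ℂ) (hg : Differentiable ℂ g) (h0 : g 0 = 0) (h1 : deriv g 0 = 1)
    (h2 : deriv (deriv g) 0 = 2 * α) :
    ∃ (ψ : ℂ → ℂ) (r0 r1 : ℝ), 0 < r0 ∧ 0 < r1 ∧ DifferentiableOn ℂ ψ (Metric.ball 0 r0) ∧
      ψ 0 = 0 ∧ deriv ψ 0 = 1 ∧ deriv (deriv ψ) 0 = -2 * α ∧
      (∀ u ∈ Metric.ball (0 : ℂ) r0, g (ψ u) = u) ∧ ∀ x : ℂ, ‖x‖ < r1 → ψ (g x) = x := by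
  have hA : AnalyticAt ℂ g 0 := hg.analyticAt 0
  have hne : deriv g 0 ≠ 0 := by rw [h1]; exact one_ne_zero
  set ψ : ℂ → ℂ := hA.hasStrictDerivAt.localInverse _ _ _ hne with hψ
  have hψA : AnalyticAt ℂ ψ 0 := by
    have := hA.analyticAt_localInverse hne
    rwa [h0] at this
  have hL : ∀ᶠ x in 𝓝 (0 : ℂ), ψ (g x) = x :=
    HasStrictDerivAt.eventually_left_inverse hA.hasStrictDerivAt hne
  have hR : ∀ᶠ x in 𝓝 (0 : ℂ), g (ψ x) = x := by
    have := HasStrictDerivAt.eventually_right_inverse hA.hasStrictDerivAt hne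
    rwa [h0] at this
  obtain ⟨r1, hr1, hr1'⟩ := Metric.eventually_nhds_iff_ball.1 hL
  obtain ⟨r0, hr0, hr0'⟩ := Metric.eventually_nhds_iff_ball.1 (hR.and hψA.eventually_analyticAt)
  have hψ0 : ψ 0 = 0 := by
    have := hL.self_of_nhds
    rwa [h0] at this
  have hdif : DifferentiableOn ℂ ψ (Metric.ball 0 r0) := fun x hx =>
    (hr0' x hx).2.differentiableAt.differentiableWithinAt
  have hz : (0 : ℂ) ∈ Metric.ball (0 : ℂ) r0 := Metric.mem_ball_self hr0
  have hc : ∀ x ∈ Metric.ball (0 : ℂ) r0, deriv g (ψ x) * deriv ψ x = 1 := by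
    intro x hx
    have hGx : HasDerivAt ψ (deriv ψ x) x := (hr0' x hx).2.differentiableAt.hasDerivAt
    have hfx : HasDerivAt g (deriv g (ψ x)) (ψ x) := (hg (ψ x)).hasDerivAt
    have hcomp := hfx.comp x hGx
    have hid : HasDerivAt (g ∘ ψ) 1 x := by
      refine (hasDerivAt_id x).congr_of_eventuallyEq ?_
      filter_upwards [Metric.isOpen_ball.mem_nhds hx] with y hy
      exact (hr0' y hy).1
    exact hcomp.unique hid
  have hψ1 : deriv ψ 0 = 1 := by
    have := hc 0 hz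
    rw [hψ0, h1, one_mul] at this
    exact this
  have hdg : Differentiable ℂ (deriv g) := by
    have := hg.contDiff (n := 2)
    exact this.differentiable_deriv_two
  have hdψ : DifferentiableOn ℂ (deriv ψ) (Metric.ball 0 r0) := hdif.deriv Metric.isOpen_ball
  have hAA : HasDerivAt (fun x => deriv g (ψ x)) (deriv (deriv g) (ψ 0) * deriv ψ 0) 0 := by
    have h3 : HasDerivAt (deriv g) (deriv (deriv g) (ψ 0)) (ψ 0) := (hdg (ψ 0)).hasDerivAt
    exact h3.comp 0 hψA.differentiableAt.hasDerivAt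
  have hBB : HasDerivAt (deriv ψ) (deriv (deriv ψ) 0) 0 :=
    (hdψ.differentiableAt (Metric.isOpen_ball.mem_nhds hz)).hasDerivAt
  have hprod := hAA.mul hBB
  have hconst : HasDerivAt (fun x => deriv g (ψ x) * deriv ψ x) 0 0 := by
    refine (hasDerivAt_const (0 : ℂ) (1 : ℂ)).congr_of_eventuallyEq ?_
    filter_upwards [Metric.isOpen_ball.mem_nhds hz] with y hy
    exact hc y hy
  have hu := hprod.unique hconst
  rw [hψ0, h2, hψ1, h1] at hu
  refine ⟨ψ, r0, r1, hr0, hr1, hdif, hψ0, hψ1, by linear_combination hu, ?_, ?_⟩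
  · intro u hu'
    exact (hr0' u hu').1
  · intro x hx
    exact hr1' x (by rwa [mem_ball_zero_iff])

section ftc

variable {k : ℕ} {c : ℂ} {z a : ℕ → ℂ} {L : ℕ → ℂ → ℂ}

lemma om_im {t : ℂ} (h : t.im ≠ 0) : t ∈ OM := Or.inl h

lemma om_add {t : ℂ} (h : t ∈ OM) (q : ℕ) : t + (q : ℂ) ∈ OM := by
  rcases h with h | h
  · left
    simpa using h
  · right
    have : (0 : ℝ) ≤ (q : ℝ) := Nat.cast_nonneg q
    simp only [add_re, natCast_re]
    linarith

lemma per_mul (f : Ftc k c z a L) (l : ℕ) :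
    ∀ (q : ℕ) (t : ℂ), t ∈ OM → L (l + k * q) t = L l (t + q)
  | 0, t, _ => by simp
  | q + 1, t, h => by
    have e1 : l + k * (q + 1) = (l + k * q) + k := by ring
    rw [e1, f.per (l + k * q) t h, per_mul f l q (t + 1) (by simpa using om_add h 1)]
    congr 1
    push_cast
    ring

lemma stp_iter (f : Ftc k c z a L) (l : ℕ) (t : ℂ) (ht : t ∈ OM) (j : ℕ) :
    (F 2 c)^[j] (L l t) = L (l + j) t := by
  induction j with
  | zero => simp
  | succ j ih =>
    rw [Function.iterate_succ_apply', ih, f.stp (l + j) t ht]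
    rfl

lemma back (f : Ftc k c z a L) (l : ℕ) (s : ℂ) (hs : s.im ≠ 0) (n : ℕ) :
    (F 2 c)^[k * n] (L l (s - n)) = L l s := by
  induction n with
  | zero => simp
  | succ n ih =>
    have h1 : s - ((n + 1 : ℕ) : ℂ) ∈ OM := om_im (by simpa using hs)
    rw [Nat.mul_succ, Function.iterate_add_apply, stp_iter f l _ h1 k, f.per l _ h1]
    have e : s - ((n + 1 : ℕ) : ℂ) + 1 = s - n := by push_cast; ring
    rw [e, ih]

lemma noncrit (hk : 1 ≤ k) (f : Ftc k c z a L) (l : ℕ) (s : ℂ) (hs : s.im ≠ 0) (j : ℕ) :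
    L l s ≠ (F 2 c)^[j] c := by
  intro e
  have h0 : (0 : ℂ) ∈ OM := by right; norm_num
  have e1 : (F 2 c)^[j] c = L j 0 := by
    have := stp_iter f 0 0 h0 j
    rw [f.tip, Nat.zero_add] at this
    exact this
  have hsO : s ∈ OM := om_im hs
  rw [e1, ← Nat.mod_add_div l k, ← Nat.mod_add_div j k, per_mul f _ _ s hsO,
    per_mul f _ _ 0 h0] at e
  have h2 := (f.inj _ _ (Nat.mod_lt _ hk) (Nat.mod_lt _ hk) _ (om_add hsO _) _
    (om_add h0 _) e).2
  have h3 := congrArg Complex.im h2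
  simp at h3
  exact hs h3

end ftc

/-- The coordinate `w` of a point close to the parabolic point. -/
theorem coord (α s u : ℂ) (η : ℝ) (hα : α ≠ 0) (hη : η ≤ 1 / 2)
    (h : ‖s * u + 1 / α‖ ≤ η / ‖α‖) :
    u ≠ 0 ∧ -1 / (α * (-1 / (α * u))) = u ∧ ‖-1 / (α * u) - s‖ ≤ 2 * η * ‖s‖ ∧
      ‖u‖ * (‖α‖ * ‖s‖) ≤ 2 := by
  have hα' : 0 < ‖α‖ := norm_pos_iff.2 hα
  have h1 : ‖1 + α * (s * u)‖ ≤ η := by
    have e : 1 + α * (s * u) = α * (s * u + 1 / α) := by field_simp; ring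
    rw [e, norm_mul]
    calc ‖α‖ * ‖s * u + 1 / α‖ ≤ ‖α‖ * (η / ‖α‖) := by gcongr
      _ = η := by field_simp
  have hu : u ≠ 0 := by
    rintro rfl
    simp at h1
    linarith
  have h2 : -1 / (α * u) - s = -1 / (α * u) * (1 + α * (s * u)) := by
    field_simp
    ring
  have h3 : ‖-1 / (α * u) - s‖ ≤ ‖-1 / (α * u)‖ * η := by
    rw [h2, norm_mul]
    gcongr
  have h4 : ‖-1 / (α * u)‖ ≤ ‖s‖ + ‖-1 / (α * u) - s‖ := by
    calc ‖-1 / (α * u)‖ = ‖s + (-1 / (α * u) - s)‖ := by congr 1; ring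
      _ ≤ _ := norm_add_le _ _
  have hη0 : 0 ≤ η := (norm_nonneg _).trans h1
  have h5 : ‖-1 / (α * u)‖ ≤ 2 * ‖s‖ := by
    nlinarith [norm_nonneg (-1 / (α * u))]
  refine ⟨hu, by field_simp, ?_, ?_⟩
  · refine h3.trans ?_
    nlinarith
  · have h6 : ‖α * (s * u)‖ ≤ 1 + η := by
      calc ‖α * (s * u)‖ = ‖(1 + α * (s * u)) - 1‖ := by congr 1; ring
        _ ≤ ‖1 + α * (s * u)‖ + ‖(1 : ℂ)‖ := norm_sub_le _ _
        _ ≤ 1 + η := by rw [norm_one]; linarith
    rw [norm_mul, norm_mul] at h6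
    nlinarith

/-- The region condition for `w`. -/
theorem region (θ η : ℝ) (hθ : 0 < θ) (hη : η = θ / (12 + 12 * θ)) (s w : ℂ)
    (h5 : 5 * |s.im| ≤ s.re) (h2 : θ / 2 * s.re ≤ |s.im|) (hw : ‖w - s‖ ≤ 2 * η * ‖s‖) :
    θ / 4 * w.re ≤ |w.im| := by
  have h0 : 0 ≤ s.re := by have := abs_nonneg s.im; linarith
  have hs : ‖s‖ ≤ 6 / 5 * s.re := by
    have := Complex.norm_le_abs_re_add_abs_im s
    rw [abs_of_nonneg h0] at this
    linarith
  have hη0 : 0 < η := by rw [hη]; positivity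
  have hd : ‖w - s‖ ≤ 12 / 5 * η * s.re := by nlinarith
  have hre : |w.re - s.re| ≤ 12 / 5 * η * s.re := by
    have := Complex.abs_re_le_norm (w - s)
    rw [sub_re] at this
    linarith
  have him : |w.im - s.im| ≤ 12 / 5 * η * s.re := by
    have := Complex.abs_im_le_norm (w - s)
    rw [sub_im] at this
    linarith
  have h3 : w.re ≤ s.re + 12 / 5 * η * s.re := by
    have := (abs_le.1 hre).2
    linarith
  have h4 : |s.im| - 12 / 5 * η * s.re ≤ |w.im| := by
    have := abs_sub_abs_le_abs_sub s.im w.im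
    rw [abs_sub_comm] at this
    linarith
  have h6 : η * (12 + 12 * θ) = θ := by
    rw [hη]; field_simp
  have h7 : 0 ≤ η * s.re := by positivity
  have h8 : 0 ≤ θ * (η * s.re) := by positivity
  have h9 : η * s.re * (12 + 12 * θ) = θ * s.re := by linear_combination s.re * h6
  nlinarith

end BKL_

open BKL_

theorem p_BKL (h₁ : T_BKW) (h₂ : T_LFU) (h₃ : T_CRV) (h₄ : T_AST) : T_BKL := by
  intro k c z a L hP f l θ hθ
  have hk := hP.hk
  have hα : a l ≠ 0 := hP.ane l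
  have hα' : 0 < ‖a l‖ := norm_pos_iff.2 hα
  set α := a l with hαdef
  set ζ := z l with hζdef
  have hfix : (F 2 c)^[k] ζ = ζ := (h₄ k c z a hP l).2.2.2.1
  -- the local inverse
  set g : ℂ → ℂ := fun u => (F 2 c)^[k] (ζ + u) - ζ with hgdef
  have hFd := F_diff c k
  have hgd : Differentiable ℂ g := by
    intro u
    exact ((hFd (ζ + u)).comp u ((differentiableAt_id.const_add ζ))).sub_const ζ
  have hg0 : g 0 = 0 := by simp [hgdef, hfix]
  have hgder : deriv g = fun u => deriv ((F 2 c)^[k]) (ζ + u) := by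
    funext u
    simp only [hgdef]
    rw [deriv_sub_const, deriv_comp_const_add]
  have hg1 : deriv g 0 = 1 := by
    rw [hgder]
    simp only [add_zero]
    exact hP.mul l
  have hg2 : deriv (deriv g) 0 = 2 * α := by
    rw [hgder, deriv_comp_const_add]
    simp only [add_zero]
    exact hP.sec l
  obtain ⟨ψ, r0, r1, hr0, hr1, hψd, hψ0, hψ1, hψ2, hψR, hψL⟩ := linv g α hgd hg0 hg1 hg2
  obtain ⟨σ, C, hσ, hC, hB⟩ := h₁ ψ α r0 (θ / 4) hr0 hα (by positivity) hψd hψ0 hψ1 hψ2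
  set η : ℝ := θ / (12 + 12 * θ) with hη
  have hη0 : 0 < η := by positivity
  have hη1 : η ≤ 1 / 12 := by
    rw [hη, div_le_div_iff₀ (by positivity) (by norm_num)]
    linarith
  obtain ⟨T, hT, hasy⟩ := f.asy l (η / ‖α‖) (by positivity)
  -- facts on the points of the cone
  have hcone : ∀ s : ℂ, T ≤ s.re → 5 * |s.im| ≤ s.re → L l s - ζ ≠ 0 ∧
      -1 / (α * (-1 / (α * (L l s - ζ)))) = L l s - ζ ∧
      ‖-1 / (α * (L l s - ζ)) - s‖ ≤ 2 * η * ‖s‖ ∧ ‖L l s - ζ‖ * (‖α‖ * ‖s‖) ≤ 2 := by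
    intro s h1 h2
    exact coord α s (L l s - ζ) η hα (by linarith) (hasy s h1 h2).1
  have hlower : ∀ s : ℂ, T ≤ s.re → 5 * |s.im| ≤ s.re →
      5 / 6 * ‖s‖ ≤ ‖-1 / (α * (L l s - ζ))‖ := by
    intro s h1 h2
    have h3 := (hcone s h1 h2).2.2.1
    have h4 : ‖s‖ ≤ ‖-1 / (α * (L l s - ζ))‖ + ‖-1 / (α * (L l s - ζ)) - s‖ := by
      calc ‖s‖ = ‖-1 / (α * (L l s - ζ)) - (-1 / (α * (L l s - ζ)) - s)‖ := by
            congr 1; ring
        _ ≤ _ := norm_sub_le _ _
    nlinarith [norm_nonneg s]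
  -- the orbits
  have horb : ∀ s : ℂ, T ≤ s.re → 5 * |s.im| ≤ s.re → 2 * σ ≤ 5 / 3 * s.re →
      θ / 2 * s.re ≤ |s.im| → ∃ o : ℕ → ℂ, o 0 = -1 / (α * (L l s - ζ)) ∧ ∀ n : ℕ, o n ≠ 0 ∧
      -1 / (α * o n) ∈ Metric.ball (0 : ℂ) r0 ∧ ψ^[n] (L l s - ζ) = -1 / (α * o n) ∧
      (‖-1 / (α * (L l s - ζ))‖ + n) / C ≤ ‖o n‖ ∧
      ‖o n - (o 0 - n)‖ ≤ C * (1 + Real.log (1 + n / ‖-1 / (α * (L l s - ζ))‖)) := by
    intro s h1 h2 h3 h4
    obtain ⟨c1, c2, c3, -⟩ := hcone s h1 h2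
    have hn : s.re ≤ ‖s‖ := (le_abs_self _).trans (Complex.abs_re_le_norm s)
    have hl := hlower s h1 h2
    obtain ⟨o, ho0, ho⟩ := hB (-1 / (α * (L l s - ζ))) (by nlinarith)
      (Or.inr (region θ η hθ hη s _ h2 h4 c3))
    refine ⟨o, ho0, fun n => ?_⟩
    have hit : ψ^[n] (L l s - ζ) = -1 / (α * o n) := by
      induction n with
      | zero => rw [Function.iterate_zero, id, ho0, c2]
      | succ n ih => rw [Function.iterate_succ_apply', ih, (ho n).2.2.1]
    obtain ⟨p1, p2, p3, p4, p5⟩ := ho n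
    rw [ho0]
    exact ⟨p1, p2, hit, p4, p5⟩
  refine ⟨2 * T + 2 * σ, 2 * C, by positivity, by linarith, ?_⟩
  intro t ht ht5 htθ
  have hre0 : 0 ≤ t.re := by have := abs_nonneg t.im; linarith
  have htn : ‖t‖ ≤ 6 / 5 * t.re := by
    have := Complex.norm_le_abs_re_add_abs_im t
    rw [abs_of_nonneg hre0] at this
    linarith
  have htre : 5 / 3 * T + 5 / 3 * σ ≤ t.re := by linarith
  have hrepos : 0 < t.re := by linarith
  have himne : t.im ≠ 0 := by
    intro h
    rw [h, abs_zero] at htθ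
    nlinarith
  -- the path
  set γ : ℝ → ℂ := fun y => (y : ℂ) * t + ((y : ℂ) - 1) * (t.re : ℂ) with hγ
  have hγre : ∀ y : ℝ, (γ y).re = (2 * y - 1) * t.re := by
    intro y
    simp only [hγ, add_re, mul_re, ofReal_re, ofReal_im, sub_re, one_re, sub_im, one_im]
    ring
  have hγim : ∀ y : ℝ, (γ y).im = y * t.im := by
    intro y
    simp only [hγ, add_im, mul_im, ofReal_re, ofReal_im, sub_re, one_re, sub_im, one_im]
    ring
  have hγabs : ∀ y : ℝ, 1 ≤ y → |(γ y).im| = y * |t.im| := by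
    intro y hy
    rw [hγim, abs_mul, abs_of_nonneg (by linarith)]
  have hγ1 : γ 1 = t := by simp [hγ]
  set W : Set ℂ := γ '' Ici (1 : ℝ) with hW
  have hγc : Continuous γ := by
    simp only [hγ]
    fun_prop
  have hWp : IsPreconnected W := isPreconnected_Ici.image γ hγc.continuousOn
  have hWreg : ∀ s ∈ W, s.im ≠ 0 ∧ T ≤ s.re ∧ 5 * |s.im| ≤ s.re ∧ 2 * σ ≤ 5 / 3 * s.re ∧
      θ / 2 * s.re ≤ |s.im| := by
    rintro s ⟨y, hy, rfl⟩
    have hy' : 1 ≤ y := hy
    have e1 := hγabs y hy'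
    have e2 := hγre y
    have e3 : t.re ≤ (2 * y - 1) * t.re := by nlinarith
    refine ⟨?_, ?_, ?_, ?_, ?_⟩
    · rw [hγim]
      exact mul_ne_zero (by linarith) himne
    · rw [e2]; linarith
    · rw [e1, e2]
      nlinarith
    · rw [e2]
      linarith
    · rw [e1, e2]
      nlinarith [mul_le_mul_of_nonneg_left htθ (by linarith : (0 : ℝ) ≤ y),
        mul_pos hθ hrepos]
  have hclaim : ∀ n : ℕ, L l (t - n) = ζ + ψ^[n] (L l t - ζ) := by
    intro n
    have hmaps : ∀ s ∈ W, ∀ j : ℕ, ψ^[j] (L l s - ζ) ∈ Metric.ball (0 : ℂ) r0 := by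
      intro s hs j
      obtain ⟨q1, q2, q3, q4, q5⟩ := hWreg s hs
      obtain ⟨o, -, ho⟩ := horb s q2 q3 q4 q5
      rw [(ho j).2.2.1]
      exact (ho j).2.1
    have hLc : ContinuousOn (L l) OM := (f.dif l).continuousOn
    have hcA : ContinuousOn (fun s : ℂ => L l (s - n)) W := by
      refine hLc.comp (continuous_id.sub continuous_const).continuousOn ?_
      intro s hs
      exact om_im (by simpa using (hWreg s hs).1)
    have hcu : ∀ j : ℕ, ContinuousOn (fun s : ℂ => ψ^[j] (L l s - ζ)) W := by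
      intro j
      induction j with
      | zero =>
        simp only [Function.iterate_zero, id]
        exact (hLc.mono fun s hs => om_im (hWreg s hs).1).sub continuousOn_const
      | succ j ih =>
        simp only [Function.iterate_succ_apply']
        exact hψd.continuousOn.comp ih fun s hs => hmaps s hs j
    have hcB : ContinuousOn (fun s : ℂ => ζ + ψ^[n] (L l s - ζ)) W :=
      continuousOn_const.add (hcu n)
    have hitB : ∀ s ∈ W, ∀ j : ℕ, (F 2 c)^[k * j] (ζ + ψ^[j] (L l s - ζ)) = L l s := by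
      intro s hs j
      induction j with
      | zero => simp
      | succ j ih =>
        rw [Nat.mul_succ, Function.iterate_add_apply, Function.iterate_succ_apply']
        have h5 : (F 2 c)^[k] (ζ + ψ (ψ^[j] (L l s - ζ))) = ζ + ψ^[j] (L l s - ζ) := by
          have h6 : (F 2 c)^[k] (ζ + ψ (ψ^[j] (L l s - ζ))) - ζ = ψ^[j] (L l s - ζ) :=
            hψR _ (hmaps s hs j)
          linear_combination h6
        rw [h5, ih]
    -- a far point
    obtain ⟨y0, hy0, hy1, hy2⟩ : ∃ y0 : ℝ, 1 ≤ y0 ∧ (n : ℝ) + T ≤ (y0 - 1) * t.re ∧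
        2 / (‖α‖ * r1) + n < (y0 - 1) * t.re := by
      refine ⟨1 + (n + T + 2 / (‖α‖ * r1) + 1) / t.re, ?_, ?_, ?_⟩
      · have : 0 ≤ (n + T + 2 / (‖α‖ * r1) + 1) / t.re := by positivity
        linarith
      · have e : (1 + (n + T + 2 / (‖α‖ * r1) + 1) / t.re - 1) * t.re =
            n + T + 2 / (‖α‖ * r1) + 1 := by field_simp; ring
        rw [e]
        have : 0 ≤ 2 / (‖α‖ * r1) := by positivity
        linarith
      · have e : (1 + (n + T + 2 / (‖α‖ * r1) + 1) / t.re - 1) * t.re =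
            n + T + 2 / (‖α‖ * r1) + 1 := by field_simp; ring
        rw [e]
        linarith
    have hs0 : γ y0 ∈ W := ⟨y0, hy0, rfl⟩
    have hs0im : (γ y0).im ≠ 0 := (hWreg _ hs0).1
    have hfar : ∀ j : ℕ, j ≤ n → ‖L l (γ y0 - j) - ζ‖ < r1 := by
      intro j hj
      have hj' : (j : ℝ) ≤ n := by exact_mod_cast hj
      have r : (γ y0 - j).re = (2 * y0 - 1) * t.re - j := by
        rw [sub_re, hγre, natCast_re]
      have i : |(γ y0 - j).im| = y0 * |t.im| := by
        rw [sub_im, natCast_im, sub_zero, hγabs y0 hy0]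
      have k1 : T ≤ (γ y0 - j).re := by rw [r]; nlinarith
      have k2 : 5 * |(γ y0 - j).im| ≤ (γ y0 - j).re := by
        rw [r, i]
        nlinarith [mul_le_mul_of_nonneg_left ht5 (by linarith : (0 : ℝ) ≤ y0)]
      have k3 := (hcone _ k1 k2).2.2.2
      have k4 : 2 / (‖α‖ * r1) < ‖γ y0 - j‖ := by
        have := (le_abs_self _).trans (Complex.abs_re_le_norm (γ y0 - j))
        rw [r] at this
        nlinarith
      have k5 : 2 < ‖α‖ * r1 * ‖γ y0 - j‖ := by
        rw [div_lt_iff₀ (by positivity)] at k4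
        linarith
      have k6 : 0 < ‖γ y0 - j‖ := by
        have : 0 ≤ 2 / (‖α‖ * r1) := by positivity
        linarith
      by_contra hno
      push Not at hno
      have k7 : r1 * (‖α‖ * ‖γ y0 - j‖) ≤ ‖L l (γ y0 - j) - ζ‖ * (‖α‖ * ‖γ y0 - j‖) :=
        mul_le_mul_of_nonneg_right hno (by positivity)
      nlinarith
    have hfareq : ∀ j : ℕ, j ≤ n → L l (γ y0 - j) - ζ = ψ^[j] (L l (γ y0) - ζ) := by
      intro j
      induction j with
      | zero => intro _; simp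
      | succ j ih =>
        intro hj
        have h7 := hψL _ (hfar (j + 1) hj)
        have h8 : g (L l (γ y0 - ((j + 1 : ℕ) : ℂ)) - ζ) = L l (γ y0 - j) - ζ := by
          have hO : γ y0 - ((j + 1 : ℕ) : ℂ) ∈ OM := om_im (by simpa using hs0im)
          have e1 : ζ + (L l (γ y0 - ((j + 1 : ℕ) : ℂ)) - ζ) = L l (γ y0 - ((j + 1 : ℕ) : ℂ)) := by
            ring
          have e2 : γ y0 - ((j + 1 : ℕ) : ℂ) + 1 = γ y0 - j := by push_cast; ring
          simp only [hgdef]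
          rw [e1, stp_iter f l _ hO k, f.per l _ hO, e2]
        rw [h8, ih (by omega)] at h7
        rw [Function.iterate_succ_apply', h7]
    have heq := h₂ c (k * n) W (fun s => L l (s - n)) (fun s => ζ + ψ^[n] (L l s - ζ)) (γ y0)
      hWp hcA hcB (by
        intro s hs
        have e1 := back f l s (hWreg s hs).1 n
        refine ⟨?_, ?_⟩
        · rw [e1, hitB s hs n]
        · refine (h₃ c (k * n) (L l (s - n))).2 ?_
          intro j _
          rw [e1]
          exact noncrit hk f l s (hWreg s hs).1 j) hs0 (by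
        have := hfareq n le_rfl
        linear_combination this)
    have ht1 : t ∈ W := ⟨1, mem_Ici.2 le_rfl, hγ1⟩
    exact heq ht1
  have htW : t ∈ W := ⟨1, mem_Ici.2 le_rfl, hγ1⟩
  obtain ⟨q1, q2, q3, q4, q5⟩ := hWreg t htW
  obtain ⟨o, ho0, ho⟩ := horb t q2 q3 q4 q5
  refine ⟨o, fun n => ?_⟩
  obtain ⟨p1, -, p3, p4, p5⟩ := ho n
  have hl := hlower t q2 q3
  have htpos : 0 < ‖t‖ := by
    have : T + σ ≤ ‖t‖ := by linarith
    linarith
  refine ⟨p1, ?_, ?_, ?_⟩
  · rw [hclaim n, p3]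
    ring
  · refine le_trans ?_ p4
    rw [div_le_div_iff₀ (by positivity) (by positivity)]
    have hn0 : (0 : ℝ) ≤ n := Nat.cast_nonneg n
    have : (‖t‖ + n) * C ≤ (2 * (‖-1 / (α * (L l t - ζ))‖ + n)) * C := by
      apply mul_le_mul_of_nonneg_right _ (by linarith)
      linarith
    linarith
  · refine p5.trans ?_
    set w := ‖-1 / (α * (L l t - ζ))‖ with hw
    have hn0 : (0 : ℝ) ≤ n := Nat.cast_nonneg n
    have hw0 : 0 < w := by
      have : 0 < 5 / 6 * ‖t‖ := by positivity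
      linarith
    have e1 : (n : ℝ) / w ≤ 2 * (n / ‖t‖) := by
      rw [← mul_div_assoc, div_le_div_iff₀ hw0 htpos]
      nlinarith
    have hx : 0 ≤ (n : ℝ) / ‖t‖ := by positivity
    have e2 : Real.log (1 + n / w) ≤ 2 * Real.log (1 + n / ‖t‖) := by
      have : 2 * Real.log (1 + n / ‖t‖) = Real.log ((1 + n / ‖t‖) ^ 2) := by
        rw [Real.log_pow]; norm_num
      rw [this]
      apply Real.log_le_log
      · positivity
      · nlinarith [sq_nonneg ((n : ℝ) / ‖t‖)]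
    have e3 : C * (1 + Real.log (1 + n / w)) ≤ C * (2 * (1 + Real.log (1 + n / ‖t‖))) := by
      apply mul_le_mul_of_nonneg_left _ (by linarith)
      linarith
    linarith

end Pool.Agent.CUSP
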