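import Pool.Agent.CUSP.Targets

/-!
# CUSP: BKW, backward orbits at a parabolic fixed point
-/

set_option autoImplicit false

open Complex Filter Topology Set MeasureTheory
open Pool.Agent.Limb (F)
open Pool.Agent.PLim (Rho)
open Pool.Agent.MEY (Pt)
open Pool.Agent.PSat (Comp Sat)
open Pool.Agent.AEN (vm Hp Exn)

namespace Pool.Agent.CUSP
namespace BKW_

/-- The second order expansion at the fixed point. -/
theorem expand (ψ : ℂ → ℂ) (α : ℂ) (r0 : ℝ) (hr0 : 0 < r0)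
    (hd : DifferentiableOn ℂ ψ (Metric.ball 0 r0)) (h0 : ψ 0 = 0) (h1 : deriv ψ 0 = 1)
    (h2 : deriv (deriv ψ) 0 = -2 * α) :
    ∃ (g : ℂ → ℂ) (B : ℝ), 0 ≤ B ∧ (∀ u : ℂ, ‖u‖ ≤ r0 / 2 → ‖g u‖ ≤ B) ∧
      ∀ u : ℂ, ψ u = u * (1 - α * u + u ^ 2 * g u) := by
  have hopen : IsOpen (Metric.ball (0 : ℂ) r0) := Metric.isOpen_ball
  have hmem : (0 : ℂ) ∈ Metric.ball (0 : ℂ) r0 := Metric.mem_ball_self hr0
  have hnhds : Metric.ball (0 : ℂ) r0 ∈ 𝓝 (0 : ℂ) := hopen.mem_nhds hmem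
  set p1 : ℂ → ℂ := dslope ψ 0 with hp1
  set p2 : ℂ → ℂ := dslope p1 0 with hp2
  set p3 : ℂ → ℂ := dslope p2 0 with hp3
  have d1 : DifferentiableOn ℂ p1 (Metric.ball 0 r0) :=
    (Complex.differentiableOn_dslope hnhds).mpr hd
  have d2 : DifferentiableOn ℂ p2 (Metric.ball 0 r0) :=
    (Complex.differentiableOn_dslope hnhds).mpr d1
  have d3 : DifferentiableOn ℂ p3 (Metric.ball 0 r0) :=
    (Complex.differentiableOn_dslope hnhds).mpr d2
  have e1 : ∀ u : ℂ, ψ u = u * p1 u := by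
    intro u
    have h := sub_smul_dslope ψ 0 u
    rw [h0, sub_zero, sub_zero, smul_eq_mul] at h
    exact h.symm
  have e1' : ψ = fun u => u * p1 u := funext e1
  have v1 : p1 0 = 1 := by rw [hp1, dslope_same, h1]
  have e2 : ∀ u : ℂ, p1 u = 1 + u * p2 u := by
    intro u
    have h := sub_smul_dslope p1 0 u
    rw [v1, sub_zero, smul_eq_mul] at h
    have h' : u * p2 u = p1 u - 1 := h
    rw [h']; ring
  have dd1 : DifferentiableOn ℂ (deriv p1) (Metric.ball 0 r0) := d1.deriv hopen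
  have v2 : p2 0 = -α := by
    have hev : deriv ψ =ᶠ[𝓝 (0 : ℂ)] fun u => p1 u + u * deriv p1 u := by
      filter_upwards [hnhds] with u hu
      have hdu : DifferentiableAt ℂ p1 u := d1.differentiableAt (hopen.mem_nhds hu)
      rw [e1']
      have := (hasDerivAt_id u).mul hdu.hasDerivAt
      have h3 := this.deriv
      simp only [id] at h3
      have h4 : deriv (fun u => u * p1 u) u = 1 * p1 u + u * deriv p1 u := h3
      rw [h4, one_mul]
    have hd0 : DifferentiableAt ℂ p1 0 := d1.differentiableAt hnhds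
    have hdd0 : DifferentiableAt ℂ (deriv p1) 0 := dd1.differentiableAt hnhds
    have h5 : HasDerivAt (fun u : ℂ => p1 u + u * deriv p1 u)
        (deriv p1 0 + (1 * deriv p1 0 + 0 * deriv (deriv p1) 0)) 0 :=
      hd0.hasDerivAt.add ((hasDerivAt_id (0 : ℂ)).mul hdd0.hasDerivAt)
    have h6 : deriv (deriv ψ) 0 = 2 * deriv p1 0 := by
      rw [hev.deriv_eq, h5.deriv]; ring
    rw [h2] at h6
    rw [hp2, dslope_same]
    have h7 : (2 : ℂ) * deriv p1 0 = 2 * (-α) := by rw [← h6]; ring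
    exact mul_left_cancel₀ two_ne_zero h7
  have e3 : ∀ u : ℂ, p2 u = -α + u * p3 u := by
    intro u
    have h := sub_smul_dslope p2 0 u
    rw [v2, sub_zero, smul_eq_mul] at h
    have h' : u * p3 u = p2 u - -α := h
    rw [h']; ring
  have hsub : Metric.closedBall (0 : ℂ) (r0 / 2) ⊆ Metric.ball 0 r0 :=
    Metric.closedBall_subset_ball (by linarith)
  obtain ⟨B, hB⟩ := (isCompact_closedBall (0 : ℂ) (r0 / 2)).exists_bound_of_continuousOn
    (d3.continuousOn.mono hsub)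
  refine ⟨p3, max B 0, le_max_right _ _, ?_, ?_⟩
  · intro u hu
    exact (hB u (by simpa using hu)).trans (le_max_left _ _)
  · intro u
    rw [e1 u, e2 u, e3 u]; ring

/-- The estimate for the map in the coordinate at infinity. -/
theorem stepest (ψ : ℂ → ℂ) (α : ℂ) (r0 : ℝ) (hr0 : 0 < r0) (hα : α ≠ 0)
    (hd : DifferentiableOn ℂ ψ (Metric.ball 0 r0)) (h0 : ψ 0 = 0) (h1 : deriv ψ 0 = 1)
    (h2 : deriv (deriv ψ) 0 = -2 * α) :
    ∃ R C0 : ℝ, 1 ≤ R ∧ 0 < C0 ∧ ∀ w : ℂ, R ≤ ‖w‖ → -1 / (α * w) ∈ Metric.ball (0 : ℂ) r0 ∧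
      ψ (-1 / (α * w)) ≠ 0 ∧ ‖-1 / (α * ψ (-1 / (α * w))) - (w - 1)‖ ≤ C0 / ‖w‖ := by
  obtain ⟨g, B, hB0, hgB, hψ⟩ := expand ψ α r0 hr0 hd h0 h1 h2
  have hα' : 0 < ‖α‖ := norm_pos_iff.mpr hα
  set A : ℝ := B / ‖α‖ ^ 2 with hA
  have hA0 : 0 ≤ A := by positivity
  refine ⟨max (max 1 (2 * (1 + A))) (2 / (r0 * ‖α‖)), 4 * A + 2,
    (le_max_left _ _).trans (le_max_left _ _), by positivity, ?_⟩
  intro w hw
  have hw1 : 1 ≤ ‖w‖ := ((le_max_left _ _).trans (le_max_left _ _)).trans hw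
  have hw2 : 2 * (1 + A) ≤ ‖w‖ := ((le_max_right _ _).trans (le_max_left _ _)).trans hw
  have hw3 : 2 / (r0 * ‖α‖) ≤ ‖w‖ := (le_max_right _ _).trans hw
  have hwpos : 0 < ‖w‖ := by linarith
  have hw0 : w ≠ 0 := norm_pos_iff.mp hwpos
  set u : ℂ := -1 / (α * w) with hu
  have hun : ‖u‖ ≤ r0 / 2 := by
    rw [hu, norm_div, norm_neg, norm_one, norm_mul, div_le_div_iff₀ (by positivity) (by norm_num)]
    rw [div_le_iff₀ (by positivity)] at hw3
    nlinarith
  have hug : ‖g u‖ ≤ B := hgB u hun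
  have hune : u ≠ 0 := by
    rw [hu]
    exact div_ne_zero (by norm_num) (mul_ne_zero hα hw0)
  set v : ℂ := 1 / w + g u / (α ^ 2 * w ^ 2) with hv
  have hgn : ‖g u / α ^ 2‖ ≤ A := by
    rw [norm_div, norm_pow, hA]
    gcongr
  have hfac : 1 - α * u + u ^ 2 * g u = 1 + v := by
    have e1 : α * u = -(1 / w) := by rw [hu]; field_simp
    have e2 : u ^ 2 = 1 / (α ^ 2 * w ^ 2) := by rw [hu]; field_simp
    rw [hv, e1, e2]; ring
  have hvn : ‖v‖ ≤ (1 + A) / ‖w‖ := by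
    have e : v = (1 + (g u / α ^ 2) * (1 / w)) * (1 / w) := by
      rw [hv]; field_simp
    rw [e, norm_mul, norm_div, norm_one, ← div_eq_mul_one_div]
    gcongr
    refine (norm_add_le _ _).trans ?_
    rw [norm_one]
    gcongr
    rw [norm_mul, norm_div (1 : ℂ), norm_one]
    have : 1 / ‖w‖ ≤ 1 := by rw [div_le_one hwpos]; exact hw1
    calc ‖g u / α ^ 2‖ * (1 / ‖w‖) ≤ A * 1 := by gcongr
      _ = A := mul_one A
  have hvh : ‖v‖ ≤ 1 / 2 := by
    refine hvn.trans ?_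
    rw [div_le_div_iff₀ hwpos (by norm_num)]
    linarith
  have h1v : 1 / 2 ≤ ‖1 + v‖ := by
    have := norm_sub_norm_le (1 : ℂ) (-v)
    rw [norm_one, norm_neg, sub_neg_eq_add] at this
    linarith
  have h1v0 : 1 + v ≠ 0 := by
    intro h; rw [h, norm_zero] at h1v; norm_num at h1v
  have hψu : ψ u = u * (1 + v) := by rw [hψ u, hfac]
  refine ⟨?_, ?_, ?_⟩
  · rw [mem_ball_zero_iff]
    linarith
  · rw [hψu]; exact mul_ne_zero hune h1v0
  · have hJ : -1 / (α * ψ u) = w / (1 + v) := by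
      rw [hψu, hu]
      field_simp
    have hdiff : -1 / (α * ψ u) - (w - 1) =
        ((1 + (g u / α ^ 2) * (1 / w - 1)) * (1 / w)) / (1 + v) := by
      rw [hJ, eq_div_iff h1v0, sub_mul, div_mul_cancel₀ _ h1v0, hv]
      field_simp
      ring
    rw [hdiff, norm_div, norm_mul, norm_div (1 : ℂ), norm_one, div_le_iff₀ (by linarith)]
    have hb : ‖1 + (g u / α ^ 2) * (1 / w - 1)‖ ≤ 1 + A * 2 := by
      refine (norm_add_le _ _).trans ?_
      rw [norm_one, norm_mul]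
      gcongr
      refine (norm_sub_le _ _).trans ?_
      rw [norm_div, norm_one]
      have : 1 / ‖w‖ ≤ 1 := by rw [div_le_one hwpos]; exact hw1
      linarith
    calc ‖1 + (g u / α ^ 2) * (1 / w - 1)‖ * (1 / ‖w‖) ≤ (1 + A * 2) * (1 / ‖w‖) := by gcongr
      _ = (4 * A + 2) / ‖w‖ * (1 / 2) := by ring
      _ ≤ (4 * A + 2) / ‖w‖ * ‖1 + v‖ := by gcongr

/-- The geometry of the region. -/
theorem geom (θ : ℝ) (hθ : 0 < θ) : ∃ c : ℝ, 0 < c ∧ c ≤ 1 ∧ ∀ w : ℂ,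
    (w.re ≤ 0 ∨ θ * w.re ≤ |w.im|) → ∀ n : ℕ, c * (‖w‖ + n) ≤ ‖w - n‖ := by
  set t : ℝ := min θ 1 with ht
  have ht0 : 0 < t := lt_min hθ one_pos
  have ht1 : t ≤ 1 := min_le_right _ _
  have htθ : t ≤ θ := min_le_left _ _
  refine ⟨t / 6, by positivity, by linarith, ?_⟩
  intro w hw n
  have hn : (0 : ℝ) ≤ n := Nat.cast_nonneg n
  have hwn : 0 ≤ ‖w‖ := norm_nonneg w
  have hsq : ‖w‖ ^ 2 = w.re ^ 2 + w.im ^ 2 := by
    rw [← Complex.normSq_eq_norm_sq, Complex.normSq_apply]; ring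
  have hsqn : ‖w - n‖ ^ 2 = (w.re - n) ^ 2 + w.im ^ 2 := by
    rw [← Complex.normSq_eq_norm_sq, Complex.normSq_apply]
    simp only [Complex.sub_re, Complex.sub_im, Complex.natCast_re, Complex.natCast_im]
    ring
  have hnn : 0 ≤ ‖w - n‖ := norm_nonneg _
  by_cases hre : w.re ≤ 0
  · have h1 : ((‖w‖ + n) / 2) ^ 2 ≤ ‖w - n‖ ^ 2 := by
      rw [hsqn]
      have h2 : 0 ≤ -w.re * n := mul_nonneg (by linarith) hn
      nlinarith [sq_nonneg (‖w‖ - n)]
    have h3 : (‖w‖ + n) / 2 ≤ ‖w - n‖ := by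
      exact (pow_le_pow_iff_left₀ (by positivity) hnn two_ne_zero).mp h1
    have h4 : t / 6 * (‖w‖ + n) ≤ 1 / 2 * (‖w‖ + n) := by
      gcongr; linarith
    linarith
  · have hre' : 0 < w.re := not_le.mp hre
    have hθw : θ * w.re ≤ |w.im| := by
      rcases hw with h | h
      · exact absurd h hre
      · exact h
    have him : t * w.re ≤ |w.im| := (mul_le_mul_of_nonneg_right htθ hre'.le).trans hθw
    have habs : |w.im| ^ 2 = w.im ^ 2 := sq_abs _
    have h1 : (t * ‖w‖ / 2) ^ 2 ≤ |w.im| ^ 2 := by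
      have h2 : (t * w.re) ^ 2 ≤ |w.im| ^ 2 :=
        pow_le_pow_left₀ (by positivity) him 2
      have h3 : t ^ 2 ≤ 1 := by nlinarith
      have h4 : t ^ 2 * w.im ^ 2 ≤ 1 * w.im ^ 2 := by gcongr
      have h5 : (t * ‖w‖ / 2) ^ 2 = t ^ 2 * ‖w‖ ^ 2 / 4 := by ring
      rw [h5, hsq, habs]
      rw [habs] at h2
      nlinarith [sq_nonneg w.im]
    have h6 : t * ‖w‖ / 2 ≤ |w.im| :=
      (pow_le_pow_iff_left₀ (by positivity) (abs_nonneg _) two_ne_zero).mp h1
    have h7 : |w.im| ≤ ‖w - n‖ := by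
      have := Complex.abs_im_le_norm (w - n)
      simpa using this
    by_cases hc : (n : ℝ) ≤ 2 * ‖w‖
    · have : t / 6 * (‖w‖ + n) ≤ t / 6 * (‖w‖ + 2 * ‖w‖) := by gcongr
      nlinarith
    · have hc' : 2 * ‖w‖ < n := not_le.mp hc
      have h8 : (n : ℝ) - ‖w‖ ≤ ‖w - n‖ := by
        have := norm_sub_norm_le (n : ℂ) w
        rw [Complex.norm_natCast, norm_sub_rev] at this
        exact this
      have h9 : t / 6 * (‖w‖ + n) ≤ 1 / 6 * (‖w‖ + n) := by gcongr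
      linarith

/-- One step of the logarithm. -/
theorem logstep (a : ℝ) (ha : 1 ≤ a) (n : ℕ) :
    1 / (a + n) ≤ 2 * (Real.log (1 + (n + 1 : ℕ) / a) - Real.log (1 + n / a)) := by
  have hn : (0 : ℝ) ≤ n := Nat.cast_nonneg n
  have ha0 : 0 < a := by linarith
  have h1 : (1 : ℝ) + (n + 1 : ℕ) / a = (a + n + 1) / a := by
    push_cast; field_simp; ring
  have h2 : (1 : ℝ) + n / a = (a + n) / a := by field_simp
  rw [h1, h2, Real.log_div (by positivity) (by positivity),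
    Real.log_div (by positivity) (by positivity)]
  have h3 : Real.log (a + n + 1) - Real.log a - (Real.log (a + n) - Real.log a) =
      Real.log ((a + n + 1) / (a + n)) := by
    rw [Real.log_div (by positivity) (by positivity)]; ring
  rw [h3]
  have h4 := Real.one_sub_inv_le_log_of_pos (x := (a + n + 1) / (a + n)) (by positivity)
  have h5 : 1 - ((a + n + 1) / (a + n))⁻¹ = 1 / (a + n + 1) := by
    rw [inv_div]; field_simp; ring
  rw [h5] at h4
  have h6 : 1 / (a + n) ≤ 2 * (1 / (a + n + 1)) := by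
    rw [mul_one_div, div_le_div_iff₀ (by positivity) (by positivity)]
    linarith
  linarith

end BKW_

open BKW_ in
/-- BKW: backward orbits at a parabolic fixed point. -/
theorem p_BKW : T_BKW := by
  intro ψ α r0 θ hr0 hα hθ hd h0 h1 h2
  obtain ⟨R, C0, hR, hC0, hJ⟩ := stepest ψ α r0 hr0 hα hd h0 h1 h2
  obtain ⟨c, hc, hc1, hgeo⟩ := geom θ hθ
  set J : ℂ → ℂ := fun w => -1 / (α * ψ (-1 / (α * w))) with hJdef
  refine ⟨max (2 * R / c) (8 * C0 / c ^ 2), max (max 1 (2 / c)) (4 * C0 / c),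
    lt_max_of_lt_left (by positivity), (le_max_left _ _).trans (le_max_left _ _), ?_⟩
  intro w hσ hreg
  have hσ1 : 2 * R / c ≤ ‖w‖ := (le_max_left _ _).trans hσ
  have hσ2 : 8 * C0 / c ^ 2 ≤ ‖w‖ := (le_max_right _ _).trans hσ
  rw [div_le_iff₀ hc] at hσ1
  rw [div_le_iff₀ (by positivity)] at hσ2
  have hw1 : 1 ≤ ‖w‖ := by nlinarith [norm_nonneg w]
  have hwpos : 0 < ‖w‖ := by linarith
  set o : ℕ → ℂ := fun n => J^[n] w with ho
  have ho0 : o 0 = w := rfl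
  have hos : ∀ n, o (n + 1) = J (o n) := fun n => Function.iterate_succ_apply' J n w
  have hlogn : ∀ n : ℕ, 0 ≤ Real.log (1 + n / ‖w‖) := by
    intro n
    apply Real.log_nonneg
    have : 0 ≤ (n : ℝ) / ‖w‖ := by positivity
    linarith
  have hlogle : ∀ n : ℕ, Real.log (1 + n / ‖w‖) ≤ n / ‖w‖ := by
    intro n
    have h3 : 0 < (1 : ℝ) + n / ‖w‖ := by positivity
    have := Real.log_le_sub_one_of_pos h3
    linarith
  have hsize : ∀ n : ℕ, ‖o n - (w - n)‖ ≤ 4 * C0 / c * Real.log (1 + n / ‖w‖) →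
      c / 2 * (‖w‖ + n) ≤ ‖o n‖ := by
    intro n hn
    have hn0 : (0 : ℝ) ≤ n := Nat.cast_nonneg n
    have h3 := hgeo w hreg n
    have h4 : 4 * C0 / c * Real.log (1 + n / ‖w‖) ≤ c / 2 * (‖w‖ + n) := by
      calc 4 * C0 / c * Real.log (1 + n / ‖w‖) ≤ 4 * C0 / c * (n / ‖w‖) := by
            gcongr; exact hlogle n
        _ = (4 * C0 * n) / (c * ‖w‖) := by field_simp
        _ ≤ c / 2 * (‖w‖ + n) := by
            rw [div_le_iff₀ (by positivity)]
            have h5 : 8 * C0 * n ≤ ‖w‖ * c ^ 2 * n := by gcongr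
            have h6 : 0 ≤ c ^ 2 * ‖w‖ * ‖w‖ := by positivity
            nlinarith
    have h7 : ‖w - n‖ ≤ ‖o n‖ + ‖o n - (w - n)‖ := by
      have := norm_sub_le (o n) (o n - (w - n))
      rwa [sub_sub_cancel] at this
    nlinarith
  have hmain : ∀ n : ℕ, ‖o n - (w - n)‖ ≤ 4 * C0 / c * Real.log (1 + n / ‖w‖) := by
    intro n
    induction n with
    | zero => simp [ho0]
    | succ n ih =>
      have hn0 : (0 : ℝ) ≤ n := Nat.cast_nonneg n
      have h3 := hsize n ih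
      have h4 : R ≤ ‖o n‖ := by nlinarith
      obtain ⟨_, _, h5⟩ := hJ (o n) h4
      have h6 : ‖o (n + 1) - (o n - 1)‖ ≤ C0 / ‖o n‖ := by rw [hos]; exact h5
      have h7 : C0 / ‖o n‖ ≤ 2 * C0 / c * (1 / (‖w‖ + n)) := by
        rw [mul_one_div, div_div, div_le_div_iff₀ (by linarith) (by positivity)]
        have h8 : C0 * (c / 2 * (‖w‖ + n)) ≤ C0 * ‖o n‖ := by gcongr
        linarith
      have h9 := logstep ‖w‖ hw1 n
      have h10 : 2 * C0 / c * (1 / (‖w‖ + n)) ≤ 2 * C0 / c *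
          (2 * (Real.log (1 + (n + 1 : ℕ) / ‖w‖) - Real.log (1 + n / ‖w‖))) := by gcongr
      have h11 : o (n + 1) - (w - (n + 1 : ℕ)) =
          (o (n + 1) - (o n - 1)) + (o n - (w - n)) := by push_cast; ring
      rw [h11]
      calc ‖(o (n + 1) - (o n - 1)) + (o n - (w - n))‖
          ≤ ‖o (n + 1) - (o n - 1)‖ + ‖o n - (w - n)‖ := norm_add_le _ _
        _ ≤ 2 * C0 / c * (2 * (Real.log (1 + (n + 1 : ℕ) / ‖w‖) - Real.log (1 + n / ‖w‖))) +
            4 * C0 / c * Real.log (1 + n / ‖w‖) := by linarith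
        _ = 4 * C0 / c * Real.log (1 + (n + 1 : ℕ) / ‖w‖) := by ring
  refine ⟨o, ho0, ?_⟩
  intro n
  have hn0 : (0 : ℝ) ≤ n := Nat.cast_nonneg n
  have h3 := hsize n (hmain n)
  have h4 : R ≤ ‖o n‖ := by nlinarith
  obtain ⟨h5, h6, _⟩ := hJ (o n) h4
  have hon : o n ≠ 0 := by
    apply norm_pos_iff.mp; linarith
  refine ⟨hon, h5, ?_, ?_, ?_⟩
  · rw [hos, hJdef]
    have : α * (-1 / (α * ψ (-1 / (α * o n)))) = -1 / ψ (-1 / (α * o n)) := by
      field_simp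
    simp only []
    rw [this]
    field_simp
  · have hC : 2 / c ≤ max (max 1 (2 / c)) (4 * C0 / c) :=
      (le_max_right _ _).trans (le_max_left _ _)
    calc (‖w‖ + n) / max (max 1 (2 / c)) (4 * C0 / c) ≤ (‖w‖ + n) / (2 / c) := by gcongr
      _ = c / 2 * (‖w‖ + n) := by field_simp
      _ ≤ ‖o n‖ := h3
  · have hC : 4 * C0 / c ≤ max (max 1 (2 / c)) (4 * C0 / c) := le_max_right _ _
    have hlog := hlogn n
    calc ‖o n - (w - n)‖ ≤ 4 * C0 / c * Real.log (1 + n / ‖w‖) := hmain n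
      _ ≤ max (max 1 (2 / c)) (4 * C0 / c) * (1 + Real.log (1 + n / ‖w‖)) := by
          gcongr; linarith

end Pool.Agent.CUSP
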