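import Pool.Agent.CUSP.Targets

/-!
# CUSP, target BST: one step back
-/

set_option autoImplicit false

open Complex Filter Topology Set MeasureTheory
open Pool.Agent.Limb (F)
open Pool.Agent.PLim (Rho)
open Pool.Agent.MEY (Pt)
open Pool.Agent.PSat (Comp Sat)
open Pool.Agent.AEN (vm Hp Exn)

namespace Pool.Agent.CUSP

namespace BST_

theorem Fapp (c x : ℂ) : F 2 c x = x ^ 2 + c := rfl

theorem hasDerivF (c x : ℂ) : HasDerivAt (F 2 c) (2 * x) x := by
  have h2 : HasDerivAt (fun z : ℂ => z ^ 2 + c) (2 * x) x := by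
    have h3 := (hasDerivAt_pow 2 x).add_const c
    simpa using h3
  exact h2

theorem cont_it (c : ℂ) (m : ℕ) : Continuous ((F 2 c)^[m]) := by
  apply Continuous.iterate
  unfold F
  fun_prop

theorem sx_open (p : ℝ) : IsOpen (Sx p) := by
  unfold Sx
  exact isOpen_lt (by fun_prop) (by fun_prop)

theorem sx_convex (p : ℝ) : Convex ℝ (Sx p) := by
  intro x hx y hy a b ha hb hab
  simp only [Sx, mem_ofPred_eq] at hx hy ⊢
  have h1 : (a • x + b • y).re = a * x.re + b * y.re := by simp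
  have h2 : (a • x + b • y).im = a * x.im + b * y.im := by simp
  rw [h1, h2]
  have h3 : |a * x.im + b * y.im| ≤ a * |x.im| + b * |y.im| := by
    calc |a * x.im + b * y.im| ≤ |a * x.im| + |b * y.im| := abs_add_le _ _
      _ = a * |x.im| + b * |y.im| := by rw [abs_mul, abs_mul, abs_of_nonneg ha, abs_of_nonneg hb]
  have h4 : p = a * p + b * p := by rw [← add_mul, hab, one_mul]
  rcases ha.eq_or_lt with h | h
  · have hb1 : b = 1 := by linarith
    subst h; subst hb1
    simp only [zero_mul, zero_add, one_mul]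
    exact hy
  · nlinarith [mul_lt_mul_of_pos_left hx h, mul_le_mul_of_nonneg_left hy.le hb]

theorem sx_add {p : ℝ} {t : ℂ} (ht : t ∈ Sx p) : t + 1 ∈ Sx (p + 1) := by
  simp only [Sx, mem_ofPred_eq, add_im, one_im, add_zero, add_re, one_re] at ht ⊢
  linarith

theorem sx_sub {p : ℝ} {t : ℂ} (ht : t ∈ Sx (p + 1)) : t - 1 ∈ Sx p := by
  simp only [Sx, mem_ofPred_eq, sub_im, one_im, sub_zero, sub_re, one_re] at ht ⊢
  linarith

theorem sx_mono {p : ℝ} {t : ℂ} (ht : t ∈ Sx (p + 1)) : t ∈ Sx p := by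
  simp only [Sx, mem_ofPred_eq] at ht ⊢
  linarith

/-- the filter of the points of the sector with large real part -/
def FL (p : ℝ) : Filter ℂ := comap Complex.re atTop ⊓ 𝓟 (Sx p)

theorem ev_iff (p : ℝ) (P : ℂ → Prop) :
    (∀ᶠ t in FL p, P t) ↔ ∃ T : ℝ, ∀ t ∈ Sx p, T ≤ t.re → P t := by
  unfold FL
  rw [eventually_inf_principal, eventually_comap, eventually_atTop]
  constructor
  · rintro ⟨T, hT⟩
    exact ⟨T, fun t ht h => hT t.re h t rfl ht⟩
  · rintro ⟨T, hT⟩
    refine ⟨T, fun x hx t htx ht => hT t ht (by rw [htx]; exact hx)⟩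

theorem tends_iff (p : ℝ) (g : ℂ → ℂ) (w : ℂ) :
    Tendsto g (FL p) (𝓝 w) ↔
      ∀ ε : ℝ, 0 < ε → ∃ T : ℝ, ∀ t ∈ Sx p, T ≤ t.re → ‖g t - w‖ ≤ ε := by
  rw [Metric.tendsto_nhds]
  constructor
  · intro h ε hε
    obtain ⟨T, hT⟩ := (ev_iff p _).1 (h ε hε)
    refine ⟨T, fun t ht h2 => ?_⟩
    have := hT t ht h2
    rw [dist_eq_norm] at this
    exact this.le
  · intro h ε hε
    obtain ⟨T, hT⟩ := h (ε / 2) (by linarith)
    refine (ev_iff p _).2 ⟨T, fun t ht h2 => ?_⟩
    rw [dist_eq_norm]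
    exact (hT t ht h2).trans_lt (by linarith)

theorem tends_inv (p : ℝ) : Tendsto (fun t : ℂ => t⁻¹) (FL p) (𝓝 0) := by
  rw [tends_iff]
  intro ε hε
  refine ⟨1 / ε, fun t _ h => ?_⟩
  have h0 : 0 < 1 / ε := by positivity
  have h1 : 1 / ε ≤ ‖t‖ := h.trans (Complex.re_le_norm t)
  rw [sub_zero, norm_inv]
  exact inv_le_of_inv_le₀ hε (by rwa [one_div] at h1)

theorem ne_zero_ev (p : ℝ) : ∀ᶠ t in FL p, t ≠ 0 := by
  refine (ev_iff p _).2 ⟨1, fun t _ h => ?_⟩
  rintro rfl
  simp at h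
  linarith

/-- the real part of `x * conj y` -/
def hh (x y : ℂ) : ℝ := x.re * y.re + x.im * y.im

theorem norm_add_hh (x y : ℂ) : ‖x + y‖ ^ 2 = ‖x‖ ^ 2 + 2 * hh x y + ‖y‖ ^ 2 := by
  rw [← Complex.normSq_eq_norm_sq, ← Complex.normSq_eq_norm_sq, ← Complex.normSq_eq_norm_sq]
  simp only [Complex.normSq_apply, hh, add_re, add_im]
  ring

theorem norm_sub_hh (x y : ℂ) : ‖x - y‖ ^ 2 = ‖x‖ ^ 2 - 2 * hh x y + ‖y‖ ^ 2 := by
  rw [← Complex.normSq_eq_norm_sq, ← Complex.normSq_eq_norm_sq, ← Complex.normSq_eq_norm_sq]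
  simp only [Complex.normSq_apply, hh, sub_re, sub_im]
  ring

end BST_

open BST_ in
theorem p_BST (h₁ : T_LFT) (h₂ : T_LFU) (h₃ : T_CRV) (h₄ : T_AST) : T_BST := by
  intro k c z a m p lam hP hp hS hav
  obtain ⟨haa, -, hz0, -, hit, -, -⟩ := h₄ k c z a hP m
  have hk := hP.hk
  have hane := hP.ane
  obtain ⟨k', rfl⟩ : ∃ k', k = k' + 1 := ⟨k - 1, by omega⟩
  have hfk : ∀ x, F 2 c ((F 2 c)^[k'] x) = (F 2 c)^[k' + 1] x := fun x => by
    rw [Function.iterate_succ_apply']
  -- the base point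
  have ht0 : ((p + 2 : ℝ) : ℂ) ∈ Sx (p + 1) := by
    simp only [Sx, mem_ofPred_eq, ofReal_im, abs_zero, mul_zero, ofReal_re]
    linarith
  set t0 : ℂ := ((p + 2 : ℝ) : ℂ) with ht0def
  have hbase : (F 2 c)^[1] ((F 2 c)^[k'] (lam (t0 - 1))) = lam t0 := by
    rw [Function.iterate_one, hfk, hS.eq _ (sx_sub ht0), sub_add_cancel]
  obtain ⟨mu, hmud, hmu0, hmu⟩ := h₁ c 1 (Sx p) lam (sx_open p) (sx_convex p) hS.dif
    (fun t ht j hj => by
      have : j = 0 := by omega
      subst this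
      simpa using hav t ht) t0 (sx_mono ht0) _ hbase
  have hmu1 : ∀ t ∈ Sx p, F 2 c (mu t) = lam t := fun t ht => by
    have := hmu t ht
    rwa [Function.iterate_one] at this
  have hEq : EqOn mu (fun t => (F 2 c)^[k'] (lam (t - 1))) (Sx (p + 1)) := by
    refine h₂ c 1 (Sx (p + 1)) mu _ t0 (sx_convex (p + 1)).isPreconnected
      (hmud.continuousOn.mono fun t ht => sx_mono ht) ?_ ?_ ht0 hmu0
    · refine (cont_it c k').comp_continuousOn ?_
      exact hS.dif.continuousOn.comp (by fun_prop) fun t ht => sx_sub ht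
    · intro t ht
      have e1 := hmu t (sx_mono ht)
      refine ⟨?_, (h₃ c 1 (mu t)).2 ?_⟩
      · rw [e1, Function.iterate_one, hfk, hS.eq _ (sx_sub ht), sub_add_cancel]
      · intro j hj
        have : j = 0 := by omega
        subst this
        rw [e1]
        simpa using hav t (sx_mono ht)
  have hfact : ∀ t ∈ Sx p, (mu t - z m) * (mu t + z m) = lam t - z (m + 1) := by
    intro t ht
    have e1 := hmu1 t ht
    have e2 := hP.stp m
    rw [Fapp] at e1 e2
    rw [← e1, ← e2]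
    ring
  -- limits along the filter
  have hL1 : Tendsto (fun t => t * (lam t - z (m + 1))) (FL p) (𝓝 (-(1 / a (m + 1)))) := by
    rw [tends_iff]
    intro ε hε
    obtain ⟨T, hT⟩ := hS.asy ε hε
    refine ⟨T, fun t ht h => ?_⟩
    rw [sub_neg_eq_add]
    exact (hT t ht h).1
  have hL2 : Tendsto (fun t => t ^ 2 * deriv lam t) (FL p) (𝓝 (1 / a (m + 1))) := by
    rw [tends_iff]
    intro ε hε
    obtain ⟨T, hT⟩ := hS.asy ε hε
    exact ⟨T, fun t ht h => (hT t ht h).2⟩
  have hL0 : Tendsto (fun t => lam t - z (m + 1)) (FL p) (𝓝 0) := by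
    have h := hL1.mul (tends_inv p)
    rw [mul_zero] at h
    refine h.congr' ?_
    filter_upwards [ne_zero_ev p] with t ht
    field_simp
  have hzp : 0 < ‖z m‖ := norm_pos_iff.2 hz0
  -- the sign
  have hsign : ∀ᶠ t in FL p, 0 < hh (mu t) (z m) := by
    obtain ⟨T1, hT1⟩ := (ev_iff p _).1
      ((Metric.tendsto_nhds.1 hL0) (‖z m‖ ^ 2) (by positivity))
    -- a good point
    have hcont : Tendsto ((F 2 c)^[k']) (𝓝 (z (m + 1))) (𝓝 (z m)) := by
      have h := (cont_it c k').tendsto (z (m + 1))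
      have e : (F 2 c)^[k'] (z (m + 1)) = z m := by
        rw [← hP.stp m, ← Function.iterate_succ_apply, hit, hP.per]
      rwa [e] at h
    have hL0' : Tendsto lam (FL p) (𝓝 (z (m + 1))) := by
      have h := hL0.add_const (z (m + 1))
      simpa using h
    obtain ⟨T2, hT2⟩ := (ev_iff p _).1
      ((Metric.tendsto_nhds.1 (hcont.comp hL0')) ‖z m‖ hzp)
    refine (ev_iff p _).2 ⟨max T1 (T2 + 1), ?_⟩
    set T := max T1 (T2 + 1) with hTdef
    set S : Set ℂ := {t : ℂ | t ∈ Sx p ∧ T ≤ t.re} with hSdef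
    have hSc : Convex ℝ S := (sx_convex p).inter (convex_halfSpace_re_ge T)
    have hcontS : ContinuousOn (fun t => hh (mu t) (z m)) S := by
      have h1 : ContinuousOn mu S := hmud.continuousOn.mono fun t ht => ht.1
      have h2 : Continuous fun x : ℂ => hh x (z m) := by
        unfold hh
        fun_prop
      exact h2.comp_continuousOn h1
    have hne : ∀ t ∈ S, hh (mu t) (z m) ≠ 0 := by
      intro t ht h0
      have e1 := norm_add_hh (mu t) (z m)
      have e2 := norm_sub_hh (mu t) (z m)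
      have e3 := hfact t ht.1
      have e4 := hT1 t ht.1 ((le_max_left _ _).trans ht.2)
      rw [dist_zero_right, ← e3, norm_mul] at e4
      rw [h0] at e1 e2
      have e5 : ‖mu t - z m‖ ^ 2 = ‖mu t + z m‖ ^ 2 := by rw [e1, e2]; ring
      have e6 : ‖mu t - z m‖ = ‖mu t + z m‖ := by
        exact (pow_left_inj₀ (norm_nonneg _) (norm_nonneg _) two_ne_zero).1 e5
      rw [e6] at e4
      nlinarith [sq_nonneg ‖mu t‖]
    -- the good point
    set s : ℝ := max (T + 1) (p + 2) with hsdef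
    have hsS : ((s : ℝ) : ℂ) ∈ Sx (p + 1) := by
      simp only [Sx, mem_ofPred_eq, ofReal_im, abs_zero, mul_zero, ofReal_re]
      have : p + 2 ≤ s := le_max_right _ _
      linarith
    have hsT : ((s : ℝ) : ℂ) ∈ S := by
      refine ⟨sx_mono hsS, ?_⟩
      simp only [ofReal_re]
      have : T + 1 ≤ s := le_max_left _ _
      linarith
    have hspos : 0 < hh (mu (s : ℂ)) (z m) := by
      have e1 : mu (s : ℂ) = (F 2 c)^[k'] (lam ((s : ℂ) - 1)) := hEq hsS
      have e2 := hT2 ((s : ℂ) - 1) (sx_sub hsS) (by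
        simp only [sub_re, ofReal_re, one_re]
        have h3 : T + 1 ≤ s := le_max_left _ _
        have h4 : T2 + 1 ≤ T := le_max_right _ _
        linarith)
      simp only [Function.comp_apply] at e2
      rw [← e1, dist_eq_norm] at e2
      have e3 := norm_sub_hh (mu s) (z m)
      have e4 : ‖mu (s : ℂ) - z m‖ ^ 2 < ‖z m‖ ^ 2 := by
        exact pow_lt_pow_left₀ e2 (norm_nonneg _) two_ne_zero
      nlinarith [sq_nonneg ‖mu (s : ℂ)‖]
    intro t ht hTt
    by_contra hcon
    rw [not_lt] at hcon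
    obtain ⟨x, hx, hx0⟩ := hSc.isPreconnected.intermediate_value (a := t) (b := (s : ℂ))
      ⟨ht, hTt⟩ hsT hcontS ⟨hcon, hspos.le⟩
    exact hne x hx hx0
  have hlow : ∀ᶠ t in FL p, ‖z m‖ ≤ ‖mu t + z m‖ := by
    filter_upwards [hsign] with t ht
    have e1 := norm_add_hh (mu t) (z m)
    refine (pow_le_pow_iff_left₀ (norm_nonneg _) (norm_nonneg _) two_ne_zero).1 ?_
    nlinarith [sq_nonneg ‖mu t‖]
  have hinS : ∀ᶠ t in FL p, t ∈ Sx p := (ev_iff p _).2 ⟨0, fun t ht _ => ht⟩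
  have hM0 : Tendsto (fun t => mu t - z m) (FL p) (𝓝 0) := by
    rw [tendsto_zero_iff_norm_tendsto_zero]
    have h1 : Tendsto (fun t => ‖lam t - z (m + 1)‖ / ‖z m‖) (FL p) (𝓝 0) := by
      have := (tendsto_zero_iff_norm_tendsto_zero.1 hL0).div_const ‖z m‖
      rwa [zero_div] at this
    refine squeeze_zero' (Eventually.of_forall fun t => norm_nonneg _) ?_ h1
    filter_upwards [hlow, hinS] with t ht hts
    rw [le_div_iff₀ hzp, ← hfact t hts, norm_mul]
    exact mul_le_mul_of_nonneg_left ht (norm_nonneg _)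
  have hM1 : Tendsto mu (FL p) (𝓝 (z m)) := by
    have h := hM0.add_const (z m)
    simpa using h
  have h2z : (2 : ℂ) * z m ≠ 0 := mul_ne_zero two_ne_zero hz0
  have hb0 := hane (m + 1)
  have hA1 : Tendsto (fun t => t * (mu t - z m)) (FL p) (𝓝 (-(1 / a m))) := by
    have h1 : Tendsto (fun t => mu t + z m) (FL p) (𝓝 (2 * z m)) := by
      have := hM1.add_const (z m)
      rwa [← two_mul] at this
    have h2 := hL1.div h1 h2z
    have e : -(1 / a (m + 1)) / (2 * z m) = -(1 / a m) := by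
      rw [haa]
      field_simp
    rw [e] at h2
    refine h2.congr' ?_
    filter_upwards [hlow, hinS] with t ht hts
    have hne : mu t + z m ≠ 0 := by
      intro h
      rw [h, norm_zero] at ht
      linarith
    rw [Pi.div_apply, ← hfact t hts]
    field_simp
  have hA2 : Tendsto (fun t => t ^ 2 * deriv mu t) (FL p) (𝓝 (1 / a m)) := by
    have h1 : Tendsto (fun t => 2 * mu t) (FL p) (𝓝 (2 * z m)) := hM1.const_mul 2
    have h2 := hL2.div h1 h2z
    have e : (1 / a (m + 1)) / (2 * z m) = 1 / a m := by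
      rw [haa]
      field_simp
    rw [e] at h2
    refine h2.congr' ?_
    filter_upwards [hinS, h1.eventually_ne h2z] with t hts hne
    have hd : deriv lam t = 2 * mu t * deriv mu t := by
      have hnh : Sx p ∈ 𝓝 t := (sx_open p).mem_nhds hts
      have g1 : HasDerivAt (fun x => F 2 c (mu x)) (2 * mu t * deriv mu t) t :=
        (hasDerivF c (mu t)).comp t (hmud.differentiableAt hnh).hasDerivAt
      have g2 : HasDerivAt lam (2 * mu t * deriv mu t) t := by
        refine g1.congr_of_eventuallyEq ?_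
        filter_upwards [hnh] with x hx
        exact (hmu1 x hx).symm
      exact g2.deriv
    have hmt : mu t ≠ 0 := fun h => hne (by rw [h, mul_zero])
    rw [Pi.div_apply, hd]
    field_simp
  refine ⟨mu, ⟨hmud, ?_, ?_, ?_⟩, hmu1⟩
  · intro t ht s hs hts
    refine hS.inj ht hs ?_
    rw [← hmu1 t ht, ← hmu1 s hs, hts]
  · intro t ht
    rw [Function.iterate_succ_apply, hmu1 t ht, hEq (sx_add ht)]
    simp
  · intro ε hε
    rw [tends_iff] at hA1 hA2
    obtain ⟨T1, hT1⟩ := hA1 ε hε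
    obtain ⟨T2, hT2⟩ := hA2 ε hε
    refine ⟨max T1 T2, fun t ht h => ⟨?_, hT2 t ht ((le_max_right _ _).trans h)⟩⟩
    have := hT1 t ht ((le_max_left _ _).trans h)
    rwa [sub_neg_eq_add] at this

end Pool.Agent.CUSP
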