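import Pool.Agent.CUSP.Targets3

/-!
# CUSP: CES, a limit of Cesàro type
-/

set_option autoImplicit false

open Complex Filter Topology Set MeasureTheory
open Pool.Agent.Limb (F)
open Pool.Agent.PLim (Rho)
open Pool.Agent.MEY (Pt)
open Pool.Agent.PSat (Comp Sat)
open Pool.Agent.AEN (vm Hp Exn)
open Pool.Agent.MEZ (T_NCZ T_SECZ)

namespace Pool.Agent.CUSP

namespace CES_

lemma low (n : ℕ) : (n : ℝ) - 1 ≤ ∑ i ∈ Finset.range n, (i : ℝ) ^ 2 := by
  induction n with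
  | zero => simp
  | succ n ih =>
    rw [Finset.sum_range_succ]
    push_cast
    rcases Nat.eq_zero_or_pos n with h | h
    · subst h
      simp
    · have h1 : (1 : ℝ) ≤ n := by exact_mod_cast h
      nlinarith

lemma upp (n : ℕ) : ∑ i ∈ Finset.range n, (i : ℝ) ^ 2 ≤ (n : ℝ) ^ 3 := by
  have h : ∑ i ∈ Finset.range n, (i : ℝ) ^ 2 ≤ ∑ _i ∈ Finset.range n, (n : ℝ) ^ 2 := by
    refine Finset.sum_le_sum fun i hi => ?_
    have h1 : (i : ℝ) ≤ n := by exact_mod_cast (Finset.mem_range.1 hi).le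
    exact pow_le_pow_left₀ (Nat.cast_nonneg i) h1 2
  rw [Finset.sum_const, Finset.card_range, nsmul_eq_mul] at h
  calc _ ≤ _ := h
    _ = (n : ℝ) ^ 3 := by ring

/-- If the increments are `o (n ^ 2)` then the sequence is `o (n ^ 3)`. -/
lemma inc (u : ℕ → ℂ) (h : Tendsto (fun n : ℕ => (u (n + 1) - u n) / (n : ℂ) ^ 2) atTop (𝓝 0)) :
    Tendsto (fun n : ℕ => u n / (n : ℂ) ^ 3) atTop (𝓝 0) := by
  have h1 : (fun n : ℕ => u (n + 1) - u n) =o[atTop] (fun n : ℕ => (n : ℂ) ^ 2) := by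
    refine Asymptotics.isLittleO_of_tendsto' ?_ h
    filter_upwards [eventually_ge_atTop 1] with n hn h0
    exfalso
    have : (n : ℂ) ≠ 0 := by exact_mod_cast (by omega : n ≠ 0)
    exact this (pow_eq_zero_iff (two_ne_zero)|>.1 h0)
  have h2 : (fun n : ℕ => u (n + 1) - u n) =o[atTop] (fun n : ℕ => (n : ℝ) ^ 2) := by
    have := h1.norm_right
    simpa using this
  have h3 := h2.sum_range (fun n => by positivity)
    (tendsto_atTop_mono low (tendsto_atTop_add_const_right _ _ tendsto_natCast_atTop_atTop))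
  have h4 : (fun n : ℕ => ∑ i ∈ Finset.range n, (i : ℝ) ^ 2) =O[atTop]
      (fun n : ℕ => (n : ℂ) ^ 3) := by
    refine Asymptotics.IsBigO.of_bound 1 (Eventually.of_forall fun n => ?_)
    rw [Real.norm_of_nonneg (Finset.sum_nonneg fun i _ => by positivity), one_mul, norm_pow,
      Complex.norm_natCast]
    exact upp n
  have h5 := (h3.trans_isBigO h4).tendsto_div_nhds_zero
  simp only [Finset.sum_range_sub] at h5
  have h6 : Tendsto (fun n : ℕ => u 0 / (n : ℂ) ^ 3) atTop (𝓝 0) := by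
    have h7 : Tendsto (fun n : ℕ => ((n : ℂ) ^ 3)⁻¹) atTop (𝓝 0) := by
      have h8 : Tendsto (fun n : ℕ => ((n : ℂ))⁻¹) atTop (𝓝 0) :=
        tendsto_inv_atTop_nhds_zero_nat (𝕜 := ℂ)
      have h9 := h8.pow 3
      simpa using h9
    simpa [div_eq_mul_inv] using h7.const_mul (u 0)
  have h10 := h5.add h6
  simp only [add_zero] at h10
  refine h10.congr fun n => ?_
  rw [← add_div, sub_add_cancel]

end CES_

open CES_ in
theorem p_CES : T_CES := by
  intro σ β b s hσ hβ hs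
  have hn : Tendsto (fun n : ℕ => ((n : ℂ))⁻¹) atTop (𝓝 0) :=
    tendsto_inv_atTop_nhds_zero_nat (𝕜 := ℂ)
  have h1 : Tendsto (fun n : ℕ => (σ n + b / 3 * (n : ℂ) ^ 3) / (n : ℂ) ^ 3) atTop (𝓝 0) := by
    refine inc (fun n : ℕ => σ n + b / 3 * (n : ℂ) ^ 3) ?_
    have h2 : Tendsto (fun n : ℕ => -(β n / (n : ℂ) ^ 2) +
        b / 3 * (3 + 3 * ((n : ℂ))⁻¹ + ((n : ℂ))⁻¹ ^ 2)) atTop
          (𝓝 (-b + b / 3 * (3 + 3 * 0 + 0 ^ 2))) :=
      hβ.neg.add (((tendsto_const_nhds.add (hn.const_mul 3)).add (hn.pow 2)).const_mul (b / 3))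
    have h3 : -b + b / 3 * (3 + 3 * 0 + 0 ^ 2) = 0 := by ring
    rw [h3] at h2
    refine h2.congr' ?_
    filter_upwards [eventually_ge_atTop 1] with n hn1
    have hn0 : (n : ℂ) ≠ 0 := by exact_mod_cast (by omega : n ≠ 0)
    rw [hσ n]
    push_cast
    field_simp
    ring
  have h4 : Tendsto (fun n : ℕ => (σ n + b / 3 * (n : ℂ) ^ 3) / (n : ℂ) ^ 3) atTop
      (𝓝 (s + b / 3)) := by
    refine (hs.add_const (b / 3)).congr' ?_
    filter_upwards [eventually_ge_atTop 1] with n hn1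
    have hn0 : (n : ℂ) ≠ 0 := by exact_mod_cast (by omega : n ≠ 0)
    field_simp
  have h5 := tendsto_nhds_unique h4 h1
  linear_combination 3 * h5

end Pool.Agent.CUSP
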