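import Pool.Agent.CUSP.Targets2

/-!
# CUSP, target CON: continuation of a branch close to the identity
-/

set_option autoImplicit false

open Complex Filter Topology Set MeasureTheory
open Pool.Agent.Limb (F)
open Pool.Agent.PLim (Rho)
open Pool.Agent.MEY (Pt)
open Pool.Agent.PSat (Comp Sat)
open Pool.Agent.AEN (vm Hp Exn)

namespace Pool.Agent.CUSP

namespace CON_

/-- The square root in the bound of TCR. -/
theorem sqrt_aux (e A ρ : ℝ) (he : 0 ≤ e) (hA : 0 ≤ A) (hρ : 0 < ρ) :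
    6 * √(e * ρ * (A * ρ)) = 6 * √A * √e * ρ := by
  have h1 : e * ρ * (A * ρ) = A * e * ρ ^ 2 := by ring
  rw [h1, Real.sqrt_mul (mul_nonneg hA he), Real.sqrt_mul hA, Real.sqrt_sq hρ.le]
  ring

/-- The derivative of a function close to the identity. -/
theorem deriv_bd (g : ℂ → ℂ) (p : ℂ) (r m : ℝ) (hr : 0 < r) (U : Set ℂ) (hU : IsOpen U)
    (hd : DifferentiableOn ℂ g U) (hs : Metric.closedBall p r ⊆ U)
    (hb : ∀ x ∈ Metric.sphere p r, ‖g x - x‖ ≤ m) : ‖deriv g p‖ ≤ 1 + m / r := by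
  have hpU : p ∈ U := hs (Metric.mem_closedBall_self hr.le)
  have hgd : DifferentiableAt ℂ g p := (hd p hpU).differentiableAt (hU.mem_nhds hpU)
  have hf : DifferentiableOn ℂ (fun x => g x - x) U := hd.sub differentiableOn_id
  have hcl : DiffContOnCl ℂ (fun x => g x - x) (Metric.ball p r) :=
    hf.diffContOnCl_ball hs
  have h1 := Complex.norm_deriv_le_of_forall_mem_sphere_norm_le hr hcl hb
  have h2 : deriv (fun x => g x - x) p = deriv g p - 1 := by
    rw [deriv_fun_sub hgd differentiableAt_fun_id]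
    simp
  rw [h2] at h1
  have h3 : deriv g p = 1 + (deriv g p - 1) := by ring
  calc ‖deriv g p‖ = ‖1 + (deriv g p - 1)‖ := by rw [← h3]
    _ ≤ ‖(1 : ℂ)‖ + ‖deriv g p - 1‖ := norm_add_le _ _
    _ ≤ 1 + m / r := by simpa using h1

end CON_

open CON_ in
theorem p_CON (h₁ : T_LFT) (h₂ : T_LFU) (h₃ : T_CRV) (h₄ : T_KDI)
    (h₅ : Pool.Agent.AEN.T_TCR) : T_CON := by
  obtain ⟨C0, hC0, hK⟩ := h₄
  refine ⟨6 * √(C0 + 1), ?_, ?_⟩
  · have h1 : (1 : ℝ) ≤ √(C0 + 1) := by
      exact Real.one_le_sqrt.2 (by linarith)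
    linarith
  intro k c y y' ρ e g hρ he he1 hyy hcr hgd hgi hgb
  have hy' : y' ∈ Metric.ball y ρ := by
    rw [Metric.mem_ball, dist_eq_norm]
    linarith
  have hy0 : y' ∈ Metric.ball y' ρ := Metric.mem_ball_self hρ
  obtain ⟨g', hgd', hg0, hgi'⟩ := h₁ c k (Metric.ball y' ρ) (fun x => x) Metric.isOpen_ball
    (convex_ball _ _) differentiableOn_id (fun t ht j hj => hcr t ht j hj) y' hy0 (g y')
    (hgi y' hy')
  have heq : EqOn g g' (Metric.ball y ρ ∩ Metric.ball y' ρ) := by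
    refine h₂ c k (Metric.ball y ρ ∩ Metric.ball y' ρ) g g' y' ?_ ?_ ?_ ?_ ⟨hy', hy0⟩ hg0.symm
    · exact ((convex_ball _ _).inter (convex_ball _ _)).isPreconnected
    · exact hgd.continuousOn.mono inter_subset_left
    · exact hgd'.continuousOn.mono inter_subset_right
    · intro t ht
      refine ⟨by rw [hgi t ht.1, hgi' t ht.2], ?_⟩
      refine (h₃ c k (g t)).2 ?_
      intro j hj
      rw [hgi t ht.1]
      exact hcr t ht.2 j hj
  have hb : ∀ x : ℂ, ‖x - y'‖ ≤ ρ / 12 → ‖g' x - x‖ ≤ e * ρ := by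
    intro x hx
    have h1 : ‖x - y‖ ≤ ρ / 6 := by
      have h2 : x - y = (x - y') + (y' - y) := by ring
      rw [h2]
      refine (norm_add_le _ _).trans ?_
      linarith
    have h3 : x ∈ Metric.ball y ρ ∩ Metric.ball y' ρ := by
      constructor
      · rw [Metric.mem_ball, dist_eq_norm]
        linarith
      · rw [Metric.mem_ball, dist_eq_norm]
        linarith
    rw [← heq h3]
    exact hgb x h1
  have hder : ‖deriv g' y'‖ ≤ 1 + (e * ρ) / (ρ / 12) := by
    refine deriv_bd g' y' (ρ / 12) (e * ρ) (by linarith) (Metric.ball y' ρ) Metric.isOpen_ball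
      hgd' ?_ ?_
    · exact Metric.closedBall_subset_ball (by linarith)
    · intro x hx
      refine hb x ?_
      rw [Metric.mem_sphere, dist_eq_norm] at hx
      exact hx.le
  have hder' : ‖deriv g' y'‖ ≤ 28 / 25 := by
    have h1 : (e * ρ) / (ρ / 12) = 12 * e := by
      field_simp
    rw [h1] at hder
    linarith
  have hinj : InjOn g' (Metric.ball y' ρ) := by
    intro x hx x' hx' hxx
    rw [← hgi' x hx, ← hgi' x' hx', hxx]
  have hbig : ∀ x : ℂ, ‖x - y'‖ ≤ ρ / 2 → ‖g' x - x‖ ≤ (C0 + 1) * ρ := by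
    intro x hx
    have h1 := ((hK y' ρ g' hρ hgd' hinj).2.2 x hx).2.2.1
    have h2 : ‖g' y' - y'‖ ≤ e * ρ := hb y' (by simp; linarith)
    have h3 : g' x - x = (g' x - g' y') + (g' y' - y') + (y' - x) := by ring
    have h4 : ‖y' - x‖ ≤ ρ / 2 := by rw [norm_sub_rev]; exact hx
    have h5 : C0 * ‖deriv g' y'‖ * ‖x - y'‖ ≤ C0 * (28 / 25) * (ρ / 2) := by
      have h6 : C0 * ‖deriv g' y'‖ ≤ C0 * (28 / 25) :=
        mul_le_mul_of_nonneg_left hder' (by linarith)
      exact mul_le_mul h6 hx (norm_nonneg _) (by nlinarith)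
    have h7 : e * ρ ≤ 1 / 100 * ρ := mul_le_mul_of_nonneg_right he1 hρ.le
    have h8 : 0 ≤ (C0 - 1) * ρ := mul_nonneg (by linarith) hρ.le
    rw [h3]
    refine (norm_add₃_le).trans ?_
    nlinarith
  refine ⟨g', hgd', hgi', ?_⟩
  intro x hx
  have hT := h₅ y' (ρ / 2) ((C0 + 1) * ρ) (e * ρ) (fun x => g' x - x) (by linarith)
    (mul_nonneg (by linarith) hρ.le) (mul_nonneg he hρ.le)
    ((hgd'.mono (Metric.ball_subset_ball (by linarith))).sub differentiableOn_id)
    ?_ ?_ x (by linarith)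
  · rw [sqrt_aux e (C0 + 1) ρ he (by linarith) hρ] at hT
    exact hT
  · intro w hw
    rw [Metric.mem_ball, dist_eq_norm] at hw
    exact hbig w hw.le
  · intro w hw
    rw [Metric.mem_ball, dist_eq_norm] at hw
    exact hb w (by linarith)


end Pool.Agent.CUSP
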