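import Pool.Agent.CUSP.Targets2

/-!
# CUSP: COR (the branches of the inverses of the iterates on a disc)
-/

set_option autoImplicit false

open Complex Filter Topology Set MeasureTheory Metric
open Pool.Agent.Limb (F)

namespace Pool.Agent.CUSP

theorem p_COR (hLFT : T_LFT) (hLFU : T_LFU) (hCRV : T_CRV) (hSPR : T_SPR) (hHOM : T_HOM)
    (hHOD : T_HOD) (hXPR : T_XPR) : T_COR := by
  intro C k c z a L l G p ρ j τ hDat hl hG hρ hsub hfree hj hA
  have X := hXPR k c z a L hDat
  set D : Set ℂ := ball p ρ with hDdef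
  have hDo : IsOpen D := isOpen_ball
  have hDc : Convex ℝ D := convex_ball _ _
  have hcr : ∀ x ∈ D, ∀ i : ℕ, x ≠ (F 2 c)^[i] c := fun x hx i h => hfree x hx (h ▸ X.crv i)
  have hOM : ∀ s : ℂ, s.im = 0 → τ - s ∈ OM := by
    intro s hs
    left
    rw [Complex.sub_im, hs, sub_zero]
    exact hA.im
  have hOMn : ∀ (s : ℂ) (n : ℕ), s.im = 0 → τ - s - n ∈ OM := by
    intro s n hs
    left
    rw [Complex.sub_im, Complex.sub_im, hs, sub_zero, Complex.natCast_im, sub_zero]
    exact hA.im
  have hq : L j τ ∈ D := by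
    have := hA.pth 0 ⟨le_rfl, zero_le_one⟩
    rwa [Complex.ofReal_zero, sub_zero] at this
  have hτOM : τ ∈ OM := Or.inl hA.im
  -- the branches
  have hex : ∀ n : ℕ, ∃ g : ℂ → ℂ, DifferentiableOn ℂ g D ∧ g (L j τ) = L j (τ - n) ∧
      ∀ t ∈ D, (F 2 c)^[k * n] (g t) = t := by
    intro n
    refine hLFT c (k * n) D (fun t => t) hDo hDc differentiableOn_id
      (fun t ht i _ => hcr t ht i) (L j τ) hq (L j (τ - n)) ?_
    have h1 := X.itn j n (τ - n) (hOM n (by simp))
    rw [h1, sub_add_cancel]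
  choose g hgd hgq hgi using hex
  have hder : ∀ n, ∀ x ∈ D, deriv ((F 2 c)^[k * n]) (g n x) ≠ 0 := by
    intro n x hx
    refine (hCRV c (k * n) (g n x)).2 ?_
    intro i _
    rw [hgi n x hx]
    exact hcr x hx i
  -- along the path
  have hpath : ∀ n : ℕ, ∀ s ∈ Icc (0 : ℝ) 1, g n (L j (τ - s)) = L j (τ - s - n) := by
    intro n
    have hW : IsPreconnected ((fun s : ℝ => (τ - s : ℂ)) '' Icc (0 : ℝ) 1) := by
      refine isPreconnected_Icc.image _ ?_
      fun_prop
    have hcL : ContinuousOn (L j) OM := (hDat.ftc.dif j).continuousOn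
    have key := hLFU c (k * n) ((fun s : ℝ => (τ - s : ℂ)) '' Icc (0 : ℝ) 1)
      (fun t => g n (L j t)) (fun t => L j (t - n)) τ hW ?_ ?_ ?_ ?_ ?_
    · intro s hs
      exact key ⟨s, hs, rfl⟩
    · refine (hgd n).continuousOn.comp (hcL.mono ?_) ?_
      · rintro _ ⟨s, hs, rfl⟩
        exact hOM s (Complex.ofReal_im s)
      · rintro _ ⟨s, hs, rfl⟩
        exact hA.pth s hs
    · refine hcL.comp (by fun_prop) ?_
      rintro _ ⟨s, hs, rfl⟩
      exact hOMn s n (Complex.ofReal_im s)
    · rintro _ ⟨s, hs, rfl⟩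
      have h1 := hA.pth s hs
      refine ⟨?_, hder n _ h1⟩
      have h2 := X.itn j n (τ - s - n) (hOMn s n (Complex.ofReal_im s))
      simp only
      rw [hgi n _ h1, h2, sub_add_cancel]
    · exact ⟨0, ⟨le_rfl, zero_le_one⟩, by simp⟩
    · exact hgq n
  -- the step
  have hstep : ∀ n, g (n + 1) p = g n (G p) := by
    intro n
    have hseg : segment ℝ (L j τ) p ⊆ D :=
      hDc.segment_subset hq (mem_ball_self hρ)
    have hpre : IsPreconnected (segment ℝ (L j τ) p) := (convex_segment _ _).isPreconnected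
    have hball : ∀ x ∈ segment ℝ (L j τ) p, x ∈ ball (z l) (Rl k z L l) :=
      fun x hx => hsub (hseg hx)
    have key := hLFU c (k * (n + 1)) (segment ℝ (L j τ) p) (g (n + 1)) (fun x => g n (G x))
      (L j τ) hpre ((hgd (n + 1)).continuousOn.mono hseg)
      ((hgd n).continuousOn.comp (hG.dif.continuousOn.mono hball) (fun x hx => hA.seg x hx)) ?_
      (left_mem_segment ℝ _ _) ?_
    · exact key (right_mem_segment ℝ _ _)
    · intro x hx
      refine ⟨?_, hder (n + 1) x (hseg hx)⟩
      rw [hgi (n + 1) x (hseg hx)]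
      have h1 : k * (n + 1) = k + k * n := by ring
      rw [h1, Function.iterate_add_apply, hgi n (G x) (hA.seg x hx), hG.inv x (hball x hx)]
    · have h1 := hpath n 1 ⟨zero_le_one, le_rfl⟩
      rw [Complex.ofReal_one] at h1
      rw [hgq (n + 1), hA.sh, h1]
      congr 1
      push_cast
      ring
  -- the limit
  have hinj : ∀ n, InjOn (g n) D := by
    intro n x hx y hy hxy
    rw [← hgi n x hx, ← hgi n y hy, hxy]
  have hlim0 : Tendsto (fun n => g n (L j τ)) atTop (𝓝 (z j)) := by
    simp only [hgq]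
    exact hHOM k c z a L hDat.prb hDat.ftc j τ hA.im
  have hLd : deriv (L j) τ ≠ 0 := X.der j τ hτOM
  have hOMo : IsOpen OM := by
    have h1 : IsOpen {t : ℂ | t.im ≠ 0} := isOpen_ne.preimage Complex.continuous_im
    have h2 : IsOpen {t : ℂ | -1 < t.re} := isOpen_lt continuous_const Complex.continuous_re
    exact h1.union h2
  have hderg : ∀ n : ℕ, deriv (g n) (L j τ) * deriv (L j) τ = deriv (L j) (τ - n) := by
    intro n
    -- near τ
    have hLc : ContinuousAt (L j) τ := ((hDat.ftc.dif j).differentiableAt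
      (hOMo.mem_nhds hτOM)).continuousAt
    have h1 : ∀ᶠ t in 𝓝 τ, L j t ∈ D := hLc (hDo.mem_nhds hq)
    have h2 : ∀ᶠ t in 𝓝 τ, t.im ≠ 0 :=
      (isOpen_ne.preimage Complex.continuous_im).mem_nhds hA.im
    obtain ⟨ε, hε, hb⟩ := Metric.eventually_nhds_iff_ball.1 (h1.and h2)
    have hOMb : ∀ t ∈ ball τ ε, t - n ∈ OM := by
      intro t ht
      left
      rw [Complex.sub_im, Complex.natCast_im, sub_zero]
      exact (hb t ht).2
    have hcL : ContinuousOn (L j) OM := (hDat.ftc.dif j).continuousOn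
    have key : EqOn (fun t => g n (L j t)) (fun t => L j (t - n)) (ball τ ε) := by
      refine hLFU c (k * n) (ball τ ε) _ _ τ (convex_ball _ _).isPreconnected ?_ ?_ ?_
        (mem_ball_self hε) (hgq n)
      · exact (hgd n).continuousOn.comp (hcL.mono fun t ht => Or.inl (hb t ht).2)
          (fun t ht => (hb t ht).1)
      · exact hcL.comp (by fun_prop) hOMb
      · intro t ht
        have h3 := (hb t ht).1
        refine ⟨?_, hder n _ h3⟩
        have h4 := X.itn j n (t - n) (hOMb t ht)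
        rw [hgi n _ h3, h4, sub_add_cancel]
    have hev : (fun t => g n (L j t)) =ᶠ[𝓝 τ] (fun t => L j (t - n)) :=
      key.eventuallyEq_of_mem (ball_mem_nhds _ hε)
    have h5 := hev.deriv_eq
    have h6 : HasDerivAt (fun t => g n (L j t)) (deriv (g n) (L j τ) * deriv (L j) τ) τ := by
      have ha : HasDerivAt (g n) (deriv (g n) (L j τ)) (L j τ) :=
        ((hgd n).differentiableAt (hDo.mem_nhds hq)).hasDerivAt
      have hb' : HasDerivAt (L j) (deriv (L j) τ) τ :=
        ((hDat.ftc.dif j).differentiableAt (hOMo.mem_nhds hτOM)).hasDerivAt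
      exact ha.comp τ hb'
    have h7 : deriv (fun t => L j (t - n)) τ = deriv (L j) (τ - n) :=
      deriv_comp_sub_const _ _ _
    rw [h6.deriv, h7] at h5
    exact h5
  have hlim1 : Tendsto (fun n => deriv (g n) (L j τ)) atTop (𝓝 0) := by
    have h1 := hHOD k c z a L hDat.prb hDat.ftc j τ hA.im
    have h2 : (fun n : ℕ => deriv (g n) (L j τ)) =
        fun n : ℕ => deriv (L j) (τ - n) / deriv (L j) τ := by
      funext n
      rw [← hderg n, mul_div_cancel_right₀ _ hLd]
    rw [h2]
    have := h1.div_const (deriv (L j) τ)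
    rwa [zero_div] at this
  refine ⟨g, ?_, fun n => ⟨hgd n, hgi n⟩, hstep, ?_⟩
  · intro x hx
    have := hgi 0 x hx
    rwa [mul_zero, Function.iterate_zero, id] at this
  · intro x hx
    exact (hSPR D g (L j τ) (z j) hDo hDc.isPreconnected (fun n => ⟨hgd n, hinj n⟩) hq hlim0
      hlim1 x hx).1

end Pool.Agent.CUSP
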