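import Pool.Agent.CUSP.Targets

/-!
# CUSP, target CRV: critical points of the iterates
-/

set_option autoImplicit false

open Complex Filter Topology Set MeasureTheory
open Pool.Agent.Limb (F)
open Pool.Agent.PLim (Rho)
open Pool.Agent.MEY (Pt)
open Pool.Agent.PSat (Comp Sat)
open Pool.Agent.AEN (vm Hp Exn)

namespace Pool.Agent.CUSP

namespace CRV_

theorem hasDeriv (c : ℂ) (m : ℕ) (x : ℂ) :
    HasDerivAt ((F 2 c)^[m]) (∏ i ∈ Finset.range m, (2 * (F 2 c)^[i] x)) x := by
  induction m with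
  | zero => simpa using hasDerivAt_id x
  | succ m ih =>
    rw [Function.iterate_succ', Finset.prod_range_succ, mul_comm]
    have h1 : HasDerivAt (F 2 c) (2 * (F 2 c)^[m] x) ((F 2 c)^[m] x) := by
      have h2 : HasDerivAt (fun z : ℂ => z ^ 2 + c) (2 * (F 2 c)^[m] x) ((F 2 c)^[m] x) := by
        have h3 := (hasDerivAt_pow 2 ((F 2 c)^[m] x)).add_const c
        simpa using h3
      exact h2
    exact h1.comp x ih

end CRV_

open CRV_ in
theorem p_CRV : T_CRV := by
  intro c m x
  have h := (hasDeriv c m x).deriv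
  refine ⟨h, ?_⟩
  intro hne h0
  rw [h, Finset.prod_eq_zero_iff] at h0
  obtain ⟨i, hi, hi0⟩ := h0
  rw [Finset.mem_range] at hi
  have hi1 : (F 2 c)^[i] x = 0 := by
    rcases mul_eq_zero.1 hi0 with h2 | h2
    · exact absurd h2 two_ne_zero
    · exact h2
  have hi2 : (F 2 c)^[i + 1] x = c := by
    rw [Function.iterate_succ_apply', hi1]
    simp [F]
  refine hne (m - (i + 1)) (by omega) ?_
  have h3 : m = (m - (i + 1)) + (i + 1) := by omega
  calc (F 2 c)^[m] x = (F 2 c)^[(m - (i + 1)) + (i + 1)] x := by rw [← h3]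
    _ = (F 2 c)^[m - (i + 1)] ((F 2 c)^[i + 1] x) := Function.iterate_add_apply _ _ _ _
    _ = (F 2 c)^[m - (i + 1)] c := by rw [hi2]

end Pool.Agent.CUSP
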