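import Pool.Agent.CUSP.Targets2

/-!
# CUSP, CTN: the count
-/

set_option autoImplicit false

open Complex Filter Topology Set MeasureTheory
open Pool.Agent.Limb (F)
open Pool.Agent.PLim (Rho)
open Pool.Agent.MEY (Pt)
open Pool.Agent.PSat (Comp Sat)
open Pool.Agent.AEN (vm Hp Exn)

namespace Pool.Agent.CUSP

namespace CTN_

/-- the choice of the number of tips -/
theorem ex_n (A : ℝ) : ∃ n : ℕ, ((n : ℝ) + 6) * A + 49 < (2 : ℝ) ^ n := by
  obtain ⟨m, hm⟩ := exists_nat_ge A
  refine ⟨4 * m + 16, ?_⟩
  have h1 : (m : ℝ) + 1 ≤ (2 : ℝ) ^ m := by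
    have : m + 1 ≤ 2 ^ m := Nat.lt_two_pow_self
    exact_mod_cast this
  have h0 : (0 : ℝ) ≤ m := Nat.cast_nonneg m
  have h2 : ((m : ℝ) + 1) ^ 4 ≤ ((2 : ℝ) ^ m) ^ 4 := by gcongr
  have h3 : (2 : ℝ) ^ (4 * m + 16) = ((2 : ℝ) ^ m) ^ 4 * 65536 := by
    rw [pow_add, ← pow_mul, mul_comm 4 m]
    norm_num
  have h4 : ((4 * m + 16 : ℕ) : ℝ) = 4 * m + 16 := by push_cast; ring
  rw [h3, h4]
  have h5 : ((4 * (m : ℝ) + 16) + 6) * A ≤ ((4 * (m : ℝ) + 16) + 6) * m := by gcongr
  have h6 : ((m : ℝ) + 1) ^ 2 ≤ ((m : ℝ) + 1) ^ 4 := by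
    have : (1 : ℝ) ≤ ((m : ℝ) + 1) ^ 2 := by nlinarith
    calc ((m : ℝ) + 1) ^ 2 = ((m : ℝ) + 1) ^ 2 * 1 := by ring
      _ ≤ ((m : ℝ) + 1) ^ 2 * ((m : ℝ) + 1) ^ 2 := by gcongr
      _ = _ := by ring
  nlinarith

/-- the scale -/
theorem ex_i {s0 R : ℝ} (hR : 0 < R) (hs : R < s0) :
    ∃ i : ℕ, s0 / 2 ^ (i + 1) ≤ R ∧ R < s0 / 2 ^ i := by
  have hs0 : 0 < s0 := hR.trans hs
  have hex : ∃ i : ℕ, s0 / 2 ^ (i + 1) ≤ R := by
    obtain ⟨i, hi⟩ := exists_nat_gt (s0 / R)
    refine ⟨i, ?_⟩
    have h1 : (i : ℝ) ≤ 2 ^ (i + 1) := by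
      have : i ≤ 2 ^ (i + 1) := (Nat.lt_two_pow_self).le.trans (Nat.pow_le_pow_right (by norm_num)
        (Nat.le_succ i))
      exact_mod_cast this
    rw [div_le_iff₀ (by positivity)]
    rw [div_lt_iff₀ hR] at hi
    calc s0 ≤ i * R := hi.le
      _ ≤ 2 ^ (i + 1) * R := by gcongr
      _ = R * 2 ^ (i + 1) := by ring
  classical
  refine ⟨Nat.find hex, Nat.find_spec hex, ?_⟩
  rcases Nat.eq_zero_or_pos (Nat.find hex) with h | h
  · rw [h]; simpa using hs
  · have h2 := Nat.find_min hex (Nat.sub_lt h one_pos)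
    rw [not_le] at h2
    have h3 : Nat.find hex - 1 + 1 = Nat.find hex := by omega
    rwa [h3] at h2

end CTN_

open CTN_ in
theorem p_CTN (h₁ : T_PAK) (h₂ : T_NET) : T_CTN := by
  intro η hη hη1
  classical
  set A : ℝ := (1 + 12 / η) ^ 2 with hA
  have hA0 : 0 ≤ A := by positivity
  obtain ⟨n, hn⟩ := ex_n A
  refine ⟨2 ^ n, Nat.one_le_two_pow, ?_⟩
  intro k zz tt R hk hR hsep hf
  set J : ℕ := n + 6 with hJ
  set T : Finset ℂ := Finset.univ.image tt with hT
  have hTc : T.card ≤ k := by
    refine Finset.card_image_le.trans ?_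
    simp
  set s0 : ℝ := ∑ l, R l + 1 with hs0
  have hRs : ∀ l, R l < s0 := by
    intro l
    have : R l ≤ ∑ l, R l := Finset.single_le_sum (fun i _ => (hR i).le) (Finset.mem_univ l)
    linarith
  have hs0p : 0 < s0 := by
    have : 0 ≤ ∑ l, R l := Finset.sum_nonneg (fun i _ => (hR i).le)
    linarith
  obtain ⟨N, hN⟩ := h₂ T s0 hs0p
  choose il hi1 hi2 using fun l => ex_i (hR l) (hRs l)
  have hNmono : Monotone N := monotone_nat_of_le_succ (fun n => (hN n).1)
  have hzinj : ∀ l m, zz l = zz m → l = m := by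
    intro l m h
    by_contra hne
    have h3 := hsep l m hne
    rw [h, sub_self, norm_zero] at h3
    have := mul_pos hη (hR l)
    linarith
  -- the sets
  let E : Fin k → Finset ℂ := fun l =>
    ((N (il l + J)).filter (fun y => ‖y - zz l‖ ≤ 3 * R l)) \ N (il l)
  have hE : ∀ l, ((2 : ℝ) ^ n) - 49 ≤ (E l).card := by
    intro l
    set B : Finset ℂ := (N (il l + J)).filter (fun y => ‖y - zz l‖ ≤ 3 * R l) with hB
    set D : Finset ℂ := (N (il l)).filter (fun y => ‖y - zz l‖ ≤ 3 * R l) with hD
    have hBc : 2 ^ n ≤ B.card := by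
      obtain ⟨f, hf1, hf2⟩ := hf l
      have hmem : ∀ i, tt (f i) ∈ T := fun i => Finset.mem_image_of_mem _ (Finset.mem_univ _)
      choose y hy1 hy2 using fun i => (hN (il l + J)).2.2.2 (tt (f i)) (hmem i)
      have hsc : s0 / 2 ^ (il l + J) ≤ R l / (32 * (2 : ℝ) ^ n) := by
        have e : s0 / 2 ^ (il l + J) = (s0 / 2 ^ (il l + 1)) / (32 * (2 : ℝ) ^ n) := by
          rw [div_div]
          congr 1
          rw [hJ]
          rw [show il l + (n + 6) = il l + 1 + 5 + n by ring, pow_add, pow_add _ (il l + 1) 5]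
          norm_num
          ring
        rw [e]
        gcongr
        exact hi1 l
      have hinj : Function.Injective y := by
        intro i i' h
        by_contra hne
        have h3 := hf2 i i' hne
        have h4 : ‖tt (f i) - tt (f i')‖ < R l / (32 * (2 : ℝ) ^ n) + R l / (32 * (2 : ℝ) ^ n) := by
          have e : tt (f i) - tt (f i') = (tt (f i) - y i) - (tt (f i') - y i') := by
            rw [h]; ring
          rw [e]
          refine (norm_sub_le _ _).trans_lt ?_
          have := hy2 i
          have := hy2 i'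
          linarith
        have h5 : R l / (32 * (2 : ℝ) ^ n) + R l / (32 * (2 : ℝ) ^ n) = R l / (16 * 2 ^ n) := by
          field_simp
          ring
        rw [h5] at h4
        push_cast at h3
        linarith
      have himg : Finset.univ.image y ⊆ B := by
        intro x hx
        rw [Finset.mem_image] at hx
        obtain ⟨i, -, rfl⟩ := hx
        rw [hB, Finset.mem_filter]
        refine ⟨hy1 i, ?_⟩
        have e : y i - zz l = (tt (f i) - zz l) - (tt (f i) - y i) := by ring
        rw [e]
        refine (norm_sub_le _ _).trans ?_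
        have h3 := hf1 i
        have h4 := hy2 i
        have h5 : R l / (32 * (2 : ℝ) ^ n) ≤ R l := by
          rw [div_le_iff₀ (by positivity)]
          have : (1 : ℝ) ≤ (2 : ℝ) ^ n := one_le_pow₀ (by norm_num)
          nlinarith [hR l]
        linarith
      have h6 := Finset.card_le_card himg
      rw [Finset.card_image_of_injective _ hinj] at h6
      simpa using h6
    have hDc : (D.card : ℝ) ≤ 49 := by
      have hsp : 0 < s0 / 2 ^ (il l) := by positivity
      have h3 := h₁ (zz l) (3 * R l) (s0 / 2 ^ (il l)) D hsp (by have := hR l; positivity)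
        (fun y hy => (Finset.mem_filter.mp hy).2)
        (fun y hy y' hy' hne => (hN (il l)).2.2.1 y (Finset.mem_filter.mp hy).1 y'
          (Finset.mem_filter.mp hy').1 hne)
      refine h3.trans ?_
      have h4 : 2 * (3 * R l) / (s0 / 2 ^ (il l)) ≤ 6 := by
        rw [div_le_iff₀ hsp]
        have := hi2 l
        linarith
      have h5 : 0 ≤ 2 * (3 * R l) / (s0 / 2 ^ (il l)) := by
        have := hR l
        positivity
      nlinarith
    have hsub : B ⊆ E l ∪ D := by
      intro y hy
      rw [Finset.mem_union]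
      by_cases h : y ∈ N (il l)
      · right
        rw [hD, Finset.mem_filter]
        exact ⟨h, (Finset.mem_filter.mp hy).2⟩
      · left
        show y ∈ B \ N (il l)
        rw [Finset.mem_sdiff]
        exact ⟨hy, h⟩
    have h7 := (Finset.card_le_card hsub).trans (Finset.card_union_le _ _)
    have h8 : ((2 ^ n : ℕ) : ℝ) ≤ (E l).card + D.card := by
      have := hBc.trans h7
      exact_mod_cast this
    push_cast at h8
    linarith
  have hET : ∀ l, E l ⊆ T := by
    intro l y hy
    have h3 := (Finset.mem_sdiff.mp hy).1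
    exact (hN _).2.1 (Finset.mem_filter.mp h3).1
  -- the number of indices for a fixed point
  have hL : ∀ y ∈ T, (((Finset.univ : Finset (Fin k)).filter (fun l => y ∈ E l)).card : ℝ) ≤
      J * A := by
    intro y hy
    set L : Finset (Fin k) := Finset.univ.filter (fun l => y ∈ E l) with hLdef
    by_cases hemp : ∃ m, y ∈ N m
    · set b := Nat.find hemp with hb
      have hb1 : ∀ l ∈ L, il l < b ∧ b ≤ il l + J := by
        intro l hl
        have h3 := (Finset.mem_filter.mp hl).2
        have h4 := Finset.mem_sdiff.mp h3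
        have h5 := (Finset.mem_filter.mp h4.1).1
        refine ⟨?_, Nat.find_min' hemp h5⟩
        by_contra hcon
        rw [not_lt] at hcon
        exact h4.2 (hNmono hcon (Nat.find_spec hemp))
      have hmaps : ∀ l ∈ L, il l ∈ Finset.Ico (b - J) b := by
        intro l hl
        have h3 := hb1 l hl
        rw [Finset.mem_Ico]
        omega
      have hfib : ∀ i ∈ Finset.Ico (b - J) b, ((L.filter (fun l => il l = i)).card : ℝ) ≤ A := by
        intro i _
        set M := L.filter (fun l => il l = i) with hM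
        have hcard : (M.image zz).card = M.card :=
          Finset.card_image_of_injOn (fun l _ m _ h => hzinj l m h)
        have hsp : 0 < η * (s0 / 2 ^ (i + 1)) := by positivity
        have hrp : 0 ≤ 3 * (s0 / 2 ^ i) := by positivity
        have h3 := h₁ y (3 * (s0 / 2 ^ i)) (η * (s0 / 2 ^ (i + 1))) (M.image zz) hsp hrp ?_ ?_
        · rw [hcard] at h3
          refine h3.trans (le_of_eq ?_)
          rw [hA]
          congr 2
          rw [pow_succ]
          field_simp
          norm_num
        · intro x hx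
          rw [Finset.mem_image] at hx
          obtain ⟨l, hl, rfl⟩ := hx
          have h4 := Finset.mem_filter.mp hl
          have h5 := (Finset.mem_filter.mp h4.1).2
          have h6 := (Finset.mem_filter.mp (Finset.mem_sdiff.mp h5).1).2
          rw [norm_sub_rev]
          have h7 := hi2 l
          rw [h4.2] at h7
          linarith
        · intro x hx x' hx' hne
          rw [Finset.mem_image] at hx hx'
          obtain ⟨l, hl, rfl⟩ := hx
          obtain ⟨m, hm, rfl⟩ := hx'
          have hlm : l ≠ m := fun h => hne (by rw [h])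
          refine le_trans ?_ (hsep l m hlm)
          have h4 := (Finset.mem_filter.mp hl).2
          have h5 := hi1 l
          rw [h4] at h5
          gcongr
      have h6 := Finset.card_eq_sum_card_fiberwise hmaps
      have h7 : (L.card : ℝ) = ∑ i ∈ Finset.Ico (b - J) b,
          ((L.filter (fun l => il l = i)).card : ℝ) := by
        rw [h6]; push_cast; rfl
      rw [h7]
      refine (Finset.sum_le_sum hfib).trans ?_
      rw [Finset.sum_const, nsmul_eq_mul]
      have h8 : ((Finset.Ico (b - J) b).card : ℝ) ≤ J := by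
        have : (Finset.Ico (b - J) b).card ≤ J := by rw [Nat.card_Ico]; omega
        exact_mod_cast this
      gcongr
    · have hLe : L = ∅ := by
        rw [Finset.eq_empty_iff_forall_notMem]
        intro l hl
        have h3 := (Finset.mem_filter.mp hl).2
        exact hemp ⟨_, (Finset.mem_filter.mp (Finset.mem_sdiff.mp h3).1).1⟩
      rw [hLe]
      simp only [Finset.card_empty, Nat.cast_zero]
      positivity
  -- double counting
  have hdc : ∑ l : Fin k, (E l).card = ∑ y ∈ T, (Finset.univ.filter (fun l => y ∈ E l)).card := by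
    have h3 := Finset.sum_card_bipartiteAbove_eq_sum_card_bipartiteBelow
      (s := (Finset.univ : Finset (Fin k))) (t := T) (fun l y => y ∈ E l)
    have h4 : ∀ l, Finset.bipartiteAbove (fun l y => y ∈ E l) T l = E l := by
      intro l
      ext y
      rw [Finset.mem_bipartiteAbove]
      exact ⟨fun h => h.2, fun h => ⟨hET l h, h⟩⟩
    simp only [h4] at h3
    exact h3
  have hlow : (k : ℝ) * ((2 : ℝ) ^ n - 49) ≤ ∑ l : Fin k, ((E l).card : ℝ) := by
    have h3 : ∑ _l : Fin k, ((2 : ℝ) ^ n - 49) ≤ ∑ l : Fin k, ((E l).card : ℝ) :=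
      Finset.sum_le_sum (fun l _ => hE l)
    rw [Finset.sum_const, nsmul_eq_mul, Finset.card_univ, Fintype.card_fin] at h3
    exact h3
  have hup : ∑ y ∈ T, ((Finset.univ.filter (fun l => y ∈ E l)).card : ℝ) ≤ k * (J * A) := by
    refine (Finset.sum_le_sum hL).trans ?_
    rw [Finset.sum_const, nsmul_eq_mul]
    have : (T.card : ℝ) ≤ k := by exact_mod_cast hTc
    gcongr
  have hdc' : ∑ l : Fin k, ((E l).card : ℝ) =
      ∑ y ∈ T, ((Finset.univ.filter (fun l => y ∈ E l)).card : ℝ) := by
    exact_mod_cast hdc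
  rw [hdc'] at hlow
  have hk1 : (1 : ℝ) ≤ k := by exact_mod_cast hk
  have hfin : (k : ℝ) * ((2 : ℝ) ^ n - 49) ≤ k * (J * A) := hlow.trans hup
  have hfin2 : (2 : ℝ) ^ n - 49 ≤ J * A := le_of_mul_le_mul_left hfin (by linarith)
  rw [hJ] at hfin2
  push_cast at hfin2
  linarith

end Pool.Agent.CUSP
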