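import Pool.Agent.CUSP.Targets

/-!
# CUSP: proof of the target ESC (bounded orbits)
-/

set_option autoImplicit false

open Complex Filter Topology Set MeasureTheory
open Pool.Agent.Limb (F)
open Pool.Agent.PLim (Rho)
open Pool.Agent.MEY (Pt)
open Pool.Agent.PSat (Comp Sat)
open Pool.Agent.AEN (vm Hp Exn)

namespace Pool.Agent.CUSP

namespace ESC_

/-- One step of the iteration outside the disc of radius `max 2 ‖c‖`. -/
lemma step (c x y : ℂ) (hc : ‖c‖ ≤ ‖x‖) (hxy : ‖x‖ ≤ ‖y‖) :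
    ‖y‖ * (‖x‖ - 1) ≤ ‖F 2 c y‖ := by
  unfold F
  have h1 : ‖y ^ 2‖ - ‖c‖ ≤ ‖y ^ 2 + c‖ := by
    have h2 : ‖y ^ 2‖ ≤ ‖y ^ 2 + c‖ + ‖c‖ := by
      have h3 : y ^ 2 = (y ^ 2 + c) - c := by ring
      calc ‖y ^ 2‖ = ‖(y ^ 2 + c) - c‖ := by rw [← h3]
        _ ≤ ‖y ^ 2 + c‖ + ‖c‖ := norm_sub_le _ _
    linarith
  rw [norm_pow] at h1
  nlinarith [norm_nonneg y, norm_nonneg x]

lemma grow (c x : ℂ) (hc : ‖c‖ ≤ ‖x‖) (hx : 2 < ‖x‖) (n : ℕ) :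
    ‖x‖ * (‖x‖ - 1) ^ n ≤ ‖(F 2 c)^[n] x‖ := by
  induction n with
  | zero => simp
  | succ n ih =>
    rw [Function.iterate_succ_apply']
    have h1 : (1 : ℝ) ≤ (‖x‖ - 1) ^ n := one_le_pow₀ (by linarith)
    have h2 : ‖x‖ ≤ ‖(F 2 c)^[n] x‖ := by
      nlinarith [norm_nonneg x]
    have h3 := step c x _ hc h2
    calc ‖x‖ * (‖x‖ - 1) ^ (n + 1) = ‖x‖ * (‖x‖ - 1) ^ n * (‖x‖ - 1) := by ring
      _ ≤ ‖(F 2 c)^[n] x‖ * (‖x‖ - 1) := mul_le_mul_of_nonneg_right ih (by linarith)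
      _ ≤ _ := h3

lemma main (c x : ℂ) (B : ℝ) (hB : ∀ n : ℕ, ‖(F 2 c)^[n] x‖ ≤ B) (hc : ‖c‖ ≤ ‖x‖) :
    ‖x‖ ≤ 2 := by
  by_contra hx
  rw [not_le] at hx
  have h1 : Tendsto (fun n : ℕ => (‖x‖ - 1) ^ n) atTop atTop :=
    tendsto_pow_atTop_atTop_of_one_lt (by linarith)
  obtain ⟨n, hn⟩ := (h1.eventually_gt_atTop B).exists
  have h2 := grow c x hc hx n
  have h3 := hB n
  have h4 : (0 : ℝ) ≤ (‖x‖ - 1) ^ n := pow_nonneg (by linarith) n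
  nlinarith

end ESC_

theorem p_ESC : T_ESC := by
  intro c x B hB
  refine ⟨?_, ?_⟩
  · by_contra h
    rw [not_le, max_lt_iff] at h
    have h1 := ESC_.main c x B hB h.2.le
    linarith [h.1]
  · intro hxc
    subst hxc
    exact ESC_.main x x B hB le_rfl

end Pool.Agent.CUSP
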