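import Pool.Agent.CUSP.Targets

set_option autoImplicit false

open Complex Filter Topology Set MeasureTheory
open Pool.Agent.Limb (F)
open Pool.Agent.PLim (Rho)
open Pool.Agent.MEY (Pt)
open Pool.Agent.PSat (Comp Sat)
open Pool.Agent.AEN (vm Hp Exn)

namespace Pool.Agent.CUSP

namespace EXN_

/-- points which reach `W` after `n` steps -/
def Wn (W Wi : Set ℂ) (n : ℕ) : Set ℂ := {t : ℂ | t ∈ Wi ∧ t + n ∈ W}

theorem cont_it (c : ℂ) (m : ℕ) : Continuous ((F 2 c)^[m]) := by
  apply Continuous.iterate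
  unfold F
  fun_prop

theorem add_nat {W : Set ℂ} (h : ∀ t ∈ W, t + 1 ∈ W) (n : ℕ) : ∀ t ∈ W, t + (n : ℂ) ∈ W := by
  induction n with
  | zero => intro t ht; simpa using ht
  | succ n ih =>
    intro t ht
    have := h _ (ih t ht)
    push_cast
    rwa [← add_assoc]

theorem Wn_open {W Wi : Set ℂ} (hW : IsOpen W) (hWi : IsOpen Wi) (n : ℕ) :
    IsOpen (Wn W Wi n) :=
  hWi.inter (hW.preimage (by fun_prop : Continuous fun t : ℂ => t + (n : ℂ)))

theorem Wn_convex {W Wi : Set ℂ} (hW : Convex ℝ W) (hWi : Convex ℝ Wi) (n : ℕ) :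
    Convex ℝ (Wn W Wi n) := by
  refine hWi.inter ?_
  exact hW.translate_preimage_left (n : ℂ)

end EXN_

open EXN_ in
theorem p_EXN (h₁ : T_LFT) (h₂ : T_LFU) (h₃ : T_CRV) : T_EXN := by
  intro k c W Wi lam hk hWo hWc hWne hW1 hWio hWic hWWi hWi1 hreach hlam heq hav _
  obtain ⟨t0, ht0⟩ := hWne
  have hWn := add_nat hW1
  have hWin := add_nat hWi1
  have hsub : ∀ n, W ⊆ Wn W Wi n := fun n t ht => ⟨hWWi ht, hWn n t ht⟩
  -- iterates on `W`
  have hit : ∀ n : ℕ, ∀ t ∈ W, (F 2 c)^[k * n] (lam t) = lam (t + n) := by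
    intro n
    induction n with
    | zero => intro t _; simp
    | succ n ih =>
      intro t ht
      rw [Nat.mul_succ, Nat.add_comm, Function.iterate_add_apply, ih t ht, heq _ (hWn n t ht)]
      push_cast
      rw [add_assoc]
  -- avoidance
  have havoid : ∀ n : ℕ, ∀ t ∈ Wn W Wi n, ∀ i < k * n, lam (t + n) ≠ (F 2 c)^[i] c := by
    intro n t ht i hi
    have hj : i % k < k := Nat.mod_lt _ hk
    have hr : i / k < n := Nat.div_lt_of_lt_mul hi
    have hi' : k * (i / k) + i % k = i := Nat.div_add_mod i k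
    set r := i / k
    obtain ⟨m, hm⟩ : ∃ m, n = m + 1 + r := ⟨n - 1 - r, by omega⟩
    have e : t + (m : ℂ) + 1 + (r : ℂ) = t + (n : ℂ) := by
      rw [hm]; push_cast; ring
    have := hav (t + m) (hWin m t ht.1) r (by rw [e]; exact ht.2) (i % k) hj
    rw [e, ← Function.iterate_add_apply, hi'] at this
    exact this.symm
  -- lifts
  have hlift : ∀ n : ℕ, ∃ g : ℂ → ℂ, DifferentiableOn ℂ g (Wn W Wi n) ∧ g t0 = lam t0 ∧
      ∀ t ∈ Wn W Wi n, (F 2 c)^[k * n] (g t) = lam (t + n) := by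
    intro n
    refine h₁ c (k * n) (Wn W Wi n) (fun t => lam (t + n)) (Wn_open hWo hWio n)
      (Wn_convex hWc hWic n) ?_ (fun t ht j hj => havoid n t ht j hj) t0 (hsub n ht0) (lam t0)
      (hit n t0 ht0)
    exact hlam.comp (by fun_prop) (fun t ht => ht.2)
  choose g hgd hg0 hg using hlift
  have hder : ∀ (n : ℕ) (x : ℂ) (t : ℂ), t ∈ Wn W Wi n → (F 2 c)^[k * n] x = lam (t + n) →
      deriv ((F 2 c)^[k * n]) x ≠ 0 := by
    intro n x t ht hx
    refine (h₃ c (k * n) x).2 fun j hj => ?_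
    rw [hx]
    exact havoid n t ht j hj
  have hpre : ∀ n, IsPreconnected (Wn W Wi n) := fun n => (Wn_convex hWc hWic n).isPreconnected
  have hgW : ∀ n, EqOn (g n) lam W := by
    intro n
    refine h₂ c (k * n) W (g n) lam t0 hWc.isPreconnected
      ((hgd n).continuousOn.mono (hsub n)) hlam.continuousOn ?_ ht0 (hg0 n)
    intro t ht
    refine ⟨?_, hder n _ t (hsub n ht) (hg n t (hsub n ht))⟩
    rw [hg n t (hsub n ht), hit n t ht]
  have hWnn : ∀ n, Wn W Wi n ⊆ Wn W Wi (n + 1) := by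
    intro n t ht
    refine ⟨ht.1, ?_⟩
    have := hW1 _ ht.2
    push_cast
    rwa [← add_assoc]
  have hgs : ∀ n, EqOn (g n) (g (n + 1)) (Wn W Wi n) := by
    intro n
    have e : ∀ t ∈ Wn W Wi n, (F 2 c)^[k * (n + 1)] (g n t) = lam (t + (n + 1 : ℕ)) := by
      intro t ht
      rw [Nat.mul_succ, Nat.add_comm, Function.iterate_add_apply, hg n t ht, heq _ ht.2]
      push_cast
      rw [add_assoc]
    refine h₂ c (k * (n + 1)) (Wn W Wi n) (g n) (g (n + 1)) t0 (hpre n)
      (hgd n).continuousOn ((hgd (n + 1)).continuousOn.mono (hWnn n)) ?_ (hsub n ht0)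
      ((hg0 n).trans (hg0 (n + 1)).symm)
    intro t ht
    refine ⟨?_, hder (n + 1) _ t (hWnn n ht) (e t ht)⟩
    rw [e t ht, hg (n + 1) t (hWnn n ht)]
  have hWmono : ∀ n d, Wn W Wi n ⊆ Wn W Wi (n + d) := by
    intro n d
    induction d with
    | zero => exact fun _ h => h
    | succ d ih => exact fun t ht => hWnn (n + d) (ih ht)
  have hgle : ∀ n d, EqOn (g n) (g (n + d)) (Wn W Wi n) := by
    intro n d
    induction d with
    | zero => exact fun _ _ => rfl
    | succ d ih => exact fun t ht => (ih ht).trans (hgs (n + d) (hWmono n d ht))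
  classical
  set mu : ℂ → ℂ := fun t => if h : ∃ n : ℕ, t + (n : ℂ) ∈ W then g (Nat.find h) t else 0
    with hmu
  have hmug : ∀ n, ∀ t ∈ Wn W Wi n, mu t = g n t := by
    intro n t ht
    have h : ∃ n : ℕ, t + (n : ℂ) ∈ W := ⟨n, ht.2⟩
    have h1 : Nat.find h ≤ n := Nat.find_min' h ht.2
    have h2 : t + ((Nat.find h : ℕ) : ℂ) ∈ W := Nat.find_spec h
    have h3 : mu t = g (Nat.find h) t := by rw [hmu]; simp only [dif_pos h]
    obtain ⟨d, hd⟩ := Nat.exists_eq_add_of_le h1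
    rw [h3, hd]
    exact hgle (Nat.find h) d ⟨ht.1, h2⟩
  refine ⟨mu, ?_, ?_, ?_⟩
  · intro t ht
    obtain ⟨n, hn⟩ := hreach t ht
    have htn : t ∈ Wn W Wi n := ⟨ht, hn⟩
    have hnhds : Wn W Wi n ∈ 𝓝 t := (Wn_open hWo hWio n).mem_nhds htn
    have hd : DifferentiableAt ℂ (g n) t := (hgd n).differentiableAt hnhds
    refine (hd.congr_of_eventuallyEq ?_).differentiableWithinAt
    filter_upwards [hnhds] with s hs
    exact hmug n s hs
  · intro t ht
    rw [hmug 0 t (hsub 0 ht)]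
    exact hgW 0 ht
  · intro t ht
    obtain ⟨n, hn⟩ := hreach t ht
    have ht1 : t ∈ Wn W Wi (n + 1) := hWnn n ⟨ht, hn⟩
    have hshift : ∀ s ∈ Wn W Wi (n + 1), s + 1 ∈ Wn W Wi n := by
      intro s hs
      refine ⟨hWi1 s hs.1, ?_⟩
      have := hs.2
      push_cast at this
      have e : s + 1 + (n : ℂ) = s + ((n : ℂ) + 1) := by ring
      rw [e]; exact this
    rw [hmug (n + 1) t ht1, hmug n (t + 1) (hshift t ht1)]
    have key : EqOn (fun s => (F 2 c)^[k] (g (n + 1) s)) (fun s => g n (s + 1))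
        (Wn W Wi (n + 1)) := by
      have e1 : ∀ s ∈ Wn W Wi (n + 1), (F 2 c)^[k * n] ((F 2 c)^[k] (g (n + 1) s))
          = lam (s + 1 + n) := by
        intro s hs
        rw [← Function.iterate_add_apply]
        have : k * n + k = k * (n + 1) := by ring
        rw [this, hg (n + 1) s hs]
        congr 1
        push_cast
        ring
      refine h₂ c (k * n) (Wn W Wi (n + 1)) _ _ t0 (hpre (n + 1)) ?_ ?_ ?_ (hsub (n + 1) ht0) ?_
      · exact (cont_it c k).comp_continuousOn (hgd (n + 1)).continuousOn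
      · exact (hgd n).continuousOn.comp (by fun_prop) hshift
      · intro s hs
        refine ⟨?_, hder n _ (s + 1) (hshift s hs) (e1 s hs)⟩
        rw [e1 s hs, hg n (s + 1) (hshift s hs)]
      · show (F 2 c)^[k] (g (n + 1) t0) = g n (t0 + 1)
        rw [hg0 (n + 1), heq t0 ht0, hgW n (hW1 t0 ht0)]
    exact key ht1

end Pool.Agent.CUSP
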