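import Pool.Agent.CUSP.Targets3

/-!
# CUSP: FEQ, the functional equation of the Cauchy transform
-/

set_option autoImplicit false

open Complex Filter Topology Set MeasureTheory
open Pool.Agent.Limb (F)
open Pool.Agent.PLim (Rho)
open Pool.Agent.MEY (Pt)
open Pool.Agent.PSat (Comp Sat)
open Pool.Agent.AEN (vm Hp Exn)

namespace Pool.Agent.CUSP

namespace FEQ_

theorem F_eq (c x : ℂ) : F 2 c x = x ^ 2 + c := rfl

theorem F_diff (c : ℂ) : Differentiable ℂ (F 2 c) := by
  have : F 2 c = fun x => x ^ 2 + c := rfl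
  rw [this]
  fun_prop

theorem F_deriv (c x : ℂ) : deriv (F 2 c) x = 2 * x := by
  have h : HasDerivAt (F 2 c) ((2 : ℕ) * x ^ (2 - 1)) x := (hasDerivAt_pow 2 x).add_const c
  rw [h.deriv]
  simp

theorem it_diff (c : ℂ) (n : ℕ) : Differentiable ℂ ((F 2 c)^[n]) := (F_diff c).iterate n

theorem A_eq {c : ℂ} {z a : ℕ → ℂ} {A : ℂ → ℂ} (hA : Acf c z a A) {y s : ℂ}
    (hy : y ∈ GO c z) (hs : F 2 c s = y) : A s = A y * (2 * s) := by
  obtain ⟨n, l, h⟩ := hy
  have h1 := hA y n l h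
  have h2 := hA s (n + 1) l (by rw [Function.iterate_succ_apply, hs, h])
  have h3 : deriv ((F 2 c)^[n + 1]) s = deriv ((F 2 c)^[n]) y * (2 * s) := by
    rw [Function.iterate_succ, deriv_comp s (it_diff c n _) (F_diff c s), hs, F_deriv]
  rw [h2, h3, h1]
  ring

/-- a square root of `y - c` -/
noncomputable def sq (c y : ℂ) : ℂ := Classical.choose (IsAlgClosed.exists_pow_nat_eq (y - c)
  (n := 2) (by norm_num))

theorem sq_spec (c y : ℂ) : sq c y ^ 2 = y - c :=
  Classical.choose_spec (IsAlgClosed.exists_pow_nat_eq (y - c) (n := 2) (by norm_num))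

theorem F_sq (c y : ℂ) : F 2 c (sq c y) = y := by
  rw [F_eq, sq_spec, sub_add_cancel]

theorem F_sq' (c y : ℂ) : F 2 c (-sq c y) = y := by
  rw [F_eq, neg_sq, sq_spec, sub_add_cancel]

theorem sq_ne {c y : ℂ} (h : y ≠ c) : sq c y ≠ 0 := by
  intro h0
  have := sq_spec c y
  rw [h0] at this
  apply h
  have h1 : (0 : ℂ) = y - c := by simpa using this
  exact (sub_eq_zero.1 h1.symm)

end FEQ_

open FEQ_

theorem p_FEQ (h₁ : T_GOP) : T_FEQ := by
  intro k c z a L A hD hA hS d u hu hd hdu hdf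
  obtain ⟨hG1, hG2, -, -⟩ := h₁ k c z a L hD
  set G : Set ℂ := GO c z with hG
  -- the bijection
  let e0 : G × Bool → G := fun x =>
    ⟨cond x.2 (sq c x.1) (-sq c x.1), by
      rw [hG2]
      cases x.2
      · show F 2 c (-sq c x.1) ∈ G
        rw [F_sq']; exact x.1.2
      · show F 2 c (sq c x.1) ∈ G
        rw [F_sq]; exact x.1.2⟩
  have hFe : ∀ x : G × Bool, F 2 c (e0 x) = x.1 := by
    rintro ⟨y, b⟩
    cases b
    · exact F_sq' c y
    · exact F_sq c y
  have hbij : Function.Bijective e0 := by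
    constructor
    · rintro ⟨y, b⟩ ⟨y', b'⟩ h
      have h1 : y = y' := by
        have h2 := hFe (y, b)
        have h3 := hFe (y', b')
        rw [h] at h2
        exact Subtype.ext (h2.symm.trans h3)
      subst h1
      have hne : sq c y ≠ 0 := sq_ne (hG1 y y.2).2.2.1
      have h4 : (e0 (y, b) : ℂ) = e0 (y, b') := by rw [h]
      cases b <;> cases b'
      · rfl
      · exfalso
        have h5 : -sq c y = sq c y := h4
        exact hne (self_eq_neg.1 h5.symm)
      · exfalso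
        have h5 : sq c y = -sq c y := h4
        exact hne (self_eq_neg.1 h5)
      · rfl
    · rintro ⟨p, hp⟩
      have hy : F 2 c p ∈ G := (hG2 p).1 hp
      have h1 : (p - sq c (F 2 c p)) * (p + sq c (F 2 c p)) = 0 := by
        have := sq_spec c (F 2 c p)
        rw [F_eq] at this ⊢
        linear_combination -this
      rcases mul_eq_zero.1 h1 with h | h
      · refine ⟨(⟨F 2 c p, hy⟩, true), Subtype.ext ?_⟩
        exact (sub_eq_zero.1 h).symm
      · refine ⟨(⟨F 2 c p, hy⟩, false), Subtype.ext ?_⟩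
        exact (eq_neg_of_add_eq_zero_left h).symm
  let e : G × Bool ≃ G := Equiv.ofBijective e0 hbij
  -- summability
  have hs1 : Summable fun y : G => ((A y) ^ 2)⁻¹ := by
    apply Summable.of_norm
    refine hS.congr fun y => ?_
    rw [norm_inv, norm_pow]
  have hs2 : Summable fun y : G => ((A y) ^ 2)⁻¹ * (u - y)⁻¹ := by
    apply Summable.of_norm_bounded (g := fun y : G => (‖A y‖ ^ 2)⁻¹ * d⁻¹) (hS.mul_right _)
    intro y
    rw [norm_mul, norm_inv, norm_pow, norm_inv]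
    apply mul_le_mul_of_nonneg_left _ (by positivity)
    exact inv_anti₀ hd (hdu y y.2)
  let g : G → ℂ := fun p => 2 * u * (((A p) ^ 2)⁻¹ * (u - p)⁻¹) - 2 * ((A p) ^ 2)⁻¹
  have hsg : Summable g := (hs2.mul_left _).sub (hs1.mul_left _)
  have hsum : ∑' p : G, g p = 2 * u * RR c z A u - 2 * S0 c z A := by
    rw [Summable.tsum_sub (hs2.mul_left _) (hs1.mul_left _), tsum_mul_left, tsum_mul_left]
    rfl
  have hse : Summable fun x : G × Bool => g (e x) := e.summable_iff.2 hsg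
  rw [← hsum, ← e.tsum_eq g, Summable.tsum_prod hse]
  unfold RR
  apply tsum_congr
  intro y
  rw [tsum_bool]
  have hne : sq c y ≠ 0 := sq_ne (hG1 y y.2).2.2.1
  have hm1 : sq c y ∈ G := (hG2 _).2 (by rw [F_sq]; exact y.2)
  have hm2 : -sq c y ∈ G := (hG2 _).2 (by rw [F_sq']; exact y.2)
  have hA1 := A_eq hA y.2 (F_sq c y)
  have hA2 := A_eq hA y.2 (F_sq' c y)
  have hu1 : u - sq c y ≠ 0 := by
    intro h
    have := hdu _ hm1
    rw [h, norm_zero] at this
    linarith
  have hu2 : u + sq c y ≠ 0 := by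
    intro h
    have := hdu _ hm2
    rw [sub_neg_eq_add, h, norm_zero] at this
    linarith
  have hfu : F 2 c u - y = (u - sq c y) * (u + sq c y) := by
    rw [F_eq]
    linear_combination sq_spec c y
  have hg1 : g (e (y, true)) = 2 * u * (((A (sq c y)) ^ 2)⁻¹ * (u - sq c y)⁻¹) -
    2 * ((A (sq c y)) ^ 2)⁻¹ := rfl
  have hg2 : g (e (y, false)) = 2 * u * (((A (-sq c y)) ^ 2)⁻¹ * (u - -sq c y)⁻¹) -
    2 * ((A (-sq c y)) ^ 2)⁻¹ := rfl
  rw [hg1, hg2, hA1, hA2, hfu, sub_neg_eq_add]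
  have h1 : (A y * (2 * sq c y)) ^ 2 = (A y) ^ 2 * (4 * sq c y ^ 2) := by ring
  have h2 : (A y * (2 * -sq c y)) ^ 2 = (A y) ^ 2 * (4 * sq c y ^ 2) := by ring
  rw [h1, h2, mul_inv ((A y : ℂ) ^ 2)]
  generalize ((A y : ℂ) ^ 2)⁻¹ = w
  field_simp
  ring

end Pool.Agent.CUSP
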