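import Pool.Agent.CUSP.Targets

/-!
# CUSP: the Fatou coordinate on a half plane (FW1)
-/

set_option autoImplicit false
set_option linter.unusedSectionVars false

open Complex Filter Topology Set MeasureTheory

namespace Pool.Agent.CUSP

namespace FW1_

/-- the error term -/
def er (H : ℂ → ℂ) (w : ℂ) : ℂ := H w - w - 1

/-- the standing assumptions -/
structure Cx (H : ℂ → ℂ) (R0 C0 R1 : ℝ) : Prop where
  hR0 : 0 < R0
  hC0 : 0 < C0
  hd : DifferentiableOn ℂ H {w : ℂ | R0 < w.re}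
  hb : ∀ w : ℂ, R0 < w.re → ‖H w - w - 1‖ ≤ C0 / ‖w‖
  hR1 : 2 * R0 + 1 + 90 * C0 = R1

namespace Cx

variable {H : ℂ → ℂ} {R0 C0 R1 : ℝ} (h : Cx H R0 C0 R1)

include h

theorem isOpen0 : IsOpen {w : ℂ | R0 < w.re} := isOpen_lt continuous_const continuous_re

theorem er_diff : DifferentiableOn ℂ (er H) {w : ℂ | R0 < w.re} := by
  unfold er
  exact (h.hd.sub differentiableOn_id).sub (differentiableOn_const 1)

theorem er_deriv (w : ℂ) (hw : 2 * R0 < w.re) :
    DifferentiableAt ℂ (er H) w ∧ ‖deriv (er H) w‖ ≤ 4 * C0 / w.re ^ 2 := by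
  have hR0 := h.hR0
  have hC0 := h.hC0
  have hw0 : 0 < w.re := by linarith
  refine ⟨h.er_diff.differentiableAt (h.isOpen0.mem_nhds (by
    show R0 < w.re
    linarith)), ?_⟩
  have hsub : ∀ z ∈ Metric.closedBall w (w.re / 2), w.re / 2 ≤ z.re := by
    intro z hz
    rw [Metric.mem_closedBall, dist_eq_norm] at hz
    have h1 : |(z - w).re| ≤ ‖z - w‖ := abs_re_le_norm _
    rw [sub_re] at h1
    have h2 := (abs_le.1 h1).1
    linarith
  have hdc : DiffContOnCl ℂ (er H) (Metric.ball w (w.re / 2)) := by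
    refine h.er_diff.diffContOnCl_ball ?_
    intro z hz
    show R0 < z.re
    have := hsub z hz
    linarith
  have hsph : ∀ z ∈ Metric.sphere w (w.re / 2), ‖er H z‖ ≤ 2 * C0 / w.re := by
    intro z hz
    have h1 := hsub z (Metric.sphere_subset_closedBall hz)
    have h2 : ‖er H z‖ ≤ C0 / ‖z‖ := h.hb z (by linarith)
    have h3 : w.re / 2 ≤ ‖z‖ := by
      have h4 : |z.re| ≤ ‖z‖ := abs_re_le_norm z
      have h5 := le_abs_self z.re
      linarith
    refine le_trans h2 ?_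
    have h6 : C0 / ‖z‖ ≤ C0 / (w.re / 2) :=
      div_le_div_of_nonneg_left hC0.le (by linarith) h3
    refine le_trans h6 (le_of_eq ?_)
    field_simp
  have h1 := Complex.norm_deriv_le_of_forall_mem_sphere_norm_le (by linarith) hdc hsph
  refine le_trans h1 (le_of_eq ?_)
  field_simp
  ring

theorem er_lip (y : ℝ) (hy : 2 * R0 < y) (u v : ℂ) (hu : y ≤ u.re) (hv : y ≤ v.re) :
    ‖er H u - er H v‖ ≤ 4 * C0 / y ^ 2 * ‖u - v‖ := by
  have hR0 := h.hR0
  have hC0 := h.hC0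
  have hy0 : 0 < y := by linarith
  refine Convex.norm_image_sub_le_of_norm_deriv_le (𝕜 := ℂ) (s := {z : ℂ | y ≤ z.re})
    (fun z hz => (h.er_deriv z (lt_of_lt_of_le hy hz)).1) (fun z hz => ?_)
    (convex_halfSpace_re_ge y) hv hu
  have hz' : y ≤ z.re := hz
  refine le_trans (h.er_deriv z (lt_of_lt_of_le hy hz)).2 ?_
  refine div_le_div_of_nonneg_left (by linarith) (by positivity) ?_
  exact pow_le_pow_left₀ hy0.le hz' 2

theorem R1_facts : 1 ≤ R1 ∧ 2 * R0 < R1 ∧ R0 < R1 ∧ 90 * C0 ≤ R1 - 1 ∧ 1 < R1 := by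
  have hR0 := h.hR0
  have hC0 := h.hC0
  have hR1 := h.hR1
  refine ⟨?_, ?_, ?_, ?_, ?_⟩ <;> linarith

theorem er_small (w : ℂ) (hw : R1 ≤ w.re) : ‖er H w‖ ≤ 1 / 10 := by
  obtain ⟨h1, h2, h3, h4, _⟩ := h.R1_facts
  have hC0 := h.hC0
  have h5 : ‖er H w‖ ≤ C0 / ‖w‖ := h.hb w (by linarith)
  have h6 : R1 ≤ ‖w‖ := by
    have h7 : |w.re| ≤ ‖w‖ := abs_re_le_norm w
    have h8 := le_abs_self w.re
    linarith
  refine le_trans h5 ?_
  rw [div_le_iff₀ (by linarith)]
  linarith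

theorem H_eq (w : ℂ) : H w = w + 1 + er H w := by
  unfold er
  ring

theorem H_re (w : ℂ) (hw : R1 ≤ w.re) : w.re + 9 / 10 ≤ (H w).re := by
  have h1 := h.er_small w hw
  have h2 : |(er H w).re| ≤ ‖er H w‖ := abs_re_le_norm _
  have h3 := (abs_le.1 h2).1
  rw [h.H_eq w]
  simp only [add_re, one_re]
  linarith

theorem it_re (w : ℂ) (hw : R1 ≤ w.re) (n : ℕ) : w.re + 9 / 10 * n ≤ (H^[n] w).re := by
  induction n with
  | zero => simp
  | succ n ih =>
    rw [Function.iterate_succ_apply']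
    have h1 : R1 ≤ (H^[n] w).re := by
      have : (0 : ℝ) ≤ n := Nat.cast_nonneg n
      linarith
    have h2 := h.H_re _ h1
    push_cast
    linarith

theorem it_R1 (w : ℂ) (hw : R1 ≤ w.re) (n : ℕ) : R1 ≤ (H^[n] w).re := by
  have h1 := h.it_re w hw n
  have : (0 : ℝ) ≤ n := Nat.cast_nonneg n
  linarith

theorem it_lip (x : ℝ) (hx : R1 ≤ x) (w w' : ℂ) (hw : x ≤ w.re) (hw' : x ≤ w'.re) (n : ℕ) :
    ‖(H^[n] w - H^[n] w') - (w - w')‖ ≤
      9 * C0 * (1 / (x - 1) - 1 / (x - 1 + 9 / 10 * n)) * ‖w - w'‖ := by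
  obtain ⟨r1, r2, r3, r4, r5⟩ := h.R1_facts
  have hC0 := h.hC0
  have hR0 := h.hR0
  induction n with
  | zero => simp
  | succ n ih =>
    set u := H^[n] w with hu
    set u' := H^[n] w' with hu'
    have hn : (0 : ℝ) ≤ n := Nat.cast_nonneg n
    have hx1 : 0 < x - 1 := by linarith
    have e1 : x + 9 / 10 * n ≤ u.re := by
      have := h.it_re w (by linarith) n
      linarith
    have e2 : x + 9 / 10 * n ≤ u'.re := by
      have := h.it_re w' (by linarith) n
      linarith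
    have e3 := h.er_lip (x + 9 / 10 * n) (by linarith) u u' e1 e2
    have e4 : (H^[n + 1] w - H^[n + 1] w') - (w - w') =
        ((u - u') - (w - w')) + (er H u - er H u') := by
      rw [Function.iterate_succ_apply', Function.iterate_succ_apply', ← hu, ← hu', h.H_eq u,
        h.H_eq u']
      ring
    have hs : 0 < x - 1 + 9 / 10 * n := by linarith
    have e5 : 9 * C0 * (1 / (x - 1) - 1 / (x - 1 + 9 / 10 * n)) ≤ 1 := by
      have f1 : 0 ≤ 1 / (x - 1 + 9 / 10 * n) := by positivity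
      have f2 : 9 * C0 * (1 / (x - 1)) ≤ 1 := by
        rw [mul_one_div, div_le_one hx1]
        linarith
      nlinarith
    have e6 : ‖u - u'‖ ≤ 2 * ‖w - w'‖ := by
      have f1 : u - u' = ((u - u') - (w - w')) + (w - w') := by ring
      have f2 : ‖u - u'‖ ≤ ‖(u - u') - (w - w')‖ + ‖w - w'‖ := by
        conv_lhs => rw [f1]
        exact norm_add_le _ _
      have f3 : 9 * C0 * (1 / (x - 1) - 1 / (x - 1 + 9 / 10 * n)) * ‖w - w'‖ ≤ 1 * ‖w - w'‖ :=
        mul_le_mul_of_nonneg_right e5 (norm_nonneg _)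
      linarith
    have e7 : 4 * C0 / (x + 9 / 10 * n) ^ 2 * ‖u - u'‖ ≤
        8 * C0 / (x + 9 / 10 * n) ^ 2 * ‖w - w'‖ := by
      have f1 : 0 ≤ 4 * C0 / (x + 9 / 10 * n) ^ 2 := by positivity
      calc 4 * C0 / (x + 9 / 10 * n) ^ 2 * ‖u - u'‖
          ≤ 4 * C0 / (x + 9 / 10 * n) ^ 2 * (2 * ‖w - w'‖) := mul_le_mul_of_nonneg_left e6 f1
        _ = _ := by ring
    have e8 : 9 * C0 * (1 / (x - 1) - 1 / (x - 1 + 9 / 10 * n)) + 8 * C0 / (x + 9 / 10 * n) ^ 2 ≤
        9 * C0 * (1 / (x - 1) - 1 / (x - 1 + 9 / 10 * ((n + 1 : ℕ) : ℝ))) := by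
      set s := x - 1 + 9 / 10 * n with hsd
      have f1 : x + 9 / 10 * n = s + 1 := by rw [hsd]; ring
      have f2 : x - 1 + 9 / 10 * ((n + 1 : ℕ) : ℝ) = s + 9 / 10 := by
        rw [hsd]
        push_cast
        ring
      rw [f1, f2]
      have f3 : 9 * C0 * (1 / s - 1 / (s + 9 / 10)) = 81 / 10 * C0 / (s * (s + 9 / 10)) := by
        field_simp
        ring
      have f4 : 8 * C0 / (s + 1) ^ 2 ≤ 81 / 10 * C0 / (s * (s + 9 / 10)) := by
        apply div_le_div₀ (by positivity) (by linarith) (by positivity)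
        nlinarith
      have f5 : 9 * C0 * (1 / (x - 1) - 1 / (s + 9 / 10)) =
          9 * C0 * (1 / (x - 1) - 1 / s) + 9 * C0 * (1 / s - 1 / (s + 9 / 10)) := by ring
      rw [f5, f3]
      linarith
    rw [e4]
    calc ‖((u - u') - (w - w')) + (er H u - er H u')‖
        ≤ ‖(u - u') - (w - w')‖ + ‖er H u - er H u'‖ := norm_add_le _ _
      _ ≤ 9 * C0 * (1 / (x - 1) - 1 / (x - 1 + 9 / 10 * n)) * ‖w - w'‖ +
          8 * C0 / (x + 9 / 10 * n) ^ 2 * ‖w - w'‖ := by linarith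
      _ = (9 * C0 * (1 / (x - 1) - 1 / (x - 1 + 9 / 10 * n)) +
          8 * C0 / (x + 9 / 10 * n) ^ 2) * ‖w - w'‖ := by ring
      _ ≤ _ := mul_le_mul_of_nonneg_right e8 (norm_nonneg _)

theorem it_two (w w' : ℂ) (hw : R1 ≤ w.re) (hw' : R1 ≤ w'.re) (n : ℕ) :
    ‖H^[n] w - H^[n] w'‖ ≤ 2 * ‖w - w'‖ := by
  obtain ⟨r1, r2, r3, r4, r5⟩ := h.R1_facts
  have hC0 := h.hC0
  have h1 := h.it_lip R1 le_rfl w w' hw hw' n
  have hn : (0 : ℝ) ≤ n := Nat.cast_nonneg n
  have hx1 : 0 < R1 - 1 := by linarith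
  have e5 : 9 * C0 * (1 / (R1 - 1) - 1 / (R1 - 1 + 9 / 10 * n)) ≤ 1 := by
    have f1 : 0 ≤ 1 / (R1 - 1 + 9 / 10 * n) := by positivity
    have f2 : 9 * C0 * (1 / (R1 - 1)) ≤ 1 := by
      rw [mul_one_div, div_le_one hx1]
      linarith
    nlinarith
  have f1 : H^[n] w - H^[n] w' = ((H^[n] w - H^[n] w') - (w - w')) + (w - w') := by ring
  have f2 : ‖H^[n] w - H^[n] w'‖ ≤ ‖(H^[n] w - H^[n] w') - (w - w')‖ + ‖w - w'‖ := by
    conv_lhs => rw [f1]
    exact norm_add_le _ _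
  have f3 := mul_le_mul_of_nonneg_right e5 (norm_nonneg (w - w'))
  linarith

/-- the terms of the series -/
theorem term (w w' : ℂ) (hw : R1 ≤ w.re) (hw' : R1 ≤ w'.re) (n : ℕ) :
    ‖er H (H^[n] w) - er H (H^[n] w')‖ ≤ 10 * C0 * ‖w - w'‖ * (1 / ((n + 1 : ℕ) : ℝ) ^ 2) := by
  obtain ⟨r1, r2, r3, r4, r5⟩ := h.R1_facts
  have hC0 := h.hC0
  have hn : (0 : ℝ) ≤ n := Nat.cast_nonneg n
  have e1 : R1 + 9 / 10 * n ≤ (H^[n] w).re := by
    have := h.it_re w hw n
    linarith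
  have e2 : R1 + 9 / 10 * n ≤ (H^[n] w').re := by
    have := h.it_re w' hw' n
    linarith
  have e3 := h.er_lip (R1 + 9 / 10 * n) (by linarith) _ _ e1 e2
  have e4 := h.it_two w w' hw hw' n
  have e5 : 4 * C0 / (R1 + 9 / 10 * n) ^ 2 ≤ 5 * C0 / ((n + 1 : ℕ) : ℝ) ^ 2 := by
    rw [div_le_div_iff₀ (by positivity) (by positivity)]
    push_cast
    have f1 : 9 / 10 * ((n : ℝ) + 1) ≤ R1 + 9 / 10 * n := by linarith
    have f2 : (9 / 10 * ((n : ℝ) + 1)) ^ 2 ≤ (R1 + 9 / 10 * n) ^ 2 :=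
      pow_le_pow_left₀ (by positivity) f1 2
    nlinarith
  calc ‖er H (H^[n] w) - er H (H^[n] w')‖
      ≤ 4 * C0 / (R1 + 9 / 10 * n) ^ 2 * ‖H^[n] w - H^[n] w'‖ := e3
    _ ≤ 5 * C0 / ((n + 1 : ℕ) : ℝ) ^ 2 * (2 * ‖w - w'‖) :=
        mul_le_mul e5 e4 (norm_nonneg _) (by positivity)
    _ = _ := by ring

omit h in
theorem summ (K : ℝ) : Summable (fun n : ℕ => K * (1 / ((n + 1 : ℕ) : ℝ) ^ 2)) := by
  have h1 : Summable (fun n : ℕ => 1 / (n : ℝ) ^ 2) :=
    Real.summable_one_div_nat_pow.2 (by norm_num)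
  exact ((summable_nat_add_iff (f := fun n : ℕ => 1 / (n : ℝ) ^ 2) 1).2 h1).mul_left K

theorem tele (w w' : ℂ) (N : ℕ) :
    w + ∑ n ∈ Finset.range N, (er H (H^[n] w) - er H (H^[n] w')) =
      H^[N] w - H^[N] w' + w' := by
  induction N with
  | zero => simp
  | succ N ih =>
    rw [Finset.sum_range_succ, ← add_assoc, ih, Function.iterate_succ_apply',
      Function.iterate_succ_apply', h.H_eq (H^[N] w), h.H_eq (H^[N] w')]
    ring

theorem lim (w w' : ℂ) (hw : R1 ≤ w.re) (hw' : R1 ≤ w'.re) :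
    Tendsto (fun N : ℕ => H^[N] w - H^[N] w' + w') atTop
      (𝓝 (w + ∑' n, (er H (H^[n] w) - er H (H^[n] w')))) := by
  have h1 : Summable (fun n : ℕ => er H (H^[n] w) - er H (H^[n] w')) :=
    Summable.of_norm_bounded (summ (10 * C0 * ‖w - w'‖)) (h.term w w' hw hw')
  have h2 := (h1.hasSum.tendsto_sum_nat).const_add w
  refine h2.congr fun N => ?_
  exact h.tele w w' N

theorem er_lim (w : ℂ) (hw : R1 ≤ w.re) :
    Tendsto (fun N : ℕ => er H (H^[N] w)) atTop (𝓝 0) := by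
  obtain ⟨r1, r2, r3, r4, r5⟩ := h.R1_facts
  have hC0 := h.hC0
  rw [tendsto_zero_iff_norm_tendsto_zero]
  have h1 : Tendsto (fun N : ℕ => C0 / (9 / 10 * (N : ℝ) + R1)) atTop (𝓝 0) := by
    refine Tendsto.div_atTop tendsto_const_nhds ?_
    exact tendsto_atTop_add_const_right _ _
      (tendsto_natCast_atTop_atTop.const_mul_atTop (by norm_num))
  refine squeeze_zero (fun _ => norm_nonneg _) (fun N => ?_) h1
  have h2 := h.it_re w hw N
  have hN : (0 : ℝ) ≤ N := Nat.cast_nonneg N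
  have h3 : ‖er H (H^[N] w)‖ ≤ C0 / ‖H^[N] w‖ := h.hb _ (by linarith)
  refine le_trans h3 ?_
  refine div_le_div_of_nonneg_left hC0.le (by linarith) ?_
  have h4 : |(H^[N] w).re| ≤ ‖H^[N] w‖ := abs_re_le_norm _
  have h5 := le_abs_self (H^[N] w).re
  linarith

theorem it_diff (n : ℕ) : DifferentiableOn ℂ (H^[n]) {w : ℂ | R1 < w.re} := by
  obtain ⟨r1, r2, r3, r4, r5⟩ := h.R1_facts
  induction n with
  | zero =>
    rw [Function.iterate_zero]
    exact differentiableOn_id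
  | succ n ih =>
    rw [Function.iterate_succ']
    refine h.hd.comp ih ?_
    intro w hw
    have hw' : R1 < w.re := hw
    have := h.it_R1 w hw'.le n
    show R0 < (H^[n] w).re
    linarith

theorem term_diff (w0 : ℂ) (n : ℕ) :
    DifferentiableOn ℂ (fun w => er H (H^[n] w) - er H (H^[n] w0)) {w : ℂ | R1 < w.re} := by
  obtain ⟨r1, r2, r3, r4, r5⟩ := h.R1_facts
  refine DifferentiableOn.sub ?_ (differentiableOn_const _)
  refine h.er_diff.comp (h.it_diff n) ?_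
  intro w hw
  have hw' : R1 < w.re := hw
  have := h.it_R1 w hw'.le n
  show R0 < (H^[n] w).re
  linarith

end Cx

end FW1_

open FW1_

theorem p_FW1 : T_FW1 := by
  intro H R0 C0 hR0 hC0 hd hb
  have h : Cx H R0 C0 (2 * R0 + 1 + 90 * C0) := ⟨hR0, hC0, hd, hb, rfl⟩
  set R1 := 2 * R0 + 1 + 90 * C0 with hR1
  obtain ⟨r1, r2, r3, r4, r5⟩ := h.R1_facts
  set w0 : ℂ := ((R1 + 1 : ℝ) : ℂ) with hw0
  have hw0r : R1 ≤ w0.re := by
    rw [hw0, ofReal_re]
    linarith
  set Φ : ℂ → ℂ := fun w => w + ∑' n, (er H (H^[n] w) - er H (H^[n] w0)) with hΦ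
  have hlim : ∀ w : ℂ, R1 ≤ w.re →
      Tendsto (fun N : ℕ => H^[N] w - H^[N] w0 + w0) atTop (𝓝 (Φ w)) :=
    fun w hw => h.lim w w0 hw hw0r
  have hopen : IsOpen {w : ℂ | R1 < w.re} := isOpen_lt continuous_const continuous_re
  have hdiff : DifferentiableOn ℂ Φ {w : ℂ | R1 < w.re} := by
    intro w hw
    have hw' : R1 < w.re := hw
    -- on a bounded part of the half plane
    have hU : IsOpen ({w : ℂ | R1 < w.re} ∩ Metric.ball w0 (‖w - w0‖ + 1)) :=
      hopen.inter Metric.isOpen_ball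
    have h1 : DifferentiableOn ℂ (fun w => ∑' n, (er H (H^[n] w) - er H (H^[n] w0)))
        ({w : ℂ | R1 < w.re} ∩ Metric.ball w0 (‖w - w0‖ + 1)) := by
      refine differentiableOn_tsum_of_summable_norm (Cx.summ (10 * C0 * (‖w - w0‖ + 1)))
        (fun n => (h.term_diff w0 n).mono inter_subset_left) hU ?_
      intro n v hv
      have hv1 : R1 < v.re := hv.1
      have hv2 : ‖v - w0‖ ≤ ‖w - w0‖ + 1 := by
        have := hv.2
        rw [Metric.mem_ball, dist_eq_norm] at this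
        exact this.le
      refine le_trans (h.term v w0 hv1.le hw0r n) ?_
      have h2 : (0 : ℝ) ≤ 1 / ((n + 1 : ℕ) : ℝ) ^ 2 := by positivity
      refine mul_le_mul_of_nonneg_right ?_ h2
      exact mul_le_mul_of_nonneg_left hv2 (by positivity)
    have h3 : w ∈ ({w : ℂ | R1 < w.re} ∩ Metric.ball w0 (‖w - w0‖ + 1)) := by
      refine ⟨hw', ?_⟩
      rw [Metric.mem_ball, dist_eq_norm]
      linarith
    have h4 : DifferentiableAt ℂ Φ w :=
      differentiableAt_id.add (h1.differentiableAt (hU.mem_nhds h3))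
    exact h4.differentiableWithinAt
  -- the Lipschitz estimate
  have hlip : ∀ x : ℝ, R1 ≤ x → ∀ w w' : ℂ, x ≤ w.re → x ≤ w'.re →
      ‖(Φ w - w) - (Φ w' - w')‖ ≤ 9 * C0 / (x - 1) * ‖w - w'‖ := by
    intro x hx w w' hw hw'
    have l1 := (hlim w (by linarith)).sub (hlim w' (by linarith))
    have l2 := (l1.sub_const (w - w')).norm
    have h1 : ‖(Φ w - w) - (Φ w' - w')‖ = ‖(Φ w - Φ w') - (w - w')‖ := by
      congr 1
      ring
    rw [h1]
    refine le_of_tendsto' l2 fun N => ?_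
    have h2 : H^[N] w - H^[N] w0 + w0 - (H^[N] w' - H^[N] w0 + w0) - (w - w') =
        (H^[N] w - H^[N] w') - (w - w') := by ring
    rw [h2]
    refine le_trans (h.it_lip x hx w w' hw hw' N) ?_
    refine mul_le_mul_of_nonneg_right ?_ (norm_nonneg _)
    have hN : (0 : ℝ) ≤ N := Nat.cast_nonneg N
    have hx1 : 0 < x - 1 := by linarith
    have f1 : 0 ≤ 1 / (x - 1 + 9 / 10 * N) := by positivity
    have f2 : 9 * C0 / (x - 1) = 9 * C0 * (1 / (x - 1)) := by ring
    rw [f2]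
    exact mul_le_mul_of_nonneg_left (by linarith) (by positivity)
  have hder : ∀ (x : ℝ) (w : ℂ), R1 ≤ x → x < w.re → ‖deriv Φ w - 1‖ ≤ 9 * C0 / (x - 1) := by
    intro x w hx hw
    have hdw : DifferentiableAt ℂ Φ w := by
      refine hdiff.differentiableAt (hopen.mem_nhds ?_)
      show R1 < w.re
      linarith
    have h1 : deriv (fun v => Φ v - v) w = deriv Φ w - 1 := by
      have h2 : HasDerivAt (fun v => Φ v - v) (deriv Φ w - 1) w :=
        hdw.hasDerivAt.sub (hasDerivAt_id w)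
      exact h2.deriv
    rw [← h1]
    have hx1 : 0 < x - 1 := by linarith
    refine norm_deriv_le_of_lip' (by positivity) ?_
    have hnb : {v : ℂ | x < v.re} ∈ 𝓝 w :=
      (isOpen_lt continuous_const continuous_re).mem_nhds hw
    filter_upwards [hnb] with v hv
    have hv' : x < v.re := hv
    exact hlip x hx v w hv'.le hw.le
  refine ⟨R1, Φ, r3.le, hdiff, ?_, ?_⟩
  · intro w hw
    refine ⟨h.er_small w hw.le, ?_, ?_⟩
    · have hH : R1 ≤ (H w).re := by
        have := h.H_re w hw.le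
        linarith
      have l1 := hlim (H w) hH
      have l2 := ((hlim w hw.le).add_const 1).add (h.er_lim w hw.le)
      rw [add_zero] at l2
      refine tendsto_nhds_unique l1 (l2.congr fun N => ?_)
      rw [← Function.iterate_succ_apply, Function.iterate_succ_apply', h.H_eq (H^[N] w)]
      ring
    · refine le_trans (hder R1 w le_rfl hw) ?_
      rw [div_le_iff₀ (by linarith)]
      linarith
  · intro ε hε
    refine ⟨R1 + 2 + 9 * C0 / ε, ?_⟩
    intro w _ hw2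
    have hpos : 0 < 9 * C0 / ε := by positivity
    refine le_trans (hder (R1 + 1 + 9 * C0 / ε) w (by linarith) (by linarith)) ?_
    rw [div_le_iff₀ (by linarith)]
    have h1 : ε * (9 * C0 / ε) = 9 * C0 := by
      field_simp
    nlinarith

end Pool.Agent.CUSP
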