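import Pool.Agent.CUSP.Targets

/-!
# CUSP, target FW2: the inverse of the Fatou coordinate
-/

set_option autoImplicit false

open Complex Filter Topology Set MeasureTheory

namespace Pool.Agent.CUSP

namespace FW2_

lemma isOpen_Sx (p : ℝ) : IsOpen (Sx p) := by
  unfold Sx
  exact isOpen_lt (by fun_prop) (by fun_prop)

lemma re_of_Sx {p : ℝ} {t : ℂ} (ht : t ∈ Sx p) : p < t.re := by
  have h : 4 * |t.im| < t.re - p := ht
  have := abs_nonneg t.im
  linarith

lemma norm_of_Sx {p : ℝ} (hp : 0 < p) {t : ℂ} (ht : t ∈ Sx p) : ‖t‖ ≤ 5 / 4 * t.re := by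
  have h : 4 * |t.im| < t.re - p := ht
  have h1 := Complex.norm_le_abs_re_add_abs_im t
  have h2 : |t.re| = t.re := abs_of_pos (by have := re_of_Sx ht; linarith)
  rw [h2] at h1
  linarith

/-- The set where the derivative is close to one is convex. -/
lemma convex_V (r s : ℝ) : Convex ℝ {w : ℂ | r < w.re ∧ s ≤ w.re} := by
  have h1 : Convex ℝ {w : ℂ | r < w.re} := convex_halfSpace_re_gt r
  have h2 : Convex ℝ {w : ℂ | s ≤ w.re} := convex_halfSpace_re_ge s
  exact h1.inter h2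

/-- Mean value inequality for `Φ - id`. -/
lemma mvt {Φ : ℂ → ℂ} {R1 R2 ε : ℝ} (hd : DifferentiableOn ℂ Φ {w : ℂ | R1 < w.re})
    (h : ∀ w : ℂ, R1 < w.re → R2 ≤ w.re → ‖deriv Φ w - 1‖ ≤ ε) {w v : ℂ}
    (hw : R1 < w.re) (hw2 : R2 ≤ w.re) (hv : R1 < v.re) (hv2 : R2 ≤ v.re) :
    ‖(Φ w - w) - (Φ v - v)‖ ≤ ε * ‖w - v‖ := by
  have hopen : IsOpen {w : ℂ | R1 < w.re} := isOpen_lt continuous_const Complex.continuous_re
  have hda : ∀ x ∈ {w : ℂ | R1 < w.re ∧ R2 ≤ w.re}, DifferentiableAt ℂ (fun w => Φ w - w) x :=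
    fun x hx => (hd.differentiableAt (hopen.mem_nhds hx.1)).sub differentiableAt_id
  refine Convex.norm_image_sub_le_of_norm_deriv_le (f := fun w => Φ w - w) hda ?_
    (convex_V R1 R2) ⟨hv, hv2⟩ ⟨hw, hw2⟩
  intro x hx
  have h1 : HasDerivAt (fun w => Φ w - w) (deriv Φ x - 1) x :=
    (hd.differentiableAt (hopen.mem_nhds hx.1)).hasDerivAt.sub (hasDerivAt_id x)
  rw [h1.deriv]
  exact h x hx.1 hx.2

/-- `Φ w = w + o(w)`. -/
lemma asym {Φ : ℂ → ℂ} {R1 : ℝ} (hd : DifferentiableOn ℂ Φ {w : ℂ | R1 < w.re})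
    (h : ∀ ε : ℝ, 0 < ε → ∃ R2 : ℝ, ∀ w : ℂ, R1 < w.re → R2 ≤ w.re → ‖deriv Φ w - 1‖ ≤ ε)
    (ε : ℝ) (hε : 0 < ε) : ∃ X : ℝ, ∀ w : ℂ, X ≤ w.re → R1 < w.re ∧ ‖Φ w - w‖ ≤ ε * ‖w‖ := by
  obtain ⟨R2, hR2⟩ := h (ε / 2) (by positivity)
  set x1 : ℝ := max (max (R1 + 1) R2) 1 with hx1
  have h1 : R1 < x1 := by
    have := le_max_left (R1 + 1) R2
    have := le_max_left (max (R1 + 1) R2) 1
    linarith
  have h2 : R2 ≤ x1 := (le_max_right (R1 + 1) R2).trans (le_max_left _ _)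
  have h3 : 1 ≤ x1 := le_max_right _ _
  set B := ‖Φ x1 - x1‖ + ε / 2 * x1 with hB
  refine ⟨max x1 (B / (ε / 2)), fun w hw => ?_⟩
  have hw1 : x1 ≤ w.re := (le_max_left _ _).trans hw
  have hw2 : B / (ε / 2) ≤ w.re := (le_max_right _ _).trans hw
  have hwn : w.re ≤ ‖w‖ := Complex.re_le_norm w
  refine ⟨by linarith, ?_⟩
  have h4 := mvt hd hR2 (w := w) (v := (x1 : ℂ)) (by linarith) (by linarith)
    (by simpa using h1) (by simpa using h2)
  have h5 : ‖w - x1‖ ≤ ‖w‖ + x1 := by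
    refine (norm_sub_le _ _).trans ?_
    rw [Complex.norm_real, Real.norm_of_nonneg (by linarith)]
  have h6 : B ≤ ε / 2 * ‖w‖ := by
    rw [div_le_iff₀ (by positivity)] at hw2
    nlinarith
  have h7 : ‖Φ w - w‖ ≤ ‖(Φ w - w) - (Φ x1 - x1)‖ + ‖Φ x1 - x1‖ := by
    have := norm_add_le ((Φ w - w) - (Φ x1 - x1)) (Φ x1 - x1)
    rwa [sub_add_cancel] at this
  have h8 : ε / 2 * ‖w - x1‖ ≤ ε / 2 * (‖w‖ + x1) :=
    mul_le_mul_of_nonneg_left h5 (by positivity)
  rw [hB] at h6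
  nlinarith

/-- Solving `Φ w = t` in a ball. -/
lemma surj {Φ : ℂ → ℂ} {r : ℝ} (hr : 0 ≤ r) (t : ℂ)
    (hL : ∀ w ∈ Metric.closedBall t r, ∀ v ∈ Metric.closedBall t r,
      ‖(Φ w - w) - (Φ v - v)‖ ≤ 1 / 10 * ‖w - v‖)
    (ht : ‖Φ t - t‖ ≤ 9 / 10 * r) : ∃ w ∈ Metric.closedBall t r, Φ w = t := by
  set g : ℂ → ℂ := fun w => t - (Φ w - w) with hg
  have hmaps : MapsTo g (Metric.closedBall t r) (Metric.closedBall t r) := by
    intro w hw
    rw [Metric.mem_closedBall, dist_eq_norm]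
    have h1 : g w - t = -(((Φ w - w) - (Φ t - t)) + (Φ t - t)) := by rw [hg]; ring
    rw [h1, norm_neg]
    have h2 := hL w hw t (Metric.mem_closedBall_self hr)
    rw [Metric.mem_closedBall, dist_eq_norm] at hw
    refine (norm_add_le _ _).trans ?_
    linarith
  have hcon : ContractingWith (1 / 10 : NNReal) (hmaps.restrict g _ _) := by
    refine ⟨by
      rw [← NNReal.coe_lt_coe]
      norm_num, ?_⟩
    refine LipschitzWith.of_dist_le_mul fun x y => ?_
    rw [Subtype.dist_eq, Subtype.dist_eq, dist_eq_norm, dist_eq_norm]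
    have h1 : (hmaps.restrict g _ _ x : ℂ) - (hmaps.restrict g _ _ y : ℂ) =
        -((Φ (x : ℂ) - x) - (Φ (y : ℂ) - y)) := by
      rw [MapsTo.val_restrict_apply, MapsTo.val_restrict_apply, hg]
      ring
    rw [h1, norm_neg]
    refine (hL x x.2 y y.2).trans (le_of_eq ?_)
    norm_num
  obtain ⟨w, hw, hfix, -⟩ := ContractingWith.exists_fixedPoint'
    (Metric.isClosed_closedBall.isComplete) hmaps hcon (Metric.mem_closedBall_self hr)
    (edist_ne_top _ _)
  refine ⟨w, hw, ?_⟩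
  have h1 : t - (Φ w - w) = w := hfix
  linear_combination -h1

end FW2_

/-- The target `T_FW2`. -/
theorem p_FW2 (h₁ : T_FW1) : T_FW2 := by
  intro H R0 C0 hR0 hC0 hH hbd
  obtain ⟨R1, Φ, hR01, hd, hΦ, hlim⟩ := h₁ H R0 C0 hR0 hC0 hH hbd
  have hopen : IsOpen {w : ℂ | R1 < w.re} := isOpen_lt continuous_const Complex.continuous_re
  have hR1 : 0 < R1 := lt_of_lt_of_le hR0 hR01
  have hmv : ∀ w v : ℂ, R1 < w.re → R1 < v.re → ‖(Φ w - w) - (Φ v - v)‖ ≤ 1 / 10 * ‖w - v‖ :=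
    fun w v hw hv => FW2_.mvt (R2 := R1) hd (fun x hx _ => (hΦ x hx).2.2) hw hw.le hv hv.le
  have hlow : ∀ w v : ℂ, R1 < w.re → R1 < v.re → ‖w - v‖ ≤ 10 / 9 * ‖Φ w - Φ v‖ := by
    intro w v hw hv
    have h1 := hmv w v hw hv
    have h2 : ‖w - v‖ ≤ ‖Φ w - Φ v‖ + ‖(Φ w - w) - (Φ v - v)‖ := by
      have h3 : w - v = (Φ w - Φ v) - ((Φ w - w) - (Φ v - v)) := by ring
      calc ‖w - v‖ = ‖(Φ w - Φ v) - ((Φ w - w) - (Φ v - v))‖ := by rw [← h3]
        _ ≤ _ := norm_sub_le _ _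
    linarith
  have hinj : ∀ w v : ℂ, R1 < w.re → R1 < v.re → Φ w = Φ v → w = v := by
    intro w v hw hv h
    have h1 := hlow w v hw hv
    rw [h, sub_self, norm_zero, mul_zero] at h1
    exact sub_eq_zero.1 (norm_eq_zero.1 (le_antisymm h1 (norm_nonneg _)))
  obtain ⟨X, hX⟩ := FW2_.asym hd hlim (1 / 10) (by norm_num)
  set T : ℝ := max X (2 * R1) with hT
  have hTpos : 0 < T := lt_of_lt_of_le (by linarith) (le_max_right _ _)
  have hex : ∀ t : ℂ, t ∈ Sx T → ∃ w : ℂ, ‖w - t‖ ≤ t.re / 4 ∧ Φ w = t := by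
    intro t ht
    have h1 := FW2_.re_of_Sx ht
    have h2 : X ≤ t.re := (le_max_left _ _).trans h1.le
    have h3 : 2 * R1 ≤ t.re := (le_max_right _ _).trans h1.le
    have h4 : ∀ w ∈ Metric.closedBall t (t.re / 4), R1 < w.re := by
      intro w hw
      rw [Metric.mem_closedBall, dist_eq_norm] at hw
      have h5 : t.re - w.re ≤ ‖w - t‖ := by
        have := Complex.re_le_norm (t - w)
        rw [Complex.sub_re, norm_sub_rev] at this
        exact this
      linarith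
    obtain ⟨w, hw, hw2⟩ := FW2_.surj (Φ := Φ) (r := t.re / 4) (by linarith) t
      (fun w hw v hv => hmv w v (h4 w hw) (h4 v hv)) (by
        have h6 := (hX t h2).2
        have h7 := FW2_.norm_of_Sx hTpos ht
        linarith)
    rw [Metric.mem_closedBall, dist_eq_norm] at hw
    exact ⟨w, hw, hw2⟩
  classical
  choose! Ψ hΨ1 hΨ2 using hex
  have hre : ∀ t ∈ Sx T, 3 / 4 * t.re ≤ (Ψ t).re := by
    intro t ht
    have h1 := hΨ1 t ht
    have h2 : t.re - (Ψ t).re ≤ ‖Ψ t - t‖ := by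
      have := Complex.re_le_norm (t - Ψ t)
      rw [Complex.sub_re, norm_sub_rev] at this
      exact this
    linarith
  have hV : ∀ t ∈ Sx T, R1 < (Ψ t).re := by
    intro t ht
    have h1 := hre t ht
    have h2 := FW2_.re_of_Sx ht
    have h3 : 2 * R1 ≤ t.re := (le_max_right _ _).trans h2.le
    linarith
  have hder : ∀ t ∈ Sx T, HasDerivAt Ψ (deriv Φ (Ψ t))⁻¹ t := by
    intro t ht
    have hnh : Sx T ∈ 𝓝 t := (FW2_.isOpen_Sx T).mem_nhds ht
    refine HasDerivAt.of_local_left_inverse ?_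
      (hd.differentiableAt (hopen.mem_nhds (hV t ht))).hasDerivAt ?_ ?_
    · rw [Metric.continuousAt_iff]
      intro ε hε
      obtain ⟨δ, hδ, hball⟩ := Metric.mem_nhds_iff.1 hnh
      refine ⟨min δ (ε * (9 / 10)), by positivity, fun {s} hs => ?_⟩
      have hs1 : s ∈ Sx T := hball (Metric.mem_ball.2 (lt_of_lt_of_le hs (min_le_left _ _)))
      have hs2 : dist s t < ε * (9 / 10) := lt_of_lt_of_le hs (min_le_right _ _)
      have h1 := hlow (Ψ s) (Ψ t) (hV s hs1) (hV t ht)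
      rw [hΨ2 s hs1, hΨ2 t ht] at h1
      rw [dist_eq_norm] at hs2 ⊢
      linarith
    · intro h0
      have h1 := (hΦ (Ψ t) (hV t ht)).2.2
      rw [h0, zero_sub, norm_neg, norm_one] at h1
      norm_num at h1
    · filter_upwards [hnh] with s hs
      exact hΨ2 s hs
  refine ⟨T, Ψ, hTpos, ?_, ?_, ?_, ?_⟩
  · exact fun t ht => (hder t ht).differentiableAt.differentiableWithinAt
  · intro t ht s hs h
    rw [← hΨ2 t ht, ← hΨ2 s hs, h]
  · intro t ht
    refine ⟨lt_of_le_of_lt hR01 (hV t ht), ?_⟩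
    have ht1 : t + 1 ∈ Sx T := by
      have h : 4 * |t.im| < t.re - T := ht
      show 4 * |(t + 1).im| < (t + 1).re - T
      rw [Complex.add_im, Complex.one_im, add_zero, Complex.add_re, Complex.one_re]
      linarith
    obtain ⟨h1, h2, -⟩ := hΦ (Ψ t) (hV t ht)
    have h3 : R1 < (H (Ψ t)).re := by
      have h4 : -(H (Ψ t) - Ψ t - 1).re ≤ ‖H (Ψ t) - Ψ t - 1‖ := by
        have := Complex.re_le_norm (-(H (Ψ t) - Ψ t - 1))
        rwa [Complex.neg_re, norm_neg] at this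
      rw [Complex.sub_re, Complex.sub_re, Complex.one_re] at h4
      have := hV t ht
      linarith
    refine hinj _ _ h3 (hV _ ht1) ?_
    rw [h2, hΨ2 t ht, hΨ2 _ ht1]
  · intro ε hε
    obtain ⟨X', hX'⟩ := FW2_.asym hd hlim (ε / 2) (by positivity)
    obtain ⟨R2, hR2⟩ := hlim (ε / 2) (by positivity)
    refine ⟨max (max (2 * X') (2 * R2)) 1, fun t ht htT => ?_⟩
    have a1 : 2 * X' ≤ t.re := ((le_max_left _ _).trans (le_max_left _ _)).trans htT
    have a2 : 2 * R2 ≤ t.re := ((le_max_right _ _).trans (le_max_left _ _)).trans htT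
    have a3 : 1 ≤ t.re := (le_max_right _ _).trans htT
    have h0 := hre t ht
    have hn : t.re ≤ ‖t‖ := Complex.re_le_norm t
    constructor
    · have h1 := (hX' (Ψ t) (by linarith)).2
      rw [hΨ2 t ht] at h1
      have h2 : ‖Ψ t‖ ≤ ‖t‖ + t.re / 4 := by
        have := norm_le_norm_add_norm_sub' (Ψ t) t
        have := hΨ1 t ht
        linarith
      have ht0 : t ≠ 0 := by
        intro h
        rw [h, Complex.zero_re] at a3
        linarith
      have h3 : Ψ t / t - 1 = (Ψ t - t) / t := by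
        rw [sub_div, div_self ht0]
      rw [h3, norm_div, div_le_iff₀ (norm_pos_iff.2 ht0), norm_sub_rev]
      refine h1.trans ?_
      have h4 : ‖Ψ t‖ ≤ 5 / 4 * ‖t‖ := by linarith
      nlinarith [norm_nonneg t]
    · rw [(hder t ht).deriv]
      have h1 := hR2 (Ψ t) (hV t ht) (by linarith)
      have h2 := (hΦ (Ψ t) (hV t ht)).2.2
      set D := deriv Φ (Ψ t) with hD
      have h3 : 9 / 10 ≤ ‖D‖ := by
        have h4 := norm_sub_norm_le (1 : ℂ) (1 - D)
        rw [norm_one, sub_sub_cancel, norm_sub_rev] at h4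
        linarith
      have hD0 : D ≠ 0 := by
        intro h
        rw [h, norm_zero] at h3
        norm_num at h3
      have h5 : D⁻¹ - 1 = -((D - 1) / D) := by
        field_simp
        ring
      rw [h5, norm_neg, norm_div, div_le_iff₀ (by linarith)]
      nlinarith

end Pool.Agent.CUSP
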