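import Pool.Agent.CUSP.Targets2

/-!
# CUSP, target GBR: the inverse branch at a parabolic point
-/

set_option autoImplicit false

open Complex Filter Topology Set MeasureTheory
open Pool.Agent.Limb (F)
open Pool.Agent.PLim (Rho)
open Pool.Agent.MEY (Pt)
open Pool.Agent.PSat (Comp Sat)
open Pool.Agent.AEN (vm Hp Exn)

namespace Pool.Agent.CUSP

/-- The Schwarz lemma for a double zero. -/
theorem GBR_.schwarz2 (u : ℂ → ℂ) (a : ℂ) (r M : ℝ)
    (hd : DifferentiableOn ℂ u (Metric.ball a r)) (hM : ∀ x ∈ Metric.ball a r, ‖u x‖ ≤ M)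
    (h0 : u a = 0) (h1 : deriv u a = 0) (x : ℂ) (hx : x ∈ Metric.ball a r) :
    ‖u x‖ ≤ M / r / r * ‖x - a‖ ^ 2 := by
  have hr : 0 < r := lt_of_le_of_lt dist_nonneg (Metric.mem_ball.mp hx)
  have hv : ∀ y ∈ Metric.ball a r, ‖dslope u a y‖ ≤ M / r := fun y hy =>
    Complex.norm_dslope_le_div_of_mapsTo_ball hd
      (fun w hw => by
        rw [h0, mem_closedBall_zero_iff]
        exact hM w hw) hy
  have hvd : DifferentiableOn ℂ (dslope u a) (Metric.ball a r) :=
    (Complex.differentiableOn_dslope (Metric.ball_mem_nhds a hr)).2 hd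
  have hva : dslope u a a = 0 := by rw [dslope_same, h1]
  have hw : ‖dslope (dslope u a) a x‖ ≤ M / r / r :=
    Complex.norm_dslope_le_div_of_mapsTo_ball hvd
      (fun w hw => by
        rw [hva, mem_closedBall_zero_iff]
        exact hv w hw) hx
  have e1 : (x - a) • dslope u a x = u x - u a := sub_smul_dslope u a x
  have e2 : (x - a) • dslope (dslope u a) a x = dslope u a x - dslope u a a :=
    sub_smul_dslope (dslope u a) a x
  rw [h0, sub_zero, smul_eq_mul] at e1
  rw [hva, sub_zero, smul_eq_mul] at e2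
  rw [← e1, ← e2, norm_mul, norm_mul]
  nlinarith [mul_le_mul_of_nonneg_left hw (mul_nonneg (norm_nonneg (x - a)) (norm_nonneg (x - a)))]

theorem GBR_.F_diff (c : ℂ) (m : ℕ) : Differentiable ℂ ((F 2 c)^[m]) := by
  have h : Differentiable ℂ (F 2 c) := by
    have e : F 2 c = fun z => z ^ 2 + c := by
      funext z
      rfl
    rw [e]
    fun_prop
  exact h.iterate m

/-- Second derivative of the inverse branch. -/
theorem GBR_.second (f G : ℂ → ℂ) (ζ α : ℂ) (R : ℝ) (hR : 0 < R) (hf : Differentiable ℂ f)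
    (hG : DifferentiableOn ℂ G (Metric.ball ζ R)) (hz : G ζ = ζ)
    (hi : ∀ x ∈ Metric.ball ζ R, f (G x) = x) (h1 : deriv f ζ = 1)
    (h2 : deriv (deriv f) ζ = 2 * α) :
    deriv G ζ = 1 ∧ deriv (deriv G) ζ = -2 * α := by
  have hζ : ζ ∈ Metric.ball ζ R := Metric.mem_ball_self hR
  have hc : ∀ x ∈ Metric.ball ζ R, deriv f (G x) * deriv G x = 1 := by
    intro x hx
    have hGx : HasDerivAt G (deriv G x) x :=
      (hG.differentiableAt (Metric.isOpen_ball.mem_nhds hx)).hasDerivAt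
    have hfx : HasDerivAt f (deriv f (G x)) (G x) := (hf (G x)).hasDerivAt
    have hcomp := hfx.comp x hGx
    have hid : HasDerivAt (f ∘ G) 1 x := by
      refine (hasDerivAt_id x).congr_of_eventuallyEq ?_
      filter_upwards [Metric.isOpen_ball.mem_nhds hx] with y hy
      exact hi y hy
    exact hcomp.unique hid
  have hG1 : deriv G ζ = 1 := by
    have := hc ζ hζ
    rw [hz, h1, one_mul] at this
    exact this
  refine ⟨hG1, ?_⟩
  have hdf : Differentiable ℂ (deriv f) := by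
    have := hf.contDiff (n := 2)
    exact (this.differentiable_deriv_two)
  have hdG : DifferentiableOn ℂ (deriv G) (Metric.ball ζ R) := hG.deriv Metric.isOpen_ball
  have hA : HasDerivAt (fun x => deriv f (G x)) (deriv (deriv f) (G ζ) * deriv G ζ) ζ := by
    have h3 : HasDerivAt (deriv f) (deriv (deriv f) (G ζ)) (G ζ) := (hdf (G ζ)).hasDerivAt
    exact h3.comp ζ (hG.differentiableAt (Metric.isOpen_ball.mem_nhds hζ)).hasDerivAt
  have hB : HasDerivAt (deriv G) (deriv (deriv G) ζ) ζ :=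
    (hdG.differentiableAt (Metric.isOpen_ball.mem_nhds hζ)).hasDerivAt
  have hprod := hA.mul hB
  have hconst : HasDerivAt (fun x => deriv f (G x) * deriv G x) 0 ζ := by
    refine (hasDerivAt_const ζ (1 : ℂ)).congr_of_eventuallyEq ?_
    filter_upwards [Metric.isOpen_ball.mem_nhds hζ] with y hy
    exact hc y hy
  have hu := hprod.unique hconst
  rw [hz, h2, hG1, h1] at hu
  linear_combination hu

theorem p_GBR (h₁ : T_LFT) (h₂ : T_KDI) (h₃ : T_XPR) : T_GBR := by
  obtain ⟨C0, hC0, hK⟩ := h₂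
  have hC0' : 0 < C0 := by linarith
  refine ⟨4 * (C0 + 1) * C0 ^ 2, by nlinarith [mul_nonneg hC0'.le hC0'.le], ?_⟩
  intro k c z a L hD l
  have hX := h₃ k c z a L hD
  set R := Rl k z L l with hRdef
  set ζ := z l with hζdef
  have hR : 0 < R := hX.pos l
  have hζ : ζ ∈ Metric.ball ζ R := Metric.mem_ball_self hR
  have hcj : ∀ j : ℕ, (F 2 c)^[j] c = L j 0 := by
    intro j
    have h0 : (0 : ℂ) ∈ OM := Or.inr (by simp)
    have := hX.ite 0 j 0 h0
    rw [hD.ftc.tip, zero_add] at this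
    exact this
  obtain ⟨G, hGd, hGz, hGi⟩ := h₁ c k (Metric.ball ζ R) id Metric.isOpen_ball
    (convex_ball ζ R) differentiable_id.differentiableOn
    (fun t ht j hj => by
      intro h
      have h1 : id t = L j 0 := by rw [h, hcj]
      have h2 := hX.tip l j hj
      rw [id] at h1
      rw [Metric.mem_ball, dist_comm, dist_eq_norm, h1] at ht
      exact absurd ht (not_lt.mpr h2)) ζ hζ ζ (by rw [id]; exact hX.fix l)
  have hGi' : ∀ t ∈ Metric.ball ζ R, (F 2 c)^[k] (G t) = t := hGi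
  have hFd : Differentiable ℂ ((F 2 c)^[k]) := GBR_.F_diff c k
  have hinj : InjOn G (Metric.ball ζ R) := fun x hx y hy h => by
    rw [← hGi' x hx, ← hGi' y hy, h]
  have hF1 : deriv ((F 2 c)^[k]) ζ = 1 := hD.prb.mul l
  have hF2 : deriv (deriv ((F 2 c)^[k])) ζ = 2 * a l := hD.prb.sec l
  obtain ⟨hG1, hG2⟩ := GBR_.second ((F 2 c)^[k]) G ζ (a l) R hR hFd hGd hGz hGi' hF1 hF2
  -- distortion
  obtain ⟨-, -, hK1⟩ := hK ζ R G hR hGd hinj
  have hsub : Metric.ball ζ (R / 2) ⊆ Metric.ball ζ R := Metric.ball_subset_ball (by linarith)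
  obtain ⟨-, hK2, -⟩ := hK ζ (R / 2) G (by linarith) (hGd.mono hsub) (hinj.mono hsub)
  have hlow : ∀ x : ℂ, ‖x - ζ‖ ≤ R / 2 → ‖G x - ζ‖ ≤ C0 * ‖x - ζ‖ ∧ ‖x - ζ‖ ≤ C0 * ‖G x - ζ‖ := by
    intro x hx
    obtain ⟨-, -, h3, h4⟩ := hK1 x hx
    rw [hG1, norm_one, hGz] at h3 h4
    constructor
    · simpa using h3
    · simpa using h4
  -- the bound for `u = G - id`
  have hu0 : ∀ x : ℂ, ‖x - ζ‖ ≤ R / 2 → ‖G x - x‖ ≤ (C0 + 1) * ‖x - ζ‖ := by
    intro x hx
    have h1 := (hlow x hx).1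
    have h2 : G x - x = (G x - ζ) - (x - ζ) := by ring
    rw [h2]
    refine (norm_sub_le _ _).trans ?_
    linarith
  have hud : DifferentiableOn ℂ (fun x => G x - x) (Metric.ball ζ (R / 2)) :=
    (hGd.mono hsub).sub differentiable_id.differentiableOn
  have hu1 : deriv (fun x => G x - x) ζ = 0 := by
    have h1 : HasDerivAt G 1 ζ := by
      rw [← hG1]
      exact (hGd.differentiableAt (Metric.isOpen_ball.mem_nhds hζ)).hasDerivAt
    have h2 := h1.sub (hasDerivAt_id ζ)
    have h3 := h2.deriv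
    rw [sub_self] at h3
    exact h3
  have hub : ∀ x : ℂ, ‖x - ζ‖ ≤ R / 2 → ‖G x - x‖ ≤ 2 * (C0 + 1) * ‖x - ζ‖ ^ 2 / R := by
    intro x hx
    rcases lt_or_eq_of_le hx with hlt | heq
    · have h1 := GBR_.schwarz2 (fun x => G x - x) ζ (R / 2) ((C0 + 1) * (R / 2)) hud
        (fun y hy => by
          rw [Metric.mem_ball, dist_eq_norm] at hy
          refine (hu0 y hy.le).trans ?_
          exact mul_le_mul_of_nonneg_left hy.le (by linarith))
        (by simp [hGz]) hu1 x (by rw [Metric.mem_ball, dist_eq_norm]; exact hlt)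
      refine h1.trans (le_of_eq ?_)
      field_simp
    · refine (hu0 x hx).trans (le_of_eq ?_)
      rw [heq]
      field_simp
  have hC2 : (1 : ℝ) ≤ C0 ^ 2 := one_le_pow₀ hC0
  have hCbig : 2 * (C0 + 1) ≤ 4 * (C0 + 1) * C0 ^ 2 := by nlinarith
  have hCbig2 : 4 * C0 ≤ 4 * (C0 + 1) * C0 ^ 2 := by nlinarith
  have hCpos : 0 < 4 * (C0 + 1) * C0 ^ 2 := by positivity
  refine ⟨G, ?_⟩
  refine ⟨by nlinarith, hR, hGd, hinj, hGz, hGi', ?_, ?_, hG2, ?_⟩
  · intro x hx
    refine (hub x hx).trans ?_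
    apply div_le_div_of_nonneg_right _ hR.le
    exact mul_le_mul_of_nonneg_right hCbig (sq_nonneg _)
  · intro x hx
    have hx1 : ‖x - ζ‖ ≤ R / (4 * C0) := hx.trans
      (div_le_div_of_nonneg_left hR.le (by positivity) hCbig2)
    have hx2 : x ∈ Metric.ball (G ζ) (R / 2 * ‖deriv G ζ‖ / C0) := by
      rw [hGz, hG1, norm_one, mul_one, Metric.mem_ball, dist_eq_norm]
      refine lt_of_le_of_lt hx1 ?_
      rw [div_div]
      exact div_lt_div_of_pos_left hR (by positivity) (by linarith)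
    obtain ⟨y, hy, hyx⟩ := hK2 hx2
    rw [Metric.mem_ball, dist_eq_norm] at hy
    have hyR : y ∈ Metric.ball ζ R := by
      rw [Metric.mem_ball, dist_eq_norm]
      linarith
    have hFx : (F 2 c)^[k] x = y := by rw [← hyx]; exact hGi' y hyR
    have hyl := (hlow y hy.le).2
    rw [hyx] at hyl
    rw [hFx]
    refine ⟨by linarith, hyx, ?_⟩
    have h1 := hub y hy.le
    rw [hyx, norm_sub_rev] at h1
    refine h1.trans ?_
    apply div_le_div_of_nonneg_right _ hR.le
    have h2 : ‖y - ζ‖ ^ 2 ≤ (C0 * ‖x - ζ‖) ^ 2 := pow_le_pow_left₀ (norm_nonneg _) hyl 2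
    have h3 : 0 ≤ (C0 + 1) * (C0 * ‖x - ζ‖) ^ 2 := by positivity
    nlinarith
  · -- Cauchy estimate
    have hr4 : 0 < R / 4 := by linarith
    have hcb : Metric.closedBall ζ (R / 4) ⊆ Metric.ball ζ (R / 2) :=
      Metric.closedBall_subset_ball (by linarith)
    have hdc : DiffContOnCl ℂ (fun x => G x - x) (Metric.ball ζ (R / 4)) :=
      (hud.mono hcb).diffContOnCl_ball (Subset.refl _)
    have h1 := Complex.norm_iteratedDeriv_le_of_forall_mem_sphere_norm_le 2 hr4 hdc
      (C := 2 * (C0 + 1) * (R / 4) ^ 2 / R) (fun x hx => by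
        rw [mem_sphere_iff_norm] at hx
        have := hub x (by rw [hx]; linarith)
        rw [hx] at this
        exact this)
    have h2 : iteratedDeriv 2 (fun x => G x - x) ζ = -2 * a l := by
      rw [iteratedDeriv_succ, iteratedDeriv_one]
      have h3 : deriv (fun x => G x - x) =ᶠ[𝓝 ζ] fun x => deriv G x - 1 := by
        filter_upwards [Metric.isOpen_ball.mem_nhds hζ] with y hy
        have h4 : HasDerivAt G (deriv G y) y :=
          (hGd.differentiableAt (Metric.isOpen_ball.mem_nhds hy)).hasDerivAt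
        exact (h4.sub (hasDerivAt_id y)).deriv
      rw [h3.deriv_eq, deriv_sub_const, hG2]
    rw [h2, norm_mul, norm_neg] at h1
    have h5 : ‖(2 : ℂ)‖ = 2 := by norm_num
    have h6 : ((Nat.factorial 2 : ℕ) : ℝ) * (2 * (C0 + 1) * (R / 4) ^ 2 / R) / (R / 4) ^ 2 =
        4 * (C0 + 1) / R := by
      have : ((Nat.factorial 2 : ℕ) : ℝ) = 2 := by norm_num [Nat.factorial]
      rw [this]
      field_simp
      ring
    rw [h5, h6] at h1
    have h7 : 2 * ‖a l‖ * R ≤ 4 * (C0 + 1) := by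
      rw [le_div_iff₀ hR] at h1
      exact h1
    nlinarith

end Pool.Agent.CUSP
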