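import Pool.Agent.CUSP.Targets3

/-!
# CUSP: GOP, properties of the grand orbit
-/

set_option autoImplicit false

open Complex Filter Topology Set MeasureTheory
open Pool.Agent.Limb (F)
open Pool.Agent.PLim (Rho)
open Pool.Agent.MEY (Pt)
open Pool.Agent.PSat (Comp Sat)
open Pool.Agent.AEN (vm Hp Exn)
open Pool.Agent.MEZ (T_NCZ T_SECZ)

namespace Pool.Agent.CUSP

namespace GOP_

variable {k : ℕ} {c : ℂ} {z a : ℕ → ℂ} {L : ℕ → ℂ → ℂ}

theorem fF (c x : ℂ) : F 2 c x = x ^ 2 + c := rfl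

theorem zeroOM : (0 : ℂ) ∈ OM := by
  right
  simp

theorem openOM : IsOpen OM := by
  have h1 : IsOpen {t : ℂ | t.im ≠ 0} := isOpen_ne_fun Complex.continuous_im continuous_const
  have h2 : IsOpen {t : ℂ | -1 < t.re} := isOpen_lt continuous_const Complex.continuous_re
  exact h1.union h2

theorem ballOM (t : ℝ) : Metric.ball (t : ℂ) (t + 1) ⊆ OM := by
  intro s hs
  right
  rw [Metric.mem_ball, dist_eq_norm] at hs
  have h1 : |(s - t).re| ≤ ‖s - t‖ := Complex.abs_re_le_norm _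
  have h2 : (s - t).re = s.re - t := by simp
  rw [h2] at h1
  have := neg_abs_le (s.re - t)
  linarith

theorem tipIt (hX : Xpr k c z L) (hF : Ftc k c z a L) (n : ℕ) : (F 2 c)^[n] c = L n 0 := by
  have := hX.ite 0 n 0 zeroOM
  rw [hF.tip, Nat.zero_add] at this
  exact this

/-- forward invariance -/
theorem fwd (hA : ∀ l j : ℕ, (F 2 c)^[j] (z l) = z (l + j)) (y : ℂ) (n l : ℕ)
    (h : (F 2 c)^[n] y = z l) (i : ℕ) : ∃ m q : ℕ, (F 2 c)^[m] ((F 2 c)^[i] y) = z q := by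
  rcases le_total i n with h1 | h1
  · refine ⟨n - i, l, ?_⟩
    rw [← Function.iterate_add_apply, Nat.sub_add_cancel h1, h]
  · refine ⟨0, l + (i - n), ?_⟩
    rw [Function.iterate_zero, id]
    have : i = (i - n) + n := by omega
    conv_lhs => rw [this]
    rw [Function.iterate_add_apply, h, hA]

theorem bddOrbit (hA : ∀ l j : ℕ, (F 2 c)^[j] (z l) = z (l + j))
    (hm : ∀ l : ℕ, ∃ m < k, z l = z m) (y : ℂ) (n l : ℕ) (h : (F 2 c)^[n] y = z l) :
    ∃ B : ℝ, ∀ i : ℕ, ‖(F 2 c)^[i] y‖ ≤ B := by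
  refine ⟨∑ i ∈ Finset.range n, ‖(F 2 c)^[i] y‖ + ∑ i ∈ Finset.range k, ‖z i‖, fun i => ?_⟩
  have h1 : 0 ≤ ∑ i ∈ Finset.range n, ‖(F 2 c)^[i] y‖ :=
    Finset.sum_nonneg fun _ _ => norm_nonneg _
  have h2 : 0 ≤ ∑ i ∈ Finset.range k, ‖z i‖ := Finset.sum_nonneg fun _ _ => norm_nonneg _
  rcases lt_or_ge i n with hi | hi
  · have h3 : ‖(F 2 c)^[i] y‖ ≤ ∑ i ∈ Finset.range n, ‖(F 2 c)^[i] y‖ :=
      Finset.single_le_sum (f := fun i => ‖(F 2 c)^[i] y‖) (fun _ _ => norm_nonneg _)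
        (Finset.mem_range.2 hi)
    linarith
  · have e : i = (i - n) + n := by omega
    have h4 : (F 2 c)^[i] y = z (l + (i - n)) := by
      conv_lhs => rw [e]
      rw [Function.iterate_add_apply, h, hA]
    obtain ⟨m, hmk, hm'⟩ := hm (l + (i - n))
    have h3 : ‖z m‖ ≤ ∑ i ∈ Finset.range k, ‖z i‖ :=
      Finset.single_le_sum (f := fun i => ‖z i‖) (fun _ _ => norm_nonneg _)
        (Finset.mem_range.2 hmk)
    rw [h4, hm']
    linarith

theorem ne0 (hX : Xpr k c z L) (hF : Ftc k c z a L) (hz : ∀ l, z l ≠ 0) (y : ℂ) (n l : ℕ)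
    (h : (F 2 c)^[n] y = z l) : y ≠ 0 := by
  rintro rfl
  cases n with
  | zero => exact hz l (by simpa using h.symm)
  | succ n =>
    rw [Function.iterate_succ_apply] at h
    have e : F 2 c 0 = c := by rw [fF]; simp
    rw [e, tipIt hX hF] at h
    exact hX.nez n l 0 zeroOM h

theorem nec (hX : Xpr k c z L) (hF : Ftc k c z a L) (y : ℂ) (n l : ℕ)
    (h : (F 2 c)^[n] y = z l) : y ≠ c := by
  rintro rfl
  rw [tipIt hX hF] at h
  exact hX.nez n l 0 zeroOM h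

end GOP_

open GOP_ in
theorem p_GOP (h₁ : T_XPR) (h₂ : T_ESC) (h₃ : T_CRV) (h₄ : T_KDI) (h₅ : T_AST) : T_GOP := by
  intro k c z a L hD
  have hX := h₁ k c z a L hD
  have hF := hD.ftc
  have hP := hD.prb
  have hA := h₅ k c z a hP
  have hit : ∀ l j : ℕ, (F 2 c)^[j] (z l) = z (l + j) := fun l j => (hA l).2.2.2.2.1 j
  have hz : ∀ l, z l ≠ 0 := fun l => (hA l).2.2.1
  have hm : ∀ l : ℕ, ∃ m < k, z l = z m := hX.zlt
  have hne : ∀ (y : ℂ) (n l : ℕ), (F 2 c)^[n] y = z l → y ≠ 0 := ne0 hX hF hz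
  have h3 : ∀ l : ℕ, ∀ t ∈ OM, L l t ∉ GO c z := by
    rintro l t ht ⟨n, m, hnm⟩
    rw [hX.ite l n t ht] at hnm
    exact hX.nez (l + n) m t ht hnm
  refine ⟨?_, ?_, h3, ?_⟩
  · rintro y ⟨n, l, hy⟩
    refine ⟨?_, hne y n l hy, nec hX hF y n l hy, ?_⟩
    · obtain ⟨B, hB⟩ := bddOrbit hit hm y n l hy
      have h := (h₂ c y B hB).1
      have hc : ‖c‖ ≤ 2 := by
        have := hF.bdd 0 0 zeroOM
        rwa [hF.tip] at this
      rwa [max_eq_left hc] at h
    · intro m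
      rw [(h₃ c m y).1]
      rw [Finset.prod_ne_zero_iff]
      intro i _
      obtain ⟨p, q, hpq⟩ := fwd hit y n l hy i
      exact mul_ne_zero two_ne_zero (hne _ p q hpq)
  · intro y
    constructor
    · rintro ⟨n, l, hy⟩
      obtain ⟨p, q, hpq⟩ := fwd hit y n l hy 1
      exact ⟨p, q, by simpa using hpq⟩
    · rintro ⟨n, l, hy⟩
      exact ⟨n + 1, l, by rw [Function.iterate_succ_apply]; exact hy⟩
  · intro l t hl ht
    obtain ⟨C, hC, hK⟩ := h₄
    have hb := ballOM t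
    have hd : DifferentiableOn ℂ (L l) (Metric.ball (t : ℂ) (t + 1)) := (hF.dif l).mono hb
    have hi : InjOn (L l) (Metric.ball (t : ℂ) (t + 1)) := fun x hx y hy e =>
      (hF.inj l l hl hl x (hb hx) y (hb hy) e).2
    obtain ⟨h0, hsub, -⟩ := hK (t : ℂ) (t + 1) (L l) (by linarith) hd hi
    have hpos : 0 < (t + 1) * ‖deriv (L l) (t : ℂ)‖ / C := by
      have : 0 < ‖deriv (L l) (t : ℂ)‖ := norm_pos_iff.2 h0
      have h1 : 0 < t + 1 := by linarith
      have h2 : 0 < C := by linarith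
      positivity
    refine ⟨_, hpos, fun y hy => ?_⟩
    by_contra hlt
    push Not at hlt
    have hmem : y ∈ Metric.ball (L l t) ((t + 1) * ‖deriv (L l) (t : ℂ)‖ / C) := by
      rw [Metric.mem_ball, dist_comm, dist_eq_norm]
      exact hlt
    obtain ⟨s, hs, rfl⟩ := hsub hmem
    exact h3 l s (hb hs) hy

end Pool.Agent.CUSP
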