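import Pool.Agent.CUSP.Targets3

/-!
# CUSP: HBR (the branches at the points of the grand orbit) and BAL (a large tile)
-/

set_option autoImplicit false

open Complex Filter Topology Set MeasureTheory Metric
open Pool.Agent.Limb (F)

namespace Pool.Agent.CUSP

/-- The tips are not in the disc. -/
lemma hbr_tip {k : ℕ} {c : ℂ} {z a : ℕ → ℂ} {L : ℕ → ℂ → ℂ} (hDat : Dat k c z a L)
    (X : Xpr k c z L) {l : ℕ} {η : ℝ} (hη : η ≤ 1) {t : ℂ}
    (ht : t ∈ ball (z l) (η * Rl k z L l)) {j : ℕ} (hj : j < k) : t ≠ (F 2 c)^[j] c := by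
  intro h
  have h0 : (0 : ℂ) ∈ OM := by
    right
    simp
  have h1 := X.ite 0 j 0 h0
  rw [hDat.ftc.tip, zero_add] at h1
  rw [h, h1, mem_ball, dist_comm, dist_eq_norm] at ht
  have h2 := X.tip l j hj
  have h3 := X.pos l
  nlinarith

theorem p_HBR (hLMA : T_LMA) (hGBR : T_GBR) (hSHF : T_SHF) (hLFT : T_LFT) (hLFU : T_LFU)
    (hCRV : T_CRV) (hXPR : T_XPR) : T_HBR := by
  obtain ⟨η1, hη1, hη1', hA⟩ := hLMA
  obtain ⟨C0, hC0, hG0⟩ := hGBR
  obtain ⟨η2, hη2, hH⟩ := hSHF C0 hC0
  obtain ⟨η, hη, ha, hb⟩ : ∃ η : ℝ, 0 < η ∧ η ≤ η1 ∧ η ≤ η2 :=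
    ⟨min η1 η2, lt_min hη1 hη2, min_le_left _ _, min_le_right _ _⟩
  refine ⟨η, hη, ha.trans hη1', ?_⟩
  intro k c z a L hDat l y hl hy
  have X := hXPR k c z a L hDat
  have hR : 0 < Rl k z L l := X.pos l
  have hη1x : η ≤ 1 := by linarith
  obtain ⟨G, hG⟩ := hG0 k c z a L hDat l
  set B : Set ℂ := ball (z l) (η * Rl k z L l) with hB
  have hBo : IsOpen B := isOpen_ball
  have hBc : Convex ℝ B := convex_ball _ _
  have hzB : z l ∈ B := mem_ball_self (by positivity)
  have hk := hDat.prb.hk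
  -- the cycle
  have hcyc : ∀ (i j : ℕ), (F 2 c)^[j] (z i) = z (i + j) := by
    intro i j
    induction j with
    | zero => rfl
    | succ j ih =>
      rw [Function.iterate_succ_apply', ih, hDat.prb.stp, add_assoc]
  have hperk : ∀ (i n : ℕ), z (i + k * n) = z i := by
    intro i n
    induction n with
    | zero => simp
    | succ n ih => rw [mul_add, mul_one, ← add_assoc, hDat.prb.per, ih]
  have hexm : ∃ m : ℕ, (F 2 c)^[m] y = z l := by
    obtain ⟨n, l', hn⟩ := hy
    -- l' + j ≡ l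
    obtain ⟨m, hm, hzm⟩ := X.zlt l'
    rw [hzm] at hn
    refine ⟨(k - m + l) + n, ?_⟩
    rw [Function.iterate_add_apply, hn, hcyc]
    have h1 : m + (k - m + l) = l + k * 1 := by omega
    rw [h1, hperk]
  classical
  obtain ⟨m, hm, hmin⟩ : ∃ m : ℕ, (F 2 c)^[m] y = z l ∧ ∀ m' < m, (F 2 c)^[m'] y ≠ z l :=
    ⟨Nat.find hexm, Nat.find_spec hexm, fun m' hm' => Nat.find_min hexm hm'⟩
  rcases lt_or_ge m k with hmk | hmk
  · obtain ⟨g, hgd, hg0, hgi⟩ := hLFT c m B (fun t => t) hBo hBc differentiableOn_id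
      (fun t ht j hj => hbr_tip hDat X hη1x ht (hj.trans hmk)) (z l) hzB y hm
    exact ⟨m, g, hm, hgd, hg0, hgi⟩
  · obtain ⟨m', rfl⟩ : ∃ m', m = m' + k := ⟨m - k, by omega⟩
    obtain ⟨y', hy'⟩ : ∃ y' : ℂ, y' = (F 2 c)^[m'] y := ⟨_, rfl⟩
    have hFy' : (F 2 c)^[k] y' = z l := by
      rw [hy', ← Function.iterate_add_apply, add_comm k m']
      exact hm
    have hy'n : y' ≠ z l := by
      rw [hy']
      exact hmin m' (by omega)
    obtain ⟨b, hbd, hb0, hbi⟩ := hLFT c k B (fun t => t) hBo hBc differentiableOn_id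
      (fun t ht j hj => hbr_tip hDat X hη1x ht hj) (z l) hzB y' hFy'
    have hnorm : ∀ t ∈ B, ‖t - z l‖ ≤ η * Rl k z L l := by
      intro t ht
      rw [hB, mem_ball, dist_eq_norm] at ht
      exact ht.le
    have hηR1 : η * Rl k z L l ≤ η1 * Rl k z L l := mul_le_mul_of_nonneg_right ha hR.le
    have hηR2 : η * Rl k z L l ≤ η2 * Rl k z L l := mul_le_mul_of_nonneg_right hb hR.le
    -- the branch does not meet the arcs
    have hfree : ∀ x ∈ B, b x ∉ XX k z L := by
      intro x hx hbx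
      have hxX : ∀ n : ℕ, (F 2 c)^[n] (b x) ∈ XX k z L := by
        intro n
        induction n with
        | zero => exact hbx
        | succ n ih =>
          rw [Function.iterate_succ_apply']
          exact X.inv _ ih
      have hxX' : x ∈ XX k z L := by
        have := hxX k
        rwa [hbi x hx] at this
      have hxl := (hA k c z a L hDat l x hl ((hnorm x hx).trans hηR1)).1 hxX'
      obtain ⟨j, hj, hbj⟩ := hbx
      have hjl : ∀ w : ℂ, w ∈ Gm z L j → w ∈ Gm z L l → j = l := by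
        intro w h1 h2
        by_contra hne
        exact Set.disjoint_left.1 (X.dsj j hj l hl hne) h1 h2
      rcases hbj with h1 | ⟨s, hs, h1⟩
      · -- the end point
        have h2 : x = z j := by
          have := hbi x hx
          rw [h1, X.fix j] at this
          exact this.symm
        have h3 : j = l := by
          refine hjl x ?_ hxl
          rw [h2]
          exact mem_insert _ _
        rw [h3] at h1 h2
        rw [h2, hb0] at h1
        exact hy'n h1
      · have hs0 : (0 : ℝ) ≤ s := hs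
        have h1' : L j (s : ℂ) = b x := h1
        have hsOM : (s : ℂ) ∈ OM := by
          right
          rw [Complex.ofReal_re]
          linarith
        have h2 : x = L j (s + 1) := by
          have h3 := X.itn j 1 s hsOM
          rw [mul_one, h1', hbi x hx, Nat.cast_one] at h3
          exact h3
        have h3 : j = l := by
          refine hjl x ?_ hxl
          rw [h2]
          right
          exact ⟨s + 1, by rw [mem_Ici]; linarith, by push_cast; rfl⟩
        subst h3
        have h4 := (hH k c z a L j G hDat hj hG j s hj hs0 (by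
          rw [← h2]
          exact (hnorm x hx).trans hηR2)).2
        rw [← h2, h1'] at h4
        have hsub : B ⊆ ball (z j) (Rl k z L j) := by
          refine ball_subset_ball ?_
          nlinarith
        have key := hLFU c k B G b x hBc.isPreconnected (hG.dif.continuousOn.mono hsub)
          hbd.continuousOn ?_ hx h4
        · have h5 := key hzB
          rw [hG.fix, hb0] at h5
          exact hy'n h5.symm
        · intro t ht
          refine ⟨by rw [hG.inv t (hsub ht), hbi t ht], ?_⟩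
          refine (hCRV c k (G t)).2 ?_
          intro i hi
          rw [hG.inv t (hsub ht)]
          exact hbr_tip hDat X hη1x ht hi
    obtain ⟨g, hgd, hg0, hgi⟩ := hLFT c m' B b hBo hBc hbd
      (fun t ht j _ h => hfree t ht (h ▸ X.crv j)) (z l) hzB y (by rw [hb0, hy'])
    refine ⟨m' + k, g, hm, hgd, hg0, ?_⟩
    intro x hx
    rw [add_comm m' k, Function.iterate_add_apply, hgi x hx, hbi x hx]

theorem p_BAL (hGBR : T_GBR) (hLOW : T_LOW) (hTLE : T_TLE) (hXPR : T_XPR) : T_BAL := by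
  intro η κ hη hη' hκ
  obtain ⟨C0, hC0, hG0⟩ := hGBR
  obtain ⟨C1, hC1, hT1⟩ := hTLE
  obtain ⟨d0, hd0, hd⟩ := hLOW C0 η κ hη hη' hκ
  have hC00 : 0 < C0 := by linarith
  have hC10 : 0 < C1 := by linarith
  obtain ⟨s, hs, hs1, hs2, hs3⟩ : ∃ s : ℝ, 0 < s ∧ 2 * C0 * s ≤ 1 ∧ 3 * s ≤ η ∧ s < 1 := by
    refine ⟨min (1 / (2 * C0)) (η / 3), by positivity, ?_, ?_, ?_⟩
    · have : min (1 / (2 * C0)) (η / 3) ≤ 1 / (2 * C0) := min_le_left _ _
      rw [le_div_iff₀ (by positivity)] at this
      linarith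
    · have : min (1 / (2 * C0)) (η / 3) ≤ η / 3 := min_le_right _ _
      linarith
    · have : min (1 / (2 * C0)) (η / 3) ≤ η / 3 := min_le_right _ _
      linarith
  refine ⟨d0 * s ^ 2 / (4 * C1), by positivity, ?_⟩
  intro k c z a L hDat l hl hfix hκl
  have X := hXPR k c z a L hDat
  have hR : 0 < Rl k z L l := X.pos l
  obtain ⟨R, hRdef⟩ : ∃ R : ℝ, R = Rl k z L l := ⟨_, rfl⟩
  obtain ⟨G, hG⟩ := hG0 k c z a L hDat l
  rw [← hRdef] at hfix hκl hG hR ⊢
  have hlim := X.lim l
  -- a point at distance s R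
  have h1 : ∀ᶠ t : ℝ in atTop, ‖L l t - z l‖ < s * R := by
    have := Metric.tendsto_nhds.1 hlim (s * R) (by positivity)
    simpa [dist_eq_norm] using this
  obtain ⟨T, hT1', hT0⟩ := (h1.and (eventually_ge_atTop (0 : ℝ))).exists
  have hcont : ContinuousOn (fun t : ℝ => ‖L l t - z l‖) (Icc 0 T) := by
    have hcL : ContinuousOn (L l) OM := (hDat.ftc.dif l).continuousOn
    refine ((hcL.comp (f := fun t : ℝ => (t : ℂ)) (by fun_prop) ?_).sub
      continuousOn_const).norm
    intro t ht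
    right
    simp only [Complex.ofReal_re]
    linarith [ht.1]
  have h0 : s * R ≤ ‖L l (0 : ℝ) - z l‖ := by
    have := X.tip l l hl
    rw [← hRdef] at this
    rw [Complex.ofReal_zero, norm_sub_rev]
    nlinarith
  obtain ⟨t, ht, htv⟩ := intermediate_value_Icc' hT0 hcont ⟨hT1'.le, h0⟩
  simp only at htv
  have ht0 : 0 ≤ t := ht.1
  obtain ⟨y, hy⟩ : ∃ y : ℂ, y = L l t := ⟨_, rfl⟩
  rw [← hy] at htv
  have hyC : ‖y - z l‖ ≤ R / C0 := by
    rw [htv, le_div_iff₀ hC00]
    nlinarith
  obtain ⟨-, hl2, hl3⟩ := hG.lft y hyC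
  have hFy : (F 2 c)^[k] y = L l (t + 1) := by
    have htOM : (t : ℂ) ∈ OM := by
      right
      rw [Complex.ofReal_re]
      linarith
    have := X.itn l 1 t htOM
    rw [mul_one, Nat.cast_one] at this
    rw [hy, this]
  rw [hFy] at hl2 hl3
  rw [htv] at hl3
  have hl4 : ‖L l (t + 1) - y‖ ≤ s * R / 2 := by
    refine hl3.trans ?_
    rw [div_le_iff₀ hR]
    have : C0 * (s * R) ^ 2 = (2 * C0 * s) * (s * R / 2 * R) := by ring
    rw [this]
    have h5 : 0 ≤ s * R / 2 * R := by positivity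
    nlinarith
  have hx1 : ‖L l (t + 1) - z l‖ ≤ η * R / 2 := by
    have := norm_add_le (L l (t + 1) - y) (y - z l)
    rw [show L l (t + 1) - y + (y - z l) = L l (t + 1) - z l by ring, htv] at this
    nlinarith
  have hx2 : s * R / 2 ≤ ‖L l (t + 1) - z l‖ := by
    have := norm_sub_norm_le (y - z l) (y - L l (t + 1))
    rw [show y - z l - (y - L l (t + 1)) = L l (t + 1) - z l by ring, htv, norm_sub_rev y] at this
    linarith
  have hlow := hd k c (z l) (a l) R G hG hfix hκl (L l (t + 1)) hx1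
  rw [hl2, norm_sub_rev y] at hlow
  have hTa := hT1 k c z a L hDat l t hl ht0
  have hT3 := hTa.2.2.1
  rw [← hy] at hT3
  refine ⟨t, ht0, ?_, ?_⟩
  · rw [← hy, htv]
    nlinarith
  · have h6 : d0 * (s * R / 2) ^ 2 ≤ R * (C1 * ‖deriv (L l) t‖) := by
      calc d0 * (s * R / 2) ^ 2 ≤ d0 * ‖L l (t + 1) - z l‖ ^ 2 := by gcongr
        _ ≤ R * ‖L l (t + 1) - y‖ := hlow
        _ ≤ R * (C1 * ‖deriv (L l) t‖) := by gcongr
    have h7 : d0 * s ^ 2 / (4 * C1) * R = (d0 * (s * R / 2) ^ 2) / (R * C1) := by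
      field_simp
      ring
    rw [h7, div_le_iff₀ (by positivity)]
    linarith

end Pool.Agent.CUSP
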