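import Pool.Agent.CUSP.Targets

/-!
# CUSP, HOD: the derivative along backward orbits
-/

set_option autoImplicit false

open Complex Filter Topology Set MeasureTheory
open Pool.Agent.Limb (F)
open Pool.Agent.PLim (Rho)
open Pool.Agent.MEY (Pt)
open Pool.Agent.PSat (Comp Sat)
open Pool.Agent.AEN (vm Hp Exn)

namespace Pool.Agent.CUSP

namespace HOD_

theorem mem_OM {s : ℂ} (h : s.im ≠ 0) : s ∈ OM := Or.inl h

theorem im_add_nat (s : ℂ) (q : ℕ) : (s + q).im = s.im := by simp

/-- Shift of the index by a multiple of `k`. -/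
theorem shift {k : ℕ} {c : ℂ} {z a : ℕ → ℂ} {L : ℕ → ℂ → ℂ} (hF : Ftc k c z a L) (r : ℕ) :
    ∀ (q : ℕ) (s : ℂ), s.im ≠ 0 → L (r + q * k) s = L r (s + q) := by
  intro q
  induction q with
  | zero => intro s _; simp
  | succ q ih =>
    intro s hs
    have h1 : r + (q + 1) * k = (r + q * k) + k := by ring
    rw [h1, hF.per _ s (mem_OM hs), ih (s + 1) (by simpa using hs)]
    congr 1
    push_cast
    ring

/-- Injectivity off the real line. -/
theorem inj_im {k : ℕ} {c : ℂ} {z a : ℕ → ℂ} {L : ℕ → ℂ → ℂ} (hP : Prb k c z a)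
    (hF : Ftc k c z a L) (l : ℕ) : InjOn (L l) {s : ℂ | s.im ≠ 0} := by
  intro s hs s' hs' h
  have hk : 0 < k := hP.hk
  have e : l = l % k + (l / k) * k := by
    rw [mul_comm]
    exact (Nat.mod_add_div l k).symm
  have h' : L (l % k + (l / k) * k) s = L (l % k + (l / k) * k) s' := by
    rw [← e]
    exact h
  rw [shift hF (l % k) (l / k) s hs, shift hF (l % k) (l / k) s' hs'] at h'
  have h2 := (hF.inj (l % k) (l % k) (Nat.mod_lt _ hk) (Nat.mod_lt _ hk) _
    (mem_OM (by rw [im_add_nat]; exact hs)) _ (mem_OM (by rw [im_add_nat]; exact hs')) h').2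
  exact add_right_cancel h2

theorem ball_im {t : ℂ} {ρ : ℝ} (h : ρ ≤ |t.im| / 2) (ht : t.im ≠ 0) (n : ℕ) :
    Metric.ball (t - n) ρ ⊆ {s : ℂ | s.im ≠ 0} := by
  intro s hs
  rw [Metric.mem_ball, dist_eq_norm] at hs
  have h1 : |(s - (t - n)).im| < ρ := lt_of_le_of_lt (Complex.abs_im_le_norm _) hs
  have h2 : (s - (t - n)).im = s.im - t.im := by simp
  rw [h2] at h1
  intro h0
  have h3 : s.im = 0 := h0
  rw [h3, zero_sub, abs_neg] at h1
  have h4 := abs_pos.2 ht
  linarith

theorem ball_disj {t : ℂ} {ρ : ℝ} (h : ρ ≤ 1 / 2) {m n : ℕ} (hmn : m ≠ n) :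
    Disjoint (Metric.ball (t - m) ρ) (Metric.ball (t - n) ρ) := by
  refine Metric.ball_disjoint_ball ?_
  rw [dist_eq_norm]
  have e : t - (m : ℂ) - (t - n) = (((n : ℤ) - (m : ℤ) : ℤ) : ℂ) := by
    push_cast
    ring
  rw [e, Complex.norm_intCast]
  have h1 : (1 : ℤ) ≤ |(n : ℤ) - m| := by
    have : (n : ℤ) - m ≠ 0 := by
      intro h0
      apply hmn
      omega
    exact Int.one_le_abs this
  have h2 : (1 : ℝ) ≤ |(((n : ℤ) - (m : ℤ) : ℤ) : ℝ)| := by
    rw [← Int.cast_abs]
    exact_mod_cast h1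
  linarith

end HOD_

open HOD_ in
/-- HOD: the derivative along backward orbits. -/
theorem p_HOD (h₁ : T_KDI) : T_HOD := by
  intro k c z a L hP hF l t ht
  obtain ⟨C, hC, hK⟩ := h₁
  have hC0 : 0 < C := by linarith
  set ρ : ℝ := min (|t.im| / 2) (1 / 2) with hρ
  have hρ0 : 0 < ρ := by
    have := abs_pos.2 ht
    exact lt_min (by linarith) (by norm_num)
  have hρ1 : ρ ≤ |t.im| / 2 := min_le_left _ _
  have hρ2 : ρ ≤ 1 / 2 := min_le_right _ _
  have hinj := inj_im hP hF l
  set r : ℕ → ℝ := fun n => ρ * ‖deriv (L l) (t - n)‖ / C with hr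
  have hr0 : ∀ n, 0 ≤ r n := fun n => by
    have := norm_nonneg (deriv (L l) (t - n))
    positivity
  have hsub : ∀ n : ℕ, Metric.ball (L l (t - n)) (r n) ⊆ L l '' Metric.ball (t - n) ρ := by
    intro n
    have hb := ball_im hρ1 ht n
    exact (hK (t - n) ρ (L l) hρ0 ((hF.dif l).mono fun s hs => mem_OM (hb hs))
      (hinj.mono hb)).2.1
  have hdisj : Pairwise (Function.onFun Disjoint
      (fun n : ℕ => Metric.ball (L l (t - n)) (r n))) := by
    intro m n hmn
    have h1 : Disjoint (L l '' Metric.ball (t - m) ρ) (L l '' Metric.ball (t - n) ρ) := by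
      rw [Set.disjoint_left]
      rintro _ ⟨x, hx, rfl⟩ ⟨y, hy, hxy⟩
      have e := hinj (ball_im hρ1 ht n hy) (ball_im hρ1 ht m hx) hxy
      rw [e] at hy
      exact Set.disjoint_left.1 (ball_disj hρ2 hmn) hx hy
    exact h1.mono (hsub m) (hsub n)
  have hle : ∑' n : ℕ, volume (Metric.ball (L l (t - n)) (r n)) ≤
      volume (Metric.ball (0 : ℂ) 3) := by
    refine le_trans (tsum_meas_le_meas_iUnion_of_disjoint volume
      (fun n => measurableSet_ball) hdisj) (measure_mono ?_)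
    refine iUnion_subset fun n => (hsub n).trans ?_
    rintro _ ⟨s, hs, rfl⟩
    rw [Metric.mem_ball, dist_zero_right]
    have := hF.bdd l s (mem_OM (ball_im hρ1 ht n hs))
    linarith
  have hfin : ∑' n : ℕ, volume (Metric.ball (L l (t - n)) (r n)) ≠ ⊤ :=
    ne_top_of_le_ne_top measure_ball_lt_top.ne hle
  have h0 := ENNReal.tendsto_atTop_zero_of_tsum_ne_top hfin
  have h1 : Tendsto (fun n : ℕ => (volume (Metric.ball (L l (t - n)) (r n))).toReal) atTop
      (𝓝 0) := by
    have h00 := (ENNReal.tendsto_toReal ENNReal.zero_ne_top).comp h0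
    rw [ENNReal.toReal_zero] at h00
    exact h00
  have h2 : ∀ n : ℕ, (volume (Metric.ball (L l (t - n)) (r n))).toReal = r n ^ 2 * Real.pi := by
    intro n
    rw [Complex.volume_ball, ENNReal.toReal_mul, ENNReal.toReal_pow,
      ENNReal.toReal_ofReal (hr0 n)]
    rfl
  have h3 : Tendsto (fun n : ℕ => r n ^ 2 * Real.pi) atTop (𝓝 0) := by
    refine h1.congr h2
  have h4 : Tendsto (fun n : ℕ => √(r n ^ 2 * Real.pi / Real.pi)) atTop (𝓝 0) := by
    have h40 := (Real.continuous_sqrt.tendsto _).comp (h3.div_const Real.pi)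
    rw [zero_div, Real.sqrt_zero] at h40
    exact h40
  have h5 : ∀ n, √(r n ^ 2 * Real.pi / Real.pi) = r n := by
    intro n
    rw [mul_div_assoc, div_self Real.pi_ne_zero, mul_one]
    exact Real.sqrt_sq (hr0 n)
  have h6 : Tendsto r atTop (𝓝 0) := h4.congr h5
  rw [tendsto_zero_iff_norm_tendsto_zero]
  have h7 : Tendsto (fun n => r n * (C / ρ)) atTop (𝓝 0) := by
    simpa using h6.mul_const (C / ρ)
  refine h7.congr fun n => ?_
  rw [hr]
  field_simp

end Pool.Agent.CUSP
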