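import Pool.Agent.CUSP.Targets

/-!
# CUSP: HOM (the backward orbits of the inverse Fatou coordinates converge)
-/

set_option autoImplicit false

open Complex Filter Topology Set MeasureTheory
open Pool.Agent.Limb (F)
open Pool.Agent.PLim (Rho)
open Pool.Agent.MEY (Pt)
open Pool.Agent.PSat (Comp Sat)
open Pool.Agent.AEN (vm Hp Exn)

namespace Pool.Agent.CUSP

namespace HOM_

lemma om_im {t : ℂ} (h : t.im ≠ 0) : t ∈ OM := Or.inl h

lemma om_add {t : ℂ} (h : t ∈ OM) (q : ℕ) : t + (q : ℂ) ∈ OM := by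
  rcases h with h | h
  · left
    simpa using h
  · right
    have : (0 : ℝ) ≤ (q : ℝ) := Nat.cast_nonneg q
    simp only [add_re, natCast_re]
    linarith

lemma per_mul {k : ℕ} {c : ℂ} {z a : ℕ → ℂ} {L : ℕ → ℂ → ℂ} (f : Ftc k c z a L) (l : ℕ) :
    ∀ (q : ℕ) (t : ℂ), t ∈ OM → L (l + k * q) t = L l (t + q)
  | 0, t, _ => by simp
  | q + 1, t, h => by
    have e1 : l + k * (q + 1) = (l + k * q) + k := by ring
    rw [e1, f.per (l + k * q) t h, per_mul f l q (t + 1) (by simpa using om_add h 1)]
    congr 1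
    push_cast
    ring

lemma inj_all {k : ℕ} {c : ℂ} {z a : ℕ → ℂ} {L : ℕ → ℂ → ℂ} (hk : 1 ≤ k)
    (f : Ftc k c z a L) (l : ℕ) {t s : ℂ} (ht : t ∈ OM) (hs : s ∈ OM) (e : L l t = L l s) :
    t = s := by
  have hlt : l % k < k := Nat.mod_lt _ hk
  have el : l = l % k + k * (l / k) := (Nat.mod_add_div l k).symm
  rw [el, per_mul f _ _ t ht, per_mul f _ _ s hs] at e
  have h := (f.inj _ _ hlt hlt _ (om_add ht _) _ (om_add hs _) e).2
  exact add_right_cancel h

end HOM_

open HOM_

theorem p_HOM (h₁ : T_BKL) (h₂ : T_HOD) (h₃ : T_SPR) : T_HOM := by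
  intro k c z a L hP f l t ht
  obtain ⟨s, hs, hst⟩ : ∃ s : ℝ, (s = 1 ∨ s = -1) ∧ 0 < s * t.im := by
    rcases lt_or_gt_of_ne ht with h | h
    · exact ⟨-1, Or.inr rfl, by linarith⟩
    · exact ⟨1, Or.inl rfl, by linarith⟩
  have hsabs : |s| = 1 := by rcases hs with rfl | rfl <;> simp
  have hss : s * s = 1 := by rcases hs with rfl | rfl <;> norm_num
  obtain ⟨M, C, hM, hC, hb⟩ := h₁ k c z a L hP f l (1 / 10) (by norm_num)
  -- the reference point
  set q : ℂ := ⟨10 * M, s * M⟩ with hq
  have qre : q.re = 10 * M := rfl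
  have qim : q.im = s * M := rfl
  have qabs : |q.im| = M := by rw [qim, abs_mul, hsabs, one_mul, abs_of_pos hM]
  have qne : q.im ≠ 0 := by
    intro h
    rw [h, abs_zero] at qabs
    exact hM.ne qabs
  have qnorm : M ≤ ‖q‖ := by
    have := Complex.abs_im_le_norm q
    rwa [qabs] at this
  obtain ⟨o, ho⟩ := hb q qnorm (by rw [qabs, qre]; linarith) (by rw [qabs, qre]; linarith)
  -- the convergence at the reference point
  have hlim : Tendsto (fun n : ℕ => L l (q - n)) atTop (𝓝 (z l)) := by
    have hoinf : Tendsto (fun n : ℕ => ‖o n‖) atTop atTop := by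
      have h0 : Tendsto (fun n : ℕ => (n : ℝ) / C) atTop atTop :=
        tendsto_natCast_atTop_atTop.atTop_div_const (by linarith)
      refine tendsto_atTop_mono (fun n => ?_) h0
      refine le_trans ?_ (ho n).2.2.1
      exact div_le_div_of_nonneg_right (by linarith [norm_nonneg q]) (by linarith)
    have hinv : Tendsto (fun n : ℕ => (o n)⁻¹) atTop (𝓝 0) := by
      rw [tendsto_zero_iff_norm_tendsto_zero]
      refine hoinf.inv_tendsto_atTop.congr (fun n => ?_)
      simp only [Pi.inv_apply, norm_inv]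
    have h1 : Tendsto (fun n : ℕ => z l - (a l)⁻¹ * (o n)⁻¹) atTop (𝓝 (z l)) := by
      simpa using (hinv.const_mul ((a l)⁻¹)).const_sub (z l)
    refine h1.congr (fun n => ?_)
    rw [(ho n).2.1, one_div, mul_inv]
  -- the domain
  set D : Set ℂ := {w : ℂ | 0 < s * w.im} with hD
  have hDo : IsOpen D := isOpen_lt continuous_const (continuous_const.mul continuous_im)
  have hDc : Convex ℝ D := by
    intro x hx y hy u v hu hv huv
    simp only [hD, mem_ofPred_eq] at hx hy ⊢
    have e : s * (u • x + v • y).im = u * (s * x.im) + v * (s * y.im) := by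
      simp
      ring
    rw [e]
    rcases hu.eq_or_lt with h | h
    · subst h
      have : v = 1 := by linarith
      subst this
      simpa using hy
    · have h1 : 0 < u * (s * x.im) := mul_pos h hx
      have h2 : 0 ≤ v * (s * y.im) := mul_nonneg hv hy.le
      linarith
  have hDim : ∀ w ∈ D, ∀ n : ℕ, w - (n : ℂ) ∈ OM := by
    intro w hw n
    refine om_im ?_
    simp only [sub_im, natCast_im, sub_zero]
    intro h
    simp only [hD, mem_ofPred_eq, h, mul_zero, lt_self_iff_false] at hw
  have hqD : q ∈ D := by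
    simp only [hD, mem_ofPred_eq, qim]
    rw [← mul_assoc, hss, one_mul]
    exact hM
  refine (h₃ D (fun n w => L l (w - n)) q (z l) hDo hDc.isPreconnected (fun n => ⟨?_, ?_⟩) hqD
    hlim ?_ t hst).1
  · exact (f.dif l).comp (differentiableOn_id.sub_const _) (fun w hw => hDim w hw n)
  · intro x hx y hy e
    have := inj_all hP.hk f l (hDim x hx n) (hDim y hy n) e
    exact sub_left_injective this
  · refine (h₂ k c z a L hP f l q qne).congr (fun n => ?_)
    rw [deriv_comp_sub_const]

end Pool.Agent.CUSP
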