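import Pool.Agent.CUSP.Targets

/-!
# CUSP-HPM: monotonicity of `t ^ 3 * ‖Q' (t + i Y)‖` for univalent functions on the half plane
-/

set_option autoImplicit false

open Complex Filter Topology Set MeasureTheory
open Pool.Agent.Limb (F)
open Pool.Agent.PLim (Rho)
open Pool.Agent.MEY (Pt)
open Pool.Agent.PSat (Comp Sat)
open Pool.Agent.AEN (vm Hp Exn)

namespace Pool.Agent.CUSP

namespace HPM_

/-- The map of the unit disc onto the half plane. -/
noncomputable def ph (t Y : ℝ) (w : ℂ) : ℂ := t * ((1 + w) / (1 - w)) + Y * I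

theorem one_sub_ne {w : ℂ} (hw : w ∈ Metric.ball (0 : ℂ) 1) : 1 - w ≠ 0 := by
  intro h
  have h1 : w = 1 := (sub_eq_zero.1 h).symm
  rw [h1, mem_ball_zero_iff, norm_one] at hw
  exact lt_irrefl _ hw

theorem isOpen_Hp : IsOpen Hp := isOpen_lt continuous_const Complex.continuous_re

theorem re_frac {w : ℂ} (hw : w ∈ Metric.ball (0 : ℂ) 1) : 0 < ((1 + w) / (1 - w)).re := by
  have h0 := one_sub_ne hw
  have hn : 0 < normSq (1 - w) := normSq_pos.2 h0
  have h1 : ‖w‖ < 1 := by rwa [mem_ball_zero_iff] at hw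
  have h2 : normSq w < 1 := by
    rw [normSq_eq_norm_sq]
    nlinarith [norm_nonneg w]
  rw [div_re, ← add_div]
  apply div_pos _ hn
  rw [normSq_apply] at h2
  simp only [add_re, one_re, sub_re, add_im, one_im, sub_im]
  nlinarith

theorem ph_mem (t Y : ℝ) (ht : 0 < t) {w : ℂ} (hw : w ∈ Metric.ball (0 : ℂ) 1) :
    ph t Y w ∈ Hp := by
  show 0 < (ph t Y w).re
  unfold ph
  rw [add_re, re_ofReal_mul]
  have := mul_pos ht (re_frac hw)
  simpa using this

theorem ph_inj (t Y : ℝ) (ht : 0 < t) : InjOn (ph t Y) (Metric.ball (0 : ℂ) 1) := by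
  intro x hx y hy h
  have hx0 := one_sub_ne hx
  have hy0 := one_sub_ne hy
  have ht0 : (t : ℂ) ≠ 0 := by exact_mod_cast ht.ne'
  unfold ph at h
  have h1 : (1 + x) / (1 - x) = (1 + y) / (1 - y) := mul_left_cancel₀ ht0 (add_right_cancel h)
  rw [div_eq_div_iff hx0 hy0] at h1
  linear_combination h1 / 2

theorem ph_deriv (t Y : ℝ) {w : ℂ} (hw : w ∈ Metric.ball (0 : ℂ) 1) :
    HasDerivAt (ph t Y) (2 * (t : ℂ) / (1 - w) ^ 2) w := by
  have h0 := one_sub_ne hw
  have h1 : HasDerivAt (fun w : ℂ => 1 + w) 1 w := (hasDerivAt_id w).const_add 1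
  have h2 : HasDerivAt (fun w : ℂ => 1 - w) (-1) w := (hasDerivAt_id w).const_sub 1
  have h3 := ((h1.div h2 h0).const_mul (t : ℂ)).add_const (Y * I)
  refine h3.congr_deriv ?_
  field_simp
  ring

theorem ph_deriv2 (t : ℝ) :
    HasDerivAt (fun w : ℂ => 2 * (t : ℂ) / (1 - w) ^ 2) (4 * (t : ℂ)) (0 : ℂ) := by
  have h2 : HasDerivAt (fun w : ℂ => 1 - w) (-1) 0 := (hasDerivAt_id (0 : ℂ)).const_sub 1
  have h3 := (hasDerivAt_const (0 : ℂ) (2 * (t : ℂ))).div (h2.pow 2) (by norm_num)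
  refine h3.congr_deriv ?_
  norm_num
  ring

theorem ph_zero (t Y : ℝ) : ph t Y 0 = t + Y * I := by
  simp [ph]

/-- The inequality for the second derivative. -/
theorem key (h : T_BIE) (Q : ℂ → ℂ) (hQ : DifferentiableOn ℂ Q Hp) (hi : InjOn Q Hp)
    (Y t : ℝ) (ht : 0 < t) :
    ‖(t : ℂ) * deriv (deriv Q) (t + Y * I) + deriv Q (t + Y * I)‖ ≤
      2 * ‖deriv Q (t + Y * I)‖ := by
  have hm : (t + Y * I : ℂ) ∈ Hp := by
    show 0 < (t + Y * I : ℂ).re
    simpa using ht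
  have hQ1 : DifferentiableOn ℂ (deriv Q) Hp := hQ.deriv isOpen_Hp
  have hd : ∀ w ∈ Metric.ball (0 : ℂ) 1, HasDerivAt (fun w => Q (ph t Y w))
      (deriv Q (ph t Y w) * (2 * t / (1 - w) ^ 2)) w := by
    intro w hw
    have h1 : HasDerivAt Q (deriv Q (ph t Y w)) (ph t Y w) :=
      (hQ.differentiableAt (isOpen_Hp.mem_nhds (ph_mem t Y ht hw))).hasDerivAt
    exact h1.comp w (ph_deriv t Y hw)
  have h0 : (0 : ℂ) ∈ Metric.ball (0 : ℂ) 1 := Metric.mem_ball_self one_pos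
  have hb := h (fun w => Q (ph t Y w)) (fun w hw => (hd w hw).differentiableAt.differentiableWithinAt)
    (fun x hx y hy hxy => ph_inj t Y ht hx hy (hi (ph_mem t Y ht hx) (ph_mem t Y ht hy) hxy))
  have he : deriv (fun w => Q (ph t Y w)) =ᶠ[𝓝 0]
      fun w => deriv Q (ph t Y w) * (2 * t / (1 - w) ^ 2) := by
    filter_upwards [Metric.isOpen_ball.mem_nhds h0] with w hw
    exact (hd w hw).deriv
  have h2 : HasDerivAt (fun w : ℂ => deriv Q (ph t Y w) * (2 * t / (1 - w) ^ 2))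
      (deriv (deriv Q) (t + Y * I) * (2 * t) * (2 * t) + deriv Q (t + Y * I) * (4 * t)) 0 := by
    have h3 : HasDerivAt (deriv Q) (deriv (deriv Q) (ph t Y 0)) (ph t Y 0) :=
      (hQ1.differentiableAt (isOpen_Hp.mem_nhds (ph_mem t Y ht h0))).hasDerivAt
    have h4 := (h3.comp (0 : ℂ) (ph_deriv t Y h0)).mul (ph_deriv2 t)
    refine h4.congr_deriv ?_
    simp only [ph_zero, Function.comp]
    norm_num
  rw [he.deriv_eq, h2.deriv, he.eq_of_nhds, ph_zero] at hb
  have h5 : deriv (deriv Q) (t + Y * I) * (2 * t) * (2 * t) + deriv Q (t + Y * I) * (4 * t) =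
      (4 * t : ℝ) * ((t : ℂ) * deriv (deriv Q) (t + Y * I) + deriv Q (t + Y * I)) := by
    push_cast
    ring
  have h6 : deriv Q (t + Y * I) * (2 * t / (1 - 0) ^ 2) = (2 * t : ℝ) * deriv Q (t + Y * I) := by
    push_cast
    ring
  rw [h5, h6, norm_mul, norm_mul, norm_real, norm_real, Real.norm_of_nonneg (by positivity),
    Real.norm_of_nonneg (by positivity)] at hb
  have h7 : 4 * t * ‖(t : ℂ) * deriv (deriv Q) (t + Y * I) + deriv Q (t + Y * I)‖ ≤
      4 * t * (2 * ‖deriv Q (t + Y * I)‖) := by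
    linarith
  exact le_of_mul_le_mul_left h7 (by positivity)

end HPM_

open HPM_ in
/-- Univalent functions on the half plane. -/
theorem p_HPM (h : T_BIE) : T_HPM := by
  intro Q hQ hi Y t t' ht htt
  have hQ1 : DifferentiableOn ℂ (deriv Q) Hp := hQ.deriv isOpen_Hp
  have hq : ∀ s : ℝ, 0 < s → HasDerivAt (fun s : ℝ => deriv Q (s + Y * I))
      (deriv (deriv Q) (s + Y * I)) s := by
    intro s hs
    have hm : (s + Y * I : ℂ) ∈ Hp := by
      show 0 < (s + Y * I : ℂ).re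
      simpa using hs
    have h1 : HasDerivAt (deriv Q) (deriv (deriv Q) (s + Y * I)) (s + Y * I) :=
      (hQ1.differentiableAt (isOpen_Hp.mem_nhds hm)).hasDerivAt
    have h2 : HasDerivAt (fun z : ℂ => deriv Q (z + Y * I)) (deriv (deriv Q) (s + Y * I)) s := by
      have h3 := h1.comp (s : ℂ) ((hasDerivAt_id (s : ℂ)).add_const (Y * I))
      rw [mul_one] at h3
      exact h3
    exact h2.comp_ofReal
  have hu : ∀ s : ℝ, 0 < s → HasDerivAt (fun s : ℝ => s ^ 6 * ‖deriv Q (s + Y * I)‖ ^ 2)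
      (6 * s ^ 5 * ‖deriv Q (s + Y * I)‖ ^ 2 +
        s ^ 6 * (2 * inner ℝ (deriv Q (s + Y * I)) (deriv (deriv Q) (s + Y * I)))) s := by
    intro s hs
    have h1 : HasDerivAt (fun s : ℝ => s ^ 6) (6 * s ^ 5) s := by
      simpa using hasDerivAt_pow 6 s
    exact h1.mul (hq s hs).norm_sq
  have hmono : MonotoneOn (fun s : ℝ => s ^ 6 * ‖deriv Q (s + Y * I)‖ ^ 2) (Ioi 0) := by
    refine monotoneOn_of_deriv_nonneg (convex_Ioi 0) ?_ ?_ ?_
    · intro s hs
      exact (hu s hs).continuousAt.continuousWithinAt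
    · intro s hs
      rw [interior_Ioi] at hs
      exact (hu s hs).differentiableAt.differentiableWithinAt
    · intro s hs
      rw [interior_Ioi] at hs
      have hs' : (0 : ℝ) < s := hs
      rw [(hu s hs).deriv]
      have hk := key h Q hQ hi Y s hs
      set q := deriv Q (s + Y * I) with hqdef
      set q' := deriv (deriv Q) (s + Y * I) with hq'def
      have h1 : |inner ℝ q ((s : ℂ) * q' + q)| ≤ ‖q‖ * ‖(s : ℂ) * q' + q‖ :=
        abs_real_inner_le_norm _ _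
      have h2 : inner ℝ q ((s : ℂ) * q' + q) = s * inner ℝ q q' + ‖q‖ ^ 2 := by
        rw [inner_add_right, real_inner_self_eq_norm_sq]
        congr 1
        have : (s : ℂ) * q' = s • q' := by rw [real_smul]
        rw [this, real_inner_smul_right]
      have h3 := (abs_le.1 h1).1
      rw [h2] at h3
      have h4 : ‖q‖ * ‖(s : ℂ) * q' + q‖ ≤ ‖q‖ * (2 * ‖q‖) :=
        mul_le_mul_of_nonneg_left hk (norm_nonneg _)
      have h5 : 0 ≤ 3 * ‖q‖ ^ 2 + s * inner ℝ q q' := by nlinarith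
      have h6 : 6 * s ^ 5 * ‖q‖ ^ 2 + s ^ 6 * (2 * inner ℝ q q') =
          2 * s ^ 5 * (3 * ‖q‖ ^ 2 + s * inner ℝ q q') := by ring
      rw [h6]
      positivity
  have h1 := hmono (show t ∈ Ioi (0 : ℝ) from ht) (show t' ∈ Ioi (0 : ℝ) from ht.trans_le htt) htt
  have h2 : (t ^ 3 * ‖deriv Q (t + Y * I)‖) ^ 2 ≤ (t' ^ 3 * ‖deriv Q (t' + Y * I)‖) ^ 2 := by
    have e1 : (t ^ 3 * ‖deriv Q (t + Y * I)‖) ^ 2 = t ^ 6 * ‖deriv Q (t + Y * I)‖ ^ 2 := by ring
    have e2 : (t' ^ 3 * ‖deriv Q (t' + Y * I)‖) ^ 2 =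
        t' ^ 6 * ‖deriv Q (t' + Y * I)‖ ^ 2 := by ring
    rw [e1, e2]
    exact h1
  have ht' : 0 < t' := ht.trans_le htt
  exact (pow_le_pow_iff_left₀ (by positivity) (by positivity) two_ne_zero).1 h2

end Pool.Agent.CUSP
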