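import Pool.Agent.CUSP.Targets

/-!
# CUSP-HRK: the inequality of Harnack for functions without zeros
-/

set_option autoImplicit false

open Complex Filter Topology Set MeasureTheory
open Pool.Agent.Limb (F)
open Pool.Agent.PLim (Rho)
open Pool.Agent.MEY (Pt)
open Pool.Agent.PSat (Comp Sat)
open Pool.Agent.AEN (vm Hp Exn)

namespace Pool.Agent.CUSP

namespace HRK_

/-- A holomorphic logarithm on a disc. -/
theorem exists_log (a : ℂ) (R : ℝ) (y : ℂ → ℂ) (hR : 0 < R)
    (hd : DifferentiableOn ℂ y (Metric.ball a R)) (h0 : ∀ x ∈ Metric.ball a R, y x ≠ 0) :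
    ∃ v : ℂ → ℂ, DifferentiableOn ℂ v (Metric.ball a R) ∧
      ∀ x ∈ Metric.ball a R, y x = exp (v x) := by
  have hdy : DifferentiableOn ℂ (deriv y) (Metric.ball a R) := hd.deriv Metric.isOpen_ball
  have hq : DifferentiableOn ℂ (fun x => deriv y x / y x) (Metric.ball a R) :=
    hdy.div hd h0
  obtain ⟨v, hva, hv⟩ := hq.isExactOn_ball.with_val_at a (log (y a))
  have ha : a ∈ Metric.ball a R := Metric.mem_ball_self hR
  refine ⟨v, fun x hx => (hv x hx).differentiableAt.differentiableWithinAt, ?_⟩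
  intro x hx
  have h1 : ∀ t ∈ Metric.ball a R, HasDerivWithinAt (fun t => y t * exp (-v t)) 0
      (Metric.ball a R) t := by
    intro t ht
    have h2 : HasDerivAt y (deriv y t) t :=
      (hd.differentiableAt (Metric.isOpen_ball.mem_nhds ht)).hasDerivAt
    have h3 := h2.mul ((hv t ht).neg.cexp)
    have h4 : deriv y t * exp (-v t) + y t * (exp (-v t) * -(deriv y t / y t)) = 0 := by
      have h5 := h0 t ht
      field_simp
      ring
    have h6 : HasDerivAt (fun t => y t * exp (-v t))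
        (deriv y t * exp (-v t) + y t * (exp (-v t) * -(deriv y t / y t))) t := h3
    rw [h4] at h6
    exact h6.hasDerivWithinAt
  have h2 := (convex_ball a R).norm_image_sub_le_of_norm_hasDerivWithin_le (C := 0) h1
    (fun t _ => by simp) ha hx
  rw [zero_mul, norm_le_zero_iff, sub_eq_zero, hva] at h2
  simp only [exp_neg] at h2
  rw [exp_log (h0 a ha), mul_inv_cancel₀ (h0 a ha)] at h2
  exact (mul_inv_eq_one₀ (exp_ne_zero _)).mp h2

/-- The algebra of the half plane. -/
theorem alg {p q : ℂ} (h : ‖p - q‖ ≤ 1 / 2 * ‖p + (starRingEnd ℂ) q‖) :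
    3 * (p.re - q.re) ^ 2 ≤ 4 * (p.re * q.re) := by
  have h1 : ‖p - q‖ ^ 2 ≤ (1 / 2 * ‖p + (starRingEnd ℂ) q‖) ^ 2 :=
    pow_le_pow_left₀ (norm_nonneg _) h 2
  rw [mul_pow, ← normSq_eq_norm_sq, ← normSq_eq_norm_sq, normSq_apply, normSq_apply] at h1
  simp only [sub_re, sub_im, add_re, add_im, conj_re, conj_im] at h1
  nlinarith [sq_nonneg (p.im - q.im)]

theorem half {p q : ℂ} (hp : p.re < 0) (hq : q.re < 0) :
    ‖(p - q) / (p + (starRingEnd ℂ) q)‖ ≤ 1 := by
  have hne : p + (starRingEnd ℂ) q ≠ 0 := by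
    intro h
    have := congrArg re h
    simp only [add_re, conj_re, zero_re] at this
    linarith
  rw [norm_div, div_le_one (norm_pos_iff.mpr hne)]
  refine le_of_sq_le_sq ?_ (norm_nonneg _)
  rw [← normSq_eq_norm_sq, ← normSq_eq_norm_sq, normSq_apply, normSq_apply]
  simp only [sub_re, sub_im, add_re, add_im, conj_re, conj_im]
  nlinarith [mul_pos_of_neg_of_neg hp hq]

theorem strict (a : ℂ) (R M : ℝ) (y : ℂ → ℂ) (hR : 0 < R) (hM : 0 < M)
    (hd : DifferentiableOn ℂ y (Metric.ball a R))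
    (h : ∀ x ∈ Metric.ball a R, y x ≠ 0 ∧ ‖y x‖ < M) (x : ℂ) (hx : ‖x - a‖ ≤ R / 2) :
    ‖y x‖ ^ 3 ≤ M ^ 2 * ‖y a‖ ∧ ‖y a‖ ^ 3 ≤ M ^ 2 * ‖y x‖ := by
  obtain ⟨v, hvd, hv⟩ := exists_log a R y hR hd fun x hx => (h x hx).1
  set w : ℂ → ℂ := fun x => v x - (Real.log M : ℂ) with hw
  have hwd : DifferentiableOn ℂ w (Metric.ball a R) := hvd.sub_const _
  have hnorm : ∀ x ∈ Metric.ball a R, ‖y x‖ = M * Real.exp (w x).re := by
    intro x hx
    rw [hv x hx, norm_exp]
    have h1 : (w x).re = (v x).re - Real.log M := by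
      simp only [hw, sub_re, ofReal_re]
    rw [h1, Real.exp_sub, Real.exp_log hM]
    field_simp
  have hneg : ∀ x ∈ Metric.ball a R, (w x).re < 0 := by
    intro x hx
    have h1 := (h x hx).2
    rw [hnorm x hx] at h1
    have h2 : Real.exp (w x).re < 1 := by
      by_contra h3
      have h4 : M * 1 ≤ M * Real.exp (w x).re :=
        mul_le_mul_of_nonneg_left (not_lt.mp h3) hM.le
      linarith
    exact Real.exp_lt_one_iff.mp h2
  have ha : a ∈ Metric.ball a R := Metric.mem_ball_self hR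
  have hxb : x ∈ Metric.ball a R := by
    rw [Metric.mem_ball, dist_eq_norm]
    linarith
  set f : ℂ → ℂ := fun x => (w x - w a) / (w x + (starRingEnd ℂ) (w a)) with hf
  have hne : ∀ x ∈ Metric.ball a R, w x + (starRingEnd ℂ) (w a) ≠ 0 := by
    intro x hx h1
    have := congrArg re h1
    simp only [add_re, conj_re, zero_re] at this
    have h2 := hneg x hx
    have h3 := hneg a ha
    linarith
  have hfd : DifferentiableOn ℂ f (Metric.ball a R) :=
    (hwd.sub_const _).div (hwd.add_const _) hne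
  have hfa : f a = 0 := by simp [hf]
  have hmaps : MapsTo f (Metric.ball a R) (Metric.closedBall (f a) 1) := by
    intro t ht
    rw [hfa, mem_closedBall_zero_iff]
    exact half (hneg t ht) (hneg a ha)
  have hS := Complex.dist_le_div_mul_dist_of_mapsTo_ball hfd hmaps hxb
  rw [hfa, dist_zero_right, dist_eq_norm] at hS
  have hS2 : ‖f x‖ ≤ 1 / 2 := by
    refine hS.trans ?_
    rw [one_div, inv_mul_le_iff₀ hR]
    linarith
  have hS3 : ‖w x - w a‖ ≤ 1 / 2 * ‖w x + (starRingEnd ℂ) (w a)‖ := by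
    have h1 : ‖f x‖ = ‖w x - w a‖ / ‖w x + (starRingEnd ℂ) (w a)‖ := norm_div _ _
    rw [h1, div_le_iff₀ (norm_pos_iff.mpr (hne x hxb))] at hS2
    exact hS2
  have hA := alg hS3
  have hp := hneg x hxb
  have hq := hneg a ha
  have h1 : 3 * (w x).re ≤ (w a).re := by
    by_contra hc
    have hc' := not_le.mp hc
    nlinarith
  have h2 : 3 * (w a).re ≤ (w x).re := by
    by_contra hc
    have hc' := not_le.mp hc
    nlinarith
  rw [hnorm x hxb, hnorm a ha]
  have h3 : Real.exp (w x).re ^ 3 = Real.exp (3 * (w x).re) := by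
    rw [← Real.exp_nat_mul]
    norm_num
  have h4 : Real.exp (w a).re ^ 3 = Real.exp (3 * (w a).re) := by
    rw [← Real.exp_nat_mul]
    norm_num
  have hM3 : 0 ≤ M ^ 3 := by positivity
  constructor
  · calc (M * Real.exp (w x).re) ^ 3 = M ^ 3 * Real.exp (3 * (w x).re) := by
          rw [mul_pow, h3]
      _ ≤ M ^ 3 * Real.exp (w a).re :=
          mul_le_mul_of_nonneg_left (Real.exp_le_exp.mpr h1) hM3
      _ = M ^ 2 * (M * Real.exp (w a).re) := by ring
  · calc (M * Real.exp (w a).re) ^ 3 = M ^ 3 * Real.exp (3 * (w a).re) := by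
          rw [mul_pow, h4]
      _ ≤ M ^ 3 * Real.exp (w x).re :=
          mul_le_mul_of_nonneg_left (Real.exp_le_exp.mpr h2) hM3
      _ = M ^ 2 * (M * Real.exp (w x).re) := by ring

end HRK_

open HRK_

theorem p_HRK : T_HRK := by
  intro a R M y hR hM hd h x hx
  have hlim : ∀ c : ℝ, Tendsto (fun M' : ℝ => M' ^ 2 * c) (𝓝[>] M) (𝓝 (M ^ 2 * c)) := by
    intro c
    have h1 : Continuous fun M' : ℝ => M' ^ 2 * c := by fun_prop
    exact (h1.tendsto M).mono_left nhdsWithin_le_nhds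
  have hev : ∀ᶠ M' : ℝ in 𝓝[>] M, ‖y x‖ ^ 3 ≤ M' ^ 2 * ‖y a‖ ∧ ‖y a‖ ^ 3 ≤ M' ^ 2 * ‖y x‖ := by
    filter_upwards [self_mem_nhdsWithin] with M' hM'
    have hM'' : M < M' := hM'
    exact strict a R M' y hR (hM.trans hM'') hd
      (fun t ht => ⟨(h t ht).1, (h t ht).2.trans_lt hM''⟩) x hx
  exact ⟨ge_of_tendsto (hlim _) (hev.mono fun _ h => h.1),
    ge_of_tendsto (hlim _) (hev.mono fun _ h => h.2)⟩

end Pool.Agent.CUSP
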