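import Pool.Agent.CUSP.Targets

/-!
# CUSP: the initial sector (T_INI)
-/

set_option autoImplicit false

open Complex Filter Topology Set MeasureTheory
open Pool.Agent.Limb (F)
open Pool.Agent.PLim (Rho)
open Pool.Agent.MEY (Pt)
open Pool.Agent.PSat (Comp Sat)
open Pool.Agent.AEN (vm Hp Exn)

namespace Pool.Agent.CUSP

namespace INI_

lemma diffF (c : ℂ) : Differentiable ℂ (F 2 c) := by
  unfold F
  fun_prop

lemma diffIter (c : ℂ) (k : ℕ) : Differentiable ℂ ((F 2 c)^[k]) :=
  (diffF c).iterate k

end INI_

open INI_ in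
theorem p_INI (h₁ : T_FAT) (h₂ : T_AST) : T_INI := by
  intro k c z a hP l
  have hfix : (F 2 c)^[k] (z l) = z l := (h₂ k c z a hP l).2.2.2.1
  have hd := diffIter c k
  have e1 : deriv (fun u : ℂ => (F 2 c)^[k] (z l + u) - z l) =
      fun u => deriv ((F 2 c)^[k]) (z l + u) := by
    funext u
    rw [deriv_sub_const, deriv_comp_const_add]
  obtain ⟨T, lam, hT, hdif, hinj, heq, hasy⟩ :=
    h₁ (fun u => (F 2 c)^[k] (z l + u) - z l) (a l) 1 one_pos (hP.ane l)
      (by
        apply Differentiable.differentiableOn
        exact (hd.comp (differentiable_const _ |>.add differentiable_id)).sub_const _)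
      (by simp only [add_zero, hfix, sub_self])
      (by
        rw [e1]
        simp only [add_zero]
        exact hP.mul l)
      (by
        rw [e1, deriv_comp_const_add, add_zero]
        exact hP.sec l)
  refine ⟨T, fun t => z l + lam t, hT, ?_, ?_, ?_, ?_⟩
  · exact hdif.const_add (z l)
  · intro s hs t ht hst
    exact hinj hs ht (add_left_cancel hst)
  · intro t ht
    have h3 := (heq t ht).2
    rw [← h3]
    ring
  · intro ε hε
    obtain ⟨T', hT'⟩ := hasy ε hε
    refine ⟨T', fun t ht hre => ?_⟩
    have h4 := hT' t ht hre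
    have h5 : deriv (fun t => z l + lam t) t = deriv lam t := by
      rw [deriv_const_add]
    rw [h5]
    simp only [add_sub_cancel_left]
    exact h4

end Pool.Agent.CUSP
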