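import Pool.Agent.CUSP.Targets

/-!
# CUSP, target LFT: lifts through the iterates over convex sets
-/

set_option autoImplicit false

open Complex Filter Topology Set MeasureTheory
open Pool.Agent.Limb (F)
open Pool.Agent.PLim (Rho)
open Pool.Agent.MEY (Pt)
open Pool.Agent.PSat (Comp Sat)
open Pool.Agent.AEN (vm Hp Exn)

namespace Pool.Agent.CUSP

namespace LFT_

/-- a continuous square root of a holomorphic function without zeros is holomorphic -/
theorem diff_sqrt {W : Set ℂ} (hW : IsOpen W) {f s : ℂ → ℂ} (hf : DifferentiableOn ℂ f W)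
    (hs : ContinuousOn s W) (h0 : ∀ t ∈ W, f t ≠ 0) (hsf : ∀ t ∈ W, s t ^ 2 = f t) :
    DifferentiableOn ℂ s W := by
  intro t ht
  have hst : s t ≠ 0 := by
    intro h
    exact h0 t ht (by rw [← hsf t ht, h]; ring)
  have hWt : W ∈ 𝓝 t := hW.mem_nhds ht
  have hc : ContinuousAt s t := hs.continuousAt hWt
  have hd : HasDerivAt f (deriv f t) t := (hf.differentiableAt hWt).hasDerivAt
  have h1 : HasDerivAt s (deriv f t / (s t + s t)) t := by
    rw [hasDerivAt_iff_tendsto_slope] at hd ⊢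
    have h2 : Tendsto (fun x => s x + s t) (𝓝[≠] t) (𝓝 (s t + s t)) :=
      ((hc.tendsto.mono_left nhdsWithin_le_nhds).add_const _)
    have h3 : s t + s t ≠ 0 := by
      rw [← two_mul]
      exact mul_ne_zero two_ne_zero hst
    refine (hd.div h2 h3).congr' ?_
    have h4 : ∀ᶠ x in 𝓝[≠] t, s x + s t ≠ 0 := h2.eventually_ne h3
    have h5 : ∀ᶠ x in 𝓝[≠] t, x ∈ W := nhdsWithin_le_nhds hWt
    have h6 : ∀ᶠ x in 𝓝[≠] t, x ≠ t := self_mem_nhdsWithin
    filter_upwards [h4, h5, h6] with x a1 a2 a3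
    have a4 : x - t ≠ 0 := sub_ne_zero.2 a3
    change slope f t x / (s x + s t) = slope s t x
    rw [slope_def_field, slope_def_field, ← hsf x a2, ← hsf t ht]
    field_simp
    ring
  exact h1.differentiableAt.differentiableWithinAt

/-- square roots on convex open sets -/
theorem ex_sqrt {W : Set ℂ} (hW : IsOpen W) (hc : Convex ℝ W) {f : ℂ → ℂ}
    (hf : DifferentiableOn ℂ f W) (h0 : ∀ t ∈ W, f t ≠ 0) {t0 : ℂ} (ht0 : t0 ∈ W) :
    ∃ s : ℂ → ℂ, DifferentiableOn ℂ s W ∧ ∀ t ∈ W, s t ^ 2 = f t := by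
  have hne : W.Nonempty := ⟨t0, ht0⟩
  have hsc : IsSimplyConnected W := by
    have : ContractibleSpace W := hc.contractibleSpace hne
    exact (inferInstance : SimplyConnectedSpace W)
  obtain ⟨s, hs, hs2⟩ := Complex.exists_continuousOn_pow_eq hsc hW hf.continuousOn
    (by rintro ⟨t, ht, h⟩; exact h0 t ht h) (n := 2) two_ne_zero
  exact ⟨s, diff_sqrt hW hf hs h0 (fun t _ => hs2 t), fun t _ => hs2 t⟩

end LFT_

open LFT_ in
theorem p_LFT : T_LFT := by
  intro c m
  induction m with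
  | zero =>
    intro W h hW hc hh _ t0 ht0 z0 hz0
    exact ⟨h, hh, hz0.symm, fun t _ => rfl⟩
  | succ m ih =>
    intro W h hW hc hh hav t0 ht0 z0 hz0
    obtain ⟨s, hs, hs2⟩ := ex_sqrt hW hc (f := fun t => h t - c) (hh.sub_const c)
      (fun t ht h0 => hav t ht 0 (by omega) (by
        rw [Function.iterate_zero, id]
        exact sub_eq_zero.1 h0)) ht0
    rw [Function.iterate_succ_apply'] at hz0
    have hy : ((F 2 c)^[m] z0) ^ 2 = s t0 ^ 2 := by
      rw [hs2 t0 ht0, ← hz0]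
      simp [F]
    -- adjust the sign
    obtain ⟨s', hs', hs2', hst⟩ : ∃ s' : ℂ → ℂ, DifferentiableOn ℂ s' W ∧
        (∀ t ∈ W, s' t ^ 2 = h t - c) ∧ (F 2 c)^[m] z0 = s' t0 := by
      rcases sq_eq_sq_iff_eq_or_eq_neg.1 hy with h1 | h1
      · exact ⟨s, hs, hs2, h1⟩
      · exact ⟨fun t => -s t, hs.neg, fun t ht => by rw [neg_sq]; exact hs2 t ht, h1⟩
    have hF : ∀ t ∈ W, F 2 c (s' t) = h t := by
      intro t ht
      unfold F
      rw [hs2' t ht]
      ring
    obtain ⟨g, hg, hg0, hgm⟩ := ih W s' hW hc hs' (fun t ht j hj hcon => by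
      refine hav t ht (j + 1) (by omega) ?_
      rw [Function.iterate_succ_apply', ← hcon, hF t ht]) t0 ht0 z0 hst
    refine ⟨g, hg, hg0, fun t ht => ?_⟩
    rw [Function.iterate_succ_apply', hgm t ht, hF t ht]

end Pool.Agent.CUSP
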