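import Pool.Agent.CUSP.Targets

set_option autoImplicit false

open Complex Filter Topology Set MeasureTheory
open Pool.Agent.Limb (F)
open Pool.Agent.PLim (Rho)
open Pool.Agent.MEY (Pt)
open Pool.Agent.PSat (Comp Sat)
open Pool.Agent.AEN (vm Hp Exn)

namespace Pool.Agent.CUSP

theorem LFU_.diff (c : ℂ) (m : ℕ) : Differentiable ℂ ((F 2 c)^[m]) := by
  have h : Differentiable ℂ (F 2 c) := by
    unfold F
    fun_prop
  exact h.iterate m

/-- a function with nonzero strict derivative is injective near the point -/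
theorem LFU_.loc {f : ℂ → ℂ} {x0 : ℂ} (hf : Differentiable ℂ f) (h0 : deriv f x0 ≠ 0) :
    ∀ᶠ p : ℂ × ℂ in 𝓝 (x0, x0), f p.1 = f p.2 → p.1 = p.2 := by
  have h1 : HasStrictDerivAt f (deriv f x0) x0 := (hf.analyticAt x0).hasStrictDerivAt
  have h2 := h1.hasStrictFDerivAt.isLittleO.def (c := ‖deriv f x0‖ / 2)
    (by have := norm_pos_iff.mpr h0; positivity)
  filter_upwards [h2] with p hp he
  by_contra hne
  have h3 : 0 < ‖p.1 - p.2‖ := norm_pos_iff.mpr (sub_ne_zero.mpr hne)
  have h4 : 0 < ‖deriv f x0‖ := norm_pos_iff.mpr h0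
  rw [he, sub_self, zero_sub, norm_neg] at hp
  simp only [ContinuousLinearMap.toSpanSingleton_apply, smul_eq_mul, norm_mul] at hp
  nlinarith

theorem p_LFU : T_LFU := by
  intro c m W g g' t0 hW hg hg' hf ht0 he
  have : PreconnectedSpace W := isPreconnected_iff_preconnectedSpace.mp hW
  have hgc : Continuous (fun t : W => g t) := continuousOn_iff_continuous_restrict.mp hg
  have hgc' : Continuous (fun t : W => g' t) := continuousOn_iff_continuous_restrict.mp hg'
  have hcl : IsClosed {t : W | g t = g' t} := isClosed_eq hgc hgc'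
  have hop : IsOpen {t : W | g t = g' t} := by
    rw [isOpen_iff_mem_nhds]
    intro t ht
    have ht' : g t = g' t := ht
    have h1 := LFU_.loc (LFU_.diff c m) (hf t t.2).2
    have h2 : Tendsto (fun s : W => (g s, g' s)) (𝓝 t) (𝓝 (g t, g t)) := by
      have h3 : Tendsto (fun s : W => (g s, g' s)) (𝓝 t) (𝓝 (g t, g' t)) :=
        (hgc.prodMk hgc').tendsto t
      rwa [← ht'] at h3
    filter_upwards [h2.eventually h1] with s hs
    exact hs (hf s s.2).1
  have huniv : {t : W | g t = g' t} = Set.univ := by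
    rcases isClopen_iff.mp ⟨hcl, hop⟩ with h | h
    · exact absurd (show (⟨t0, ht0⟩ : W) ∈ {t : W | g t = g' t} from he) (by simp [h])
    · exact h
  intro t ht
  have h3 : (⟨t, ht⟩ : W) ∈ {t : W | g t = g' t} := by rw [huniv]; exact Set.mem_univ _
  exact h3

end Pool.Agent.CUSP
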