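import Pool.Agent.CUSP.Targets2

/-!
# CUSP: LMA (Lemma A)
-/

set_option autoImplicit false

open Complex Filter Topology Set MeasureTheory Metric
open Pool.Agent.Limb (F)

namespace Pool.Agent.CUSP

/-- The displacement has a small derivative. -/
lemma lma_lip {C R s : ℝ} {ζ : ℂ} {G : ℂ → ℂ} (hC : 0 ≤ C) (hR : 0 < R) (hs : 0 < s)
    (h4 : 4 * s ≤ R) (hd : DifferentiableOn ℂ G (ball ζ R))
    (hb : ∀ x : ℂ, ‖x - ζ‖ ≤ R / 2 → ‖G x - x‖ ≤ C * ‖x - ζ‖ ^ 2 / R) {x y : ℂ}
    (hx : ‖x - ζ‖ < s) (hy : ‖y - ζ‖ < s) :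
    ‖(G x - x) - (G y - y)‖ ≤ 4 * C * s / R * ‖x - y‖ := by
  have hsub : ball ζ s ⊆ ball ζ R := ball_subset_ball (by linarith)
  have hdd : DifferentiableOn ℂ (fun w => G w - w) (ball ζ R) :=
    hd.sub differentiableOn_id
  have key : ∀ w ∈ ball ζ s, ‖deriv (fun w => G w - w) w‖ ≤ 4 * C * s / R := by
    intro w hw
    have hw' : ‖w - ζ‖ < s := by rwa [mem_ball, dist_eq_norm] at hw
    have hcl : closedBall w s ⊆ ball ζ R := by
      intro v hv
      rw [mem_closedBall, dist_eq_norm] at hv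
      rw [mem_ball, dist_eq_norm]
      have : ‖v - ζ‖ ≤ ‖v - w‖ + ‖w - ζ‖ := by
        have := norm_add_le (v - w) (w - ζ)
        simpa using this
      linarith
    have h1 : ‖deriv (fun w => G w - w) w‖ ≤ (C * (2 * s) ^ 2 / R) / s := by
      refine Complex.norm_deriv_le_of_forall_mem_sphere_norm_le hs ?_ ?_
      · exact hdd.diffContOnCl_ball hcl
      · intro v hv
        rw [mem_sphere, dist_eq_norm] at hv
        have h2 : ‖v - ζ‖ ≤ 2 * s := by
          have := norm_add_le (v - w) (w - ζ)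
          have h3 : v - w + (w - ζ) = v - ζ := by ring
          rw [h3] at this
          linarith
        refine (hb v (by linarith)).trans ?_
        gcongr
    refine h1.trans (le_of_eq ?_)
    field_simp
    ring
  have hconv : Convex ℝ (ball ζ s) := convex_ball _ _
  have := hconv.norm_image_sub_le_of_norm_deriv_le (f := fun w => G w - w)
    (C := 4 * C * s / R) (x := y) (y := x)
    (fun w hw => (hdd.differentiableAt (isOpen_ball.mem_nhds (hsub hw)))) key
    (by rwa [mem_ball, dist_eq_norm]) (by rwa [mem_ball, dist_eq_norm])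
  exact this

/-- Uniqueness of the sequences of branches. -/
lemma lma_uni (hLFU : T_LFU) (hCRV : T_CRV) {k : ℕ} {c p : ℂ} {ρ : ℝ} {G : ℂ → ℂ}
    {g g' : ℕ → ℂ → ℂ} (hρ : 0 < ρ) (hfree : ∀ x ∈ ball p ρ, ∀ j : ℕ, x ≠ (F 2 c)^[j] c)
    (hG : G p ∈ ball p ρ)
    (h0 : ∀ x ∈ ball p ρ, g 0 x = x) (h0' : ∀ x ∈ ball p ρ, g' 0 x = x)
    (hd : ∀ n, DifferentiableOn ℂ (g n) (ball p ρ) ∧ ∀ x ∈ ball p ρ, (F 2 c)^[k * n] (g n x) = x)
    (hd' : ∀ n, DifferentiableOn ℂ (g' n) (ball p ρ) ∧
      ∀ x ∈ ball p ρ, (F 2 c)^[k * n] (g' n x) = x)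
    (hs : ∀ n, g (n + 1) p = g n (G p)) (hs' : ∀ n, g' (n + 1) p = g' n (G p)) :
    ∀ n, EqOn (g n) (g' n) (ball p ρ) := by
  intro n
  induction n with
  | zero =>
    intro x hx
    rw [h0 x hx, h0' x hx]
  | succ n ih =>
    refine hLFU c (k * (n + 1)) (ball p ρ) (g (n + 1)) (g' (n + 1)) p
      (convex_ball _ _).isPreconnected (hd (n + 1)).1.continuousOn (hd' (n + 1)).1.continuousOn
      ?_ (mem_ball_self hρ) ?_
    · intro t ht
      have h1 := (hd (n + 1)).2 t ht
      refine ⟨by rw [h1, (hd' (n + 1)).2 t ht], ?_⟩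
      refine (hCRV c (k * (n + 1)) (g (n + 1) t)).2 ?_
      intro j _
      rw [h1]
      exact hfree t ht j
    · rw [hs n, hs' n]
      exact ih hG

theorem p_LMA (hACA : T_ACA) (hACB : T_ACB) (hCOR : T_COR) (hGBR : T_GBR) (hSML : T_SML)
    (hSHF : T_SHF) (hTLE : T_TLE) (hLFU : T_LFU) (hCRV : T_CRV) (hXPR : T_XPR) : T_LMA := by
  obtain ⟨C0, hC0, hG0⟩ := hGBR
  obtain ⟨C1, hC1, hT1⟩ := hTLE
  obtain ⟨e1, η1, he1, hη1, hA⟩ := hACA C0 hC0
  obtain ⟨e2, η2, he2, hη2, hB⟩ := hACB C0 hC0
  obtain ⟨e0, he0, he01, he02, he03⟩ : ∃ e0 : ℝ, 0 < e0 ∧ e0 ≤ e1 ∧ e0 ≤ e2 ∧ e0 ≤ 1 :=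
    ⟨min (min e1 e2) 1, by positivity, (min_le_left _ _).trans (min_le_left _ _),
      (min_le_left _ _).trans (min_le_right _ _), min_le_right _ _⟩
  obtain ⟨T, hT⟩ : ∃ T : ℝ, T = 4 * C1 ^ 3 / e0 + 1 := ⟨_, rfl⟩
  obtain ⟨η3, hη3, hS⟩ := hSML C0 T hC0
  obtain ⟨η4, hη4, hH⟩ := hSHF C0 hC0
  have hC00 : 0 < C0 := by linarith
  have hC10 : 0 < C1 := by linarith
  have hTpos : 1 ≤ T := by
    have : 0 ≤ 4 * C1 ^ 3 / e0 := by positivity
    linarith
  obtain ⟨η, hη, h16, h5a, h5b, h2c, h2d, hec⟩ : ∃ η : ℝ, 0 < η ∧ η ≤ 1 / 32 ∧ 5 * η ≤ η1 ∧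
      5 * η ≤ η2 ∧ 2 * η ≤ η3 ∧ 2 * η ≤ η4 ∧ 200 * C0 * η ≤ e0 := by
    refine ⟨min (min (min (1 / 32) (η1 / 5)) (min (η2 / 5) (η3 / 2))) (min (η4 / 2)
      (e0 / (200 * C0))), by positivity, ?_, ?_, ?_, ?_, ?_, ?_⟩
    · exact (min_le_left _ _).trans ((min_le_left _ _).trans (min_le_left _ _))
    · have : min (min (min (1 / 32) (η1 / 5)) (min (η2 / 5) (η3 / 2))) (min (η4 / 2)
        (e0 / (200 * C0))) ≤ η1 / 5 :=
        (min_le_left _ _).trans ((min_le_left _ _).trans (min_le_right _ _))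
      linarith
    · have : min (min (min (1 / 32) (η1 / 5)) (min (η2 / 5) (η3 / 2))) (min (η4 / 2)
        (e0 / (200 * C0))) ≤ η2 / 5 :=
        (min_le_left _ _).trans ((min_le_right _ _).trans (min_le_left _ _))
      linarith
    · have : min (min (min (1 / 32) (η1 / 5)) (min (η2 / 5) (η3 / 2))) (min (η4 / 2)
        (e0 / (200 * C0))) ≤ η3 / 2 :=
        (min_le_left _ _).trans ((min_le_right _ _).trans (min_le_right _ _))
      linarith
    · have : min (min (min (1 / 32) (η1 / 5)) (min (η2 / 5) (η3 / 2))) (min (η4 / 2)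
        (e0 / (200 * C0))) ≤ η4 / 2 := (min_le_right _ _).trans (min_le_left _ _)
      linarith
    · have : min (min (min (1 / 32) (η1 / 5)) (min (η2 / 5) (η3 / 2))) (min (η4 / 2)
        (e0 / (200 * C0))) ≤ e0 / (200 * C0) := (min_le_right _ _).trans (min_le_right _ _)
      rw [le_div_iff₀ (by positivity)] at this
      linarith
  refine ⟨η, hη, by linarith, ?_⟩
  intro k c z a L hDat l x hl hx
  have X := hXPR k c z a L hDat
  obtain ⟨G, hG⟩ := hG0 k c z a L hDat l
  set R := Rl k z L l with hRdef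
  have hR : 0 < R := X.pos l
  have hGfix : G (z l) = z l := hG.fix
  -- the Lipschitz constant
  have hlip : ∀ u v : ℂ, ‖u - z l‖ < 5 * η * R → ‖v - z l‖ < 5 * η * R →
      ‖(G u - u) - (G v - v)‖ ≤ 20 * C0 * η * ‖u - v‖ := by
    intro u v hu hv
    have h := lma_lip hC00.le hR (s := 5 * η * R) (by positivity) (by nlinarith) hG.dif hG.bd hu hv
    refine h.trans (le_of_eq ?_)
    field_simp
    ring
  have zX : z l ∈ XX k z L := ⟨l, hl, mem_insert _ _⟩
  -- the access
  have hacs : ∀ (p : ℂ) (ρ : ℝ), Dsc k z L l G e0 (5 * η) p ρ → ∀ j < k, ∀ w ∈ Gm z L j,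
      ‖w - p‖ = ρ → ∃ τ : ℂ, Acs L G j p ρ τ := by
    intro p ρ hD j hj w hw hwp
    have hD1 : Dsc k z L l G e1 η1 p ρ := by
      refine ⟨hD.hρ, hD.hs.trans ?_, hD.free, fun x hx => (hD.near x hx).trans ?_⟩
      · exact mul_le_mul_of_nonneg_right h5a hR.le
      · exact mul_le_mul_of_nonneg_right he01 hD.hρ.le
    have hD2 : Dsc k z L l G e2 η2 p ρ := by
      refine ⟨hD.hρ, hD.hs.trans ?_, hD.free, fun x hx => (hD.near x hx).trans ?_⟩
      · exact mul_le_mul_of_nonneg_right h5b hR.le
      · exact mul_le_mul_of_nonneg_right he02 hD.hρ.le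
    rcases hw with rfl | ⟨t, ht, rfl⟩
    · exact hB k c z a L l G p ρ hDat hl hG hD2 j hj hwp
    · exact hA k c z a L l G p ρ hDat hl hG hD1 j t hj ht hwp
  have hsubR : ∀ (p : ℂ) (ρ : ℝ), Dsc k z L l G e0 (5 * η) p ρ →
      ball p ρ ⊆ ball (z l) R := by
    intro p ρ hD v hv
    rw [mem_ball, dist_eq_norm] at hv ⊢
    have h1 := hD.hs
    have h2 : ‖v - z l‖ ≤ ‖v - p‖ + ‖p - z l‖ := by
      have := norm_add_le (v - p) (p - z l)
      rwa [show v - p + (p - z l) = v - z l by ring] at this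
    have h3 := hD.hρ
    have : 5 * η * R ≤ R := by nlinarith
    linarith
  -- first part
  have part1 : x ∈ XX k z L → x ∈ Gm z L l := by
    intro hxX
    by_contra hxl
    set Y : Set ℂ := ⋃ m ∈ ((Finset.range k).erase l : Finset ℕ), Gm z L m with hY
    have hYc : IsCompact Y := Finset.isCompact_biUnion _ (fun m _ => X.cpt m)
    have hYmem : ∀ y : ℂ, y ∈ Y ↔ ∃ m < k, m ≠ l ∧ y ∈ Gm z L m := by
      intro y
      simp only [hY, mem_iUnion, Finset.mem_erase, Finset.mem_range, exists_prop]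
      constructor
      · rintro ⟨m, ⟨h1, h2⟩, h3⟩
        exact ⟨m, h2, h1, h3⟩
      · rintro ⟨m, h1, h2, h3⟩
        exact ⟨m, ⟨h2, h1⟩, h3⟩
    have hxY : x ∈ Y := by
      obtain ⟨m, hm, hxm⟩ := hxX
      rw [hYmem]
      refine ⟨m, hm, ?_, hxm⟩
      rintro rfl
      exact hxl hxm
    have hdis : ∀ y, y ∈ Gm z L l → y ∈ Y → False := by
      intro y h1 h2
      obtain ⟨m, hm, hml, hym⟩ := (hYmem y).1 h2
      exact Set.disjoint_left.1 (X.dsj l hl m hm (Ne.symm hml)) h1 hym
    have hGc : IsCompact (Gm z L l) := X.cpt l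
    have hGne : (Gm z L l).Nonempty := ⟨z l, mem_insert _ _⟩
    have hYne : Y.Nonempty := ⟨x, hxY⟩
    obtain ⟨pt, hpt⟩ : ∃ pt : ℝ → ℂ, pt = fun σ : ℝ => z l + σ * (x - z l) := ⟨_, rfl⟩
    have hptc : Continuous pt := by
      rw [hpt]
      fun_prop
    have hcont : ContinuousOn (fun σ : ℝ => infDist (pt σ) (Gm z L l) - infDist (pt σ) Y)
        (Icc 0 1) :=
      (((continuous_infDist_pt _).comp hptc).sub ((continuous_infDist_pt _).comp hptc)).continuousOn
    have hival := intermediate_value_Icc (zero_le_one' ℝ) hcont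
    have h0 : infDist (pt 0) (Gm z L l) - infDist (pt 0) Y ≤ 0 := by
      have : pt 0 = z l := by rw [hpt]; simp
      have hz : infDist (z l) (Gm z L l) = 0 := infDist_zero_of_mem (mem_insert _ _)
      rw [this, hz]
      have := infDist_nonneg (x := z l) (s := Y)
      linarith
    have h1 : 0 ≤ infDist (pt 1) (Gm z L l) - infDist (pt 1) Y := by
      have : pt 1 = x := by rw [hpt]; simp
      rw [this, infDist_zero_of_mem hxY]
      have := infDist_nonneg (x := x) (s := Gm z L l)
      linarith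
    obtain ⟨σ, hσ, hσ0⟩ := hival ⟨h0, h1⟩
    simp only at hσ0
    set p := pt σ with hp
    obtain ⟨ρ, hρdef⟩ : ∃ ρ : ℝ, ρ = infDist p (Gm z L l) := ⟨_, rfl⟩
    have hρY : ρ = infDist p Y := by linarith
    obtain ⟨e, heG, hedist⟩ := hGc.exists_infDist_eq_dist hGne p
    obtain ⟨e', heY, hedist'⟩ := hYc.exists_infDist_eq_dist hYne p
    have hρ0 : 0 < ρ := by
      rcases (infDist_nonneg (x := p) (s := Gm z L l)).lt_or_eq with h | h
      · rw [hρdef]
        exact h
      · exfalso
        have h2 : dist p e = 0 := by rw [← hedist, ← h]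
        have h3 : dist p e' = 0 := by rw [← hedist', ← hρY, hρdef, ← h]
        have h4 := dist_eq_zero.1 h2
        have h5 := dist_eq_zero.1 h3
        rw [← h4] at heG
        rw [← h5] at heY
        exact hdis p heG heY
    have hpz : ‖p - z l‖ ≤ η * R := by
      have : p - z l = σ * (x - z l) := by rw [hp, hpt]; ring
      rw [this, norm_mul, Complex.norm_real, Real.norm_eq_abs, abs_of_nonneg hσ.1]
      calc σ * ‖x - z l‖ ≤ 1 * ‖x - z l‖ :=
            mul_le_mul_of_nonneg_right hσ.2 (norm_nonneg _)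
        _ ≤ η * R := by rw [one_mul]; exact hx
    have hρη : ρ ≤ η * R := by
      rw [hρdef]
      refine (infDist_le_dist_of_mem (mem_insert (z l) _)).trans ?_
      rw [dist_eq_norm]
      exact hpz
    have hep : ‖e - p‖ = ρ := by
      rw [hρdef, hedist, dist_comm, dist_eq_norm]
    have hep' : ‖e' - p‖ = ρ := by
      rw [hρY, hedist', dist_comm, dist_eq_norm]
    have hez : ‖e - z l‖ ≤ 2 * η * R := by
      have := norm_add_le (e - p) (p - z l)
      rw [show e - p + (p - z l) = e - z l by ring] at this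
      linarith
    obtain ⟨m', hm', hml', hem'⟩ := (hYmem e').1 heY
    -- the displacement at e
    have hde : ‖G e - e‖ ≤ e0 / 2 * ρ := by
      rcases heG with hzl | ⟨t, ht, hLt⟩
      · rw [hzl, hGfix, sub_self, norm_zero]
        positivity
      · have ht0 : (0 : ℝ) ≤ t := ht
        have hLt' : L l (t : ℂ) = e := hLt
        have htT : T ≤ t := by
          refine hS k c z a L l G hDat hl hG l t hl ht0 ?_
          rw [hLt']
          refine hez.trans ?_
          exact mul_le_mul_of_nonneg_right h2c hR.le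
        have ht1 : 0 ≤ t - 1 := by linarith
        have hcast : (((t - 1 : ℝ) : ℂ) + 1) = (t : ℂ) := by push_cast; ring
        have hGe : G e = L l ((t - 1 : ℝ) : ℂ) := by
          have := (hH k c z a L l G hDat hl hG l (t - 1) hl ht1 ?_).2
          · rw [hcast, hLt'] at this
            exact this
          · rw [hcast, hLt']
            refine hez.trans ?_
            exact mul_le_mul_of_nonneg_right h2d hR.le
        have hTa := hT1 k c z a L hDat l (t - 1) hl ht1
        have hTb := hT1 k c z a L hDat l t hl ht0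
        rw [hcast] at hTa
        obtain ⟨-, -, hTa3, hTa4, -, -, -⟩ := hTa
        obtain ⟨-, -, -, -, -, hTb6, -⟩ := hTb
        rw [hLt'] at hTa3 hTb6
        have hne : e' ∉ ball e ((t + 1) * ‖deriv (L l) t‖ / C1) := by
          intro hmem
          obtain ⟨w, hw, hwe⟩ := hTb6 hmem
          have hwOM : w ∈ OM := by
            right
            rw [mem_ball, dist_eq_norm] at hw
            have h6 := (Complex.abs_re_le_norm (w - t)).trans hw.le
            rw [Complex.sub_re, Complex.ofReal_re] at h6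
            have h7 := (abs_le.1 h6).1
            linarith
          rcases hem' with hz' | ⟨s, hs, hs'⟩
          · exact X.nez l m' w hwOM (hwe.trans hz')
          · have hs0 : (0 : ℝ) ≤ s := hs
            have hsOM : (s : ℂ) ∈ OM := by
              right
              rw [Complex.ofReal_re]
              linarith
            have := (hDat.ftc.inj l m' hl hm' w hwOM s hsOM (hwe.trans hs'.symm)).1
            exact hml' this.symm
        have h8 : (t + 1) * ‖deriv (L l) t‖ / C1 ≤ 2 * ρ := by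
          by_contra hcon
          push Not at hcon
          apply hne
          rw [mem_ball, dist_eq_norm]
          have := norm_sub_le (e' - p) (e - p)
          rw [show e' - p - (e - p) = e' - e by ring] at this
          linarith
        rw [div_le_iff₀ hC10] at h8
        have h9 : T * ‖deriv (L l) t‖ ≤ 2 * ρ * C1 := by
          refine le_trans ?_ h8
          exact mul_le_mul_of_nonneg_right (by linarith) (norm_nonneg _)
        have h10 : 4 * C1 ^ 3 ≤ e0 * T := by
          rw [hT, mul_add, mul_div_cancel₀ _ he0.ne']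
          linarith
        have h11 : ‖G e - e‖ ≤ C1 ^ 2 * ‖deriv (L l) t‖ := by
          rw [hGe, norm_sub_rev]
          calc ‖e - L l ((t - 1 : ℝ) : ℂ)‖ ≤ C1 * ‖deriv (L l) ((t - 1 : ℝ) : ℂ)‖ := hTa3
            _ ≤ C1 * (C1 * ‖deriv (L l) t‖) := by gcongr
            _ = C1 ^ 2 * ‖deriv (L l) t‖ := by ring
        have h12 : T * ‖G e - e‖ ≤ T * (e0 / 2 * ρ) := by
          calc T * ‖G e - e‖ ≤ T * (C1 ^ 2 * ‖deriv (L l) t‖) := by gcongr
            _ = C1 ^ 2 * (T * ‖deriv (L l) t‖) := by ring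
            _ ≤ C1 ^ 2 * (2 * ρ * C1) := by gcongr
            _ = (4 * C1 ^ 3) * (ρ / 2) := by ring
            _ ≤ (e0 * T) * (ρ / 2) := by gcongr
            _ = T * (e0 / 2 * ρ) := by ring
        exact le_of_mul_le_mul_left h12 (by linarith)
    have hD : Dsc k z L l G e0 (5 * η) p ρ := by
      refine ⟨hρ0, ?_, ?_, ?_⟩
      · calc ‖p - z l‖ + 4 * ρ ≤ η * R + 4 * (η * R) := by gcongr
          _ = 5 * η * R := by ring
      · intro y hy hyX
        rw [mem_ball, dist_comm] at hy
        obtain ⟨m, hm, hym⟩ := hyX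
        by_cases hmlq : m = l
        · subst hmlq
          have := infDist_le_dist_of_mem (x := p) hym
          linarith
        · have hyY : y ∈ Y := (hYmem y).2 ⟨m, hm, hmlq, hym⟩
          have := infDist_le_dist_of_mem (x := p) hyY
          linarith
      · intro y hy
        have hyz : ‖y - z l‖ < 5 * η * R := by
          have := norm_add_le (y - p) (p - z l)
          rw [show y - p + (p - z l) = y - z l by ring] at this
          linarith
        have hez' : ‖e - z l‖ < 5 * η * R := by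
          have : 0 < η * R := by positivity
          linarith
        have h13 := hlip y e hyz hez'
        have h14 : ‖y - e‖ ≤ 5 * ρ := by
          have := norm_sub_le (y - p) (e - p)
          rw [show y - p - (e - p) = y - e by ring] at this
          linarith
        have h15 : ‖G y - y‖ ≤ ‖(G y - y) - (G e - e)‖ + ‖G e - e‖ := by
          have := norm_add_le ((G y - y) - (G e - e)) (G e - e)
          rwa [sub_add_cancel] at this
        calc ‖G y - y‖ ≤ 20 * C0 * η * ‖y - e‖ + e0 / 2 * ρ := by linarith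
          _ ≤ 20 * C0 * η * (5 * ρ) + e0 / 2 * ρ := by gcongr
          _ = (200 * C0 * η) / 2 * ρ + e0 / 2 * ρ := by ring
          _ ≤ e0 / 2 * ρ + e0 / 2 * ρ := by gcongr
          _ = e0 * ρ := by ring
    obtain ⟨τ, hτ⟩ := hacs p ρ hD l hl e heG hep
    obtain ⟨τ', hτ'⟩ := hacs p ρ hD m' hm' e' hem' hep'
    obtain ⟨g, hg0, hgd, hgs, hgl⟩ := hCOR C0 k c z a L l G p ρ l τ hDat hl hG hρ0 (hsubR p ρ hD)
      hD.free hl hτ
    obtain ⟨g', hg0', hgd', hgs', hgl'⟩ := hCOR C0 k c z a L l G p ρ m' τ' hDat hl hG hρ0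
      (hsubR p ρ hD) hD.free hm' hτ'
    have hfree : ∀ x ∈ ball p ρ, ∀ j : ℕ, x ≠ (F 2 c)^[j] c := by
      intro y hy j hyj
      exact hD.free y hy (hyj ▸ X.crv j)
    have hGp : G p ∈ ball p ρ := hτ.seg p (right_mem_segment ℝ _ _)
    have huni := lma_uni hLFU hCRV hρ0 hfree hGp hg0 hg0' hgd hgd' hgs hgs'
    have hpp : p ∈ ball p ρ := mem_ball_self hρ0
    have hlim1 := hgl p hpp
    have hlim2 := hgl' p hpp
    have heq : (fun n => g n p) = fun n => g' n p := funext fun n => huni n hpp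
    rw [heq] at hlim1
    have := tendsto_nhds_unique hlim1 hlim2
    exact hml' (hDat.prb.dst l m' hl hm' this).symm
  refine ⟨part1, ?_⟩
  intro hfix
  by_cases hxX : x ∈ XX k z L
  · -- a point of the arcs
    have hxG := part1 hxX
    rcases hxG with h | ⟨t, ht, hLt⟩
    · exact h
    · exfalso
      have ht0 : (0 : ℝ) ≤ t := ht
      have hLt' : L l (t : ℂ) = x := hLt
      have htOM : (t : ℂ) ∈ OM := by
        right
        rw [Complex.ofReal_re]
        linarith
      have htOM1 : (t : ℂ) + 1 ∈ OM := by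
        right
        rw [Complex.add_re, Complex.ofReal_re, Complex.one_re]
        linarith
      have h1 := X.itn l 1 t htOM
      rw [mul_one, hLt', hfix, Nat.cast_one] at h1
      have h2 := (hDat.ftc.inj l l hl hl t htOM (t + 1) htOM1 (by rw [hLt', ← h1])).2
      have h3 : (1 : ℂ) = 0 := by linear_combination -h2
      exact one_ne_zero h3
  · by_contra hxz
    have hXne : (XX k z L).Nonempty := ⟨_, zX⟩
    obtain ⟨e, heX, hedist⟩ := X.cpX.exists_infDist_eq_dist hXne x
    obtain ⟨ρ, hρdef⟩ : ∃ ρ : ℝ, ρ = infDist x (XX k z L) := ⟨_, rfl⟩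
    have hρ0 : 0 < ρ := by
      rcases (infDist_nonneg (x := x) (s := XX k z L)).lt_or_eq with h | h
      · rw [hρdef]
        exact h
      · exfalso
        have h2 : dist x e = 0 := by rw [← hedist, ← h]
        rw [← dist_eq_zero.1 h2] at heX
        exact hxX heX
    have hρη : ρ ≤ η * R := by
      rw [hρdef]
      refine (infDist_le_dist_of_mem zX).trans ?_
      rw [dist_eq_norm]
      exact hx
    have hep : ‖e - x‖ = ρ := by
      rw [hρdef, hedist, dist_comm, dist_eq_norm]
    have hGx : G x = x := by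
      have hx2 : ‖x - z l‖ ≤ R / C0 := by
        refine hx.trans ?_
        rw [le_div_iff₀ hC00]
        have : η * C0 ≤ 1 := by nlinarith
        nlinarith
      have := (hG.lft x hx2).2.1
      rwa [hfix] at this
    have hD : Dsc k z L l G e0 (5 * η) x ρ := by
      refine ⟨hρ0, ?_, ?_, ?_⟩
      · calc ‖x - z l‖ + 4 * ρ ≤ η * R + 4 * (η * R) := by gcongr
          _ = 5 * η * R := by ring
      · intro y hy hyX
        rw [mem_ball, dist_comm] at hy
        have := infDist_le_dist_of_mem (x := x) hyX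
        linarith
      · intro y hy
        have hyz : ‖y - z l‖ < 5 * η * R := by
          have := norm_add_le (y - x) (x - z l)
          rw [show y - x + (x - z l) = y - z l by ring] at this
          linarith
        have hez' : ‖x - z l‖ < 5 * η * R := by
          have : 0 < η * R := by positivity
          linarith
        have h13 := hlip y x hyz hez'
        rw [hGx, sub_self, sub_zero] at h13
        calc ‖G y - y‖ ≤ 20 * C0 * η * ‖y - x‖ := h13
          _ ≤ 20 * C0 * η * (4 * ρ) := by gcongr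
          _ = (80 * C0 * η) * ρ := by ring
          _ ≤ e0 * ρ := by
            refine mul_le_mul_of_nonneg_right ?_ hρ0.le
            have : 0 < C0 * η := by positivity
            nlinarith
    obtain ⟨j, hj, hej⟩ := heX
    obtain ⟨τ, hτ⟩ := hacs x ρ hD j hj e hej hep
    obtain ⟨g, hg0, hgd, hgs, hgl⟩ := hCOR C0 k c z a L l G x ρ j τ hDat hl hG hρ0 (hsubR x ρ hD)
      hD.free hj hτ
    have hxx : x ∈ ball x ρ := mem_ball_self hρ0
    have hall : ∀ n, g n x = x := by
      intro n
      induction n with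
      | zero => exact hg0 x hxx
      | succ n ih => rw [hgs n, hGx, ih]
    have hlim := hgl x hxx
    simp only [hall] at hlim
    have hxz' := tendsto_nhds_unique hlim tendsto_const_nhds
    apply hxX
    rw [← hxz']
    exact ⟨j, hj, mem_insert _ _⟩

end Pool.Agent.CUSP
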