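import Pool.Agent.CUSP.Targets2

/-!
# CUSP: a lower bound for the displacement
-/

set_option autoImplicit false

open Complex Filter Topology Set MeasureTheory
open Pool.Agent.Limb (F)
open Pool.Agent.PLim (Rho)
open Pool.Agent.MEY (Pt)
open Pool.Agent.PSat (Comp Sat)
open Pool.Agent.AEN (vm Hp Exn)

namespace Pool.Agent.CUSP

namespace LOW_

/-- The normalized statement. -/
theorem near (hrk : T_HRK) {C η : ℝ} (hC : 2 ≤ C) (hη : 0 < η) (hη1 : η ≤ 1 / 16)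
    (g : ℂ → ℂ) (β : ℂ) (hg : DifferentiableOn ℂ g (Metric.ball 0 1))
    (g0 : g 0 = 0) (hb : ∀ x : ℂ, ‖x‖ ≤ 1 / 2 → ‖g x - x‖ ≤ C * ‖x‖ ^ 2)
    (hf : ∀ x : ℂ, ‖x‖ ≤ η → g x = x → x = 0) (h2 : deriv (deriv g) 0 = -2 * β)
    (hβ : β ≠ 0) (hβC : ‖β‖ ≤ C) (z : ℂ) (hz : ‖z‖ ≤ η / 2) :
    ‖β‖ ^ 3 * ‖z‖ ^ 2 ≤ C ^ 2 * ‖g z - z‖ := by
  have hO : IsOpen (Metric.ball (0 : ℂ) 1) := Metric.isOpen_ball
  have hn0 : Metric.ball (0 : ℂ) 1 ∈ 𝓝 (0 : ℂ) := Metric.ball_mem_nhds _ one_pos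
  have m0 : (0 : ℂ) ∈ Metric.ball (0 : ℂ) 1 := Metric.mem_ball_self one_pos
  set h : ℂ → ℂ := fun x => g x - x with hh
  have hd : DifferentiableOn ℂ h (Metric.ball 0 1) := hg.sub differentiableOn_id
  have h0 : h 0 = 0 := by simp [hh, g0]
  have hdg : ∀ x ∈ Metric.ball (0 : ℂ) 1, deriv h x = deriv g x - 1 := by
    intro x hx
    have h3 : HasDerivAt (fun x => g x - x) (deriv g x - 1) x :=
      (hg.differentiableAt (hO.mem_nhds hx)).hasDerivAt.sub (hasDerivAt_id' x)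
    exact h3.deriv
  have hO2 : h =O[𝓝 (0 : ℂ)] fun x => ‖x - 0‖ ^ 2 := by
    refine Asymptotics.IsBigO.of_bound C ?_
    have : Metric.ball (0 : ℂ) (1 / 2) ∈ 𝓝 (0 : ℂ) := Metric.ball_mem_nhds _ (by norm_num)
    filter_upwards [this] with x hx
    rw [mem_ball_zero_iff] at hx
    rw [sub_zero, Real.norm_of_nonneg (by positivity)]
    exact hb x hx.le
  have hd0 : deriv h 0 = 0 := by
    have h3 : HasFDerivAt h (0 : ℂ →L[ℂ] ℂ) 0 := hO2.hasFDerivAt (by norm_num)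
    have h4 := h3.hasDerivAt.deriv
    simpa using h4
  set h1 : ℂ → ℂ := dslope h 0 with hh1
  set y : ℂ → ℂ := dslope h1 0 with hy
  have hd1 : DifferentiableOn ℂ h1 (Metric.ball 0 1) :=
    (Complex.differentiableOn_dslope hn0).mpr hd
  have hdy : DifferentiableOn ℂ y (Metric.ball 0 1) :=
    (Complex.differentiableOn_dslope hn0).mpr hd1
  have h10 : h1 0 = 0 := by rw [hh1, dslope_same, hd0]
  have hxy : ∀ x, h x = x ^ 2 * y x := by
    intro x
    have e1 := sub_smul_dslope h 0 x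
    have e2 := sub_smul_dslope h1 0 x
    rw [← hh1, h0, smul_eq_mul, sub_zero, sub_zero] at e1
    rw [← hy, h10, smul_eq_mul, sub_zero, sub_zero] at e2
    rw [← e1, ← e2]
    ring
  have hyd : ∀ x ∈ Metric.ball (0 : ℂ) 1, HasDerivAt y (deriv y x) x := fun x hx =>
    (hdy.differentiableAt (hO.mem_nhds hx)).hasDerivAt
  have e1 : deriv h =ᶠ[𝓝 0] fun x => 2 * x * y x + x ^ 2 * deriv y x := by
    filter_upwards [hn0] with x hx
    have h3 : HasDerivAt (fun x => x ^ 2 * y x) (2 * x * y x + x ^ 2 * deriv y x) x := by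
      have := (hasDerivAt_pow 2 x).mul (hyd x hx)
      refine this.congr_deriv ?_
      simp
    have h4 : h = fun x => x ^ 2 * y x := funext hxy
    rw [h4]
    exact h3.deriv
  have e2 : HasDerivAt (fun x => 2 * x * y x + x ^ 2 * deriv y x) (2 * y 0) 0 := by
    have h3 : HasDerivAt (deriv y) (deriv (deriv y) 0) 0 :=
      ((hdy.deriv hO).differentiableAt hn0).hasDerivAt
    have h4 : HasDerivAt (fun x : ℂ => 2 * x) (2 * 1) 0 := (hasDerivAt_id (0 : ℂ)).const_mul 2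
    have h5 := (h4.mul (hyd 0 m0)).add ((hasDerivAt_pow 2 (0 : ℂ)).mul h3)
    refine h5.congr_deriv ?_
    simp
  have e3 : deriv h =ᶠ[𝓝 0] fun x => deriv g x - 1 := by
    filter_upwards [hn0] with x hx
    exact hdg x hx
  have e4 : 2 * y 0 = -2 * β := by
    have h3 : deriv (deriv h) 0 = 2 * y 0 := by rw [e1.deriv_eq, e2.deriv]
    have h4 : deriv (deriv h) 0 = deriv (deriv g) 0 := by rw [e3.deriv_eq, deriv_sub_const]
    rw [← h3, h4, h2]
  have y0 : y 0 = -β := by linear_combination e4 / 2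
  have hlt : ∀ x ∈ Metric.ball (0 : ℂ) η, ‖x‖ ≤ 1 / 2 := by
    intro x hx
    rw [mem_ball_zero_iff] at hx
    linarith
  have hyy : ∀ x ∈ Metric.ball (0 : ℂ) η, y x ≠ 0 ∧ ‖y x‖ ≤ C := by
    intro x hx
    by_cases hx0 : x = 0
    · subst hx0
      rw [y0]
      exact ⟨neg_ne_zero.mpr hβ, by rw [norm_neg]; exact hβC⟩
    · constructor
      · intro hc
        have h3 : h x = 0 := by rw [hxy, hc, mul_zero]
        have h4 : g x = x := sub_eq_zero.mp h3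
        exact hx0 (hf x (mem_ball_zero_iff.mp hx).le h4)
      · have h3 : ‖x‖ ^ 2 * ‖y x‖ ≤ C * ‖x‖ ^ 2 := by
          rw [← norm_pow, ← norm_mul, ← hxy, norm_pow]
          exact hb x (hlt x hx)
        have h4 : 0 < ‖x‖ ^ 2 := by
          have := norm_pos_iff.mpr hx0
          positivity
        rw [mul_comm] at h3
        exact le_of_mul_le_mul_right h3 h4
  have hdη : DifferentiableOn ℂ y (Metric.ball 0 η) :=
    hdy.mono (Metric.ball_subset_ball (by linarith))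
  have hz2 : ‖z - 0‖ ≤ η / 2 := by
    rw [sub_zero]
    exact hz
  have h3 := (hrk 0 η C y hη (by linarith) hdη hyy z hz2).2
  rw [y0, norm_neg] at h3
  have h5 : ‖g z - z‖ = ‖z‖ ^ 2 * ‖y z‖ := by
    rw [← norm_pow, ← norm_mul, ← hxy]
  rw [h5]
  calc ‖β‖ ^ 3 * ‖z‖ ^ 2 ≤ (C ^ 2 * ‖y z‖) * ‖z‖ ^ 2 := by gcongr
    _ = C ^ 2 * (‖z‖ ^ 2 * ‖y z‖) := by ring

end LOW_

theorem p_LOW (h₁ : T_HRK) : T_LOW := by
  intro C η κ hη hη1 hκ
  by_cases hC : 2 ≤ C
  swap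
  · refine ⟨1, one_pos, ?_⟩
    intro k c ζ α R G hG
    exact absurd hG.hC hC
  have hC2 : 0 < C ^ 2 := by positivity
  refine ⟨κ ^ 3 / C ^ 2, by positivity, ?_⟩
  intro k c ζ α R G hG hf hακ x hx
  have hR := hG.hR
  have hα : α ≠ 0 := by
    rintro rfl
    rw [norm_zero, zero_mul] at hακ
    linarith
  have hRc : (R : ℂ) ≠ 0 := Complex.ofReal_ne_zero.mpr hR.ne'
  have nR : ‖(R : ℂ)‖ = R := by rw [Complex.norm_real, Real.norm_of_nonneg hR.le]
  set g : ℂ → ℂ := fun w => (G (ζ + R * w) - ζ) / R with hg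
  have key : ∀ w : ℂ, g w - w = (G (ζ + R * w) - (ζ + R * w)) / R := by
    intro w
    rw [hg]
    field_simp
    ring
  have hmaps : MapsTo (fun w : ℂ => ζ + R * w) (Metric.ball 0 1) (Metric.ball ζ R) := by
    intro w hw
    rw [mem_ball_zero_iff] at hw
    rw [Metric.mem_ball, dist_eq_norm, add_sub_cancel_left, norm_mul, nR]
    nlinarith
  have hgd : DifferentiableOn ℂ g (Metric.ball 0 1) := by
    have h1 : DifferentiableOn ℂ (fun w : ℂ => G (ζ + R * w)) (Metric.ball 0 1) :=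
      hG.dif.comp (by fun_prop) hmaps
    exact (h1.sub_const ζ).div_const _
  have g0 : g 0 = 0 := by
    rw [hg]
    simp [hG.fix]
  have hb : ∀ w : ℂ, ‖w‖ ≤ 1 / 2 → ‖g w - w‖ ≤ C * ‖w‖ ^ 2 := by
    intro w hw
    have h1 : ‖(ζ + R * w) - ζ‖ = R * ‖w‖ := by
      rw [add_sub_cancel_left, norm_mul, nR]
    have h2 := hG.bd (ζ + R * w) (by rw [h1]; nlinarith)
    rw [h1] at h2
    rw [key, norm_div, nR, div_le_iff₀ hR]
    calc ‖G (ζ + R * w) - (ζ + R * w)‖ ≤ C * (R * ‖w‖) ^ 2 / R := h2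
      _ = C * ‖w‖ ^ 2 * R := by field_simp
  have hfx : ∀ w : ℂ, ‖w‖ ≤ η → g w = w → w = 0 := by
    intro w hw hgw
    have h1 : G (ζ + R * w) = ζ + R * w := by
      have h2 := key w
      rw [hgw, sub_self, eq_comm, div_eq_zero_iff] at h2
      rcases h2 with h2 | h2
      · exact sub_eq_zero.mp h2
      · exact absurd h2 hRc
    have hlt : ‖w‖ < 1 := by linarith
    have hm : ζ + R * w ∈ Metric.ball ζ R := hmaps (mem_ball_zero_iff.mpr hlt)
    have h3 := hG.inv _ hm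
    rw [h1] at h3
    have h4 : ‖(ζ + R * w) - ζ‖ ≤ η * R := by
      rw [add_sub_cancel_left, norm_mul, nR]
      nlinarith
    have h5 := hf _ h4 h3
    have h6 : (R : ℂ) * w = 0 := by linear_combination h5
    exact (mul_eq_zero.mp h6).resolve_left hRc
  have hdg : deriv g = fun w : ℂ => deriv G (ζ + R * w) := by
    funext w
    have h1 : deriv g w = deriv (fun w : ℂ => G (ζ + R * w)) w / R := by
      rw [hg]
      simp
    have h2 : deriv (fun w : ℂ => G (ζ + R * w)) w = R * deriv G (ζ + R * w) := by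
      have h3 := deriv_comp_mul_left (R : ℂ) (fun u : ℂ => G (ζ + u)) w
      rw [h3, deriv_comp_const_add, smul_eq_mul]
    rw [h1, h2]
    field_simp
  have h2 : deriv (deriv g) 0 = -2 * (α * R) := by
    rw [hdg]
    have h3 := deriv_comp_mul_left (R : ℂ) (fun u : ℂ => deriv G (ζ + u)) 0
    rw [h3, deriv_comp_const_add, smul_eq_mul, mul_zero, add_zero, hG.sec]
    ring
  have hβ : ‖α * (R : ℂ)‖ = ‖α‖ * R := by rw [norm_mul, nR]
  have nw : ‖(x - ζ) / R‖ = ‖x - ζ‖ / R := by rw [norm_div, nR]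
  have h4 := LOW_.near h₁ hC hη hη1 g (α * R) hgd g0 hb hfx h2 (mul_ne_zero hα hRc)
    (by rw [hβ]; exact hG.abd) ((x - ζ) / R) (by rw [nw, div_le_iff₀ hR]; linarith)
  have h5 : ζ + R * ((x - ζ) / R) = x := by
    field_simp
    ring
  rw [hβ, nw, key, h5, norm_div, nR] at h4
  have h6 : κ ^ 3 ≤ (‖α‖ * R) ^ 3 := pow_le_pow_left₀ hκ.le hακ 3
  have h7 : κ ^ 3 * (‖x - ζ‖ / R) ^ 2 ≤ C ^ 2 * (‖G x - x‖ / R) := by
    refine le_trans ?_ h4
    gcongr
  have h8 : κ ^ 3 * ‖x - ζ‖ ^ 2 ≤ C ^ 2 * (R * ‖G x - x‖) := by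
    have h9 : R ^ 2 * (κ ^ 3 * (‖x - ζ‖ / R) ^ 2) = κ ^ 3 * ‖x - ζ‖ ^ 2 := by
      field_simp
    have h10 : R ^ 2 * (C ^ 2 * (‖G x - x‖ / R)) = C ^ 2 * (R * ‖G x - x‖) := by
      field_simp
    rw [← h9, ← h10]
    exact mul_le_mul_of_nonneg_left h7 (by positivity)
  rw [div_mul_eq_mul_div, div_le_iff₀ hC2]
  linarith

end Pool.Agent.CUSP
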