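import Pool.Agent.CUSP.Targets

/-!
# CUSP, target OBS: the critical value is met
-/

set_option autoImplicit false

open Complex Filter Topology Set MeasureTheory
open Pool.Agent.Limb (F)
open Pool.Agent.PLim (Rho)
open Pool.Agent.MEY (Pt)
open Pool.Agent.PSat (Comp Sat)
open Pool.Agent.AEN (vm Hp Exn)

namespace Pool.Agent.CUSP

namespace OBS_

lemma Fcont (c : ℂ) : Continuous (F 2 c) := by
  unfold F
  fun_prop

lemma Fcont_iter (c : ℂ) (m : ℕ) : Continuous ((F 2 c)^[m]) := (Fcont c).iterate m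

lemma isOpen_Sx (p : ℝ) : IsOpen (Sx p) := by
  unfold Sx
  exact isOpen_lt (by fun_prop) (by fun_prop)

lemma Sx_add {p : ℝ} {t : ℂ} (ht : t ∈ Sx p) (n : ℕ) : t + n ∈ Sx p := by
  simp only [Sx, mem_ofPred_eq, add_im, natCast_im, add_zero, add_re, natCast_re] at ht ⊢
  have : (0 : ℝ) ≤ n := Nat.cast_nonneg n
  linarith

lemma exists_mem (p : ℝ) (t : ℂ) : ∃ n : ℕ, t + n ∈ Sx p := by
  obtain ⟨n, hn⟩ := exists_nat_gt (4 * |t.im| + p - t.re)
  refine ⟨n, ?_⟩
  simp only [Sx, mem_ofPred_eq, add_im, natCast_im, add_zero, add_re, natCast_re]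
  linarith

/-- The orbit under the iterates of order `k` is bounded, hence the orbit is bounded. -/
lemma orbit_bdd (c x : ℂ) (k : ℕ) (hk : 1 ≤ k)
    (h : ∃ B : ℝ, ∀ m : ℕ, ‖(F 2 c)^[k * m] x‖ ≤ B) :
    ∃ B : ℝ, ∀ n : ℕ, ‖(F 2 c)^[n] x‖ ≤ B := by
  obtain ⟨B, hB⟩ := h
  have hcomp : IsCompact (⋃ r ∈ Finset.range k, (F 2 c)^[r] '' Metric.closedBall (0 : ℂ) B) := by
    refine (Finset.range k).isCompact_biUnion fun r _ => ?_
    exact (isCompact_closedBall _ _).image (Fcont_iter c r)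
  obtain ⟨B', hB'⟩ := hcomp.isBounded.subset_closedBall (0 : ℂ)
  refine ⟨B', fun n => ?_⟩
  have h1 : (F 2 c)^[n] x ∈ ⋃ r ∈ Finset.range k, (F 2 c)^[r] '' Metric.closedBall (0 : ℂ) B := by
    rw [mem_iUnion₂]
    refine ⟨n % k, Finset.mem_range.mpr (Nat.mod_lt _ (by omega)), (F 2 c)^[k * (n / k)] x, ?_, ?_⟩
    · rw [mem_closedBall_zero_iff]
      exact hB _
    · rw [← Function.iterate_add_apply, Nat.mod_add_div]
  have h2 := hB' h1
  rwa [mem_closedBall_zero_iff] at h2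

/-- Iterating the equation of a Fatou coordinate. -/
lemma Sy_iter {k : ℕ} {c ζ α : ℂ} {p : ℝ} {lam : ℂ → ℂ} (h : Sy k c ζ α p lam) {t : ℂ}
    (ht : t ∈ Sx p) (m : ℕ) : (F 2 c)^[k * m] (lam t) = lam (t + m) := by
  induction m with
  | zero => simp
  | succ m ih =>
    rw [Nat.mul_succ, add_comm (k * m) k, Function.iterate_add_apply, ih, h.eq _ (Sx_add ht m)]
    congr 1
    push_cast
    ring

/-- The values far to the right are bounded. -/
lemma Sy_bdd {k : ℕ} {c ζ α : ℂ} {p : ℝ} {lam : ℂ → ℂ} (h : Sy k c ζ α p lam) {t : ℂ}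
    (ht : t ∈ Sx p) : ∃ B : ℝ, ∀ m : ℕ, ‖lam (t + m)‖ ≤ B := by
  obtain ⟨T, hT⟩ := h.asy 1 one_pos
  have hev : ∀ᶠ m : ℕ in atTop, ‖lam (t + m)‖ ≤ ‖ζ‖ + (1 + ‖1 / α‖) := by
    obtain ⟨M, hM⟩ := exists_nat_gt (max T 1 - t.re)
    filter_upwards [eventually_ge_atTop M] with m hm
    have hm' : (M : ℝ) ≤ m := by exact_mod_cast hm
    have hre : (t + m).re = t.re + m := by simp
    have h1 : T ≤ (t + m).re := by
      rw [hre]
      have := le_max_left T 1
      linarith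
    have h2 : 1 ≤ (t + m).re := by
      rw [hre]
      have := le_max_right T 1
      linarith
    have h3 := (hT _ (Sx_add ht m) h1).1
    have h4 : ‖(t + m) * (lam (t + m) - ζ)‖ ≤ 1 + ‖1 / α‖ := by
      have h5 : (t + m) * (lam (t + m) - ζ) =
          ((t + m) * (lam (t + m) - ζ) + 1 / α) - 1 / α := by ring
      rw [h5]
      exact (norm_sub_le _ _).trans (add_le_add_left h3 _)
    rw [norm_mul] at h4
    have h6 : 1 ≤ ‖t + m‖ := h2.trans ((le_abs_self _).trans (abs_re_le_norm _))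
    have h7 : ‖lam (t + m) - ζ‖ ≤ 1 + ‖1 / α‖ := by
      refine le_trans ?_ h4
      nlinarith [norm_nonneg (lam (t + m) - ζ)]
    calc ‖lam (t + m)‖ = ‖ζ + (lam (t + m) - ζ)‖ := by congr 1; ring
      _ ≤ ‖ζ‖ + ‖lam (t + m) - ζ‖ := norm_add_le _ _
      _ ≤ ‖ζ‖ + (1 + ‖1 / α‖) := by linarith
  have hb : IsBoundedUnder (· ≤ ·) atTop (fun m : ℕ => ‖lam (t + m)‖) :=
    ⟨_, eventually_map.mpr hev⟩
  obtain ⟨B, hB⟩ := hb.bddAbove_range
  exact ⟨B, fun m => hB ⟨m, rfl⟩⟩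

end OBS_

open OBS_ in
/-- OBS: the critical value is met. -/
theorem p_OBS (h₁ : T_INI) (h₂ : T_BST) (h₃ : T_ESC) (h₄ : T_AST) : T_OBS := by
  intro k c z a hP
  by_contra hcon
  have hk := hP.hk
  -- no Fatou coordinate meets the critical value
  have hav : ∀ (m : ℕ) (p : ℝ) (lam : ℂ → ℂ), 0 < p → Sy k c (z m) (a m) p lam →
      ∀ t ∈ Sx p, lam t ≠ c := by
    intro m p lam hp hs t ht h
    exact hcon ⟨m, p, lam, t, hp, hs, ht, h⟩
  obtain ⟨p, lam0, hp, hlam0⟩ := h₁ k c z a hP 0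
  -- one step back
  have step : ∀ lam : {lam : ℂ → ℂ // ∃ m, Sy k c (z m) (a m) p lam},
      ∃ mu : {lam : ℂ → ℂ // ∃ m, Sy k c (z m) (a m) p lam},
        ∀ t ∈ Sx p, F 2 c (mu.1 t) = lam.1 t := by
    rintro ⟨lam, m, hlam⟩
    have e1 : m + (k - 1) + 1 = m + k := by omega
    have hlam' : Sy k c (z (m + (k - 1) + 1)) (a (m + (k - 1) + 1)) p lam := by
      rw [e1, hP.per, (h₄ k c z a hP m).2.1]
      exact hlam
    obtain ⟨mu, hmu, hmu'⟩ := h₂ k c z a (m + (k - 1)) p lam hP hp hlam'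
      (hav _ p lam hp hlam')
    exact ⟨⟨mu, _, hmu⟩, hmu'⟩
  choose G hG using step
  obtain ⟨x, hx0, hxs⟩ : ∃ x : ℕ → {lam : ℂ → ℂ // ∃ m, Sy k c (z m) (a m) p lam},
      x 0 = ⟨lam0, 0, hlam0⟩ ∧ ∀ i, x (i + 1) = G (x i) :=
    ⟨fun i => G^[i] ⟨lam0, 0, hlam0⟩, rfl, fun i => Function.iterate_succ_apply' G i _⟩
  have hF : ∀ i j : ℕ, ∀ t ∈ Sx p, (F 2 c)^[j] ((x (i + j)).1 t) = (x i).1 t := by
    intro i j
    induction j with
    | zero => intro t _; rfl
    | succ j ih =>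
      intro t ht
      rw [Function.iterate_succ_apply, ← add_assoc, hxs, hG _ t ht]
      exact ih t ht
  have hshift : ∀ i : ℕ, ∀ t ∈ Sx p, (x (i + k)).1 (t + 1) = (x i).1 t := by
    intro i t ht
    obtain ⟨m, hm⟩ := (x (i + k)).2
    rw [← hm.eq t ht]
    exact hF i k t ht
  -- the entire function
  choose N hN using exists_mem p
  obtain ⟨E, hE⟩ : ∃ E : ℂ → ℂ, E = fun t => (x (k * N t)).1 (t + N t) := ⟨_, rfl⟩
  have hmono : ∀ (t : ℂ) (n : ℕ), t + n ∈ Sx p → ∀ j : ℕ,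
      (x (k * (n + j))).1 (t + (n + j : ℕ)) = (x (k * n)).1 (t + n) := by
    intro t n ht j
    induction j with
    | zero => rfl
    | succ j ih =>
      rw [← ih]
      have h1 : t + ((n + j : ℕ) : ℂ) ∈ Sx p := by
        have := Sx_add ht j
        rw [add_assoc] at this
        exact_mod_cast this
      have h2 := hshift (k * (n + j)) _ h1
      rw [← h2, ← add_assoc n j 1, Nat.mul_succ]
      congr 1
      push_cast
      ring_nf
  have hE' : ∀ (t : ℂ) (n : ℕ), t + n ∈ Sx p → E t = (x (k * n)).1 (t + n) := by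
    intro t n ht
    rw [hE]
    rcases le_total n (N t) with h | h
    · obtain ⟨j, hj⟩ := Nat.exists_eq_add_of_le h
      have := hmono t n ht j
      simp only
      rw [hj]
      exact this
    · obtain ⟨j, hj⟩ := Nat.exists_eq_add_of_le h
      have := hmono t (N t) (hN t) j
      rw [hj]
      exact this.symm
  have hdiff : Differentiable ℂ E := by
    intro t
    obtain ⟨m, hm⟩ := (x (k * N t)).2
    have h1 : DifferentiableAt ℂ (fun s => (x (k * N t)).1 (s + N t)) t := by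
      have h2 : DifferentiableAt ℂ (x (k * N t)).1 (t + N t) :=
        (hm.dif _ (hN t)).differentiableAt ((isOpen_Sx p).mem_nhds (hN t))
      exact DifferentiableAt.comp t h2 (differentiableAt_id.add_const _)
    refine h1.congr_of_eventuallyEq ?_
    have h3 : ∀ᶠ s in 𝓝 t, s + (N t : ℂ) ∈ Sx p := by
      have : ContinuousAt (fun s : ℂ => s + (N t : ℂ)) t := by fun_prop
      exact this.eventually ((isOpen_Sx p).mem_nhds (hN t))
    filter_upwards [h3] with s hs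
    exact hE' s (N t) hs
  have hbound : ∀ t, ‖E t‖ ≤ max 2 ‖c‖ := by
    intro t
    obtain ⟨m, hm⟩ := (x (k * N t)).2
    obtain ⟨B, hB⟩ := Sy_bdd hm (hN t)
    have h1 : ∃ B : ℝ, ∀ m : ℕ, ‖(F 2 c)^[k * m] (E t)‖ ≤ B := by
      refine ⟨B, fun j => ?_⟩
      rw [hE' t (N t) (hN t), Sy_iter hm (hN t) j]
      exact hB j
    obtain ⟨B', hB'⟩ := orbit_bdd c (E t) k hk h1
    exact (h₃ c (E t) B' hB').1
  have hconst : ∀ s t, E s = E t := by
    intro s t
    refine hdiff.apply_eq_apply_of_bounded ?_ s t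
    refine (Metric.isBounded_closedBall (x := (0 : ℂ)) (r := max 2 ‖c‖)).subset ?_
    rintro _ ⟨y, rfl⟩
    rw [mem_closedBall_zero_iff]
    exact hbound y
  have m1 : ((p + 1 : ℝ) : ℂ) ∈ Sx p := by
    simp only [Sx, mem_ofPred_eq, ofReal_im, ofReal_re, abs_zero]
    linarith
  have m2 : ((p + 2 : ℝ) : ℂ) ∈ Sx p := by
    simp only [Sx, mem_ofPred_eq, ofReal_im, ofReal_re, abs_zero]
    linarith
  have v1 := hE' ((p + 1 : ℝ) : ℂ) 0 (by simpa using m1)
  have v2 := hE' ((p + 2 : ℝ) : ℂ) 0 (by simpa using m2)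
  simp only [Nat.cast_zero, add_zero, mul_zero, hx0] at v1 v2
  have h5 : lam0 ((p + 1 : ℝ) : ℂ) = lam0 ((p + 2 : ℝ) : ℂ) := by
    rw [← v1, ← v2]
    exact hconst _ _
  have h6 := hlam0.inj m1 m2 h5
  have h7 : p + 1 = p + 2 := by exact_mod_cast h6
  linarith

end Pool.Agent.CUSP
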