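import Pool.Agent.CUSP.Targets
import Pool.Agent.PLim.PHIp

/-!
# CUSP, target OMX: the maximal inverse Fatou coordinates
-/

set_option autoImplicit false

open Complex Filter Topology Set MeasureTheory
open Pool.Agent.Limb (F)
open Pool.Agent.PLim (Rho)
open Pool.Agent.MEY (Pt)
open Pool.Agent.PSat (Comp Sat)
open Pool.Agent.AEN (vm Hp Exn)

namespace Pool.Agent.CUSP

namespace OMX_

theorem Fdiff (c : ℂ) : Differentiable ℂ (F 2 c) := by
  unfold F
  fun_prop

theorem Fdiff_iter (c : ℂ) (m : ℕ) : Differentiable ℂ ((F 2 c)^[m]) := (Fdiff c).iterate m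

theorem Fcont_iter (c : ℂ) (m : ℕ) : Continuous ((F 2 c)^[m]) := (Fdiff_iter c m).continuous

theorem isOpen_Sx (p : ℝ) : IsOpen (Sx p) := by
  unfold Sx
  exact isOpen_lt (by fun_prop) (by fun_prop)

theorem convex_Sx (p : ℝ) : Convex ℝ (Sx p) := by
  have h : Sx p = {t : ℂ | 4 * t.im < t.re - p} ∩ {t : ℂ | -(4 * t.im) < t.re - p} := by
    ext t
    simp only [Sx, mem_ofPred_eq, mem_inter_iff]
    constructor
    · intro h
      have h1 := le_abs_self t.im
      have h2 := neg_abs_le t.im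
      constructor <;> linarith
    · rintro ⟨h1, h2⟩
      rcases abs_cases t.im with ⟨h3, _⟩ | ⟨h3, _⟩ <;> rw [h3] <;> linarith
  rw [h]
  refine Convex.inter ?_ ?_
  · intro x hx y hy a b ha hb hab
    simp only [mem_ofPred_eq, add_im, add_re, smul_im, smul_re, smul_eq_mul] at hx hy ⊢
    have hb' : b = 1 - a := by linarith
    subst hb'
    rcases ha.eq_or_lt with rfl | ha
    · linarith
    · have h1 := mul_lt_mul_of_pos_left hx ha
      have h2 := mul_le_mul_of_nonneg_left hy.le hb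
      nlinarith
  · intro x hx y hy a b ha hb hab
    simp only [mem_ofPred_eq, add_im, add_re, smul_im, smul_re, smul_eq_mul] at hx hy ⊢
    have hb' : b = 1 - a := by linarith
    subst hb'
    rcases ha.eq_or_lt with rfl | ha
    · linarith
    · have h1 := mul_lt_mul_of_pos_left hx ha
      have h2 := mul_le_mul_of_nonneg_left hy.le hb
      nlinarith

theorem Sx_add {p : ℝ} {t : ℂ} (ht : t ∈ Sx p) (n : ℕ) : t + n ∈ Sx p := by
  simp only [Sx, mem_ofPred_eq, add_im, natCast_im, add_zero, add_re, natCast_re] at ht ⊢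
  have : (0 : ℝ) ≤ n := Nat.cast_nonneg n
  linarith

theorem Sx_add1 {p : ℝ} {t : ℂ} (ht : t ∈ Sx p) : t + 1 ∈ Sx p := by
  simpa using Sx_add ht 1

theorem exists_mem (p : ℝ) (t : ℂ) : ∃ n : ℕ, ∀ m : ℕ, n ≤ m → t + m ∈ Sx p := by
  obtain ⟨n, hn⟩ := exists_nat_gt (4 * |t.im| + p - t.re)
  refine ⟨n, fun m hm => ?_⟩
  have : (n : ℝ) ≤ m := by exact_mod_cast hm
  simp only [Sx, mem_ofPred_eq, add_im, natCast_im, add_zero, add_re, natCast_re]
  linarith

/-- along `t0 + M` the coordinate tends to the point of the cycle -/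
theorem tend {k : ℕ} {c ζ α : ℂ} {p : ℝ} {lam : ℂ → ℂ} (h : Sy k c ζ α p lam) {t0 : ℂ}
    (ht0 : t0 ∈ Sx p) : Tendsto (fun M : ℕ => lam (t0 + M)) atTop (𝓝 ζ) := by
  obtain ⟨T, hT⟩ := h.asy 1 one_pos
  have hre : Tendsto (fun M : ℕ => t0.re + M) atTop atTop :=
    tendsto_atTop_add_const_left _ _ tendsto_natCast_atTop_atTop
  rw [tendsto_iff_norm_sub_tendsto_zero]
  have hlim : Tendsto (fun M : ℕ => (1 + ‖1 / α‖) / (t0.re + M)) atTop (𝓝 0) :=
    tendsto_const_nhds.div_atTop hre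
  refine squeeze_zero' (Eventually.of_forall fun M => norm_nonneg _) ?_ hlim
  filter_upwards [hre.eventually_ge_atTop T, hre.eventually_gt_atTop 0] with M h1 h2
  have hm := Sx_add ht0 M
  have h3 := (hT (t0 + M) hm (by simpa using h1)).1
  have h4 : ‖(t0 + M) * (lam (t0 + M) - ζ)‖ ≤ 1 + ‖1 / α‖ := by
    calc ‖(t0 + M) * (lam (t0 + M) - ζ)‖
        = ‖((t0 + M) * (lam (t0 + M) - ζ) + 1 / α) - 1 / α‖ := by ring_nf
      _ ≤ _ := norm_sub_le _ _
      _ ≤ _ := by linarith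
  rw [norm_mul] at h4
  have h5 : t0.re + M ≤ ‖t0 + (M : ℂ)‖ := by
    calc t0.re + M = (t0 + (M : ℂ)).re := by simp
      _ ≤ _ := Complex.re_le_norm _
  rw [le_div_iff₀ h2]
  nlinarith [norm_nonneg (lam (t0 + M) - ζ)]

/-- the shifted coordinate -/
theorem itn {k : ℕ} {c : ℂ} {D : Set ℂ} {g : ℂ → ℂ} (hD : ∀ t ∈ D, t + 1 ∈ D)
    (hg : ∀ t ∈ D, (F 2 c)^[k] (g t) = g (t + 1)) (n : ℕ) :
    ∀ t ∈ D, t + n ∈ D ∧ (F 2 c)^[k * n] (g t) = g (t + n) := by
  induction n with
  | zero => intro t ht; simpa using ht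
  | succ n ih =>
    intro t ht
    obtain ⟨h1, h2⟩ := ih t ht
    have h3 := hD _ h1
    have e : t + ((n + 1 : ℕ) : ℂ) = t + n + 1 := by push_cast; ring
    rw [e]
    refine ⟨h3, ?_⟩
    have e2 : k * (n + 1) = k + k * n := by ring
    rw [e2, Function.iterate_add_apply, h2, hg _ h1]

/-- the point `-1` is the only obstruction -/
theorem avoid {k : ℕ} {c : ℂ} {z a : ℕ → ℂ} {p : ℝ} {lam : ℂ → ℂ} {ts : ℂ} (hP : Prb k c z a)
    (hz : ∀ j, (F 2 c)^[j] (z 0) = z j) (hS : Sy k c (z 0) (a 0) p lam)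
    (hts : ts ∈ Sx p) (hc : lam ts = c) {t : ℂ} {n : ℕ} (ht : t + 1 + n + ts ∈ Sx p) {j : ℕ}
    (hj : j < k) (h : (F 2 c)^[k * n] ((F 2 c)^[j] c) = lam (t + 1 + n + ts)) : t = -1 := by
  have hit := itn (k := k) (c := c) (D := Sx p) (fun t ht => Sx_add1 ht) hS.eq
  have h1 : ∀ m : ℕ, (F 2 c)^[k * m] c = lam (ts + m) := by
    intro m
    have := (hit m ts hts).2
    rwa [hc] at this
  have h2 : (F 2 c)^[j] (lam (ts + n)) = lam (t + 1 + n + ts) := by
    rw [← h, ← h1 n, ← Function.iterate_add_apply, ← Function.iterate_add_apply, add_comm]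
  have hn : ts + n ∈ Sx p := Sx_add hts n
  have h3 : ∀ M : ℕ, (F 2 c)^[j] (lam (ts + n + M)) = lam (t + 1 + n + ts + M) := by
    intro M
    rw [← (hit M _ hn).2, ← (hit M _ ht).2, ← h2, ← Function.iterate_add_apply,
      ← Function.iterate_add_apply, add_comm]
  have h4 : Tendsto (fun M : ℕ => (F 2 c)^[j] (lam (ts + n + M))) atTop
      (𝓝 ((F 2 c)^[j] (z 0))) := ((Fcont_iter c j).tendsto _).comp (tend hS hn)
  have h5 : Tendsto (fun M : ℕ => lam (t + 1 + n + ts + M)) atTop (𝓝 (z 0)) := tend hS ht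
  have h6 : (F 2 c)^[j] (z 0) = z 0 := by
    refine tendsto_nhds_unique h4 ?_
    simpa only [h3] using h5
  rw [hz] at h6
  have hj0 : j = 0 := hP.dst j 0 hj (lt_of_lt_of_le Nat.zero_lt_one hP.hk) h6
  subst hj0
  have h7 : ts + (n : ℂ) = t + 1 + n + ts := hS.inj hn ht (by simpa using h2)
  linear_combination -h7

/-- the data: the shifted coordinate and its extension -/
structure Ex (k : ℕ) (c : ℂ) (g : ℂ → ℂ) (L0 : ℂ → ℂ) : Prop where
  op : DifferentiableOn ℂ L0 OM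
  eqs : ∀ t ∈ OM, (F 2 c)^[k] (L0 t) = L0 (t + 1)
  ext : EqOn L0 g (Sx 0)

theorem OM_open : IsOpen OM := by
  have h : OM = {t : ℂ | t.im ≠ 0} ∪ {t : ℂ | -1 < t.re} := rfl
  rw [h]
  exact (isOpen_ne_fun Complex.continuous_im continuous_const).union
    (isOpen_lt continuous_const Complex.continuous_re)

theorem OM_add1 {t : ℂ} (ht : t ∈ OM) : t + 1 ∈ OM := by
  rcases ht with h | h
  · left
    simpa using h
  · right
    simp only [add_re, one_re]
    linarith

theorem Sx_OM {t : ℂ} (ht : t ∈ Sx (-1)) : t ∈ OM := by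
  right
  simp only [Sx, mem_ofPred_eq] at ht
  have := abs_nonneg t.im
  linarith

theorem exists_ext (hEXN : T_EXN) {k : ℕ} {c : ℂ} {g : ℂ → ℂ} {S : Set ℂ} (hk : 1 ≤ k)
    (hS : IsOpen S) (hS0 : Sx 0 ⊆ S) (hgd : DifferentiableOn ℂ g S) (hgi : InjOn g S)
    (hgeq : ∀ t ∈ S, (F 2 c)^[k] (g t) = g (t + 1))
    (hav : ∀ (t : ℂ) (n : ℕ), t + 1 + n ∈ S → ∀ j < k,
      (F 2 c)^[k * n] ((F 2 c)^[j] c) = g (t + 1 + n) → t = -1) :
    ∃ L0 : ℂ → ℂ, Ex k c g L0 := by
  have hd' : ∀ t ∈ Sx 0, deriv g t ≠ 0 := by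
    intro t ht
    have h2 : S ∈ 𝓝 t := hS.mem_nhds (hS0 ht)
    exact Pool.Agent.PLim.PHIp_.deriv_ne_zero_of_injOn (hgd.analyticAt h2) h2 hgi
  have main : ∀ Wi : Set ℂ, IsOpen Wi → Convex ℝ Wi → (Sx 0 ∩ Wi).Nonempty →
      (∀ t ∈ Wi, t + 1 ∈ Wi) → (∀ t ∈ Wi, t ≠ -1) →
      ∃ mu : ℂ → ℂ, DifferentiableOn ℂ mu Wi ∧ EqOn mu g (Sx 0 ∩ Wi) ∧
        ∀ t ∈ Wi, (F 2 c)^[k] (mu t) = mu (t + 1) := by
    intro Wi hWo hWc hWn hW1 hWm
    have hadd : ∀ (n : ℕ), ∀ t ∈ Wi, t + n ∈ Wi := by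
      intro n
      induction n with
      | zero => intro t ht; simpa using ht
      | succ n ih =>
        intro t ht
        have := hW1 _ (ih t ht)
        have e : t + ((n + 1 : ℕ) : ℂ) = t + n + 1 := by push_cast; ring
        rwa [e]
    refine hEXN k c (Sx 0 ∩ Wi) Wi g hk ((isOpen_Sx 0).inter hWo) ((convex_Sx 0).inter hWc)
      hWn (fun t ht => ⟨Sx_add1 ht.1, hW1 t ht.2⟩) hWo hWc inter_subset_right hW1 ?_
      (hgd.mono (inter_subset_left.trans hS0)) (fun t ht => hgeq t (hS0 ht.1)) ?_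
      (fun t ht => hd' t ht.1)
    · intro t ht
      obtain ⟨n, hn⟩ := exists_mem 0 t
      exact ⟨n, hn n le_rfl, hadd n t ht⟩
    · intro t ht n hn j hj h
      exact hWm t ht (hav t n (hS0 hn.1) j hj h)
  have hU : IsOpen {t : ℂ | 0 < t.im} := isOpen_lt continuous_const Complex.continuous_im
  have hV : IsOpen {t : ℂ | t.im < 0} := isOpen_lt Complex.continuous_im continuous_const
  have cU : Convex ℝ {t : ℂ | 0 < t.im} := convex_halfSpace_im_gt 0
  have cV : Convex ℝ {t : ℂ | t.im < 0} := convex_halfSpace_im_lt 0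
  have hm1 : ∀ t ∈ Sx (-1), t ≠ -1 := by
    intro t ht h
    subst h
    simp [Sx] at ht
  obtain ⟨mA, dA, eA, fA⟩ := main (Sx (-1)) (isOpen_Sx _) (convex_Sx _)
    ⟨1, by simp [Sx], by simp [Sx]⟩ (fun t ht => Sx_add1 ht) hm1
  obtain ⟨mU, dU, eU, fU⟩ := main {t : ℂ | 0 < t.im} hU cU
    ⟨10 + I, by simp [Sx]; norm_num, by simp⟩ (fun t ht => by simpa using ht)
    (fun t ht h => by subst h; simp at ht)
  obtain ⟨mV, dV, eV, fV⟩ := main {t : ℂ | t.im < 0} hV cV
    ⟨10 - I, by simp [Sx]; norm_num, by simp⟩ (fun t ht => by simpa using ht)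
    (fun t ht h => by subst h; simp at ht)
  have h01 : Sx 0 ⊆ Sx (-1) := by
    intro t ht
    simp only [Sx, mem_ofPred_eq] at ht ⊢
    linarith
  have ident : ∀ (W : Set ℂ) (m : ℂ → ℂ), IsOpen W → Convex ℝ W → DifferentiableOn ℂ m W →
      EqOn m g (Sx 0 ∩ W) → (Sx 0 ∩ W).Nonempty → ∀ t ∈ Sx (-1) ∩ W, m t = mA t := by
    intro W m hWo hWc hm he ⟨w, hw⟩
    have hop : IsOpen (Sx (-1) ∩ W) := (isOpen_Sx _).inter hWo
    have hpc : IsPreconnected (Sx (-1) ∩ W) := ((convex_Sx _).inter hWc).isPreconnected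
    have a1 : AnalyticOnNhd ℂ m (Sx (-1) ∩ W) :=
      (hm.mono inter_subset_right).analyticOnNhd hop
    have a2 : AnalyticOnNhd ℂ mA (Sx (-1) ∩ W) :=
      (dA.mono inter_subset_left).analyticOnNhd hop
    refine a1.eqOn_of_preconnected_of_eventuallyEq a2 hpc ⟨h01 hw.1, hw.2⟩ ?_
    filter_upwards [((isOpen_Sx 0).inter hWo).mem_nhds hw] with s hs
    rw [he hs, eA ⟨hs.1, h01 hs.1⟩]
  have iU := ident _ mU hU cU dU eU ⟨10 + I, by simp [Sx]; norm_num, by simp⟩
  have iV := ident _ mV hV cV dV eV ⟨10 - I, by simp [Sx]; norm_num, by simp⟩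
  set L0 : ℂ → ℂ := fun t => if 0 < t.im then mU t else if t.im < 0 then mV t else mA t with hL0
  have LU : ∀ t : ℂ, 0 < t.im → L0 t = mU t := fun t ht => by simp [hL0, ht]
  have LV : ∀ t : ℂ, t.im < 0 → L0 t = mV t := fun t ht => by
    simp [hL0, ht, not_lt.2 ht.le]
  have LA : ∀ t ∈ Sx (-1), L0 t = mA t := by
    intro t ht
    rcases lt_trichotomy t.im 0 with h | h | h
    · rw [LV t h]; exact iV t ⟨ht, h⟩
    · simp [hL0, h]
    · rw [LU t h]; exact iU t ⟨ht, h⟩
  have hcase : ∀ t ∈ OM, 0 < t.im ∨ t.im < 0 ∨ t ∈ Sx (-1) := by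
    intro t ht
    rcases lt_trichotomy t.im 0 with h | h | h
    · exact Or.inr (Or.inl h)
    · right; right
      rcases ht with h1 | h1
      · exact absurd h h1
      · simp only [Sx, mem_ofPred_eq, h, abs_zero]
        linarith
    · exact Or.inl h
  refine ⟨L0, ?_, ?_, ?_⟩
  · intro t ht
    refine DifferentiableAt.differentiableWithinAt ?_
    rcases hcase t ht with h | h | h
    · refine ((dU t h).differentiableAt (hU.mem_nhds h)).congr_of_eventuallyEq ?_
      filter_upwards [hU.mem_nhds h] with s hs using LU s hs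
    · refine ((dV t h).differentiableAt (hV.mem_nhds h)).congr_of_eventuallyEq ?_
      filter_upwards [hV.mem_nhds h] with s hs using LV s hs
    · refine ((dA t h).differentiableAt ((isOpen_Sx _).mem_nhds h)).congr_of_eventuallyEq ?_
      filter_upwards [(isOpen_Sx (-1)).mem_nhds h] with s hs using LA s hs
  · intro t ht
    rcases hcase t ht with h | h | h
    · rw [LU t h, LU (t + 1) (by simpa using h), fU t h]
    · rw [LV t h, LV (t + 1) (by simpa using h), fV t h]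
    · rw [LA t h, LA (t + 1) (Sx_add1 h), fA t h]
  · intro t ht
    rw [LA t (h01 ht), eA ⟨ht, h01 ht⟩]

/-- the filter of the cone -/
def Cn : Filter ℂ := comap Complex.re atTop ⊓ 𝓟 {t : ℂ | 5 * |t.im| ≤ t.re}

theorem Cn_iff {P : ℂ → Prop} : (∀ᶠ t in Cn, P t) ↔
    ∃ T : ℝ, 0 < T ∧ ∀ t : ℂ, T ≤ t.re → 5 * |t.im| ≤ t.re → P t := by
  unfold Cn
  rw [eventually_inf_principal, eventually_comap, eventually_atTop]
  constructor
  · rintro ⟨T, hT⟩
    refine ⟨max T 1, by positivity, fun t ht h5 => ?_⟩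
    exact hT t.re ((le_max_left _ _).trans ht) t rfl h5
  · rintro ⟨T, -, hT⟩
    refine ⟨T, fun r hr t ht h5 => hT t ?_ h5⟩
    rw [ht]
    exact hr

theorem Cn_re : Tendsto Complex.re Cn atTop := by
  unfold Cn
  exact tendsto_comap.mono_left inf_le_left

theorem Cn_norm : Tendsto (fun t : ℂ => ‖t‖) Cn atTop :=
  tendsto_atTop_mono (fun t => Complex.re_le_norm t) Cn_re

theorem Cn_inv : Tendsto (fun t : ℂ => t⁻¹) Cn (𝓝 0) := by
  rw [tendsto_zero_iff_norm_tendsto_zero]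
  simp only [norm_inv]
  exact tendsto_inv_atTop_zero.comp Cn_norm

theorem asy_iff {f : ℂ → ℂ} {ζ α : ℂ} (h : ∀ ε : ℝ, 0 < ε → ∃ T : ℝ, 0 < T ∧ ∀ t : ℂ,
    T ≤ t.re → 5 * |t.im| ≤ t.re → ‖t * (f t - ζ) + 1 / α‖ ≤ ε ∧
      ‖t ^ 2 * deriv f t - 1 / α‖ ≤ ε) :
    Tendsto (fun t => t * (f t - ζ)) Cn (𝓝 (-(1 / α))) ∧
      Tendsto (fun t => t ^ 2 * deriv f t) Cn (𝓝 (1 / α)) := by
  constructor
  · rw [Metric.tendsto_nhds]
    intro ε hε
    obtain ⟨T, hT0, hT⟩ := h (ε / 2) (by positivity)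
    rw [Cn_iff]
    refine ⟨T, hT0, fun t h1 h2 => ?_⟩
    rw [dist_eq_norm, sub_neg_eq_add]
    linarith [(hT t h1 h2).1]
  · rw [Metric.tendsto_nhds]
    intro ε hε
    obtain ⟨T, hT0, hT⟩ := h (ε / 2) (by positivity)
    rw [Cn_iff]
    refine ⟨T, hT0, fun t h1 h2 => ?_⟩
    rw [dist_eq_norm]
    linarith [(hT t h1 h2).2]

theorem asy_of {f : ℂ → ℂ} {ζ α : ℂ}
    (h1 : Tendsto (fun t => t * (f t - ζ)) Cn (𝓝 (-(1 / α))))
    (h2 : Tendsto (fun t => t ^ 2 * deriv f t) Cn (𝓝 (1 / α))) : ∀ ε : ℝ, 0 < ε →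
    ∃ T : ℝ, 0 < T ∧ ∀ t : ℂ, T ≤ t.re → 5 * |t.im| ≤ t.re →
      ‖t * (f t - ζ) + 1 / α‖ ≤ ε ∧ ‖t ^ 2 * deriv f t - 1 / α‖ ≤ ε := by
  intro ε hε
  have e1 := (Metric.tendsto_nhds.1 h1) ε hε
  have e2 := (Metric.tendsto_nhds.1 h2) ε hε
  have e3 := e1.and e2
  rw [Cn_iff] at e3
  obtain ⟨T, hT0, hT⟩ := e3
  refine ⟨T, hT0, fun t g1 g2 => ?_⟩
  have := hT t g1 g2
  rw [dist_eq_norm, dist_eq_norm, sub_neg_eq_add] at this
  exact ⟨this.1.le, this.2.le⟩

theorem Cn_Sx : ∀ᶠ t in Cn, t ∈ Sx 0 := by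
  rw [Cn_iff]
  refine ⟨1, one_pos, fun t h1 h2 => ?_⟩
  simp only [Sx, mem_ofPred_eq]
  have := abs_nonneg t.im
  rcases this.eq_or_lt with h | h
  · rw [← h]; linarith
  · linarith

theorem lim_of {f : ℂ → ℂ} {ζ w : ℂ} (h : Tendsto (fun t => t * (f t - ζ)) Cn (𝓝 w)) :
    Tendsto f Cn (𝓝 ζ) := by
  have h1 : Tendsto (fun t => t⁻¹ * (t * (f t - ζ)) + ζ) Cn (𝓝 (0 * w + ζ)) :=
    (Cn_inv.mul h).add_const ζ
  rw [zero_mul, zero_add] at h1
  refine h1.congr' ?_
  filter_upwards [Cn_Sx] with t ht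
  have h0 : t ≠ 0 := by
    rintro rfl
    simp [Sx] at ht
  field_simp
  ring

end OMX_

open OMX_ in
theorem p_OMX (hEXN : T_EXN) (hESC : T_ESC) (hAST : T_AST) : T_OMX := by
  intro k c z a p lam ts hP hp hS hts hc
  have hk := hP.hk
  have hz : ∀ l j : ℕ, (F 2 c)^[j] (z l) = z (l + j) := fun l j => (hAST k c z a hP l).2.2.2.2.1 j
  have hz0 : ∀ j, (F 2 c)^[j] (z 0) = z j := fun j => by simpa using hz 0 j
  set S : Set ℂ := {t | t + ts ∈ Sx p} with hSdef
  set g : ℂ → ℂ := fun t => lam (t + ts) with hg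
  have hSo : IsOpen S := (isOpen_Sx p).preimage (by fun_prop)
  have hS0 : Sx 0 ⊆ S := by
    intro t ht
    simp only [Sx, mem_ofPred_eq, hSdef] at ht hts ⊢
    have h1 : |(t + ts).im| ≤ |t.im| + |ts.im| := by
      rw [add_im]; exact abs_add_le _ _
    rw [add_re]
    linarith
  have h0S : (0 : ℂ) ∈ S := by
    simp only [hSdef, mem_ofPred_eq, zero_add]
    exact hts
  have hgd : DifferentiableOn ℂ g S := by
    intro t ht
    have h1 := (hS.dif (t + ts) ht).differentiableAt ((isOpen_Sx p).mem_nhds ht)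
    exact (h1.comp t (by fun_prop : DifferentiableAt ℂ (fun t => t + ts) t)).differentiableWithinAt
  have hgi : InjOn g S := by
    intro t ht s hs h
    have := hS.inj ht hs h
    exact add_right_cancel this
  have hgeq : ∀ t ∈ S, (F 2 c)^[k] (g t) = g (t + 1) := by
    intro t ht
    have := hS.eq (t + ts) ht
    simp only [hg]
    rw [this]
    congr 1
    ring
  obtain ⟨L0, hE⟩ := exists_ext hEXN hk hSo hS0 hgd hgi hgeq (by
    intro t n ht j hj h
    exact avoid hP hz0 hS hts hc (by simpa [hSdef] using ht) hj h)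
  have hL0n := itn (k := k) (c := c) (D := OM) (fun t ht => OM_add1 ht) hE.eqs
  set L : ℕ → ℂ → ℂ := fun l t => (F 2 c)^[l] (L0 t) with hL
  have hstp : ∀ l t, F 2 c (L l t) = L (l + 1) t := fun l t => by
    simp only [hL, Function.iterate_succ_apply']
  have hper : ∀ l, ∀ t ∈ OM, L (l + k) t = L l (t + 1) := by
    intro l t ht
    simp only [hL, Function.iterate_add_apply, hE.eqs t ht]
  have hitl : ∀ (l n : ℕ), ∀ t ∈ OM, (F 2 c)^[k * n] (L l t) = L l (t + n) := by
    intro l n t ht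
    simp only [hL]
    rw [← Function.iterate_add_apply, add_comm, Function.iterate_add_apply, (hL0n n t ht).2]
  -- limits along t + M
  have hlim0 : ∀ t ∈ OM, Tendsto (fun M : ℕ => L0 (t + M)) atTop (𝓝 (z 0)) := by
    intro t ht
    obtain ⟨n, hn⟩ := exists_mem 0 t
    have h1 := tend hS (hS0 (hn n le_rfl))
    have h2 : Tendsto (fun M : ℕ => L0 (t + (M + n : ℕ))) atTop (𝓝 (z 0)) := by
      refine h1.congr fun M => ?_
      have h3 := hn (M + n) (by omega)
      rw [hE.ext h3]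
      simp only [hg]
      congr 1
      push_cast
      ring
    exact (tendsto_add_atTop_iff_nat n).1 h2
  have hliml : ∀ l, ∀ t ∈ OM, Tendsto (fun M : ℕ => L l (t + M)) atTop (𝓝 (z l)) := by
    intro l t ht
    have := ((Fcont_iter c l).tendsto (z 0)).comp (hlim0 t ht)
    rwa [hz0 l] at this
  have h0OM : (0 : ℂ) ∈ OM := by right; simp
  have htip : L0 0 = c := by
    have hx : Tendsto (fun n : ℕ => ((1 / ((n : ℝ) + 1) : ℝ) : ℂ)) atTop (𝓝 0) := by
      have h1 := tendsto_one_div_add_atTop_nhds_zero_nat (𝕜 := ℝ)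
      have h2 := (Complex.continuous_ofReal.tendsto 0).comp h1
      rw [ofReal_zero] at h2
      exact h2
    have hc1 : ContinuousAt L0 0 :=
      ((hE.op 0 h0OM).differentiableAt (OM_open.mem_nhds h0OM)).continuousAt
    have hc2 : ContinuousAt g 0 :=
      ((hgd 0 h0S).differentiableAt (hSo.mem_nhds h0S)).continuousAt
    have l1 := hc1.tendsto.comp hx
    have l2 := hc2.tendsto.comp hx
    have hg0 : g 0 = c := by simp [hg, hc]
    rw [hg0] at l2
    refine tendsto_nhds_unique l1 (l2.congr fun n => ?_)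
    have hpos : (0 : ℝ) < 1 / ((n : ℝ) + 1) := by positivity
    have hm : ((1 / ((n : ℝ) + 1) : ℝ) : ℂ) ∈ Sx 0 := by
      simp only [Sx, mem_ofPred_eq, ofReal_im, ofReal_re, abs_zero]
      linarith
    exact (hE.ext hm).symm
  -- boundedness
  have hbd1 : ∀ l, ∀ t ∈ OM, ∃ B : ℝ, ∀ n : ℕ, ‖(F 2 c)^[n] (L l t)‖ ≤ B := by
    intro l t ht
    have h1 : ∀ r : ℕ, ∃ B : ℝ, ∀ q : ℕ, ‖(F 2 c)^[r] (L l (t + q))‖ ≤ B := by
      intro r
      have h2 := ((Fcont_iter c r).tendsto (z l)).comp (hliml l t ht)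
      obtain ⟨B, hB⟩ := (Metric.isBounded_range_of_tendsto _ h2).exists_norm_le
      exact ⟨B, fun q => hB _ ⟨q, rfl⟩⟩
    choose B hB using h1
    have hBn : ∀ r, 0 ≤ B r := fun r => (norm_nonneg _).trans (hB r 0)
    refine ⟨∑ r ∈ Finset.range k, B r, fun n => ?_⟩
    have hn : n % k < k := Nat.mod_lt _ (lt_of_lt_of_le Nat.zero_lt_one hk)
    have h3 : (F 2 c)^[n] (L l t) = (F 2 c)^[n % k] (L l (t + (n / k : ℕ))) := by
      calc (F 2 c)^[n] (L l t) = (F 2 c)^[n % k + k * (n / k)] (L l t) := by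
            rw [Nat.mod_add_div]
        _ = (F 2 c)^[n % k] ((F 2 c)^[k * (n / k)] (L l t)) := Function.iterate_add_apply _ _ _ _
        _ = _ := by rw [hitl l (n / k) t ht]
    rw [h3]
    refine (hB _ _).trans ?_
    exact Finset.single_le_sum (f := B) (fun r _ => hBn r) (Finset.mem_range.2 hn)
  have hc2 : ‖c‖ ≤ 2 := by
    obtain ⟨B, hB⟩ := hbd1 0 0 h0OM
    have : L 0 0 = c := by simpa [hL] using htip
    rw [this] at hB
    exact (hESC c c B hB).2 rfl
  -- differentiability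
  have hdif : ∀ l, DifferentiableOn ℂ (L l) OM := fun l =>
    (Fdiff_iter c l).comp_differentiableOn hE.op
  -- asymptotics
  have hasy0 : Tendsto (fun t => t * (L 0 t - z 0)) Cn (𝓝 (-(1 / a 0))) ∧
      Tendsto (fun t => t ^ 2 * deriv (L 0) t) Cn (𝓝 (1 / a 0)) := by
    have hq : Tendsto (fun t : ℂ => 1 + ts * t⁻¹) Cn (𝓝 1) := by
      have h1 := (Cn_inv.const_mul ts).const_add (1 : ℂ)
      simpa using h1
    have hq' : Tendsto (fun t : ℂ => (1 + ts * t⁻¹)⁻¹) Cn (𝓝 1) := by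
      simpa using hq.inv₀ one_ne_zero
    have hne : ∀ᶠ t : ℂ in Cn, t ≠ 0 := by
      filter_upwards [Cn_Sx] with t ht
      rintro rfl
      simp [Sx] at ht
    have key1 : Tendsto (fun t : ℂ => (t + ts) * (lam (t + ts) - z 0)) Cn (𝓝 (-(1 / a 0))) := by
      rw [Metric.tendsto_nhds]
      intro ε hε
      obtain ⟨T, hT⟩ := hS.asy (ε / 2) (by positivity)
      filter_upwards [Cn_Sx, Cn_re.eventually_ge_atTop (T - ts.re)] with t h1 h2
      have h3 := (hT (t + ts) (hS0 h1) (by rw [add_re]; linarith)).1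
      rw [dist_eq_norm, sub_neg_eq_add]
      linarith
    have key2 : Tendsto (fun t : ℂ => (t + ts) ^ 2 * deriv lam (t + ts)) Cn (𝓝 (1 / a 0)) := by
      rw [Metric.tendsto_nhds]
      intro ε hε
      obtain ⟨T, hT⟩ := hS.asy (ε / 2) (by positivity)
      filter_upwards [Cn_Sx, Cn_re.eventually_ge_atTop (T - ts.re)] with t h1 h2
      have h3 := (hT (t + ts) (hS0 h1) (by rw [add_re]; linarith)).2
      rw [dist_eq_norm]
      linarith
    have hnz : ∀ᶠ t : ℂ in Cn, (1 + ts * t⁻¹) ≠ 0 := hq.eventually_ne one_ne_zero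
    constructor
    · have h1 := hq'.mul key1
      rw [one_mul] at h1
      refine h1.congr' ?_
      filter_upwards [Cn_Sx, hne, hnz] with t h1 h2 h3
      have h4 : L 0 t = lam (t + ts) := hE.ext h1
      rw [h4]
      have h5 : t + ts = t * (1 + ts * t⁻¹) := by field_simp
      generalize lam (t + ts) = y
      rw [h5]
      generalize 1 + ts * t⁻¹ = w at h3 ⊢
      field_simp
    · have h1 := (hq'.pow 2).mul key2
      rw [one_pow, one_mul] at h1
      refine h1.congr' ?_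
      filter_upwards [Cn_Sx, hne, hnz] with t h1 h2 h3
      have h4 : L 0 =ᶠ[𝓝 t] fun s => lam (s + ts) := by
        filter_upwards [(isOpen_Sx 0).mem_nhds h1] with s hs using hE.ext hs
      rw [h4.deriv_eq, deriv_comp_add_const]
      have h5 : t + ts = t * (1 + ts * t⁻¹) := by field_simp
      generalize deriv lam (t + ts) = y
      rw [h5]
      generalize 1 + ts * t⁻¹ = w at h3 ⊢
      field_simp
  have hasy : ∀ l, Tendsto (fun t => t * (L l t - z l)) Cn (𝓝 (-(1 / a l))) ∧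
      Tendsto (fun t => t ^ 2 * deriv (L l) t) Cn (𝓝 (1 / a l)) := by
    intro l
    induction l with
    | zero => exact hasy0
    | succ l ih =>
      obtain ⟨ha1, -, hzl, -⟩ := hAST k c z a hP l
      have hal := hP.ane l
      have hal1 := hP.ane (l + 1)
      have hlim := lim_of ih.1
      have e1 : (1 / a l) * (2 * z l) = 1 / a (l + 1) := by
        rw [ha1]
        field_simp
      constructor
      · have h1 : Tendsto (fun t => (t * (L l t - z l)) * (L l t + z l)) Cn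
            (𝓝 (-(1 / a l) * (z l + z l))) := ih.1.mul (hlim.add_const _)
        have e2 : -(1 / a l) * (z l + z l) = -(1 / a (l + 1)) := by rw [← e1]; ring
        rw [e2] at h1
        refine h1.congr fun t => ?_
        rw [← hstp l t, ← hP.stp l]
        simp only [F]
        ring
      · have h1 : Tendsto (fun t => (t ^ 2 * deriv (L l) t) * (2 * L l t)) Cn
            (𝓝 ((1 / a l) * (2 * z l))) := ih.2.mul (hlim.const_mul 2)
        rw [e1] at h1
        refine h1.congr' ?_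
        filter_upwards [Cn_Sx] with t ht
        have htO : t ∈ OM := by
          right
          simp only [Sx, mem_ofPred_eq] at ht
          have := abs_nonneg t.im
          linarith
        have hda := ((hdif l) t htO).differentiableAt (OM_open.mem_nhds htO)
        have h2 : HasDerivAt (L (l + 1)) (2 * L l t * deriv (L l) t) t := by
          have h3 : HasDerivAt (fun s => (L l s) ^ 2 + c) (2 * L l t * deriv (L l) t) t := by
            simpa using (hda.hasDerivAt.pow 2).add_const c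
          refine h3.congr_of_eventuallyEq (Eventually.of_forall fun s => ?_)
          show L (l + 1) s = (L l s) ^ 2 + c
          rw [← hstp l s]
          rfl
        rw [h2.deriv]
        ring
  refine ⟨L, ⟨hdif, fun l t _ => hstp l t, hper, ?_, by simpa [hL] using htip, ?_, ?_,
    fun l => asy_of (hasy l).1 (hasy l).2⟩⟩
  · -- injectivity
    intro l m hl hm t ht s hs h
    have h1 : ∀ M : ℕ, L l (t + M) = L m (s + M) := fun M => by
      rw [← hitl l M t ht, ← hitl m M s hs, h]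
    have h2 : z l = z m := by
      have h3 := hliml m s hs
      simp only [← h1] at h3
      exact tendsto_nhds_unique (hliml l t ht) h3
    have hlm : l = m := hP.dst l m hl hm h2
    refine ⟨hlm, ?_⟩
    subst hlm
    have h4 : L0 (t + 1) = L0 (s + 1) := by
      have h5 : ∀ x ∈ OM, (F 2 c)^[k - l] (L l x) = L0 (x + 1) := by
        intro x hx
        simp only [hL]
        rw [← Function.iterate_add_apply, Nat.sub_add_cancel hl.le, hE.eqs x hx]
      rw [← h5 t ht, ← h5 s hs, h]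
    obtain ⟨n1, hn1⟩ := exists_mem 0 (t + 1)
    obtain ⟨n2, hn2⟩ := exists_mem 0 (s + 1)
    set M := max n1 n2 with hM
    have g1 := hn1 M (le_max_left _ _)
    have g2 := hn2 M (le_max_right _ _)
    have h6 : L0 (t + 1 + M) = L0 (s + 1 + M) := by
      rw [← (hL0n M _ (OM_add1 ht)).2, ← (hL0n M _ (OM_add1 hs)).2, h4]
    rw [hE.ext g1, hE.ext g2] at h6
    have h7 := hgi (hS0 g1) (hS0 g2) h6
    have h8 : t + 1 = s + 1 := add_right_cancel h7
    exact add_right_cancel h8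
  · -- the critical point
    have hcont : ContinuousAt L0 0 :=
      ((hE.op 0 h0OM).differentiableAt (OM_open.mem_nhds h0OM)).continuousAt
    have h1 : Tendsto (fun s : ℝ => ((s : ℂ) + 1)) (𝓝[>] (-1)) (𝓝 0) := by
      have h2 : ContinuousAt (fun s : ℝ => ((s : ℂ) + 1)) (-1) := by fun_prop
      have h3 := h2.tendsto.mono_left (nhdsWithin_le_nhds (s := Ioi (-1)))
      simpa using h3
    have h2 : Tendsto (fun s : ℝ => L0 ((s : ℂ) + 1) - c) (𝓝[>] (-1)) (𝓝 0) := by
      have h3 := (hcont.tendsto.comp h1).sub_const c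
      rw [htip, sub_self] at h3
      exact h3
    have h3 : Tendsto (fun s : ℝ => √‖L0 ((s : ℂ) + 1) - c‖) (𝓝[>] (-1)) (𝓝 0) := by
      have h4 := (Real.continuous_sqrt.tendsto 0).comp (tendsto_zero_iff_norm_tendsto_zero.1 h2)
      rw [Real.sqrt_zero] at h4
      exact h4
    rw [tendsto_zero_iff_norm_tendsto_zero]
    refine h3.congr' ?_
    filter_upwards [self_mem_nhdsWithin] with s hs
    have hs' : (s : ℂ) ∈ OM := by
      right
      simpa using hs
    have h4 : F 2 c (L (k - 1) s) = L0 (s + 1) := by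
      rw [hstp, Nat.sub_add_cancel hk]
      simpa [hL] using hE.eqs s hs'
    have h5 : L0 ((s : ℂ) + 1) - c = (L (k - 1) s) ^ 2 := by
      rw [← h4]
      simp only [F]
      ring
    rw [h5, norm_pow, Real.sqrt_sq (norm_nonneg _)]
  · -- the bound
    intro l t ht
    obtain ⟨B, hB⟩ := hbd1 l t ht
    have := (hESC c (L l t) B hB).1
    rwa [max_eq_left hc2] at this

end Pool.Agent.CUSP
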