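import Pool.Agent.CUSP.Targets3

set_option autoImplicit false

open Complex Filter Topology Set MeasureTheory
open Pool.Agent.Limb (F)
open Pool.Agent.PLim (Rho)
open Pool.Agent.MEY (Pt)
open Pool.Agent.PSat (Comp Sat)
open Pool.Agent.AEN (vm Hp Exn)
open Pool.Agent.MEZ (T_NCZ T_SECZ)

namespace Pool.Agent.CUSP

theorem p_P0 (h₁ : T_OBS) (h₂ : T_OMX) (h₃ : T_ACF) (h₄ : T_SUM) (h₅ : T_FRM) (h₆ : T_ABI)
    (h₇ : T_AST) : T_P0 := by
  obtain ⟨C, hC, hS⟩ := h₄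
  refine ⟨3 / (2 * C), by positivity, ?_⟩
  intro k c z a hP
  obtain ⟨m, p, lam, ts, hp, hSy, hts, hl⟩ := h₁ k c z a hP
  have hP' : Prb k c (fun i => z (i + m)) (fun i => a (i + m)) :=
    (h₇ k c z a hP 0).2.2.2.2.2.2 m
  have hSy' : Sy k c ((fun i => z (i + m)) 0) ((fun i => a (i + m)) 0) p lam := by
    simpa using hSy
  obtain ⟨L, hF⟩ := h₂ k c _ _ p lam ts hP' hp hSy' hts hl
  have hD : Dat k c (fun i => z (i + m)) (fun i => a (i + m)) L := ⟨hP', hF⟩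
  obtain ⟨A, hA⟩ := h₃ k c _ _ hP'
  have h := h₅ C k c _ _ L A hD hA (fun s hs => hS k c _ _ L A hD hA s hs)
  have hm := h₆ k c z a hP m
  have e : (fun i => a (i + m)) 0 * BB c k ((fun i => z (i + m)) 0)
      = a 0 * BB c k (z 0) := by
    simpa using hm
  rw [e] at h
  rw [div_le_iff₀ (by positivity)]
  linarith

end Pool.Agent.CUSP
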