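import Pool.Agent.CUSP.Targets3

/-!
# CUSP, target RAS: the asymptotics of the Cauchy transform
-/

set_option autoImplicit false

open Complex Filter Topology Set MeasureTheory
open Pool.Agent.Limb (F)
open Pool.Agent.PLim (Rho)
open Pool.Agent.MEY (Pt)
open Pool.Agent.PSat (Comp Sat)
open Pool.Agent.AEN (vm Hp Exn)
open Pool.Agent.MEZ (T_NCZ T_SECZ)

namespace Pool.Agent.CUSP

theorem RAS_.ball_sub_OM (t : ℝ) (ht : 0 ≤ t) : Metric.ball (t : ℂ) ((t + 1) / 2) ⊆ OM := by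
  intro s hs
  rw [Metric.mem_ball, dist_eq_norm] at hs
  have h1 : |(s - t).re| ≤ ‖s - t‖ := Complex.abs_re_le_norm _
  rw [Complex.sub_re, Complex.ofReal_re] at h1
  have h2 := (abs_le.mp h1).1
  refine Or.inr ?_
  linarith

/-- The points `L 0 n` are closer to `z 0` than to the grand orbit, up to a constant. -/
theorem RAS_.dist (h₁ : T_GOP) (h₂ : T_TLE) : ∃ C : ℝ, 0 < C ∧
    ∀ (k : ℕ) (c : ℂ) (z a : ℕ → ℂ) (L : ℕ → ℂ → ℂ), Dat k c z a L →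
    ∀ᶠ n : ℕ in atTop, ∀ y ∈ GO c z, ‖L 0 n - z 0‖ ≤ C * ‖L 0 n - y‖ := by
  obtain ⟨C1, hC1, hT⟩ := h₂
  have hC1' : 0 < C1 := by linarith
  refine ⟨2 * C1, by linarith, ?_⟩
  intro k c z a L hD
  obtain ⟨-, -, hO, -⟩ := h₁ k c z a L hD
  have hk : 0 < k := hD.prb.hk
  have ha : a 0 ≠ 0 := hD.prb.ane 0
  have hb : 0 < ‖1 / a 0‖ := norm_pos_iff.mpr (one_div_ne_zero ha)
  obtain ⟨T, hT0, hasy⟩ := hD.ftc.asy 0 (‖1 / a 0‖ / 3) (by linarith)
  filter_upwards [eventually_ge_atTop (⌈T⌉₊ + 1)] with n hn y hy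
  have hnT : T ≤ (n : ℝ) := by
    have h1 : T ≤ (⌈T⌉₊ : ℝ) := Nat.le_ceil T
    have h2 : ((⌈T⌉₊ + 1 : ℕ) : ℝ) ≤ (n : ℝ) := by exact_mod_cast hn
    push_cast at h2
    linarith
  have hn0 : 0 < (n : ℝ) := by linarith
  obtain ⟨h1, h2⟩ := hasy (n : ℂ) (by simpa using hnT) (by simp)
  have h3 : ‖(n : ℂ)‖ = n := by simp
  have h4 : (n : ℝ) * ‖L 0 n - z 0‖ ≤ 4 / 3 * ‖1 / a 0‖ := by
    have e : (n : ℂ) * (L 0 n - z 0) = ((n : ℂ) * (L 0 n - z 0) + 1 / a 0) - 1 / a 0 := by ring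
    have h5 : ‖(n : ℂ) * (L 0 n - z 0)‖ ≤ ‖1 / a 0‖ / 3 + ‖1 / a 0‖ := by
      rw [e]
      exact (norm_sub_le _ _).trans (by linarith)
    rw [norm_mul, h3] at h5
    linarith
  have h6 : 2 / 3 * ‖1 / a 0‖ ≤ (n : ℝ) ^ 2 * ‖deriv (L 0) n‖ := by
    have e : 1 / a 0 = (n : ℂ) ^ 2 * deriv (L 0) n - ((n : ℂ) ^ 2 * deriv (L 0) n - 1 / a 0) := by
      ring
    have h5 : ‖1 / a 0‖ ≤ ‖(n : ℂ) ^ 2 * deriv (L 0) n‖ + ‖1 / a 0‖ / 3 := by
      conv_lhs => rw [e]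
      exact (norm_sub_le _ _).trans (by linarith)
    rw [norm_mul, norm_pow, h3] at h5
    linarith
  have h7 : ‖L 0 n - z 0‖ ≤ 2 * (n * ‖deriv (L 0) n‖) := by
    have h8 : (n : ℝ) * ‖L 0 n - z 0‖ ≤ n * (2 * (n * ‖deriv (L 0) n‖)) := by nlinarith
    exact le_of_mul_le_mul_left h8 hn0
  obtain ⟨-, -, -, -, -, hball, -⟩ := hT k c z a L hD 0 n hk hn0.le
  rw [Complex.ofReal_natCast] at hball
  have hny : y ∉ Metric.ball (L 0 n) (((n : ℝ) + 1) * ‖deriv (L 0) n‖ / C1) := by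
    intro hyb
    obtain ⟨s, hs, hsy⟩ := hball hyb
    have hs' : s ∈ Metric.ball ((n : ℝ) : ℂ) (((n : ℝ) + 1) / 2) := by
      rw [Complex.ofReal_natCast]
      exact hs
    have := hO 0 s (RAS_.ball_sub_OM n hn0.le hs')
    rw [hsy] at this
    exact this hy
  rw [Metric.mem_ball, not_lt, dist_comm, dist_eq_norm, div_le_iff₀ hC1'] at hny
  have h9 : 0 ≤ ‖deriv (L 0) n‖ := norm_nonneg _
  nlinarith

theorem p_RAS (h₁ : T_GOP) (h₂ : T_TLE) (h₃ : T_XPR) : T_RAS := by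
  intro k c z a L A hD hA hS
  have hX := h₃ k c z a L hD
  obtain ⟨C, hC, hdist⟩ := RAS_.dist h₁ h₂
  have hev := hdist k c z a L hD
  classical
  have hlim : Tendsto (fun n : ℕ => L 0 n) atTop (𝓝 (z 0)) := by
    have h := (hX.lim 0).comp tendsto_natCast_atTop_atTop
    refine h.congr fun n => ?_
    simp [Function.comp]
  have hz0 : z 0 ∈ GO c z := ⟨0, 0, rfl⟩
  have hAz : A (z 0) = a 0 := by
    have h := hA (z 0) 0 0 rfl
    rw [h]
    simp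
  have hmain : Tendsto (fun n : ℕ => ∑' y : GO c z,
      (L 0 n - z 0) * (((A y) ^ 2)⁻¹ * (L 0 n - y)⁻¹)) atTop
      (𝓝 (∑' y : GO c z, if (y : ℂ) = z 0 then ((a 0) ^ 2)⁻¹ else 0)) := by
    refine tendsto_tsum_of_dominated_convergence (bound := fun y : GO c z => C * (‖A y‖ ^ 2)⁻¹)
      (hS.mul_left C) ?_ ?_
    · intro y
      by_cases hy : (y : ℂ) = z 0
      · rw [if_pos hy, hy, hAz]
        refine tendsto_const_nhds.congr fun n => ?_
        have hne : L 0 n - z 0 ≠ 0 := by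
          have h : (n : ℂ) ∈ OM := Or.inr (by
            simp only [Complex.natCast_re]
            have : (0 : ℝ) ≤ n := Nat.cast_nonneg n
            linarith)
          exact sub_ne_zero.mpr (hX.nez 0 0 n h)
        field_simp
      · rw [if_neg hy]
        have hne : z 0 - (y : ℂ) ≠ 0 := sub_ne_zero.mpr (Ne.symm hy)
        have h4 : Tendsto (fun n : ℕ => L 0 n - z 0) atTop (𝓝 0) := by
          have := hlim.sub_const (z 0)
          rwa [sub_self] at this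
        have h5 : Tendsto (fun n : ℕ => (L 0 n - (y : ℂ))⁻¹) atTop (𝓝 (z 0 - (y : ℂ))⁻¹) :=
          (hlim.sub_const (y : ℂ)).inv₀ hne
        have h6 := h4.mul (h5.const_mul ((A y) ^ 2)⁻¹)
        rw [zero_mul] at h6
        exact h6
    · filter_upwards [hev] with n hn y
      have h1 := hn y y.2
      rw [norm_mul, norm_mul, norm_inv, norm_inv, norm_pow]
      rcases eq_or_ne (L 0 n) (y : ℂ) with he | he
      · rw [he, sub_self, norm_zero, inv_zero, mul_zero, mul_zero]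
        positivity
      · have hp : 0 < ‖L 0 n - (y : ℂ)‖ := norm_pos_iff.mpr (sub_ne_zero.mpr he)
        have h2 : ‖L 0 n - z 0‖ * ‖L 0 n - (y : ℂ)‖⁻¹ ≤ C := by
          rw [← div_eq_mul_inv, div_le_iff₀ hp]
          exact h1
        have h3 : 0 ≤ (‖A y‖ ^ 2)⁻¹ := by positivity
        calc ‖L 0 n - z 0‖ * ((‖A y‖ ^ 2)⁻¹ * ‖L 0 n - (y : ℂ)‖⁻¹)
            = (‖L 0 n - z 0‖ * ‖L 0 n - (y : ℂ)‖⁻¹) * (‖A y‖ ^ 2)⁻¹ := by ring
          _ ≤ C * (‖A y‖ ^ 2)⁻¹ := mul_le_mul_of_nonneg_right h2 h3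
  have hsum : (∑' y : GO c z, if (y : ℂ) = z 0 then ((a 0) ^ 2)⁻¹ else 0) = ((a 0) ^ 2)⁻¹ := by
    rw [tsum_eq_single (⟨z 0, hz0⟩ : GO c z)]
    · simp
    · intro y hy
      rw [if_neg]
      intro h
      exact hy (Subtype.ext h)
  rw [hsum] at hmain
  refine hmain.congr fun n => ?_
  rw [tsum_mul_left]
  rfl

end Pool.Agent.CUSP
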