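import Pool.Agent.CUSP.Targets3

/-!
# CUSP, RIT: the functional equation for the iterate of order `k`
-/

set_option autoImplicit false

open Complex Filter Topology Set MeasureTheory
open Pool.Agent.Limb (F)
open Pool.Agent.PLim (Rho)
open Pool.Agent.MEY (Pt)
open Pool.Agent.PSat (Comp Sat)
open Pool.Agent.AEN (vm Hp Exn)
open Pool.Agent.MEZ (T_NCZ T_SECZ)

namespace Pool.Agent.CUSP

namespace RIT_

theorem mem_OM {t : ℝ} (ht : 0 ≤ t) : (t : ℂ) ∈ OM := by
  right
  rw [ofReal_re]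
  linarith

theorem zero_mem_OM : (0 : ℂ) ∈ OM := by
  right
  rw [zero_re]
  norm_num

theorem add_one_mem_OM {t : ℝ} (ht : 0 ≤ t) : (t : ℂ) + 1 ∈ OM := by
  right
  rw [add_re, ofReal_re, one_re]
  linarith

/-- No point `L j t`, `j < k`, `0 ≤ t`, is the critical point. -/
theorem ne_zero {k : ℕ} {c : ℂ} {z a : ℕ → ℂ} {L : ℕ → ℂ → ℂ} (hF : Ftc k c z a L) {j : ℕ}
    (hj : j < k) {t : ℝ} (ht : 0 ≤ t) : L j t ≠ 0 := by
  intro h0
  have h1 : L (j + 1) t = L 0 0 := by
    rw [← hF.stp j t (mem_OM ht), h0, hF.tip]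
    simp [F]
  rcases Nat.lt_or_ge (j + 1) k with hj1 | hj1
  · have h2 := hF.inj (j + 1) 0 hj1 (by omega) t (mem_OM ht) 0 zero_mem_OM h1
    omega
  · have hjk : j + 1 = 0 + k := by omega
    rw [hjk, hF.per 0 t (mem_OM ht)] at h1
    have h2 := (hF.inj 0 0 (by omega) (by omega) _ (add_one_mem_OM ht) 0 zero_mem_OM h1).2
    have h3 := congrArg re h2
    rw [add_re, ofReal_re, one_re, zero_re] at h3
    linarith

end RIT_

/-- RIT (from FEQ, GOP, XPR, CRV): the functional equation for the iterate of order `k`. -/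
theorem p_RIT (h_FEQ : T_FEQ) (h_GOP : T_GOP) (h_XPR : T_XPR) (h_CRV : T_CRV) : T_RIT := by
  intro k c z a L A hD hA hs t ht
  have hX := h_XPR k c z a L hD
  have hG := (h_GOP k c z a L hD).2.2.2
  have hF := hD.ftc
  have hk : 1 ≤ k := hD.prb.hk
  have hdist : ∀ l : ℕ, l ≤ k → ∃ d : ℝ, 0 < d ∧ ∀ y ∈ GO c z, d ≤ ‖L l t - y‖ := by
    intro l hl
    rcases Nat.lt_or_ge l k with h | h
    · exact hG l t h ht
    · have hlk : l = 0 + k := by omega
      obtain ⟨d, hd, hd'⟩ := hG 0 (t + 1) (by omega) (by linarith)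
      refine ⟨d, hd, fun y hy => ?_⟩
      rw [hlk, hF.per 0 t (RIT_.mem_OM ht)]
      have := hd' y hy
      push_cast at this
      exact this
  have key : ∀ j : ℕ, j ≤ k → RR c z A ((F 2 c)^[j] (L 0 t)) =
      deriv ((F 2 c)^[j]) (L 0 t) * RR c z A (L 0 t) - 2 * S0 c z A * BB c j (L 0 t) := by
    intro j
    induction j with
    | zero =>
      intro _
      simp [BB]
    | succ j ih =>
      intro hj
      have ih' := ih (by omega)
      have hu : (F 2 c)^[j] (L 0 t) = L j t := by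
        rw [hX.ite 0 j t (RIT_.mem_OM ht), zero_add]
      have hFu : F 2 c (L j t) = L (j + 1) t := hF.stp j t (RIT_.mem_OM ht)
      obtain ⟨d1, hd1, hd1'⟩ := hdist j (by omega)
      obtain ⟨d2, hd2, hd2'⟩ := hdist (j + 1) hj
      have h1 := h_FEQ k c z a L A hD hA hs (min d1 d2) (L j t)
        (RIT_.ne_zero hF (by omega) ht) (lt_min hd1 hd2)
        (fun y hy => (min_le_left _ _).trans (hd1' y hy))
        (fun y hy => by rw [hFu]; exact (min_le_right _ _).trans (hd2' y hy))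
      have h2 : deriv ((F 2 c)^[j + 1]) (L 0 t) = 2 * L j t * deriv ((F 2 c)^[j]) (L 0 t) := by
        rw [(h_CRV c (j + 1) (L 0 t)).1, (h_CRV c j (L 0 t)).1, Finset.prod_range_succ, hu]
        ring
      have h3 : BB c (j + 1) (L 0 t) = 2 * L j t * BB c j (L 0 t) + 1 := by
        rw [BB, hu]
      rw [Function.iterate_succ_apply', hu, h1, h2, h3]
      rw [hu] at ih'
      rw [ih']
      ring
  have h4 := key k le_rfl
  rw [hX.ite 0 k t (RIT_.mem_OM ht), hF.per 0 t (RIT_.mem_OM ht)] at h4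
  exact h4

end Pool.Agent.CUSP
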