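import Pool.Agent.CUSP.Targets2

/-!
# CUSP: SHF, the inverse branch on the arcs
-/

set_option autoImplicit false

open Complex Filter Topology Set MeasureTheory
open Pool.Agent.Limb (F)
open Pool.Agent.PLim (Rho)
open Pool.Agent.MEY (Pt)
open Pool.Agent.PSat (Comp Sat)
open Pool.Agent.AEN (vm Hp Exn)

namespace Pool.Agent.CUSP

namespace SHF_

theorem mem_OM {s : ℝ} (hs : 0 ≤ s) : (s : ℂ) ∈ OM := by
  right
  rw [Complex.ofReal_re]
  linarith

end SHF_

open SHF_ in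
theorem p_SHF (h₁ : T_TLE) (h₂ : T_XPR) : T_SHF := by
  obtain ⟨C1, hC1, hT⟩ := h₁
  intro C hC
  have hC0 : 0 < C := by linarith
  have hC10 : 0 < C1 := by linarith
  have hK : 0 < C1 ^ 3 * C := by positivity
  refine ⟨min (1 / (2 * C)) (1 / (C1 ^ 3 * C)), by positivity, ?_⟩
  set η := min (1 / (2 * C)) (1 / (C1 ^ 3 * C)) with hη
  have hη0 : 0 < η := by positivity
  have hη1 : η * (2 * C) ≤ 1 := by
    have h := min_le_left (1 / (2 * C)) (1 / (C1 ^ 3 * C))
    calc η * (2 * C) ≤ 1 / (2 * C) * (2 * C) := by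
          exact mul_le_mul_of_nonneg_right h (by positivity)
      _ = 1 := by field_simp
  have hη2 : η * (C1 ^ 3 * C) ≤ 1 := by
    have h := min_le_right (1 / (2 * C)) (1 / (C1 ^ 3 * C))
    calc η * (C1 ^ 3 * C) ≤ 1 / (C1 ^ 3 * C) * (C1 ^ 3 * C) := by
          exact mul_le_mul_of_nonneg_right h (by positivity)
      _ = 1 := by field_simp
  intro k c z a L l G hD hl hG j t hj ht hx
  have hX := h₂ k c z a L hD
  set R := Rl k z L l with hR
  have hR0 : 0 < R := hX.pos l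
  set x := L j (t + 1) with hxdef
  -- iteration
  have it0 : (F 2 c)^[k] (L j t) = x := by
    have := hX.itn j 1 t (mem_OM ht)
    simpa using this
  have it1 : (F 2 c)^[k] x = L j (((t + 1 : ℝ) : ℂ) + 1) := by
    have := hX.itn j 1 ((t + 1 : ℝ) : ℂ) (mem_OM (by linarith))
    have e : L j (((t + 1 : ℝ) : ℂ)) = x := by
      rw [hxdef]
      push_cast
      rfl
    rw [e] at this
    simpa using this
  -- the estimate for `x`
  have hxC : ‖x - z l‖ ≤ R / C := by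
    rw [le_div_iff₀ hC0]
    have h0 : 0 ≤ ‖x - z l‖ := norm_nonneg _
    nlinarith [mul_le_mul_of_nonneg_right hx hC0.le]
  obtain ⟨-, -, hd⟩ := hG.lft x hxC
  have e1 : (((t + 1 : ℝ) : ℂ)) = (t : ℂ) + 1 := by push_cast; ring
  obtain ⟨-, ha, -, -, -, -⟩ := hT k c z a L hD j (t + 1) hj (by linarith)
  obtain ⟨-, -, hb, hc, -, -⟩ := hT k c z a L hD j t hj ht
  rw [← it1] at ha
  rw [e1] at ha
  rw [← hxdef] at ha
  have h1 : ‖(F 2 c)^[k] x - x‖ ≤ C * η * ‖x - z l‖ := by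
    refine hd.trans ?_
    rw [div_le_iff₀ hR0]
    have h0 : 0 ≤ ‖x - z l‖ := norm_nonneg _
    have := mul_le_mul_of_nonneg_left hx (mul_nonneg hC0.le h0)
    nlinarith
  have h2 : ‖L j (t + 1) - L j t‖ ≤ C1 ^ 3 * C * η * ‖x - z l‖ := by
    calc ‖L j (t + 1) - L j t‖ ≤ C1 * ‖deriv (L j) t‖ := hb
      _ ≤ C1 * (C1 * ‖deriv (L j) (t + 1)‖) := mul_le_mul_of_nonneg_left hc hC10.le
      _ ≤ C1 * (C1 * (C1 * (C * η * ‖x - z l‖))) := by
          refine mul_le_mul_of_nonneg_left (mul_le_mul_of_nonneg_left ?_ hC10.le) hC10.le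
          exact ha.trans (mul_le_mul_of_nonneg_left h1 hC10.le)
      _ = C1 ^ 3 * C * η * ‖x - z l‖ := by ring
  have h3 : ‖L j t - z l‖ ≤ R / C := by
    have h0 : 0 ≤ ‖x - z l‖ := norm_nonneg _
    have h4 : ‖L j (t + 1) - L j t‖ ≤ ‖x - z l‖ := by
      refine h2.trans ?_
      have := mul_le_mul_of_nonneg_right hη2 h0
      nlinarith
    have h5 : ‖L j t - z l‖ ≤ ‖L j (t + 1) - L j t‖ + ‖x - z l‖ := by
      have e : L j t - z l = -(L j (t + 1) - L j t) + (x - z l) := by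
        rw [hxdef]
        ring
      rw [e]
      refine (norm_add_le _ _).trans ?_
      rw [norm_neg]
    have h6 : ‖L j t - z l‖ ≤ 2 * (η * R) := by linarith
    refine h6.trans ?_
    rw [le_div_iff₀ hC0]
    have := mul_le_mul_of_nonneg_right hη1 hR0.le
    nlinarith
  obtain ⟨-, h4, -⟩ := hG.lft (L j t) h3
  rw [it0] at h4
  exact ⟨h3, h4⟩

end Pool.Agent.CUSP
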