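import Pool.Agent.CUSP.Targets2

/-!
# SML: points of the arcs near a parabolic point
-/

set_option autoImplicit false

open Complex Filter Topology Set MeasureTheory
open Pool.Agent.Limb (F)
open Pool.Agent.PLim (Rho)
open Pool.Agent.MEY (Pt)
open Pool.Agent.PSat (Comp Sat)
open Pool.Agent.AEN (vm Hp Exn)

namespace Pool.Agent.CUSP

theorem p_SML (h₁ : T_TLE) (h₂ : T_TLF) (h₃ : T_XPR) : T_SML := by
  intro C T hC
  obtain ⟨C1, hC1, H1⟩ := h₁
  obtain ⟨C2, hC2, H2⟩ := h₂ T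
  have hD : 2 ≤ C2 * C1 * C := by nlinarith [mul_nonneg (sub_nonneg.2 hC1) (sub_nonneg.2 hC2)]
  have hD0 : 0 < 4 * (C2 * C1 * C) := by linarith
  obtain ⟨η, hη⟩ : ∃ η : ℝ, η = 1 / (4 * (C2 * C1 * C)) := ⟨_, rfl⟩
  have hη0 : 0 < η := by rw [hη]; positivity
  have hηD : 4 * (C2 * C1 * C) * η = 1 := by
    rw [hη]
    exact mul_one_div_cancel hD0.ne'
  have hη8 : η ≤ 1 / 8 := by nlinarith
  have hCη : C * η ≤ 1 := by
    have h1 : C ≤ C2 * C1 * C := by nlinarith [mul_nonneg (sub_nonneg.2 hC1) (sub_nonneg.2 hC2)]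
    nlinarith
  refine ⟨η, hη0, ?_⟩
  intro k c z a L l G hd hl hG j t hj ht hx
  by_contra hT
  push Not at hT
  have hX := h₃ k c z a L hd
  obtain ⟨R, hR⟩ : ∃ R : ℝ, R = Rl k z L l := ⟨_, rfl⟩
  have hR0 : 0 < R := by rw [hR]; exact hG.hR
  rw [← hR] at hx
  have hCp : 0 < C := by linarith
  have hxC : ‖L j t - z l‖ ≤ R / C := by
    rw [le_div_iff₀ hCp]
    have h1 := mul_le_mul_of_nonneg_right hx hCp.le
    nlinarith
  have hlft := (hG.lft (L j t) (by rw [← hR]; exact hxC)).2.2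
  rw [← hR] at hlft
  have hom : (t : ℂ) ∈ OM := by
    right
    rw [Complex.ofReal_re]
    linarith
  have hit : (F 2 c)^[k] (L j t) = L j (t + 1) := by
    have h1 := hX.itn j 1 (t : ℂ) hom
    rw [mul_one] at h1
    rw [h1]
    simp
  rw [hit] at hlft
  obtain ⟨-, ha, -⟩ := H1 k c z a L hd j t hj ht
  have hb := H2 k c z a L hd j t hj ht hT.le
  have htip := hX.tip l j hj
  rw [← hR] at htip
  have hsq : ‖L j t - z l‖ ^ 2 ≤ (η * R) ^ 2 := by
    have h0 := norm_nonneg (L j t - z l)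
    nlinarith [mul_nonneg hη0.le hR0.le]
  have h3 : C * ‖L j t - z l‖ ^ 2 / R ≤ C * η ^ 2 * R := by
    rw [div_le_iff₀ hR0]
    have h4 := mul_le_mul_of_nonneg_left hsq hCp.le
    nlinarith
  have hC1p : 0 < C1 := by linarith
  have hC2p : 0 < C2 := by linarith
  have h5 : ‖deriv (L j) t‖ ≤ C1 * (C * η ^ 2 * R) :=
    le_trans ha (mul_le_mul_of_nonneg_left (le_trans hlft h3) hC1p.le)
  have h6 : ‖L j t - L j 0‖ ≤ C2 * (C1 * (C * η ^ 2 * R)) :=
    le_trans hb (mul_le_mul_of_nonneg_left h5 hC2p.le)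
  have h7 : C2 * (C1 * (C * η ^ 2 * R)) = η * R / 4 := by
    have h8 : C2 * (C1 * (C * η ^ 2 * R)) = (4 * (C2 * C1 * C) * η) * (η * R / 4) := by ring
    rw [h8, hηD, one_mul]
  have h9 : ‖z l - L j 0‖ ≤ ‖z l - L j t‖ + ‖L j t - L j 0‖ := by
    have h10 : z l - L j 0 = (z l - L j t) + (L j t - L j 0) := by ring
    rw [h10]
    exact norm_add_le _ _
  rw [norm_sub_rev (z l) (L j t)] at h9
  have h11 : η * R ≤ R / 8 := by nlinarith
  linarith

end Pool.Agent.CUSP
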