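import Pool.Agent.CUSP.Targets

/-!
# CUSP: p_SPR, spreading of the two limits over a domain
-/

set_option autoImplicit false

open Complex Filter Topology Set MeasureTheory

namespace Pool.Agent.CUSP

namespace SPR_

lemma lm (C : ℝ) (u : ℕ → ℂ) (v : ℕ → ℂ) (r : ℝ) (hu : Tendsto u atTop (𝓝 0))
    (hv : ∀ n, ‖v n‖ ≤ C * ‖u n‖ * r) : Tendsto v atTop (𝓝 0) := by
  have h1 : Tendsto (fun n => C * ‖u n‖ * r) atTop (𝓝 (C * ‖(0 : ℂ)‖ * r)) :=
    (hu.norm.const_mul C).mul_const r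
  rw [norm_zero, mul_zero, zero_mul] at h1
  exact squeeze_zero_norm hv h1

lemma step {D : Set ℂ} {g : ℕ → ℂ → ℂ} {w : ℂ} (h₁ : T_KDI)
    (hg : ∀ n, DifferentiableOn ℂ (g n) D ∧ InjOn (g n) D) (x y : ℂ) (r : ℝ) (hr : 0 < r)
    (hD : Metric.ball x (2 * r) ⊆ D) (hxy : ‖y - x‖ ≤ r)
    (hx : Tendsto (fun n => g n x) atTop (𝓝 w) ∧ Tendsto (fun n => deriv (g n) x) atTop (𝓝 0)) :
    Tendsto (fun n => g n y) atTop (𝓝 w) ∧ Tendsto (fun n => deriv (g n) y) atTop (𝓝 0) := by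
  obtain ⟨C, hC, hK⟩ := h₁
  have hk : ∀ n, ‖deriv (g n) y‖ ≤ C * ‖deriv (g n) x‖ ∧
      ‖g n y - g n x‖ ≤ C * ‖deriv (g n) x‖ * ‖y - x‖ := by
    intro n
    obtain ⟨-, -, h3⟩ := hK x (2 * r) (g n) (by linarith) ((hg n).1.mono hD) ((hg n).2.mono hD)
    obtain ⟨h4, -, h5, -⟩ := h3 y (by linarith)
    exact ⟨h4, h5⟩
  constructor
  · have h2 : Tendsto (fun n => g n y - g n x) atTop (𝓝 0) :=
      lm C (fun n => deriv (g n) x) _ ‖y - x‖ hx.2 (fun n => (hk n).2)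
    have h3 := h2.add hx.1
    simpa using h3
  · exact lm C (fun n => deriv (g n) x) _ 1 hx.2 (fun n => by rw [mul_one]; exact (hk n).1)

end SPR_

theorem p_SPR (h₁ : T_KDI) : T_SPR := by
  intro D g q w hDo hDc hg hq h1 h2 x hx
  set S : Set ℂ := {x | Tendsto (fun n => g n x) atTop (𝓝 w) ∧
    Tendsto (fun n => deriv (g n) x) atTop (𝓝 0)} with hS
  have hsub : D ⊆ D ∩ S := by
    refine hDc.subset_of_closure_inter_subset ?_ ⟨q, hq, hq, h1, h2⟩ ?_
    · rw [Metric.isOpen_iff]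
      rintro a ⟨haD, haS⟩
      obtain ⟨ρ, hρ, hb⟩ := Metric.isOpen_iff.1 hDo a haD
      refine ⟨ρ / 2, by linarith, fun y hy => ⟨hb ?_, ?_⟩⟩
      · rw [Metric.mem_ball] at hy ⊢
        linarith
      · refine SPR_.step h₁ hg a y (ρ / 2) (by linarith) ?_ ?_ haS
        · rw [show 2 * (ρ / 2) = ρ by ring]
          exact hb
        · rw [Metric.mem_ball, dist_eq_norm] at hy
          exact hy.le
    · rintro y ⟨hyc, hyD⟩
      obtain ⟨ρ, hρ, hb⟩ := Metric.isOpen_iff.1 hDo y hyD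
      obtain ⟨a, ⟨haD, haS⟩, hya⟩ := Metric.mem_closure_iff.1 hyc (ρ / 4) (by linarith)
      refine ⟨hyD, SPR_.step h₁ hg a y (ρ / 4) (by linarith) ?_ ?_ haS⟩
      · intro t ht
        refine hb ?_
        rw [Metric.mem_ball] at ht ⊢
        have h3 := dist_triangle t a y
        rw [dist_comm a y] at h3
        linarith
      · rw [← dist_eq_norm]
        exact hya.le
  exact (hsub hx).2

end Pool.Agent.CUSP
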