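import Pool.Agent.CUSP.Targets3

/-!
# CUSP, SUM: the area argument
-/

set_option autoImplicit false

open Complex Filter Topology Set MeasureTheory
open Pool.Agent.Limb (F)
open Pool.Agent.PLim (Rho)
open Pool.Agent.MEY (Pt)
open Pool.Agent.PSat (Comp Sat)
open Pool.Agent.AEN (vm Hp Exn)
open Pool.Agent.MEZ (T_NCZ T_SECZ)

namespace Pool.Agent.CUSP

namespace SUM_

/-- Iterates are differentiable. -/
theorem diff (c : ℂ) (m : ℕ) : Differentiable ℂ ((F 2 c)^[m]) := by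
  have h : Differentiable ℂ (F 2 c) := by
    unfold F
    fun_prop
  exact h.iterate m

/-- Packing of disjoint balls in `ball 0 3`. -/
theorem pack (s : Finset ℂ) (p : ℂ → ℂ) (ρ : ℂ → ℝ) (hρ : ∀ y ∈ s, 0 ≤ ρ y)
    (hd : ∀ y ∈ s, ∀ y' ∈ s, y ≠ y' → Disjoint (Metric.ball (p y) (ρ y))
      (Metric.ball (p y') (ρ y')))
    (hb : ∀ y ∈ s, Metric.ball (p y) (ρ y) ⊆ Metric.ball 0 3) :
    ∑ y ∈ s, ρ y ^ 2 ≤ 9 := by
  have h1 : volume (⋃ y ∈ s, Metric.ball (p y) (ρ y)) =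
      ∑ y ∈ s, volume (Metric.ball (p y) (ρ y)) := by
    refine measure_biUnion_finset ?_ fun y _ => measurableSet_ball
    intro y hy y' hy' hne
    exact hd y hy y' hy' hne
  have h2 : volume (⋃ y ∈ s, Metric.ball (p y) (ρ y)) ≤ volume (Metric.ball (0 : ℂ) 3) :=
    measure_mono (Set.iUnion₂_subset hb)
  rw [h1, Complex.volume_ball] at h2
  have h3 : ∀ y ∈ s, volume (Metric.ball (p y) (ρ y)) =
      ENNReal.ofReal (ρ y ^ 2) * NNReal.pi := by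
    intro y hy
    rw [Complex.volume_ball, ENNReal.ofReal_pow (hρ y hy)]
  rw [Finset.sum_congr rfl h3, ← Finset.sum_mul] at h2
  have hpi : (NNReal.pi : ENNReal) ≠ 0 := by
    simpa using NNReal.pi_ne_zero
  have h4 : ∑ y ∈ s, ENNReal.ofReal (ρ y ^ 2) ≤ ENNReal.ofReal 3 ^ 2 :=
    (ENNReal.mul_le_mul_iff_left hpi ENNReal.coe_ne_top).mp h2
  rw [← ENNReal.ofReal_sum_of_nonneg fun y _ => sq_nonneg (ρ y),
    ← ENNReal.ofReal_pow (by norm_num)] at h4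
  have h5 := (ENNReal.ofReal_le_ofReal_iff (by norm_num)).mp h4
  linarith

/-- Two branches with a common value over the tile are equal. -/
theorem dj (h₇ : T_LFU) {k : ℕ} {c : ℂ} {z a : ℕ → ℂ} {L : ℕ → ℂ → ℂ} (hD : Dat k c z a L)
    (hX : Xpr k c z L) {l : ℕ} (hl : l < k) {t : ℝ} (ht : 0 ≤ t) {m m' : ℕ} (hmm : m ≤ m')
    {N E : Set ℂ} (hN : IsPreconnected N) (hEN : E ⊆ N)
    (hE : E ⊆ L l '' Metric.ball (t : ℂ) (1 / 4)) {h h' : ℂ → ℂ} (hh : ContinuousOn h N)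
    (hh' : ContinuousOn h' N) (inv : ∀ x ∈ N, (F 2 c)^[m] (h x) = x)
    (inv' : ∀ x ∈ N, (F 2 c)^[m'] (h' x) = x)
    (der : ∀ x ∈ N, deriv ((F 2 c)^[m]) (h x) ≠ 0) {x1 x2 : ℂ} (h1 : x1 ∈ E) (h2 : x2 ∈ E)
    (e : h x1 = h' x2) : EqOn h h' N := by
  have hom : ∀ τ ∈ Metric.ball (t : ℂ) (1 / 4), -1 < τ.re ∧ |τ.re - t| < 1 / 4 := by
    intro τ hτ
    rw [Metric.mem_ball, dist_eq_norm] at hτ
    have h3 := Complex.abs_re_le_norm (τ - t)
    rw [Complex.sub_re, Complex.ofReal_re] at h3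
    have h4 : |τ.re - t| < 1 / 4 := lt_of_le_of_lt h3 hτ
    refine ⟨?_, h4⟩
    have h5 := (abs_lt.mp h4).1
    linarith
  have hOM : ∀ τ : ℂ, -1 < τ.re → τ ∈ OM := fun τ hτ => Or.inr hτ
  obtain ⟨t1, ht1, e1⟩ := hE h1
  obtain ⟨t2, ht2, e2⟩ := hE h2
  obtain ⟨b1, b1'⟩ := hom t1 ht1
  obtain ⟨b2, b2'⟩ := hom t2 ht2
  obtain ⟨j, rfl⟩ := Nat.exists_eq_add_of_le hmm
  have e3 : (F 2 c)^[j] x1 = x2 := by
    have h3 := inv' x2 (hEN h2)
    rw [← e, add_comm m j, Function.iterate_add_apply, inv x1 (hEN h1)] at h3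
    exact h3
  have e4 : L (l + j) t1 = L l t2 := by
    rw [← hX.ite l j t1 (hOM t1 b1), e1, e3, e2]
  have hk : 0 < k := by omega
  obtain ⟨i, q, hlj, hik⟩ : ∃ i q : ℕ, l + j = i + k * q ∧ i < k :=
    ⟨(l + j) % k, (l + j) / k, (Nat.mod_add_div _ _).symm, Nat.mod_lt _ hk⟩
  have e5 : L (i + k * q) t1 = L i (t1 + q) := by
    rw [← hX.ite i (k * q) t1 (hOM t1 b1), hX.itn i q t1 (hOM t1 b1)]
  rw [hlj, e5] at e4
  have hq0 : (0 : ℝ) ≤ q := Nat.cast_nonneg q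
  have b3 : -1 < (t1 + (q : ℂ)).re := by
    rw [Complex.add_re, Complex.natCast_re]
    linarith
  obtain ⟨e6, e7⟩ := hD.ftc.inj i l hik hl _ (hOM _ b3) _ (hOM _ b2) e4
  have e8 : q = 0 := by
    have h3 : (t1 + (q : ℂ)).re = t2.re := by rw [e7]
    rw [Complex.add_re, Complex.natCast_re] at h3
    have h4 := (abs_lt.mp b1').1
    have h5 := (abs_lt.mp b2').2
    have h6 : (q : ℝ) < 1 := by linarith
    have h7 : q < 1 := by exact_mod_cast h6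
    omega
  have e9 : j = 0 := by
    rw [e8, mul_zero, add_zero, e6] at hlj
    omega
  subst e9
  have e10 : x1 = x2 := e3
  refine h₇ c m N h h' x1 hN hh hh' (fun x hx => ⟨?_, der x hx⟩) (hEN h1) (by rw [e, e10])
  rw [inv x hx]
  exact (inv' x hx).symm

/-- The derivative of a branch of the inverse. -/
theorem chain (c : ℂ) (m : ℕ) (h : ℂ → ℂ) (N : Set ℂ) (hN : IsOpen N)
    (hh : DifferentiableOn ℂ h N) (inv : ∀ x ∈ N, (F 2 c)^[m] (h x) = x) {x : ℂ} (hx : x ∈ N) :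
    deriv ((F 2 c)^[m]) (h x) * deriv h x = 1 := by
  have h1 : HasDerivAt h (deriv h x) x :=
    ((hh x hx).differentiableAt (hN.mem_nhds hx)).hasDerivAt
  have h2 : HasDerivAt ((F 2 c)^[m]) (deriv ((F 2 c)^[m]) (h x)) (h x) :=
    (diff c m (h x)).hasDerivAt
  have h3 := h2.comp x h1
  have h4 : HasDerivAt ((F 2 c)^[m] ∘ h) 1 x := by
    refine (hasDerivAt_id x).congr_of_eventuallyEq ?_
    filter_upwards [hN.mem_nhds hx] with y hy
    exact inv y hy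
  exact h3.unique h4

/-- Points of the branches over the tile are in the filled Julia set. -/
theorem bdd (h₁₀ : T_ESC) {k : ℕ} {c : ℂ} {z a : ℕ → ℂ} {L : ℕ → ℂ → ℂ} (hD : Dat k c z a L)
    (hX : Xpr k c z L) {l : ℕ} {τ : ℂ} (hτ : τ ∈ OM) {m : ℕ} {w : ℂ}
    (hw : (F 2 c)^[m] w = L l τ) : ‖w‖ ≤ 2 := by
  have hc : ‖c‖ ≤ 2 := by
    have h1 := hD.ftc.bdd 0 0 (Or.inr (by norm_num))
    rwa [hD.ftc.tip] at h1
  have h2 : ∀ n : ℕ, ‖(F 2 c)^[n] w‖ ≤ 2 + ∑ i ∈ Finset.range m, ‖(F 2 c)^[i] w‖ := by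
    intro n
    by_cases hn : n < m
    · have h3 := Finset.single_le_sum (f := fun i => ‖(F 2 c)^[i] w‖)
        (fun i _ => norm_nonneg _) (Finset.mem_range.mpr hn)
      linarith
    · obtain ⟨j, rfl⟩ := Nat.exists_eq_add_of_le (Nat.le_of_not_lt hn)
      have h3 : (F 2 c)^[m + j] w = L (l + j) τ := by
        rw [add_comm m j, Function.iterate_add_apply, hw, hX.ite l j τ hτ]
      have h4 := hD.ftc.bdd (l + j) τ hτ
      rw [h3]
      have h5 : 0 ≤ ∑ i ∈ Finset.range m, ‖(F 2 c)^[i] w‖ :=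
        Finset.sum_nonneg fun i _ => norm_nonneg _
      linarith
  have h6 := (h₁₀ c w _ h2).1
  rwa [max_eq_left hc] at h6

end SUM_

/-- SUM. -/
theorem p_SUM (h₁ : T_LMA) (h₂ : T_LMB) (h₃ : T_HBR) (h₄ : T_BAL) (h₆ : T_KDI)
    (h₇ : T_LFU) (h₉ : T_XPR) (h₁₀ : T_ESC) : T_SUM := by
  obtain ⟨η1, hη1, hη1', h₁⟩ := h₁
  obtain ⟨η2, hη2, -, h₃⟩ := h₃
  obtain ⟨κ, hκ, h₂⟩ := h₂
  obtain ⟨C0, hC0, h₆⟩ := h₆
  set η : ℝ := min η1 η2 with hη
  have hηp : 0 < η := lt_min hη1 hη2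
  have hη16 : η ≤ 1 / 16 := (min_le_left _ _).trans hη1'
  obtain ⟨d, hd, h₄⟩ := h₄ η κ hηp hη16 hκ
  have hC0p : 0 < C0 := by linarith
  set δ : ℝ := min (d / (4 * C0)) (η / 4) with hδ
  have hδp : 0 < δ := lt_min (by positivity) (by positivity)
  refine ⟨9 * C0 ^ 4 / (δ * κ) ^ 2, by positivity, ?_⟩
  intro k c z a L A hD hA s hs
  have hX := h₉ k c z a L hD
  obtain ⟨l, hl, hκl⟩ := h₂ k c z a L hD
  have hR : 0 < Rl k z L l := hX.pos l
  set R : ℝ := Rl k z L l with hRd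
  have hal : a l ≠ 0 := hD.prb.ane l
  have halp : 0 < ‖a l‖ := norm_pos_iff.mpr hal
  obtain ⟨t, ht, hx0, hdt⟩ := h₄ k c z a L hD l hl
    (fun x hx => (h₁ k c z a L hD l x hl (hx.trans
      (mul_le_mul_of_nonneg_right (min_le_left _ _) hR.le))).2) hκl
  set x0 : ℂ := L l t with hx0d
  set r0 : ℝ := δ * R with hr0
  have hr0p : 0 < r0 := mul_pos hδp hR
  have hr1 : r0 ≤ η * R / 4 := by
    have h1 : δ ≤ η / 4 := min_le_right _ _
    have h2 := mul_le_mul_of_nonneg_right h1 hR.le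
    linarith
  have hr2 : r0 ≤ 1 / 4 * ‖deriv (L l) t‖ / C0 := by
    have h1 : δ ≤ d / (4 * C0) := min_le_left _ _
    have h2 := mul_le_mul_of_nonneg_right h1 hR.le
    have h3 : d / (4 * C0) * R = 1 / 4 * (d * R) / C0 := by
      field_simp
    rw [h3] at h2
    refine h2.trans ?_
    gcongr
  set N : Set ℂ := Metric.ball (z l) (η * R) with hN
  set E : Set ℂ := Metric.ball x0 r0 with hE
  have hηR : 0 < η * R := mul_pos hηp hR
  have hNc : IsPreconnected N := (convex_ball _ _).isPreconnected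
  have hNo : IsOpen N := Metric.isOpen_ball
  have hzN : z l ∈ N := Metric.mem_ball_self hηR
  have hEN : E ⊆ N := by
    refine Metric.ball_subset_ball' ?_
    rw [dist_eq_norm]
    linarith
  have hOMo : ∀ τ ∈ Metric.ball (t : ℂ) (1 / 4), τ ∈ OM := by
    intro τ hτ
    rw [Metric.mem_ball, dist_eq_norm] at hτ
    have h3 := Complex.abs_re_le_norm (τ - t)
    rw [Complex.sub_re, Complex.ofReal_re] at h3
    have h4 := (abs_lt.mp (lt_of_le_of_lt h3 hτ)).1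
    refine Or.inr ?_
    linarith
  have hEt : E ⊆ L l '' Metric.ball (t : ℂ) (1 / 4) := by
    have h1 := (h₆ t (1 / 4) (L l) (by norm_num) ((hD.ftc.dif l).mono hOMo)
      (fun u hu v hv huv => (hD.ftc.inj l l hl hl u (hOMo u hu) v (hOMo v hv) huv).2)).2.1
    refine Set.Subset.trans (Metric.ball_subset_ball ?_) h1
    exact hr2
  have key : ∀ y : ℂ, ∃ (m : ℕ) (h : ℂ → ℂ), y ∈ GO c z → ((F 2 c)^[m] y = z l ∧
      DifferentiableOn ℂ h N ∧ h (z l) = y ∧ ∀ x ∈ N, (F 2 c)^[m] (h x) = x) := by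
    intro y
    by_cases hy : y ∈ GO c z
    · obtain ⟨m, h, e1, e2, e3, e4⟩ := h₃ k c z a L hD l y hl hy
      have hsub : N ⊆ Metric.ball (z l) (η2 * R) :=
        Metric.ball_subset_ball (mul_le_mul_of_nonneg_right (min_le_right _ _) hR.le)
      exact ⟨m, h, fun _ => ⟨e1, e2.mono hsub, e3, fun x hx => e4 x (hsub hx)⟩⟩
    · exact ⟨0, id, fun h => absurd h hy⟩
  choose m h hmh using key
  have hinj : ∀ y ∈ GO c z, InjOn (h y) N := by
    intro y hy u hu v hv huv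
    rw [← (hmh y hy).2.2.2 u hu, ← (hmh y hy).2.2.2 v hv, huv]
  -- the balls
  have hkd : ∀ y ∈ GO c z, ‖deriv (h y) (z l)‖ ≤ C0 * ‖deriv (h y) x0‖ := by
    intro y hy
    exact ((h₆ (z l) (η * R) (h y) hηR (hmh y hy).2.1 (hinj y hy)).2.2 x0 hx0).2.1
  have hball : ∀ y ∈ GO c z,
      Metric.ball (h y x0) (r0 * ‖deriv (h y) x0‖ / C0) ⊆ h y '' E := by
    intro y hy
    exact (h₆ x0 r0 (h y) hr0p ((hmh y hy).2.1.mono hEN) ((hinj y hy).mono hEN)).2.1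
  have hch : ∀ y ∈ GO c z, ∀ x ∈ N, deriv ((F 2 c)^[m y]) (h y x) * deriv (h y) x = 1 :=
    fun y hy x hx => SUM_.chain c (m y) (h y) N hNo (hmh y hy).2.1 (hmh y hy).2.2.2 hx
  have hder : ∀ y ∈ GO c z, ∀ x ∈ N, deriv ((F 2 c)^[m y]) (h y x) ≠ 0 :=
    fun y hy x hx => left_ne_zero_of_mul_eq_one (hch y hy x hx)
  have hdis : ∀ y ∈ GO c z, ∀ y' ∈ GO c z, y ≠ y' → m y ≤ m y' →
      Disjoint (h y '' E) (h y' '' E) := by
    intro y hy y' hy' hne hm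
    rw [Set.disjoint_left]
    rintro w ⟨x1, hx1, e1⟩ ⟨x2, hx2, e2⟩
    have h1 := SUM_.dj h₇ hD hX hl ht hm hNc hEN hEt (hmh y hy).2.1.continuousOn
      (hmh y' hy').2.1.continuousOn (hmh y hy).2.2.2 (hmh y' hy').2.2.2 (hder y hy) hx1 hx2
      (e1.trans e2.symm)
    have h2 := h1 hzN
    rw [(hmh y hy).2.2.1, (hmh y' hy').2.2.1] at h2
    exact hne h2
  have hpk := SUM_.pack s (fun y => h y x0) (fun y => r0 * ‖deriv (h y) x0‖ / C0)
    (fun y _ => by positivity) ?_ ?_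
  rotate_left
  · intro y hy y' hy' hne
    rcases le_total (m y) (m y') with hm | hm
    · exact (hdis y (hs y hy) y' (hs y' hy') hne hm).mono (hball y (hs y hy))
        (hball y' (hs y' hy'))
    · exact ((hdis y' (hs y' hy') y (hs y hy) hne.symm hm).mono (hball y' (hs y' hy'))
        (hball y (hs y hy))).symm
  · intro y hy w hw
    obtain ⟨x, hx, e⟩ := hball y (hs y hy) hw
    obtain ⟨τ, hτ, e'⟩ := hEt hx
    have h1 : (F 2 c)^[m y] w = L l τ := by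
      rw [e', ← e, (hmh y (hs y hy)).2.2.2 x (hEN hx)]
    have h2 := SUM_.bdd h₁₀ hD hX (hOMo τ hτ) h1
    rw [Metric.mem_ball, dist_zero_right]
    linarith
  have hterm : ∀ y ∈ s, (‖A y‖ ^ 2)⁻¹ ≤
      C0 ^ 4 / (δ * κ) ^ 2 * (r0 * ‖deriv (h y) x0‖ / C0) ^ 2 := by
    intro y hy
    have hy' := hs y hy
    have h1 : A y = a l * deriv ((F 2 c)^[m y]) y := hA y (m y) l (hmh y hy').1
    have h2 := hch y hy' (z l) hzN
    rw [(hmh y hy').2.2.1] at h2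
    have h3 : ‖deriv ((F 2 c)^[m y]) y‖ * ‖deriv (h y) (z l)‖ = 1 := by
      rw [← norm_mul, h2, norm_one]
    have h4 : 0 < ‖deriv ((F 2 c)^[m y]) y‖ := by
      by_contra hcon
      have h5 : ‖deriv ((F 2 c)^[m y]) y‖ = 0 := le_antisymm (not_lt.mp hcon) (norm_nonneg _)
      rw [h5, zero_mul] at h3
      exact zero_ne_one h3
    have h5 : ‖A y‖ = ‖a l‖ * ‖deriv ((F 2 c)^[m y]) y‖ := by rw [h1, norm_mul]
    have h6 : 0 < ‖A y‖ := by rw [h5]; positivity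
    have h7 : δ * κ ≤ r0 * ‖a l‖ := by
      rw [hr0, mul_assoc, mul_comm R]
      exact mul_le_mul_of_nonneg_left hκl hδp.le
    have h8 : δ * κ ≤ C0 ^ 2 * (r0 * ‖deriv (h y) x0‖ / C0) * ‖A y‖ := by
      have h9 : C0 ^ 2 * (r0 * ‖deriv (h y) x0‖ / C0) * ‖A y‖ =
          r0 * ‖a l‖ * (‖deriv ((F 2 c)^[m y]) y‖ * (C0 * ‖deriv (h y) x0‖)) := by
        rw [h5]
        field_simp
      rw [h9]
      refine h7.trans (le_mul_of_one_le_right (by positivity) ?_)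
      rw [← h3]
      exact mul_le_mul_of_nonneg_left (hkd y hy') h4.le
    have h9 : (δ * κ) ^ 2 ≤ (C0 ^ 2 * (r0 * ‖deriv (h y) x0‖ / C0) * ‖A y‖) ^ 2 :=
      pow_le_pow_left₀ (by positivity) h8 2
    rw [inv_le_iff_one_le_mul₀ (by positivity)]
    have h10 : C0 ^ 4 / (δ * κ) ^ 2 * (r0 * ‖deriv (h y) x0‖ / C0) ^ 2 * ‖A y‖ ^ 2 =
        (C0 ^ 2 * (r0 * ‖deriv (h y) x0‖ / C0) * ‖A y‖) ^ 2 / (δ * κ) ^ 2 := by
      ring
    rw [h10, one_le_div (by positivity)]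
    exact h9
  calc ∑ y ∈ s, (‖A y‖ ^ 2)⁻¹
      ≤ ∑ y ∈ s, C0 ^ 4 / (δ * κ) ^ 2 * (r0 * ‖deriv (h y) x0‖ / C0) ^ 2 :=
        Finset.sum_le_sum hterm
    _ = C0 ^ 4 / (δ * κ) ^ 2 * ∑ y ∈ s, (r0 * ‖deriv (h y) x0‖ / C0) ^ 2 := by
        rw [Finset.mul_sum]
    _ ≤ C0 ^ 4 / (δ * κ) ^ 2 * 9 := by gcongr
    _ = 9 * C0 ^ 4 / (δ * κ) ^ 2 := by ring

end Pool.Agent.CUSP
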