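import Pool.Agent.CUSP.Targets2

/-!
# CUSP: TLE, the size of the tiles
-/

set_option autoImplicit false

open Complex Filter Topology Set MeasureTheory
open Pool.Agent.Limb (F)
open Pool.Agent.PLim (Rho)
open Pool.Agent.MEY (Pt)
open Pool.Agent.PSat (Comp Sat)
open Pool.Agent.AEN (vm Hp Exn)

namespace Pool.Agent.CUSP

namespace TLE_

theorem ball_sub (x : ℝ) (r : ℝ) (hr : r ≤ x + 1) :
    Metric.ball (x : ℂ) r ⊆ OM := by
  intro s hs
  rw [Metric.mem_ball, dist_eq_norm] at hs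
  right
  have h1 : |(s - x).re| ≤ ‖s - x‖ := Complex.abs_re_le_norm _
  rw [Complex.sub_re, Complex.ofReal_re] at h1
  have h2 := (abs_le.1 h1).1
  linarith

end TLE_

theorem p_TLE (h₁ : T_KDI) : T_TLE := by
  obtain ⟨C0, hC0, hK⟩ := h₁
  have hC0p : 0 < C0 := by linarith
  have hC02 : 1 ≤ C0 ^ 2 := one_le_pow₀ hC0
  have hC0C : C0 ≤ C0 ^ 2 := by nlinarith
  refine ⟨2 * C0 ^ 2, by linarith, ?_⟩
  intro k c z a L hD l t hl ht
  have hinj : InjOn (L l) OM := fun x hx y hy hxy => (hD.ftc.inj l l hl hl x hx y hy hxy).2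
  have hdif : DifferentiableOn ℂ (L l) OM := hD.ftc.dif l
  have s1 := TLE_.ball_sub t (t + 1) le_rfl
  have s3 := TLE_.ball_sub t ((t + 1) / 2) (by linarith)
  have s2 := TLE_.ball_sub (t + 1) (t + 2) (by linarith)
  obtain ⟨a1, -, c1⟩ := hK t (t + 1) (L l) (by linarith) (hdif.mono s1) (hinj.mono s1)
  obtain ⟨-, -, c2⟩ := hK ((t + 1 : ℝ) : ℂ) (t + 2) (L l) (by linarith) (hdif.mono s2)
    (hinj.mono s2)
  obtain ⟨-, b3, -⟩ := hK t ((t + 1) / 2) (L l) (by linarith) (hdif.mono s3) (hinj.mono s3)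
  have hcast : ((t + 1 : ℝ) : ℂ) = (t : ℂ) + 1 := by push_cast; ring
  rw [hcast] at c2
  have hn : ‖(t : ℂ) - (t + 1)‖ = 1 := by
    rw [show (t : ℂ) - (t + 1) = -1 by ring, norm_neg, norm_one]
  obtain ⟨d1, d2, d3, d4⟩ := c2 t (by rw [hn]; linarith)
  rw [hn, mul_one] at d3 d4
  rw [norm_sub_rev] at d3 d4
  set D := ‖deriv (L l) t‖ with hDd
  set E := ‖deriv (L l) (t + 1)‖ with hEd
  have hD0 : 0 < D := norm_pos_iff.2 a1
  have hE0 : 0 ≤ E := norm_nonneg _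
  have hDm : 0 ≤ C0 ^ 2 * D := by positivity
  have hEm : C0 * E ≤ C0 ^ 2 * E := mul_le_mul_of_nonneg_right hC0C hE0
  have hEn : 0 ≤ C0 ^ 2 * E := by positivity
  have hX : 0 ≤ C0 ^ 2 * ‖L l (t + 1) - L l t‖ := by positivity
  have hCD : C0 * D ≤ C0 ^ 2 * D := mul_le_mul_of_nonneg_right hC0C hD0.le
  refine ⟨hD0, ?_, ?_, ?_, ?_, ?_, ?_⟩
  · have : C0 * E ≤ C0 * (C0 * ‖L l (t + 1) - L l t‖) := mul_le_mul_of_nonneg_left d4 hC0p.le
    nlinarith
  · have : C0 * E ≤ C0 * (C0 * D) := mul_le_mul_of_nonneg_left d2 hC0p.le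
    nlinarith
  · nlinarith
  · nlinarith
  · refine Subset.trans (Metric.ball_subset_ball ?_) b3
    rw [div_le_div_iff₀ (by positivity) hC0p]
    have h0 : 0 ≤ (t + 1) * D := mul_nonneg (by linarith) hD0.le
    have h1 := mul_le_mul_of_nonneg_left hC0C h0
    nlinarith
  · intro s hs
    obtain ⟨e1, e2, e3, e4⟩ := c1 s hs
    have hns : 0 ≤ ‖s - t‖ := norm_nonneg _
    have hY : 0 ≤ C0 ^ 2 * ‖L l s - L l t‖ := by positivity
    have hCY : C0 * ‖L l s - L l t‖ ≤ C0 ^ 2 * ‖L l s - L l t‖ :=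
      mul_le_mul_of_nonneg_right hC0C (norm_nonneg _)
    have hZ : 0 ≤ C0 ^ 2 * D * ‖s - t‖ := by positivity
    have hCZ : C0 * D * ‖s - t‖ ≤ C0 ^ 2 * D * ‖s - t‖ := mul_le_mul_of_nonneg_right hCD hns
    refine ⟨by linarith, by linarith, by linarith⟩

end Pool.Agent.CUSP
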