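import Pool.Agent.CUSP.Targets2

/-!
# CUSP: TLF, the distance to the tip
-/

set_option autoImplicit false

open Complex Filter Topology Set MeasureTheory
open Pool.Agent.Limb (F)
open Pool.Agent.PLim (Rho)
open Pool.Agent.MEY (Pt)
open Pool.Agent.PSat (Comp Sat)
open Pool.Agent.AEN (vm Hp Exn)

namespace Pool.Agent.CUSP

namespace TLF_

theorem ball_sub (t : ℝ) (ht : 0 ≤ t) : Metric.ball (t : ℂ) 1 ⊆ OM := by
  intro x hx
  right
  rw [mem_ball_iff_norm] at hx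
  have h1 : |(x - t).re| ≤ ‖x - t‖ := Complex.abs_re_le_norm _
  rw [Complex.sub_re, Complex.ofReal_re] at h1
  have h2 := (abs_le.1 h1).1
  linarith

theorem step {C0 : ℝ}
    (hK : ∀ (a : ℂ) (R : ℝ) (g : ℂ → ℂ), 0 < R →
      DifferentiableOn ℂ g (Metric.ball a R) → InjOn g (Metric.ball a R) →
      deriv g a ≠ 0 ∧ Metric.ball (g a) (R * ‖deriv g a‖ / C0) ⊆ g '' Metric.ball a R ∧
      ∀ z : ℂ, ‖z - a‖ ≤ R / 2 → ‖deriv g z‖ ≤ C0 * ‖deriv g a‖ ∧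
        ‖deriv g a‖ ≤ C0 * ‖deriv g z‖ ∧
        ‖g z - g a‖ ≤ C0 * ‖deriv g a‖ * ‖z - a‖ ∧ ‖deriv g a‖ * ‖z - a‖ ≤ C0 * ‖g z - g a‖)
    {k : ℕ} {c : ℂ} {z a : ℕ → ℂ} {L : ℕ → ℂ → ℂ} (hD : Dat k c z a L) {l : ℕ} (hl : l < k)
    (t s : ℝ) (ht : 0 ≤ t) (hst : |s - t| ≤ 1 / 2) :
    ‖deriv (L l) s‖ ≤ C0 * ‖deriv (L l) t‖ ∧
      ‖L l s - L l t‖ ≤ C0 * ‖deriv (L l) t‖ * |s - t| := by
  have h1 : ‖(s : ℂ) - t‖ = |s - t| := by
    rw [← Complex.ofReal_sub, Complex.norm_real, Real.norm_eq_abs]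
  obtain ⟨-, -, h2⟩ := hK (t : ℂ) 1 (L l) one_pos ((hD.ftc.dif l).mono (ball_sub t ht))
    (fun x hx y hy hxy => (hD.ftc.inj l l hl hl x (ball_sub t ht hx) y (ball_sub t ht hy) hxy).2)
  obtain ⟨h3, -, h4, -⟩ := h2 (s : ℂ) (by rw [h1]; exact hst)
  rw [h1] at h4
  exact ⟨h3, h4⟩

theorem ind (h₁ : T_KDI) (n : ℕ) : ∃ C : ℝ, 1 ≤ C ∧ ∀ (k : ℕ) (c : ℂ) (z a : ℕ → ℂ)
    (L : ℕ → ℂ → ℂ), Dat k c z a L → ∀ (l : ℕ) (t : ℝ), l < k → 0 ≤ t → t ≤ n / 2 →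
    ‖L l t - L l 0‖ ≤ C * ‖deriv (L l) t‖ := by
  obtain ⟨C0, hC0, hK⟩ := h₁
  induction n with
  | zero =>
    refine ⟨1, le_rfl, fun k c z a L hD l t hl ht0 ht => ?_⟩
    have : t = 0 := by
      simp only [Nat.cast_zero, zero_div] at ht
      linarith
    rw [this, Complex.ofReal_zero, sub_self, norm_zero]
    positivity
  | succ n ih =>
    obtain ⟨C1, hC1, ih⟩ := ih
    refine ⟨C0 + C1 * C0, by nlinarith, fun k c z a L hD l t hl ht0 ht => ?_⟩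
    have hd : 0 ≤ ‖deriv (L l) t‖ := norm_nonneg _
    by_cases h : t ≤ 1 / 2
    · obtain ⟨-, h2⟩ := step hK hD hl t 0 ht0 (by
        rw [zero_sub, abs_neg, abs_of_nonneg ht0]
        exact h)
      rw [zero_sub, abs_neg, abs_of_nonneg ht0, Complex.ofReal_zero] at h2
      rw [norm_sub_rev]
      calc ‖L l 0 - L l t‖ ≤ C0 * ‖deriv (L l) t‖ * t := h2
        _ ≤ C0 * ‖deriv (L l) t‖ * 1 := by
          apply mul_le_mul_of_nonneg_left (by linarith)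
          positivity
        _ ≤ (C0 + C1 * C0) * ‖deriv (L l) t‖ := by
          have : 0 ≤ C1 * C0 * ‖deriv (L l) t‖ := by positivity
          nlinarith
    · push Not at h
      obtain ⟨h2, h3⟩ := step hK hD hl t (t - 1 / 2) ht0 (by
        rw [sub_sub_cancel_left, abs_neg, abs_of_nonneg (by norm_num)])
      rw [sub_sub_cancel_left, abs_neg, abs_of_nonneg (by norm_num : (0 : ℝ) ≤ 1 / 2)] at h3
      have h4 := ih k c z a L hD l (t - 1 / 2) hl (by linarith) (by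
        push_cast at ht
        linarith)
      have h5 : ‖L l t - L l 0‖ ≤ ‖L l ((t - 1 / 2 : ℝ) : ℂ) - L l t‖ +
          ‖L l ((t - 1 / 2 : ℝ) : ℂ) - L l 0‖ := by
        rw [norm_sub_rev (L l ((t - 1 / 2 : ℝ) : ℂ)) (L l t)]
        have := norm_add_le (L l t - L l ((t - 1 / 2 : ℝ) : ℂ))
          (L l ((t - 1 / 2 : ℝ) : ℂ) - L l 0)
        rwa [sub_add_sub_cancel] at this
      have h6 : C1 * ‖deriv (L l) ((t - 1 / 2 : ℝ) : ℂ)‖ ≤ C1 * (C0 * ‖deriv (L l) t‖) :=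
        mul_le_mul_of_nonneg_left h2 (by linarith)
      have h7 : 0 ≤ C0 * ‖deriv (L l) t‖ := by positivity
      nlinarith

end TLF_

theorem p_TLF (h₁ : T_KDI) : T_TLF := by
  intro T
  obtain ⟨n, hn⟩ := exists_nat_ge (2 * T)
  obtain ⟨C, hC, h⟩ := TLF_.ind h₁ n
  exact ⟨C, hC, fun k c z a L hD l t hl ht0 ht => h k c z a L hD l t hl ht0 (by linarith)⟩

end Pool.Agent.CUSP
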