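import Pool.Agent.CUSP.Targets2

/-!
# CUSP: many tips near a bad point (TPS)
-/

set_option autoImplicit false

open Complex Filter Topology Set MeasureTheory
open Pool.Agent.Limb (F)
open Pool.Agent.PLim (Rho)
open Pool.Agent.MEY (Pt)
open Pool.Agent.PSat (Comp Sat)
open Pool.Agent.AEN (vm Hp Exn)

namespace Pool.Agent.CUSP

namespace TPS_

/-- Points near circles of different radii are apart. -/
theorem apart (x y p : ℂ) (r s d D : ℝ) (hx : |‖x - p‖ - r| ≤ d) (hy : |‖y - p‖ - s| ≤ d)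
    (hrs : D ≤ |r - s|) : D - 2 * d ≤ ‖x - y‖ := by
  have h1 : |‖x - p‖ - ‖y - p‖| ≤ ‖x - y‖ := by
    have h := abs_norm_sub_norm_le (x - p) (y - p)
    have e : x - p - (y - p) = x - y := by ring
    rwa [e] at h
  have h2 : |r - s| ≤ |‖x - p‖ - r| + |‖x - p‖ - ‖y - p‖| + |‖y - p‖ - s| := by
    have e : r - s = -(‖x - p‖ - r) + (‖x - p‖ - ‖y - p‖) + (‖y - p‖ - s) := by ring
    rw [e]
    refine (abs_add_le _ _).trans ?_
    refine add_le_add ((abs_add_le _ _).trans ?_) le_rfl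
    rw [abs_neg]
  linarith

/-- The radii. -/
theorem radii (K0 : ℕ) (hK : 1 ≤ K0) (R : ℝ) (hR : 0 < R) (i i' : Fin K0) (h : i ≠ i') :
    R / (4 * K0) ≤ |(R / 4 + (i : ℕ) * (R / (4 * K0))) - (R / 4 + (i' : ℕ) * (R / (4 * K0)))| := by
  have hK' : (0 : ℝ) < K0 := by exact_mod_cast hK
  have h0 : 0 < R / (4 * K0) := by positivity
  have h1 : (R / 4 + (i : ℕ) * (R / (4 * K0))) - (R / 4 + (i' : ℕ) * (R / (4 * K0))) =
      (((i : ℕ) : ℝ) - ((i' : ℕ) : ℝ)) * (R / (4 * K0)) := by ring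
  rw [h1, abs_mul, abs_of_pos h0]
  have h2 : (1 : ℝ) ≤ |((i : ℕ) : ℝ) - ((i' : ℕ) : ℝ)| := by
    have h3 : ((i : ℕ) : ℤ) - ((i' : ℕ) : ℤ) ≠ 0 := by
      intro h4
      apply h
      apply Fin.ext
      omega
    have h5 : (1 : ℤ) ≤ |((i : ℕ) : ℤ) - ((i' : ℕ) : ℤ)| := Int.one_le_abs h3
    have h6 : ((1 : ℤ) : ℝ) ≤ ((|((i : ℕ) : ℤ) - ((i' : ℕ) : ℤ)| : ℤ) : ℝ) := by
      exact_mod_cast h5
    simpa using h6
  calc R / (4 * K0) = 1 * (R / (4 * K0)) := (one_mul _).symm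
    _ ≤ _ := mul_le_mul_of_nonneg_right h2 h0.le

end TPS_

open TPS_ in
theorem p_TPS (h₁ : T_LMA) (h₂ : T_GBR) (h₃ : T_NID) (h₄ : T_RNG) (h₅ : T_W1) (h₆ : T_XPR) :
    T_TPS := by
  intro K0 hK0
  obtain ⟨η, hη, hη', hA⟩ := h₁
  obtain ⟨C, hC, hB⟩ := h₂
  obtain ⟨eW, heW, hW⟩ := h₅
  have hK : (1 : ℝ) ≤ K0 := by exact_mod_cast hK0
  have hKp : (0 : ℝ) < K0 := by linarith
  have hδ : (0 : ℝ) < 1 / (16 * K0) := by positivity
  have hδ' : (1 : ℝ) / (16 * K0) ≤ 1 / 16 := by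
    apply one_div_le_one_div_of_le (by norm_num)
    linarith
  obtain ⟨e, he, hRNG⟩ := h₄ C (1 / (16 * K0)) eW hδ hδ' heW
  obtain ⟨ε, hε, hNID⟩ := h₃ C η e hη hη' he
  refine ⟨ε, hε, ?_⟩
  intro k c z a L l D hl ha
  have X := h₆ k c z a L D
  obtain ⟨G, hG⟩ := hB k c z a L D l
  set R := Rl k z L l with hRdef
  have hR : 0 < R := X.pos l
  have hnear := hNID k c (z l) (a l) R G hG
    (fun x hx hfx => (hA k c z a L D l x hl hx).2 hfx) (D.prb.ane l) ha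
  obtain ⟨j, hj, hjR⟩ := X.nea l
  have hex : ∀ i : Fin K0, ∃ i' < k,
      |‖L i' 0 - L j 0‖ - (R / 4 + (i : ℕ) * (R / (4 * K0)))| ≤ 1 / (16 * K0) * R := by
    intro i
    by_contra hcon
    push Not at hcon
    have hi : ((i : ℕ) : ℝ) ≤ K0 := by exact_mod_cast i.2.le
    have h0 : 0 ≤ ((i : ℕ) : ℝ) * (R / (4 * K0)) := by positivity
    have h1 : ((i : ℕ) : ℝ) * (R / (4 * K0)) ≤ R / 4 := by
      calc ((i : ℕ) : ℝ) * (R / (4 * K0)) ≤ K0 * (R / (4 * K0)) :=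
            mul_le_mul_of_nonneg_right hi (by positivity)
        _ = R / 4 := by field_simp
    have hcirc := hRNG k c z a L l j G (R / 4 + (i : ℕ) * (R / (4 * K0))) D hl hj hG hjR hnear
      (by linarith) (by linarith) (fun i' hi' => (hcon i' hi').le)
    exact hW k c z a L D j _ hj (by positivity) hcirc
  choose f hf using hex
  have hδR : 1 / (16 * (K0 : ℝ)) * R ≤ R / 16 := by
    calc 1 / (16 * (K0 : ℝ)) * R ≤ 1 / 16 * R := mul_le_mul_of_nonneg_right hδ' hR.le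
      _ = R / 16 := by ring
  refine ⟨f, fun i => ⟨(hf i).1, ?_⟩, fun i i' hii => ?_⟩
  · have hi : ((i : ℕ) : ℝ) ≤ K0 := by exact_mod_cast i.2.le
    have h1 : ((i : ℕ) : ℝ) * (R / (4 * K0)) ≤ R / 4 := by
      calc ((i : ℕ) : ℝ) * (R / (4 * K0)) ≤ K0 * (R / (4 * K0)) :=
            mul_le_mul_of_nonneg_right hi (by positivity)
        _ = R / 4 := by field_simp
    have h2 := (abs_le.mp (hf i).2).2
    have h3 : ‖L (f i) 0 - z l‖ ≤ ‖L (f i) 0 - L j 0‖ + ‖L j 0 - z l‖ :=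
      norm_sub_le_norm_sub_add_norm_sub _ _ _
    have h4 : ‖L j 0 - z l‖ = R := by rw [norm_sub_rev]; exact hjR
    linarith
  · have h := apart (L (f i) 0) (L (f i') 0) (L j 0) _ _ _ _ (hf i).2 (hf i').2
      (radii K0 hK0 R hR i i' hii)
    have e : R / (4 * K0) - 2 * (1 / (16 * (K0 : ℝ)) * R) = R / (8 * K0) := by
      field_simp
      ring
    rw [e] at h
    refine le_trans ?_ h
    apply div_le_div_of_nonneg_left hR.le (by positivity)
    linarith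

end Pool.Agent.CUSP
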