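import Pool.Agent.CUSP.Targets3
import Pool.Agent.PLim.TRL
import Pool.Agent.Multibrot.Push

/-!
# CUSP: TRX, the quadratic differential with simple poles
-/

set_option autoImplicit false

open Complex Filter Topology Set MeasureTheory
open Pool.Agent.Limb (F)
open Pool.Agent.PLim (Rho)
open Pool.Agent.MEY (Pt)
open Pool.Agent.PSat (Comp Sat)
open Pool.Agent.AEN (vm Hp Exn)
open Pool.Agent.Multibrot (rt push zt push_pole rt_ne rt_pow)
open Pool.Agent.PLim (Cyc TRL_H TRL_push)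

namespace Pool.Agent.CUSP
namespace TRX_

/-- The sum of simple poles. -/
noncomputable def xi (k : ℕ) (z β : ℕ → ℂ) (x : ℂ) : ℂ :=
  ∑ j ∈ Finset.range k, β j * (x - z j)⁻¹

theorem inv_integrable (ρ : ℝ) :
    Integrable (fun t : ℂ => if ‖t‖ ≤ ρ then ‖t‖⁻¹ else 0) := by
  have hfun : ∀ y : ℝ, y ∈ Ioi (0 : ℝ) → y ^ (Module.finrank ℝ ℂ - 1) •
      (if y ≤ ρ then y⁻¹ else 0) = (Ioc 0 ρ).indicator (fun _ => (1 : ℝ)) y := by
    intro y hy
    have hy' : (0 : ℝ) < y := hy
    rw [Complex.finrank_real_complex]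
    by_cases h : y ≤ ρ
    · simp [h, hy', hy'.ne', indicator]
    · simp [h, indicator]
  rw [integrable_fun_norm_addHaar volume (f := fun y : ℝ => if y ≤ ρ then y⁻¹ else 0),
    integrableOn_congr_fun hfun measurableSet_Ioi]
  apply Integrable.integrableOn
  rw [integrable_indicator_iff measurableSet_Ioc]
  exact integrableOn_const (by simp)

theorem inv_integrableOn (b : ℂ) (R : ℝ) :
    IntegrableOn (fun x : ℂ => (x - b)⁻¹) (Metric.ball 0 R) := by
  have h1 := (inv_integrable (R + ‖b‖)).comp_sub_right b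
  refine Integrable.mono' h1.integrableOn ?_ ?_
  · exact ((measurable_id.sub_const b).inv).aestronglyMeasurable
  · filter_upwards [ae_restrict_mem measurableSet_ball] with x hx
    rw [mem_ball_zero_iff] at hx
    have h2 : ‖x - b‖ ≤ R + ‖b‖ := (norm_sub_le _ _).trans (by linarith)
    rw [if_pos h2, norm_inv]

theorem xi_integrableOn (k : ℕ) (z β : ℕ → ℂ) (R : ℝ) :
    IntegrableOn (xi k z β) (Metric.ball 0 R) := by
  unfold xi
  exact integrable_finsetSum _ fun j _ => (inv_integrableOn (z j) R).const_mul (β j)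

theorem xi_meas (k : ℕ) (z β : ℕ → ℂ) : Measurable (xi k z β) := by
  unfold xi
  exact Finset.measurable_sum _ fun j _ => ((measurable_id.sub_const (z j)).inv).const_mul (β j)

theorem sum_shift (k : ℕ) (g : ℕ → ℂ) (h : g k = g 0) :
    ∑ j ∈ Finset.range k, g (j + 1) = ∑ j ∈ Finset.range k, g j := by
  have h1 := Finset.sum_range_succ g k
  have h2 := Finset.sum_range_succ' g k
  rw [h1, h] at h2
  exact (add_right_cancel h2).symm

theorem push_xi (k : ℕ) (c : ℂ) (z β : ℕ → ℂ) (hC : Cyc 2 k c z)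
    (hβ : ∀ j, β (j + 1) * (2 * z j) = β j) (hβk : ∀ j, β (j + k) = β j)
    (hs : ∑ j ∈ Finset.range k, β j = 0) (x : ℂ) (hxc : x ≠ c) (hx : ∀ j, x ≠ z j) :
    push 2 c (xi k z β) x = xi k z β x := by
  have hw : (x - c) ^ (((2 : ℕ) : ℂ)⁻¹) ≠ 0 := by
    intro h0
    apply rt_ne (n := 2) two_ne_zero hxc 0
    unfold rt
    rw [h0, mul_zero]
  have hwn : ((x - c) ^ (((2 : ℕ) : ℂ)⁻¹)) ^ 2 = x - c := Complex.cpow_nat_inv_pow _ two_ne_zero
  have hterm : ∀ j, ∑ i ∈ Finset.range 2, ((((2 : ℕ) : ℂ) * rt 2 c i x ^ (2 - 1)) ^ 2)⁻¹ *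
      (β j * (rt 2 c i x - z j)⁻¹) =
      β (j + 1) * (x - z (j + 1))⁻¹ - β (j + 1) * (x - c)⁻¹ := by
    intro j
    have hne : ((x - c) ^ (((2 : ℕ) : ℂ)⁻¹)) ^ 2 ≠ z j ^ 2 := by
      rw [hwn]
      intro h0
      apply hx (j + 1)
      rw [hC.step j, ← h0]
      ring
    have hp := push_pole (n := 2) le_rfl hw hne
    rw [hwn] at hp
    have e : x - c - z j ^ 2 = x - z (j + 1) := by rw [hC.step j]; ring
    rw [e] at hp
    rw [← mul_sub, ← hp, Finset.mul_sum]
    refine Finset.sum_congr rfl fun i _ => ?_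
    unfold rt
    rw [← hβ j]
    push_cast
    ring
  have h1 : push 2 c (xi k z β) x = ∑ j ∈ Finset.range k,
      (β (j + 1) * (x - z (j + 1))⁻¹ - β (j + 1) * (x - c)⁻¹) := by
    unfold push xi
    simp_rw [Finset.mul_sum]
    rw [Finset.sum_comm]
    exact Finset.sum_congr rfl fun j _ => hterm j
  have hzk : z k = z 0 := by simpa using hC.per 0
  have hβ0 : β k = β 0 := by simpa using hβk 0
  rw [h1, Finset.sum_sub_distrib, ← Finset.sum_mul,
    sum_shift k β hβ0, hs, zero_mul, sub_zero,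
    sum_shift k (fun j => β j * (x - z j)⁻¹) (by simp only [hzk, hβ0])]
  rfl

theorem xi_contOn (k : ℕ) (z β : ℕ → ℂ) (U : Set ℂ) (hU : ∀ x ∈ U, ∀ j < k, x ≠ z j) :
    ContinuousOn (xi k z β) U := by
  unfold xi
  refine continuousOn_finsetSum _ fun j hj => ?_
  refine continuousOn_const.mul (ContinuousOn.inv₀ (by fun_prop) ?_)
  intro x hx
  exact sub_ne_zero.mpr (hU x hx j (Finset.mem_range.mp hj))

theorem xi_zero (k : ℕ) (z β : ℕ → ℂ) (U : Set ℂ) (hU : ∀ x ∈ U, ∀ j < k, x ≠ z j)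
    (hinf : U.Infinite) (h0 : ∀ x ∈ U, xi k z β x = 0) (hk : 1 ≤ k)
    (hd : ∀ i j, i < k → j < k → z i = z j → i = j) : β 0 = 0 := by
  classical
  set P : Polynomial ℂ := ∑ j ∈ Finset.range k,
    Polynomial.C (β j) * ∏ i ∈ (Finset.range k).erase j, (Polynomial.X - Polynomial.C (z i))
    with hP
  have hev : ∀ x : ℂ, P.eval x = ∑ j ∈ Finset.range k,
      β j * ∏ i ∈ (Finset.range k).erase j, (x - z i) := by
    intro x
    rw [hP, Polynomial.eval_finsetSum]
    refine Finset.sum_congr rfl fun j _ => ?_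
    rw [Polynomial.eval_mul, Polynomial.eval_C, Polynomial.eval_prod]
    simp
  have hP0 : P = 0 := by
    apply Polynomial.eq_zero_of_infinite_isRoot
    refine hinf.mono ?_
    intro x hx
    show P.eval x = 0
    rw [hev x]
    have h1 : ∑ j ∈ Finset.range k, β j * ∏ i ∈ (Finset.range k).erase j, (x - z i) =
        (∏ i ∈ Finset.range k, (x - z i)) * xi k z β x := by
      unfold xi
      rw [Finset.mul_sum]
      refine Finset.sum_congr rfl fun j hj => ?_
      rw [← Finset.mul_prod_erase (Finset.range k) (fun i => x - z i) hj]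
      have : x - z j ≠ 0 := sub_ne_zero.mpr (hU x hx j (Finset.mem_range.mp hj))
      field_simp
    rw [h1, h0 x hx, mul_zero]
  have h2 := hev (z 0)
  rw [hP0, Polynomial.eval_zero] at h2
  have h0k : 0 ∈ Finset.range k := Finset.mem_range.mpr (by omega)
  rw [Finset.sum_eq_single_of_mem 0 h0k] at h2
  · rcases mul_eq_zero.mp h2.symm with h3 | h3
    · exact h3
    · exfalso
      rw [Finset.prod_eq_zero_iff] at h3
      obtain ⟨i, hi, h4⟩ := h3
      rw [Finset.mem_erase, Finset.mem_range] at hi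
      exact hi.1 (hd 0 i (by omega) hi.2 (sub_eq_zero.mp h4)).symm
  · intro j hj hj0
    apply mul_eq_zero_of_right
    apply Finset.prod_eq_zero (i := 0)
    · rw [Finset.mem_erase]
      exact ⟨fun h => hj0 h.symm, h0k⟩
    · exact sub_self _

end TRX_

open TRX_ in
/-- TRX: the quadratic differential with simple poles. -/
theorem p_TRX : T_TRX := by
  intro k c z β hC hβ hβk hβ0 hs
  have hk := hC.hp
  have hzmod : ∀ j, ∃ i ∈ Finset.range k, z j = z i := by
    intro j
    induction j using Nat.strong_induction_on with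
    | _ j ih =>
      by_cases h : j < k
      · exact ⟨j, Finset.mem_range.2 h, rfl⟩
      · obtain ⟨i, hi, e⟩ := ih (j - k) (by omega)
        refine ⟨i, hi, ?_⟩
        rw [← e, ← hC.per (j - k)]
        congr 1
        omega
  -- the radii
  set R' : ℝ := ‖c‖ + 2 + ∑ j ∈ Finset.range k, ‖z j‖ with hR'
  have hz : ∀ j < k, ‖z j‖ < R' := by
    intro j hj
    have h1 : ‖z j‖ ≤ ∑ j ∈ Finset.range k, ‖z j‖ :=
      Finset.single_le_sum (f := fun j => ‖z j‖) (fun i _ => norm_nonneg _)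
        (Finset.mem_range.mpr hj)
    have := norm_nonneg c
    linarith
  have hsum0 : 0 ≤ ∑ j ∈ Finset.range k, ‖z j‖ := Finset.sum_nonneg fun i _ => norm_nonneg _
  have hR2 : 2 ≤ R' := by have := norm_nonneg c; linarith
  have hRc : ‖c‖ < R' := by linarith
  set R : ℝ := R' ^ 2 - ‖c‖ with hR
  have hRR : R' < R := by nlinarith
  -- the push-forward
  have hae : ∀ᵐ x : ℂ, ∀ j ∈ Finset.range k, x ≠ z j := by
    rw [Filter.eventually_all_finset]
    intro j _
    exact compl_mem_ae_iff.2 (measure_singleton (μ := (volume : Measure ℂ)) (z j))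
  have haec : ∀ᵐ x : ℂ, x ≠ c :=
    compl_mem_ae_iff.2 (measure_singleton (μ := (volume : Measure ℂ)) c)
  have hpush : ∫⁻ x in Metric.ball (0 : ℂ) R, ‖xi k z β x‖ₑ =
      ∫⁻ x in Metric.ball (0 : ℂ) R, ‖push 2 c (xi k z β) x‖ₑ := by
    apply lintegral_congr_ae
    filter_upwards [ae_restrict_of_ae hae, ae_restrict_of_ae haec] with x hx hxc
    have e1 : ∀ j, x ≠ z j := by
      intro j
      obtain ⟨i, hi, e⟩ := hzmod j
      rw [e]
      exact hx i hi
    rw [push_xi k c z β hC hβ hβk hs x hxc e1]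
  have hle : ∫⁻ x in Metric.ball (0 : ℂ) R, ‖xi k z β x‖ₑ ≤
      ∫⁻ x in Metric.ball (0 : ℂ) R', ‖xi k z β x‖ₑ := by
    rw [hpush]
    calc ∫⁻ x in Metric.ball (0 : ℂ) R, ‖push 2 c (xi k z β) x‖ₑ
        ≤ ∫⁻ x in Metric.ball (0 : ℂ) R, TRL_H 2 c (xi k z β) x := by
          apply lintegral_mono
          intro x
          unfold push TRL_H
          exact enorm_sum_le _ _
      _ ≤ ∫⁻ w in {w : ℂ | w ^ 2 + c ∈ Metric.ball (0 : ℂ) R}, ‖xi k z β w‖ₑ :=
          TRL_push le_rfl c (xi_meas k z β) measurableSet_ball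
      _ ≤ ∫⁻ x in Metric.ball (0 : ℂ) R', ‖xi k z β x‖ₑ := by
          apply lintegral_mono_set
          intro w hw
          have hw' : ‖w ^ 2 + c‖ < R := by
            have : w ^ 2 + c ∈ Metric.ball (0 : ℂ) R := hw
            rwa [mem_ball_zero_iff] at this
          rw [mem_ball_zero_iff]
          have h1 : ‖w ^ 2‖ ≤ ‖w ^ 2 + c‖ + ‖c‖ := by
            have := norm_sub_le (w ^ 2 + c) c
            rwa [add_sub_cancel_right] at this
          rw [norm_pow] at h1
          have h2 : ‖w‖ ^ 2 < R' ^ 2 := by linarith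
          exact (pow_lt_pow_iff_left₀ (norm_nonneg _) (by linarith) two_ne_zero).mp h2
  -- the annulus
  have hfin : ∫⁻ x in Metric.ball (0 : ℂ) R', ‖xi k z β x‖ₑ ≠ ⊤ :=
    (xi_integrableOn k z β R').2.ne
  have hsplit := lintegral_inter_add_sdiff (μ := (volume : Measure ℂ))
    (fun x => ‖xi k z β x‖ₑ) (Metric.ball (0 : ℂ) R) (measurableSet_ball (x := (0 : ℂ)) (ε := R'))
  have hinter : Metric.ball (0 : ℂ) R ∩ Metric.ball (0 : ℂ) R' = Metric.ball (0 : ℂ) R' :=
    Set.inter_eq_right.mpr (Metric.ball_subset_ball hRR.le)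
  rw [hinter] at hsplit
  have hzero : ∫⁻ x in Metric.ball (0 : ℂ) R \ Metric.ball (0 : ℂ) R', ‖xi k z β x‖ₑ = 0 := by
    rw [← hsplit] at hle
    have h1 : (∫⁻ x in Metric.ball (0 : ℂ) R', ‖xi k z β x‖ₑ) +
        ∫⁻ x in Metric.ball (0 : ℂ) R \ Metric.ball (0 : ℂ) R', ‖xi k z β x‖ₑ ≤
        (∫⁻ x in Metric.ball (0 : ℂ) R', ‖xi k z β x‖ₑ) + 0 := by rw [add_zero]; exact hle
    exact le_antisymm ((ENNReal.add_le_add_iff_left hfin).mp h1) zero_le
  set U : Set ℂ := Metric.ball (0 : ℂ) R \ Metric.closedBall (0 : ℂ) R' with hU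
  have hUo : IsOpen U := Metric.isOpen_ball.sdiff Metric.isClosed_closedBall
  have hUsub : U ⊆ Metric.ball (0 : ℂ) R \ Metric.ball (0 : ℂ) R' :=
    Set.sdiff_subset_sdiff_right Metric.ball_subset_closedBall
  have hUz : ∀ x ∈ U, ∀ j < k, x ≠ z j := by
    intro x hx j hj h
    apply hx.2
    rw [mem_closedBall_zero_iff, h]
    exact (hz j hj).le
  have hUae : xi k z β =ᵐ[volume.restrict U] fun _ => 0 := by
    have h1 : ∫⁻ x in U, ‖xi k z β x‖ₑ = 0 :=
      le_antisymm ((lintegral_mono_set hUsub).trans hzero.le) zero_le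
    rw [lintegral_eq_zero_iff (xi_meas k z β).enorm] at h1
    filter_upwards [h1] with x hx
    simpa using hx
  have hEq : EqOn (xi k z β) (fun _ => 0) U :=
    Measure.eqOn_open_of_ae_eq hUae hUo (xi_contOn k z β U hUz) continuousOn_const
  have hmid : (((R' + R) / 2 : ℝ) : ℂ) ∈ U := by
    have hn : ‖(((R' + R) / 2 : ℝ) : ℂ)‖ = (R' + R) / 2 := by
      rw [Complex.norm_real, Real.norm_of_nonneg (by linarith)]
    refine ⟨?_, ?_⟩
    · rw [mem_ball_zero_iff, hn]; linarith
    · rw [mem_closedBall_zero_iff, hn]; linarith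
  have hinf : U.Infinite := infinite_of_mem_nhds _ (hUo.mem_nhds hmid)
  exact hβ0 (xi_zero k z β U hUz hinf (fun x hx => hEq hx) hk hC.dist)

end Pool.Agent.CUSP
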