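import Pool.Agent.CUSP.Targets2
import Pool.Agent.PLim.PHIp

/-!
# CUSP: properties of the arcs (target XPR)
-/

set_option autoImplicit false

open Complex Filter Topology Set MeasureTheory
open Pool.Agent.Limb (F)
open Pool.Agent.PLim (Rho)
open Pool.Agent.MEY (Pt)
open Pool.Agent.PSat (Comp Sat)
open Pool.Agent.AEN (vm Hp Exn)

namespace Pool.Agent.CUSP

namespace XPR_

theorem OM_open : IsOpen OM := by
  have h : OM = {t : ℂ | t.im ≠ 0} ∪ {t : ℂ | -1 < t.re} := rfl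
  rw [h]
  exact (isOpen_ne_fun Complex.continuous_im continuous_const).union
    (isOpen_lt continuous_const Complex.continuous_re)

theorem OM_add {t : ℂ} (ht : t ∈ OM) (n : ℕ) : t + n ∈ OM := by
  rcases ht with h | h
  · left
    simpa using h
  · right
    have h0 : (0 : ℝ) ≤ n := Nat.cast_nonneg n
    simp only [add_re, natCast_re]
    linarith

theorem OM_real {s : ℝ} (hs : 0 ≤ s) : (s : ℂ) ∈ OM := by
  right
  simp only [ofReal_re]
  linarith

section

variable {k : ℕ} {c : ℂ} {z a : ℕ → ℂ} {L : ℕ → ℂ → ℂ}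

theorem per' (hF : Ftc k c z a L) (l n : ℕ) : ∀ t ∈ OM, L (l + k * n) t = L l (t + n) := by
  induction n with
  | zero => intro t _; simp
  | succ n ih =>
    intro t ht
    have h1 : l + k * (n + 1) = (l + k * n) + k := by ring
    rw [h1, hF.per _ t ht, ih _ (by simpa using OM_add ht 1)]
    congr 1
    push_cast
    ring

theorem ite' (hF : Ftc k c z a L) (l j : ℕ) : ∀ t ∈ OM, (F 2 c)^[j] (L l t) = L (l + j) t := by
  induction j with
  | zero => intro t _; simp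
  | succ j ih =>
    intro t ht
    rw [Function.iterate_succ_apply', ih t ht, hF.stp _ t ht]
    rfl

theorem itn' (hF : Ftc k c z a L) (l n : ℕ) :
    ∀ t ∈ OM, (F 2 c)^[k * n] (L l t) = L l (t + n) := by
  intro t ht
  rw [ite' hF l (k * n) t ht, per' hF l n t ht]

theorem red (hF : Ftc k c z a L) (l : ℕ) : ∀ t ∈ OM, L l t = L (l % k) (t + (l / k : ℕ)) := by
  intro t ht
  have h1 := per' hF (l % k) (l / k) t ht
  rwa [Nat.mod_add_div] at h1

theorem nez' (hk : 1 ≤ k) (hF : Ftc k c z a L) (hfix : ∀ l, (F 2 c)^[k] (z l) = z l)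
    (l m : ℕ) : ∀ t ∈ OM, L l t ≠ z m := by
  intro t ht h
  rw [red hF l t ht] at h
  set r := l % k with hr
  have hrk : r < k := Nat.mod_lt _ (by omega)
  set t' : ℂ := t + (l / k : ℕ) with ht'
  have ht'O : t' ∈ OM := OM_add ht _
  have h1 := itn' hF r 1 t' ht'O
  rw [mul_one, h, hfix m, ← h] at h1
  have h2 := (hF.inj r r hrk hrk t' ht'O _ (OM_add ht'O 1) h1).2
  simp at h2

theorem lim' (hF : Ftc k c z a L) (l : ℕ) :
    Tendsto (fun s : ℝ => L l s) atTop (𝓝 (z l)) := by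
  obtain ⟨T, hT0, hT⟩ := hF.asy l 1 one_pos
  rw [tendsto_iff_norm_sub_tendsto_zero]
  have h0 : Tendsto (fun s : ℝ => (1 + ‖1 / a l‖) / s) atTop (𝓝 0) :=
    tendsto_const_nhds.div_atTop tendsto_id
  refine squeeze_zero' (Eventually.of_forall fun _ => norm_nonneg _) ?_ h0
  filter_upwards [eventually_ge_atTop T] with s hs
  have hs0 : 0 < s := lt_of_lt_of_le hT0 hs
  have h1 := (hT (s : ℂ) (by simpa using hs) (by simpa using hs0.le)).1
  rw [le_div_iff₀ hs0]
  have h2 : ‖(s : ℂ) * (L l s - z l)‖ ≤ 1 + ‖1 / a l‖ := by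
    calc ‖(s : ℂ) * (L l s - z l)‖ = ‖((s : ℂ) * (L l s - z l) + 1 / a l) - 1 / a l‖ := by
          rw [add_sub_cancel_right]
      _ ≤ ‖(s : ℂ) * (L l s - z l) + 1 / a l‖ + ‖1 / a l‖ := norm_sub_le _ _
      _ ≤ 1 + ‖1 / a l‖ := by linarith
  rw [norm_mul, Complex.norm_real, Real.norm_of_nonneg hs0.le] at h2
  linarith

theorem cont' (hF : Ftc k c z a L) (l : ℕ) : Continuous (fun s : ℝ => L l (|s| : ℝ)) := by
  rw [continuous_iff_continuousAt]
  intro s
  have h1 : ContinuousAt (L l) ((|s| : ℝ) : ℂ) :=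
    ((hF.dif l).differentiableAt (OM_open.mem_nhds (OM_real (abs_nonneg s)))).continuousAt
  exact ContinuousAt.comp (f := fun s : ℝ => ((|s| : ℝ) : ℂ)) h1
    (Complex.continuous_ofReal.comp continuous_abs).continuousAt

theorem Gm_eq (l : ℕ) : Gm z L l = insert (z l) (range fun s : ℝ => L l (|s| : ℝ)) := by
  unfold Gm
  congr 1
  ext x
  constructor
  · rintro ⟨s, hs, rfl⟩
    exact ⟨s, by simp only [abs_of_nonneg (mem_Ici.1 hs)]⟩
  · rintro ⟨s, rfl⟩
    exact ⟨|s|, abs_nonneg s, rfl⟩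

theorem cpt' (hF : Ftc k c z a L) (l : ℕ) : IsCompact (Gm z L l) := by
  rw [Gm_eq]
  refine Filter.Tendsto.isCompact_insert_range_of_cocompact ?_ (cont' hF l)
  exact (lim' hF l).comp (tendsto_norm_cocompact_atTop (E := ℝ))

theorem memX_z (hzlt : ∀ l : ℕ, ∃ m < k, z l = z m) (l : ℕ) : z l ∈ XX k z L := by
  obtain ⟨m, hm, h⟩ := hzlt l
  exact ⟨m, hm, h ▸ mem_insert _ _⟩

theorem memX_L (hk : 1 ≤ k) (hF : Ftc k c z a L) (l : ℕ) {s : ℝ} (hs : 0 ≤ s) :
    L l s ∈ XX k z L := by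
  refine ⟨l % k, Nat.mod_lt _ (by omega), ?_⟩
  rw [red hF l s (OM_real hs)]
  refine mem_insert_of_mem _ ⟨s + (l / k : ℕ), ?_, ?_⟩
  · have : (0 : ℝ) ≤ (l / k : ℕ) := Nat.cast_nonneg _
    exact mem_Ici.2 (add_nonneg hs this)
  · push_cast
    rfl

theorem der' (hk : 1 ≤ k) (hF : Ftc k c z a L) (l : ℕ) : ∀ t ∈ OM, deriv (L l) t ≠ 0 := by
  intro t ht
  have hrk : l % k < k := Nat.mod_lt _ (by omega)
  have h1 : L l =ᶠ[𝓝 t] fun w => L (l % k) (w + (l / k : ℕ)) := by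
    filter_upwards [OM_open.mem_nhds ht] with w hw
    exact red hF l w hw
  rw [h1.deriv_eq, deriv_comp_add_const]
  have h2 : OM ∈ 𝓝 (t + (l / k : ℕ)) := OM_open.mem_nhds (OM_add ht _)
  refine Pool.Agent.PLim.PHIp_.deriv_ne_zero_of_injOn ((hF.dif (l % k)).analyticAt h2) h2 ?_
  intro x hx y hy hxy
  exact (hF.inj _ _ hrk hrk x hx y hy hxy).2

theorem Tp_eq : Tp k L = (fun j : ℕ => L j 0) '' {j | j < k} := by
  ext x
  constructor
  · rintro ⟨j, hj, rfl⟩
    exact ⟨j, hj, rfl⟩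
  · rintro ⟨j, hj, rfl⟩
    exact ⟨j, hj, rfl⟩

theorem Tp_fin : (Tp k L).Finite := by
  rw [Tp_eq]
  exact (Set.finite_lt_nat k).image _

theorem Tp_ne (hk : 1 ≤ k) : (Tp k L).Nonempty := ⟨L 0 0, 0, by omega, rfl⟩

end

end XPR_

open XPR_ in
theorem p_XPR (h₂ : T_AST) : T_XPR := by
  intro k c z a L hD
  have hF := hD.ftc
  have hk := hD.prb.hk
  have hA := h₂ k c z a hD.prb
  have hfix : ∀ l, (F 2 c)^[k] (z l) = z l := fun l => (hA l).2.2.2.1
  have hzlt : ∀ l : ℕ, ∃ m < k, z l = z m := fun l => by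
    obtain ⟨m, hm, h, -⟩ := (hA l).2.2.2.2.2.1
    exact ⟨m, hm, h⟩
  have hnez := nez' hk hF hfix
  have h0 : (0 : ℂ) ∈ OM := by simpa using OM_real (le_refl (0 : ℝ))
  have hTp : ∀ l, z l ∉ Tp k L := by
    rintro l ⟨j, -, h⟩
    exact hnez j l 0 h0 h.symm
  refine
    { cpt := cpt' hF
      cpX := ?_
      dsj := ?_
      inv := ?_
      crv := ?_
      ite := ite' hF
      itn := itn' hF
      nez := hnez
      rea := ?_
      der := der' hk hF
      fix := hfix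
      zlt := hzlt
      pos := ?_
      tip := ?_
      nea := ?_
      lim := lim' hF }
  · have h1 : XX k z L = ⋃ l ∈ {l : ℕ | l < k}, Gm z L l := by
      ext x
      simp [XX]
    rw [h1]
    exact (Set.finite_lt_nat k).isCompact_biUnion fun l _ => cpt' hF l
  · intro l hl m hm hlm
    rw [Set.disjoint_left]
    rintro x hx hy
    rcases hx with rfl | ⟨s, hs, rfl⟩
    · rcases hy with h | ⟨t, ht, h⟩
      · exact hlm (hD.prb.dst l m hl hm h)
      · exact hnez m l t (OM_real ht) h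
    · rcases hy with h | ⟨t, ht, h⟩
      · exact hnez l m s (OM_real hs) h
      · exact hlm (hF.inj m l hm hl t (OM_real ht) s (OM_real hs) h).1.symm
  · rintro x ⟨l, hl, hx⟩
    rcases hx with rfl | ⟨s, hs, rfl⟩
    · rw [hD.prb.stp l]
      exact memX_z hzlt (l + 1)
    · change F 2 c (L l s) ∈ _
      rw [hF.stp l s (OM_real hs)]
      exact memX_L hk hF (l + 1) hs
  · intro j
    have h1 := ite' hF 0 j 0 h0
    rw [hF.tip, zero_add] at h1
    rw [h1]
    have h2 := memX_L hk hF j (le_refl (0 : ℝ))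
    simpa using h2
  · rintro l hl t ht ⟨m, hm, hx⟩
    rcases hx with h | ⟨s, hs, h⟩
    · exact absurd h (hnez l m t ht)
    · have h1 := (hF.inj m l hm hl s (OM_real hs) t ht h).2
      rw [← h1]
      exact ⟨by simp, by simpa using mem_Ici.1 hs⟩
  · intro l
    unfold Rl
    exact (Tp_fin.isClosed.notMem_iff_infDist_pos (Tp_ne hk)).1 (hTp l)
  · intro l j hj
    unfold Rl
    rw [← dist_eq_norm]
    exact Metric.infDist_le_dist_of_mem ⟨j, hj, rfl⟩
  · intro l
    obtain ⟨y, ⟨j, hj, rfl⟩, h⟩ := Tp_fin.isCompact.exists_infDist_eq_dist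
      (Tp_ne (L := L) hk) (z l)
    refine ⟨j, hj, ?_⟩
    unfold Rl
    rw [h, dist_eq_norm]

end Pool.Agent.CUSP
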