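import Pool.Agent.AEN.P_TCR
import Pool.Agent.PLim.All4
import Pool.Agent.CUSP.P_KDI
import Pool.Agent.CUSP.P_ARE
import Pool.Agent.CUSP.P_BIE
import Pool.Agent.CUSP.P_HPM
import Pool.Agent.CUSP.P_CRV
import Pool.Agent.CUSP.P_LFU
import Pool.Agent.CUSP.P_LFT
import Pool.Agent.CUSP.P_HRK
import Pool.Agent.CUSP.P_SPR
import Pool.Agent.CUSP.P_ESC
import Pool.Agent.CUSP.P_FW1
import Pool.Agent.CUSP.P_FW2
import Pool.Agent.CUSP.P_FAT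
import Pool.Agent.CUSP.P_AST
import Pool.Agent.CUSP.P_INI
import Pool.Agent.CUSP.P_BST
import Pool.Agent.CUSP.P_OBS
import Pool.Agent.CUSP.P_EXN
import Pool.Agent.CUSP.P_OMX
import Pool.Agent.CUSP.P_BKW
import Pool.Agent.CUSP.P_BKL
import Pool.Agent.CUSP.P_HOD
import Pool.Agent.CUSP.P_HOM
import Pool.Agent.CUSP.P_ASY
import Pool.Agent.CUSP.P_XPR
import Pool.Agent.CUSP.P_TLE
import Pool.Agent.CUSP.P_TLF
import Pool.Agent.CUSP.P_W1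
import Pool.Agent.CUSP.P_GBR
import Pool.Agent.CUSP.P_SML
import Pool.Agent.CUSP.P_SHF
import Pool.Agent.CUSP.P_ACA
import Pool.Agent.CUSP.P_COR
import Pool.Agent.CUSP.P_LMA
import Pool.Agent.CUSP.P_NID
import Pool.Agent.CUSP.P_LOW
import Pool.Agent.CUSP.P_CON
import Pool.Agent.CUSP.P_RNG
import Pool.Agent.CUSP.P_TPS
import Pool.Agent.CUSP.P_PAK
import Pool.Agent.CUSP.P_NET
import Pool.Agent.CUSP.P_CTN
import Pool.Agent.CUSP.P_LMB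
import Pool.Agent.CUSP.P_ACF
import Pool.Agent.CUSP.P_GOP
import Pool.Agent.CUSP.P_HBR
import Pool.Agent.CUSP.P_SUM
import Pool.Agent.CUSP.P_FEQ
import Pool.Agent.CUSP.P_RIT
import Pool.Agent.CUSP.P_RAS
import Pool.Agent.CUSP.P_CES
import Pool.Agent.CUSP.P_FRM
import Pool.Agent.CUSP.P_ABI
import Pool.Agent.CUSP.P_P0
import Pool.Agent.CUSP.P_TRX
import Pool.Agent.CUSP.P_ANZ
import Pool.Agent.CUSP.P_P0X

/-!
# CUSP: assembly of part I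
-/

set_option autoImplicit false

namespace Pool.Agent.CUSP

theorem a_KDI : T_KDI := p_KDI
theorem a_ARE : T_ARE := p_ARE
theorem a_BIE : T_BIE := p_BIE a_ARE
theorem a_HPM : T_HPM := p_HPM a_BIE
theorem a_CRV : T_CRV := p_CRV
theorem a_LFU : T_LFU := p_LFU
theorem a_LFT : T_LFT := p_LFT
theorem a_HRK : T_HRK := p_HRK
theorem a_SPR : T_SPR := p_SPR a_KDI
theorem a_ESC : T_ESC := p_ESC
theorem a_FW1 : T_FW1 := p_FW1
theorem a_FW2 : T_FW2 := p_FW2 a_FW1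
theorem a_FAT : T_FAT := p_FAT a_FW2
theorem a_AST : T_AST := p_AST a_CRV
theorem a_INI : T_INI := p_INI a_FAT a_AST
theorem a_BST : T_BST := p_BST a_LFT a_LFU a_CRV a_AST
theorem a_OBS : T_OBS := p_OBS a_INI a_BST a_ESC a_AST
theorem a_EXN : T_EXN := p_EXN a_LFT a_LFU a_CRV
theorem a_OMX : T_OMX := p_OMX a_EXN a_ESC a_AST
theorem a_BKW : T_BKW := p_BKW
theorem a_BKL : T_BKL := p_BKL a_BKW a_LFU a_CRV a_AST
theorem a_HOD : T_HOD := p_HOD a_KDI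
theorem a_HOM : T_HOM := p_HOM a_BKL a_HOD a_SPR
theorem a_ASY : T_ASY := p_ASY a_BKL
theorem a_XPR : T_XPR := p_XPR a_AST
theorem a_TLE : T_TLE := p_TLE a_KDI
theorem a_TLF : T_TLF := p_TLF a_KDI
theorem a_W1 : T_W1 := p_W1 a_TLE a_XPR a_CRV
theorem a_GBR : T_GBR := p_GBR a_LFT a_KDI a_XPR
theorem a_SML : T_SML := p_SML a_TLE a_TLF a_XPR
theorem a_SHF : T_SHF := p_SHF a_TLE a_XPR
theorem a_ACA : T_ACA := p_ACA a_SML a_SHF a_TLE a_XPR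
theorem a_ACB : T_ACB := p_ACB a_ASY a_XPR
theorem a_COR : T_COR := p_COR a_LFT a_LFU a_CRV a_SPR a_HOM a_HOD a_XPR
theorem a_LMA : T_LMA := p_LMA a_ACA a_ACB a_COR a_GBR a_SML a_SHF a_TLE a_LFU a_CRV a_XPR
theorem a_NID : T_NID := p_NID a_KDI a_HRK Pool.Agent.AEN.p_TCR
theorem a_LOW : T_LOW := p_LOW a_HRK
theorem a_CON : T_CON := p_CON a_LFT a_LFU a_CRV a_KDI Pool.Agent.AEN.p_TCR
theorem a_RNG : T_RNG := p_RNG a_CON a_XPR
theorem a_TPS : T_TPS := p_TPS a_LMA a_GBR a_NID a_RNG a_W1 a_XPR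
theorem a_PAK : T_PAK := p_PAK
theorem a_NET : T_NET := p_NET
theorem a_CTN : T_CTN := p_CTN a_PAK a_NET
theorem a_LMB : T_LMB := p_LMB a_LMA a_TPS a_CTN a_XPR
theorem a_ACF : T_ACF := p_ACF a_CRV a_AST
theorem a_GOP : T_GOP := p_GOP a_XPR a_ESC a_CRV a_KDI a_AST
theorem a_HBR : T_HBR := p_HBR a_LMA a_GBR a_SHF a_LFT a_LFU a_CRV a_XPR
theorem a_BAL : T_BAL := p_BAL a_GBR a_LOW a_TLE a_XPR
theorem a_SUM : T_SUM := p_SUM a_LMA a_LMB a_HBR a_BAL a_KDI a_LFU a_XPR a_ESC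
theorem a_FEQ : T_FEQ := p_FEQ a_GOP
theorem a_RIT : T_RIT := p_RIT a_FEQ a_GOP a_XPR a_CRV
theorem a_RAS : T_RAS := p_RAS a_GOP a_TLE a_XPR
theorem a_CES : T_CES := p_CES
theorem a_FRM : T_FRM := p_FRM a_RIT a_RAS a_CES a_XPR
theorem a_ABI : T_ABI := p_ABI a_AST
theorem a_P0 : T_P0 := p_P0 a_OBS a_OMX a_ACF a_SUM a_FRM a_ABI a_AST
theorem a_TRX : T_TRX := p_TRX
theorem a_ANZ : T_ANZ := p_ANZ a_TRX Pool.Agent.PLim.a_TRL
theorem a_P0X : T_P0X := p_P0X a_P0 a_ANZ a_CRV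

end Pool.Agent.CUSP
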