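import Pool.Agent.AEN.Targets2

/-!
# CUSP: definitions

All hyperbolic components of the Mandelbrot set form a null sequence (MP_fcb70f_an): the cusp
estimate at the primitive roots.
-/

set_option autoImplicit false

open Complex Filter Topology Set MeasureTheory
open Pool.Agent.Limb (F)
open Pool.Agent.PLim (Rho)
open Pool.Agent.MEY (Pt)
open Pool.Agent.PSat (Comp Sat)
open Pool.Agent.AEN (vm Hp Exn)

namespace Pool.Agent.CUSP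

/-- The sector with vertex `p` in the direction of the positive real axis. -/
def Sx (p : ℝ) : Set ℂ := {t : ℂ | 4 * |t.im| < t.re - p}

/-- The plane minus the half line `(-∞, -1]`. -/
def OM : Set ℂ := {t : ℂ | t.im ≠ 0 ∨ -1 < t.re}

/-- A cycle of exact period `k` with multiplier one; `2 * a l` is the second derivative of the
iterate of order `k` at `z l`. -/
structure Prb (k : ℕ) (c : ℂ) (z a : ℕ → ℂ) : Prop where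
  hk : 1 ≤ k
  stp : ∀ l, F 2 c (z l) = z (l + 1)
  per : ∀ l, z (l + k) = z l
  dst : ∀ l m, l < k → m < k → z l = z m → l = m
  mul : ∀ l, Rho 2 k c (z l) = 1
  sec : ∀ l, deriv (deriv ((F 2 c)^[k])) (z l) = 2 * a l
  ane : ∀ l, a l ≠ 0

/-- A Fatou coordinate (inverse) on the sector `Sx p` at the point `ζ`. -/
structure Sy (k : ℕ) (c ζ α : ℂ) (p : ℝ) (lam : ℂ → ℂ) : Prop where
  dif : DifferentiableOn ℂ lam (Sx p)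
  inj : InjOn lam (Sx p)
  eq : ∀ t ∈ Sx p, (F 2 c)^[k] (lam t) = lam (t + 1)
  asy : ∀ ε : ℝ, 0 < ε → ∃ T : ℝ, ∀ t ∈ Sx p, T ≤ t.re →
    ‖t * (lam t - ζ) + 1 / α‖ ≤ ε ∧ ‖t ^ 2 * deriv lam t - 1 / α‖ ≤ ε

/-- The maximal inverse Fatou coordinates, with the critical value `c = L 0 0`. -/
structure Ftc (k : ℕ) (c : ℂ) (z a : ℕ → ℂ) (L : ℕ → ℂ → ℂ) : Prop where
  dif : ∀ l, DifferentiableOn ℂ (L l) OM
  stp : ∀ l, ∀ t ∈ OM, F 2 c (L l t) = L (l + 1) t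
  per : ∀ l, ∀ t ∈ OM, L (l + k) t = L l (t + 1)
  inj : ∀ l m, l < k → m < k → ∀ t ∈ OM, ∀ s ∈ OM, L l t = L m s → l = m ∧ t = s
  tip : L 0 0 = c
  crt : Tendsto (fun s : ℝ => L (k - 1) s) (𝓝[>] (-1)) (𝓝 0)
  bdd : ∀ l, ∀ t ∈ OM, ‖L l t‖ ≤ 2
  asy : ∀ l, ∀ ε : ℝ, 0 < ε → ∃ T : ℝ, 0 < T ∧ ∀ t : ℂ, T ≤ t.re → 5 * |t.im| ≤ t.re →
    ‖t * (L l t - z l) + 1 / a l‖ ≤ ε ∧ ‖t ^ 2 * deriv (L l) t - 1 / a l‖ ≤ ε

/-- The arc from the tip `L l 0` to the parabolic point `z l`. -/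
def Gm (z : ℕ → ℂ) (L : ℕ → ℂ → ℂ) (l : ℕ) : Set ℂ :=
  insert (z l) ((fun s : ℝ => L l s) '' Ici (0 : ℝ))

/-- The union of the arcs. -/
def XX (k : ℕ) (z : ℕ → ℂ) (L : ℕ → ℂ → ℂ) : Set ℂ := {x : ℂ | ∃ l < k, x ∈ Gm z L l}

/-- The tips. -/
def Tp (k : ℕ) (L : ℕ → ℂ → ℂ) : Set ℂ := {x : ℂ | ∃ j < k, x = L j 0}

/-- The distance from `z l` to the tips. -/
noncomputable def Rl (k : ℕ) (z : ℕ → ℂ) (L : ℕ → ℂ → ℂ) (l : ℕ) : ℝ :=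
  Metric.infDist (z l) (Tp k L)

/-- `G` is the branch on `ball ζ R` of the inverse of the iterate of order `k` which fixes `ζ`. -/
structure Gbr (C : ℝ) (k : ℕ) (c ζ α : ℂ) (R : ℝ) (G : ℂ → ℂ) : Prop where
  hC : 2 ≤ C
  hR : 0 < R
  dif : DifferentiableOn ℂ G (Metric.ball ζ R)
  inj : InjOn G (Metric.ball ζ R)
  fix : G ζ = ζ
  inv : ∀ x ∈ Metric.ball ζ R, (F 2 c)^[k] (G x) = x
  bd : ∀ x : ℂ, ‖x - ζ‖ ≤ R / 2 → ‖G x - x‖ ≤ C * ‖x - ζ‖ ^ 2 / R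
  lft : ∀ x : ℂ, ‖x - ζ‖ ≤ R / C → ‖(F 2 c)^[k] x - ζ‖ < R ∧ G ((F 2 c)^[k] x) = x ∧
    ‖(F 2 c)^[k] x - x‖ ≤ C * ‖x - ζ‖ ^ 2 / R
  sec : deriv (deriv G) ζ = -2 * α
  abd : ‖α‖ * R ≤ C

/-- The grand orbit of the cycle. -/
def GO (c : ℂ) (z : ℕ → ℂ) : Set ℂ := {y : ℂ | ∃ n l : ℕ, (F 2 c)^[n] y = z l}

/-- The coefficients on the grand orbit. -/
def Acf (c : ℂ) (z a : ℕ → ℂ) (A : ℂ → ℂ) : Prop :=
  ∀ (y : ℂ) (n l : ℕ), (F 2 c)^[n] y = z l → A y = a l * deriv ((F 2 c)^[n]) y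

/-- The derivative of the iterate of order `j` with respect to the parameter. -/
noncomputable def BB (c : ℂ) : ℕ → ℂ → ℂ
  | 0, _ => 0
  | j + 1, x => 2 * (F 2 c)^[j] x * BB c j x + 1

/-- The limit of the parametrization and of the attracting cycle at the root. -/
structure Rt (K : ℕ) (Q Z : ℂ → ℂ) (r0 z0 : ℂ) : Prop where
  dZ : DifferentiableOn ℂ Z Hp
  pt : ∀ m ∈ Hp, Pt 2 K (Q m) (Z m) (vm m)
  lim : ∀ ε : ℝ, 0 < ε → ∃ M : ℝ, ∀ m ∈ Hp, M ≤ ‖m‖ → ‖Q m - r0‖ ≤ ε ∧ ‖Z m - z0‖ ≤ ε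

/-- `U` is a hyperbolic component. -/
def IsHC (U : Set ℂ) : Prop := ∃ (K : ℕ) (P : ℂ → ℂ), Comp K P ∧ U = P '' Metric.ball 0 1

end Pool.Agent.CUSP
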