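import Pool.Agent.CUSP.Targets2

/-!
# CUSP: access from the end point of an arc (ACB)
-/

set_option autoImplicit false

open Complex Filter Topology Set MeasureTheory
open Pool.Agent.Limb (F)
open Pool.Agent.PLim (Rho)
open Pool.Agent.MEY (Pt)
open Pool.Agent.PSat (Comp Sat)
open Pool.Agent.AEN (vm Hp Exn)

namespace Pool.Agent.CUSP

/-- A unit vector close to `1` which turns `u` away from the real axis. -/
theorem ACB_w (u : ℂ) (hu : u ≠ 0) : ∃ w : ℂ, ‖w‖ = 1 ∧ 12 / 13 ≤ w.re ∧ (u * w).im ≠ 0 := by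
  by_cases h : u.im = 0
  · refine ⟨⟨12 / 13, 5 / 13⟩, ?_, le_refl _, ?_⟩
    · rw [Complex.norm_def, Complex.normSq_mk]
      rw [show (12 / 13 : ℝ) * (12 / 13) + 5 / 13 * (5 / 13) = 1 by norm_num, Real.sqrt_one]
    · have hre : u.re ≠ 0 := by
        intro h0
        exact hu (Complex.ext h0 h)
      rw [Complex.mul_im, h]
      simp only [zero_mul, add_zero]
      exact mul_ne_zero hre (by norm_num)
  · exact ⟨1, by simp, by norm_num, by simpa using h⟩

/-- The distance of `h w` from `ρ`. -/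
theorem ACB_dist (w : ℂ) (h ρ : ℝ) (hw : ‖w‖ = 1) (hre : 12 / 13 ≤ w.re) (hh : 0 < h)
    (hρ : h ≤ ρ / 10) : ‖(h : ℂ) * w - ρ‖ ≤ ρ - 4 / 5 * h := by
  have h1 : ‖(h : ℂ) * w - ρ‖ ^ 2 = h ^ 2 + ρ ^ 2 - 2 * h * ρ * w.re := by
    have e1 : w.re * w.re + w.im * w.im = 1 := by
      have := Complex.normSq_eq_norm_sq w
      rw [Complex.normSq_apply, hw] at this
      linarith
    rw [← Complex.normSq_eq_norm_sq, Complex.normSq_apply]
    simp only [Complex.sub_re, Complex.mul_re, Complex.ofReal_re, Complex.ofReal_im,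
      Complex.sub_im, Complex.mul_im]
    have : (h * w.re - 0 * w.im - ρ) * (h * w.re - 0 * w.im - ρ) +
        (h * w.im + 0 * w.re - 0) * (h * w.im + 0 * w.re - 0) =
        h ^ 2 * (w.re * w.re + w.im * w.im) + ρ ^ 2 - 2 * h * ρ * w.re := by ring
    rw [this, e1, mul_one]
  have hρ0 : 0 < ρ := by linarith
  have h2 : 0 ≤ ρ - 4 / 5 * h := by linarith
  have h3 : 2 * h * ρ * (12 / 13) ≤ 2 * h * ρ * w.re :=
    mul_le_mul_of_nonneg_left hre (by positivity)
  have h4 : ‖(h : ℂ) * w - ρ‖ ^ 2 ≤ (ρ - 4 / 5 * h) ^ 2 := by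
    rw [h1]
    nlinarith [mul_pos hh hρ0]
  exact abs_le_of_sq_le_sq' h4 h2 |>.2

/-- The branch is close to the identity near a fixed point. -/
theorem ACB_near {C : ℝ} {k : ℕ} {c : ℂ} {z a : ℕ → ℂ} {L : ℕ → ℂ → ℂ} {l : ℕ} {G : ℂ → ℂ}
    {p : ℂ} {ρ η : ℝ} (hG : Gbr C k c (z l) (a l) (Rl k z L l) G)
    (hD : Dsc k z L l G (1 / 4) η p ρ) (hη : η ≤ 1 / 8) {ζ : ℂ} (hζ : ‖ζ - p‖ ≤ ρ)
    (hfix : G ζ = ζ) {x : ℂ} (hx : ‖x - p‖ ≤ ρ) : ‖G x - x‖ ≤ 1 / 8 * ‖x - ζ‖ := by
  have hR := hG.hR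
  have hρ := hD.hρ
  have hball : ∀ y : ℂ, ‖y - p‖ < 4 * ρ → y ∈ Metric.ball (z l) (Rl k z L l) := by
    intro y hy
    rw [mem_ball_iff_norm]
    have h1 : ‖y - z l‖ ≤ ‖y - p‖ + ‖p - z l‖ := by
      have e : y - z l = (y - p) + (p - z l) := by ring
      rw [e]
      exact norm_add_le _ _
    have h2 := hD.hs
    have h3 : η * Rl k z L l ≤ 1 / 8 * Rl k z L l := mul_le_mul_of_nonneg_right hη hR.le
    linarith
  have hdiff : ∀ y : ℂ, ‖y - p‖ < 4 * ρ → DifferentiableAt ℂ (fun y => G y - y) y := by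
    intro y hy
    exact (hG.dif.differentiableAt (Metric.isOpen_ball.mem_nhds (hball y hy))).sub
      differentiableAt_id
  have hder : ∀ y : ℂ, ‖y - p‖ ≤ ρ → ‖deriv (fun y => G y - y) y‖ ≤ 1 / 8 := by
    intro y hy
    have h1 : DiffContOnCl ℂ (fun y => G y - y) (Metric.ball y (2 * ρ)) := by
      apply DifferentiableOn.diffContOnCl
      rw [closure_ball y (by positivity)]
      intro u hu
      rw [mem_closedBall_iff_norm] at hu
      apply (hdiff u _).differentiableWithinAt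
      have h2 : ‖u - p‖ ≤ ‖u - y‖ + ‖y - p‖ := by
        have e : u - p = (u - y) + (y - p) := by ring
        rw [e]
        exact norm_add_le _ _
      linarith
    have h3 : ∀ u ∈ Metric.sphere y (2 * ρ), ‖(fun y => G y - y) u‖ ≤ 1 / 4 * ρ := by
      intro u hu
      rw [mem_sphere_iff_norm] at hu
      apply hD.near
      have h2 : ‖u - p‖ ≤ ‖u - y‖ + ‖y - p‖ := by
        have e : u - p = (u - y) + (y - p) := by ring
        rw [e]
        exact norm_add_le _ _
      linarith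
    have h4 := Complex.norm_deriv_le_of_forall_mem_sphere_norm_le (by positivity) h1 h3
    have e : 1 / 4 * ρ / (2 * ρ) = 1 / 8 := by
      field_simp
      norm_num
    rw [e] at h4
    exact h4
  have hmv := Convex.norm_image_sub_le_of_norm_deriv_le (𝕜 := ℂ) (f := fun y => G y - y)
    (C := 1 / 8) (s := Metric.closedBall p ρ) (x := ζ) (y := x)
    (fun y hy => hdiff y (by rw [mem_closedBall_iff_norm] at hy; linarith))
    (fun y hy => hder y (by rwa [mem_closedBall_iff_norm] at hy)) (convex_closedBall p ρ)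
    (by rwa [mem_closedBall_iff_norm]) (by rwa [mem_closedBall_iff_norm])
  simp only [hfix, sub_self, sub_zero] at hmv
  exact hmv

theorem p_ACB (h₁ : T_ASY) (h₂ : T_XPR) : T_ACB := by
  intro C hC
  have hC0 : 0 < C := by linarith
  refine ⟨1 / 4, min (1 / C) (1 / 8), by norm_num, lt_min (by positivity) (by norm_num), ?_⟩
  intro k c z a L l G p ρ hdat _hl hG hD j hj hjp
  have hX := h₂ k c z a L hdat
  have hR := hG.hR
  have hρ := hD.hρ
  have hη1 : min (1 / C) (1 / 8) ≤ 1 / C := min_le_left _ _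
  have hη2 : min (1 / C) (1 / 8) ≤ 1 / 8 := min_le_right _ _
  -- points of the closed disc are close to `z l`
  have hcl : ∀ y : ℂ, ‖y - p‖ ≤ ρ → ‖y - z l‖ ≤ Rl k z L l / C := by
    intro y hy
    have h1 : ‖y - z l‖ ≤ ‖y - p‖ + ‖p - z l‖ := by
      have e : y - z l = (y - p) + (p - z l) := by ring
      rw [e]
      exact norm_add_le _ _
    have h2 := hD.hs
    have h3 : min (1 / C) (1 / 8) * Rl k z L l ≤ 1 / C * Rl k z L l :=
      mul_le_mul_of_nonneg_right hη1 hR.le
    have h4 : 1 / C * Rl k z L l = Rl k z L l / C := by ring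
    linarith
  have hfix : G (z j) = z j := by
    have h1 := (hG.lft (z j) (hcl (z j) hjp.le)).2.1
    rwa [hX.fix j] at h1
  have ha := hdat.prb.ane j
  -- the direction
  set v : ℂ := (p - z j) / ρ with hv
  have hρC : (ρ : ℂ) ≠ 0 := by exact_mod_cast hρ.ne'
  have hvρ : p - z j = ρ * v := by
    rw [hv]
    field_simp
  have hvn : ‖v‖ = 1 := by
    rw [hv, norm_div, Complex.norm_real, norm_sub_rev, hjp, Real.norm_of_nonneg hρ.le,
      div_self hρ.ne']
  have hv0 : v ≠ 0 := by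
    intro h0
    rw [h0, norm_zero] at hvn
    exact zero_ne_one hvn
  obtain ⟨w, hw1, hw2, hw3⟩ := ACB_w (a j * v) (mul_ne_zero ha hv0)
  have hw0 : w ≠ 0 := by
    intro h0
    rw [h0, norm_zero] at hw1
    exact zero_ne_one hw1
  set U : ℂ := a j * v * w with hU
  have hU0 : U ≠ 0 := mul_ne_zero (mul_ne_zero ha hv0) hw0
  set ω : ℂ := -(1 / U) with hω
  have hω0 : ω ≠ 0 := neg_ne_zero.2 (one_div_ne_zero hU0)
  have hωim : ω.im ≠ 0 := by
    rw [hω, Complex.neg_im, one_div, Complex.inv_im, neg_div, neg_neg]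
    exact div_ne_zero hw3 (by rwa [Ne, Complex.normSq_eq_zero])
  have hωn : 0 < ‖ω‖ := norm_pos_iff.2 hω0
  have hωw : ω * (v * w) = -(1 / a j) := by
    rw [hω, hU]
    field_simp
  obtain ⟨M, hM, hasy⟩ := h₁ k c z a L hdat.prb hdat.ftc j ω (‖ω‖ / 100) hωim (by positivity)
  set x : ℝ := max M (10 / ρ) with hx
  have hxM : M ≤ x := le_max_left _ _
  have hx10 : 10 / ρ ≤ x := le_max_right _ _
  have hx0 : 0 < x := lt_of_lt_of_le hM hxM
  set h : ℝ := 1 / x with hh
  have hh0 : 0 < h := by positivity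
  have hhρ : h ≤ ρ / 10 := by
    rw [hh, div_le_div_iff₀ hx0 (by norm_num)]
    rw [div_le_iff₀ hρ] at hx10
    linarith
  set τ : ℂ := x * ω with hτ
  have hxC : (x : ℂ) ≠ 0 := by exact_mod_cast hx0.ne'
  have hτ0 : τ ≠ 0 := mul_ne_zero hxC hω0
  have hτim : τ.im ≠ 0 := by
    rw [hτ, Complex.im_ofReal_mul]
    exact mul_ne_zero hx0.ne' hωim
  have hτn : ‖τ‖ = x * ‖ω‖ := by
    rw [hτ, norm_mul, Complex.norm_real, Real.norm_of_nonneg hx0.le]
  -- the position of the points
  have hpos : ∀ s ∈ Icc (0 : ℝ) 1, ‖L j (τ - s) - z j - h * (v * w)‖ ≤ h / 100 := by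
    intro s hs
    have h3 := hasy x hxM s hs
    have e1 : L j (τ - s) - z j - h * (v * w) = (τ * (L j (τ - s) - z j) + 1 / a j) / τ := by
      rw [eq_div_iff hτ0]
      have e2 : (h : ℂ) * x = 1 := by
        rw [hh]
        push_cast
        field_simp
      have e3 : (h : ℂ) * (v * w) * τ = -(1 / a j) := by
        rw [← hωw, hτ]
        calc (h : ℂ) * (v * w) * (x * ω) = ((h : ℂ) * x) * (ω * (v * w)) := by ring
          _ = ω * (v * w) := by rw [e2, one_mul]
      calc (L j (τ - s) - z j - h * (v * w)) * τ =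
          τ * (L j (τ - s) - z j) - (h : ℂ) * (v * w) * τ := by ring
        _ = τ * (L j (τ - s) - z j) + 1 / a j := by rw [e3]; ring
    rw [e1, norm_div, hτn, div_le_iff₀ (by positivity)]
    calc ‖τ * (L j (τ - s) - z j) + 1 / a j‖ ≤ ‖ω‖ / 100 := h3
      _ = h / 100 * (x * ‖ω‖) := by
        rw [hh]
        field_simp
  have hhp : ‖z j + h * (v * w) - p‖ ≤ ρ - 4 / 5 * h := by
    have e1 : z j + h * (v * w) - p = v * (h * w - ρ) := by
      have : z j = p - ρ * v := by rw [← hvρ]; ring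
      rw [this]
      ring
    rw [e1, norm_mul, hvn, one_mul]
    exact ACB_dist w h ρ hw1 hw2 hh0 hhρ
  have hin : ∀ s ∈ Icc (0 : ℝ) 1, ‖L j (τ - s) - p‖ ≤ ρ - 79 / 100 * h := by
    intro s hs
    have h3 := hpos s hs
    have e : L j (τ - s) - p = (L j (τ - s) - z j - h * (v * w)) + (z j + h * (v * w) - p) := by
      ring
    have h4 := norm_add_le (L j (τ - s) - z j - h * (v * w)) (z j + h * (v * w) - p)
    rw [← e] at h4
    linarith
  refine ⟨τ, ⟨hτim, ?_, ?_, ?_⟩⟩
  · intro s hs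
    rw [mem_ball_iff_norm]
    have := hin s hs
    linarith
  · intro y hy
    obtain ⟨α, β, hα, hβ, hαβ, hy⟩ := hy
    have hq0 := hin 0 ⟨le_refl _, zero_le_one⟩
    have hq1 := hpos 0 ⟨le_refl _, zero_le_one⟩
    rw [Complex.ofReal_zero, sub_zero] at hq0 hq1
    have hαC : (α : ℂ) + β = 1 := by exact_mod_cast hαβ
    have hyE : y = α * L j τ + β * p := by
      rw [← hy]
      simp
    have hyp : y - p = α * (L j τ - p) := by
      rw [hyE]
      linear_combination p * hαC
    have hyz : y - z j = α * (L j τ - z j) + β * (p - z j) := by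
      rw [hyE]
      linear_combination z j * hαC
    have hn1 : ‖y - p‖ ≤ α * (ρ - 79 / 100 * h) := by
      rw [hyp, norm_mul, Complex.norm_real, Real.norm_of_nonneg hα]
      exact mul_le_mul_of_nonneg_left hq0 hα
    have hn2 : ‖L j τ - z j‖ ≤ 101 / 100 * h := by
      have e : L j τ - z j = (L j τ - z j - h * (v * w)) + h * (v * w) := by ring
      have h4 := norm_add_le (L j τ - z j - h * (v * w)) (h * (v * w))
      rw [← e, norm_mul, norm_mul, hvn, hw1, Complex.norm_real, Real.norm_of_nonneg hh0.le,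
        one_mul, mul_one] at h4
      linarith
    have hn3 : ‖y - z j‖ ≤ α * (101 / 100 * h) + β * ρ := by
      rw [hyz]
      refine (norm_add_le _ _).trans ?_
      rw [norm_mul, norm_mul, Complex.norm_real, Complex.norm_real, Real.norm_of_nonneg hα,
        Real.norm_of_nonneg hβ, norm_sub_rev p (z j), hjp]
      have := mul_le_mul_of_nonneg_left hn2 hα
      linarith
    have hαρ : α * (ρ - 79 / 100 * h) ≤ ρ := by
      have : α ≤ 1 := by linarith
      nlinarith
    have hn4 := ACB_near hG hD hη2 hjp.le hfix (x := y) (hn1.trans hαρ)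
    rw [mem_ball_iff_norm]
    have e : G y - p = (G y - y) + (y - p) := by ring
    have h5 := norm_add_le (G y - y) (y - p)
    rw [← e] at h5
    have h6 : 0 ≤ α * h := mul_nonneg hα hh0.le
    have h7 : 0 ≤ β * ρ := mul_nonneg hβ hρ.le
    have h8 : 0 < α * h + β * ρ := by
      rcases hα.eq_or_lt with h9 | h9
      · have : β = 1 := by linarith
        rw [this, ← h9]
        linarith
      · have := mul_pos h9 hh0
        linarith
    have h10 : α * ρ + β * ρ = ρ := by
      rw [← add_mul, hαβ, one_mul]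
    nlinarith
  · have h1 := hin 1 ⟨zero_le_one, le_refl _⟩
    rw [Complex.ofReal_one] at h1
    have hOM : τ - 1 ∈ OM := Or.inl (by simpa using hτim)
    have h2 := hX.itn j 1 (τ - 1) hOM
    have h3 := (hG.lft (L j (τ - 1)) (hcl _ (by linarith))).2.1
    rw [mul_one, Nat.cast_one, sub_add_cancel] at h2
    rw [h2] at h3
    exact h3

end Pool.Agent.CUSP
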