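import Pool.Agent.CUSP.Targets3

/-!
# CUSP: BAL (a large tile)
-/

set_option autoImplicit false

open Complex Filter Topology Set MeasureTheory
open Pool.Agent.Limb (F)
open Pool.Agent.PLim (Rho)
open Pool.Agent.MEY (Pt)
open Pool.Agent.PSat (Comp Sat)
open Pool.Agent.AEN (vm Hp Exn)
open Pool.Agent.MEZ (T_NCZ T_SECZ)

namespace Pool.Agent.CUSP

namespace BAL_

lemma om_real {s : ℝ} (hs : 0 ≤ s) : (s : ℂ) ∈ OM := by
  right
  rw [ofReal_re]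
  linarith

/-- The intermediate value: a point of the arc at distance `e` from its end point. -/
lemma ivt {L : ℂ → ℂ} {ζ : ℂ} {e : ℝ} (hd : DifferentiableOn ℂ L OM)
    (h0 : e ≤ ‖ζ - L 0‖) (he : 0 < e) (hl : Tendsto (fun s : ℝ => L s) atTop (𝓝 ζ)) :
    ∃ t : ℝ, 0 ≤ t ∧ ‖L t - ζ‖ = e := by
  have hl' : Tendsto (fun s : ℝ => ‖L s - ζ‖) atTop (𝓝 0) := by
    have := (hl.sub_const ζ).norm
    simpa using this
  obtain ⟨s1, hs1, hs0⟩ :=
    ((hl'.eventually (gt_mem_nhds he)).and (eventually_ge_atTop (0 : ℝ))).exists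
  have hc : ContinuousOn (fun s : ℝ => ‖L s - ζ‖) (Icc 0 s1) := by
    refine ((hd.continuousOn.comp continuous_ofReal.continuousOn ?_).sub continuousOn_const).norm
    intro s hs
    exact om_real hs.1
  have hI := intermediate_value_Icc' hs0 hc
  have hmem : e ∈ Icc (‖L s1 - ζ‖) (‖L ((0 : ℝ) : ℂ) - ζ‖) := by
    refine ⟨hs1.le, ?_⟩
    rw [ofReal_zero, norm_sub_rev]
    exact h0
  obtain ⟨t, ht, hte⟩ := hI hmem
  exact ⟨t, ht.1, hte⟩

end BAL_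

open BAL_

theorem p_BAL (h₁ : T_GBR) (h₂ : T_LOW) (h₃ : T_SML) (h₄ : T_SHF) (h₅ : T_TLE) (h₆ : T_XPR) :
    T_BAL := by
  intro η κ hη hη16 hκ
  obtain ⟨C, hC, hG⟩ := h₁
  obtain ⟨C1, hC1, hT⟩ := h₅
  obtain ⟨d0, hd0, hLow⟩ := h₂ C η κ hη hη16 hκ
  obtain ⟨η1, hη1, hS⟩ := h₃ C 1 hC
  obtain ⟨η2, hη2, hF⟩ := h₄ C hC
  obtain ⟨e, he, he4, he1, he2⟩ : ∃ e : ℝ, 0 < e ∧ e ≤ η / 4 ∧ e ≤ η1 ∧ e ≤ η2 :=
    ⟨min (η / 4) (min η1 η2), lt_min (by linarith) (lt_min hη1 hη2), min_le_left _ _,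
      (min_le_right _ _).trans (min_le_left _ _), (min_le_right _ _).trans (min_le_right _ _)⟩
  have hC1p : 0 < C1 := by linarith
  refine ⟨d0 * e ^ 2 / C1 ^ 2, by positivity, ?_⟩
  intro k c z a L hD l hl hfix hκl
  have X := h₆ k c z a L hD
  obtain ⟨G, hGb⟩ := hG k c z a L hD l
  have hR := X.pos l
  set R : ℝ := Rl k z L l with hRdef
  have heR : 0 < e * R := mul_pos he hR
  obtain ⟨t, ht0, hte⟩ := ivt (hD.ftc.dif l) (e := e * R) (ζ := z l) (by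
    refine le_trans ?_ (X.tip l l hl)
    have : e * R ≤ 1 * R := mul_le_mul_of_nonneg_right (by linarith) hR.le
    simpa using this) heR (X.lim l)
  have ht1 : 1 ≤ t := by
    refine hS k c z a L l G hD hl hGb l t hl ht0 ?_
    rw [hte]
    exact mul_le_mul_of_nonneg_right he1 hR.le
  obtain ⟨u, rfl⟩ : ∃ u : ℝ, t = u + 1 := ⟨t - 1, by ring⟩
  have hu0 : 0 ≤ u := by linarith
  have hcast : ((u + 1 : ℝ) : ℂ) = (u : ℂ) + 1 := by push_cast; rfl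
  rw [hcast] at hte
  have hsh := (hF k c z a L l G hD hl hGb l u hl hu0 (by
    rw [hte]
    exact mul_le_mul_of_nonneg_right he2 hR.le)).2
  have hlow := hLow k c (z l) (a l) R G hGb hfix hκl (L l ((u : ℂ) + 1)) (by
    rw [hte]
    have : e * R ≤ (η / 4) * R := mul_le_mul_of_nonneg_right he4 hR.le
    nlinarith)
  rw [hsh, hte] at hlow
  obtain ⟨-, -, hT3, hT4, -, -, -⟩ := hT k c z a L hD l u hl hu0
  refine ⟨u + 1, by linarith, ?_, ?_⟩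
  · rw [hcast, hte]
    have : e * R ≤ (η / 4) * R := mul_le_mul_of_nonneg_right he4 hR.le
    nlinarith
  · rw [hcast]
    have h1 : ‖L l (u : ℂ) - L l ((u : ℂ) + 1)‖ ≤ C1 ^ 2 * ‖deriv (L l) ((u : ℂ) + 1)‖ := by
      rw [norm_sub_rev]
      refine hT3.trans ?_
      have := mul_le_mul_of_nonneg_left hT4 hC1p.le
      calc C1 * ‖deriv (L l) (u : ℂ)‖ ≤ C1 * (C1 * ‖deriv (L l) ((u : ℂ) + 1)‖) := this
        _ = C1 ^ 2 * ‖deriv (L l) ((u : ℂ) + 1)‖ := by ring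
    have h2 : d0 * (e * R) ^ 2 ≤ R * (C1 ^ 2 * ‖deriv (L l) ((u : ℂ) + 1)‖) :=
      hlow.trans (mul_le_mul_of_nonneg_left h1 hR.le)
    have h3 : d0 * e ^ 2 * R ≤ C1 ^ 2 * ‖deriv (L l) ((u : ℂ) + 1)‖ := by
      refine le_of_mul_le_mul_left ?_ hR
      calc R * (d0 * e ^ 2 * R) = d0 * (e * R) ^ 2 := by ring
        _ ≤ _ := h2
    have h4 : d0 * e ^ 2 / C1 ^ 2 * R = d0 * e ^ 2 * R / C1 ^ 2 := by ring
    rw [h4, div_le_iff₀ (by positivity), mul_comm (‖deriv (L l) ((u : ℂ) + 1)‖)]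
    exact h3

end Pool.Agent.CUSP
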