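import Pool.Agent.CUSP.Targets

/-!
# CUSP, target FAT: the attracting direction of a parabolic fixed point (helper21)
-/

set_option autoImplicit false

open Complex Filter Topology Set MeasureTheory

namespace Pool.Agent.CUSP

namespace FAT_

/-- Expansion of order three at a parabolic fixed point. -/
lemma expansion {φ : ℂ → ℂ} {α : ℂ} {r0 : ℝ} (hr0 : 0 < r0)
    (hd : DifferentiableOn ℂ φ (Metric.ball 0 r0)) (h0 : φ 0 = 0) (h1 : deriv φ 0 = 1)
    (h2 : deriv (deriv φ) 0 = 2 * α) :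
    ∃ (A B : ℂ → ℂ) (M : ℝ), 1 ≤ M ∧
      (∀ u ∈ Metric.ball (0 : ℂ) r0, φ u = u * (1 + u * A u) ∧ A u = α + u * B u) ∧
      ∀ u : ℂ, ‖u‖ ≤ r0 / 2 → ‖A u‖ ≤ M ∧ ‖B u‖ ≤ M := by
  have hball : Metric.ball (0 : ℂ) r0 ∈ 𝓝 (0 : ℂ) := Metric.ball_mem_nhds 0 hr0
  have hd1 : DifferentiableOn ℂ (dslope φ 0) (Metric.ball 0 r0) :=
    (Complex.differentiableOn_dslope hball).2 hd
  have hd2 : DifferentiableOn ℂ (dslope (dslope φ 0) 0) (Metric.ball 0 r0) :=
    (Complex.differentiableOn_dslope hball).2 hd1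
  have hd3 : DifferentiableOn ℂ (dslope (dslope (dslope φ 0) 0) 0) (Metric.ball 0 r0) :=
    (Complex.differentiableOn_dslope hball).2 hd2
  have e1 : ∀ u, φ u = u * dslope φ 0 u := by
    intro u
    have h := sub_smul_dslope φ 0 u
    rw [sub_zero, smul_eq_mul, h0, sub_zero] at h
    exact h.symm
  have v1 : dslope φ 0 0 = 1 := by rw [dslope_same, h1]
  have e2 : ∀ u, dslope φ 0 u = 1 + u * dslope (dslope φ 0) 0 u := by
    intro u
    have h := sub_smul_dslope (dslope φ 0) 0 u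
    rw [sub_zero, smul_eq_mul, v1] at h
    rw [h]
    ring
  have v2 : dslope (dslope φ 0) 0 0 = α := by
    rw [dslope_same]
    have hda : ∀ u ∈ Metric.ball (0 : ℂ) r0, DifferentiableAt ℂ (dslope φ 0) u :=
      fun u hu => hd1.differentiableAt (Metric.isOpen_ball.mem_nhds hu)
    have hev : deriv φ =ᶠ[𝓝 0] fun u => dslope φ 0 u + u * deriv (dslope φ 0) u := by
      filter_upwards [hball] with u hu
      have h4 : HasDerivAt (fun u => u * dslope φ 0 u)
          (1 * dslope φ 0 u + u * deriv (dslope φ 0) u) u :=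
        (hasDerivAt_id u).mul (hda u hu).hasDerivAt
      have h5 := h4.congr_of_eventuallyEq (Filter.Eventually.of_forall e1)
      rw [h5.deriv]
      ring
    have hdd : DifferentiableAt ℂ (deriv (dslope φ 0)) 0 :=
      ((hd1.deriv Metric.isOpen_ball).differentiableAt hball)
    have h5 : HasDerivAt (fun u => dslope φ 0 u + u * deriv (dslope φ 0) u)
        (deriv (dslope φ 0) 0 + (1 * deriv (dslope φ 0) 0 + 0 * deriv (deriv (dslope φ 0)) 0))
        0 :=
      (hda 0 (Metric.mem_ball_self hr0)).hasDerivAt.add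
        ((hasDerivAt_id (0 : ℂ)).mul hdd.hasDerivAt)
    rw [hev.deriv_eq, h5.deriv] at h2
    linear_combination h2 / 2
  have e3 : ∀ u, dslope (dslope φ 0) 0 u = α + u * dslope (dslope (dslope φ 0) 0) 0 u := by
    intro u
    have h := sub_smul_dslope (dslope (dslope φ 0) 0) 0 u
    rw [sub_zero, smul_eq_mul, v2] at h
    rw [h]
    ring
  have hcb : Metric.closedBall (0 : ℂ) (r0 / 2) ⊆ Metric.ball 0 r0 :=
    Metric.closedBall_subset_ball (by linarith)
  obtain ⟨M2, hM2⟩ := (isCompact_closedBall (0 : ℂ) (r0 / 2)).exists_bound_of_continuousOn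
    (hd2.continuousOn.mono hcb)
  obtain ⟨M3, hM3⟩ := (isCompact_closedBall (0 : ℂ) (r0 / 2)).exists_bound_of_continuousOn
    (hd3.continuousOn.mono hcb)
  refine ⟨dslope (dslope φ 0) 0, dslope (dslope (dslope φ 0) 0) 0, max (max M2 M3) 1,
    le_max_right _ _, ?_, ?_⟩
  · intro u _
    exact ⟨by rw [← e2, ← e1], e3 u⟩
  · intro u hu
    have hu' : u ∈ Metric.closedBall (0 : ℂ) (r0 / 2) := by
      rwa [Metric.mem_closedBall, dist_zero_right]
    exact ⟨(hM2 u hu').trans ((le_max_left _ _).trans (le_max_left _ _)),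
      (hM3 u hu').trans ((le_max_right _ _).trans (le_max_left _ _))⟩

/-- The asymptotics of the quotients. -/
lemma quot {q D : ℂ} {e : ℝ} (he : e ≤ 1 / 2) (hq : ‖q - 1‖ ≤ e) (hD : ‖D - 1‖ ≤ e) :
    q ≠ 0 ∧ ‖1 / q - 1‖ ≤ 2 * e ∧ ‖D / q ^ 2 - 1‖ ≤ 16 * e := by
  have h0 : 0 ≤ e := (norm_nonneg _).trans hq
  have h1 : 1 / 2 ≤ ‖q‖ := by
    have h2 := norm_sub_norm_le (1 : ℂ) (1 - q)
    rw [norm_one, sub_sub_cancel, norm_sub_rev] at h2
    linarith
  have hq0 : q ≠ 0 := by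
    intro h
    rw [h, norm_zero] at h1
    norm_num at h1
  refine ⟨hq0, ?_, ?_⟩
  · have h3 : 1 / q - 1 = -((q - 1) / q) := by
      field_simp
      ring
    rw [h3, norm_neg, norm_div, div_le_iff₀ (by linarith)]
    nlinarith
  · have h3 : D / q ^ 2 - 1 = ((D - 1) - (q - 1) * (q + 1)) / q ^ 2 := by
      field_simp
      ring
    have h4 : ‖q + 1‖ ≤ 5 / 2 := by
      have h5 : q + 1 = (q - 1) + 2 := by ring
      rw [h5]
      refine (norm_add_le _ _).trans ?_
      have h6 : ‖(2 : ℂ)‖ = 2 := by simp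
      rw [h6]
      linarith
    have h5 : ‖(D - 1) - (q - 1) * (q + 1)‖ ≤ 4 * e := by
      refine (norm_sub_le _ _).trans ?_
      rw [norm_mul]
      nlinarith [norm_nonneg (q - 1), norm_nonneg (q + 1)]
    rw [h3, norm_div, norm_pow, div_le_iff₀ (by positivity)]
    have h6 : 1 / 4 ≤ ‖q‖ ^ 2 := by nlinarith
    nlinarith

end FAT_

/-- The target `T_FAT`. -/
theorem p_FAT (h₁ : T_FW2) : T_FAT := by
  intro φ α r0 hr0 hα hd h0 h1 h2
  obtain ⟨A, B, M, hM, hAB, hbd⟩ := FAT_.expansion hr0 hd h0 h1 h2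
  have hα' : 0 < ‖α‖ := norm_pos_iff.2 hα
  set R0 : ℝ := (2 / r0 + 2 * M) / ‖α‖ with hR0
  have hR0p : 0 < R0 := by positivity
  -- the size of `u = -1 / (α w)`
  have hu : ∀ w : ℂ, R0 < w.re → w ≠ 0 ∧ ‖-1 / (α * w)‖ = 1 / (‖α‖ * ‖w‖) ∧
      ‖-1 / (α * w)‖ < r0 / 2 ∧ ‖-1 / (α * w)‖ * M ≤ 1 / 2 := by
    intro w hw
    have hwn : R0 < ‖w‖ := lt_of_lt_of_le hw (Complex.re_le_norm w)
    have hw0 : w ≠ 0 := by
      intro h
      rw [h, norm_zero] at hwn
      linarith
    have e1 : ‖-1 / (α * w)‖ = 1 / (‖α‖ * ‖w‖) := by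
      rw [norm_div, norm_neg, norm_one, norm_mul]
    have e2 : 2 / r0 + 2 * M < ‖α‖ * ‖w‖ := by
      rw [hR0, div_lt_iff₀ hα'] at hwn
      linarith
    have e3 : 0 < ‖α‖ * ‖w‖ := by
      have : 0 < 2 / r0 := by positivity
      linarith
    refine ⟨hw0, e1, ?_, ?_⟩
    · rw [e1, div_lt_iff₀ e3]
      have e4 : r0 / 2 * (2 / r0) = 1 := by field_simp
      have e5 : r0 / 2 * (2 / r0) < r0 / 2 * (‖α‖ * ‖w‖) :=
        mul_lt_mul_of_pos_left (by linarith) (by positivity)
      linarith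
    · rw [e1, div_mul_eq_mul_div, one_mul, div_le_iff₀ e3]
      have e4 : 0 < 2 / r0 := by positivity
      linarith
  have hub : ∀ w : ℂ, R0 < w.re → -1 / (α * w) ∈ Metric.ball (0 : ℂ) r0 := by
    intro w hw
    rw [Metric.mem_ball, dist_zero_right]
    linarith [(hu w hw).2.2.1]
  -- the factor `1 + u A u`
  have hfac : ∀ w : ℂ, R0 < w.re →
      1 / 2 ≤ ‖1 + -1 / (α * w) * A (-1 / (α * w))‖ := by
    intro w hw
    obtain ⟨-, -, e2, e3⟩ := hu w hw
    have e4 := (hbd _ e2.le).1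
    have e5 : ‖-1 / (α * w) * A (-1 / (α * w))‖ ≤ 1 / 2 := by
      rw [norm_mul]
      exact (mul_le_mul_of_nonneg_left e4 (norm_nonneg _)).trans e3
    have e6 := norm_sub_norm_le (1 : ℂ) (-(-1 / (α * w) * A (-1 / (α * w))))
    rw [norm_one, norm_neg, sub_neg_eq_add] at e6
    linarith
  have hφ0 : ∀ w : ℂ, R0 < w.re → φ (-1 / (α * w)) ≠ 0 := by
    intro w hw
    rw [(hAB _ (hub w hw)).1]
    refine mul_ne_zero ?_ ?_
    · exact div_ne_zero (by norm_num) (mul_ne_zero hα (hu w hw).1)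
    · intro h
      have h3 := hfac w hw
      rw [h, norm_zero] at h3
      norm_num at h3
  set H : ℂ → ℂ := fun w => -1 / (α * φ (-1 / (α * w))) with hH
  set C0 : ℝ := 2 * (M / ‖α‖ + M) / ‖α‖ with hC0
  have hC0p : 0 < C0 := by positivity
  have hopen : IsOpen {w : ℂ | R0 < w.re} := isOpen_lt continuous_const Complex.continuous_re
  have hHd : DifferentiableOn ℂ H {w : ℂ | R0 < w.re} := by
    intro w hw
    have hw : R0 < w.re := hw
    have e1 : DifferentiableAt ℂ (fun w : ℂ => -1 / (α * w)) w :=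
      (differentiableAt_const _).div (differentiableAt_id.const_mul α)
        (mul_ne_zero hα (hu w hw).1)
    have e2 : DifferentiableAt ℂ (fun w : ℂ => φ (-1 / (α * w))) w :=
      DifferentiableAt.comp w
        (hd.differentiableAt (Metric.isOpen_ball.mem_nhds (hub w hw))) e1
    exact ((differentiableAt_const (-1 : ℂ)).div (e2.const_mul α)
      (mul_ne_zero hα (hφ0 w hw))).differentiableWithinAt
  have hHb : ∀ w : ℂ, R0 < w.re → ‖H w - w - 1‖ ≤ C0 / ‖w‖ := by
    intro w hw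
    obtain ⟨hw0, e1, e2, e3⟩ := hu w hw
    obtain ⟨f1, f2⟩ := hAB _ (hub w hw)
    obtain ⟨g1, g2⟩ := hbd _ e2.le
    have hf := hfac w hw
    set u : ℂ := -1 / (α * w) with hudef
    have hu0 : u ≠ 0 := div_ne_zero (by norm_num) (mul_ne_zero hα hw0)
    have hq : 1 + u * A u ≠ 0 := by
      intro h
      rw [h, norm_zero] at hf
      norm_num at hf
    have hwu : α * (w * u) = -1 := by
      rw [hudef]
      field_simp
    have k1 : H w - w - 1 = u * (B u / α - A u) / (1 + u * A u) := by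
      have k2 : H w = w / (1 + u * A u) := by
        have k3 : H w = -1 / (α * φ u) := rfl
        rw [k3, f1, div_eq_div_iff (mul_ne_zero hα (mul_ne_zero hu0 hq)) hq]
        linear_combination (-(1 + u * A u)) * hwu
      rw [k2, eq_div_iff hq]
      have k4 : w / (1 + u * A u) * (1 + u * A u) = w := div_mul_cancel₀ w hq
      have k5 : B u / α * α = B u := div_mul_cancel₀ _ hα
      have k6 : w * u = -(1 / α) := by
        have : (1 : ℂ) / α * α = 1 := div_mul_cancel₀ _ hα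
        have h3 : (w * u + 1 / α) * α = 0 := by linear_combination hwu + this
        rcases mul_eq_zero.1 h3 with h4 | h4
        · linear_combination h4
        · exact absurd h4 hα
      have k7 : (1 : ℂ) / α * α = 1 := div_mul_cancel₀ _ hα
      have k8 : (1 : ℂ) / α * B u = B u / α := by ring
      calc (w / (1 + u * A u) - w - 1) * (1 + u * A u)
          = w / (1 + u * A u) * (1 + u * A u) - w - w * u * A u - (1 + u * A u) := by ring
        _ = 1 / α * (α + u * B u) - 1 - u * A u := by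
            rw [k4, k6]
            nth_rewrite 1 [f2]
            ring
        _ = u * (B u / α - A u) := by
            rw [← k8]
            linear_combination k7
    rw [k1, norm_div, norm_mul, e1]
    have k9 : ‖B u / α - A u‖ ≤ M / ‖α‖ + M := by
      refine (norm_sub_le _ _).trans (add_le_add ?_ g1)
      rw [norm_div]
      exact div_le_div_of_nonneg_right g2 hα'.le
    have hwp : 0 < ‖w‖ := norm_pos_iff.2 hw0
    rw [div_le_iff₀ (by linarith)]
    have k10 : 1 / (‖α‖ * ‖w‖) * ‖B u / α - A u‖ ≤ 1 / (‖α‖ * ‖w‖) * (M / ‖α‖ + M) :=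
      mul_le_mul_of_nonneg_left k9 (by positivity)
    have k11 : 1 / (‖α‖ * ‖w‖) * (M / ‖α‖ + M) = C0 / ‖w‖ * (1 / 2) := by
      rw [hC0]
      field_simp
    have k12 : C0 / ‖w‖ * (1 / 2) ≤ C0 / ‖w‖ * ‖1 + u * A u‖ :=
      mul_le_mul_of_nonneg_left hf (by positivity)
    linarith
  obtain ⟨T, Ψ, hT, hΨd, hΨi, hΨe, hΨa⟩ := h₁ H R0 C0 hR0p hC0p hHd hHb
  have hΨ0 : ∀ t ∈ Sx T, Ψ t ≠ 0 := fun t ht => (hu _ (hΨe t ht).1).1
  have hoS : IsOpen (Sx T) := by
    unfold Sx
    exact isOpen_lt (by fun_prop) (by fun_prop)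
  have hder : ∀ t ∈ Sx T, HasDerivAt (fun t => -1 / (α * Ψ t))
      (deriv Ψ t / (α * Ψ t ^ 2)) t := by
    intro t ht
    have e1 : HasDerivAt Ψ (deriv Ψ t) t :=
      (hΨd.differentiableAt (hoS.mem_nhds ht)).hasDerivAt
    have e2 := (hasDerivAt_const t (-1 : ℂ)).div (e1.const_mul α)
      (mul_ne_zero hα (hΨ0 t ht))
    refine e2.congr_deriv ?_
    have := hΨ0 t ht
    field_simp
    ring
  refine ⟨T, fun t => -1 / (α * Ψ t), hT, ?_, ?_, ?_, ?_⟩
  · exact fun t ht => (hder t ht).differentiableAt.differentiableWithinAt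
  · intro t ht s hs h
    refine hΨi ht hs ?_
    have e1 := mul_ne_zero hα (hΨ0 t ht)
    have e2 := mul_ne_zero hα (hΨ0 s hs)
    have h : -1 / (α * Ψ t) = -1 / (α * Ψ s) := h
    rw [div_eq_div_iff e1 e2] at h
    exact mul_left_cancel₀ hα (by linear_combination h)
  · intro t ht
    obtain ⟨e1, e2⟩ := hΨe t ht
    refine ⟨hub _ e1, ?_⟩
    show φ (-1 / (α * Ψ t)) = -1 / (α * Ψ (t + 1))
    rw [← e2]
    show φ (-1 / (α * Ψ t)) = -1 / (α * (-1 / (α * φ (-1 / (α * Ψ t)))))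
    have e3 := hφ0 _ e1
    field_simp
  · intro ε hε
    obtain ⟨T', hT'⟩ := hΨa (min (1 / 2) (ε * ‖α‖ / 16)) (by positivity)
    refine ⟨max T' 1, fun t ht htT => ?_⟩
    obtain ⟨e1, e2⟩ := hT' t ht ((le_max_left _ _).trans htT)
    have hre : 1 ≤ t.re := (le_max_right _ _).trans htT
    have ht0 : t ≠ 0 := by
      intro h
      rw [h, Complex.zero_re] at hre
      linarith
    obtain ⟨q0, q1, q2⟩ := FAT_.quot (min_le_left _ _) e1 e2
    have hm : min (1 / 2) (ε * ‖α‖ / 16) ≤ ε * ‖α‖ / 16 := min_le_right _ _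
    have hΨt := hΨ0 t ht
    constructor
    · have k1 : t * (-1 / (α * Ψ t)) + 1 / α = -((1 / (Ψ t / t) - 1) / α) := by
        field_simp
        ring
      show ‖t * (-1 / (α * Ψ t)) + 1 / α‖ ≤ ε
      rw [k1, norm_neg, norm_div, div_le_iff₀ hα']
      nlinarith [mul_pos hε hα']
    · rw [(hder t ht).deriv]
      have k1 : t ^ 2 * (deriv Ψ t / (α * Ψ t ^ 2)) - 1 / α =
          (deriv Ψ t / (Ψ t / t) ^ 2 - 1) / α := by
        field_simp
      rw [k1, norm_div, div_le_iff₀ hα']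
      nlinarith [mul_pos hε hα']

end Pool.Agent.CUSP
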