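import Pool.Agent.CUSP.Targets5
import Pool.Agent.CUSP.P_GBR

/-!
# CUSP, target IDL: the third derivative in terms of the inverse branch
-/

set_option autoImplicit false

open Complex Filter Topology Set MeasureTheory
open Pool.Agent.Limb (F)
open Pool.Agent.PLim (Rho)
open Pool.Agent.MEY (Pt)
open Pool.Agent.PSat (Comp Sat)
open Pool.Agent.AEN (vm Hp Exn Uv)

namespace Pool.Agent.CUSP

/-- Third derivative of the inverse branch. -/
theorem IDL_.third (f G : ℂ → ℂ) (ζ α : ℂ) (R : ℝ) (hR : 0 < R) (hf : Differentiable ℂ f)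
    (hG : DifferentiableOn ℂ G (Metric.ball ζ R)) (hz : G ζ = ζ)
    (hi : ∀ x ∈ Metric.ball ζ R, f (G x) = x) (h1 : deriv f ζ = 1)
    (h2 : deriv (deriv f) ζ = 2 * α) :
    deriv (deriv (deriv f)) ζ = 12 * α ^ 2 - deriv (deriv (deriv G)) ζ := by
  obtain ⟨hG1, hG2⟩ := GBR_.second f G ζ α R hR hf hG hz hi h1 h2
  have hζ : ζ ∈ Metric.ball ζ R := Metric.mem_ball_self hR
  have hd1 : Differentiable ℂ (deriv f) := by
    have := (hf.differentiableOn (s := univ)).deriv isOpen_univ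
    exact fun x => (this x (mem_univ x)).differentiableAt univ_mem
  have hd2 : Differentiable ℂ (deriv (deriv f)) := by
    have := (hd1.differentiableOn (s := univ)).deriv isOpen_univ
    exact fun x => (this x (mem_univ x)).differentiableAt univ_mem
  have hdG : DifferentiableOn ℂ (deriv G) (Metric.ball ζ R) := hG.deriv Metric.isOpen_ball
  have hdG2 : DifferentiableOn ℂ (deriv (deriv G)) (Metric.ball ζ R) :=
    hdG.deriv Metric.isOpen_ball
  have hat : ∀ x ∈ Metric.ball ζ R, HasDerivAt G (deriv G x) x := fun x hx =>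
    (hG.differentiableAt (Metric.isOpen_ball.mem_nhds hx)).hasDerivAt
  have hat1 : ∀ x ∈ Metric.ball ζ R, HasDerivAt (deriv G) (deriv (deriv G) x) x := fun x hx =>
    (hdG.differentiableAt (Metric.isOpen_ball.mem_nhds hx)).hasDerivAt
  have hat2 : HasDerivAt (deriv (deriv G)) (deriv (deriv (deriv G)) ζ) ζ :=
    (hdG2.differentiableAt (Metric.isOpen_ball.mem_nhds hζ)).hasDerivAt
  have hA : ∀ x ∈ Metric.ball ζ R,
      HasDerivAt (fun y => deriv f (G y)) (deriv (deriv f) (G x) * deriv G x) x :=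
    fun x hx => ((hd1 (G x)).hasDerivAt).comp x (hat x hx)
  have hc : ∀ x ∈ Metric.ball ζ R, deriv f (G x) * deriv G x = 1 := by
    intro x hx
    have hcomp := ((hf (G x)).hasDerivAt).comp x (hat x hx)
    have hid : HasDerivAt (f ∘ G) 1 x := by
      refine (hasDerivAt_id x).congr_of_eventuallyEq ?_
      filter_upwards [Metric.isOpen_ball.mem_nhds hx] with y hy
      exact hi y hy
    exact hcomp.unique hid
  have hc2 : ∀ x ∈ Metric.ball ζ R, deriv (deriv f) (G x) * deriv G x * deriv G x +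
      deriv f (G x) * deriv (deriv G) x = 0 := by
    intro x hx
    have hprod := (hA x hx).mul (hat1 x hx)
    have hconst : HasDerivAt (fun x => deriv f (G x) * deriv G x) 0 x := by
      refine (hasDerivAt_const x (1 : ℂ)).congr_of_eventuallyEq ?_
      filter_upwards [Metric.isOpen_ball.mem_nhds hx] with y hy
      exact hc y hy
    exact hprod.unique hconst
  have hB : HasDerivAt (fun y => deriv (deriv f) (G y))
      (deriv (deriv (deriv f)) (G ζ) * deriv G ζ) ζ :=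
    ((hd2 (G ζ)).hasDerivAt).comp ζ (hat ζ hζ)
  have hprod : HasDerivAt (fun x => deriv (deriv f) (G x) * deriv G x * deriv G x +
      deriv f (G x) * deriv (deriv G) x)
      ((deriv (deriv (deriv f)) (G ζ) * deriv G ζ * deriv G ζ +
        deriv (deriv f) (G ζ) * deriv (deriv G) ζ) * deriv G ζ +
        deriv (deriv f) (G ζ) * deriv G ζ * deriv (deriv G) ζ +
        (deriv (deriv f) (G ζ) * deriv G ζ * deriv (deriv G) ζ +
        deriv f (G ζ) * deriv (deriv (deriv G)) ζ)) ζ :=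
    ((hB.mul (hat1 ζ hζ)).mul (hat1 ζ hζ)).add ((hA ζ hζ).mul hat2)
  have hconst : HasDerivAt (fun x => deriv (deriv f) (G x) * deriv G x * deriv G x +
      deriv f (G x) * deriv (deriv G) x) 0 ζ := by
    refine (hasDerivAt_const ζ (0 : ℂ)).congr_of_eventuallyEq ?_
    filter_upwards [Metric.isOpen_ball.mem_nhds hζ] with y hy
    exact hc2 y hy
  have hu := hprod.unique hconst
  rw [hz, h2, hG1, h1, hG2] at hu
  linear_combination hu

/-- Cauchy's estimate for the third derivative. -/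
theorem IDL_.cauchy (G : ℂ → ℂ) (ζ : ℂ) (R M : ℝ) (hR : 0 < R)
    (hG : DifferentiableOn ℂ G (Metric.ball ζ R))
    (hM : ∀ x ∈ Metric.sphere ζ (R / 2), ‖G x - x‖ ≤ M) :
    ‖deriv (deriv (deriv G)) ζ‖ ≤ 6 * M / (R / 2) ^ 3 := by
  have hζ : Metric.ball ζ R ∈ 𝓝 ζ := Metric.ball_mem_nhds ζ hR
  have h1 : deriv (fun x => G x - x) =ᶠ[𝓝 ζ] fun x => deriv G x - 1 := by
    filter_upwards [hζ] with x hx
    exact (((hG.differentiableAt (Metric.isOpen_ball.mem_nhds hx)).hasDerivAt).sub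
      (hasDerivAt_id x)).deriv
  have h2 : deriv (deriv (fun x => G x - x)) =ᶠ[𝓝 ζ] deriv (deriv G) := by
    refine h1.deriv.trans ?_
    filter_upwards with x
    rw [deriv_sub_const]
  have h3 : deriv (deriv (deriv (fun x => G x - x))) ζ = deriv (deriv (deriv G)) ζ :=
    h2.deriv_eq
  have hd : DifferentiableOn ℂ (fun x => G x - x) (Metric.ball ζ R) :=
    hG.sub differentiableOn_id
  have h4 : DiffContOnCl ℂ (fun x => G x - x) (Metric.ball ζ (R / 2)) := by
    apply DifferentiableOn.diffContOnCl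
    rw [closure_ball ζ (by positivity)]
    exact hd.mono (Metric.closedBall_subset_ball (by linarith))
  have h5 := Complex.norm_iteratedDeriv_le_of_forall_mem_sphere_norm_le 3
    (by positivity : 0 < R / 2) h4 hM
  have h6 : iteratedDeriv 3 (fun x => G x - x) ζ =
      deriv (deriv (deriv (fun x => G x - x))) ζ := by
    rw [iteratedDeriv_succ, iteratedDeriv_succ, iteratedDeriv_succ, iteratedDeriv_zero]
  rw [h6, h3] at h5
  have h7 : ((Nat.factorial 3 : ℕ) : ℝ) = 6 := by norm_num [Nat.factorial]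
  rwa [h7] at h5

theorem p_IDL : T_IDL := by
  intro C κ hκ
  refine ⟨12 + 12 * |C| / κ ^ 2, by positivity, ?_⟩
  intro k c ζ α R G hG hfix h1 h2 h3
  have hR := hG.hR
  have h4 := IDL_.third ((F 2 c)^[k]) G ζ α R hR (GBR_.F_diff c k) hG.dif hG.fix hG.inv h1 h2
  have h5 := IDL_.cauchy G ζ R (C * (R / 2) ^ 2 / R) hR hG.dif (fun x hx => by
    have h6 : ‖x - ζ‖ = R / 2 := mem_sphere_iff_norm.1 hx
    have h7 := hG.bd x h6.le
    rwa [h6] at h7)
  have h6 : 6 * (C * (R / 2) ^ 2 / R) / (R / 2) ^ 3 = 12 * C / R ^ 2 := by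
    field_simp
    ring
  rw [h6] at h5
  have hC := hG.hC
  have hα : 0 < ‖α‖ := by
    by_contra h7
    have h8 : ‖α‖ = 0 := le_antisymm (le_of_not_gt h7) (norm_nonneg _)
    rw [h8, zero_mul] at h3
    linarith
  have h7 : 12 * C / R ^ 2 ≤ 12 * |C| / κ ^ 2 * ‖α‖ ^ 2 := by
    have h8 : κ ^ 2 ≤ ‖α‖ ^ 2 * R ^ 2 := by
      rw [← mul_pow]
      exact pow_le_pow_left₀ hκ.le h3 2
    rw [div_mul_eq_mul_div, div_le_div_iff₀ (by positivity) (by positivity),
      abs_of_nonneg (by linarith)]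
    have h9 : 0 ≤ 12 * C := by linarith
    calc 12 * C * κ ^ 2 ≤ 12 * C * (‖α‖ ^ 2 * R ^ 2) := by gcongr
      _ = 12 * C * ‖α‖ ^ 2 * R ^ 2 := by ring
  show ‖deriv (deriv (deriv ((F 2 c)^[k]))) ζ‖ ≤ (12 + 12 * |C| / κ ^ 2) * ‖α‖ ^ 2
  rw [h4]
  calc ‖12 * α ^ 2 - deriv (deriv (deriv G)) ζ‖ ≤ ‖12 * α ^ 2‖ + ‖deriv (deriv (deriv G)) ζ‖ :=
        norm_sub_le _ _
    _ ≤ 12 * ‖α‖ ^ 2 + 12 * |C| / κ ^ 2 * ‖α‖ ^ 2 := by
        have h10 : ‖12 * α ^ 2‖ = 12 * ‖α‖ ^ 2 := by simp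
        linarith
    _ = (12 + 12 * |C| / κ ^ 2) * ‖α‖ ^ 2 := by ring

end Pool.Agent.CUSP
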