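import Pool.Agent.CUSP.Targets2

/-!
# CUSP: LMB (Lemma B)
-/

set_option autoImplicit false

open Complex Filter Topology Set MeasureTheory
open Pool.Agent.Limb (F)
open Pool.Agent.PLim (Rho)
open Pool.Agent.MEY (Pt)
open Pool.Agent.PSat (Comp Sat)
open Pool.Agent.AEN (vm Hp Exn)

namespace Pool.Agent.CUSP

namespace LMB_

/-- The parabolic points are separated. -/
theorem sep {η : ℝ} {k : ℕ} {c : ℂ} {z : ℕ → ℂ} {L : ℕ → ℂ → ℂ}
    (hη : ∀ (l : ℕ) (x : ℂ), l < k → ‖x - z l‖ ≤ η * Rl k z L l →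
      (x ∈ XX k z L → x ∈ Gm z L l) ∧ ((F 2 c)^[k] x = x → x = z l))
    (hx : Xpr k c z L) {l m : ℕ} (hl : l < k) (hm : m < k) (hlm : l ≠ m) :
    η * Rl k z L l ≤ ‖z l - z m‖ := by
  by_contra hcon
  push Not at hcon
  rw [norm_sub_rev] at hcon
  have h1 : z m ∈ Gm z L m := Set.mem_insert _ _
  have h2 : z m ∈ Gm z L l := (hη l (z m) hl hcon.le).1 ⟨m, hm, h1⟩
  exact Set.disjoint_left.mp (hx.dsj l hl m hm hlm) h2 h1

end LMB_

theorem p_LMB (h₁ : T_LMA) (h₂ : T_TPS) (h₃ : T_CTN) (h₄ : T_XPR) : T_LMB := by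
  obtain ⟨η, hη0, hη1, hη⟩ := h₁
  obtain ⟨K0, hK0, hctn⟩ := h₃ η hη0 (by linarith)
  obtain ⟨ε, hε, htps⟩ := h₂ K0 hK0
  refine ⟨ε, hε, ?_⟩
  intro k c z a L hD
  by_contra hcon
  push Not at hcon
  have hx : Xpr k c z L := h₄ k c z a L hD
  refine hctn k (fun l => z l) (fun l => L l 0) (fun l => Rl k z L l) hD.prb.hk
    (fun l => hx.pos l) ?_ ?_
  · intro l m hlm
    exact LMB_.sep (fun l x => hη k c z a L hD l x) hx l.2 m.2
      (fun h => hlm (Fin.ext h))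
  · intro l
    obtain ⟨f, hf1, hf2⟩ := htps k c z a L l hD l.2 (hcon l l.2).le
    exact ⟨fun i => ⟨f i, (hf1 i).1⟩, fun i => (hf1 i).2, fun i i' hii => hf2 i i' hii⟩

end Pool.Agent.CUSP

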