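import Pool.Agent.CUSP.Targets2

/-!
# CUSP: proof of W1
-/

set_option autoImplicit false

open Complex Filter Topology Set MeasureTheory
open Pool.Agent.Limb (F)
open Pool.Agent.PLim (Rho)
open Pool.Agent.MEY (Pt)
open Pool.Agent.PSat (Comp Sat)
open Pool.Agent.AEN (vm Hp Exn)

namespace Pool.Agent.CUSP

namespace W1_

theorem dF (c : ℂ) : Differentiable ℂ (F 2 c) := by
  intro z
  unfold F
  fun_prop

theorem dFk (c : ℂ) (k : ℕ) : Differentiable ℂ ((F 2 c)^[k]) := (dF c).iterate k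

/-- maximum principle -/
theorem maxp (c τ : ℂ) (k : ℕ) (r B : ℝ) (hr : 0 < r)
    (h : ∀ x : ℂ, ‖x - τ‖ = r → ‖(F 2 c)^[k] x - x‖ ≤ B) (x : ℂ) (hx : ‖x - τ‖ ≤ r) :
    ‖(F 2 c)^[k] x - x‖ ≤ B := by
  have hd : Differentiable ℂ (fun x : ℂ => (F 2 c)^[k] x - x) :=
    (dFk c k).sub differentiable_id
  refine Complex.norm_le_of_forall_mem_frontier_norm_le (f := fun x : ℂ => (F 2 c)^[k] x - x)
    (U := Metric.ball τ r) Metric.isBounded_ball hd.diffContOnCl ?_ ?_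
  · intro z hz
    rw [frontier_ball τ hr.ne', mem_sphere_iff_norm] at hz
    exact h z hz
  · rw [closure_ball τ hr.ne', mem_closedBall_iff_norm]
    exact hx

/-- Cauchy estimate -/
theorem cau (c τ : ℂ) (k : ℕ) (r e : ℝ) (hr : 0 < r)
    (h : ∀ x : ℂ, ‖x - τ‖ ≤ r → ‖(F 2 c)^[k] x - x‖ ≤ e * r) (x : ℂ)
    (hx : ‖x - τ‖ ≤ r / 2) : ‖deriv ((F 2 c)^[k]) x - 1‖ ≤ 2 * e := by
  have hd : Differentiable ℂ (fun x : ℂ => (F 2 c)^[k] x - x) :=
    (dFk c k).sub differentiable_id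
  have h1 := Complex.norm_deriv_le_of_forall_mem_sphere_norm_le
    (f := fun x : ℂ => (F 2 c)^[k] x - x) (c := x) (R := r / 2) (C := e * r) (by linarith)
    hd.diffContOnCl (by
      intro z hz
      rw [mem_sphere_iff_norm] at hz
      apply h
      calc ‖z - τ‖ = ‖(z - x) + (x - τ)‖ := by congr 1; ring
        _ ≤ ‖z - x‖ + ‖x - τ‖ := norm_add_le _ _
        _ ≤ r := by linarith)
  have h2 : deriv (fun x : ℂ => (F 2 c)^[k] x - x) x = deriv ((F 2 c)^[k]) x - 1 :=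
    (((dFk c k) x).hasDerivAt.sub (hasDerivAt_id x)).deriv
  rw [h2] at h1
  have h3 : e * r / (r / 2) = 2 * e := by field_simp
  rwa [h3] at h1

theorem memOM {s : ℝ} (hs : -1 < s) : (s : ℂ) ∈ OM := Or.inr (by simpa using hs)

theorem isOpen_OM : IsOpen OM :=
  (isOpen_ne_fun continuous_im continuous_const).union
    (isOpen_lt continuous_const continuous_re)

/-- the arc is small -/
theorem arc {k : ℕ} {c : ℂ} {z : ℕ → ℂ} {L : ℕ → ℂ → ℂ} (hX : Xpr k c z L)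
    {C : ℝ} (hC : 1 ≤ C) {j : ℕ} {b : ℝ}
    (h : ∀ (t : ℝ), 0 ≤ t →
      0 < ‖deriv (L j) t‖ ∧ ‖deriv (L j) t‖ ≤ C * ‖L j (t + 1) - L j t‖ ∧
      ‖L j (t + 1) - L j t‖ ≤ C * ‖deriv (L j) t‖ ∧
      ‖deriv (L j) t‖ ≤ C * ‖deriv (L j) (t + 1)‖ ∧ ‖deriv (L j) (t + 1)‖ ≤ C * ‖deriv (L j) t‖ ∧
      Metric.ball (L j t) ((t + 1) * ‖deriv (L j) t‖ / C) ⊆ L j '' Metric.ball t ((t + 1) / 2) ∧
      ∀ s : ℂ, ‖s - t‖ ≤ (t + 1) / 2 → ‖deriv (L j) s‖ ≤ C * ‖deriv (L j) t‖ ∧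
        ‖deriv (L j) t‖ * ‖s - t‖ ≤ C * ‖L j s - L j t‖ ∧
        ‖L j s - L j t‖ ≤ C * ‖deriv (L j) t‖ * ‖s - t‖)
    (hb : ‖(F 2 c)^[k] (L j 0) - L j 0‖ ≤ b) (s : ℝ) (h0 : 0 ≤ s) (h1 : s ≤ 1) :
    ‖L j s - L j 0‖ ≤ (4 * C ^ 3 + 2) * b := by
  have hb0 : 0 ≤ b := (norm_nonneg _).trans hb
  have hk : (F 2 c)^[k] (L j 0) = L j 1 := by
    have := hX.itn j 1 0 (by simpa using memOM (s := 0) (by norm_num))
    simpa using this
  rw [hk] at hb
  obtain ⟨_, a2, _, _, a5, _, a7⟩ := h 0 le_rfl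
  simp only [ofReal_zero, zero_add, sub_zero] at a2 a5 a7
  have d0 : ‖deriv (L j) 0‖ ≤ C * b := a2.trans (by gcongr)
  have d1 : ‖deriv (L j) 1‖ ≤ C * (C * b) := a5.trans (by gcongr)
  have hC2 : C ^ 2 ≤ C ^ 3 := pow_le_pow_right₀ hC (by norm_num)
  have hC3 : (0 : ℝ) ≤ C ^ 3 := by positivity
  rcases le_total s (1 / 2) with hs | hs
  · have e1 := (a7 s (by rw [norm_real, Real.norm_of_nonneg h0]; linarith)).2.2
    rw [norm_real, Real.norm_of_nonneg h0] at e1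
    calc ‖L j s - L j 0‖ ≤ C * ‖deriv (L j) 0‖ * s := e1
      _ ≤ C * (C * b) * 1 := by gcongr
      _ = C ^ 2 * b := by ring
      _ ≤ (4 * C ^ 3 + 2) * b := by
        apply mul_le_mul_of_nonneg_right _ hb0
        linarith
  · obtain ⟨_, _, _, _, _, _, b7⟩ := h 1 zero_le_one
    simp only [ofReal_one] at b7
    have hn : ‖(s : ℂ) - 1‖ = 1 - s := by
      rw [← ofReal_one, ← ofReal_sub, norm_real, Real.norm_eq_abs, abs_sub_comm,
        abs_of_nonneg (by linarith)]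
    have e1 := (b7 s (by rw [hn]; linarith)).2.2
    rw [hn] at e1
    have e2 : ‖L j s - L j 1‖ ≤ C ^ 3 * b := by
      calc ‖L j s - L j 1‖ ≤ C * ‖deriv (L j) 1‖ * (1 - s) := e1
        _ ≤ C * (C * (C * b)) * 1 := by
          gcongr
          linarith
        _ = C ^ 3 * b := by ring
    calc ‖L j s - L j 0‖ = ‖(L j s - L j 1) + (L j 1 - L j 0)‖ := by congr 1; ring
      _ ≤ ‖L j s - L j 1‖ + ‖L j 1 - L j 0‖ := norm_add_le _ _
      _ ≤ C ^ 3 * b + b := add_le_add e2 hb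
      _ = (C ^ 3 + 1) * b := by ring
      _ ≤ (4 * C ^ 3 + 2) * b := by
        apply mul_le_mul_of_nonneg_right _ hb0
        linarith

/-- product bound -/
theorem prodb (k i0 : ℕ) (hi : i0 < k) (f : ℕ → ℂ) (hf : ∀ i, ‖f i‖ ≤ 4) :
    ‖∏ i ∈ Finset.range k, f i‖ ≤ ‖f i0‖ * 4 ^ k := by
  rw [norm_prod, ← Finset.mul_prod_erase (Finset.range k) (fun i => ‖f i‖)
    (Finset.mem_range.2 hi)]
  apply mul_le_mul_of_nonneg_left _ (norm_nonneg _)
  calc ∏ i ∈ (Finset.range k).erase i0, ‖f i‖ ≤ ∏ i ∈ (Finset.range k).erase i0, (4 : ℝ) :=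
        Finset.prod_le_prod (fun i _ => norm_nonneg _) (fun i _ => hf i)
    _ = 4 ^ ((Finset.range k).erase i0).card := Finset.prod_const _
    _ ≤ 4 ^ k := by
      apply pow_le_pow_right₀ (by norm_num)
      calc ((Finset.range k).erase i0).card ≤ (Finset.range k).card :=
            Finset.card_le_card (Finset.erase_subset _ _)
        _ = k := Finset.card_range k

end W1_

open W1_ in
theorem p_W1 (h₁ : T_TLE) (h₂ : T_XPR) (h₃ : T_CRV) : T_W1 := by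
  obtain ⟨C, hC, hT⟩ := h₁
  have hC30 : (0 : ℝ) < 4 * C ^ 3 + 2 := by positivity
  refine ⟨1 / (100 * (4 * C ^ 3 + 2)), by positivity, ?_⟩
  intro k c z a L hD j r hj hr hcir
  have hX := h₂ k c z a L hD
  set e : ℝ := 1 / (100 * (4 * C ^ 3 + 2)) with he
  have he0 : 0 < e := by positivity
  have heC : (4 * C ^ 3 + 2) * e = 1 / 100 := by
    rw [he]; field_simp
  have he1 : e ≤ 1 / 100 := by
    have : 1 * e ≤ (4 * C ^ 3 + 2) * e := by
      apply mul_le_mul_of_nonneg_right _ he0.le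
      have : (0 : ℝ) ≤ C ^ 3 := by positivity
      linarith
    linarith
  have m1 := maxp c (L j 0) k r (e * r) hr hcir
  have m2 := cau c (L j 0) k r e hr m1
  have m3 := fun s : ℝ => arc hX hC (j := j) (b := e * r) (fun t ht => hT k c z a L hD j t hj ht)
    (m1 (L j 0) (by simpa using hr.le)) s
  -- step 3
  have m4 : ∀ s : ℝ, -1 < s → s ≤ 0 → ‖L j s - L j 0‖ < r / 2 := by
    intro s hs1 hs0
    by_contra hcon
    rw [not_lt] at hcon
    have hcont : ContinuousOn (fun u : ℝ => ‖L j u - L j 0‖) (Icc s 0) := by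
      have hd := (hD.ftc.dif j).continuousOn
      have : ContinuousOn (fun u : ℝ => L j u) (Icc s 0) := by
        apply hd.comp continuous_ofReal.continuousOn
        intro u hu
        exact memOM (lt_of_lt_of_le hs1 hu.1)
      exact (this.sub continuousOn_const).norm
    have hiv := intermediate_value_Icc' hs0 hcont
    have hmem : r / 2 ∈ Icc (‖L j ((0 : ℝ) : ℂ) - L j 0‖) (‖L j (s : ℂ) - L j 0‖) := by
      refine ⟨?_, hcon⟩
      rw [ofReal_zero, sub_self, norm_zero]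
      linarith
    obtain ⟨u, hu, huv⟩ := hiv hmem
    have hu1 : -1 < u := lt_of_lt_of_le hs1 hu.1
    have huv' : ‖L j u - L j 0‖ = r / 2 := huv
    have hk : (F 2 c)^[k] (L j u) = L j ((u + 1 : ℝ) : ℂ) := by
      have := hX.itn j 1 u (memOM hu1)
      simpa using this
    have e1 := m1 (L j u) (by rw [huv']; linarith)
    rw [hk] at e1
    have e2 := m3 (u + 1) (by linarith) (by linarith [hu.2])
    have e3 : ‖L j u - L j 0‖ ≤ e * r + (4 * C ^ 3 + 2) * (e * r) := by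
      calc ‖L j u - L j 0‖
          = ‖(L j ((u + 1 : ℝ) : ℂ) - L j 0) - (L j ((u + 1 : ℝ) : ℂ) - L j u)‖ := by
            congr 1; ring
        _ ≤ ‖L j ((u + 1 : ℝ) : ℂ) - L j 0‖ + ‖L j ((u + 1 : ℝ) : ℂ) - L j u‖ :=
            norm_sub_le _ _
        _ ≤ e * r + (4 * C ^ 3 + 2) * (e * r) := by linarith
    have e4 : (4 * C ^ 3 + 2) * (e * r) = 1 / 100 * r := by
      rw [← mul_assoc, heC]
    have e5 : e * r ≤ 1 / 100 * r := mul_le_mul_of_nonneg_right he1 hr.le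
    rw [huv', e4] at e3
    linarith
  -- step 4
  have hb : ∀ s : ℝ, -1 < s → s ≤ 0 → 1 / 2 ≤ 2 * ‖L (k - 1) s‖ * 4 ^ k := by
    intro s hs1 hs0
    have d1 := m2 (L j s) (m4 s hs1 hs0).le
    have d2 : 1 / 2 ≤ ‖deriv ((F 2 c)^[k]) (L j s)‖ := by
      have : ‖(1 : ℂ)‖ ≤ ‖deriv ((F 2 c)^[k]) (L j s)‖ + ‖deriv ((F 2 c)^[k]) (L j s) - 1‖ := by
        calc ‖(1 : ℂ)‖ = ‖deriv ((F 2 c)^[k]) (L j s) - (deriv ((F 2 c)^[k]) (L j s) - 1)‖ := by
              congr 1; ring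
          _ ≤ _ := norm_sub_le _ _
      rw [norm_one] at this
      linarith
    rw [(h₃ c k (L j s)).1] at d2
    have d3 := prodb k (k - 1 - j) (by omega) (fun i => 2 * (F 2 c)^[i] (L j s)) (by
      intro i
      rw [hX.ite j i s (memOM hs1), norm_mul]
      have := hD.ftc.bdd (j + i) s (memOM hs1)
      have h2 : ‖(2 : ℂ)‖ = 2 := by simp
      rw [h2]
      linarith)
    rw [hX.ite j (k - 1 - j) s (memOM hs1), norm_mul] at d3
    have h2 : ‖(2 : ℂ)‖ = 2 := by simp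
    have h3 : j + (k - 1 - j) = k - 1 := by omega
    rw [h2, h3] at d3
    exact d2.trans d3
  have ht := hD.ftc.crt
  have ht2 : Tendsto (fun s : ℝ => 2 * ‖L (k - 1) s‖ * 4 ^ k) (𝓝[>] (-1)) (𝓝 0) := by
    have := ((ht.norm.const_mul (2 : ℝ)).mul_const ((4 : ℝ) ^ k))
    simpa using this
  have ev1 : ∀ᶠ s : ℝ in 𝓝[>] (-1 : ℝ), 2 * ‖L (k - 1) s‖ * 4 ^ k < 1 / 2 :=
    ht2.eventually_lt_const (by norm_num)
  have ev2 : ∀ᶠ s : ℝ in 𝓝[>] (-1 : ℝ), s ∈ Ioc (-1 : ℝ) 0 :=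
    Ioc_mem_nhdsGT (by norm_num)
  obtain ⟨s, hs1, hs2⟩ := (ev1.and ev2).exists
  have := hb s hs2.1 hs2.2
  linarith

end Pool.Agent.CUSP
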