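import Pool.Agent.CUSP.Defs

/-!
# CUSP: targets, blocks A (tools) and B (Fatou coordinates); proofs in Blueprint.lean.txt
-/

set_option autoImplicit false

open Complex Filter Topology Set MeasureTheory
open Pool.Agent.Limb (F)
open Pool.Agent.PLim (Rho)
open Pool.Agent.MEY (Pt)
open Pool.Agent.PSat (Comp Sat)
open Pool.Agent.AEN (vm Hp Exn)

namespace Pool.Agent.CUSP

/-! ### A. tools -/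

/-- KDI (from KOEB of PLIM): Koebe distortion with an absolute constant. -/
def T_KDI : Prop := ∃ C : ℝ, 1 ≤ C ∧ ∀ (a : ℂ) (R : ℝ) (g : ℂ → ℂ), 0 < R →
  DifferentiableOn ℂ g (Metric.ball a R) → InjOn g (Metric.ball a R) →
  deriv g a ≠ 0 ∧ Metric.ball (g a) (R * ‖deriv g a‖ / C) ⊆ g '' Metric.ball a R ∧
  ∀ z : ℂ, ‖z - a‖ ≤ R / 2 → ‖deriv g z‖ ≤ C * ‖deriv g a‖ ∧ ‖deriv g a‖ ≤ C * ‖deriv g z‖ ∧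
    ‖g z - g a‖ ≤ C * ‖deriv g a‖ * ‖z - a‖ ∧ ‖deriv g a‖ * ‖z - a‖ ≤ C * ‖g z - g a‖

/-- ARE: the area theorem. -/
def T_ARE : Prop := ∀ φ : ℂ → ℂ, DifferentiableOn ℂ φ (Metric.ball 0 1) →
  InjOn (fun z => 1 / z + φ z) (Metric.ball 0 1 \ {0}) → ‖deriv φ 0‖ ≤ 1

/-- BIE (from ARE): the second coefficient of a univalent function. -/
def T_BIE : Prop := ∀ g : ℂ → ℂ, DifferentiableOn ℂ g (Metric.ball 0 1) →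
  InjOn g (Metric.ball 0 1) → ‖deriv (deriv g) 0‖ ≤ 4 * ‖deriv g 0‖

/-- HPM (from BIE): univalent functions on the half plane. -/
def T_HPM : Prop := ∀ Q : ℂ → ℂ, DifferentiableOn ℂ Q Hp → InjOn Q Hp →
  ∀ Y t t' : ℝ, 0 < t → t ≤ t' →
  t ^ 3 * ‖deriv Q (t + Y * I)‖ ≤ t' ^ 3 * ‖deriv Q (t' + Y * I)‖

/-- CRV: critical points of the iterates. -/
def T_CRV : Prop := ∀ (c : ℂ) (m : ℕ) (x : ℂ),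
  deriv ((F 2 c)^[m]) x = ∏ i ∈ Finset.range m, (2 * (F 2 c)^[i] x) ∧
  ((∀ j < m, (F 2 c)^[m] x ≠ (F 2 c)^[j] c) → deriv ((F 2 c)^[m]) x ≠ 0)

/-- LFU: uniqueness of lifts through the iterates. -/
def T_LFU : Prop := ∀ (c : ℂ) (m : ℕ) (W : Set ℂ) (g g' : ℂ → ℂ) (t0 : ℂ), IsPreconnected W →
  ContinuousOn g W → ContinuousOn g' W →
  (∀ t ∈ W, (F 2 c)^[m] (g t) = (F 2 c)^[m] (g' t) ∧ deriv ((F 2 c)^[m]) (g t) ≠ 0) →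
  t0 ∈ W → g t0 = g' t0 → EqOn g g' W

/-- LFT (from CRV, LFU): existence of lifts through the iterates over convex sets. -/
def T_LFT : Prop := ∀ (c : ℂ) (m : ℕ) (W : Set ℂ) (h : ℂ → ℂ), IsOpen W → Convex ℝ W →
  DifferentiableOn ℂ h W → (∀ t ∈ W, ∀ j < m, h t ≠ (F 2 c)^[j] c) →
  ∀ t0 ∈ W, ∀ z0 : ℂ, (F 2 c)^[m] z0 = h t0 →
  ∃ g : ℂ → ℂ, DifferentiableOn ℂ g W ∧ g t0 = z0 ∧ ∀ t ∈ W, (F 2 c)^[m] (g t) = h t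

/-- HRK: Harnack's inequality for functions without zeros. -/
def T_HRK : Prop := ∀ (a : ℂ) (R M : ℝ) (y : ℂ → ℂ), 0 < R → 0 < M →
  DifferentiableOn ℂ y (Metric.ball a R) → (∀ x ∈ Metric.ball a R, y x ≠ 0 ∧ ‖y x‖ ≤ M) →
  ∀ x : ℂ, ‖x - a‖ ≤ R / 2 → ‖y x‖ ^ 3 ≤ M ^ 2 * ‖y a‖ ∧ ‖y a‖ ^ 3 ≤ M ^ 2 * ‖y x‖

/-- SPR (from KDI): convergence of univalent functions to a constant. -/
def T_SPR : Prop := ∀ (D : Set ℂ) (g : ℕ → ℂ → ℂ) (q w : ℂ), IsOpen D → IsPreconnected D →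
  (∀ n, DifferentiableOn ℂ (g n) D ∧ InjOn (g n) D) → q ∈ D →
  Tendsto (fun n => g n q) atTop (𝓝 w) → Tendsto (fun n => deriv (g n) q) atTop (𝓝 0) →
  ∀ x ∈ D, Tendsto (fun n => g n x) atTop (𝓝 w) ∧ Tendsto (fun n => deriv (g n) x) atTop (𝓝 0)

/-- ESC: bounded orbits. -/
def T_ESC : Prop := ∀ (c x : ℂ) (B : ℝ), (∀ n : ℕ, ‖(F 2 c)^[n] x‖ ≤ B) →
  ‖x‖ ≤ max 2 ‖c‖ ∧ (x = c → ‖c‖ ≤ 2)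

/-! ### B. Fatou coordinates -/

/-- FW1: the Fatou coordinate on a half plane. -/
def T_FW1 : Prop := ∀ (H : ℂ → ℂ) (R0 C0 : ℝ), 0 < R0 → 0 < C0 →
  DifferentiableOn ℂ H {w : ℂ | R0 < w.re} →
  (∀ w : ℂ, R0 < w.re → ‖H w - w - 1‖ ≤ C0 / ‖w‖) →
  ∃ (R1 : ℝ) (Φ : ℂ → ℂ), R0 ≤ R1 ∧ DifferentiableOn ℂ Φ {w : ℂ | R1 < w.re} ∧
    (∀ w : ℂ, R1 < w.re → ‖H w - w - 1‖ ≤ 1 / 10 ∧ Φ (H w) = Φ w + 1 ∧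
      ‖deriv Φ w - 1‖ ≤ 1 / 10) ∧
    ∀ ε : ℝ, 0 < ε → ∃ R2 : ℝ, ∀ w : ℂ, R1 < w.re → R2 ≤ w.re → ‖deriv Φ w - 1‖ ≤ ε

/-- FW2 (from FW1): the inverse of the Fatou coordinate. -/
def T_FW2 : Prop := ∀ (H : ℂ → ℂ) (R0 C0 : ℝ), 0 < R0 → 0 < C0 →
  DifferentiableOn ℂ H {w : ℂ | R0 < w.re} →
  (∀ w : ℂ, R0 < w.re → ‖H w - w - 1‖ ≤ C0 / ‖w‖) →
  ∃ (T : ℝ) (Ψ : ℂ → ℂ), 0 < T ∧ DifferentiableOn ℂ Ψ (Sx T) ∧ InjOn Ψ (Sx T) ∧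
    (∀ t ∈ Sx T, R0 < (Ψ t).re ∧ H (Ψ t) = Ψ (t + 1)) ∧
    ∀ ε : ℝ, 0 < ε → ∃ T' : ℝ, ∀ t ∈ Sx T, T' ≤ t.re →
      ‖Ψ t / t - 1‖ ≤ ε ∧ ‖deriv Ψ t - 1‖ ≤ ε

/-- FAT (from FW2): the attracting direction of a parabolic fixed point. -/
def T_FAT : Prop := ∀ (φ : ℂ → ℂ) (α : ℂ) (r0 : ℝ), 0 < r0 → α ≠ 0 →
  DifferentiableOn ℂ φ (Metric.ball 0 r0) → φ 0 = 0 → deriv φ 0 = 1 →
  deriv (deriv φ) 0 = 2 * α →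
  ∃ (T : ℝ) (lam : ℂ → ℂ), 0 < T ∧ DifferentiableOn ℂ lam (Sx T) ∧ InjOn lam (Sx T) ∧
    (∀ t ∈ Sx T, lam t ∈ Metric.ball 0 r0 ∧ φ (lam t) = lam (t + 1)) ∧
    ∀ ε : ℝ, 0 < ε → ∃ T' : ℝ, ∀ t ∈ Sx T, T' ≤ t.re →
      ‖t * lam t + 1 / α‖ ≤ ε ∧ ‖t ^ 2 * deriv lam t - 1 / α‖ ≤ ε

/-- AST (from CRV): first properties of the cycle. -/
def T_AST : Prop := ∀ (k : ℕ) (c : ℂ) (z a : ℕ → ℂ), Prb k c z a → ∀ l : ℕ,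
  a l = a (l + 1) * (2 * z l) ∧ a (l + k) = a l ∧ z l ≠ 0 ∧ (F 2 c)^[k] (z l) = z l ∧
  (∀ j : ℕ, (F 2 c)^[j] (z l) = z (l + j)) ∧ (∃ m < k, z l = z m ∧ a l = a m) ∧
  ∀ s : ℕ, Prb k c (fun i => z (i + s)) (fun i => a (i + s))

/-- INI (from FAT): the initial sector. -/
def T_INI : Prop := ∀ (k : ℕ) (c : ℂ) (z a : ℕ → ℂ), Prb k c z a → ∀ l : ℕ,
  ∃ (p : ℝ) (lam : ℂ → ℂ), 0 < p ∧ Sy k c (z l) (a l) p lam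

/-- BST (from LFT, LFU, CRV, AST): one step back. -/
def T_BST : Prop := ∀ (k : ℕ) (c : ℂ) (z a : ℕ → ℂ) (m : ℕ) (p : ℝ) (lam : ℂ → ℂ),
  Prb k c z a → 0 < p → Sy k c (z (m + 1)) (a (m + 1)) p lam → (∀ t ∈ Sx p, lam t ≠ c) →
  ∃ mu : ℂ → ℂ, Sy k c (z m) (a m) p mu ∧ ∀ t ∈ Sx p, F 2 c (mu t) = lam t

/-- OBS (from INI, BST, ESC, AST): the critical value is met. -/
def T_OBS : Prop := ∀ (k : ℕ) (c : ℂ) (z a : ℕ → ℂ), Prb k c z a →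
  ∃ (m : ℕ) (p : ℝ) (lam : ℂ → ℂ) (ts : ℂ), 0 < p ∧ Sy k c (z m) (a m) p lam ∧ ts ∈ Sx p ∧
    lam ts = c

/-- EXN (from LFT, LFU, CRV): extension of an inverse Fatou coordinate. -/
def T_EXN : Prop := ∀ (k : ℕ) (c : ℂ) (W Wi : Set ℂ) (lam : ℂ → ℂ), 1 ≤ k → IsOpen W →
  Convex ℝ W → W.Nonempty → (∀ t ∈ W, t + 1 ∈ W) → IsOpen Wi → Convex ℝ Wi → W ⊆ Wi →
  (∀ t ∈ Wi, t + 1 ∈ Wi) → (∀ t ∈ Wi, ∃ n : ℕ, t + n ∈ W) → DifferentiableOn ℂ lam W →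
  (∀ t ∈ W, (F 2 c)^[k] (lam t) = lam (t + 1)) →
  (∀ t ∈ Wi, ∀ n : ℕ, t + 1 + n ∈ W → ∀ j < k,
    (F 2 c)^[k * n] ((F 2 c)^[j] c) ≠ lam (t + 1 + n)) →
  (∀ t ∈ W, deriv lam t ≠ 0) →
  ∃ mu : ℂ → ℂ, DifferentiableOn ℂ mu Wi ∧ EqOn mu lam W ∧
    ∀ t ∈ Wi, (F 2 c)^[k] (mu t) = mu (t + 1)

/-- OMX (from EXN, ESC, AST): the maximal inverse Fatou coordinates. -/
def T_OMX : Prop := ∀ (k : ℕ) (c : ℂ) (z a : ℕ → ℂ) (p : ℝ) (lam : ℂ → ℂ) (ts : ℂ),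
  Prb k c z a → 0 < p → Sy k c (z 0) (a 0) p lam → ts ∈ Sx p → lam ts = c →
  ∃ L : ℕ → ℂ → ℂ, Ftc k c z a L

/-- BKW: backward orbits at a parabolic fixed point. -/
def T_BKW : Prop := ∀ (ψ : ℂ → ℂ) (α : ℂ) (r0 θ : ℝ), 0 < r0 → α ≠ 0 → 0 < θ →
  DifferentiableOn ℂ ψ (Metric.ball 0 r0) → ψ 0 = 0 → deriv ψ 0 = 1 →
  deriv (deriv ψ) 0 = -2 * α →
  ∃ σ C : ℝ, 0 < σ ∧ 1 ≤ C ∧ ∀ w : ℂ, σ ≤ ‖w‖ → (w.re ≤ 0 ∨ θ * w.re ≤ |w.im|) →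
    ∃ o : ℕ → ℂ, o 0 = w ∧ ∀ n : ℕ, o n ≠ 0 ∧ -1 / (α * o n) ∈ Metric.ball (0 : ℂ) r0 ∧
      ψ (-1 / (α * o n)) = -1 / (α * o (n + 1)) ∧ (‖w‖ + n) / C ≤ ‖o n‖ ∧
      ‖o n - (w - n)‖ ≤ C * (1 + Real.log (1 + n / ‖w‖))

/-- BKL (from BKW, LFU, CRV): the backward orbits of the inverse Fatou coordinate. -/
def T_BKL : Prop := ∀ (k : ℕ) (c : ℂ) (z a : ℕ → ℂ) (L : ℕ → ℂ → ℂ), Prb k c z a →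
  Ftc k c z a L → ∀ (l : ℕ) (θ : ℝ), 0 < θ → ∃ M C : ℝ, 0 < M ∧ 1 ≤ C ∧ ∀ t : ℂ, M ≤ ‖t‖ →
    5 * |t.im| ≤ t.re → θ * t.re ≤ |t.im| → ∃ o : ℕ → ℂ, ∀ n : ℕ, o n ≠ 0 ∧
      L l (t - n) = z l - 1 / (a l * o n) ∧ (‖t‖ + n) / C ≤ ‖o n‖ ∧
      ‖o n - (o 0 - n)‖ ≤ C * (1 + Real.log (1 + n / ‖t‖))

/-- HOD (from KDI): the derivative along backward orbits. -/
def T_HOD : Prop := ∀ (k : ℕ) (c : ℂ) (z a : ℕ → ℂ) (L : ℕ → ℂ → ℂ), Prb k c z a →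
  Ftc k c z a L → ∀ (l : ℕ) (t : ℂ), t.im ≠ 0 →
  Tendsto (fun n : ℕ => deriv (L l) (t - n)) atTop (𝓝 0)

/-- HOM (from BKL, HOD, SPR): the backward orbits converge. -/
def T_HOM : Prop := ∀ (k : ℕ) (c : ℂ) (z a : ℕ → ℂ) (L : ℕ → ℂ → ℂ), Prb k c z a →
  Ftc k c z a L → ∀ (l : ℕ) (t : ℂ), t.im ≠ 0 →
  Tendsto (fun n : ℕ => L l (t - n)) atTop (𝓝 (z l))

/-- ASY (from BKL): asymptotics in the directions which are not real. -/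
def T_ASY : Prop := ∀ (k : ℕ) (c : ℂ) (z a : ℕ → ℂ) (L : ℕ → ℂ → ℂ), Prb k c z a →
  Ftc k c z a L → ∀ (l : ℕ) (ω : ℂ) (ε : ℝ), ω.im ≠ 0 → 0 < ε → ∃ M : ℝ, 0 < M ∧
    ∀ x : ℝ, M ≤ x → ∀ s ∈ Icc (0 : ℝ) 1,
      ‖(x * ω) * (L l (x * ω - s) - z l) + 1 / a l‖ ≤ ε

end Pool.Agent.CUSP
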