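import Pool.Agent.CUSP.Targets

/-!
# CUSP: targets, blocks C (the arcs and the inverse branches) and D (the count); proofs in
Blueprint2.lean.txt
-/

set_option autoImplicit false

open Complex Filter Topology Set MeasureTheory
open Pool.Agent.Limb (F)
open Pool.Agent.PLim (Rho)
open Pool.Agent.MEY (Pt)
open Pool.Agent.PSat (Comp Sat)
open Pool.Agent.AEN (vm Hp Exn)

namespace Pool.Agent.CUSP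

/-- All the data of the dynamical plane. -/
structure Dat (k : ℕ) (c : ℂ) (z a : ℕ → ℂ) (L : ℕ → ℂ → ℂ) : Prop where
  prb : Prb k c z a
  ftc : Ftc k c z a L

/-! ### C. the arcs and the inverse branches -/

/-- XPR (from ESC): properties of the arcs. -/
structure Xpr (k : ℕ) (c : ℂ) (z : ℕ → ℂ) (L : ℕ → ℂ → ℂ) : Prop where
  cpt : ∀ l, IsCompact (Gm z L l)
  cpX : IsCompact (XX k z L)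
  dsj : ∀ l < k, ∀ m < k, l ≠ m → Disjoint (Gm z L l) (Gm z L m)
  inv : ∀ x ∈ XX k z L, F 2 c x ∈ XX k z L
  crv : ∀ j : ℕ, (F 2 c)^[j] c ∈ XX k z L
  ite : ∀ (l j : ℕ), ∀ t ∈ OM, (F 2 c)^[j] (L l t) = L (l + j) t
  itn : ∀ (l n : ℕ), ∀ t ∈ OM, (F 2 c)^[k * n] (L l t) = L l (t + n)
  nez : ∀ (l m : ℕ), ∀ t ∈ OM, L l t ≠ z m
  rea : ∀ l < k, ∀ t ∈ OM, L l t ∈ XX k z L → t.im = 0 ∧ 0 ≤ t.re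
  der : ∀ l : ℕ, ∀ t ∈ OM, deriv (L l) t ≠ 0
  fix : ∀ l : ℕ, (F 2 c)^[k] (z l) = z l
  zlt : ∀ l : ℕ, ∃ m < k, z l = z m
  pos : ∀ l : ℕ, 0 < Rl k z L l
  tip : ∀ (l : ℕ), ∀ j < k, Rl k z L l ≤ ‖z l - L j 0‖
  nea : ∀ l : ℕ, ∃ j < k, ‖z l - L j 0‖ = Rl k z L l
  lim : ∀ l : ℕ, Tendsto (fun s : ℝ => L l s) atTop (𝓝 (z l))

/-- XPR. -/
def T_XPR : Prop := ∀ (k : ℕ) (c : ℂ) (z a : ℕ → ℂ) (L : ℕ → ℂ → ℂ), Dat k c z a L →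
  Xpr k c z L

/-- TLE (from KDI, XPR): the size of the tiles. -/
def T_TLE : Prop := ∃ C : ℝ, 1 ≤ C ∧ ∀ (k : ℕ) (c : ℂ) (z a : ℕ → ℂ) (L : ℕ → ℂ → ℂ),
  Dat k c z a L → ∀ (l : ℕ) (t : ℝ), l < k → 0 ≤ t →
  0 < ‖deriv (L l) t‖ ∧ ‖deriv (L l) t‖ ≤ C * ‖L l (t + 1) - L l t‖ ∧
  ‖L l (t + 1) - L l t‖ ≤ C * ‖deriv (L l) t‖ ∧
  ‖deriv (L l) t‖ ≤ C * ‖deriv (L l) (t + 1)‖ ∧ ‖deriv (L l) (t + 1)‖ ≤ C * ‖deriv (L l) t‖ ∧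
  Metric.ball (L l t) ((t + 1) * ‖deriv (L l) t‖ / C) ⊆ L l '' Metric.ball t ((t + 1) / 2) ∧
  ∀ s : ℂ, ‖s - t‖ ≤ (t + 1) / 2 → ‖deriv (L l) s‖ ≤ C * ‖deriv (L l) t‖ ∧
    ‖deriv (L l) t‖ * ‖s - t‖ ≤ C * ‖L l s - L l t‖ ∧
    ‖L l s - L l t‖ ≤ C * ‖deriv (L l) t‖ * ‖s - t‖

/-- TLF (from KDI, XPR): the distance to the tip. -/
def T_TLF : Prop := ∀ T : ℝ, ∃ C : ℝ, 1 ≤ C ∧ ∀ (k : ℕ) (c : ℂ) (z a : ℕ → ℂ)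
  (L : ℕ → ℂ → ℂ), Dat k c z a L → ∀ (l : ℕ) (t : ℝ), l < k → 0 ≤ t → t ≤ T →
  ‖L l t - L l 0‖ ≤ C * ‖deriv (L l) t‖

/-- W1 (from TLE, XPR, CRV, KDI): the iterate is not close to the identity on a circle around a
tip. -/
def T_W1 : Prop := ∃ e : ℝ, 0 < e ∧ ∀ (k : ℕ) (c : ℂ) (z a : ℕ → ℂ) (L : ℕ → ℂ → ℂ),
  Dat k c z a L → ∀ (j : ℕ) (r : ℝ), j < k → 0 < r →
  (∀ x : ℂ, ‖x - L j 0‖ = r → ‖(F 2 c)^[k] x - x‖ ≤ e * r) → False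

/-- GBR (from LFT, KDI, XPR): the inverse branch. -/
def T_GBR : Prop := ∃ C : ℝ, 2 ≤ C ∧ ∀ (k : ℕ) (c : ℂ) (z a : ℕ → ℂ) (L : ℕ → ℂ → ℂ),
  Dat k c z a L → ∀ l : ℕ, ∃ G : ℂ → ℂ, Gbr C k c (z l) (a l) (Rl k z L l) G

/-- SML (from TLE, TLF, XPR): points of the arcs near a parabolic point. -/
def T_SML : Prop := ∀ C T : ℝ, 2 ≤ C → ∃ η : ℝ, 0 < η ∧ ∀ (k : ℕ) (c : ℂ) (z a : ℕ → ℂ)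
  (L : ℕ → ℂ → ℂ) (l : ℕ) (G : ℂ → ℂ), Dat k c z a L → l < k →
  Gbr C k c (z l) (a l) (Rl k z L l) G → ∀ (j : ℕ) (t : ℝ), j < k → 0 ≤ t →
  ‖L j t - z l‖ ≤ η * Rl k z L l → T ≤ t

/-- SHF (from SML, TLE, XPR): the inverse branch on the arcs. -/
def T_SHF : Prop := ∀ C : ℝ, 2 ≤ C → ∃ η : ℝ, 0 < η ∧ ∀ (k : ℕ) (c : ℂ) (z a : ℕ → ℂ)
  (L : ℕ → ℂ → ℂ) (l : ℕ) (G : ℂ → ℂ), Dat k c z a L → l < k →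
  Gbr C k c (z l) (a l) (Rl k z L l) G → ∀ (j : ℕ) (t : ℝ), j < k → 0 ≤ t →
  ‖L j (t + 1) - z l‖ ≤ η * Rl k z L l → ‖L j t - z l‖ ≤ Rl k z L l / C ∧
  G (L j (t + 1)) = L j t

/-- Access to the disc `ball p ρ` from the arc with index `j`. -/
structure Acs (L : ℕ → ℂ → ℂ) (G : ℂ → ℂ) (j : ℕ) (p : ℂ) (ρ : ℝ) (τ : ℂ) : Prop where
  im : τ.im ≠ 0
  pth : ∀ s ∈ Icc (0 : ℝ) 1, L j (τ - s) ∈ Metric.ball p ρ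
  seg : ∀ x ∈ segment ℝ (L j τ) p, G x ∈ Metric.ball p ρ
  sh : G (L j τ) = L j (τ - 1)

/-- A small disc without points of the arcs on which `G` is close to the identity. -/
structure Dsc (k : ℕ) (z : ℕ → ℂ) (L : ℕ → ℂ → ℂ) (l : ℕ) (G : ℂ → ℂ) (e η : ℝ) (p : ℂ)
    (ρ : ℝ) : Prop where
  hρ : 0 < ρ
  hs : ‖p - z l‖ + 4 * ρ ≤ η * Rl k z L l
  free : ∀ x ∈ Metric.ball p ρ, x ∉ XX k z L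
  near : ∀ x : ℂ, ‖x - p‖ < 4 * ρ → ‖G x - x‖ ≤ e * ρ

/-- ACA (from SML, SHF, TLE, XPR): access from an interior point of an arc. -/
def T_ACA : Prop := ∀ C : ℝ, 2 ≤ C → ∃ e η : ℝ, 0 < e ∧ 0 < η ∧ ∀ (k : ℕ) (c : ℂ)
  (z a : ℕ → ℂ) (L : ℕ → ℂ → ℂ) (l : ℕ) (G : ℂ → ℂ) (p : ℂ) (ρ : ℝ), Dat k c z a L → l < k →
  Gbr C k c (z l) (a l) (Rl k z L l) G → Dsc k z L l G e η p ρ →
  ∀ (j : ℕ) (t : ℝ), j < k → 0 ≤ t → ‖L j t - p‖ = ρ → ∃ τ : ℂ, Acs L G j p ρ τ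

/-- ACB (from ASY, XPR): access from the end point of an arc. -/
def T_ACB : Prop := ∀ C : ℝ, 2 ≤ C → ∃ e η : ℝ, 0 < e ∧ 0 < η ∧ ∀ (k : ℕ) (c : ℂ)
  (z a : ℕ → ℂ) (L : ℕ → ℂ → ℂ) (l : ℕ) (G : ℂ → ℂ) (p : ℂ) (ρ : ℝ), Dat k c z a L → l < k →
  Gbr C k c (z l) (a l) (Rl k z L l) G → Dsc k z L l G e η p ρ →
  ∀ j : ℕ, j < k → ‖z j - p‖ = ρ → ∃ τ : ℂ, Acs L G j p ρ τ

/-- COR (from LFT, LFU, CRV, SPR, HOM, HOD, XPR): the branches of the inverses of the iterates on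
the disc. -/
def T_COR : Prop := ∀ (C : ℝ) (k : ℕ) (c : ℂ) (z a : ℕ → ℂ) (L : ℕ → ℂ → ℂ) (l : ℕ)
  (G : ℂ → ℂ) (p : ℂ) (ρ : ℝ) (j : ℕ) (τ : ℂ), Dat k c z a L → l < k →
  Gbr C k c (z l) (a l) (Rl k z L l) G → 0 < ρ →
  Metric.ball p ρ ⊆ Metric.ball (z l) (Rl k z L l) → (∀ x ∈ Metric.ball p ρ, x ∉ XX k z L) →
  j < k → Acs L G j p ρ τ →
  ∃ g : ℕ → ℂ → ℂ, (∀ x ∈ Metric.ball p ρ, g 0 x = x) ∧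
    (∀ n, DifferentiableOn ℂ (g n) (Metric.ball p ρ) ∧
      ∀ x ∈ Metric.ball p ρ, (F 2 c)^[k * n] (g n x) = x) ∧
    (∀ n, g (n + 1) p = g n (G p)) ∧
    ∀ x ∈ Metric.ball p ρ, Tendsto (fun n => g n x) atTop (𝓝 (z j))

/-- LMA (from ACA, ACB, COR, GBR, SML, SHF, TLE, LFU, CRV, XPR): Lemma A. -/
def T_LMA : Prop := ∃ η : ℝ, 0 < η ∧ η ≤ 1 / 16 ∧ ∀ (k : ℕ) (c : ℂ) (z a : ℕ → ℂ)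
  (L : ℕ → ℂ → ℂ), Dat k c z a L → ∀ (l : ℕ) (x : ℂ), l < k → ‖x - z l‖ ≤ η * Rl k z L l →
  (x ∈ XX k z L → x ∈ Gm z L l) ∧ ((F 2 c)^[k] x = x → x = z l)

/-! ### D. a point with a large radius -/

/-- NID (from KDI, HRK, and TCR of AEN): a small coefficient implies that the branch is close to
the identity. -/
def T_NID : Prop := ∀ C η e : ℝ, 0 < η → η ≤ 1 / 16 → 0 < e → ∃ ε : ℝ, 0 < ε ∧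
  ∀ (k : ℕ) (c ζ α : ℂ) (R : ℝ) (G : ℂ → ℂ), Gbr C k c ζ α R G →
  (∀ x : ℂ, ‖x - ζ‖ ≤ η * R → (F 2 c)^[k] x = x → x = ζ) → α ≠ 0 → ‖α‖ * R ≤ ε →
  ∀ x : ℂ, ‖x - ζ‖ ≤ 7 / 8 * R → ‖G x - x‖ ≤ e * R

/-- LOW (from HRK): a lower bound for the displacement. -/
def T_LOW : Prop := ∀ C η κ : ℝ, 0 < η → η ≤ 1 / 16 → 0 < κ → ∃ d : ℝ, 0 < d ∧
  ∀ (k : ℕ) (c ζ α : ℂ) (R : ℝ) (G : ℂ → ℂ), Gbr C k c ζ α R G →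
  (∀ x : ℂ, ‖x - ζ‖ ≤ η * R → (F 2 c)^[k] x = x → x = ζ) → κ ≤ ‖α‖ * R →
  ∀ x : ℂ, ‖x - ζ‖ ≤ η * R / 2 → d * ‖x - ζ‖ ^ 2 ≤ R * ‖G x - x‖

/-- CON (from LFT, LFU, KDI, and TCR of AEN): continuation of a branch close to the identity. -/
def T_CON : Prop := ∃ C : ℝ, 1 ≤ C ∧ ∀ (k : ℕ) (c y y' : ℂ) (ρ e : ℝ) (g : ℂ → ℂ), 0 < ρ →
  0 ≤ e → e ≤ 1 / 100 → ‖y' - y‖ ≤ ρ / 12 →
  (∀ x ∈ Metric.ball y' ρ, ∀ j < k, x ≠ (F 2 c)^[j] c) →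
  DifferentiableOn ℂ g (Metric.ball y ρ) → (∀ x ∈ Metric.ball y ρ, (F 2 c)^[k] (g x) = x) →
  (∀ x : ℂ, ‖x - y‖ ≤ ρ / 6 → ‖g x - x‖ ≤ e * ρ) →
  ∃ g' : ℂ → ℂ, DifferentiableOn ℂ g' (Metric.ball y' ρ) ∧
    (∀ x ∈ Metric.ball y' ρ, (F 2 c)^[k] (g' x) = x) ∧
    ∀ x : ℂ, ‖x - y'‖ ≤ ρ / 6 → ‖g' x - x‖ ≤ C * √e * ρ

/-- RNG (from CON): the iterate is close to the identity on a circle without tips. -/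
def T_RNG : Prop := ∀ C δ e1 : ℝ, 0 < δ → δ ≤ 1 / 16 → 0 < e1 → ∃ e : ℝ, 0 < e ∧
  ∀ (k : ℕ) (c : ℂ) (z a : ℕ → ℂ) (L : ℕ → ℂ → ℂ) (l j : ℕ) (G : ℂ → ℂ) (r : ℝ),
  Dat k c z a L → l < k → j < k → Gbr C k c (z l) (a l) (Rl k z L l) G →
  ‖z l - L j 0‖ = Rl k z L l →
  (∀ x : ℂ, ‖x - z l‖ ≤ 7 / 8 * Rl k z L l → ‖G x - x‖ ≤ e * Rl k z L l) →
  Rl k z L l / 4 ≤ r → r ≤ Rl k z L l / 2 →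
  (∀ i < k, δ * Rl k z L l ≤ |‖L i 0 - L j 0‖ - r|) →
  ∀ x : ℂ, ‖x - L j 0‖ = r → ‖(F 2 c)^[k] x - x‖ ≤ e1 * r

/-- TPS (from LMA, GBR, NID, RNG, W1, XPR): many tips near a bad point. -/
def T_TPS : Prop := ∀ K0 : ℕ, 1 ≤ K0 → ∃ ε : ℝ, 0 < ε ∧ ∀ (k : ℕ) (c : ℂ) (z a : ℕ → ℂ)
  (L : ℕ → ℂ → ℂ) (l : ℕ), Dat k c z a L → l < k → ‖a l‖ * Rl k z L l ≤ ε →
  ∃ f : Fin K0 → ℕ, (∀ i, f i < k ∧ ‖L (f i) 0 - z l‖ ≤ 2 * Rl k z L l) ∧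
    ∀ i i', i ≠ i' → Rl k z L l / (16 * K0) ≤ ‖L (f i) 0 - L (f i') 0‖

/-- PAK: packing. -/
def T_PAK : Prop := ∀ (x : ℂ) (r s : ℝ) (S : Finset ℂ), 0 < s → 0 ≤ r →
  (∀ y ∈ S, ‖y - x‖ ≤ r) → (∀ y ∈ S, ∀ y' ∈ S, y ≠ y' → s ≤ ‖y - y'‖) →
  (S.card : ℝ) ≤ (1 + 2 * r / s) ^ 2

/-- NET: nested nets. -/
def T_NET : Prop := ∀ (T : Finset ℂ) (s0 : ℝ), 0 < s0 → ∃ N : ℕ → Finset ℂ, ∀ n : ℕ,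
  N n ⊆ N (n + 1) ∧ N n ⊆ T ∧ (∀ y ∈ N n, ∀ y' ∈ N n, y ≠ y' → s0 / 2 ^ n ≤ ‖y - y'‖) ∧
  ∀ x ∈ T, ∃ y ∈ N n, ‖x - y‖ < s0 / 2 ^ n

/-- CTN (from PAK, NET): the count. -/
def T_CTN : Prop := ∀ η : ℝ, 0 < η → η ≤ 1 → ∃ K0 : ℕ, 1 ≤ K0 ∧ ∀ (k : ℕ) (zz tt : Fin k → ℂ)
  (R : Fin k → ℝ), 1 ≤ k → (∀ l, 0 < R l) → (∀ l m, l ≠ m → η * R l ≤ ‖zz l - zz m‖) →
  (∀ l, ∃ f : Fin K0 → Fin k, (∀ i, ‖tt (f i) - zz l‖ ≤ 2 * R l) ∧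
    ∀ i i', i ≠ i' → R l / (16 * K0) ≤ ‖tt (f i) - tt (f i')‖) → False

/-- LMB (from LMA, TPS, CTN, XPR): Lemma B. -/
def T_LMB : Prop := ∃ κ : ℝ, 0 < κ ∧ ∀ (k : ℕ) (c : ℂ) (z a : ℕ → ℂ) (L : ℕ → ℂ → ℂ),
  Dat k c z a L → ∃ l < k, κ ≤ ‖a l‖ * Rl k z L l

end Pool.Agent.CUSP
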