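import Pool.Agent.CUSP.Targets2

/-!
# CUSP: targets, blocks E (the area), F (the formula), G (the parameter plane) and H (the final
theorem); proofs in Blueprint3.lean.txt
-/

set_option autoImplicit false

open Complex Filter Topology Set MeasureTheory
open Pool.Agent.Limb (F)
open Pool.Agent.PLim (Rho)
open Pool.Agent.MEY (Pt)
open Pool.Agent.PSat (Comp Sat)
open Pool.Agent.AEN (vm Hp Exn)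
open Pool.Agent.MEZ (T_NCZ T_SECZ)

namespace Pool.Agent.CUSP

/-! ### E. the area -/

/-- ACF (from CRV): the coefficients exist. -/
def T_ACF : Prop := ∀ (k : ℕ) (c : ℂ) (z a : ℕ → ℂ), Prb k c z a → ∃ A : ℂ → ℂ, Acf c z a A

/-- GOP (from XPR, ESC, CRV, KDI): properties of the grand orbit. -/
def T_GOP : Prop := ∀ (k : ℕ) (c : ℂ) (z a : ℕ → ℂ) (L : ℕ → ℂ → ℂ), Dat k c z a L →
  (∀ y ∈ GO c z, ‖y‖ ≤ 2 ∧ y ≠ 0 ∧ y ≠ c ∧ ∀ n : ℕ, deriv ((F 2 c)^[n]) y ≠ 0) ∧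
  (∀ y : ℂ, y ∈ GO c z ↔ F 2 c y ∈ GO c z) ∧
  (∀ l : ℕ, ∀ t ∈ OM, L l t ∉ GO c z) ∧
  ∀ (l : ℕ) (t : ℝ), l < k → 0 ≤ t → ∃ d : ℝ, 0 < d ∧ ∀ y ∈ GO c z, d ≤ ‖L l t - y‖

/-- HBR (from LMA, GBR, SHF, LFT, LFU, CRV, XPR): the branches at the points of the grand
orbit. -/
def T_HBR : Prop := ∃ η : ℝ, 0 < η ∧ η ≤ 1 / 16 ∧ ∀ (k : ℕ) (c : ℂ) (z a : ℕ → ℂ)
  (L : ℕ → ℂ → ℂ), Dat k c z a L → ∀ (l : ℕ) (y : ℂ), l < k → y ∈ GO c z →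
  ∃ (m : ℕ) (h : ℂ → ℂ), (F 2 c)^[m] y = z l ∧
    DifferentiableOn ℂ h (Metric.ball (z l) (η * Rl k z L l)) ∧ h (z l) = y ∧
    ∀ x ∈ Metric.ball (z l) (η * Rl k z L l), (F 2 c)^[m] (h x) = x

/-- BAL (from GBR, LOW, TLE, XPR): a large tile. -/
def T_BAL : Prop := ∀ η κ : ℝ, 0 < η → η ≤ 1 / 16 → 0 < κ → ∃ d : ℝ, 0 < d ∧
  ∀ (k : ℕ) (c : ℂ) (z a : ℕ → ℂ) (L : ℕ → ℂ → ℂ), Dat k c z a L → ∀ l : ℕ, l < k →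
  (∀ x : ℂ, ‖x - z l‖ ≤ η * Rl k z L l → (F 2 c)^[k] x = x → x = z l) →
  κ ≤ ‖a l‖ * Rl k z L l →
  ∃ t : ℝ, 0 ≤ t ∧ ‖L l t - z l‖ ≤ η * Rl k z L l / 2 ∧ d * Rl k z L l ≤ ‖deriv (L l) t‖

/-- SUM (from LMA, LMB, HBR, BAL, GBR, TLE, KDI, LFU, GOP, XPR): the area argument. -/
def T_SUM : Prop := ∃ C : ℝ, 0 < C ∧ ∀ (k : ℕ) (c : ℂ) (z a : ℕ → ℂ) (L : ℕ → ℂ → ℂ)
  (A : ℂ → ℂ), Dat k c z a L → Acf c z a A →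
  ∀ s : Finset ℂ, (∀ y ∈ s, y ∈ GO c z) → ∑ y ∈ s, (‖A y‖ ^ 2)⁻¹ ≤ C

/-! ### F. the formula -/

/-- The Cauchy transform. -/
noncomputable def RR (c : ℂ) (z : ℕ → ℂ) (A : ℂ → ℂ) (x : ℂ) : ℂ :=
  ∑' y : GO c z, ((A y) ^ 2)⁻¹ * (x - y)⁻¹

/-- The sum. -/
noncomputable def S0 (c : ℂ) (z : ℕ → ℂ) (A : ℂ → ℂ) : ℂ := ∑' y : GO c z, ((A y) ^ 2)⁻¹

/-- FEQ (from GOP): the functional equation. -/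
def T_FEQ : Prop := ∀ (k : ℕ) (c : ℂ) (z a : ℕ → ℂ) (L : ℕ → ℂ → ℂ) (A : ℂ → ℂ),
  Dat k c z a L → Acf c z a A → (Summable fun y : GO c z => (‖A y‖ ^ 2)⁻¹) →
  ∀ (d : ℝ) (u : ℂ), u ≠ 0 → 0 < d → (∀ y ∈ GO c z, d ≤ ‖u - y‖) →
  (∀ y ∈ GO c z, d ≤ ‖F 2 c u - y‖) →
  RR c z A (F 2 c u) = 2 * u * RR c z A u - 2 * S0 c z A

/-- RIT (from FEQ, GOP, XPR, CRV): the functional equation for the iterate of order `k`. -/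
def T_RIT : Prop := ∀ (k : ℕ) (c : ℂ) (z a : ℕ → ℂ) (L : ℕ → ℂ → ℂ) (A : ℂ → ℂ),
  Dat k c z a L → Acf c z a A → (Summable fun y : GO c z => (‖A y‖ ^ 2)⁻¹) →
  ∀ t : ℝ, 0 ≤ t → RR c z A (L 0 (t + 1)) =
    deriv ((F 2 c)^[k]) (L 0 t) * RR c z A (L 0 t) - 2 * S0 c z A * BB c k (L 0 t)

/-- RAS (from GOP, TLE, XPR): the asymptotics of the Cauchy transform. -/
def T_RAS : Prop := ∀ (k : ℕ) (c : ℂ) (z a : ℕ → ℂ) (L : ℕ → ℂ → ℂ) (A : ℂ → ℂ),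
  Dat k c z a L → Acf c z a A → (Summable fun y : GO c z => (‖A y‖ ^ 2)⁻¹) →
  Tendsto (fun n : ℕ => (L 0 n - z 0) * RR c z A (L 0 n)) atTop (𝓝 ((a 0) ^ 2)⁻¹)

/-- CES: a limit of Cesàro type. -/
def T_CES : Prop := ∀ (σ β : ℕ → ℂ) (b s : ℂ), (∀ n, σ (n + 1) = σ n - β n) →
  Tendsto (fun n : ℕ => β n / (n : ℂ) ^ 2) atTop (𝓝 b) →
  Tendsto (fun n : ℕ => σ n / (n : ℂ) ^ 3) atTop (𝓝 s) → 3 * s = -b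

/-- FRM (from RIT, RAS, CES, XPR): the exact formula, as an inequality. -/
def T_FRM : Prop := ∀ (C : ℝ) (k : ℕ) (c : ℂ) (z a : ℕ → ℂ) (L : ℕ → ℂ → ℂ) (A : ℂ → ℂ),
  Dat k c z a L → Acf c z a A →
  (∀ s : Finset ℂ, (∀ y ∈ s, y ∈ GO c z) → ∑ y ∈ s, (‖A y‖ ^ 2)⁻¹ ≤ C) →
  3 ≤ 2 * C * ‖a 0 * BB c k (z 0)‖

/-- ABI: the product does not depend on the point of the cycle. -/
def T_ABI : Prop := ∀ (k : ℕ) (c : ℂ) (z a : ℕ → ℂ), Prb k c z a → ∀ l : ℕ,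
  a l * BB c k (z l) = a 0 * BB c k (z 0)

/-- P0 (from OBS, OMX, ACF, SUM, FRM, ABI): the cusp estimate. -/
def T_P0 : Prop := ∃ κ : ℝ, 0 < κ ∧ ∀ (k : ℕ) (c : ℂ) (z a : ℕ → ℂ), Prb k c z a →
  κ ≤ ‖a 0 * BB c k (z 0)‖

/-! ### G. the parameter plane -/

/-- TRX: the quadratic differential with simple poles. -/
def T_TRX : Prop := ∀ (k : ℕ) (c : ℂ) (z β : ℕ → ℂ), Pool.Agent.PLim.Cyc 2 k c z →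
  (∀ j, β (j + 1) * (2 * z j) = β j) → (∀ j, β (j + k) = β j) → β 0 ≠ 0 →
  ∑ j ∈ Finset.range k, β j ≠ 0

/-- ANZ (from TRX, and TRL of PLIM): the second derivative. -/
def T_ANZ : Prop := ∀ (k : ℕ) (c : ℂ) (z : ℕ → ℂ), 1 ≤ k → (∀ l, F 2 c (z l) = z (l + 1)) →
  (∀ l, z (l + k) = z l) → (∀ l m, l < k → m < k → z l = z m → l = m) →
  Rho 2 k c (z 0) = 1 → deriv (deriv ((F 2 c)^[k])) (z 0) ≠ 0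

/-- P0X (from P0, ANZ, and CRV): the cusp estimate in terms of the points `Pt 2 k c z 1`. -/
def T_P0X : Prop := ∃ κ : ℝ, 0 < κ ∧ ∀ (k : ℕ) (c z : ℂ), 1 ≤ k → Pt 2 k c z 1 →
  κ ≤ ‖deriv (deriv ((F 2 c)^[k])) z / 2‖ * ‖deriv (fun c' => (F 2 c')^[k] z) c‖

/-- NPC: no cycles near a fixed point of multiplier one. -/
def T_NPC : Prop := ∀ (k M : ℕ) (c0 z0 : ℂ) (cn xn : ℕ → ℂ), 1 ≤ k → 1 ≤ M →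
  (F 2 c0)^[k] z0 = z0 → Rho 2 k c0 z0 = 1 → Tendsto cn atTop (𝓝 c0) →
  Tendsto xn atTop (𝓝 z0) → (∀ n, (F 2 (cn n))^[k * M] (xn n) = xn n) →
  ∀ᶠ n in atTop, (F 2 (cn n))^[k] (xn n) = xn n

/-- RTE (from CST, CMG of PSAT, MOB, DDO of MEY, FINF, BIG of PLIM; compare AEN/P_LM1.lean): the
limit at the root. -/
def T_RTE : Prop := ∀ (κ : ℝ) (K : ℕ) (P Q : ℂ → ℂ), 0 < κ → Comp K P → Exn κ P Q →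
  ∃ (Z : ℂ → ℂ) (r0 z0 : ℂ), Rt K Q Z r0 z0

/-- DIC (from NPC, ANZ, MOB of AEN): satellite or primitive. -/
def T_DIC : Prop := ∀ (κ : ℝ) (K : ℕ) (P Q Z : ℂ → ℂ) (r0 z0 : ℂ), 0 < κ → Comp K P →
  Exn κ P Q → Rt K Q Z r0 z0 → Sat K P ∨ ∃ z a : ℕ → ℂ, z 0 = z0 ∧ Prb K r0 z a

/-- CUB: the asymptotics of the parametrization at a primitive root. -/
def T_CUB : Prop := ∀ (κ : ℝ) (K : ℕ) (P Q Z : ℂ → ℂ) (r0 : ℂ) (z a : ℕ → ℂ), 0 < κ →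
  Comp K P → Exn κ P Q → Rt K Q Z r0 (z 0) → Prb K r0 z a → BB r0 K (z 0) ≠ 0 →
  ∀ ε : ℝ, 0 < ε → ∃ M : ℝ, 0 < M ∧ ∀ m : ℂ, M ≤ m.re → |m.im| ≤ m.re →
    ‖4 * (a 0 * BB r0 K (z 0)) * m ^ 2 * (Q m - r0) + 1‖ ≤ ε

/-- PTL (from P0, CUB, HPM, and INP, MOB of AEN): the tail at a primitive root. -/
def T_PTL : Prop := ∃ C : ℝ, 1 ≤ C ∧ ∀ (κ : ℝ) (K : ℕ) (P Q Z : ℂ → ℂ) (r0 : ℂ)
  (z a : ℕ → ℂ), 0 < κ → Comp K P → Exn κ P Q → Rt K Q Z r0 (z 0) → Prb K r0 z a →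
  ∀ m ∈ Hp, ‖Q m - r0‖ ≤ C / m.re ^ 2

/-! ### H. the final theorem -/

/-- FNP (from RTE, DIC, PTL, and MOB, EXS, UVP, CHN2, FNS2 of AEN): all components. -/
def T_FNP : Prop := T_NCZ → T_SECZ → ∃ C : ℝ, 0 < C ∧ ∀ (K : ℕ) (P : ℂ → ℂ) (b : ℝ),
  Comp K P → 0 < b → volume (P '' Metric.ball 0 1) ≤ ENNReal.ofReal (b ^ 4) →
  ∀ v ∈ Metric.ball (0 : ℂ) 1, ∀ v' ∈ Metric.ball (0 : ℂ) 1,
    ‖P v - P v'‖ ≤ C * b ^ 2 * (1 + |Real.log b|)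

/-- PRT (from RTE, DIC, PTL, MOB, EXS): the estimate at the primitive roots. -/
def T_PRT : Prop := T_NCZ → ∃ C : ℝ, 0 < C ∧ ∀ (K : ℕ) (P : ℂ → ℂ), Comp K P → ¬ Sat K P →
  ∃ r : ℂ, Tendsto P (𝓝[Metric.ball 0 1] 1) (𝓝 r) ∧ ∀ v ∈ Metric.ball (0 : ℂ) 1,
    ‖P v - r‖ * (1 - ‖v‖ ^ 2) ^ 2 ≤ C * ‖1 - v‖ ^ 4

/-- FINC (from FNP, PRT, and CNT, LGI, INP of AEN; compare AEN/P_FIN2.lean): the final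
statement. -/
def T_FINC : Prop := T_NCZ → T_SECZ → ∃ C : ℝ, 0 < C ∧
  (∀ U : Set ℂ, IsHC U → Metric.diam U ≤
    C * √(volume U).toReal * (1 + |Real.log (volume U).toReal|)) ∧
  (∀ s : Finset (Set ℂ), (∀ U ∈ s, IsHC U) →
    ∑ U ∈ s, (Metric.diam U / (1 + |Real.log (Metric.diam U)|)) ^ 2 ≤ C) ∧
  (∀ ε : ℝ, 0 < ε → {U : Set ℂ | IsHC U ∧ ε ≤ Metric.diam U}.Finite ∧
    ({U : Set ℂ | IsHC U ∧ ε ≤ Metric.diam U}.ncard : ℝ) ≤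
      C * (1 + |Real.log ε|) ^ 2 / ε ^ 2) ∧
  ∀ (K : ℕ) (P : ℂ → ℂ), Comp K P → ¬ Sat K P →
    ∃ r : ℂ, Tendsto P (𝓝[Metric.ball 0 1] 1) (𝓝 r) ∧ ∀ v ∈ Metric.ball (0 : ℂ) 1,
      ‖P v - r‖ * (1 - ‖v‖ ^ 2) ^ 2 ≤ C * ‖1 - v‖ ^ 4

end Pool.Agent.CUSP
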