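import Pool.Agent.CUSP.Targets3

/-!
# CUSP: targets of the parameter plane (final form of the blocks G and H; the proofs are in the
docstrings). These replace DIC, CUB, PTL of Targets3.lean; NPC, RTE, FNP, PRT, FINC are taken from
there.
-/

set_option autoImplicit false

open Complex Filter Topology Set MeasureTheory
open Pool.Agent.Limb (F)
open Pool.Agent.PLim (Rho)
open Pool.Agent.MEY (Pt)
open Pool.Agent.PSat (Comp Sat)
open Pool.Agent.AEN (vm Hp Exn)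
open Pool.Agent.MEZ (T_NCZ T_SECZ)

namespace Pool.Agent.CUSP

/-- The derivative of the iterate of order `k` with respect to the parameter. -/
noncomputable def Gc (k : ℕ) (c z : ℂ) : ℂ := deriv (fun c' => (F 2 c')^[k] z) c

/-- The second derivative of the iterate of order `k`. -/
noncomputable def Gzz (k : ℕ) (c z : ℂ) : ℂ := deriv (deriv ((F 2 c)^[k])) z

/-- The mixed derivative of the iterate of order `k`. -/
noncomputable def Gzc (k : ℕ) (c z : ℂ) : ℂ := deriv (fun c' => Rho 2 k c' z) c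

/-- CTG: the first and second derivatives of the iterates. PROOF. `G (c, z) = (F 2 c)^[k] z` is
`ContDiff ℂ ⊤` on `ℂ × ℂ` (induction on `k`), `Rho 2 k c z = fderiv ℂ G (c, z) (0, 1)` and
`Gc k c z = fderiv ℂ G (c, z) (1, 0)` (compose `G` with the affine maps `z ↦ (c, z)`, `c ↦ (c, z)`);
so both are `ContDiff` again (`ContDiff.fderiv_right`, `ContDiff.clm_apply`); the same for
`G' (c, z) = Rho 2 k c z` and `Gzz`, `Gzc`. Chain rule: `HasFDerivAt.comp_hasDerivAt` with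
`m ↦ (Q m, Z m)` and the linearity of `fderiv`. -/
def T_CTG : Prop := ∀ k : ℕ, Continuous (fun x : ℂ × ℂ => (F 2 x.1)^[k] x.2) ∧
  Continuous (fun x : ℂ × ℂ => Rho 2 k x.1 x.2) ∧ Continuous (fun x : ℂ × ℂ => Gc k x.1 x.2) ∧
  Continuous (fun x : ℂ × ℂ => Gzz k x.1 x.2) ∧ Continuous (fun x : ℂ × ℂ => Gzc k x.1 x.2) ∧
  ∀ (Q Z : ℂ → ℂ) (m : ℂ), DifferentiableAt ℂ Q m → DifferentiableAt ℂ Z m →
    HasDerivAt (fun m => (F 2 (Q m))^[k] (Z m))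
      (Gc k (Q m) (Z m) * deriv Q m + Rho 2 k (Q m) (Z m) * deriv Z m) m ∧
    HasDerivAt (fun m => Rho 2 k (Q m) (Z m))
      (Gzc k (Q m) (Z m) * deriv Q m + Gzz k (Q m) (Z m) * deriv Z m) m

/-- NCY: a map close to the identity has no short cycles. PROOF. Put `y i = g^[i] x` (period `M`
in `i`) and `h y = g y - y`. By the mean value inequality on the convex set `S`,
`‖h (y i) - h (y j)‖ ≤ ‖y i - y j‖ / (2 * M)`. Let `‖h (y j)‖ = H` be the maximum over `j < M` (hence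
over all `j`, by periodicity). For `i ≤ M`: `‖y (j + i) - y j‖ ≤ ∑_{t < i} ‖h (y (j + t))‖ ≤ M * H`,
so `‖h (y (j + i)) - h (y j)‖ ≤ H / 2`. As `∑_{i < M} h (y (j + i)) = y (j + M) - y j = 0`,
`M * H = ‖∑_{i < M} (h (y (j + i)) - h (y j))‖ ≤ M * H / 2`, so `H = 0` and `h x = h (y 0) = 0`. -/
def T_NCY : Prop := ∀ (M : ℕ) (g : ℂ → ℂ) (S : Set ℂ) (x : ℂ), 1 ≤ M → Convex ℝ S →
  (∀ y ∈ S, DifferentiableAt ℂ g y ∧ ‖deriv g y - 1‖ ≤ 1 / (2 * M)) →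
  (∀ i : ℕ, g^[i] x ∈ S) → g^[M] x = x → g x = x

/-- DIK (from NCY, NPC): satellite or primitive. PROOF. Let `f = F 2 r0`. By continuity
(`CNT_contI`, `CNT_contR` of PLim/CNT.lean, along `m = 1, 2, 3, ...`; `vm m → 1`), `f^[K] z0 = z0`
and `Rho 2 K r0 z0 = 1`. Let `k` be the minimal period of `z0` (`k ∣ K`, `K = k * q'`, `q' ≥ 1`).
Then `Rho 2 K r0 z0 = (Rho 2 k r0 z0) ^ q'` (`Rho_mul` of PLim/RCV.lean), so `ρ = Rho 2 k r0 z0` is a
root of unity; let `q = orderOf ρ`, `q' = q * M`. If `M ≥ 2`: apply NPC with `k * q` for `k`, `M`,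
`c0 = r0`, `cn n = Q (n + 1)`, `xn n = Z (n + 1)`: for some `n` the point `Z (n + 1)` is fixed by the
iterate of order `k * q < K`, against `Exa` in `Rt.pt`. So `M = 1`, `K = k * q`. If `q = 1`:
`Pt 2 K r0 z0 1`. If `q ≥ 2`: `ρ` is a primitive root of unity of order `q`
(`Complex.isPrimitiveRoot_iff` or `IsPrimitiveRoot.orderOf`): `ρ = exp (2 π i (p / q))` with
`p < q` coprime to `q`, `p > 0`. And `Tendsto P (𝓝[ball 0 1] 1) (𝓝 r0)` follows from `Rt.lim`,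
`Exn.eq` and T_MOB (third part: `v = vm m` with `2 m + 1 = 2 / (1 - v)`, so `‖m‖ → ∞` as `v → 1`). -/
def T_DIK : Prop := ∀ (κ : ℝ) (K : ℕ) (P Q Z : ℂ → ℂ) (r0 z0 : ℂ), 0 < κ → Comp K P →
  Exn κ P Q → Rt K Q Z r0 z0 →
  Tendsto P (𝓝[Metric.ball 0 1] 1) (𝓝 r0) ∧ (Sat K P ∨ Pt 2 K r0 z0 1)

/-- LT3 (from CTG): the derivative near the root. PROOF. Put `v = vm m`. Differentiate
`(F 2 (Q m))^[K] (Z m) = Z m` and `Rho 2 K (Q m) (Z m) = v` in the open set `Hp` (`Rt.pt`, CTG):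
`Gc Q' + v Z' = Z'` and `Gzc Q' + Gzz Z' = vm' = 4 / (2 m + 1) ^ 2` (all at `(Q m, Z m)`). As
`1 - v = 2 / (2 m + 1)`, multiplying the second equation by `1 - v`:
`Q' * ((1 - v) Gzc + Gzz Gc) = 8 / (2 m + 1) ^ 3`. Along `m = T + Y * I`, `T → ∞`: `Q m → r0`,
`Z m → z0`, `1 - v → 0`; by continuity `(1 - v) Gzc + Gzz Gc → Gzz Gc (r0, z0) ≠ 0`, and
`T ^ 3 * 8 / (2 m + 1) ^ 3 → 1`. -/
def T_LT3 : Prop := ∀ (K : ℕ) (Q Z : ℂ → ℂ) (r0 z0 : ℂ), 1 ≤ K → DifferentiableOn ℂ Q Hp →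
  Rt K Q Z r0 z0 → Gzz K r0 z0 * Gc K r0 z0 ≠ 0 → ∀ Y : ℝ,
  Tendsto (fun T : ℝ => T ^ 3 * ‖deriv Q (T + Y * I)‖) atTop
    (𝓝 (1 / ‖Gzz K r0 z0 * Gc K r0 z0‖))

/-- PTK (from P0X, HPM, LT3, and INP, MOB of AEN): the tail at a primitive root. PROOF. `Q` is
injective on `Hp` (`Exn.eq`, T_INP, second part of T_MOB). With `κ` of T_P0X,
`‖Gzz K r0 z0 * Gc K r0 z0‖ ≥ 2 * κ`. By T_HPM, `t ^ 3 * ‖deriv Q (t + Y * I)‖` is monotone in
`t > 0`, so it is at most its limit, which is at most `1 / (2 * κ)` by T_LT3. So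
`‖deriv Q (t + Y * I)‖ ≤ 1 / (2 * κ * t ^ 3)`; integrate from `t = m.re` to `T` (for instance
`norm_image_sub_le_of_norm_deriv_le_segment_of_norm_deriv_right_le`-like lemma, or
`image_norm_le_of_norm_deriv_right_le_deriv_boundary` with the bound
`B t = 1 / (4 * κ) * (1 / m.re ^ 2 - 1 / t ^ 2)`) and let `T → ∞` (`Rt.lim`). `C = 1 + 1 / (4 κ)`. -/
def T_PTK : Prop := ∃ C : ℝ, 1 ≤ C ∧ ∀ (κ : ℝ) (K : ℕ) (P Q Z : ℂ → ℂ) (r0 z0 : ℂ), 0 < κ →
  Comp K P → Exn κ P Q → Rt K Q Z r0 z0 → Pt 2 K r0 z0 1 →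
  ∀ m ∈ Hp, ‖Q m - r0‖ ≤ C / m.re ^ 2

end Pool.Agent.CUSP
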