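import Pool.Agent.CUSP.Targets4

/-!
# CUSP: targets of the final version of NullSequence (the proofs are in the docstrings)
-/

set_option autoImplicit false

open Complex Filter Topology Set MeasureTheory
open Pool.Agent.Limb (F)
open Pool.Agent.PLim (Rho)
open Pool.Agent.MEY (Pt)
open Pool.Agent.PSat (Comp Sat)
open Pool.Agent.AEN (vm Hp Exn Uv)
open Pool.Agent.MEZ (T_NCZ T_SECZ)

namespace Pool.Agent.CUSP

/-- The strip of the scale `s`. -/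
def Sj (s : ℝ) : Set ℂ := {m : ℂ | s / 2 < m.re ∧ m.re < 3 * s}

/-- The third derivative of the iterate of order `k`. -/
noncomputable def G3 (k : ℕ) (c z : ℂ) : ℂ := deriv (deriv (deriv ((F 2 c)^[k]))) z

/-! ### A. sharper diameter bounds -/

/-- DSV: the areas of the images of the dyadic strips. PROOF. `Sj (2 ^ j * s) ⊆ Hp`; `Q` is
continuous and injective on `Hp` (`Uv.dQ` on the larger half plane, `Uv.inj`), so the images are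
measurable (`MeasurableSet.image_of_continuousOn_injOn`), and the strips with indices `j`, `j'`,
`j + 3 ≤ j'`, are disjoint (`3 * 2 ^ j * s ≤ 2 ^ j' * s / 2`), hence so are their images
(injectivity). For `r < 3`: `∑ i ∈ range N, volume (Q '' Sj (2 ^ (3 * i + r) * s)) =
volume (⋃ ...) ≤ volume (Q '' Hp) ≤ ofReal (b ^ 4)` (`measure_biUnion_finset`); all volumes are
finite, so the same for `toReal`. Every `j < N` is `3 * i + r` with `i < N`, `r < 3`: add the three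
inequalities. -/
def T_DSV : Prop := ∀ (κ b : ℝ) (Q : ℂ → ℂ), Uv κ b Q → ∀ (s : ℝ) (N : ℕ), 0 < s →
  ∑ j ∈ Finset.range N, (volume (Q '' Sj (2 ^ j * s))).toReal ≤ 3 * b ^ 4

/-- DST (from MVA of AEN): one step. PROOF. Let `V = (volume (Q '' Sj s)).toReal` (finite, by
`Uv.ar`), `β = √√V`, `β ^ 4 = V`, `β ^ 2 = √V`. For `t ≤ u ≤ t'` the ball with centre `u + Y * I`
and radius `u / 2` lies in `Sj s` (`s ≤ u ≤ 2 * s`), so T_MVA gives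
`‖deriv Q (u + Y * I)‖ ≤ √V / (u / 2) ≤ 2 * √V / s`. Integrate over `[t, t']`, of length at most `s`
(compare `CHN2_.linest` in AEN/P_CHN2.lean). -/
def T_DST : Prop := ∀ (κ b : ℝ) (Q : ℂ → ℂ), Uv κ b Q → ∀ Y s t t' : ℝ, 0 < s → s ≤ t →
  t ≤ t' → t' ≤ 2 * s →
  ‖Q (t + Y * I) - Q (t' + Y * I)‖ ≤ 2 * √(volume (Q '' Sj s)).toReal

/-- DYA (from DSV, DST): the dyadic chain. PROOF. Put `t j = min (2 ^ j * s) M`; `t 0 = s`,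
`t N = M`, and `‖Q (t j + Y * I) - Q (t (j + 1) + Y * I)‖ ≤ 2 * √(V j)`,
`V j = (volume (Q '' Sj (2 ^ j * s))).toReal` (if `2 ^ j * s ≤ M` by DST with `2 ^ j * s` for `s`;
otherwise both points are `M + Y * I`). So the left side is at most
`2 * ∑ j ∈ range N, √(V j) ≤ 2 * √(N * ∑ V j) ≤ 2 * √(3 * N * b ^ 4) ≤ 4 * b ^ 2 * √N`
(Cauchy-Schwarz: `inner_mul_le_norm_mul_norm`, or `sq_sum_le_card_mul_sum_sq`). -/
def T_DYA : Prop := ∀ (κ b : ℝ) (Q : ℂ → ℂ), Uv κ b Q → ∀ (N : ℕ) (Y s M : ℝ), 0 < s →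
  s ≤ M → M ≤ 2 ^ N * s → ‖Q (s + Y * I) - Q (M + Y * I)‖ ≤ 4 * b ^ 2 * √N

/-- CHN3 (from DYA, and NBD2 of AEN): integration along a horizontal line. PROOF. Let
`lam = log (1 / b) ≥ 0`, `X = 1 + lam + log M ≥ 1`, `s0 = 1 / (1 + lam) ≤ 1 ≤ M`. If `s0 ≤ s`: let
`N = ⌈log (M / s) / log 2⌉₊`; `M ≤ 2 ^ N * s`, and `log (M / s) ≤ log M + log (1 + lam) ≤
log M + lam`, `N ≤ 1 + (log M + lam) / log 2 ≤ (3 / 2) * X` (`log 2 > 2 / 3`), so DYA gives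
`4 * √(3 / 2) * b ^ 2 * √X ≤ 5 * b ^ 2 * √X`. If `s < s0`: by NBD2 the derivative is at most
`11 * b ^ 2 * (1 + lam) / κ` on `[s, s0]`, so the part from `s` to `s0` is at most
`11 * b ^ 2 / κ`, and the part from `s0` to `M` is at most `5 * b ^ 2 * √X` by the first case.
Total `≤ (11 + 5) * b ^ 2 * √X / κ` (`κ ≤ 1`, `1 ≤ √X`). Compare AEN/P_CHN2.lean. -/
def T_CHN3 : Prop := ∀ (κ b : ℝ) (Q : ℂ → ℂ), Uv κ b Q → b ≤ 1 → ∀ Y s M : ℝ, 0 < s →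
  s ≤ M → 1 ≤ M → ‖Q (s + Y * I) - Q (M + Y * I)‖ ≤
    20 * b ^ 2 * √(1 + Real.log (1 / b) + Real.log M) / κ

/-- FNS3 (from MOB, EXS, UVP, KCB, TAL of AEN, and CHN3): satellite components. PROOF. Copy
AEN/P_FNS2.lean with CHN3 for CHN2: with `M = 1 / b ^ 2`, `log M = 2 * lam`,
`20 * b ^ 2 * √(1 + 3 * lam) / κ1 ≤ 40 * b ^ 2 * √(1 + lam) / κ1`, and the tail is at most
`C3 / M = C3 * b ^ 2`. -/
def T_FNS3 : Prop := T_NCZ → T_SECZ → ∃ C : ℝ, 0 < C ∧ ∀ (K : ℕ) (P : ℂ → ℂ) (b : ℝ),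
  Comp K P → Sat K P → 0 < b → volume (P '' Metric.ball 0 1) ≤ ENNReal.ofReal (b ^ 4) →
  ∀ v ∈ Metric.ball (0 : ℂ) 1, ∀ v' ∈ Metric.ball (0 : ℂ) 1,
    ‖P v - P v'‖ ≤ C * b ^ 2 * √(1 + |Real.log b|)

/-- FNP3 (from RTE, DIK, PTK, CHN3, FNS3, and MOB, EXS, UVP of AEN): all components. PROOF. Copy
CUSP/P_FNP.lean with CHN3, FNS3 for CHN2, FNS2: `M = 1 / b`, `log M = lam`,
`20 * b ^ 2 * √(1 + 2 * lam) / κ1 ≤ 40 * b ^ 2 * √(1 + lam) / κ1`. -/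
def T_FNP3 : Prop := T_NCZ → T_SECZ → ∃ C : ℝ, 0 < C ∧ ∀ (K : ℕ) (P : ℂ → ℂ) (b : ℝ),
  Comp K P → 0 < b → volume (P '' Metric.ball 0 1) ≤ ENNReal.ofReal (b ^ 4) →
  ∀ v ∈ Metric.ball (0 : ℂ) 1, ∀ v' ∈ Metric.ball (0 : ℂ) 1,
    ‖P v - P v'‖ ≤ C * b ^ 2 * √(1 + |Real.log b|)

/-- LGI3: inversion of the inequality. PROOF. Claim: `1 + |log a| ≤ C1 * (1 + |log ε|)` with
`C1 = 12 + 2 * log (2 * C)`; then `C' = C * C1`. If `1 ≤ a ≤ 1000`, `|log a| ≤ 7`. If `a < 1`: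
`log (1 / a) = 2 * log (1 / √a) ≤ 2 * (1 / √a - 1)`, so `1 + |log a| ≤ 2 / √a` and
`ε ^ 2 ≤ 2 * C * √a`; take logarithms: `log (1 / a) ≤ 2 * log (2 * C) + 4 * |log ε|`. Compare
AEN/P_LGI.lean. -/
def T_LGI3 : Prop := ∀ C : ℝ, 1 ≤ C → ∃ C' : ℝ, 1 ≤ C' ∧ ∀ ε a : ℝ, 0 < ε → 0 < a → a ≤ 1000 →
  ε ^ 2 ≤ C * a * (1 + |Real.log a|) → ε ^ 2 ≤ C' * a * (1 + |Real.log ε|)

/-- The behaviour of the parametrization at the root. -/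
def RtA (C : ℝ) (K : ℕ) (P : ℂ → ℂ) : Prop :=
  ∃ r : ℂ, Tendsto P (𝓝[Metric.ball 0 1] 1) (𝓝 r) ∧
    (∀ v ∈ Metric.ball (0 : ℂ) 1, ‖P v - r‖ * (1 - ‖v‖ ^ 2) ≤ C * ‖1 - v‖ ^ 2) ∧
    (¬ Sat K P → ∀ v ∈ Metric.ball (0 : ℂ) 1,
      ‖P v - r‖ * (1 - ‖v‖ ^ 2) ^ 2 ≤ C * ‖1 - v‖ ^ 4)

/-- PRA (from RTE, DIK, PTK, and MOB, EXS, KCB, TAL of AEN): the estimate at the root, for all
components. PROOF. `v = vm m`, `2 * m.re * ‖1 - v‖ ^ 2 = 1 - ‖v‖ ^ 2` (`PRT_.re_coord` in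
CUSP/P_PRT.lean), `P v = Q m`. If `¬ Sat K P`: CUSP/P_PRT.lean gives the third statement, and for
the second use `‖Q m - r‖ * m.re ≤ C` (`≤ C / m.re` if `1 ≤ m.re`; `≤ 32` if `m.re < 1`, since
`‖Q m‖ ≤ 16` and so `‖r‖ ≤ 16` by `le_of_tendsto`). If `Sat K P`: `KCB` and `TAL` as in
AEN/P_FNS2.lean: `‖Q m - r‖ ≤ 33 * C2 / m.re` for `C2 < m.re`, and `≤ 32` otherwise, so
`‖Q m - r‖ * m.re ≤ 33 * C2`. -/
def T_PRA : Prop := T_NCZ → T_SECZ → ∃ C : ℝ, 0 < C ∧ ∀ (K : ℕ) (P : ℂ → ℂ), Comp K P → RtA C K P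

/-- FINC3 (from FNP3, PRA, LGI3, and CNT of AEN): the statement about all components. PROOF. Copy
CUSP/P_FINC.lean. From FNP3: `diam ^ 2 ≤ C1 * area * (1 + |log area|)` (for `area > 0` take
`b = area ^ (1 / 4)`; for `area = 0` the diameter is `0`: let `b → 0`, compare `FIN2_.diam_bd` in
AEN/P_FIN2.lean; or apply `FIN2_.mul_log`). Then LGI3 (with `ε = diam` for the sum, and with
`ε ^ 2 ≤ diam ^ 2` for the count, `FIN2_.count`) and CNT. -/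
def T_FINC3 : Prop := T_NCZ → T_SECZ → ∃ C : ℝ, 0 < C ∧
  (∀ U : Set ℂ, IsHC U → Metric.diam U ^ 2 ≤
    C * (volume U).toReal * (1 + |Real.log (volume U).toReal|)) ∧
  (∀ s : Finset (Set ℂ), (∀ U ∈ s, IsHC U) →
    ∑ U ∈ s, Metric.diam U ^ 2 / (1 + |Real.log (Metric.diam U)|) ≤ C) ∧
  (∀ ε : ℝ, 0 < ε → {U : Set ℂ | IsHC U ∧ ε ≤ Metric.diam U}.Finite ∧
    ({U : Set ℂ | IsHC U ∧ ε ≤ Metric.diam U}.ncard : ℝ) ≤ C * (1 + |Real.log ε|) / ε ^ 2) ∧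
  ∀ (K : ℕ) (P : ℂ → ℂ), Comp K P → RtA C K P

/-! ### B. the exact size of the cusp and the index -/

/-- CSZ (from RTE, DIK, CTG, P0X, and MOB, EXS of AEN): the cusp. PROOF. As in CUSP/P_PRT.lean:
`κ`, `Q`, `Z`, `r`, `z` with `Rt K Q Z r z`, `Pt 2 K r z 1`; `Gzz K r z * Gc K r z ≠ 0` by T_P0X
(see P_PTK.lean). `LT3_.key` of CUSP/P_LT3.lean: for `m ∈ Hp`, `w = 1 / (2 * m + 1)`:
`deriv Q m * (2 * w * Gzc + Gzz * Gc) = 8 * w ^ 3` (at `(Q m, Z m)`). With `v = vm m`,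
`1 - v = 2 * w`, `Q = P ∘ vm` on `Hp`, `deriv Q m = deriv P v * 4 * w ^ 2`, which is
`deriv P v * (1 - v) ^ 2`, so `deriv P v * ((1 - v) * Gzc + Gzz * Gc) = 1 - v`. As `v → 1` in the
ball, `‖m‖ → ∞` (`2 * m + 1 = 2 / (1 - v)`), `(Q m, Z m) → (r, z)` (`Rt.lim`), so
`deriv P v / (1 - v) →
1 / (Gzz * Gc)` (CTG: continuity). Second limit: `h u = P u + A / 2 * (1 - u) ^ 2`,
`A = 1 / (Gzz * Gc)`: `‖deriv h u‖ ≤ ε * ‖1 - u‖` near `1`, and for `v` near `1`, `0 < t < 1`,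
`u = v + t * (1 - v)`: the mean value inequality on the segment gives
`‖h u - h v‖ ≤ ε * ‖1 - v‖ ^ 2`; let `t → 1` (`h u → r`). -/
def T_CSZ : Prop := T_NCZ → ∀ (K : ℕ) (P : ℂ → ℂ), Comp K P → ¬ Sat K P → ∃ r z : ℂ,
  Tendsto P (𝓝[Metric.ball 0 1] 1) (𝓝 r) ∧ Pt 2 K r z 1 ∧ Gzz K r z * Gc K r z ≠ 0 ∧
  Tendsto (fun v => deriv P v / (1 - v)) (𝓝[Metric.ball 0 1] 1)
    (𝓝 (1 / (Gzz K r z * Gc K r z))) ∧
  Tendsto (fun v => (P v - r) / (1 - v) ^ 2) (𝓝[Metric.ball 0 1] 1)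
    (𝓝 (-1 / (2 * (Gzz K r z * Gc K r z))))

/-- EXF (from RIT, RAS, CES, XPR): the exact formula. PROOF. CUSP/P_FRM.lean up to `h4 :
3 = 2 * (S0 c z A * (a 0 * BB c k (z 0)))`; this gives the first statement and
`S0 c z A = 3 / (2 * (a 0 * BB c k (z 0)))`; the family `((A y) ^ 2)⁻¹` is summable, since the
family of the norms is (`FRM_.summ`), so `HasSum` with sum `S0 c z A`. -/
def T_EXF : Prop := ∀ (C : ℝ) (k : ℕ) (c : ℂ) (z a : ℕ → ℂ) (L : ℕ → ℂ → ℂ) (A : ℂ → ℂ),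
  Dat k c z a L → Acf c z a A →
  (∀ s : Finset ℂ, (∀ y ∈ s, y ∈ GO c z) → ∑ y ∈ s, (‖A y‖ ^ 2)⁻¹ ≤ C) →
  a 0 * BB c k (z 0) ≠ 0 ∧
  HasSum (fun y : GO c z => ((A y) ^ 2)⁻¹) (3 / (2 * (a 0 * BB c k (z 0))))

/-- GOZ (from AST): the grand orbit of a shifted cycle, and its coefficients. PROOF. If
`(F 2 c)^[n] y = z 0` then, with `l = m * (k - 1)`, `n' = n` we have `z (l + m) = z (m * k) = z 0`,
so `y ∈ GO` of the shifted cycle and `A y = a (l + m) * deriv .. = a 0 * deriv ((F 2 c)^[n]) y`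
(periodicity of `z` and `a`: `Prb.per`, AST). Conversely, if `(F 2 c)^[n] y = z (l + m)`, apply
`(l + m) * (k - 1)` more steps to arrive at `z ((l + m) * k) = z 0`. -/
def T_GOZ : Prop := ∀ (k m : ℕ) (c : ℂ) (z a : ℕ → ℂ) (A : ℂ → ℂ), Prb k c z a →
  Acf c (fun i => z (i + m)) (fun i => a (i + m)) A →
  (GO c (fun i => z (i + m)) = {y : ℂ | ∃ n : ℕ, (F 2 c)^[n] y = z 0}) ∧
  ∀ (y : ℂ) (n : ℕ), (F 2 c)^[n] y = z 0 → A y = a 0 * deriv ((F 2 c)^[n]) y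

/-- EXP (from EXF, GOZ, OBS, OMX, ACF, SUM, ABI, AST, ANZ, CRV): the exact formula for the points of
exact period `k` with multiplier one. PROOF. The `Prb` structure of CUSP/P_P0X.lean
(`z l = (F 2 c)^[l] z`, `a l = Gzz k c (z l) / 2`), the shift by `m` of CUSP/P_P0.lean; SUM and EXF
give `HasSum (fun y : GO => ((A y) ^ 2)⁻¹) (3 / (2 * (a 0 * BB c k z)))` (ABI), and by GOZ
`A y = a 0 * deriv ((F 2 c)^[n]) y` with `n = sInf {n | (F 2 c)^[n] y = z}` (`Nat.sInf_mem`).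
Multiply by `a 0 ^ 2`, and `BB c k z = Gc k c z` (`P0X_.hasBB`):
`a 0 ^ 2 * 3 / (2 * a 0 * Gc) = 3 / 4 * Gzz / Gc`. -/
def T_EXP : Prop := ∀ (k : ℕ) (c z : ℂ), 1 ≤ k → Pt 2 k c z 1 →
  HasSum (fun y : {y : ℂ | ∃ n : ℕ, (F 2 c)^[n] y = z} =>
    ((deriv ((F 2 c)^[sInf {n : ℕ | (F 2 c)^[n] y = z}]) y) ^ 2)⁻¹)
    (3 / 4 * Gzz k c z / Gc k c z)

/-- IDL: the third derivative in terms of the inverse branch. PROOF. Let `f = (F 2 c)^[k]`. Near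
`ζ`, `f (G x) = x`, `G ζ = ζ`, `deriv G ζ = 1`, `deriv (deriv G) ζ = -2 * α` (see `GBR_.second` in
CUSP/P_GBR.lean). Differentiating three times at `ζ`: `f' G' = 1`,
`f'' G' ^ 2 + f' G'' = 0`, `f''' G' ^ 3 + 3 f'' G' G'' + f' G''' = 0`, so
`f''' = 12 * α ^ 2 - G'''` (here `f'' = 2 * α`). By Cauchy's estimate
(`Complex.norm_iteratedDeriv_le_of_forall_mem_sphere_norm_le`) for `G x - x` on the circle of
radius `R / 2`, where `‖G x - x‖ ≤ C * R / 4`: `‖G'''‖ ≤ 6 * (C * R / 4) / (R / 2) ^ 3 =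
12 * C / R ^ 2 ≤ 12 * C * ‖α‖ ^ 2 / κ ^ 2`. `C' = 12 + 12 * C / κ ^ 2`. -/
def T_IDL : Prop := ∀ C κ : ℝ, 0 < κ → ∃ C' : ℝ, 0 < C' ∧ ∀ (k : ℕ) (c ζ α : ℂ) (R : ℝ)
  (G : ℂ → ℂ), Gbr C k c ζ α R G → (F 2 c)^[k] ζ = ζ → deriv ((F 2 c)^[k]) ζ = 1 →
  deriv (deriv ((F 2 c)^[k])) ζ = 2 * α → κ ≤ ‖α‖ * R → ‖G3 k c ζ‖ ≤ C' * ‖α‖ ^ 2

/-- IDC (from AST): the third derivative along the cycle. PROOF. `f = (F 2 c)^[k]`, `g = F 2 c`,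
`f (g x) = g (f x)`, i.e. `f (x ^ 2 + c) = (f x) ^ 2 + c` for all `x`. Differentiate three times:
`12 x f'' (x ^ 2 + c) + 8 x ^ 3 f''' (x ^ 2 + c) = 6 f' f'' + 2 f f'''` (at `x`), and put `x = z l`:
`f x = x`, `f' x = 1`, `f'' x = 2 a l = 2 * (2 * x) * a (l + 1)`, `f'' (x ^ 2 + c) = 2 * a (l + 1)`:
`24 x a (l + 1) + 8 x ^ 3 f''' (z (l + 1)) = 24 x a (l + 1) + 2 x f''' x`; divide by `2 x ≠ 0`. -/
def T_IDC : Prop := ∀ (k : ℕ) (c : ℂ) (z a : ℕ → ℂ), Prb k c z a → ∀ l : ℕ,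
  G3 k c (z l) = (2 * z l) ^ 2 * G3 k c (z (l + 1))

/-- IDX (from IDL, IDC, LMB, GBR, XPR, OBS, OMX, AST, ANZ, CRV): one constant bounds the index of
all cycles with multiplier one. PROOF. `Prb` structure as in CUSP/P_P0X.lean, shift by `m` as in
CUSP/P_P0.lean, `Dat` for the shifted cycle; LMB gives `l` with `κ ≤ ‖a l‖ * Rl k z L l`, GBR gives
`G`, IDL gives `‖G3 k c (z l)‖ ≤ C' * ‖a l‖ ^ 2`. By IDC and `a l = 2 * z l * a (l + 1)` (AST) the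
inequality at `z (l + 1)` is equivalent to the one at `z l` (`z l ≠ 0`), so it holds at all points
of the cycle, in particular at `z`; `‖a‖ = ‖Gzz k c z‖ / 2`. -/
def T_IDX : Prop := ∃ C : ℝ, 0 < C ∧ ∀ (k : ℕ) (c z : ℂ), 1 ≤ k → Pt 2 k c z 1 →
  ‖G3 k c z‖ ≤ C * ‖Gzz k c z‖ ^ 2

end Pool.Agent.CUSP
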