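import Pool.Agent.CUSP.Targets5

/-!
# CUSP: targets, the second order term of the cusp (the proofs are in the docstrings)
-/

set_option autoImplicit false

open Complex Filter Topology Set MeasureTheory
open Pool.Agent.Limb (F)
open Pool.Agent.PLim (Rho)
open Pool.Agent.MEY (Pt)
open Pool.Agent.PSat (Comp Sat)
open Pool.Agent.AEN (vm Hp Exn Uv)
open Pool.Agent.MEZ (T_NCZ T_SECZ)

namespace Pool.Agent.CUSP

/-- CT2: difference quotients along curves. PROOF. `(c, z) ↦ (F 2 c)^[k] z` is `ContDiff ℂ ⊤` on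
`ℂ × ℂ`, hence so are `Gc` and `Gzz` (CUSP/P_CTG.lean). Let `g` be one of them; `HasFDerivAt g L x0`
at `x0 = (c0, z0)`. The value `L (0, 1)` is the derivative of `z ↦ g (c0, z)` at `z0`: for `Gzz` it
is `G3 k c0 z0` by definition; for `Gc` it is `Gzc k c0 z0` (symmetry of the second derivative of
`(c, z) ↦ (F 2 c)^[k] z`: `second_derivative_symmetric`, or `ContDiffAt.isSymmSndFDerivAt`). With
`x v = (C v, ζ v)`: `‖g (x v) - g x0 - L (x v - x0)‖ ≤ ε * ‖x v - x0‖` eventually, and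
`(x v - x0) / (v - 1) → (0, b)`; divide by `v - 1`. -/
def T_CT2 : Prop := ∀ (k : ℕ) (c0 z0 b : ℂ) (l : Filter ℂ) (C ζ : ℂ → ℂ),
  Tendsto C l (𝓝 c0) → Tendsto ζ l (𝓝 z0) → (∀ᶠ v in l, v ≠ 1) →
  Tendsto (fun v => (C v - c0) / (v - 1)) l (𝓝 0) →
  Tendsto (fun v => (ζ v - z0) / (v - 1)) l (𝓝 b) →
  Tendsto (fun v => (Gzz k (C v) (ζ v) - Gzz k c0 z0) / (v - 1)) l (𝓝 (b * G3 k c0 z0)) ∧
  Tendsto (fun v => (Gc k (C v) (ζ v) - Gc k c0 z0) / (v - 1)) l (𝓝 (b * Gzc k c0 z0))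

/-- CT3: the velocity of the periodic point. PROOF. `g (c, z) = Rho 2 k c z` is `ContDiff`
(P_CTG.lean), `HasFDerivAt g L x0`, `L (0, 1) = Gzz k c0 z0` (`Rho 2 k c` is the derivative of
`(F 2 c)^[k]`), `α = L (1, 0)`. Put `p = (C v - c0) / (v - 1)`, `q = (ζ v - z0) / (v - 1)`.
Eventually `v - 1 = g (x v) - g x0`, so `‖1 - α * p - Gzz * q‖ ≤ ε * (‖p‖ + ‖q‖)`. As `p → 0`, this
first bounds `q` (take `ε ≤ ‖Gzz‖ / 2`), and then gives `q → 1 / Gzz`. -/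
def T_CT3 : Prop := ∀ (k : ℕ) (c0 z0 : ℂ) (l : Filter ℂ) (C ζ : ℂ → ℂ),
  Tendsto C l (𝓝 c0) → Tendsto ζ l (𝓝 z0) → (∀ᶠ v in l, v ≠ 1) →
  Tendsto (fun v => (C v - c0) / (v - 1)) l (𝓝 0) → Rho 2 k c0 z0 = 1 →
  (∀ᶠ v in l, Rho 2 k (C v) (ζ v) = v) → Gzz k c0 z0 ≠ 0 →
  Tendsto (fun v => (ζ v - z0) / (v - 1)) l (𝓝 (1 / Gzz k c0 z0))

/-- IN3: integration. PROOF. As `CSZ_.second` in CUSP/P_CSZ.lean, with
`h u = P u - r + A / 2 * (1 - u) ^ 2 + B / 3 * (1 - u) ^ 3`,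
`deriv h u = deriv P u - A * (1 - u) - B * (1 - u) ^ 2`, which is at most `ε * ‖1 - u‖ ^ 2` in norm
near `1`; so `‖h v‖ ≤ ε * ‖1 - v‖ ^ 3` (note `deriv P v / (1 - v) → A`). -/
def T_IN3 : Prop := ∀ (P : ℂ → ℂ) (r A B : ℂ), DifferentiableOn ℂ P (Metric.ball 0 1) →
  Tendsto P (𝓝[Metric.ball 0 1] 1) (𝓝 r) →
  Tendsto (fun v => (deriv P v / (1 - v) - A) / (1 - v)) (𝓝[Metric.ball 0 1] 1) (𝓝 B) →
  Tendsto (fun v => ((P v - r) / (1 - v) ^ 2 + A / 2) / (1 - v)) (𝓝[Metric.ball 0 1] 1)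
    (𝓝 (-B / 3))

/-- CS3 (from CT2, CT3, IN3, RTE, DIK, CTG, P0X, and MOB, EXS of AEN): the second order term of the
cusp. PROOF. As CUSP/P_CSZ.lean (use its lemmas): `κ`, `Q`, `Z`, `r`, `z`, `Mv`, and
`deriv P v / (1 - v) = 1 / D v`, `D v = (1 - v) * Gzc + Gzz * Gc` at `(P v, ζ v)`,
`ζ v = Z (Mv v)`, `D v → D1 = Gzz K r z * Gc K r z ≠ 0`. First `(P v - r) / (v - 1) → 0` (from
`CSZ_.second`: `(P v - r) / (1 - v) ^ 2` converges). CT3 (`Rho 2 K (P v) (ζ v) = vm (Mv v) = v`):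
`(ζ v - z) / (v - 1) → b = 1 / Gzz`. CT2:
`(D v - D1) / (v - 1)`, which is `- Gzc + (Gzz - Gzz1) / (v - 1) * Gc + Gzz1 * (Gc - Gc1) / (v - 1)`,
tends to `- Gzc + b * G3 * Gc + Gzz * b * Gzc = G3 * Gc / Gzz`. So
`(1 / D v - 1 / D1) / (1 - v) = ((D v - D1) / (v - 1)) / (D v * D1) → G3 / (Gzz ^ 3 * Gc)`, and IN3
with `A = 1 / D1`, `B = G3 / (Gzz ^ 3 * Gc)`. -/
def T_CS3 : Prop := T_NCZ → ∀ (K : ℕ) (P : ℂ → ℂ), Comp K P → ¬ Sat K P → ∃ r z : ℂ,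
  Tendsto P (𝓝[Metric.ball 0 1] 1) (𝓝 r) ∧ Pt 2 K r z 1 ∧ Gzz K r z * Gc K r z ≠ 0 ∧
  Tendsto (fun v => ((P v - r) / (1 - v) ^ 2 + 1 / (2 * (Gzz K r z * Gc K r z))) / (1 - v))
    (𝓝[Metric.ball 0 1] 1) (𝓝 (-(G3 K r z / (3 * (Gzz K r z ^ 3 * Gc K r z)))))

end Pool.Agent.CUSP
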